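import Pool.Agent.MP_92c74b_an.Brouwer

open Set

namespace Pool.Agent.MP_943ae2_gt

/-- approximate fixed points -/
theorem tych_approx {E : Type} [AddCommGroup E] [Module ℝ E] [TopologicalSpace E]
    [IsTopologicalAddGroup E] [ContinuousSMul ℝ E] [T2Space E]
    {K : Set E} (hc : IsCompact K) (hv : Convex ℝ K) (hn : K.Nonempty) {f : E → E}
    (hf : ContinuousOn f K) (hm : MapsTo f K K) {V : Set E} (hVo : IsOpen V) (hVc : Convex ℝ V)
    (hV0 : (0 : E) ∈ V) : ∃ y ∈ K, f y - y ∈ V := by
  classical
  obtain ⟨x₀, hx₀⟩ := hn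
  have : CompactSpace K := isCompact_iff_compactSpace.1 hc
  set U : K → Set K := fun x => {y | (y : E) - x ∈ V} with hU
  have hUo : ∀ x, IsOpen (U x) := fun x =>
    hVo.preimage (continuous_subtype_val.sub continuous_const)
  obtain ⟨t, ht⟩ := isCompact_univ.elim_finite_subcover U hUo fun y _ =>
    mem_iUnion.2 ⟨y, by simpa [hU] using hV0⟩
  obtain ⟨φ, hφ⟩ := PartitionOfUnity.exists_isSubordinate (ι := t) isClosed_univ
    (fun i => U i) (fun i => hUo i) fun y hy => by
      obtain ⟨i, hi, hy⟩ := mem_iUnion₂.1 (ht hy)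
      exact mem_iUnion.2 ⟨⟨i, hi⟩, hy⟩
  have hsum : ∀ y : K, ∑ i, φ i y = 1 := fun y => by
    rw [← finsum_eq_sum_of_fintype]; exact φ.sum_eq_one (mem_univ y)
  set m : (t → ℝ) → ℝ := fun a => max 1 (∑ i, max (a i) 0) with hmd
  have hm0 : ∀ a, 0 < m a := fun a => lt_max_of_lt_left one_pos
  set r : (t → ℝ) → t → ℝ := fun a i => max (a i) 0 / m a with hr
  have hr0 : ∀ a i, 0 ≤ r a i := fun a i => div_nonneg (le_max_right _ _) (hm0 a).le
  have hr1 : ∀ a, ∑ i, r a i ≤ 1 := fun a => by
    simp only [hr]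
    rw [← Finset.sum_div, div_le_one (hm0 a)]
    exact le_max_right _ _
  have hmc : Continuous m := by
    simp only [hmd]; fun_prop
  have hrc : ∀ i, Continuous fun a => r a i := fun i =>
    Continuous.div (by fun_prop) hmc fun a => (hm0 a).ne'
  set p : (t → ℝ) → E := fun a => (1 - ∑ i, r a i) • x₀ + ∑ i, r a i • ((i : K) : E) with hp
  have hpK : ∀ a, p a ∈ K := fun a => by
    have := hv.sum_mem (t := Finset.univ) (ι := Option t)
      (w := fun o => o.elim (1 - ∑ i, r a i) (r a))
      (z := fun o => o.elim x₀ fun i => ((i : K) : E))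
      (fun o _ => by
        cases o with
        | none => exact sub_nonneg.2 (hr1 a)
        | some i => exact hr0 a i)
      (by simp [Fintype.sum_option])
      (fun o _ => by
        cases o with
        | none => exact hx₀
        | some i => exact (i : K).2)
    simpa only [Fintype.sum_option, Option.elim_none, Option.elim_some] using this
  have hpc : Continuous p :=
    ((continuous_const.sub (continuous_finsetSum _ fun i _ => hrc i)).smul continuous_const).add
      (continuous_finsetSum _ fun i _ => (hrc i).smul continuous_const)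
  set q : (t → ℝ) → K := fun a => ⟨f (p a), hm (hpK a)⟩ with hq
  have hqc : Continuous q := (hf.comp_continuous hpc hpK).subtype_mk _
  obtain ⟨a, -, ha⟩ := MP_92c74b_an.brouwer_cube (ι := t) zero_le_one (fun a i => φ i (q a))
    (continuous_pi fun i => (φ i).continuous.comp hqc).continuousOn fun a _ i => by
      rw [abs_of_nonneg (φ.nonneg i _)]; exact φ.le_one i _
  have ha' : ∀ i, a i = φ i (q a) := fun i => (congrFun ha i).symm
  have ha0 : ∀ i, max (a i) 0 = a i := fun i => max_eq_left (by rw [ha']; exact φ.nonneg i _)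
  have ha1 : ∑ i, a i = 1 := by
    rw [← hsum (q a)]; exact Finset.sum_congr rfl fun i _ => ha' i
  have hra : ∀ i, r a i = a i := fun i => by
    simp only [hr, hmd, ha0, ha1, max_self, div_one]
  have hpa : p a = ∑ i, a i • ((i : K) : E) := by
    simp only [hp, hra, ha1, sub_self, zero_smul, zero_add]
  refine ⟨p a, hpK a, ?_⟩
  have e : f (p a) - p a = ∑ i, a i • (if a i = 0 then 0 else f (p a) - ((i : K) : E)) := by
    have : ∀ i, a i • (if a i = 0 then 0 else f (p a) - ((i : K) : E)) =
        a i • f (p a) - a i • ((i : K) : E) := fun i => by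
      split_ifs with h
      · simp [h]
      · rw [smul_sub]
    simp only [this]
    rw [Finset.sum_sub_distrib, ← Finset.sum_smul, ha1, one_smul, ← hpa]
  rw [e]
  refine hVc.sum_mem (fun i _ => by rw [ha']; exact φ.nonneg i _) ha1 fun i _ => ?_
  split_ifs with h
  · exact hV0
  · exact hφ i (subset_tsupport _ (by rw [ha'] at h; exact h) : q a ∈ tsupport (φ i))

/-- the Schauder–Tychonoff fixed point theorem -/
theorem tychonoff {E : Type} [AddCommGroup E] [Module ℝ E] [TopologicalSpace E]
    [IsTopologicalAddGroup E] [ContinuousSMul ℝ E] [LocallyConvexSpace ℝ E] [T2Space E]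
    {K : Set E} (hc : IsCompact K) (hv : Convex ℝ K) (hn : K.Nonempty) {f : E → E}
    (hf : ContinuousOn f K) (hm : MapsTo f K K) : ∃ x ∈ K, f x = x := by
  by_contra hne
  have hS : IsClosed ((fun y => f y - y) '' K) :=
    (hc.image_of_continuousOn (hf.sub continuousOn_id)).isClosed
  have h0 : ((fun y => f y - y) '' K)ᶜ ∈ nhds (0 : E) :=
    hS.isOpen_compl.mem_nhds fun ⟨y, hy, h⟩ => hne ⟨y, hy, sub_eq_zero.1 h⟩
  obtain ⟨W, ⟨hW, hWc⟩, hWS⟩ := (LocallyConvexSpace.convex_basis (𝕜 := ℝ) (0 : E)).mem_iff.1 h0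
  obtain ⟨y, hy, h⟩ := tych_approx hc hv hn hf hm isOpen_interior hWc.interior
    (mem_interior_iff_mem_nhds.2 hW)
  exact hWS (interior_subset h) ⟨y, hy, rfl⟩

end Pool.Agent.MP_943ae2_gt
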