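import Pool.Agent.MP_943ae2_gt.Glue0

open Set Complex Filter
open scoped Topology ComplexConjugate ContDiff

noncomputable section

namespace Pool.Agent.MP_943ae2_gt

open Metric

/-- Differentiation of a circle integral in a parameter. -/
theorem dec_circ_deriv {F F' : ℂ → ℂ → ℂ} {U : Set ℂ} {c z : ℂ} {r : ℝ} (hU : IsOpen U) (hz : z ∈ U)
    (hr : 0 ≤ r) (hF : ∀ w ∈ U, ContinuousOn (F w) (sphere c r))
    (hF' : ContinuousOn (fun p : ℂ × ℂ => F' p.1 p.2) (U ×ˢ sphere c r))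
    (hd : ∀ w ∈ U, ∀ ζ ∈ sphere c r, HasDerivAt (fun w => F w ζ) (F' w ζ) w) :
    HasDerivAt (fun w => ∮ ζ in C(c, r), F w ζ) (∮ ζ in C(c, r), F' z ζ) z := by
  obtain ⟨ε, hε, hsub⟩ := nhds_basis_closedBall.mem_iff.1 (hU.mem_nhds hz)
  obtain ⟨M, hM⟩ := ((isCompact_closedBall z ε).prod (isCompact_sphere c r)).exists_bound_of_continuousOn
    (hF'.mono (prod_mono hsub subset_rfl))
  have hc : ∀ G : ℂ → ℂ, ContinuousOn G (sphere c r) →
      Continuous fun θ : ℝ => deriv (circleMap c r) θ • G (circleMap c r θ) := by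
    intro G hG
    have h1 : Continuous fun θ : ℝ => G (circleMap c r θ) :=
      hG.comp_continuous (continuous_circleMap c r) (circleMap_mem_sphere c hr)
    have h2 : Continuous fun θ : ℝ => deriv (circleMap c r) θ := by
      simp only [deriv_circleMap]
      exact (continuous_circleMap 0 r).mul continuous_const
    exact h2.smul h1
  have hFz : ContinuousOn (F' z) (sphere c r) :=
    hF'.comp (f := fun ζ : ℂ => (z, ζ)) (by fun_prop) fun ζ hζ => ⟨hz, hζ⟩
  have key := intervalIntegral.hasDerivAt_integral_of_dominated_loc_of_deriv_le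
    (μ := MeasureTheory.volume) (a := 0) (b := 2 * Real.pi) (bound := fun _ => r * M)
    (F := fun w θ => deriv (circleMap c r) θ • F w (circleMap c r θ))
    (F' := fun w θ => deriv (circleMap c r) θ • F' w (circleMap c r θ)) (x₀ := z)
    (s := closedBall z ε) (closedBall_mem_nhds z hε)
    (by
      filter_upwards [hU.mem_nhds hz] with w hw
      exact (hc _ (hF w hw)).aestronglyMeasurable)
    ((hc _ (hF z hz)).intervalIntegrable _ _) (hc _ hFz).aestronglyMeasurable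
    (Eventually.of_forall fun θ _ w hw => by
      have h1 := hM (w, circleMap c r θ) ⟨hw, circleMap_mem_sphere c hr θ⟩
      rw [norm_smul, deriv_circleMap, norm_mul, norm_I, mul_one, norm_circleMap_zero,
        abs_of_nonneg hr]
      exact mul_le_mul_of_nonneg_left h1 hr)
    intervalIntegrable_const
    (Eventually.of_forall fun θ _ w hw =>
      (hd w (hsub hw) _ (circleMap_mem_sphere c hr θ)).const_smul (deriv (circleMap c r) θ))
  exact key.2

theorem dec_ne {c w ζ : ℂ} {r : ℝ} (hw : ‖w - c‖ ≠ r) (hζ : ζ ∈ sphere c r) : w - ζ ≠ 0 := by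
  intro h
  rw [sub_eq_zero] at h
  rw [mem_sphere_iff_norm] at hζ
  exact hw (h ▸ hζ)

/-- The Cauchy integral is holomorphic off the circle. -/
theorem dec_cauchy_diff {f : ℂ → ℂ} {c z : ℂ} {r : ℝ} (hr : 0 ≤ r)
    (hf : ContinuousOn f (sphere c r)) (hz : ‖z - c‖ ≠ r) :
    DifferentiableAt ℂ (fun z => (2 * Real.pi * I)⁻¹ * ∮ ζ in C(c, r), f ζ / (z - ζ)) z := by
  have hU : IsOpen {w : ℂ | ‖w - c‖ ≠ r} := isOpen_ne_fun (by fun_prop) continuous_const
  have := dec_circ_deriv (F := fun w ζ => f ζ / (w - ζ)) (F' := fun w ζ => -f ζ / (w - ζ) ^ 2)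
    hU hz hr
    (fun w hw => hf.div (by fun_prop) fun ζ hζ => dec_ne hw hζ)
    (((hf.comp continuousOn_snd fun p hp => hp.2).neg).div (by fun_prop)
      fun p hp => pow_ne_zero 2 (dec_ne hp.1 hp.2))
    (fun w hw ζ hζ => by
      have h1 := (hasDerivAt_const w (f ζ)).div ((hasDerivAt_id w).sub_const ζ) (dec_ne hw hζ)
      refine h1.congr_deriv ?_
      simp)
  exact this.differentiableAt.const_mul _

/-- The Cauchy integral tends to zero at infinity. -/
theorem dec_cauchy_lim {f : ℂ → ℂ} {c : ℂ} {r : ℝ} (hr : 0 ≤ r)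
    (hf : ContinuousOn f (sphere c r)) :
    Tendsto (fun z => (2 * Real.pi * I)⁻¹ * ∮ ζ in C(c, r), f ζ / (z - ζ))
      (Bornology.cobounded ℂ) (𝓝 0) := by
  obtain ⟨M, hM⟩ := (isCompact_sphere c r).exists_bound_of_continuousOn hf
  have h1 : Tendsto (fun z : ℂ => ‖z - c‖ - r) (Bornology.cobounded ℂ) atTop := by
    have := tendsto_dist_right_cobounded_atTop c
    simp only [dist_eq_norm] at this
    exact tendsto_atTop_add_const_right _ (-r) this
  have h2 : Tendsto (fun z : ℂ => r * (|M| / (‖z - c‖ - r))) (Bornology.cobounded ℂ) (𝓝 0) := by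
    have := (h1.const_div_atTop |M|).const_mul r
    rwa [mul_zero] at this
  refine squeeze_zero_norm' ?_ h2
  filter_upwards [h1.eventually_gt_atTop 0] with z hz
  refine circleIntegral.norm_two_pi_i_inv_smul_integral_le_of_norm_le_const hr fun ζ hζ => ?_
  have h3 : ‖z - c‖ - r ≤ ‖z - ζ‖ := by
    have h4 := norm_sub_le_norm_sub_add_norm_sub z ζ c
    rw [mem_sphere_iff_norm] at hζ
    linarith
  rw [norm_div]
  exact div_le_div₀ (abs_nonneg M) ((hM ζ hζ).trans (le_abs_self M)) hz h3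

/-- The Cauchy formula on an annulus. -/
theorem dec_annulus {f : ℂ → ℂ} {O : Set ℂ} {c z : ℂ} {r R : ℝ} (hO : IsOpen O)
    (hf : DifferentiableOn ℂ f O) (hr : 0 < r) (hsub : closedBall c R \ ball c r ⊆ O)
    (h1 : r < ‖z - c‖) (h2 : ‖z - c‖ < R) :
    f z = ((2 * Real.pi * I)⁻¹ * ∮ ζ in C(c, r), f ζ / (z - ζ)) -
      (2 * Real.pi * I)⁻¹ * ∮ ζ in C(c, R), f ζ / (z - ζ) := by
  have hrR : r ≤ R := (h1.trans h2).le
  have hzO : z ∈ O := hsub ⟨mem_closedBall_iff_norm.2 h2.le, by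
    rw [mem_ball_iff_norm]; exact not_lt.2 h1.le⟩
  have hg : DifferentiableOn ℂ (dslope f z) O := (differentiableOn_dslope (hO.mem_nhds hzO)).2 hf
  have key := circleIntegral_eq_of_differentiable_on_annulus_off_countable hr hrR countable_empty
    (hg.continuousOn.mono hsub) (fun w hw => hg.differentiableAt (hO.mem_nhds
      (hsub ⟨ball_subset_closedBall hw.1.1, fun h => hw.1.2 (ball_subset_closedBall h)⟩)))
  have hsp : ∀ t, r ≤ t → t ≤ R → ‖z - c‖ ≠ t → (∮ ζ in C(c, t), dslope f z ζ) =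
      -(∮ ζ in C(c, t), f ζ / (z - ζ)) - f z * ∮ ζ in C(c, t), (ζ - z)⁻¹ := by
    intro t ht1 ht2 hne
    have ht : 0 ≤ t := hr.le.trans ht1
    have hs : sphere c t ⊆ O := fun ζ hζ => hsub ⟨by
      rw [mem_closedBall, mem_sphere.1 hζ]; exact ht2, by
      rw [mem_ball, mem_sphere.1 hζ]; exact not_lt.2 ht1⟩
    have i1 : CircleIntegrable (fun ζ => (-1 : ℂ) * (f ζ / (z - ζ))) c t :=
      ContinuousOn.circleIntegrable ht (continuousOn_const.mul
        ((hf.continuousOn.mono hs).div (by fun_prop) fun ζ hζ => dec_ne hne hζ))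
    have i2 : CircleIntegrable (fun ζ => f z * (ζ - z)⁻¹) c t :=
      ContinuousOn.circleIntegrable ht (continuousOn_const.mul
        (ContinuousOn.inv₀ (by fun_prop) fun ζ hζ h =>
          dec_ne hne hζ (by rw [← neg_sub, h, neg_zero])))
    rw [← circleIntegral.integral_const_mul, neg_eq_neg_one_mul, ← circleIntegral.integral_const_mul,
      ← circleIntegral.integral_sub i1 i2]
    refine circleIntegral.integral_congr ht fun ζ hζ => ?_
    have h3 : z - ζ ≠ 0 := dec_ne hne hζ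
    have h4 : ζ - z ≠ 0 := fun h => h3 (by rw [← neg_sub, h, neg_zero])
    rw [dslope_of_ne _ (sub_ne_zero.1 h4), slope_def_field]
    field_simp
    ring
  rw [hsp R hrR le_rfl h2.ne, hsp r le_rfl hrR h1.ne',
    circleIntegral.integral_sub_inv_of_mem_ball (mem_ball_iff_norm.2 h2)] at key
  have h0 : (∮ ζ in C(c, r), (ζ - z)⁻¹) = 0 := by
    have hne : ∀ ζ ∈ closedBall c r, ζ - z ≠ 0 := fun ζ hζ h => by
      rw [sub_eq_zero] at h
      rw [h, mem_closedBall_iff_norm] at hζ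
      linarith
    exact circleIntegral_eq_zero_of_differentiable_on_off_countable hr.le countable_empty
      (ContinuousOn.inv₀ (by fun_prop) hne)
      fun ζ hζ => DifferentiableAt.inv (by fun_prop) (hne ζ (ball_subset_closedBall hζ.1))
  rw [h0] at key
  have hpi : (2 * Real.pi * I : ℂ) ≠ 0 := two_pi_I_ne_zero
  rw [← mul_sub, eq_inv_mul_iff_mul_eq₀ hpi]
  linear_combination -key

theorem dec_delta {κ : Type} (s : Finset κ) (c : κ → ℂ) (r : κ → ℝ)
    (hd : ∀ e ∈ s, ∀ e' ∈ s, e ≠ e' → r e + r e' < ‖c e - c e'‖) :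
    ∃ δ : ℝ, 0 < δ ∧ ∀ e ∈ s, ∀ e' ∈ s, e ≠ e' → r e + r e' + 2 * δ < ‖c e - c e'‖ := by
  have h : ∀ᶠ δ in 𝓝 (0 : ℝ), ∀ e ∈ s, ∀ e' ∈ s, e ≠ e' → r e + r e' + 2 * δ < ‖c e - c e'‖ := by
    refine (Finset.eventually_all s).2 fun e he => (Finset.eventually_all s).2 fun e' he' => ?_
    by_cases hne : e = e'
    · exact Eventually.of_forall fun _ h => absurd hne h
    · have hc : Continuous fun δ : ℝ => r e + r e' + 2 * δ := by fun_prop
      have := hc.continuousAt (x := 0).eventually_lt (continuousAt_const (y := ‖c e - c e'‖))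
        (by simpa using hd e he e' he' hne)
      exact this.mono fun _ h _ => h
  obtain ⟨δ, h1, h2⟩ := ((h.filter_mono nhdsWithin_le_nhds).and
    (self_mem_nhdsWithin (s := Ioi (0 : ℝ)))).exists
  exact ⟨δ, h2, h1⟩

theorem decomp {κ : Type} (s : Finset κ) (c : κ → ℂ) (r : κ → ℝ) {f : ℂ → ℂ} {f0 : ℂ} {O : Set ℂ}
    (hO : IsOpen O) (hs : {z | ∀ e ∈ s, r e ≤ ‖z - c e‖} ⊆ O) (hf : DifferentiableOn ℂ f O)
    (hr : ∀ e ∈ s, 0 < r e) (hd : ∀ e ∈ s, ∀ e' ∈ s, e ≠ e' → r e + r e' < ‖c e - c e'‖)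
    (hi : Tendsto f (Bornology.cobounded ℂ) (𝓝 f0)) {z : ℂ} (hz : ∀ e ∈ s, r e < ‖z - c e‖) :
    f z = f0 + ∑ e ∈ s, (2 * Real.pi * I)⁻¹ * ∮ ζ in C(c e, r e), f ζ / (z - ζ) := by
  classical
  obtain ⟨δ, hδ, hD⟩ := dec_delta s c r hd
  obtain ⟨P, hP⟩ : ∃ P : ℂ → ℝ → ℂ → ℂ,
      P = fun a t z => (2 * Real.pi * I)⁻¹ * ∮ ζ in C(a, t), f ζ / (z - ζ) := ⟨_, rfl⟩
  have far : ∀ e ∈ s, ∀ e' ∈ s, e ≠ e' → ∀ w : ℂ, ‖w - c e‖ ≤ r e + δ →
      r e' + δ < ‖w - c e'‖ := by
    intro e he e' he' hne w hw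
    have h1 := hD e he e' he' hne
    have h2 := norm_sub_le_norm_sub_add_norm_sub (c e) w (c e')
    rw [norm_sub_rev (c e) w] at h2
    linarith
  have ann : ∀ e ∈ s, closedBall (c e) (r e + δ) \ ball (c e) (r e) ⊆ O := by
    intro e he w hw
    refine hs fun e' he' => ?_
    by_cases hne : e = e'
    · subst hne
      have := hw.2
      rw [mem_ball_iff_norm] at this
      exact not_lt.1 this
    · have := far e he e' he' hne w (mem_closedBall_iff_norm.1 hw.1)
      linarith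
  have cs : ∀ e ∈ s, ∀ t, r e ≤ t → t ≤ r e + δ → ContinuousOn f (sphere (c e) t) := by
    intro e he t h1 h2
    refine hf.continuousOn.mono fun ζ hζ => ann e he ⟨?_, ?_⟩
    · rw [mem_closedBall, mem_sphere.1 hζ]; exact h2
    · rw [mem_ball, mem_sphere.1 hζ]; exact not_lt.2 h1
  have dP : ∀ e ∈ s, ∀ t, r e ≤ t → t ≤ r e + δ → ∀ w, ‖w - c e‖ ≠ t →
      DifferentiableAt ℂ (P (c e) t) w := by
    intro e he t h1 h2 w hw
    rw [hP]
    exact dec_cauchy_diff ((hr e he).le.trans h1) (cs e he t h1 h2) hw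
  have ex : ∀ w : ℂ, ∃ v : ℂ, (∀ e ∈ s, ‖w - c e‖ < r e + δ →
      v = -P (c e) (r e + δ) w - ∑ e' ∈ s.erase e, P (c e') (r e') w) ∧
      ((∀ e ∈ s, r e < ‖w - c e‖) → v = f w - ∑ e ∈ s, P (c e) (r e) w) := by
    intro w
    by_cases h : ∃ e ∈ s, ‖w - c e‖ < r e + δ
    · obtain ⟨e, he, hw⟩ := h
      refine ⟨-P (c e) (r e + δ) w - ∑ e' ∈ s.erase e, P (c e') (r e') w, fun e' he' hw' => ?_,
        fun h1 => ?_⟩
      · by_cases hne : e = e'
        · rw [hne]
        · have := far e he e' he' hne w hw.le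
          linarith
      · have h2 : f w = P (c e) (r e) w - P (c e) (r e + δ) w := by
          rw [hP]
          exact dec_annulus hO hf (hr e he) (ann e he) (h1 e he) hw
        rw [← Finset.add_sum_erase s _ he, h2]
        ring
    · exact ⟨_, fun e he hw => absurd ⟨e, he, hw⟩ h, fun _ => rfl⟩
  choose g g1 g2 using ex
  have hV : IsOpen {w : ℂ | ∀ e ∈ s, r e < ‖w - c e‖} := by
    have : {w : ℂ | ∀ e ∈ s, r e < ‖w - c e‖} = ⋂ e ∈ s, {w : ℂ | r e < ‖w - c e‖} := by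
      ext w
      simp
    rw [this]
    exact isOpen_biInter_finset fun e _ => isOpen_lt continuous_const (by fun_prop)
  have hg : Differentiable ℂ g := by
    intro w
    by_cases h : ∃ e ∈ s, ‖w - c e‖ < r e + δ
    · obtain ⟨e, he, hw⟩ := h
      have h1 : DifferentiableAt ℂ
          (fun w => -P (c e) (r e + δ) w - ∑ e' ∈ s.erase e, P (c e') (r e') w) w := by
        refine (dP e he _ (by linarith) le_rfl w hw.ne).neg.sub
          (DifferentiableAt.fun_sum fun e' he' => ?_)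
        have he'' := Finset.mem_of_mem_erase he'
        have := far e he e' he'' (Finset.ne_of_mem_erase he').symm w hw.le
        exact dP e' he'' _ le_rfl (by linarith) w (by linarith : r e' < ‖w - c e'‖).ne'
      refine h1.congr_of_eventuallyEq ?_
      have ho : IsOpen {w : ℂ | ‖w - c e‖ < r e + δ} := isOpen_lt (by fun_prop) continuous_const
      filter_upwards [ho.mem_nhds hw] with u hu
      exact g1 u e he hu
    · have hw : ∀ e ∈ s, r e < ‖w - c e‖ := fun e he => by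
        have := not_lt.1 fun h' => h ⟨e, he, h'⟩
        linarith
      have h1 : DifferentiableAt ℂ (fun w => f w - ∑ e ∈ s, P (c e) (r e) w) w :=
        (hf.differentiableAt (hO.mem_nhds (hs fun e he => (hw e he).le))).sub
          (DifferentiableAt.fun_sum fun e he => dP e he _ le_rfl (by linarith) w (hw e he).ne')
      refine h1.congr_of_eventuallyEq ?_
      filter_upwards [hV.mem_nhds hw] with u hu
      exact g2 u hu
  have hlim : Tendsto g (Bornology.cobounded ℂ) (𝓝 f0) := by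
    have h1 : Tendsto (fun w => ∑ e ∈ s, P (c e) (r e) w) (Bornology.cobounded ℂ)
        (𝓝 (∑ e ∈ s, 0)) := by
      refine tendsto_finsetSum s fun e he => ?_
      rw [hP]
      exact dec_cauchy_lim (hr e he).le (cs e he _ le_rfl (by linarith))
    have h2 := hi.sub h1
    rw [Finset.sum_const_zero, sub_zero] at h2
    refine h2.congr' ?_
    have h3 : ∀ᶠ w in Bornology.cobounded ℂ, ∀ e ∈ s, r e < ‖w - c e‖ := by
      refine (Finset.eventually_all s).2 fun e _ => ?_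
      have := (tendsto_dist_right_cobounded_atTop (c e)).eventually_gt_atTop (r e)
      simpa only [dist_eq_norm] using this
    filter_upwards [h3] with w hw
    exact (g2 w hw).symm
  rw [Metric.cobounded_eq_cocompact] at hlim
  have h1 := hg.apply_eq_of_tendsto_cocompact z hlim
  have h2 := g2 z hz
  rw [h1, hP] at h2
  rw [h2]
  ring

theorem dec_norm_lt {c w ζ : ℂ} {r : ℝ} (hw : r < ‖w - c‖) (hζ : ζ ∈ sphere c r) :
    w - c ≠ 0 ∧ 1 - (ζ - c) / (w - c) ∈ slitPlane := by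
  rw [mem_sphere_iff_norm] at hζ
  have h0 : 0 < ‖w - c‖ := (hζ ▸ norm_nonneg (ζ - c)).trans_lt hw
  refine ⟨norm_pos_iff.1 h0, ?_⟩
  rw [sub_eq_add_neg]
  refine mem_slitPlane_of_norm_lt_one ?_
  rw [norm_neg, norm_div, hζ, div_lt_one h0]
  exact hw

theorem prim_deriv {f : ℂ → ℂ} {c z : ℂ} {r : ℝ} (hr : 0 < r) (hf : ContinuousOn f (sphere c r))
    (hz : r < ‖z - c‖) :
    HasDerivAt (fun z => (2 * Real.pi * I)⁻¹ * ∮ ζ in C(c, r), f ζ * log (1 - (ζ - c) / (z - c)))
      (((2 * Real.pi * I)⁻¹ * ∮ ζ in C(c, r), f ζ / (z - ζ)) -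
        ((2 * Real.pi * I)⁻¹ * ∮ ζ in C(c, r), f ζ) / (z - c)) z := by
  have hU : IsOpen {w : ℂ | r < ‖w - c‖} := isOpen_lt continuous_const (by fun_prop)
  have key := dec_circ_deriv (F := fun w ζ => f ζ * log (1 - (ζ - c) / (w - c)))
    (F' := fun w ζ => f ζ / (w - ζ) - (w - c)⁻¹ * f ζ) hU hz hr.le
    (fun w hw => hf.mul (ContinuousOn.clog (by fun_prop) fun ζ hζ => (dec_norm_lt hw hζ).2))
    (((hf.comp continuousOn_snd fun p hp => hp.2).div (by fun_prop)
      fun p hp => dec_ne (ne_of_gt hp.1) hp.2).sub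
      ((ContinuousOn.inv₀ (by fun_prop) fun p hp => (dec_norm_lt hp.1 hp.2).1).mul
        (hf.comp continuousOn_snd fun p hp => hp.2)))
    (fun w hw ζ hζ => by
      obtain ⟨h1, h2⟩ := dec_norm_lt hw hζ
      have h3 : w - ζ ≠ 0 := dec_ne (ne_of_gt hw) hζ
      have h4 := (((hasDerivAt_const w (ζ - c)).div ((hasDerivAt_id w).sub_const c) h1).const_sub
        1).clog h2
      refine (h4.const_mul (f ζ)).congr_deriv ?_
      have h5 : 1 - (ζ - c) / (w - c) = (w - ζ) / (w - c) := by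
        field_simp
        ring
      simp only [Pi.div_apply, id]
      rw [h5]
      field_simp
      ring)
  have i1 : CircleIntegrable (fun ζ => f ζ / (z - ζ)) c r :=
    ContinuousOn.circleIntegrable hr.le (hf.div (by fun_prop) fun ζ hζ => dec_ne hz.ne' hζ)
  have i2 : CircleIntegrable (fun ζ => (z - c)⁻¹ * f ζ) c r :=
    ContinuousOn.circleIntegrable hr.le (continuousOn_const.mul hf)
  refine (key.const_mul (2 * Real.pi * I : ℂ)⁻¹).congr_deriv ?_
  rw [circleIntegral.integral_sub i1 i2, circleIntegral.integral_const_mul]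
  ring

theorem prim_bound {f : ℂ → ℂ} {c z : ℂ} {r M : ℝ} (hr : 0 < r) (hf : ∀ ζ ∈ sphere c r, ‖f ζ‖ ≤ M)
    (hz : 2 * r ≤ ‖z - c‖) :
    ‖(2 * Real.pi * I)⁻¹ * ∮ ζ in C(c, r), f ζ * log (1 - (ζ - c) / (z - c))‖ ≤
      2 * M * r ^ 2 / ‖z - c‖ := by
  have h0 : 0 < ‖z - c‖ := by linarith
  have hM : 0 ≤ M := (norm_nonneg _).trans (hf _ (circleMap_mem_sphere c hr.le 0))
  refine (circleIntegral.norm_two_pi_i_inv_smul_integral_le_of_norm_le_const
    (C := M * (2 * (r / ‖z - c‖))) hr.le fun ζ hζ => ?_).trans (le_of_eq (by ring))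
  have h1 : ‖-((ζ - c) / (z - c))‖ = r / ‖z - c‖ := by
    rw [norm_neg, norm_div, mem_sphere_iff_norm.1 hζ]
  have h2 : r / ‖z - c‖ ≤ 1 / 2 := by
    rw [div_le_iff₀ h0]
    linarith
  have h3 := norm_log_one_add_half_le_self (h1.le.trans h2)
  have h4 : 0 ≤ r / ‖z - c‖ := by positivity
  rw [h1, ← sub_eq_add_neg] at h3
  rw [norm_mul]
  exact mul_le_mul (hf ζ hζ) (by linarith) (norm_nonneg _) hM

theorem dec_mem {c γ ζ : ℂ} {r ρ : ℝ} (hr : 0 < r) (h : ‖γ‖ / r < ρ) (hζ : ζ ∈ sphere c r) :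
    ζ - c ≠ 0 ∧ γ / (ζ - c) ∈ ball (0 : ℂ) ρ := by
  rw [mem_sphere_iff_norm] at hζ
  refine ⟨norm_pos_iff.1 (hζ ▸ hr), ?_⟩
  rw [mem_ball_zero_iff, norm_div, hζ]
  exact h

theorem inv_int0 {G : ℂ → ℂ} {c γ : ℂ} {r ρ : ℝ} (hr : 0 < r) (hG : DifferentiableOn ℂ G (ball 0 ρ))
    (h : ‖γ‖ / r < ρ) : (∮ ζ in C(c, r), G (γ / (ζ - c)) / (ζ - c) ^ 2) = 0 := by
  by_cases hγ : γ = 0
  · refine circleIntegral.integral_eq_zero_of_hasDerivWithinAt (f := fun ζ => -G 0 / (ζ - c)) hr.le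
      fun ζ hζ => HasDerivAt.hasDerivWithinAt ?_
    have h1 := (dec_mem hr h hζ).1
    refine ((hasDerivAt_const ζ (-G 0)).div ((hasDerivAt_id ζ).sub_const c) h1).congr_deriv ?_
    simp [hγ]
  · obtain ⟨H, hH⟩ := hG.isExactOn_ball
    refine circleIntegral.integral_eq_zero_of_hasDerivWithinAt
      (f := fun ζ => -γ⁻¹ * H (γ / (ζ - c))) hr.le fun ζ hζ => HasDerivAt.hasDerivWithinAt ?_
    obtain ⟨h1, h2⟩ := dec_mem hr h hζ
    have h3 : HasDerivAt (fun ζ => γ / (ζ - c)) (-γ / (ζ - c) ^ 2) ζ := by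
      refine ((hasDerivAt_const ζ γ).div ((hasDerivAt_id ζ).sub_const c) h1).congr_deriv ?_
      simp
    refine (((hH _ h2).comp ζ h3).const_mul (-γ⁻¹)).congr_deriv ?_
    field_simp

theorem inv_int1 {G : ℂ → ℂ} {c γ : ℂ} {r ρ : ℝ} (hr : 0 < r) (hG : DifferentiableOn ℂ G (ball 0 ρ))
    (h : ‖γ‖ / r < ρ) : ((2 * Real.pi * I)⁻¹ * ∮ ζ in C(c, r), G (γ / (ζ - c)) / (ζ - c)) = G 0 := by
  have hρ : 0 < ρ := (div_nonneg (norm_nonneg γ) hr.le).trans_lt h
  have hK : DifferentiableOn ℂ (dslope G 0) (ball 0 ρ) :=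
    (differentiableOn_dslope (ball_mem_nhds 0 hρ)).2 hG
  have h0 := inv_int0 (c := c) hr hK h
  have i1 : CircleIntegrable (fun ζ => G 0 * (ζ - c)⁻¹) c r :=
    ContinuousOn.circleIntegrable hr.le (continuousOn_const.mul
      (ContinuousOn.inv₀ (by fun_prop) fun ζ hζ => (dec_mem hr h hζ).1))
  have i2 : CircleIntegrable (fun ζ => γ * (dslope G 0 (γ / (ζ - c)) / (ζ - c) ^ 2)) c r :=
    ContinuousOn.circleIntegrable hr.le (continuousOn_const.mul
      ((hK.continuousOn.comp (f := fun ζ => γ / (ζ - c))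
        (continuousOn_const.div (by fun_prop) fun ζ hζ => (dec_mem hr h hζ).1)
        fun ζ hζ => (dec_mem hr h hζ).2).div (by fun_prop)
        fun ζ hζ => pow_ne_zero 2 (dec_mem hr h hζ).1))
  have e : (∮ ζ in C(c, r), G (γ / (ζ - c)) / (ζ - c)) =
      ∮ ζ in C(c, r), G 0 * (ζ - c)⁻¹ + γ * (dslope G 0 (γ / (ζ - c)) / (ζ - c) ^ 2) := by
    refine circleIntegral.integral_congr hr.le fun ζ hζ => ?_
    have h1 := (dec_mem hr h hζ).1
    have h2 := sub_smul_dslope G 0 (γ / (ζ - c))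
    rw [sub_zero, smul_eq_mul] at h2
    have h3 : G (γ / (ζ - c)) = G 0 + γ / (ζ - c) * dslope G 0 (γ / (ζ - c)) := by
      rw [h2]
      ring
    generalize dslope G 0 (γ / (ζ - c)) = k at h3
    rw [h3]
    field_simp
  rw [e, circleIntegral.integral_add i1 i2, circleIntegral.integral_const_mul,
    circleIntegral.integral_const_mul, h0, circleIntegral.integral_sub_center_inv c hr.ne']
  have hpi : (2 * Real.pi * I : ℂ) ≠ 0 := two_pi_I_ne_zero
  field_simp
  ring

end Pool.Agent.MP_943ae2_gt
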