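import Pool.Agent.MP_943ae2_gt.Sp2
import Pool.Agent.MP_943ae2_gt.Dec

open Set Complex Filter
open scoped Topology ComplexConjugate ContDiff

noncomputable section

namespace Pool.Agent.MP_943ae2_gt

variable {ι : Type} {F : Frm ι} {d : Dat ι}

/-- the constant term of the Laurent expansion of `g v * k (γ / v)` -/
def resJ (r : ℝ) (γ : ℂ) (g k : ℂ → ℂ) : ℂ :=
  Real.circleAverage (fun v => g v * k (γ / v)) 0 r

lemma res_norm_avg {f : ℂ → ℂ} {r M : ℝ} (hr : 0 ≤ r) (hf : ∀ v, ‖v‖ = r → ‖f v‖ ≤ M) :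
    ‖Real.circleAverage f 0 r‖ ≤ M := by
  rw [Real.circleAverage_def, norm_smul]
  have h1 := intervalIntegral.norm_integral_le_of_norm_le_const (a := 0) (b := 2 * Real.pi)
    (f := fun θ => f (circleMap 0 r θ)) (C := M)
    (fun θ _ => hf _ (by simp [abs_of_nonneg hr]))
  have hp := Real.pi_pos
  rw [sub_zero, abs_of_pos (by positivity)] at h1
  rw [Real.norm_eq_abs, abs_of_pos (by positivity), inv_mul_le_iff₀ (by positivity)]
  linarith

lemma res_mem {γ v : ℂ} {r ρ : ℝ} (hγ : ‖γ‖ / r < ρ) (hv : ‖v‖ = r) :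
    γ / v ∈ Metric.ball (0 : ℂ) ρ := by
  rw [mem_ball_zero_iff, norm_div, hv]; exact hγ

lemma res_cont_inv {k : ℂ → ℂ} {γ : ℂ} {r ρ : ℝ} (hr : 0 < r)
    (hk : DifferentiableOn ℂ k (Metric.ball 0 ρ)) (hγ : ‖γ‖ / r < ρ) :
    ContinuousOn (fun v => k (γ / v)) (Metric.sphere 0 r) := by
  refine hk.continuousOn.comp (continuousOn_const.div continuousOn_id fun v hv => ?_)
    fun v hv => res_mem hγ (by simpa using hv)
  have : ‖v‖ = r := by simpa using hv
  exact norm_pos_iff.1 (this ▸ hr)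

lemma res_cont {g : ℂ → ℂ} {r ρ : ℝ} (hg : DifferentiableOn ℂ g (Metric.ball 0 ρ)) (hρ : r < ρ) :
    ContinuousOn g (Metric.sphere 0 r) :=
  hg.continuousOn.mono (Metric.sphere_subset_ball hρ)

lemma resJ_norm {g k : ℂ → ℂ} {γ : ℂ} {r ρ M N : ℝ} (hr : 0 < r) (hρ : r < ρ) (hγ : ‖γ‖ / r < ρ)
    (hg : ∀ v, ‖v‖ < ρ → ‖g v‖ ≤ M) (hk : ∀ v, ‖v‖ < ρ → ‖k v‖ ≤ N) :
    ‖resJ r γ g k‖ ≤ M * N := by
  refine res_norm_avg hr.le fun v hv => ?_
  rw [norm_mul]
  have h1 := hg v (hv ▸ hρ)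
  exact mul_le_mul h1 (hk _ (mem_ball_zero_iff.1 (res_mem hγ hv))) (norm_nonneg _)
    ((norm_nonneg _).trans h1)

lemma resJ_left {g k : ℂ → ℂ} {γ : ℂ} {r ρ : ℝ} (hr : 0 < r) (hρ : r < ρ) (hγ : ‖γ‖ / r < ρ)
    (hg : DifferentiableOn ℂ g (Metric.ball 0 ρ)) (hk : DifferentiableOn ℂ k (Metric.ball 0 ρ)) :
    resJ r γ g k - k 0 = resJ r γ (fun v => g v - 1) k := by
  have h1 : Real.circleAverage (fun v => k (γ / v)) 0 r = k 0 := by
    rw [Real.circleAverage_eq_circleIntegral hr.ne', ← inv_int1 (c := 0) hr hk hγ, smul_eq_mul]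
    congr 1
    refine circleIntegral.integral_congr hr.le fun v _ => ?_
    simp only [sub_zero, smul_eq_mul]
    ring
  have c2 := res_cont_inv hr hk hγ
  rw [← h1, resJ, resJ, ← Real.circleAverage_fun_sub (f₁ := fun v => g v * k (γ / v))
    (((res_cont hg hρ).mul c2).circleIntegrable hr.le) (c2.circleIntegrable hr.le)]
  congr 1
  funext v
  ring

lemma resJ_right {g k : ℂ → ℂ} {γ : ℂ} {r ρ : ℝ} (hr : 0 < r) (hρ : r < ρ) (hγ : ‖γ‖ / r < ρ)
    (hg : DifferentiableOn ℂ g (Metric.ball 0 ρ)) (hk : DifferentiableOn ℂ k (Metric.ball 0 ρ)) :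
    resJ r γ g k - g 0 = resJ r γ g (fun v => k v - 1) := by
  have h1 : Real.circleAverage g 0 r = g 0 := by
    refine circleAverage_of_differentiable_on_off_countable (s := ∅) countable_empty ?_ ?_
    · rw [abs_of_pos hr]
      exact hg.continuousOn.mono (Metric.closedBall_subset_ball hρ)
    · intro z hz
      rw [abs_of_pos hr] at hz
      exact hg.differentiableAt (Metric.isOpen_ball.mem_nhds (Metric.ball_subset_ball hρ.le hz.1))
  have c1 := res_cont hg hρ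
  rw [← h1, resJ, resJ, ← Real.circleAverage_fun_sub (f₁ := fun v => g v * k (γ / v))
    ((c1.mul (res_cont_inv hr hk hγ)).circleIntegrable hr.le) (c1.circleIntegrable hr.le)]
  congr 1
  funext v
  ring

lemma resJ_radius {g k : ℂ → ℂ} {γ : ℂ} {r r' ρ : ℝ} (hr : 0 < r) (hrr : r ≤ r') (hρ : r' < ρ)
    (hγ : ‖γ‖ / r < ρ)
    (hg : DifferentiableOn ℂ g (Metric.ball 0 ρ)) (hk : DifferentiableOn ℂ k (Metric.ball 0 ρ)) :
    resJ r' γ g k = resJ r γ g k := by
  have key : ∀ v : ℂ, r ≤ ‖v‖ → ‖v‖ ≤ r' → DifferentiableAt ℂ (fun v => g v * k (γ / v)) v := by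
    intro v h1 h2
    have hv : 0 < ‖v‖ := hr.trans_le h1
    have m1 : v ∈ Metric.ball (0 : ℂ) ρ := mem_ball_zero_iff.2 (h2.trans_lt hρ)
    have m2 : γ / v ∈ Metric.ball (0 : ℂ) ρ := by
      rw [mem_ball_zero_iff, norm_div]
      exact (div_le_div_of_nonneg_left (norm_nonneg _) hr h1).trans_lt hγ
    refine (hg.differentiableAt (Metric.isOpen_ball.mem_nhds m1)).mul ?_
    exact (hk.differentiableAt (Metric.isOpen_ball.mem_nhds m2)).comp v
      ((differentiableAt_const γ).div differentiableAt_id (norm_pos_iff.1 hv))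
  rw [resJ, resJ, Real.circleAverage_eq_circleIntegral hr.ne',
    Real.circleAverage_eq_circleIntegral (hr.trans_le hrr).ne']
  congr 1
  refine circleIntegral_sub_center_inv_smul_eq_of_differentiable_on_annulus_off_countable hr hrr
    countable_empty (fun v hv => (key v ?_ ?_).continuousAt.continuousWithinAt)
    fun v hv => key v ?_ ?_
  · simpa using hv.2
  · simpa using hv.1
  · have := hv.1.2
    simp only [mem_closedBall_zero_iff, not_le] at this
    exact this.le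
  · have := hv.1.1
    simp only [mem_ball_zero_iff] at this
    exact this.le

lemma resJ_conj {g k : ℂ → ℂ} {γ : ℂ} {r : ℝ} (hr : 0 < r) (hγ : γ ≠ 0) :
    conj (resJ r γ k (tl g)) = resJ (‖γ‖ / r) (conj γ) g (tl k) := by
  rw [resJ, resJ, Real.circleAverage_eq_integral_add (-arg γ) (R := ‖γ‖ / r),
    Real.circleAverage_def, real_smul, real_smul, map_mul, conj_ofReal,
    ← intervalIntegral.intervalIntegral_conj]
  congr 2
  funext θ
  have hr' : (r : ℂ) ≠ 0 := ofReal_ne_zero.2 hr.ne'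
  have e1 : circleMap 0 (‖γ‖ / r) (θ + -arg γ) = conj (γ / circleMap 0 r θ) := by
    have hγ' : conj γ = ‖γ‖ * exp (-(arg γ * I)) := by
      conv_lhs => rw [← norm_mul_exp_arg_mul_I γ]
      rw [map_mul, conj_ofReal, ← exp_conj, map_mul, conj_ofReal, conj_I, mul_neg]
    rw [map_div₀, hγ', circleMap, circleMap, zero_add, zero_add, map_mul, conj_ofReal, ← exp_conj,
      map_mul, conj_ofReal, conj_I, mul_neg, exp_neg (θ * I)]
    push_cast
    rw [add_mul, exp_add, neg_mul]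
    have := exp_ne_zero (θ * I)
    field_simp
  have hc : circleMap 0 r θ ≠ 0 := circleMap_ne_center hr.ne'
  rw [e1]
  have e2 : conj (conj γ / conj (γ / circleMap 0 r θ)) = circleMap 0 r θ := by
    rw [map_div₀, conj_conj, conj_conj]
    field_simp
  simp only [tl, map_mul, conj_conj, e2]
  ring

lemma resJ_swap {g k : ℂ → ℂ} {γ : ℂ} {r ρ : ℝ} (hr : 0 < r) (hγ0 : γ ≠ 0) (hle : r ≤ ‖γ‖ / r)
    (hγ : ‖γ‖ / r < ρ)
    (hg : DifferentiableOn ℂ g (Metric.ball 0 ρ)) (hk : DifferentiableOn ℂ k (Metric.ball 0 ρ)) :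
    conj (resJ r γ k (tl g)) = resJ r (conj γ) g (tl k) := by
  rw [resJ_conj hr hγ0]
  exact resJ_radius hr hle hγ (by simpa using hγ) hg (tl_differentiableOn hk)

/-- the residue of a product of two split functions -/
lemma res_prod {f P Q P' Q' : ℂ → ℂ} {c β β' γ : ℂ} {r ρ : ℝ} (hr : 0 < r) (hρ : r < ρ)
    (hγ : ‖γ‖ / r < ρ) (hP : DifferentiableOn ℂ P (Metric.ball 0 ρ))
    (hQ : DifferentiableOn ℂ Q (Metric.ball 0 ρ)) (hP' : DifferentiableOn ℂ P' (Metric.ball 0 ρ))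
    (hQ' : DifferentiableOn ℂ Q' (Metric.ball 0 ρ))
    (hf : ∀ v, ‖v‖ = r → f (c + v) = (P v + β / v * P' (γ / v)) * (Q v + β' / v * Q' (γ / v))) :
    (2 * Real.pi * I)⁻¹ * (∮ ζ in C(c, r), f ζ) = β' * resJ r γ P Q' + β * resJ r γ Q P' := by
  have shift : (∮ ζ in C(c, r), f ζ) = ∮ v in C(0, r), f (c + v) := by
    simp [circleIntegral, circleMap]
  have hne : ∀ v ∈ Metric.sphere (0 : ℂ) r, v ≠ 0 := fun v hv => by
    have : ‖v‖ = r := by simpa using hv
    exact norm_pos_iff.1 (this ▸ hr)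
  have cP := res_cont hP hρ
  have cQ := res_cont hQ hρ
  have cP' := res_cont_inv hr hP' hγ
  have cQ' := res_cont_inv hr hQ' hγ
  have ci : ContinuousOn (fun v : ℂ => (v - 0)⁻¹) (Metric.sphere 0 r) :=
    (continuousOn_id.sub continuousOn_const).inv₀ fun v hv => by simpa using hne v hv
  have i1 : CircleIntegrable (fun v => P v * Q v) 0 r := (cP.mul cQ).circleIntegrable hr.le
  have i2 : CircleIntegrable (fun v => β' * ((v - 0)⁻¹ • (P v * Q' (γ / v)))) 0 r :=
    (continuousOn_const.mul (ci.smul (cP.mul cQ'))).circleIntegrable hr.le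
  have i3 : CircleIntegrable (fun v => β * ((v - 0)⁻¹ • (Q v * P' (γ / v)))) 0 r :=
    (continuousOn_const.mul (ci.smul (cQ.mul cP'))).circleIntegrable hr.le
  have i4 : CircleIntegrable
      (fun v => β * β' * (P' (γ / (v - 0)) * Q' (γ / (v - 0)) / (v - 0) ^ 2)) 0 r := by
    refine (continuousOn_const.mul (ContinuousOn.div ?_ (by fun_prop) ?_)).circleIntegrable hr.le
    · simp only [sub_zero]
      exact cP'.mul cQ'
    · intro v hv
      simpa using hne v hv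
  have z1 : (∮ v in C(0, r), P v * Q v) = 0 :=
    circleIntegral_eq_zero_of_differentiable_on_off_countable hr.le countable_empty
      ((hP.mul hQ).continuousOn.mono (Metric.closedBall_subset_ball hρ)) fun z hz =>
      (hP.mul hQ).differentiableAt
        (Metric.isOpen_ball.mem_nhds (Metric.ball_subset_ball hρ.le hz.1))
  have z4 := inv_int0 (G := fun w => P' w * Q' w) (c := 0) hr (hP'.mul hQ') hγ
  have e : (∮ v in C(0, r), f (c + v)) = ∮ v in C(0, r),
      (P v * Q v + β' * ((v - 0)⁻¹ • (P v * Q' (γ / v))) + β * ((v - 0)⁻¹ • (Q v * P' (γ / v))) +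
        β * β' * (P' (γ / (v - 0)) * Q' (γ / (v - 0)) / (v - 0) ^ 2)) := by
    refine circleIntegral.integral_congr hr.le fun v hv => ?_
    have h0 := hne v hv
    simp only [hf v (by simpa using hv), sub_zero, smul_eq_mul]
    field_simp
    ring
  have i12 : CircleIntegrable
      (fun v => P v * Q v + β' * ((v - 0)⁻¹ • (P v * Q' (γ / v)))) 0 r := i1.add i2
  have i123 : CircleIntegrable (fun v => P v * Q v + β' * ((v - 0)⁻¹ • (P v * Q' (γ / v))) +
      β * ((v - 0)⁻¹ • (Q v * P' (γ / v)))) 0 r := i12.add i3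
  rw [shift, e, circleIntegral.integral_add i123 i4,
    circleIntegral.integral_add i12 i3, circleIntegral.integral_add i1 i2,
    circleIntegral.integral_const_mul, circleIntegral.integral_const_mul,
    circleIntegral.integral_const_mul, z1, z4, resJ, resJ,
    Real.circleAverage_eq_circleIntegral hr.ne', Real.circleAverage_eq_circleIntegral hr.ne']
  simp only [smul_eq_mul]
  ring

namespace Frm.Adm

variable (h : F.Adm d)
include h

lemma res_big (e : ι × Bool) : ‖d.bet e ^ 2‖ / F.sr d e = 2 * F.R e := by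
  have := h.bet_pos e
  have := h.R_pos e
  rw [norm_pow, Frm.sr]
  field_simp

lemma res_lt (e : ι × Bool) : ‖d.bet e ^ 2‖ / F.sr d e < 4 * F.R e := by
  rw [h.res_big]
  linarith [h.R_pos e]

lemma res_le (e : ι × Bool) : F.sr d e ≤ ‖d.bet e ^ 2‖ / F.sr d e := by
  rw [h.res_big, Frm.sr, div_le_iff₀ (by linarith [h.R_pos e])]
  have h1 : 1 ≤ (F.t e.1)⁻¹ := one_le_inv₀ (h.t_pos _) |>.2 (by linarith [h.t_small e.1])
  have h2 : (F.t e.1)⁻¹ ≤ F.R e := le_self_pow₀ h1 (by norm_num)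
  have h3 := (h.bet_le e).trans h2
  have h4 := h.bet_pos e
  nlinarith

lemma res_sr_lt (e : ι × Bool) : F.sr d e < 4 * F.R e := (h.res_le e).trans_lt (h.res_lt e)

lemma res_holAt (e : ι × Bool) :
    DifferentiableOn ℂ (tl ((F.spin d).1 (opp e))) (Metric.ball 0 (4 * F.R e)) :=
  tl_differentiableOn (h.holA (opp e))

lemma res_holBt (e : ι × Bool) :
    DifferentiableOn ℂ (tl ((F.spin d).2 (opp e))) (Metric.ball 0 (4 * F.R e)) :=
  tl_differentiableOn (h.holB (opp e))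

lemma res_bdAt (e : ι × Bool) (v : ℂ) (hv : ‖v‖ < 4 * F.R e) :
    ‖tl ((F.spin d).1 (opp e)) v - 1‖ ≤ 2 * F.t e.1 ^ 30 := by
  have := h.bdA (opp e) (v := conj v) (by simpa using hv)
  rw [← norm_conj, map_sub, map_one] at this
  exact this

lemma res_bdBt (e : ι × Bool) (v : ℂ) (hv : ‖v‖ < 4 * F.R e) :
    ‖tl ((F.spin d).2 (opp e)) v‖ ≤ 4 * F.t e.1 ^ 30 := by
  have := h.bdB (opp e) (v := conj v) (by simpa using hv)
  rw [← norm_conj] at this
  exact this

lemma res_bdA (e : ι × Bool) (v : ℂ) (hv : ‖v‖ < 4 * F.R e) :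
    ‖(F.spin d).1 e v‖ ≤ 1 + 2 * F.t e.1 ^ 30 := by
  have := h.bdA e hv
  have h2 := norm_add_le ((F.spin d).1 e v - 1) 1
  rw [sub_add_cancel, norm_one] at h2
  linarith

lemma res_t30 (ν : ι) : 0 < F.t ν ^ 30 ∧ F.t ν ^ 30 ≤ 1 / 1000 :=
  ⟨pow_pos (h.t_pos ν) _, (pow_le_of_le_one (h.t_pos ν).le (by linarith [h.t_small ν])
    (by norm_num)).trans (h.t_small ν)⟩

lemma res_b_split (e : ι × Bool) {v : ℂ} (hv : ‖v‖ < 4 * F.R e) :
    F.b d (F.lay e) (d.pos e + v) =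
      (F.spin d).2 e v + -d.bet e / v * tl ((F.spin d).1 (opp e)) (d.bet e ^ 2 / v) := by
  rw [h.b_split e hv]
  ring

lemma res_ra (e : ι × Bool) : F.ra d e =
    2 * d.bet e * resJ (F.sr d e) (d.bet e ^ 2) ((F.spin d).1 e) (tl ((F.spin d).2 (opp e))) := by
  rw [Frm.ra, Frm.res, res_prod (β := d.bet e) (β' := d.bet e) (h.sr_pos e) (h.res_sr_lt e)
    (h.res_lt e) (h.holA e) (h.holA e) (h.res_holBt e) (h.res_holBt e) fun v hv => by
      rw [Frm.aa, h.a_split e (hv ▸ h.res_sr_lt e), sq]]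
  ring

lemma res_rb (e : ι × Bool) : F.rb d e =
    -(2 * d.bet e * resJ (F.sr d e) (d.bet e ^ 2) ((F.spin d).2 e) (tl ((F.spin d).1 (opp e)))) := by
  rw [Frm.rb, Frm.res, res_prod (β := -d.bet e) (β' := -d.bet e) (h.sr_pos e) (h.res_sr_lt e)
    (h.res_lt e) (h.holB e) (h.holB e) (h.res_holAt e) (h.res_holAt e) fun v hv => by
      rw [Frm.bb, h.res_b_split e (hv ▸ h.res_sr_lt e), sq]]
  ring

lemma res_rab (e : ι × Bool) : F.rab d e =
    -d.bet e * resJ (F.sr d e) (d.bet e ^ 2) ((F.spin d).1 e) (tl ((F.spin d).1 (opp e))) +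
    d.bet e * resJ (F.sr d e) (d.bet e ^ 2) ((F.spin d).2 e) (tl ((F.spin d).2 (opp e))) := by
  rw [Frm.rab, Frm.res, res_prod (β := d.bet e) (β' := -d.bet e) (h.sr_pos e) (h.res_sr_lt e)
    (h.res_lt e) (h.holA e) (h.holB e) (h.res_holBt e) (h.res_holAt e) fun v hv => by
      rw [Frm.ab, h.a_split e (hv ▸ h.res_sr_lt e), h.res_b_split e (hv ▸ h.res_sr_lt e)]]

theorem ra_est (e : ι × Bool) :
    ‖F.ra d e - 2 * d.bet e * conj ((F.spin d).2 (opp e) 0)‖ ≤ 16 * ‖d.bet e‖ * F.t e.1 ^ 60 := by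
  have h0 : conj ((F.spin d).2 (opp e) 0) = tl ((F.spin d).2 (opp e)) 0 := by simp [tl]
  rw [h.res_ra, h0, ← mul_sub, resJ_left (h.sr_pos e) (h.res_sr_lt e) (h.res_lt e) (h.holA e)
    (h.res_holBt e), norm_mul, norm_mul]
  have h1 := resJ_norm (g := fun v => (F.spin d).1 e v - 1) (h.sr_pos e) (h.res_sr_lt e)
    (h.res_lt e) (fun v hv => h.bdA e hv) (h.res_bdBt e)
  have h2 := mul_le_mul_of_nonneg_left h1 (h.bet_pos e).le
  simp only [Complex.norm_ofNat]
  nlinarith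

theorem rb_est (e : ι × Bool) :
    ‖F.rb d e + 2 * d.bet e * (F.spin d).2 e 0‖ ≤ 16 * ‖d.bet e‖ * F.t e.1 ^ 60 := by
  rw [h.res_rb, neg_add_eq_sub, norm_sub_rev, ← mul_sub, resJ_right (h.sr_pos e) (h.res_sr_lt e)
    (h.res_lt e) (h.holB e) (h.res_holAt e), norm_mul, norm_mul]
  have h1 := resJ_norm (k := fun v => tl ((F.spin d).1 (opp e)) v - 1) (h.sr_pos e) (h.res_sr_lt e)
    (h.res_lt e) (fun v hv => h.bdB e hv) (h.res_bdAt e)
  have h2 := mul_le_mul_of_nonneg_left h1 (h.bet_pos e).le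
  simp only [Complex.norm_ofNat]
  nlinarith

theorem rab_est (e : ι × Bool) : ‖F.rab d e + d.bet e‖ ≤ 10 * ‖d.bet e‖ * F.t e.1 ^ 30 := by
  have h1 := resJ_norm (k := fun v => tl ((F.spin d).1 (opp e)) v - 1) (h.sr_pos e) (h.res_sr_lt e)
    (h.res_lt e) (h.res_bdA e) (h.res_bdAt e)
  rw [← resJ_right (h.sr_pos e) (h.res_sr_lt e) (h.res_lt e) (h.holA e) (h.res_holAt e)] at h1
  have h2 := resJ_norm (h.sr_pos e) (h.res_sr_lt e) (h.res_lt e) (fun v hv => h.bdB e hv)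
    (h.res_bdBt e)
  have h3 := h.bdA e (v := 0) (by simpa using h.R_pos e)
  rw [h.res_rab]
  set x := resJ (F.sr d e) (d.bet e ^ 2) ((F.spin d).1 e) (tl ((F.spin d).1 (opp e)))
  set y := resJ (F.sr d e) (d.bet e ^ 2) ((F.spin d).2 e) (tl ((F.spin d).2 (opp e)))
  set z := (F.spin d).1 e 0
  have e1 : -d.bet e * x + d.bet e * y + d.bet e = d.bet e * (y - (x - z) - (z - 1)) := by ring
  have h4 : ‖y - (x - z) - (z - 1)‖ ≤ 10 * F.t e.1 ^ 30 := by
    have := norm_sub_le (y - (x - z)) (z - 1)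
    have := norm_sub_le y (x - z)
    obtain ⟨h5, h6⟩ := h.res_t30 e.1
    nlinarith
  rw [e1, norm_mul]
  have := mul_le_mul_of_nonneg_left h4 (h.bet_pos e).le
  linarith

theorem ra_le (e : ι × Bool) : ‖F.ra d e‖ ≤ 10 * ‖d.bet e‖ * F.t e.1 ^ 30 := by
  have h1 := resJ_norm (h.sr_pos e) (h.res_sr_lt e) (h.res_lt e) (h.res_bdA e) (h.res_bdBt e)
  obtain ⟨h5, h6⟩ := h.res_t30 e.1
  have h2 := mul_le_mul_of_nonneg_left (h1.trans (by nlinarith : _ ≤ 5 * F.t e.1 ^ 30))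
    (h.bet_pos e).le
  rw [h.res_ra, norm_mul, norm_mul]
  simp only [Complex.norm_ofNat]
  linarith

omit h in
lemma res_sr_opp (e : ι × Bool) : F.sr d (opp e) = F.sr d e := by
  simp [Frm.sr]

lemma res_swap (e : ι × Bool) {g k : ℂ → ℂ} (hg : DifferentiableOn ℂ g (Metric.ball 0 (4 * F.R e)))
    (hk : DifferentiableOn ℂ k (Metric.ball 0 (4 * F.R e))) :
    resJ (F.sr d (opp e)) (d.bet (opp e) ^ 2) g (tl k) =
      conj (resJ (F.sr d e) (d.bet e ^ 2) k (tl g)) := by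
  rw [resJ_swap (h.sr_pos e) (pow_ne_zero 2 (h.bet_ne e)) (h.res_le e) (h.res_lt e) hg hk,
    res_sr_opp, bet_opp, neg_sq, map_pow]

theorem ra_opp (e : ι × Bool) : F.ra d (opp e) = conj (F.rb d e) := by
  rw [h.res_ra, h.res_rb, opp_opp, h.res_swap e (h.holA (opp e)) (h.holB e), bet_opp]
  simp only [map_neg, map_mul, map_ofNat]
  ring

theorem rab_opp (e : ι × Bool) : F.rab d (opp e) = -conj (F.rab d e) := by
  rw [h.res_rab, h.res_rab, opp_opp, h.res_swap e (h.holA (opp e)) (h.holA e),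
    h.res_swap e (h.holB (opp e)) (h.holB e), bet_opp]
  simp only [map_neg, map_mul, map_add]
  ring

theorem rab_lo (ν : ι) : (F.rab d (ν, false)).re ≤ -(‖d.2 ν‖ / 2) := by
  have h1 := h.rab_est (ν, false)
  have h2 := h.b_real ν
  have h3 := h.b_ge (ν, false)
  rw [bet_false] at h1 h3
  have h4 := (re_le_norm _).trans h1
  have h5 := (neg_le_of_abs_le ((abs_re_le_norm _).trans h2))
  rw [add_re] at h4
  rw [sub_re, ofReal_re] at h5
  obtain ⟨h6, h7⟩ := h.res_t30 ν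
  have ht := h.t_pos ν
  have h8 : F.t ν ^ 19 ≤ 1 / 1000 :=
    (pow_le_of_le_one ht.le (by linarith [h.t_small ν]) (by norm_num)).trans (h.t_small ν)
  have h9 : F.t ν ^ 20 ≤ F.t ν * (1 / 1000) := by
    rw [pow_succ']
    exact mul_le_mul_of_nonneg_left h8 ht.le
  dsimp only at h3 h4
  nlinarith

theorem rab_up (ν : ι) : ‖d.2 ν‖ / 2 ≤ (F.rab d (ν, true)).re := by
  have h1 := h.rab_opp (ν, false)
  rw [opp_false] at h1
  rw [h1, neg_re, conj_re]
  linarith [h.rab_lo ν]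

theorem rab_le (e : ι × Bool) : |(F.rab d e).re| ≤ 2 * ‖d.bet e‖ := by
  have h1 := h.rab_est e
  have h2 := norm_sub_le (F.rab d e + d.bet e) (d.bet e)
  rw [add_sub_cancel_right] at h2
  obtain ⟨h6, h7⟩ := h.res_t30 e.1
  have h3 := h.bet_pos e
  refine (abs_re_le_norm _).trans ?_
  nlinarith

end Frm.Adm

end Pool.Agent.MP_943ae2_gt
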