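import Pool.Agent.MP_943ae2_gt.Pos
import Pool.Agent.MP_943ae2_gt.Res

open Set Complex Filter Finset
open scoped Topology ComplexConjugate ContDiff

noncomputable section

namespace Pool.Agent.MP_943ae2_gt

lemma admM_PP_one (j : ℕ) : 1 ≤ PP j := le_trans (by norm_num) (PP_ge j)

lemma admM_PP_pos (j : ℕ) : 0 < PP j := lt_of_lt_of_le one_pos (admM_PP_one j)

lemma admM_pow_tt (j : ℕ) {m : ℕ} (hm : m ≤ 60) : PP j ^ m * tt j ≤ 1 :=
  (mul_le_mul_of_nonneg_right (pow_le_pow_right₀ (admM_PP_one j) hm) (tt_pos j).le).trans (PP_tt j)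

lemma admM_PP_tt (j : ℕ) : PP j * tt j ≤ 1 := by simpa using admM_pow_tt j (m := 1) (by norm_num)

lemma admM_PP_le (j : ℕ) : PP j ≤ (tt j)⁻¹ := by
  rw [← one_div, le_div_iff₀ (tt_pos j)]; exact admM_PP_tt j

lemma admM_tt_one (j : ℕ) : tt j ≤ 1 := (tt_le j).trans (by norm_num)

lemma admM_inv_one (j : ℕ) : 1 ≤ (tt j)⁻¹ := (admM_PP_one j).trans (admM_PP_le j)

lemma admM_PP_mono : Monotone PP := monotone_nat_of_le_succ fun j => by
  rw [PP_succ]; have := admM_PP_pos j; linarith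

lemma admM_nn_pos (j : ℕ) : (1 : ℝ) ≤ nn j := by
  exact_mod_cast NeZero.one_le

lemma admM_nn_le (j : ℕ) : 1024 * (nn j : ℝ) ≤ PP j := by
  have h1 := nn_le_PP j
  have h2 : (nn j : ℝ) ≤ nn (j + 1) := by exact_mod_cast nn_mono j
  linarith

lemma admM_cube (j : ℕ) : tt j ^ 3 * nn j ≤ 1 / 1024 := by
  have h1 := admM_nn_le j
  have h2 := admM_PP_tt j
  have h3 := tt_pos j
  have h4 : tt j ^ 3 ≤ tt j := pow_le_of_le_one h3.le (admM_tt_one j) (by norm_num)
  have h5 := admM_nn_pos j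
  nlinarith

lemma admM_rho_ge (j : ℕ) : 1000 ≤ rho j := by
  have h1 : (1000 : ℝ) ≤ (tt j)⁻¹ := le_trans (le_trans (by norm_num) (PP_ge j)) (admM_PP_le j)
  exact h1.trans (le_self_pow₀ (admM_inv_one j) (by norm_num))

lemma admM_rho_succ (j : ℕ) : 1000 * rho j ≤ rho (j + 1) := by
  have h := admM_rho_ge j
  rw [rho_succ]
  have h3 : rho j ≤ rho j ^ 3 := le_self_pow₀ (by linarith) (by norm_num)
  nlinarith

lemma admM_exp {y : ℝ} (hy : 2 ^ 17 ≤ y) : 2 * y ^ 128 ≤ Real.exp y := by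
  have h0 : 0 < y := lt_of_lt_of_le (by norm_num) hy
  have h1 : y / 256 ≤ Real.exp (y / 256) := by linarith [Real.add_one_le_exp (y / 256)]
  have h2 : (y / 256) ^ 256 ≤ Real.exp y := by
    have := pow_le_pow_left₀ (by positivity) h1 256
    rwa [← Real.exp_nat_mul, show ((256 : ℕ) : ℝ) * (y / 256) = y by push_cast; ring] at this
  have h3 : (2 : ℝ) ≤ y / 65536 := by rw [le_div_iff₀ (by norm_num)]; linarith
  have h4 : (2 : ℝ) ≤ (y / 65536) ^ 128 := h3.trans (le_self_pow₀ (by linarith) (by norm_num))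
  have h5 : (y / 256) ^ 256 = (y / 65536) ^ 128 * y ^ 128 := by
    rw [← mul_pow, show 256 = 2 * 128 from rfl, pow_mul]; congr 1; ring
  have h6 : 0 < y ^ 128 := by positivity
  nlinarith

lemma admM_exp_tt (l : ℕ) : 2 * (tt l)⁻¹ ^ 128 ≤ Real.exp (tt l)⁻¹ :=
  admM_exp (le_trans (le_trans (by norm_num) (PP_ge l)) (admM_PP_le l))

lemma admM_loc (e : Nk × Bool) : 1 ≤ (e.1.k + if e.2 then 1 else 0) ∧
    (e.1.k + if e.2 then 1 else 0) ≤ NN e.1.j := by
  have h1 := e.1.h1; have h2 := e.1.h2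
  split_ifs <;> omega

lemma admM_lev (e : Nk × Bool) : lev (frm.lay e) ≤ e.1.j ∧ e.1.j ≤ lev (frm.lay e) + 1 := by
  rw [lay_eq, lev_wall (admM_loc e).1 (admM_loc e).2]
  split_ifs <;> omega

lemma admM_two (j : ℕ) : 512 * (2 : ℝ) ^ (j + 2) ≤ PP j := by
  have := two_pow_le_PP j
  rw [pow_succ (2 : ℝ) (j + 1)]; linarith

namespace InK

variable {x : Prm} (hx : InK x)
include hx

lemma admM_rad {j k : ℕ} (hj : 1 ≤ j) (hk : k ≤ NN j) :
    9 / 10 * rho j ≤ Real.exp (x.lr j k) ∧ Real.exp (x.lr j k) ≤ 11 / 10 * rho j := by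
  have h := abs_le.1 (hx.lr_near hj hk)
  have hn := admM_nn_pos j
  have h0 : 1 / (1000 * (nn j : ℝ)) ≤ 1 / 1000 :=
    one_div_le_one_div_of_le (by norm_num) (by linarith)
  have e : Real.exp (x.lr j k) = rho j * Real.exp (x.lr j k - ell j) := by
    rw [← exp_ell, ← Real.exp_add]; congr 1; ring
  have hr := rho_pos j
  have h1 := Real.add_one_le_exp (x.lr j k - ell j)
  have h2 : Real.exp (x.lr j k - ell j) ≤ 11 / 10 := by
    have h3 := Real.add_one_le_exp (-(x.lr j k - ell j))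
    rw [Real.exp_neg] at h3
    have h4 := Real.exp_pos (x.lr j k - ell j)
    have h5 : 999 / 1000 ≤ (Real.exp (x.lr j k - ell j))⁻¹ := by linarith
    rw [le_inv_comm₀ (by norm_num) h4] at h5
    linarith
  rw [e]
  constructor <;> nlinarith

lemma admM_close (e : Nk × Bool) (hj : 1 ≤ e.1.j) :
    ‖x.dat.pos e - (Real.exp (x.lr e.1.j e.1.k) : ℝ) * un (nn e.1.j) e.1.k e.1.i‖ ≤
      rho e.1.j / (100 * nn e.1.j) := by
  refine (hx.pos_near e hj).trans ?_
  have h1 := (hx.admM_rad hj e.1.h2.le).2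
  have h2 := admM_cube e.1.j
  have h3 := admM_nn_pos e.1.j
  have h4 := rho_pos e.1.j
  have h5 := Real.exp_pos (x.lr e.1.j e.1.k)
  rw [le_div_iff₀ (by positivity)]
  nlinarith

omit hx in
lemma admM_tri {p q a b : ℂ} {r n : ℝ} (hr : 0 < r) (hn : 0 < n) (h1 : ‖p - a‖ ≤ r / (100 * n))
    (h2 : ‖q - b‖ ≤ r / (100 * n)) (h3 : r / n ≤ ‖a - b‖) : r / (4 * n) ≤ ‖p - q‖ := by
  have h4 : ‖a - b‖ ≤ ‖p - q‖ + ‖p - a‖ + ‖q - b‖ := by
    calc ‖a - b‖ = ‖(p - q) - (p - a) + (q - b)‖ := by congr 1; ring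
      _ ≤ _ := (norm_add_le _ _).trans (by linarith [norm_sub_le (p - q) (p - a)])
  have e1 : r / (100 * n) = r / n / 100 := by field_simp
  have e2 : r / (4 * n) = r / n / 4 := by field_simp
  have h5 : 0 < r / n := by positivity
  rw [e1] at h1 h2
  rw [e2]; linarith

lemma admM_cross {j k : ℕ} (hj : 1 ≤ j) (hk : k + 1 ≤ NN j) (i i' : ZMod (nn j)) :
    rho j / nn j ≤ ‖((Real.exp (x.lr j k) : ℝ) : ℂ) * un (nn j) k i -
      (Real.exp (x.lr j (k + 1)) : ℝ) * un (nn j) (k + 1) i'‖ := by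
  refine le_trans ?_ (sep_cross (nn j) k i i' (Real.exp_pos _) (Real.exp_pos _))
  have h1 := (hx.admM_rad hj (k := k) (by omega)).1
  have h2 := (hx.admM_rad hj hk).1
  have h3 := le_min h1 h2
  have h4 := rho_pos j
  have h5 := admM_nn_pos j
  gcongr
  linarith

lemma admM_same {j k : ℕ} (hj : 1 ≤ j) (hk : k ≤ NN j) {i i' : ZMod (nn j)} (h : i' ≠ i) :
    rho j / nn j ≤ ‖((Real.exp (x.lr j k) : ℝ) : ℂ) * un (nn j) k i -
      (Real.exp (x.lr j k) : ℝ) * un (nn j) k i'‖ := by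
  have h0 := sep_same (nn j) k h
  have h1 := (hx.admM_rad hj hk).1
  have h4 := rho_pos j
  have h5 := admM_nn_pos j
  rw [← mul_sub, norm_mul, Complex.norm_real, Real.norm_eq_abs, abs_of_pos (Real.exp_pos _)]
  calc rho j / nn j ≤ 9 / 10 * rho j * (4 / nn j) := by
        rw [show 9 / 10 * rho j * (4 / (nn j : ℝ)) = 36 / 10 * (rho j / nn j) by ring]
        have : 0 < rho j / nn j := by positivity
        linarith
    _ ≤ _ := by gcongr

theorem sep_oth {e μ : Nk × Bool} (h : μ ∈ frm.oth e) :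
    rho e.1.j / (4 * nn e.1.j) ≤ ‖x.dat.pos e - x.dat.pos μ‖ := by
  obtain ⟨hne, hl⟩ := mem_oth.1 h
  have hm : μ ∈ frm.sides (frm.lay e) := mem_sides_iff.2 hl
  rw [lay_eq, mem_sides_wall (admM_loc e).1 (admM_loc e).2] at hm
  have hn := admM_nn_pos e.1.j
  have hr := rho_pos e.1.j
  have hq : rho e.1.j / (4 * nn e.1.j) ≤ rho e.1.j / 4 := by gcongr; linarith
  rcases hm with ⟨hj, hk⟩ | ⟨-, hj, -⟩ | ⟨-, hj, -⟩
  · obtain ⟨⟨j, k, i, h1, h2⟩, s⟩ := e
    obtain ⟨⟨j', k', i', h1', h2'⟩, s'⟩ := μ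
    dsimp only at hj hk hn hr ⊢
    subst hj
    rcases Nat.eq_zero_or_pos j' with rfl | hj
    · exfalso
      have hN := NN_zero
      obtain rfl : k = 1 := by omega
      obtain rfl : k' = 1 := by omega
      have hs : s' = s := by cases s <;> cases s' <;> simp_all
      have : Subsingleton (ZMod (nn 0)) := by rw [nn_zero]; infer_instance
      obtain rfl : i = i' := Subsingleton.elim _ _
      exact hne (by rw [hs])
    have c1 := hx.admM_close (⟨j', k, i, h1, h2⟩, s) hj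
    have c2 := hx.admM_close (⟨j', k', i', h1', h2'⟩, s') hj
    refine admM_tri hr (by linarith) c1 c2 ?_
    dsimp only
    have hc : (k' = k ∧ s' = s) ∨ k' = k + 1 ∨ k = k' + 1 := by
      cases s <;> cases s' <;> simp at hk ⊢ <;> omega
    rcases hc with ⟨rfl, rfl⟩ | rfl | rfl
    · exact hx.admM_same hj h2.le (fun hi => hne (by subst hi; rfl))
    · exact hx.admM_cross hj h2'.le i i'
    · rw [norm_sub_rev]; exact hx.admM_cross hj h2.le i' i
  · have h1 := hx.pos_ge e (by omega)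
    have h2 := hx.pos_le μ
    have h3 := admM_rho_succ μ.1.j
    rw [hj] at h3
    have h4 := norm_sub_norm_le (x.dat.pos e) (x.dat.pos μ)
    linarith
  · have h1 := hx.pos_ge μ (by omega)
    have h2 := hx.pos_le e
    have h3 := admM_rho_succ e.1.j
    rw [← hj] at h3
    have h4 := norm_sub_norm_le (x.dat.pos μ) (x.dat.pos e)
    rw [norm_sub_rev] at h4
    linarith

lemma admM_bet_le {e : Nk × Bool} {l : ℕ} (h : e.1.j ≤ l + 1) : 512 * ‖x.dat.bet e‖ ≤ PP l := by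
  have h1 := hx.bet_le e
  have h2 := admM_two l
  have h3 : (2 : ℝ) ^ (e.1.j + 1) ≤ 2 ^ (l + 2) := pow_le_pow_right₀ (by norm_num) (by omega)
  linarith

lemma admM_lam (e : Nk × Bool) :
    ∑ μ ∈ frm.oth e, ‖x.dat.bet μ‖ / ‖x.dat.pos e - x.dat.pos μ‖ ≤ tt e.1.j ^ 30 := by
  classical
  have hP := admM_PP_pos e.1.j
  have ht := tt_pos e.1.j
  have hn := admM_nn_pos e.1.j
  have hr := rho_pos e.1.j
  have hb : ∀ μ ∈ frm.oth e, ‖x.dat.bet μ‖ / ‖x.dat.pos e - x.dat.pos μ‖ ≤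
      PP e.1.j ^ 2 * tt e.1.j ^ 32 := by
    intro μ hμ
    have h1 : μ.1.j ≤ e.1.j + 1 := by
      have a1 := (admM_lev μ).2
      have a2 := (admM_lev e).1
      rw [(mem_oth.1 hμ).2] at a1
      omega
    have h2 := hx.admM_bet_le h1
    have h3 := hx.sep_oth hμ
    have h4 : rho e.1.j / PP e.1.j ≤ rho e.1.j / (4 * nn e.1.j) := by
      gcongr; linarith [admM_nn_le e.1.j]
    have h5 : 0 < rho e.1.j / PP e.1.j := by positivity
    calc _ ≤ PP e.1.j / (rho e.1.j / PP e.1.j) := by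
          gcongr
          · linarith [norm_nonneg (x.dat.bet μ)]
          · exact h4.trans h3
      _ = _ := by unfold rho; field_simp
  have hc : ((frm.oth e).card : ℝ) ≤ PP e.1.j := by
    have h1 : (frm.oth e).card ≤ (frm.sides (frm.lay e)).card :=
      Finset.card_le_card fun μ hμ => mem_sides_iff.2 (mem_oth.1 hμ).2
    have h2 : ((frm.oth e).card : ℝ) ≤ (frm.sides (frm.lay e)).card := by exact_mod_cast h1
    exact h2.trans ((card_sides _).trans (admM_PP_mono (admM_lev e).1))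
  have h3 := admM_pow_tt e.1.j (m := 3) (by norm_num)
  have h4 := admM_tt_one e.1.j
  calc _ ≤ (frm.oth e).card • (PP e.1.j ^ 2 * tt e.1.j ^ 32) := Finset.sum_le_card_nsmul _ _ _ hb
    _ = (frm.oth e).card * (PP e.1.j ^ 2 * tt e.1.j ^ 32) := nsmul_eq_mul _ _
    _ ≤ PP e.1.j * (PP e.1.j ^ 2 * tt e.1.j ^ 32) := by gcongr
    _ = (PP e.1.j ^ 3 * tt e.1.j) * tt e.1.j * tt e.1.j ^ 30 := by ring
    _ ≤ 1 * 1 * tt e.1.j ^ 30 := by gcongr
    _ = _ := by ring

theorem adm : frm.Adm x.dat where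
  t_pos ν := tt_pos ν.j
  T_le l := tt_le _
  T_pos l := tt_pos _
  T_anti := tt_anti.comp_monotone lev_mono
  t_le e := tt_anti (admM_lev e).1
  t_ge e := by
    change Real.exp (-(tt (lev (frm.lay e)))⁻¹) ≤ tt e.1.j
    refine le_trans ?_ (tt_anti (admM_lev e).2)
    generalize lev (frm.lay e) = l
    have h1 := admM_exp_tt l
    have h2 : (tt l)⁻¹ ^ 4 ≤ (tt l)⁻¹ ^ 128 := pow_le_pow_right₀ (admM_inv_one l) (by norm_num)
    have h3 := tt_pos l
    have h4 : 0 < (tt l)⁻¹ ^ 4 := by positivity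
    rw [tt_succ, Real.exp_neg, inv_le_comm₀ (Real.exp_pos _) (by positivity), ← inv_pow]
    linarith
  card l := (card_sides l).trans (admM_PP_le _)
  b_ge e := by
    change tt e.1.j ≤ _
    have h1 := (abs_le.1 (hx.bet_near e)).1
    have h2 := hx.bq_ge e.1
    have ht := tt_pos e.1.j
    have hP := admM_PP_pos e.1.j
    have h3 : tt e.1.j ^ 28 ≤ tt e.1.j := pow_le_of_le_one ht.le (admM_tt_one _) (by norm_num)
    have h4 : 2 * tt e.1.j ≤ (PP e.1.j)⁻¹ ^ 2 := by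
      have a1 := admM_pow_tt e.1.j (m := 3) (by norm_num)
      have a2 : (2 : ℝ) ≤ PP e.1.j := le_trans (by norm_num) (PP_ge _)
      rw [inv_pow, ← one_div, le_div_iff₀ (by positivity)]
      have a3 : 0 < PP e.1.j ^ 2 * tt e.1.j := by positivity
      nlinarith
    linarith
  b_le e := by
    have h1 := hx.admM_bet_le (admM_lev e).2
    have h2 := admM_PP_le (lev (frm.lay e))
    change _ ≤ (tt (lev (frm.lay e)))⁻¹
    linarith [norm_nonneg (x.dat.bet e)]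
  b_real ν := by
    change _ ≤ tt ν.j ^ 20
    have h1 := hx.bet_near (ν, false)
    rw [bet_false] at h1
    have h2 := hx.io_le ν.j ν.k ν.i
    have ht := tt_pos ν.j
    have h3 : x.dat.2 ν - (‖x.dat.2 ν‖ : ℝ) =
        x.io ν.j ν.k ν.i * I - ((‖x.dat.2 ν‖ - x.bq ν.j ν.k ν.i : ℝ) : ℂ) := by
      have : x.dat.2 ν = x.bq ν.j ν.k ν.i + x.io ν.j ν.k ν.i * I := rfl
      push_cast
      linear_combination this
    have h4 : tt ν.j ^ 8 ≤ 1 / 2 :=
      (pow_le_of_le_one ht.le (admM_tt_one _) (by norm_num)).trans ((tt_le _).trans (by norm_num))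
    rw [h3]
    refine (norm_sub_le _ _).trans ?_
    rw [norm_mul, Complex.norm_I, mul_one, Complex.norm_real, Complex.norm_real, Real.norm_eq_abs,
      Real.norm_eq_abs]
    have h5 : tt ν.j ^ 28 = tt ν.j ^ 8 * tt ν.j ^ 20 := by ring
    have h6 : 0 < tt ν.j ^ 20 := by positivity
    dsimp only at h1
    nlinarith
  pos_le e := by
    change _ ≤ Real.exp (tt (lev (frm.lay e)))⁻¹
    have h1 := hx.pos_le e
    have h2 := tt_anti (admM_lev e).2
    generalize lev (frm.lay e) = l at h2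
    have h3 := admM_exp_tt l
    have h4 : rho e.1.j ≤ (tt l)⁻¹ ^ 128 := by
      have a1 := tt_pos (l + 1)
      calc rho e.1.j = (tt e.1.j)⁻¹ ^ 32 := rfl
        _ ≤ (tt (l + 1))⁻¹ ^ 32 := by have := tt_pos e.1.j; gcongr
        _ = _ := by rw [tt_succ, ← inv_pow, ← pow_mul]
    have h5 := rho_pos e.1.j
    linarith
  pq e := by
    change _ ≤ (tt e.1.j)⁻¹ ^ 3
    have h1 := hx.de_le e.1.j e.1.k e.1.i
    obtain ⟨ν, _ | _⟩ := e <;> simpa [Dat.pos, Prm.dat] using h1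
  sep e μ hμ := by
    refine le_trans ?_ (hx.sep_oth hμ)
    change 8 * (tt e.1.j)⁻¹ ^ 16 ≤ (tt e.1.j)⁻¹ ^ 32 / _
    have h1 := admM_nn_pos e.1.j
    have h2 := admM_nn_le e.1.j
    have h3 := admM_PP_le e.1.j
    have h4 : (tt e.1.j)⁻¹ ≤ (tt e.1.j)⁻¹ ^ 16 := le_self_pow₀ (admM_inv_one _) (by norm_num)
    have h5 : (tt e.1.j)⁻¹ ^ 32 = (tt e.1.j)⁻¹ ^ 16 * (tt e.1.j)⁻¹ ^ 16 := by ring
    rw [le_div_iff₀ (by positivity), h5]
    nlinarith
  lam e := hx.admM_lam e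
  ne l := by
    rcases layer_cases l with rfl | ⟨j, a, h1, h2, rfl⟩
    · exact ⟨⟨0, 1, 0, le_rfl, by rw [NN_zero]; norm_num⟩, rfl⟩
    · refine ⟨⟨j + 1, a, 0, h1, ?_⟩, rfl⟩
      have := Mt_pos (j + 1)
      have := Lb_succ j
      unfold NN; omega

theorem rab_re (e : Nk × Bool) :
    |(if e.2 then 1 else -1) * (frm.rab x.dat e).re - x.bq e.1.j e.1.k e.1.i| ≤ tt e.1.j ^ 29 := by
  have h1 := hx.adm.rab_est e
  have h2 := hx.admM_bet_le (e := e) (l := e.1.j) (by omega)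
  have h3 := admM_PP_tt e.1.j
  have ht := tt_pos e.1.j
  have h4 : 10 * ‖x.dat.bet e‖ * frm.t e.1 ^ 30 ≤ tt e.1.j ^ 29 := by
    change 10 * ‖x.dat.bet e‖ * tt e.1.j ^ 30 ≤ _
    have h5 := norm_nonneg (x.dat.bet e)
    calc 10 * ‖x.dat.bet e‖ * tt e.1.j ^ 30 ≤ PP e.1.j * tt e.1.j ^ 30 := by gcongr; linarith
      _ = PP e.1.j * tt e.1.j * tt e.1.j ^ 29 := by ring
      _ ≤ 1 * tt e.1.j ^ 29 := by gcongr
      _ = _ := one_mul _
  refine le_trans ?_ ((Complex.abs_re_le_norm _).trans (h1.trans h4))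
  obtain ⟨ν, _ | _⟩ := e
  · rw [← abs_neg]
    apply le_of_eq; congr 1
    simp [Prm.dat]; ring
  · apply le_of_eq; congr 1
    simp [Prm.dat]; ring

end InK

end Pool.Agent.MP_943ae2_gt
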