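import Pool.Agent.MP_943ae2_gt.Prim

open Set Complex Filter
open scoped Topology ComplexConjugate ContDiff

noncomputable section

namespace Pool.Agent.MP_943ae2_gt

variable {ι : Type} {F : Frm ι} {d : Dat ι} {C : ℕ → ℝ}

lemma Neck_path {E : Type} [NormedAddCommGroup E] [NormedSpace ℝ E] {f : ℝ → E} {K : ℝ}
    (h : ∀ x ∈ Icc (0 : ℝ) 1, ∃ f', HasDerivAt f f' x ∧ ‖f'‖ ≤ K) : ‖f 1 - f 0‖ ≤ K := by
  choose! g hg using h
  exact norm_image_sub_le_of_norm_deriv_le_segment_01' (f' := g)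
    (fun x hx => (hg x hx).1.hasDerivWithinAt) (fun x hx => (hg x (Ico_subset_Icc_self hx)).2)

lemma Neck_mul {x y : ℂ} {a b : ℝ} (hx : ‖x - 1‖ ≤ a) (hy : ‖y - 1‖ ≤ b) :
    ‖x * y - 1‖ ≤ a + b + a * b := by
  have e : x * y - 1 = (x - 1) + (y - 1) + (x - 1) * (y - 1) := by ring
  rw [e]
  refine (norm_add_le _ _).trans (add_le_add ((norm_add_le _ _).trans (add_le_add hx hy)) ?_)
  rw [norm_mul]
  exact mul_le_mul hx hy (norm_nonneg _) ((norm_nonneg _).trans hx)

lemma Neck_exp (p w : ℂ) (x : ℝ) :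
    HasDerivAt (fun s : ℝ => p * exp (s * w)) (p * exp (x * w) * w) x := by
  have h1 : HasDerivAt (fun s : ℝ => (s : ℂ) * w) w x := by
    simpa using ((hasDerivAt_id (x : ℂ)).mul_const w).comp_ofReal
  simpa [mul_assoc] using h1.cexp.const_mul p

lemma Neck_re {w : ℂ} (hθ : |w.im| ≤ Real.pi) (h1 : |w.re| ≤ ‖w‖ / 100) :
    |w.re| ≤ |w.im| / 99 ∧ |w.re| ≤ 1 / 2 := by
  have h2 := norm_le_abs_re_add_abs_im w
  have h3 := Real.pi_lt_four
  constructor <;> linarith

lemma Neck_exp_le {x : ℝ} (h : |x| ≤ 1 / 2) : Real.exp x ≤ 2 := by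
  have h1 := Real.abs_exp_sub_one_le (x := x) (by linarith)
  have h2 := le_abs_self (Real.exp x - 1)
  linarith

/-- The model catenoid is injective. -/
lemma Neck_core {p q w : ℂ} {A : ℝ} (hA : 0 < A) (h0 : ‖p‖ + ‖q‖ = A) (h0' : ‖p + q‖ = A)
    (hθ : |w.im| ≤ Real.pi) (h1 : |w.re| ≤ ‖w‖ / 100)
    (h2 : ‖p * exp w + q * exp (-conj w) - (p + q)‖ ≤ ‖w‖ * A / 50) : w = 0 := by
  obtain ⟨r1, r2⟩ := Neck_re hθ h1
  have hn := norm_le_abs_re_add_abs_im w
  have e1 : exp w = (Real.exp w.re : ℝ) * exp (I * w.im) := by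
    rw [ofReal_exp, ← exp_add]
    congr 1
    apply Complex.ext <;> simp
  have e2 : exp (-conj w) = (Real.exp (-w.re) : ℝ) * exp (I * w.im) := by
    rw [ofReal_exp, ← exp_add]
    congr 1
    apply Complex.ext <;> simp
  have n1 : ‖exp (I * w.im)‖ = 1 := by
    rw [norm_exp]
    simp
  have l1 : 2 / Real.pi * |w.im| ≤ ‖exp (I * w.im) - 1‖ := by
    rw [norm_exp_I_mul_ofReal_sub_one, Real.norm_eq_abs, abs_mul, abs_two]
    have := Real.mul_abs_le_abs_sin (x := w.im / 2) (by rw [abs_div, abs_two]; linarith)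
    rw [abs_div, abs_two] at this
    linarith
  have l2 : 1 / 2 ≤ 2 / Real.pi := by
    rw [div_le_div_iff₀ (by norm_num) Real.pi_pos]
    linarith [Real.pi_lt_four]
  have l3 : 1 / 2 * |w.im| ≤ ‖exp (I * w.im) - 1‖ :=
    (mul_le_mul_of_nonneg_right l2 (abs_nonneg _)).trans l1
  have b1 : ‖((Real.exp w.re : ℝ) : ℂ) - 1‖ ≤ 2 * |w.re| := by
    rw [← ofReal_one, ← ofReal_sub, norm_real, Real.norm_eq_abs]
    exact Real.abs_exp_sub_one_le (by linarith)
  have b2 : ‖((Real.exp (-w.re) : ℝ) : ℂ) - 1‖ ≤ 2 * |w.re| := by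
    rw [← ofReal_one, ← ofReal_sub, norm_real, Real.norm_eq_abs, ← abs_neg w.re]
    exact Real.abs_exp_sub_one_le (by rw [abs_neg]; linarith)
  rw [e1, e2] at h2
  generalize ((Real.exp w.re : ℝ) : ℂ) = x at *
  generalize ((Real.exp (-w.re) : ℝ) : ℂ) = y at *
  generalize exp (I * w.im) = u at *
  have e3 : (p + q) * (u - 1) =
      (p * (x * u) + q * (y * u) - (p + q)) - (p * (x - 1) + q * (y - 1)) * u := by ring
  have b3 : ‖(p * (x - 1) + q * (y - 1)) * u‖ ≤ A * (2 * |w.re|) := by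
    rw [norm_mul, n1, mul_one, ← h0, add_mul]
    refine (norm_add_le _ _).trans ?_
    rw [norm_mul, norm_mul]
    gcongr
  have b4 : A * ‖u - 1‖ ≤ ‖w‖ * A / 50 + A * (2 * |w.re|) := by
    rw [← h0', ← norm_mul, e3, h0']
    exact (norm_sub_le _ _).trans (add_le_add h2 b3)
  have b5 : ‖u - 1‖ ≤ ‖w‖ / 50 + 2 * |w.re| := by
    refine le_of_mul_le_mul_left (b4.trans (le_of_eq ?_)) hA
    ring
  have b6 := abs_nonneg w.im
  have b7 : ‖w‖ ≤ 0 := by linarith
  exact norm_le_zero_iff.1 b7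

lemma Neck_bet (h : F.Adm d) (e : ι × Bool) : ∃ μ : ℝ, ∃ β : ℂ, |μ| = ‖d.bet e‖ ∧
    d.bet e = μ * β ∧ ‖β - 1‖ ≤ 1 / 1000 := by
  have key : ∃ μ : ℝ, |μ| = ‖d.bet e‖ ∧ ‖d.bet e - μ‖ ≤ F.t e.1 ^ 20 := by
    rcases e with ⟨ν, _ | _⟩
    · exact ⟨‖d.2 ν‖, by simp, by simpa using h.b_real ν⟩
    · refine ⟨-‖d.2 ν‖, by simp, ?_⟩
      have e1 : d.bet (ν, true) - ((-‖d.2 ν‖ : ℝ) : ℂ) = -conj (d.2 ν - ‖d.2 ν‖) := by
        simp only [bet_true, map_sub, conj_ofReal, ofReal_neg]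
        ring
      rw [e1, norm_neg, norm_conj]
      exact h.b_real ν
  obtain ⟨μ, h1, h2⟩ := key
  have hb := h.bet_pos e
  have hμ : (μ : ℂ) ≠ 0 := by
    rw [ofReal_ne_zero, ← abs_pos, h1]
    exact hb
  refine ⟨μ, d.bet e / μ, h1, by field_simp, ?_⟩
  rw [div_sub_one hμ, norm_div, norm_real, Real.norm_eq_abs, h1, div_le_iff₀ hb]
  have t0 := h.t_pos e.1
  have t1 := h.t_small e.1
  have t2 : F.t e.1 ^ 18 ≤ 1 := pow_le_one₀ t0.le (by linarith)
  have t3 := h.b_ge e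
  calc ‖d.bet e - μ‖ ≤ F.t e.1 ^ 18 * (F.t e.1 * F.t e.1) := h2.trans (le_of_eq (by ring))
    _ ≤ 1 * (1 / 1000 * ‖d.bet e‖) := by gcongr
    _ = _ := one_mul _

lemma Neck_a (h : F.Adm d) {k : ℕ} {z : ℂ} (hz : z ∈ F.U d k) : ‖F.a d k z - 1‖ ≤ 1 / 1000 := by
  refine (h.a_near (h.U_sub k hz)).trans (le_trans ?_ (h.T_le k))
  exact pow_le_of_le_one (h.T_pos k).le ((h.T_le k).trans (by norm_num)) (by norm_num)

lemma Neck_loc (h : F.Adm d) (e : ι × Bool) {u : ℂ} (h1 : ‖d.bet e‖ ^ 2 / F.R e < ‖u‖)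
    (h2 : ‖u‖ < F.R e) : d.pos e + u ∈ F.U d (F.lay e) ∧ ∃ y : ℂ, ‖y - 1‖ ≤ 1 / 1000 ∧
      F.b d (F.lay e) (d.pos e + u) = -(d.bet e / u * y) := by
  have hR := h.R_pos e
  have hb := h.bet_pos e
  have hu : 0 < ‖u‖ := lt_trans (by positivity) h1
  refine ⟨h.mem_U e h1 (by linarith), conj (F.a d (F.lay (opp e)) (d.par e u)), ?_,
    h.glue_b e (lt_of_le_of_lt ?_ h1) (by linarith)⟩
  · have hm : d.par e u ∈ F.U d (F.lay (opp e)) := by
      refine h.mem_U (opp e) ?_ ?_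
      · rw [norm_bet_opp, R_opp, norm_conj, norm_div, norm_pow]
        exact div_lt_div_of_pos_left (by positivity) hu h2
      · rw [R_opp, norm_conj, norm_div, norm_pow, div_le_iff₀ hu]
        rw [div_lt_iff₀ hR] at h1
        nlinarith
    have e1 : conj (F.a d (F.lay (opp e)) (d.par e u)) - 1 =
        conj (F.a d (F.lay (opp e)) (d.par e u) - 1) := by simp
    rw [e1, norm_conj]
    exact Neck_a h hm
  · exact div_le_div_of_nonneg_left (by positivity) hR (by linarith)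

lemma Neck_between {a b r σ x : ℝ} (hr : 0 < r) (h1 : a < r) (h2 : r < b)
    (h1' : a < r * Real.exp σ) (h2' : r * Real.exp σ < b) (hx : x ∈ Icc (0 : ℝ) 1) :
    a < r * Real.exp (x * σ) ∧ r * Real.exp (x * σ) < b := by
  rcases le_total 0 σ with hs | hs
  · have l1 : 1 ≤ Real.exp (x * σ) := Real.one_le_exp (mul_nonneg hx.1 hs)
    have l2 : Real.exp (x * σ) ≤ Real.exp σ := Real.exp_le_exp.2 (by nlinarith [hx.2])
    constructor <;> nlinarith
  · have l1 : Real.exp (x * σ) ≤ 1 := Real.exp_le_one_iff.2 (mul_nonpos_of_nonneg_of_nonpos hx.1 hs)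
    have l2 : Real.exp σ ≤ Real.exp (x * σ) := Real.exp_le_exp.2 (by nlinarith [hx.2])
    constructor <;> nlinarith

theorem Frm.Adm.neck_inj (h : F.Adm d) (hs : F.Sol d C) (e : ι × Bool) {v v' : ℂ}
    (h1 : ‖d.bet e‖ ^ 2 / F.R e < ‖v‖) (h2 : ‖v‖ < F.R e)
    (h1' : ‖d.bet e‖ ^ 2 / F.R e < ‖v'‖) (h2' : ‖v'‖ < F.R e)
    (he : F.X d C (F.lay e) (d.pos e + v) = F.X d C (F.lay e) (d.pos e + v')) : v = v' := by
  have hR := h.R_pos e
  have hb := h.bet_pos e
  have hv : 0 < ‖v‖ := lt_trans (by positivity) h1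
  have hv' : 0 < ‖v'‖ := lt_trans (by positivity) h1'
  have hv0 : v ≠ 0 := norm_pos_iff.1 hv
  obtain ⟨w, hθ, rfl⟩ : ∃ w : ℂ, |w.im| ≤ Real.pi ∧ v' = v * exp w := by
    refine ⟨log (v' / v), by rw [log_im]; exact abs_arg_le_pi _, ?_⟩
    rw [exp_log (div_ne_zero (norm_pos_iff.1 hv') hv0)]
    field_simp
  obtain ⟨eH, eh⟩ := X_eq_iff.1 he
  have eh' : F.h0 d (F.lay e) (d.pos e + v) = F.h0 d (F.lay e) (d.pos e + v * exp w) := by linarith
  obtain ⟨μ, β, m1, m2, m3⟩ := Neck_bet h e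
  have nu : ∀ x : ℝ, ‖v * exp (x * w)‖ = ‖v‖ * Real.exp (x * w.re) := fun x => by
    rw [norm_mul, norm_exp, re_ofReal_mul]
  rw [norm_mul, norm_exp] at h1' h2'
  have loc : ∀ x ∈ Icc (0 : ℝ) 1, d.pos e + v * exp (x * w) ∈ F.U d (F.lay e) ∧ ∃ y : ℂ,
      ‖y - 1‖ ≤ 1 / 1000 ∧
        F.b d (F.lay e) (d.pos e + v * exp (x * w)) = -(d.bet e / (v * exp (x * w)) * y) :=
    fun x hx => by
      have := Neck_between hv h1 h2 h1' h2' hx
      rw [← nu] at this
      exact Neck_loc h e this.1 this.2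
  have hγ : ∀ x : ℝ, HasDerivAt (fun s : ℝ => d.pos e + v * exp (s * w)) (v * exp (x * w) * w) x :=
    fun x => (Neck_exp v w x).const_add _
  have hre : |w.re| ≤ ‖w‖ / 100 := by
    have key := Neck_path (f := fun s : ℝ => F.h0 d (F.lay e) (d.pos e + v * exp (s * w)) +
      μ * w.re * s) (K := ‖d.bet e‖ * (‖w‖ / 100)) (fun x hx => by
        obtain ⟨hU, y, hy, hB⟩ := loc x hx
        obtain ⟨L, hL, hL'⟩ := h.h0_deriv hs hU
        refine ⟨_, (hL.comp_hasDerivAt x (hγ x)).add ((hasDerivAt_id x).const_mul (μ * w.re)), ?_⟩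
        have ha := Neck_a h hU
        rw [hL', hB, m2]
        generalize F.a d (F.lay e) (d.pos e + v * exp (x * w)) = a at ha
        have hu : v * exp (x * w) ≠ 0 := mul_ne_zero hv0 (exp_ne_zero _)
        generalize v * exp (x * w) = u at hu
        have e1 : a * -(μ * β / u * y) * (u * w) = -(μ * (β * y * a * w)) := by
          field_simp
        have e2 : (a * -(μ * β / u * y) * (u * w)).re + μ * w.re * 1 =
            -(μ * ((β * y * a - 1) * w).re) := by
          rw [e1, neg_re, re_ofReal_mul, sub_mul, one_mul, sub_re]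
          ring
        rw [e2, ← m2, ← m1, norm_neg, norm_mul, Real.norm_eq_abs, Real.norm_eq_abs]
        refine mul_le_mul_of_nonneg_left ((abs_re_le_norm _).trans ?_) (abs_nonneg _)
        have b1 := Neck_mul (Neck_mul m3 hy) ha
        rw [norm_mul]
        have b2 : ‖β * y * a - 1‖ ≤ 1 / 100 := b1.trans (by norm_num)
        nlinarith [norm_nonneg w])
    simp only [ofReal_one, one_mul, ofReal_zero, zero_mul, exp_zero, mul_one, mul_zero,
      add_zero] at key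
    rw [← eh', add_sub_cancel_left, norm_mul, Real.norm_eq_abs, Real.norm_eq_abs, m1] at key
    exact le_of_mul_le_mul_left key hb
  obtain ⟨-, r2⟩ := Neck_re hθ hre
  set q : ℂ := conj ((μ : ℂ) ^ 2 / v) with hq
  have nq : ‖q‖ = μ ^ 2 / ‖v‖ := by
    rw [hq, norm_conj, norm_div, norm_pow, norm_real, Real.norm_eq_abs, sq_abs]
  have npq : ‖v + q‖ = ‖v‖ + ‖q‖ := by
    have e1 : v + q = ((1 + μ ^ 2 / ‖v‖ ^ 2 : ℝ) : ℂ) * v := by
      have hc : conj v ≠ 0 := by simpa using hv0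
      push_cast
      rw [← mul_conj' v, hq, map_div₀, map_pow, conj_ofReal]
      field_simp
    rw [e1, norm_mul, norm_real, Real.norm_eq_abs, abs_of_pos (by positivity), nq]
    field_simp
  have hw : w = 0 := by
    refine Neck_core (p := v) (q := q) (A := ‖v‖ + ‖q‖) (by positivity) rfl npq hθ hre ?_
    have key := Neck_path (f := fun s : ℝ => F.H d (F.lay e) (d.pos e + v * exp (s * w)) -
      (v * exp (s * w) + q * exp (s * -conj w))) (K := ‖w‖ * (‖v‖ + ‖q‖) / 50) (fun x hx => by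
        obtain ⟨hU, y, hy, hB⟩ := loc x hx
        obtain ⟨L, hL, hL'⟩ := h.H_deriv hs hU
        refine ⟨_, (hL.comp_hasDerivAt x (hγ x)).sub
          ((Neck_exp v w x).add (Neck_exp q (-conj w) x)), ?_⟩
        have ha := Neck_a h hU
        have hx1 : |x * w.re| ≤ 1 / 2 := by
          rw [abs_mul, abs_of_nonneg hx.1]
          nlinarith [hx.1, hx.2, abs_nonneg w.re]
        have n1 : ‖v * exp (x * w)‖ ≤ ‖v‖ * 2 := by
          rw [nu]
          exact mul_le_mul_of_nonneg_left (Neck_exp_le hx1) hv.le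
        have n2 : ‖q * exp (x * -conj w)‖ ≤ ‖q‖ * 2 := by
          rw [norm_mul, norm_exp, re_ofReal_mul, neg_re, conj_re, mul_neg]
          exact mul_le_mul_of_nonneg_left (Neck_exp_le (by rwa [abs_neg])) (norm_nonneg _)
        have e0 : q * exp (x * -conj w) = conj ((μ : ℂ) ^ 2 / (v * exp (x * w))) := by
          rw [hq, ← div_div, div_eq_mul_inv _ (exp _), ← exp_neg, map_mul, ← exp_conj]
          simp
        rw [hL', hB, m2]
        rw [e0] at n2 ⊢
        generalize F.a d (F.lay e) (d.pos e + v * exp (x * w)) = a at ha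
        have hu : v * exp (x * w) ≠ 0 := mul_ne_zero hv0 (exp_ne_zero _)
        generalize v * exp (x * w) = u at hu n1 n2
        have e1 : (-(μ * β / u * y)) ^ 2 * (u * w) = (β * y * (β * y)) * (μ ^ 2 / u) * w := by
          field_simp
        have e2 : a ^ 2 * (u * w) - conj ((-(μ * β / u * y)) ^ 2 * (u * w)) -
            (u * w + conj ((μ : ℂ) ^ 2 / u) * -conj w) =
            (a * a - 1) * u * w - conj ((β * y * (β * y) - 1) * (μ ^ 2 / u) * w) := by
          rw [e1]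
          simp only [map_mul, map_sub, map_one]
          ring
        rw [e2]
        rw [norm_conj] at n2
        have b1 : ‖a * a - 1‖ ≤ 1 / 100 := (Neck_mul ha ha).trans (by norm_num)
        have b2 : ‖β * y * (β * y) - 1‖ ≤ 1 / 100 :=
          (Neck_mul (Neck_mul m3 hy) (Neck_mul m3 hy)).trans (by norm_num)
        refine (norm_sub_le _ _).trans ?_
        rw [norm_conj, norm_mul, norm_mul, norm_mul, norm_mul]
        calc _ ≤ 1 / 100 * (‖v‖ * 2) * ‖w‖ + 1 / 100 * (‖q‖ * 2) * ‖w‖ := by gcongr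
          _ = _ := by ring)
    simp only [ofReal_one, one_mul, ofReal_zero, zero_mul, exp_zero, mul_one] at key
    rw [← eH, sub_sub_sub_cancel_left, norm_sub_rev] at key
    exact key
  rw [hw, exp_zero, mul_one]

theorem Frm.Adm.far_inj (h : F.Adm d) (hs : F.Sol d C) {k : ℕ} {z z' : ℂ} (hz : z ∈ F.Far d k)
    (hz' : z' ∈ F.Far d k) (he : F.H d k z = F.H d k z') : z = z' := by
  have n1 := h.H_near hs (h.Far_sub k hz)
  have n2 := h.H_near hs (h.Far_sub k hz')
  have n3 : ‖z' - z‖ ≤ 2 * (F.T k)⁻¹ ^ 3 := by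
    have e1 : z' - z = (F.H d k z - z) - (F.H d k z' - z') := by rw [he]; ring
    rw [e1]
    exact (norm_sub_le _ _).trans (by linarith)
  have T0 := h.T_pos k
  have T1 := h.T_le k
  have key := Neck_path (f := fun s : ℝ => F.H d k (z + s * (z' - z)) - (z + s * (z' - z)))
    (K := ‖z' - z‖ / 2) (fun x hx => by
      have hγ : HasDerivAt (fun s : ℝ => z + s * (z' - z)) (z' - z) x := by
        simpa using (((hasDerivAt_id (x : ℂ)).mul_const (z' - z)).comp_ofReal).const_add z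
      have hfar : ∀ e ∈ F.sides k, ‖d.bet e‖ ≤ F.Rs e / 2 ∧
          F.Rs e / 2 ≤ ‖z + x * (z' - z) - d.pos e‖ := fun e he => by
        have t0 := h.t_pos e.1
        have t1 : F.t e.1 ≤ F.T k := by
          have := h.t_le e
          rwa [mem_sides_iff.1 he] at this
        have t2 : (F.T k)⁻¹ ≤ (F.t e.1)⁻¹ := inv_anti₀ t0 t1
        have t3 : 1000 ≤ (F.t e.1)⁻¹ := by
          rw [le_inv_comm₀ (by norm_num) t0]
          linarith
        have t4 : (F.T k)⁻¹ ^ 3 ≤ (F.t e.1)⁻¹ ^ 3 := pow_le_pow_left₀ (by positivity) t2 3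
        have t5 : (F.t e.1)⁻¹ ^ 4 ≤ F.Rs e := pow_le_pow_right₀ (by linarith) (by norm_num)
        have t6 : (F.t e.1)⁻¹ ≤ (F.t e.1)⁻¹ ^ 3 := le_self_pow₀ (by linarith) (by norm_num)
        have t7 : 1000 * (F.t e.1)⁻¹ ^ 3 ≤ (F.t e.1)⁻¹ ^ 4 := by
          rw [pow_succ' _ 3]
          exact mul_le_mul_of_nonneg_right t3 (by positivity)
        have t8 := h.bet_le e
        refine ⟨by linarith, ?_⟩
        have b1 : ‖(x : ℂ) * (z' - z)‖ ≤ ‖z' - z‖ := by
          rw [norm_mul, norm_real, Real.norm_eq_abs, abs_of_nonneg hx.1]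
          exact mul_le_of_le_one_left (norm_nonneg _) hx.2
        have b2 : ‖z - d.pos e‖ ≤ ‖z + x * (z' - z) - d.pos e‖ + ‖(x : ℂ) * (z' - z)‖ := by
          refine le_trans (le_of_eq ?_) (norm_sub_le _ _)
          congr 1
          ring
        have b3 := hz e he
        linarith
      have hU : z + x * (z' - z) ∈ F.U d k :=
        h.Ub_sub k fun e he => (hfar e he).1.trans (hfar e he).2
      obtain ⟨L, hL, hL'⟩ := h.H_deriv hs hU
      have hD := HasFDerivAt.comp_hasDerivAt (l := F.H d k) (l' := L) x hL hγ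
      refine ⟨_, hD.sub hγ, ?_⟩
      have ha := Neck_a h hU
      have hb : ‖F.b d k (z + x * (z' - z))‖ ≤ 1 / 1000 :=
        (h.b_far fun e he => (hfar e he).2).trans
          ((pow_le_of_le_one T0.le (by linarith) (by norm_num)).trans T1)
      rw [hL']
      generalize F.a d k (z + x * (z' - z)) = a at ha
      generalize F.b d k (z + x * (z' - z)) = b at hb
      generalize z' - z = w
      have e1 : a ^ 2 * w - conj (b ^ 2 * w) - w = (a * a - 1) * w - conj (b ^ 2 * w) := by ring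
      have b1 : ‖a * a - 1‖ ≤ 1 / 100 := (Neck_mul ha ha).trans (by norm_num)
      rw [e1]
      refine (norm_sub_le _ _).trans ?_
      rw [norm_conj, norm_mul, norm_mul, norm_pow]
      calc _ ≤ 1 / 100 * ‖w‖ + (1 / 1000) ^ 2 * ‖w‖ := by gcongr
        _ ≤ _ := by linarith [norm_nonneg w])
  simp only [ofReal_one, one_mul, ofReal_zero, zero_mul, add_zero, add_sub_cancel] at key
  rw [he, sub_sub_sub_cancel_left, norm_sub_rev] at key
  have : ‖z' - z‖ ≤ 0 := by linarith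
  exact (sub_eq_zero.1 (norm_le_zero_iff.1 this)).symm

end Pool.Agent.MP_943ae2_gt
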