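import Pool.Agent.MP_943ae2_gt.Emb1
import Pool.Agent.MP_943ae2_gt.Neck

open Set Complex Filter
open scoped Topology ComplexConjugate ContDiff

noncomputable section

namespace Pool.Agent.MP_943ae2_gt

variable {ι : Type} {F : Frm ι} {d : Dat ι} {C : ℕ → ℝ}

/-- the two points correspond to each other across a neck -/
def Frm.Rel (F : Frm ι) (d : Dat ι) (k : ℕ) (z : ℂ) (k' : ℕ) (z' : ℂ) : Prop :=
  ∃ e v, F.lay e = k ∧ F.lay (opp e) = k' ∧ ‖d.bet e‖ ^ 2 / F.R e < ‖v‖ ∧ ‖v‖ < F.R e ∧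
    z = d.pos e + v ∧ z' = d.par e v

theorem emb2_mk3 (z : ℂ) (s : ℝ) : ‖z‖ ≤ ‖mk3 z s‖ ∧ |s| ≤ ‖mk3 z s‖ := by
  have h1 : ‖mk3 z s‖ ^ 2 = ‖z‖ ^ 2 + s ^ 2 := by
    rw [EuclideanSpace.norm_sq_eq, Fin.sum_univ_three, Complex.sq_norm, Complex.normSq_apply]
    simp [mk3]
    ring
  refine ⟨(pow_le_pow_iff_left₀ (norm_nonneg _) (norm_nonneg _) two_ne_zero).1 ?_,
    (pow_le_pow_iff_left₀ (abs_nonneg _) (norm_nonneg _) two_ne_zero).1 ?_⟩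
  · rw [h1]; linarith [sq_nonneg s]
  · rw [h1, sq_abs]; linarith [sq_nonneg ‖z‖]

theorem emb2_lay (e : ι × Bool) :
    (F.lay e = F.gap e.1 ∧ F.lay (opp e) = F.gap e.1 + 1 ∧ e.2 = false) ∨
      (F.lay e = F.gap e.1 + 1 ∧ F.lay (opp e) = F.gap e.1 ∧ e.2 = true) := by
  rcases e with ⟨ν, _ | _⟩ <;> simp

namespace Frm.Adm

section
variable (h : F.Adm d)
include h

theorem emb2_x (e : ι × Bool) : 1000 ≤ (F.t e.1)⁻¹ := by
  rw [le_inv_comm₀ (by norm_num) (h.t_pos _)]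
  simpa using h.t_small e.1

theorem emb2_T (e : ι × Bool) : (F.T (F.lay e))⁻¹ ^ 3 ≤ (F.t e.1)⁻¹ ^ 3 :=
  pow_le_pow_left₀ (inv_pos.2 (h.T_pos _)).le (inv_anti₀ (h.t_pos _) (h.t_le e)) 3

theorem emb2_R (e : ι × Bool) : F.Rs e + 3 * (F.t e.1)⁻¹ ^ 3 ≤ F.R e := by
  have hx := h.emb2_x e
  unfold Frm.Rs Frm.R
  generalize (F.t e.1)⁻¹ = x at hx
  have h1 : x ^ 3 ≤ x ^ 12 := pow_le_pow_right₀ (by linarith) (by norm_num)
  have h2 : (4 : ℝ) ≤ x ^ 4 := le_trans (by linarith) (le_self_pow₀ (by linarith) (by norm_num))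
  have h3 : 0 < x ^ 12 := by positivity
  calc x ^ 12 + 3 * x ^ 3 ≤ x ^ 12 * 4 := by linarith
    _ ≤ x ^ 12 * x ^ 4 := by gcongr
    _ = x ^ 16 := by ring

theorem emb2_bet (e : ι × Bool) : ‖d.bet e‖ < F.R e := by
  have hx := h.emb2_x e
  have h1 := h.emb2_R e
  have h2 := h.Rs_pos e
  have h3 := h.bet_le e
  have h4 : (F.t e.1)⁻¹ ≤ (F.t e.1)⁻¹ ^ 3 := le_self_pow₀ (by linarith) (by norm_num)
  linarith

theorem emb2_low (e : ι × Bool) {s : ℝ} (hs : ‖d.bet e‖ ≤ s) : ‖d.bet e‖ ^ 2 / F.R e < s := by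
  refine lt_of_lt_of_le ?_ hs
  rw [div_lt_iff₀ (h.R_pos e), sq]
  exact mul_lt_mul_of_pos_left (h.emb2_bet e) (h.bet_pos e)

theorem emb2_inv (e : ι × Bool) {v : ℂ} (h1 : ‖d.bet e‖ ^ 2 / F.R e < ‖v‖) (h2 : ‖v‖ < F.R e) :
    ‖d.bet e‖ ^ 2 / F.R e < ‖conj (d.bet e ^ 2 / v)‖ ∧ ‖conj (d.bet e ^ 2 / v)‖ < F.R e := by
  have hb := h.bet_pos e
  have hR := h.R_pos e
  have hv : 0 < ‖v‖ := lt_trans (by positivity) h1
  rw [Complex.norm_conj, norm_div, norm_pow]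
  refine ⟨div_lt_div_of_pos_left (by positivity) hv h2, ?_⟩
  rw [div_lt_iff₀ hR] at h1
  rw [div_lt_iff₀ hv]
  linarith

theorem emb2_symm {k k' : ℕ} {z z' : ℂ} (hr : F.Rel d k z k' z') : F.Rel d k' z' k z := by
  obtain ⟨e, v, rfl, rfl, h1, h2, rfl, rfl⟩ := hr
  obtain ⟨h3, h4⟩ := h.emb2_inv e h1 h2
  exact ⟨opp e, conj (d.bet e ^ 2 / v), rfl, by rw [opp_opp], by simpa using h3, by simpa using h4,
    rfl, (par_par (h.bet_ne e) v).symm⟩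

theorem emb2_side {e μ : ι × Bool} (hl : F.lay μ = F.lay e)
    (hd : ‖d.pos e - d.pos μ‖ ≤ F.R e + F.R μ) : μ = e := by
  by_contra hne
  have hμ : μ ∈ F.oth e := mem_oth.2 ⟨hne, hl⟩
  have h1 := h.sep e μ hμ
  have h2 := h.sep' hμ
  have h3 := h.R_pos e
  linarith

theorem emb2_two {k k₁ k₂ : ℕ} {z z₁ z₂ : ℂ} (hr : F.Rel d k z k₁ z₁) (hr' : F.Rel d k₁ z₁ k₂ z₂) :
    k = k₂ ∧ z = z₂ := by
  obtain ⟨e, v, h0, rfl, h1, h2, h3, rfl⟩ := h.emb2_symm hr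
  obtain ⟨μ, w, g0, rfl, g1, g2, g3, rfl⟩ := hr'
  have hd : ‖d.pos e - d.pos μ‖ ≤ F.R e + F.R μ := by
    have : d.pos e - d.pos μ = w - v := by linear_combination g3 - h3
    rw [this]
    linarith [norm_sub_le w v]
  obtain rfl := h.emb2_side (g0.trans h0.symm) hd
  obtain rfl : v = w := by linear_combination g3 - h3
  exact ⟨rfl, rfl⟩

theorem emb2_trans {k k₁ k₂ : ℕ} {z z₁ z₂ : ℂ} (hr : (k = k₁ ∧ z = z₁) ∨ F.Rel d k z k₁ z₁)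
    (hr' : (k₁ = k₂ ∧ z₁ = z₂) ∨ F.Rel d k₁ z₁ k₂ z₂) :
    (k = k₂ ∧ z = z₂) ∨ F.Rel d k z k₂ z₂ := by
  rcases hr with ⟨rfl, rfl⟩ | hr
  · exact hr'
  · rcases hr' with ⟨rfl, rfl⟩ | hr'
    · exact Or.inr hr
    · exact Or.inl (h.emb2_two hr hr')

theorem emb2_symm' {k k' : ℕ} {z z' : ℂ} (hr : (k = k' ∧ z = z') ∨ F.Rel d k z k' z') :
    (k' = k ∧ z' = z) ∨ F.Rel d k' z' k z :=
  hr.imp (fun h => ⟨h.1.symm, h.2.symm⟩) h.emb2_symm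

theorem emb2_mono (ho : F.Ord d C) {i j : ℕ} (hij : i < j) (p : ℂ) :
    F.Ut d C i p + F.T (i - 1) ^ 5 ≤ F.Ut d C j p := by
  induction j, hij using Nat.le_induction with
  | base => exact ho.gap i p
  | succ j _ ih =>
    have h1 := ho.gap j p
    have h2 := pow_pos (h.T_pos (j - 1)) 5
    linarith

theorem emb2_ord (ho : F.Ord d C) {i j k k' : ℕ} {p : ℂ} {s : ℝ} (hk : i ≤ k + 1) (hk' : j ≤ k')
    (h1 : s ≤ F.Ut d C i p + F.T k ^ 6) (h2 : F.Ut d C j p - F.T k' ^ 6 ≤ s) : j ≤ i := by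
  by_contra hlt
  have h3 := h.emb2_mono ho (not_le.1 hlt) p
  have h4 : F.T k ^ 6 ≤ F.T (i - 1) ^ 6 :=
    pow_le_pow_left₀ (h.T_pos _).le (h.T_anti (by omega)) 6
  have h5 : F.T k' ^ 6 ≤ F.T (i - 1) ^ 6 :=
    pow_le_pow_left₀ (h.T_pos _).le (h.T_anti (by omega)) 6
  have h6 := pow_pos (h.T_pos (i - 1)) 5
  have h7 := h.T_le (i - 1)
  have h8 : F.T (i - 1) ^ 6 ≤ F.T (i - 1) ^ 5 * (1 / 1000) := by
    rw [pow_succ]; gcongr
  linarith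

end

variable (h : F.Adm d) (hs : F.Sol d C)
include h hs

theorem emb2_X {k k' : ℕ} {z z' : ℂ} (hr : F.Rel d k z k' z') : F.X d C k z = F.X d C k' z' := by
  obtain ⟨e, v, rfl, rfl, h1, h2, rfl, rfl⟩ := hr
  exact h.matching hs e h1 h2

theorem emb2_cls {k : ℕ} {z : ℂ} (hz : z ∈ F.Ub d k) :
    (z ∈ F.Far d k ∧ F.Ut d C k (F.H d k z) - F.T k ^ 6 ≤ C k + F.h0 d k z ∧
      C k + F.h0 d k z ≤ F.Ut d C k (F.H d k z) + F.T k ^ 6) ∨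
    ∃ e, F.lay e = k ∧ ‖z - d.pos e‖ < F.Rs e ∧
      F.Ut d C (F.gap e.1) (F.H d k z) - F.T k ^ 6 ≤ C k + F.h0 d k z ∧
      C k + F.h0 d k z ≤ F.Ut d C (F.gap e.1 + 1) (F.H d k z) + F.T k ^ 6 := by
  by_cases hf : z ∈ F.Far d k
  · have h1 := abs_le.1 (h.height_far hs hf)
    exact Or.inl ⟨hf, by linarith [h1.1], by linarith [h1.2]⟩
  · right
    simp only [Frm.Far, mem_setOf_eq, not_forall, not_le] at hf
    obtain ⟨e, he, hn⟩ := hf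
    obtain rfl := mem_sides_iff.1 he
    refine ⟨e, rfl, hn, ?_⟩
    rcases e with ⟨ν, _ | _⟩
    · rw [lay_false] at hz ⊢
      exact h.height_lo hs ν hz hn
    · rw [lay_true] at hz ⊢
      exact h.height_up hs ν hz hn

theorem emb2_dist {k k' : ℕ} {z z' : ℂ} (hz : z ∈ F.Ub d k) (hz' : z' ∈ F.Ub d k')
    (he : F.H d k z = F.H d k' z') : ‖z' - z‖ ≤ (F.T k)⁻¹ ^ 3 + (F.T k')⁻¹ ^ 3 := by
  have h1 := h.H_near hs hz
  have h2 := h.H_near hs hz'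
  have h3 : z' - z = (F.H d k z - z) - (F.H d k' z' - z') := by rw [he]; ring
  rw [h3]
  linarith [norm_sub_le (F.H d k z - z) (F.H d k' z' - z')]

theorem emb2_near (e : ι × Bool) {k' : ℕ} {z z' : ℂ} (hz : z ∈ F.Ub d (F.lay e))
    (hz' : z' ∈ F.Ub d k') (hn : ‖z - d.pos e‖ < F.Rs e)
    (hk : k' = F.gap e.1 ∨ k' = F.gap e.1 + 1) (he : F.X d C (F.lay e) z = F.X d C k' z') :
    (F.lay e = k' ∧ z = z') ∨ F.Rel d (F.lay e) z k' z' := by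
  have hk' : k' = F.lay e ∨ k' = F.lay (opp e) := by
    rcases emb2_lay (F := F) e with h1 | h1 <;> omega
  have hd := h.emb2_dist hs hz hz' (X_eq_iff.1 he).1
  have t1 := h.emb2_T e
  have t2 : (F.T (F.lay (opp e)))⁻¹ ^ 3 ≤ (F.t e.1)⁻¹ ^ 3 := h.emb2_T (opp e)
  have t3 := h.emb2_R e
  have t4 : 0 < (F.t e.1)⁻¹ ^ 3 := pow_pos (inv_pos.2 (h.t_pos _)) 3
  have v1 := h.emb2_low e (hz e (self_mem_sides e))
  have v2 : ‖z - d.pos e‖ < F.R e := by linarith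
  rcases hk' with rfl | rfl
  · left
    have w1 := h.emb2_low e (hz' e (self_mem_sides e))
    have w2 : ‖z' - d.pos e‖ < F.R e := by
      linarith [norm_sub_le_norm_sub_add_norm_sub z' z (d.pos e)]
    have h1 := h.neck_inj hs e v1 v2 w1 w2 (by simpa using he)
    exact ⟨rfl, by linear_combination h1⟩
  · right
    have w1 := h.emb2_low (opp e) (hz' _ (self_mem_sides (opp e)))
    have w2 : ‖z' - d.pos (opp e)‖ < F.R (opp e) := by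
      rw [R_opp]
      linarith [norm_sub_le_norm_sub_add_norm_sub z' z (d.pos (opp e)),
        norm_sub_le_norm_sub_add_norm_sub z (d.pos e) (d.pos (opp e)), h.pq e]
    have r1 : F.Rel d (F.lay (opp e)) z' (F.lay e) (d.par (opp e) (z' - d.pos (opp e))) :=
      ⟨opp e, _, rfl, by rw [opp_opp], w1, w2, by ring, rfl⟩
    obtain ⟨u1, u2⟩ := h.emb2_inv (opp e) w1 w2
    have h2 : d.par (opp e) (z' - d.pos (opp e)) =
        d.pos e + conj (d.bet (opp e) ^ 2 / (z' - d.pos (opp e))) := by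
      rw [Dat.par, opp_opp]
    have h1 := h.neck_inj hs e v1 v2 (by simpa using u1) (by simpa using u2)
      (v' := conj (d.bet (opp e) ^ 2 / (z' - d.pos (opp e))))
      (by rw [← h2, ← h.emb2_X hs r1, ← he]; simp)
    have h3 : d.par (opp e) (z' - d.pos (opp e)) = z := by rw [h2, ← h1]; ring
    rw [h3] at r1
    exact h.emb2_symm r1

theorem emb2_skip {e μ : ι × Bool} {z z' : ℂ} (hz : z ∈ F.Ub d (F.lay e))
    (hz' : z' ∈ F.Ub d (F.lay μ)) (hn : ‖z - d.pos e‖ < F.Rs e) (hn' : ‖z' - d.pos μ‖ < F.Rs μ)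
    (hl : F.lay (opp μ) = F.lay (opp e)) (he : F.H d (F.lay e) z = F.H d (F.lay μ) z') :
    μ = e := by
  have hd := h.emb2_dist hs hz hz' he
  have t1 := h.emb2_T e
  have t2 := h.emb2_T μ
  have t3 := h.emb2_R e
  have t4 := h.emb2_R μ
  have t5 : 0 < (F.t e.1)⁻¹ ^ 3 := pow_pos (inv_pos.2 (h.t_pos _)) 3
  have t6 : 0 < (F.t μ.1)⁻¹ ^ 3 := pow_pos (inv_pos.2 (h.t_pos _)) 3
  have h1 : opp μ = opp e := by
    refine h.emb2_side hl ?_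
    rw [R_opp, R_opp, norm_sub_rev]
    have p1 := h.pq e
    have p2 := h.pq μ
    rw [norm_sub_rev] at p2 hn'
    linarith [norm_sub_le_norm_sub_add_norm_sub (d.pos (opp μ)) (d.pos μ) (d.pos (opp e)),
      norm_sub_le_norm_sub_add_norm_sub (d.pos μ) z' (d.pos (opp e)),
      norm_sub_le_norm_sub_add_norm_sub z' z (d.pos (opp e)),
      norm_sub_le_norm_sub_add_norm_sub z (d.pos e) (d.pos (opp e))]
  rw [← opp_opp μ, h1, opp_opp]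

theorem emb2_inj (ho : F.Ord d C) {k k' : ℕ} {z z' : ℂ} (hz : z ∈ F.Ub d k) (hz' : z' ∈ F.Ub d k')
    (he : F.X d C k z = F.X d C k' z') : (k = k' ∧ z = z') ∨ F.Rel d k z k' z' := by
  obtain ⟨hH, hh⟩ := X_eq_iff.1 he
  rcases h.emb2_cls hs hz with ⟨f, l1, u1⟩ | ⟨e, rfl, hn, l1, u1⟩ <;>
    rcases h.emb2_cls hs hz' with ⟨f', l2, u2⟩ | ⟨μ, rfl, hn', l2, u2⟩ <;>
    rw [← hH, ← hh] at l2 u2
  · have a1 := h.emb2_ord ho (Nat.le_succ _) le_rfl u1 l2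
    have a2 := h.emb2_ord ho (Nat.le_succ _) le_rfl u2 l1
    obtain rfl : k = k' := le_antisymm a2 a1
    exact Or.inl ⟨rfl, h.far_inj hs f f' hH⟩
  · have c := emb2_lay (F := F) μ
    have a1 := h.emb2_ord ho (Nat.le_succ _) (by omega) u1 l2
    have a2 := h.emb2_ord ho (by omega) le_rfl u2 l1
    exact h.emb2_symm' (h.emb2_near hs μ hz' hz hn' (by omega) he.symm)
  · have c := emb2_lay (F := F) e
    have a1 := h.emb2_ord ho (by omega) le_rfl u1 l2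
    have a2 := h.emb2_ord ho (Nat.le_succ _) (by omega) u2 l1
    exact h.emb2_near hs e hz hz' hn (by omega) he
  · have c := emb2_lay (F := F) e
    have c' := emb2_lay (F := F) μ
    have a1 := h.emb2_ord ho (by omega) (by omega) u1 l2
    have a2 := h.emb2_ord ho (by omega) (by omega) u2 l1
    by_cases b1 : F.lay μ = F.gap e.1 ∨ F.lay μ = F.gap e.1 + 1
    · exact h.emb2_near hs e hz hz' hn b1 he
    by_cases b2 : F.lay e = F.gap μ.1 ∨ F.lay e = F.gap μ.1 + 1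
    · exact h.emb2_symm' (h.emb2_near hs μ hz' hz hn' b2 he.symm)
    obtain rfl := h.emb2_skip hs hz hz' hn hn' (by omega) hH
    omega

theorem cover {k : ℕ} {z : ℂ} (hz : z ∈ F.U d k) :
    z ∈ F.Ub d k ∨ ∃ k', ∃ z' ∈ F.Ub d k', F.Rel d k z k' z' := by
  by_cases hb : z ∈ F.Ub d k
  · exact Or.inl hb
  right
  simp only [Frm.Ub, mem_setOf_eq, not_forall, not_le] at hb
  obtain ⟨e, he, hn⟩ := hb
  obtain rfl := mem_sides_iff.1 he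
  have h1 := hz e he
  have h2 : ‖z - d.pos e‖ < F.R e := hn.trans (h.emb2_bet e)
  have h3 := (h.emb2_inv e h1 h2).2
  have hb := h.bet_pos e
  have hR := h.R_pos e
  have hv : 0 < ‖z - d.pos e‖ := lt_trans (by positivity) h1
  refine ⟨F.lay (opp e), d.par e (z - d.pos e), h.mem_Ub (opp e) ?_ ?_,
    e, z - d.pos e, rfl, rfl, h1, h2, by ring, rfl⟩
  · rw [norm_bet_opp, Complex.norm_conj, norm_div, norm_pow, le_div_iff₀ hv, sq]
    exact mul_le_mul_of_nonneg_left hn.le hb.le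
  · rw [R_opp]; linarith

theorem inj (ho : F.Ord d C) {k k' : ℕ} {z z' : ℂ} (hz : z ∈ F.U d k) (hz' : z' ∈ F.U d k')
    (he : F.X d C k z = F.X d C k' z') : (k = k' ∧ z = z') ∨ F.Rel d k z k' z' := by
  have key : ∀ {k : ℕ} {z : ℂ}, z ∈ F.U d k → ∃ k₁, ∃ z₁ ∈ F.Ub d k₁,
      F.X d C k z = F.X d C k₁ z₁ ∧ ((k = k₁ ∧ z = z₁) ∨ F.Rel d k z k₁ z₁) := by
    intro k z hz
    rcases h.cover hs hz with hb | ⟨k₁, z₁, hb, hr⟩
    · exact ⟨k, z, hb, rfl, Or.inl ⟨rfl, rfl⟩⟩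
    · exact ⟨k₁, z₁, hb, h.emb2_X hs hr, Or.inr hr⟩
  obtain ⟨k₁, z₁, b1, x1, r1⟩ := key hz
  obtain ⟨k₂, z₂, b2, x2, r2⟩ := key hz'
  exact h.emb2_trans (h.emb2_trans r1 (h.emb2_inj hs ho b1 b2 (x1.symm.trans (he.trans x2))))
    (h.emb2_symm' r2)

theorem proper (ho : F.Ord d C) (r : ℝ) :
    ∃ K : ℕ, ∀ k, ∀ z ∈ F.Ub d k, ‖F.X d C k z‖ ≤ r → k ≤ K ∧ ‖z‖ ≤ K := by
  obtain ⟨K, hK⟩ := ho.up r (r + 1)
  refine ⟨max K ⌈r + (F.T K)⁻¹ ^ 3⌉₊, fun k z hz hr => ?_⟩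
  obtain ⟨n1, n2⟩ := emb2_mk3 (F.H d k z) (2 * (C k + F.h0 d k z))
  have h1 : ‖F.H d k z‖ ≤ r := n1.trans hr
  have h2 : 2 * (C k + F.h0 d k z) ≤ r := (le_abs_self _).trans (n2.trans hr)
  have h3 : 0 ≤ r := (norm_nonneg _).trans h1
  have h4 : F.T k ^ 6 < 1 :=
    pow_lt_one₀ (h.T_pos k).le ((h.T_le k).trans_lt (by norm_num)) (by norm_num)
  have hk : k ≤ K := by
    by_contra hlt
    rcases h.emb2_cls hs hz with ⟨-, l1, -⟩ | ⟨e, rfl, -, l1, -⟩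
    · linarith [hK k (by omega) _ h1]
    · have c := emb2_lay (F := F) e
      linarith [hK (F.gap e.1) (by omega) _ h1]
  refine ⟨hk.trans (le_max_left _ _), ?_⟩
  have h5 := h.H_near hs hz
  have h6 : (F.T k)⁻¹ ^ 3 ≤ (F.T K)⁻¹ ^ 3 :=
    pow_le_pow_left₀ (inv_pos.2 (h.T_pos _)).le (inv_anti₀ (h.T_pos _) (h.T_anti hk)) 3
  have h7 : ‖z‖ ≤ ‖F.H d k z‖ + ‖F.H d k z - z‖ := by
    simpa using norm_sub_le (F.H d k z) (F.H d k z - z)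
  have h8 := Nat.le_ceil (r + (F.T K)⁻¹ ^ 3)
  have h9 : ((⌈r + (F.T K)⁻¹ ^ 3⌉₊ : ℕ) : ℝ) ≤ (max K ⌈r + (F.T K)⁻¹ ^ 3⌉₊ : ℕ) :=
    Nat.cast_le.2 (le_max_right _ _)
  linarith

end Frm.Adm

end Pool.Agent.MP_943ae2_gt
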