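import Pool.Agent.MP_943ae2_gt.Glue2

open Set Complex Filter
open scoped Topology ComplexConjugate ContDiff

noncomputable section

namespace Pool.Agent.MP_943ae2_gt

lemma glue3_cont (A : Atlas) (k : ℕ) : ContinuousOn (A.X k) (A.U k) := fun z hz => by
  obtain ⟨L, hL, -⟩ := A.wei k z hz
  exact hL.continuousAt.continuousWithinAt

lemma glue3_S (A : Atlas) : A.S = ⋃ k, A.X k '' A.Ub k := by
  refine Subset.antisymm (iUnion_subset fun k => ?_)
    (iUnion_mono fun k => image_mono (A.sub k))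
  rintro _ ⟨z, hz, rfl⟩
  obtain ⟨k', z', hz', e⟩ := A.cover k z hz
  exact mem_iUnion.2 ⟨k', z', hz', e⟩

theorem Atlas.connectedSpace (A : Atlas) : ConnectedSpace A.S := by
  refine isConnected_iff_connectedSpace.1 ⟨?_, ?_⟩
  · obtain ⟨z, hz, -⟩ := A.link 0
    exact ⟨_, mem_iUnion.2 ⟨0, z, A.sub 0 hz, rfl⟩⟩
  · rw [glue3_S]
    refine IsPreconnected.iUnion_of_chain
      (fun k => (A.conn k).image _ ((glue3_cont A k).mono (A.sub k))) fun k => ?_
    obtain ⟨z, hz, z', hz', e⟩ := A.link k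
    exact ⟨_, ⟨z, hz, rfl⟩, z', hz', e.symm⟩

lemma glue3_compact (A : Atlas) {B : ℕ → Set ℂ} (hB : ∀ k, IsClosed (B k))
    (hs : ∀ k, B k ⊆ A.Ub k) {K : Set E3} (hK : IsCompact K) :
    IsCompact ((⋃ k, A.X k '' B k) ∩ K) := by
  obtain ⟨R, hR⟩ := hK.isBounded.exists_norm_le
  obtain ⟨N, hN⟩ := A.proper R
  have e : (⋃ k, A.X k '' B k) ∩ K =
      (⋃ k ∈ Iic N, A.X k '' (B k ∩ Metric.closedBall 0 N)) ∩ K := by
    refine Subset.antisymm ?_ (inter_subset_inter_left _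
      (iUnion_mono fun k => iUnion_subset fun _ => image_mono inter_subset_left))
    rintro x ⟨hx, hxK⟩
    obtain ⟨k, z, hz, rfl⟩ := mem_iUnion.1 hx
    obtain ⟨h1, h2⟩ := hN k z (hs k hz) (hR _ hxK)
    exact ⟨mem_biUnion (t := fun k => A.X k '' (B k ∩ Metric.closedBall 0 N)) h1
      ⟨z, ⟨hz, mem_closedBall_zero_iff.2 h2⟩, rfl⟩, hxK⟩
  rw [e]
  refine IsCompact.inter_right ((finite_Iic N).isCompact_biUnion fun k _ => ?_) hK.isClosed
  exact ((isCompact_closedBall _ _).inter_left (hB k)).image_of_continuousOn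
    ((glue3_cont A k).mono fun z hz => A.sub k (hs k hz.1))

theorem Atlas.isCompact_preimage (A : Atlas) {K : Set E3} (hK : IsCompact K) :
    IsCompact ((Subtype.val : A.S → E3) ⁻¹' K) := by
  rw [Subtype.isCompact_iff, Subtype.image_preimage_coe, glue3_S]
  exact glue3_compact A A.cls (fun _ => Subset.rfl) hK

lemma glue3_closed (A : Atlas) (k : ℕ) {B : Set ℂ} (hB : IsClosed B) (hs : B ⊆ A.Ub k) :
    IsClosed (A.X k '' B) := by
  classical
  have e : A.X k '' B = ⋃ j, A.X j '' (if j = k then B else ∅) := by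
    refine Subset.antisymm (subset_iUnion_of_subset k (by simp)) (iUnion_subset fun j => ?_)
    split_ifs with h
    · rw [h]
    · simp
  refine isClosed_of_closure_subset fun x hx => ?_
  have h1 : IsCompact (A.X k '' B ∩ Metric.closedBall x 1) := by
    rw [e]
    refine glue3_compact A (fun j => ?_) (fun j => ?_) (isCompact_closedBall _ _)
    · split_ifs
      · exact hB
      · exact isClosed_empty
    · split_ifs with h
      · rw [h]; exact hs
      · exact empty_subset _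
  have h2 := Metric.isOpen_ball.closure_inter ⟨hx, Metric.mem_ball_self (x := x) one_pos⟩
  exact (h1.isClosed.closure_subset (closure_mono
    (inter_subset_inter_right _ Metric.ball_subset_closedBall) h2)).1

lemma glue3_out (r : ℝ) : IsPreconnected {z : ℂ | r < ‖z‖} := by
  have e : {z : ℂ | r < ‖z‖} =
      (fun p : ℝ × ℝ => (p.1 : ℂ) * exp (p.2 * I)) '' (Ioi r ×ˢ univ) := by
    ext z
    constructor
    · intro hz
      exact ⟨(‖z‖, arg z), ⟨hz, trivial⟩, norm_mul_exp_arg_mul_I z⟩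
    · rintro ⟨⟨s, t⟩, ⟨hs, -⟩, rfl⟩
      have hs' : r < s := hs
      simp only [mem_ofPred_eq, norm_mul, norm_real, norm_exp_ofReal_mul_I, mul_one,
        Real.norm_eq_abs]
      exact hs'.trans_le (le_abs_self s)
  rw [e]
  exact (isPreconnected_Ioi.prod isPreconnected_univ).image _ (by fun_prop)

lemma glue3_end {M : Type} [TopologicalSpace M] (E : ℕ → Set M) (anti : Antitone E)
    (ne : ∀ n, (E n).Nonempty) (pc : ∀ n, IsPreconnected (E n))
    (esc : ∀ K, IsCompact K → ∃ n, E n ⊆ Kᶜ) :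
    ∃ e, IsEnd e ∧ ∀ K n x, E n ⊆ Kᶜ → x ∈ E n → e K = connectedComponentIn Kᶜ x := by
  have h0 : ∀ K n x y, E n ⊆ Kᶜ → x ∈ E n → y ∈ E n →
      connectedComponentIn Kᶜ x = connectedComponentIn Kᶜ y := fun K n x y h hx hy =>
    connectedComponentIn_eq ((pc n).subset_connectedComponentIn hx h hy)
  have h1 : ∀ K n x, E n ⊆ Kᶜ → x ∈ E n →
      {y | ∃ n, E n ⊆ Kᶜ ∧ ∃ x ∈ E n, y ∈ connectedComponentIn Kᶜ x} =
        connectedComponentIn Kᶜ x := by
    intro K n x h hx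
    refine Subset.antisymm ?_ fun y hy => ⟨n, h, x, hx, hy⟩
    rintro y ⟨m, hm, x', hx', hy⟩
    obtain ⟨w, hw⟩ := ne (max n m)
    rwa [h0 K n x w h hx (anti (le_max_left _ _) hw), ← h0 K m x' w hm hx' (anti (le_max_right _ _) hw)]
  refine ⟨fun K => {y | ∃ n, E n ⊆ Kᶜ ∧ ∃ x ∈ E n, y ∈ connectedComponentIn Kᶜ x},
    ⟨fun K hK => ?_, ?_⟩, h1⟩
  · obtain ⟨n, hn⟩ := esc K hK
    obtain ⟨x, hx⟩ := ne n
    refine ⟨⟨x, hn hx, h1 K n x hn hx⟩, fun hc => ?_⟩
    obtain ⟨m, hm⟩ := esc _ hc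
    obtain ⟨w, hw⟩ := ne (max n m)
    have hw' := anti (le_max_left _ _) hw
    exact hm (anti (le_max_right _ _) hw)
      (subset_closure ⟨n, hn, w, hw', mem_connectedComponentIn (hn hw')⟩)
  · rintro K K' - - h y ⟨n, hn, x, hx, hy⟩
    exact ⟨n, hn.trans (compl_subset_compl.2 h), x, hx,
      connectedComponentIn_mono _ (compl_subset_compl.2 h) hy⟩

lemma glue3_layer (A : Atlas) (k : ℕ) {R : ℝ} (hR : 0 ≤ R) (h : ∀ z, R ≤ ‖z‖ → z ∈ A.Ub k) :
    ∃ e : Set A.S → Set A.S, IsEnd e ∧ ∀ K, IsCompact K → ∃ x, x ∉ K ∧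
      (∃ z, R < ‖z‖ ∧ A.X k z = x.1) ∧ e K = connectedComponentIn Kᶜ x := by
  have hsub : ∀ n : ℕ, {z : ℂ | R + n < ‖z‖} ⊆ A.Ub k := fun n z hz =>
    h z ((le_add_of_nonneg_right (Nat.cast_nonneg n)).trans (le_of_lt hz))
  have hS : ∀ n : ℕ, A.X k '' {z : ℂ | R + n < ‖z‖} ⊆ A.S := fun n =>
    subset_iUnion_of_subset k (image_mono ((hsub n).trans (A.sub k)))
  have ne : ∀ n : ℕ,
      ((Subtype.val : A.S → E3) ⁻¹' (A.X k '' {z : ℂ | R + n < ‖z‖})).Nonempty := by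
    intro n
    have hz : ((R + n + 1 : ℝ) : ℂ) ∈ {z : ℂ | R + n < ‖z‖} := by
      rw [mem_ofPred_eq, norm_real, Real.norm_eq_abs]
      exact (lt_add_one _).trans_le (le_abs_self _)
    exact ⟨⟨_, hS n ⟨_, hz, rfl⟩⟩, _, hz, rfl⟩
  have esc : ∀ K : Set A.S, IsCompact K → ∃ n : ℕ,
      (Subtype.val : A.S → E3) ⁻¹' (A.X k '' {z : ℂ | R + n < ‖z‖}) ⊆ Kᶜ := by
    intro K hK
    obtain ⟨r, hr⟩ := (hK.image continuous_subtype_val).isBounded.exists_norm_le
    obtain ⟨N, hN⟩ := A.proper r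
    refine ⟨N, ?_⟩
    rintro x ⟨z, hz, e⟩ hx
    have h1 := (hN k z (hsub N hz) (e ▸ hr _ ⟨x, hx, rfl⟩)).2
    have h2 : R + N < ‖z‖ := hz
    linarith
  obtain ⟨e, he, h1⟩ := glue3_end
    (fun n : ℕ => (Subtype.val : A.S → E3) ⁻¹' (A.X k '' {z : ℂ | R + n < ‖z‖}))
    (fun n m hnm => preimage_mono (image_mono fun z hz =>
      lt_of_le_of_lt (add_le_add_right (Nat.cast_le.2 hnm) R) hz)) ne
    (fun n => by
      rw [← Topology.IsInducing.subtypeVal.isPreconnected_image, Subtype.image_preimage_coe,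
        inter_eq_right.2 (hS n)]
      exact (glue3_out _).image _
        ((glue3_cont A k).mono ((hsub n).trans (A.sub k)))) esc
  refine ⟨e, he, fun K hK => ?_⟩
  obtain ⟨n, hn⟩ := esc K hK
  obtain ⟨x, hx⟩ := ne n
  refine ⟨x, hn hx, ?_, h1 K n x hn hx⟩
  obtain ⟨z, hz, e⟩ := hx
  exact ⟨z, lt_of_le_of_lt (le_add_of_nonneg_right (Nat.cast_nonneg n)) hz, e⟩

theorem Atlas.twoEnds (A : Atlas) : TwoEnds A.S := by
  obtain ⟨R0, h0⟩ := A.far 0
  obtain ⟨R1, h1⟩ := A.far 1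
  have a0 : ∀ z : ℂ, |R0| ≤ ‖z‖ → z ∈ A.Ub 0 := fun z hz => (h0 z ((le_abs_self _).trans hz)).1
  obtain ⟨e0, he0, k0⟩ := glue3_layer A 0 (abs_nonneg R0) a0
  obtain ⟨e1, he1, k1⟩ := glue3_layer A 1 (abs_nonneg R1)
    fun z hz => (h1 z ((le_abs_self _).trans hz)).1
  have hK : IsCompact ((Subtype.val : A.S → E3) ⁻¹' (A.X 0 '' Metric.sphere 0 |R0|)) :=
    A.isCompact_preimage ((isCompact_sphere _ _).image_of_continuousOn
      ((glue3_cont A 0).mono fun z hz => A.sub 0 (a0 z (mem_sphere_zero_iff_norm.1 hz).ge)))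
  refine ⟨e0, e1, he0, he1, _, hK, fun he => ?_⟩
  obtain ⟨x, hx, ⟨z, hz, ez⟩, ex⟩ := k0 _ hK
  obtain ⟨y, hy, ⟨w, hw, ew⟩, ey⟩ := k1 _ hK
  have hO : IsOpen ((Subtype.val : A.S → E3) ⁻¹' (A.X 0 '' {z | |R0| < ‖z‖})) :=
    A.isOpen_image 0 (isOpen_lt continuous_const continuous_norm)
      fun z hz => A.sub 0 (a0 z (le_of_lt hz))
  have hC : IsClosed ((Subtype.val : A.S → E3) ⁻¹' (A.X 0 '' {z | |R0| ≤ ‖z‖})) :=
    (glue3_closed A 0 (isClosed_le continuous_const continuous_norm) a0).preimage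
      continuous_subtype_val
  have hW := (isPreconnected_connectedComponentIn (x := x)
    (F := ((Subtype.val : A.S → E3) ⁻¹' (A.X 0 '' Metric.sphere 0 |R0|))ᶜ)).subset_left_of_subset_union
    hO hC.isOpen_compl
    (disjoint_compl_right.mono_left (preimage_mono (image_mono
      fun z (hz : |R0| < ‖z‖) => show |R0| ≤ ‖z‖ from hz.le)))
    (fun p hp => by
      have hp' := connectedComponentIn_subset _ _ hp
      by_cases hc : p ∈ (Subtype.val : A.S → E3) ⁻¹' (A.X 0 '' {z | |R0| ≤ ‖z‖})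
      · obtain ⟨v, hv, ev⟩ := hc
        rcases lt_or_eq_of_le (show |R0| ≤ ‖v‖ from hv) with h | h
        · exact Or.inl ⟨v, h, ev⟩
        · exact absurd ⟨v, mem_sphere_zero_iff_norm.2 h.symm, ev⟩ hp'
      · exact Or.inr hc)
    ⟨x, mem_connectedComponentIn hx, z, hz, ez⟩
  have hy' := mem_connectedComponentIn (mem_compl hy)
  rw [← ey, ← he, ex] at hy'
  obtain ⟨v, hv, ev⟩ := hW hy'
  exact zero_ne_one ((h1 w ((le_abs_self _).trans hw.le)).2 0 v (A.sub 0 (a0 v (le_of_lt hv)))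
    (ev.trans ew.symm))

theorem Atlas.final (A : Atlas) : Final := by
  obtain ⟨cs, mf, h⟩ := A.manifold
  exact ⟨A.S, inferInstance, cs, mf, inferInstance, A.connectedSpace, Subtype.val, A.isMinimal h,
    Topology.IsEmbedding.subtypeVal, fun K hK => A.isCompact_preimage hK, A.twoEnds,
    A.exists_super h Subtype.range_coe⟩

end Pool.Agent.MP_943ae2_gt
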