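import Pool.Agent.MP_943ae2_gt.Sup1
import Pool.Agent.MP_943ae2_gt.Emb2
import Pool.Agent.MP_943ae2_gt.Glue3

open Set Complex Filter
open scoped Topology ComplexConjugate ContDiff

noncomputable section

namespace Pool.Agent.MP_943ae2_gt

variable {ι : Type} {F : Frm ι} {d : Dat ι} {C : ℕ → ℝ}

theorem asm_bet_lt (h : F.Adm d) (e : ι × Bool) : ‖d.bet e‖ < F.R e := by
  have h1 : 1 < (F.t e.1)⁻¹ := one_lt_inv₀ (h.t_pos _) |>.2 (by linarith [h.t_small e.1])
  exact (h.bet_le e).trans_lt (lt_self_pow₀ h1 (by norm_num))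

theorem asm_uniq (h : F.Adm d) {e μ : ι × Bool} (hl : F.lay μ = F.lay e) {z : ℂ}
    (h1 : ‖z - d.pos e‖ < F.R e) (h2 : ‖z - d.pos μ‖ < F.R μ) : μ = e := by
  by_contra hne
  have hm : μ ∈ F.oth e := mem_oth.2 ⟨hne, hl⟩
  have k1 := h.sep e μ hm
  have k2 := h.sep' hm
  have k3 : ‖d.pos e - d.pos μ‖ ≤ ‖z - d.pos μ‖ + ‖z - d.pos e‖ := by
    rw [show d.pos e - d.pos μ = (z - d.pos μ) - (z - d.pos e) by ring]
    exact norm_sub_le _ _
  linarith [h.R_pos e, h.R_pos μ]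

theorem asm_lay_ne (e : ι × Bool) : F.lay (opp e) ≠ F.lay e := by
  rcases e with ⟨ν, _ | _⟩ <;> simp

theorem asm_inv (h : F.Adm d) (e : ι × Bool) {v : ℂ} (h1 : ‖d.bet e‖ ^ 2 / F.R e < ‖v‖)
    (h2 : ‖v‖ < F.R e) : 0 < ‖v‖ ∧ ‖d.bet e‖ ^ 2 / F.R e < ‖d.bet e‖ ^ 2 / ‖v‖ ∧
      ‖d.bet e‖ ^ 2 / ‖v‖ < F.R e := by
  have hb := h.bet_pos e
  have hR := h.R_pos e
  have hv : 0 < ‖v‖ := lt_trans (by positivity) h1
  refine ⟨hv, div_lt_div_of_pos_left (by positivity) hv h2, ?_⟩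
  rw [div_lt_iff₀ hR] at h1
  rw [div_lt_iff₀ hv]; linarith

theorem asm_par_mem (h : F.Adm d) (e : ι × Bool) {v : ℂ} (h1 : ‖d.bet e‖ ^ 2 / F.R e < ‖v‖)
    (h2 : ‖v‖ < F.R e) : d.par e v ∈ F.U d (F.lay (opp e)) := by
  obtain ⟨_, k1, k2⟩ := asm_inv h e h1 h2
  refine h.mem_U (opp e) ?_ ?_
  · simpa using k1
  · have := h.R_pos e
    simp only [RCLike.norm_conj, norm_div, norm_pow, R_opp]; linarith

/-- the smooth minimum of the two potentials across the neck of `e` -/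
def asmS (F : Frm ι) (d : Dat ι) (φ : ℕ → ℂ → ℝ) (δ : ι → ℝ) (e : ι × Bool) (z : ℂ) : ℝ :=
  if e.2 then smin (δ e.1) (φ (F.lay (opp e)) (d.par e (z - d.pos e))) (φ (F.lay e) z)
  else smin (δ e.1) (φ (F.lay e) z) (φ (F.lay (opp e)) (d.par e (z - d.pos e)))

open Classical in
/-- the superharmonic function on layer `k` -/
def asmU (F : Frm ι) (d : Dat ι) (φ : ℕ → ℂ → ℝ) (δ : ι → ℝ) (k : ℕ) (z : ℂ) : ℝ :=
  if h : ∃ e, F.lay e = k ∧ ‖z - d.pos e‖ < F.R e then asmS F d φ δ h.choose z else φ k z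

variable {φ : ℕ → ℂ → ℝ} {δ : ι → ℝ}

theorem asm_in (h : F.Adm d) (e : ι × Bool) {z : ℂ} (hz : ‖z - d.pos e‖ < F.R e) :
    asmU F d φ δ (F.lay e) z = asmS F d φ δ e z := by
  have hx : ∃ μ, F.lay μ = F.lay e ∧ ‖z - d.pos μ‖ < F.R μ := ⟨e, rfl, hz⟩
  rw [asmU, dif_pos hx, asm_uniq h hx.choose_spec.1 hz hx.choose_spec.2]

theorem asm_out (h : F.Adm d) (hp : F.Pots d φ δ) {k : ℕ} {z : ℂ}
    (hz : ∀ e ∈ F.sides k, F.R e / 4 ≤ ‖z - d.pos e‖) : asmU F d φ δ k z = φ k z := by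
  by_cases hx : ∃ μ, F.lay μ = k ∧ ‖z - d.pos μ‖ < F.R μ
  · obtain ⟨e, rfl, he⟩ := hx
    have h1 := hp.cmp e _ (hz e (self_mem_sides e)) he.le
    rw [add_sub_cancel] at h1
    rw [asm_in h e he, asmS]
    split_ifs
    · exact smin_right (hp.δ_pos _) h1
    · exact smin_left (hp.δ_pos _) h1
  · rw [asmU, dif_neg hx]

theorem asm_cases (F : Frm ι) (d : Dat ι) (k : ℕ) (z : ℂ) :
    (∃ e, F.lay e = k ∧ ‖z - d.pos e‖ < F.R e) ∨ ∀ e ∈ F.sides k, F.R e ≤ ‖z - d.pos e‖ := by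
  by_contra hc
  push Not at hc
  obtain ⟨h1, e, he, h2⟩ := hc
  exact absurd (h1 e (mem_sides_iff.1 he)) (not_le.2 h2)

theorem asm_sup (h : F.Adm d) (hp : F.Pots d φ δ) (k : ℕ) : SupOn (asmU F d φ δ k) (F.U d k) := by
  intro z hz
  have hf : SupOn (φ k) {z} := fun y hy => hp.sup k y (by rw [hy]; exact hz)
  rcases asm_cases F d k z with ⟨e, rfl, he⟩ | ho
  · obtain ⟨k0, k1, k2⟩ := asm_inv h e (hz e (self_mem_sides e)) he
    have hb := h.bet_pos e
    have hR := h.R_pos e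
    have hG : AnalyticAt ℂ (fun y => conj (d.pos (opp e)) + d.bet e ^ 2 / (y - d.pos e)) z :=
      analyticAt_const.add (analyticAt_const.div (analyticAt_id.sub analyticAt_const)
        (norm_pos_iff.1 k0))
    have hc : ∀ y, conj (conj (d.pos (opp e)) + d.bet e ^ 2 / (y - d.pos e)) =
        d.par e (y - d.pos e) := fun y => by rw [map_add, conj_conj, Dat.par]
    have hg := supOn_of_harm (harm_comp_conj (f := φ (F.lay (opp e))) hG (by
      rw [hc]
      refine hp.harm (opp e) _ ?_ ?_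
      · rw [norm_par_sub]; positivity
      · rw [norm_par_sub, R_opp]; linarith))
    simp only [hc] at hg
    have hS : SupOn (asmS F d φ δ e) {z} := by
      unfold asmS
      split_ifs
      · exact smin_sup (hp.δ_pos _) hg hf
      · exact smin_sup (hp.δ_pos _) hf hg
    refine supOn_congr hS ?_ z rfl
    have ho : IsOpen {y : ℂ | ‖y - d.pos e‖ < F.R e} := isOpen_lt (by fun_prop) continuous_const
    filter_upwards [ho.mem_nhds he] with y hy using asm_in h e hy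
  · refine supOn_congr hf ?_ z rfl
    have h1 : ∀ᶠ y in 𝓝 z, ∀ e ∈ F.sides k, F.R e / 4 < ‖y - d.pos e‖ := by
      rw [Filter.eventually_all_finset]
      intro e he
      have ho' : IsOpen {y : ℂ | F.R e / 4 < ‖y - d.pos e‖} :=
        isOpen_lt continuous_const (by fun_prop)
      refine ho'.mem_nhds ?_
      have := ho e he
      have := h.R_pos e
      change F.R e / 4 < ‖z - d.pos e‖
      linarith
    filter_upwards [h1] with y hy using asm_out h hp fun e he => (hy e he).le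

theorem asm_quarter (h : F.Adm d) {k : ℕ} {z : ℂ} (ho : ∀ e ∈ F.sides k, F.R e ≤ ‖z - d.pos e‖) :
    ∀ e ∈ F.sides k, F.R e / 4 ≤ ‖z - d.pos e‖ := fun e he => by
  linarith [ho e he, h.R_pos e]

theorem asm_Ub (h : F.Adm d) {k : ℕ} {z : ℂ} (ho : ∀ e ∈ F.sides k, F.R e ≤ ‖z - d.pos e‖) :
    z ∈ F.Ub d k := fun e he => (asm_bet_lt h e).le.trans (ho e he)

theorem asm_pos (h : F.Adm d) (hp : F.Pots d φ δ) (k : ℕ) {z : ℂ} (hz : z ∈ F.U d k) :
    0 < asmU F d φ δ k z := by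
  have h1 := hp.low k z hz
  rcases asm_cases F d k z with ⟨e, rfl, he⟩ | ho
  · have h2 := hp.low _ _ (asm_par_mem h e (hz e (self_mem_sides e)) he)
    have h3 := hp.δ_le e.1
    rw [asm_in h e he, asmS]
    split_ifs
    · linarith [smin_ge (a := φ (F.lay (opp e)) (d.par e (z - d.pos e))) (b := φ (F.lay e) z)
        (hp.δ_pos e.1), le_min h2 h1]
    · linarith [smin_ge (b := φ (F.lay (opp e)) (d.par e (z - d.pos e))) (a := φ (F.lay e) z)
        (hp.δ_pos e.1), le_min h1 h2]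
  · rw [asm_out h hp (asm_quarter h ho)]; linarith

theorem asm_rel (h : F.Adm d) {k k' : ℕ} {z z' : ℂ} (hr : F.Rel d k z k' z') :
    asmU F d φ δ k z = asmU F d φ δ k' z' := by
  obtain ⟨e, v, rfl, rfl, h1, h2, rfl, rfl⟩ := hr
  obtain ⟨_, _, k2⟩ := asm_inv h e h1 h2
  rw [asm_in h e (by rwa [add_sub_cancel_left]), asm_in h (opp e) (by rwa [norm_par_sub, R_opp])]
  have h3 : d.par (opp e) (d.par e v - d.pos (opp e)) = d.pos e + v := by
    rw [← par_par (h.bet_ne e) v, Dat.par, Dat.par, Dat.par, add_sub_cancel_left]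
  unfold asmS
  rw [h3, add_sub_cancel_left, opp_opp, opp_fst]
  rcases e with ⟨ν, _ | _⟩ <;> simp [opp]

theorem Frm.Adm.exists_u (h : F.Adm d) {φ : ℕ → ℂ → ℝ} {δ : ι → ℝ} (hp : F.Pots d φ δ) :
    ∃ u : ℕ → ℂ → ℝ, (∀ k, SupOn (u k) (F.U d k)) ∧ (∀ k, ∀ z ∈ F.U d k, 0 < u k z) ∧
      (∀ k z k' z', F.Rel d k z k' z' → u k z = u k' z') ∧
      ∃ k, ∃ z ∈ F.U d k, ∃ z' ∈ F.U d k, u k z ≠ u k z' := by
  refine ⟨asmU F d φ δ, asm_sup h hp, fun k z hz => asm_pos h hp k hz,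
    fun k z k' z' hr => asm_rel h hr, ?_⟩
  obtain ⟨k, z, z', h1, h2⟩ := hp.nc
  refine ⟨k, z, h.Ub_sub k (asm_Ub h fun e he => (h1 e he).1), z',
    h.Ub_sub k (asm_Ub h fun e he => (h1 e he).2), ?_⟩
  rwa [asm_out h hp (asm_quarter h fun e he => (h1 e he).1),
    asm_out h hp (asm_quarter h fun e he => (h1 e he).2)]

theorem Frm.Adm.conn (h : F.Adm d) (k : ℕ) : IsPreconnected (F.Ub d k) := by
  let P : ℂ → ℂ := fun z => z + ∑ e ∈ F.sides k,
    ((max ‖z - d.pos e‖ ‖d.bet e‖ / ‖z - d.pos e‖ - 1 : ℝ) : ℂ) * (z - d.pos e)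
  have hs : (d.pos '' (F.sides k : Set (ι × Bool))).Countable :=
    ((F.sides k).finite_toSet.image _).countable
  have hc := (hs.isPathConnected_compl_of_one_lt_rank
    (by rw [Complex.rank_real_complex]; norm_num)).isConnected.isPreconnected
  have hne : ∀ z ∈ (d.pos '' (F.sides k : Set (ι × Bool)))ᶜ, ∀ e ∈ F.sides k,
      ‖z - d.pos e‖ ≠ 0 := fun z hz e he h0 => hz ⟨e, he, (sub_eq_zero.1 (norm_eq_zero.1 h0)).symm⟩
  have hP : ContinuousOn P (d.pos '' (F.sides k : Set (ι × Bool)))ᶜ := by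
    refine continuousOn_id.add (continuousOn_finsetSum _ fun e he => ?_)
    refine ContinuousOn.mul (continuous_ofReal.comp_continuousOn ?_) (by fun_prop)
    exact (ContinuousOn.div (by fun_prop) (by fun_prop) fun z hz => hne z hz e he).sub
      continuousOn_const
  have h0 : ∀ (z : ℂ) e, ‖d.bet e‖ ≤ ‖z - d.pos e‖ →
      ((max ‖z - d.pos e‖ ‖d.bet e‖ / ‖z - d.pos e‖ - 1 : ℝ) : ℂ) * (z - d.pos e) = 0 :=
    fun z e he => by
      rw [max_eq_left he, div_self ((h.bet_pos e).trans_le he).ne', sub_self]; simp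
  have hid : ∀ z ∈ F.Ub d k, P z = z := fun z hz => by
    simp only [P]
    rw [Finset.sum_eq_zero fun e he => h0 z e (hz e he), add_zero]
  have himg : P '' (d.pos '' (F.sides k : Set (ι × Bool)))ᶜ = F.Ub d k := by
    refine Subset.antisymm ?_ fun z hz => ⟨z, ?_, hid z hz⟩
    · rintro _ ⟨z, hz, rfl⟩
      by_cases hu : z ∈ F.Ub d k
      · rwa [hid z hu]
      · simp only [Frm.Ub, mem_ofPred_eq, not_forall, not_le] at hu
        obtain ⟨e, he, hlt⟩ := hu
        obtain rfl := mem_sides_iff.1 he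
        have hz0 := hne z hz e he
        have h1 : P z = d.pos e + ((‖d.bet e‖ / ‖z - d.pos e‖ : ℝ) : ℂ) * (z - d.pos e) := by
          simp only [P]
          rw [sum_sides_split, Finset.sum_eq_zero fun μ hμ => h0 z μ ?_, max_eq_right hlt.le]
          · push_cast; ring
          · by_contra hc'
            exact (mem_oth.1 hμ).1 (asm_uniq h (mem_oth.1 hμ).2 (hlt.trans (asm_bet_lt h e))
              ((not_le.1 hc').trans (asm_bet_lt h μ)))
        have h2 : ‖((‖d.bet e‖ / ‖z - d.pos e‖ : ℝ) : ℂ) * (z - d.pos e)‖ = ‖d.bet e‖ := by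
          rw [norm_mul, Complex.norm_real, Real.norm_of_nonneg (by positivity),
            div_mul_cancel₀ _ hz0]
        rw [h1]
        exact h.mem_Ub e h2.ge (by linarith [asm_bet_lt h e, h.R_pos e])
    · rintro ⟨e, he, rfl⟩
      have := hz e he
      rw [sub_self, norm_zero] at this
      exact absurd (h.bet_pos e) (not_lt.2 this)
  rw [← himg]
  exact hc.image P hP

theorem asm_X (h : F.Adm d) (hs : F.Sol d C) {k k' : ℕ} {z z' : ℂ} (hr : F.Rel d k z k' z') :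
    F.X d C k z = F.X d C k' z' := by
  obtain ⟨e, v, rfl, rfl, h1, h2, rfl, rfl⟩ := hr
  exact h.matching hs e h1 h2

theorem Frm.Adm.final (h : F.Adm d) (hs : F.Sol d C) (ho : F.Ord d C) {φ : ℕ → ℂ → ℝ} {δ : ι → ℝ}
    (hp : F.Pots d φ δ) : Final := by
  obtain ⟨u, u1, u2, u3, u4⟩ := h.exists_u hp
  refine Atlas.final
    { U := F.U d, Ub := F.Ub d, X := F.X d C, a := F.a d, b := F.b d, u := u
      opn := isOpen_U, cls := isClosed_Ub, sub := h.Ub_sub
      hol_a := fun k => (h.hol_a k).mono (h.U_sub k)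
      hol_b := fun k => (h.hol_b k).mono (h.U_sub k)
      a_ne := fun k z hz h0 => ?_
      wei := fun k z hz => h.wei hs hz
      cover := fun k z hz => ?_
      inj := fun k z hz z' hz' he => ?_
      rel := fun k k' z hz z' hz' he => ?_
      proper := h.proper hs ho
      conn := h.conn
      link := fun k => ?_
      far := fun k => ?_
      u_sup := u1, u_pos := u2
      u_rel := fun k k' z hz z' hz' he => ?_
      u_nc := u4 }
  · have h1 := h.a_near (h.U_sub k hz)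
    have h2 : F.T k ^ 11 < 1 :=
      pow_lt_one₀ (h.T_pos k).le (by linarith [h.T_le k]) (by norm_num)
    rw [h0, zero_sub, norm_neg, norm_one] at h1
    linarith
  · rcases h.cover hs hz with h1 | ⟨k', z', h1, h2⟩
    · exact ⟨k, z, h1, rfl⟩
    · exact ⟨k', z', h1, (asm_X h hs h2).symm⟩
  · rcases h.inj hs ho hz hz' he with h1 | ⟨e, v, h1, h2, _⟩
    · exact h1.2
    · exact absurd (h2.trans h1.symm) (asm_lay_ne e)
  · rcases h.inj hs ho hz hz' he with ⟨rfl, rfl⟩ | ⟨e, v, rfl, rfl, h1, h2, rfl, rfl⟩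
    · exact ⟨id, contDiffAt_id, rfl, Eventually.of_forall fun _ => rfl⟩
    · obtain ⟨k0, _, _⟩ := asm_inv h e h1 h2
      refine ⟨fun y => d.par e (y - d.pos e), ?_, by simp, ?_⟩
      · unfold Dat.par
        refine contDiffAt_const.add (Complex.conjCLE.contDiff.contDiffAt.comp _
          (f := fun y => d.bet e ^ 2 / (y - d.pos e)) ?_)
        refine ContDiffAt.restrict_scalars ℝ (𝕜' := ℂ) ?_
        exact contDiffAt_const.div (contDiffAt_id.sub contDiffAt_const)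
          (by rw [add_sub_cancel_left]; exact norm_pos_iff.1 k0)
      · have o1 : IsOpen {y : ℂ | ‖y - d.pos e‖ < F.R e} := isOpen_lt (by fun_prop) continuous_const
        have o2 : IsOpen {y : ℂ | ‖d.bet e‖ ^ 2 / F.R e < ‖y - d.pos e‖} :=
          isOpen_lt continuous_const (by fun_prop)
        filter_upwards [o1.mem_nhds (by simpa using h2), o2.mem_nhds (by simpa using h1)]
          with y y1 y2
        rw [← h.matching hs e y2 y1, add_sub_cancel]
  · obtain ⟨ν, rfl⟩ := h.ne k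
    have hb := h.bet_pos (ν, false)
    have hR := asm_bet_lt h (ν, false)
    have hn : ‖((‖d.bet (ν, false)‖ : ℝ) : ℂ)‖ = ‖d.bet (ν, false)‖ := by
      rw [Complex.norm_real, norm_norm]
    have hn' : ‖conj (d.bet (ν, false) ^ 2 / ((‖d.bet (ν, false)‖ : ℝ) : ℂ))‖ =
        ‖d.bet (ν, false)‖ := by
      rw [RCLike.norm_conj, norm_div, norm_pow, hn]; field_simp
    have m1 := h.mem_Ub (ν, false) hn.ge (by linarith)
    have m2 := h.mem_Ub (opp (ν, false)) (v := conj (d.bet (ν, false) ^ 2 /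
      ((‖d.bet (ν, false)‖ : ℝ) : ℂ))) (by rw [hn', norm_bet_opp]) (by rw [hn', R_opp]; linarith)
    have m3 := h.matching hs (ν, false) (v := ((‖d.bet (ν, false)‖ : ℝ) : ℂ)) (by
      rw [hn, div_lt_iff₀ (hb.trans hR), sq]; exact mul_lt_mul_of_pos_left hR hb) (by rwa [hn])
    rw [lay_false] at m1
    rw [opp_false, lay_true] at m2
    rw [lay_false, opp_false, lay_true] at m3
    exact ⟨_, m1, _, m2, m3⟩
  · refine ⟨∑ e ∈ F.sides k, (‖d.pos e‖ + F.R e), fun z hz => ?_⟩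
    have h1 : ∀ e ∈ F.sides k, F.R e ≤ ‖z - d.pos e‖ := fun e he => by
      have k1 := Finset.single_le_sum (f := fun e => ‖d.pos e‖ + F.R e)
        (fun μ _ => add_nonneg (norm_nonneg _) (h.R_pos μ).le) he
      have k2 := norm_sub_norm_le z (d.pos e)
      linarith
    refine ⟨asm_Ub h h1, fun k' z' hz' he => ?_⟩
    rcases h.inj hs ho (h.Ub_sub k (asm_Ub h h1)) hz' he.symm with
      h2 | ⟨e, v, rfl, rfl, _, h2, rfl, rfl⟩
    · exact h2.1.symm
    · have := h1 e (self_mem_sides e)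
      rw [add_sub_cancel_left] at this
      exact absurd h2 (not_lt.2 this)
  · rcases h.inj hs ho hz hz' he with ⟨rfl, rfl⟩ | h1
    · rfl
    · exact u3 _ _ _ _ h1

end Pool.Agent.MP_943ae2_gt
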