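import Pool.Agent.MP_943ae2_gt.Cfg

/-! Elementary facts about sides. -/

open Set Complex Filter
open scoped Topology ComplexConjugate ContDiff

noncomputable section

namespace Pool.Agent.MP_943ae2_gt

variable {ι : Type} {F : Frm ι} {d : Dat ι}

@[simp] lemma opp_opp (e : ι × Bool) : opp (opp e) = e := by simp [opp]
@[simp] lemma opp_fst (e : ι × Bool) : (opp e).1 = e.1 := rfl
@[simp] lemma opp_false (ν : ι) : opp (ν, false) = (ν, true) := rfl
@[simp] lemma opp_true (ν : ι) : opp (ν, true) = (ν, false) := rfl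
@[simp] lemma R_opp (e : ι × Bool) : F.R (opp e) = F.R e := rfl
@[simp] lemma Rs_opp (e : ι × Bool) : F.Rs (opp e) = F.Rs e := rfl
@[simp] lemma lay_false (ν : ι) : F.lay (ν, false) = F.gap ν := by simp [Frm.lay]
@[simp] lemma lay_true (ν : ι) : F.lay (ν, true) = F.gap ν + 1 := by simp [Frm.lay]
@[simp] lemma bet_false (ν : ι) : d.bet (ν, false) = d.2 ν := by simp [Dat.bet]
@[simp] lemma bet_true (ν : ι) : d.bet (ν, true) = -conj (d.2 ν) := by simp [Dat.bet]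

lemma bet_opp (e : ι × Bool) : d.bet (opp e) = -conj (d.bet e) := by
  rcases e with ⟨ν, _ | _⟩ <;> simp

@[simp] lemma norm_bet_opp (e : ι × Bool) : ‖d.bet (opp e)‖ = ‖d.bet e‖ := by simp [bet_opp]

lemma norm_bet (e : ι × Bool) : ‖d.bet e‖ = ‖d.2 e.1‖ := by rcases e with ⟨ν, _ | _⟩ <;> simp

lemma mem_sides_iff {k : ℕ} {e : ι × Bool} : e ∈ F.sides k ↔ F.lay e = k := F.mem_sides k e

lemma self_mem_sides (e : ι × Bool) : e ∈ F.sides (F.lay e) := mem_sides_iff.2 rfl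

lemma mem_oth {e μ : ι × Bool} : μ ∈ F.oth e ↔ μ ≠ e ∧ F.lay μ = F.lay e := by
  classical
  simp [Frm.oth, mem_sides_iff]

lemma oth_symm {e μ : ι × Bool} (h : μ ∈ F.oth e) : e ∈ F.oth μ :=
  mem_oth.2 ⟨(mem_oth.1 h).1.symm, (mem_oth.1 h).2.symm⟩

lemma sum_sides_split {M : Type} [AddCommMonoid M] (e : ι × Bool) (f : ι × Bool → M) :
    ∑ μ ∈ F.sides (F.lay e), f μ = f e + ∑ μ ∈ F.oth e, f μ := by
  classical
  unfold Frm.oth
  convert (Finset.add_sum_erase _ f (self_mem_sides e)).symm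

lemma norm_par_sub (e : ι × Bool) (v : ℂ) : ‖d.par e v - d.pos (opp e)‖ = ‖d.bet e‖ ^ 2 / ‖v‖ := by
  simp [Dat.par]

lemma par_par {e : ι × Bool} (hb : d.bet e ≠ 0) (v : ℂ) :
    d.par (opp e) (conj (d.bet e ^ 2 / v)) = d.pos e + v := by
  simp only [Dat.par, opp_opp, bet_opp, neg_sq, map_div₀, map_pow, conj_conj]
  rcases eq_or_ne v 0 with rfl | hv
  · simp
  · field_simp

namespace Frm.Adm

variable (h : F.Adm d)
include h

lemma t_small (ν : ι) : F.t ν ≤ 1 / 1000 := (h.t_le (ν, false)).trans (h.T_le _)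

lemma bet_pos (e : ι × Bool) : 0 < ‖d.bet e‖ := (h.t_pos _).trans_le (h.b_ge e)

lemma bet_ne (e : ι × Bool) : d.bet e ≠ 0 := norm_pos_iff.1 (h.bet_pos e)

lemma bet_le (e : ι × Bool) : ‖d.bet e‖ ≤ (F.t e.1)⁻¹ :=
  (h.b_le e).trans (inv_anti₀ (h.t_pos _) (h.t_le e))

lemma R_pos (e : ι × Bool) : 0 < F.R e := pow_pos (inv_pos.2 (h.t_pos _)) _

lemma Rs_pos (e : ι × Bool) : 0 < F.Rs e := pow_pos (inv_pos.2 (h.t_pos _)) _

lemma sr_pos (e : ι × Bool) : 0 < F.sr d e := by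
  have := h.bet_pos e; have := h.R_pos e; unfold Frm.sr; positivity

lemma sep' {e μ : ι × Bool} (hμ : μ ∈ F.oth e) : 8 * F.R μ ≤ ‖d.pos e - d.pos μ‖ := by
  rw [norm_sub_rev]; exact h.sep μ e (oth_symm hμ)

end Frm.Adm

end Pool.Agent.MP_943ae2_gt
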