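import Pool.Agent.MP_943ae2_gt.Glue0

/-! Planes (layers `k = 0, 1, ...`) joined by catenoidal necks: the abstract configuration, the
spinors, their residues and primitives, the parametrisations. A neck `ν` joins the layers `gap ν`
and `gap ν + 1`; a side is a pair `(ν, false)` (lower layer) or `(ν, true)` (upper layer). -/

open Set Complex Filter
open scoped Topology ComplexConjugate ContDiff

noncomputable section

namespace Pool.Agent.MP_943ae2_gt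

/-- the fixed combinatorial data and the scales -/
structure Frm (ι : Type) where
  gap : ι → ℕ
  t : ι → ℝ
  T : ℕ → ℝ
  sides : ℕ → Finset (ι × Bool)
  mem_sides : ∀ k e, e ∈ sides k ↔ gap e.1 + (if e.2 then 1 else 0) = k

/-- the continuous data: positions of the sides, neck parameters -/
abbrev Dat (ι : Type) := (ι × Bool → ℂ) × (ι → ℂ)

abbrev Spin (ι : Type) := (ι × Bool → ℂ → ℂ) × (ι × Bool → ℂ → ℂ)

variable {ι : Type}

def opp (e : ι × Bool) : ι × Bool := (e.1, !e.2)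

def tl (f : ℂ → ℂ) (x : ℂ) : ℂ := conj (f (conj x))

def Dat.pos (d : Dat ι) (e : ι × Bool) : ℂ := d.1 e

def Dat.bet (d : Dat ι) (e : ι × Bool) : ℂ := if e.2 then -conj (d.2 e.1) else d.2 e.1

/-- the point of the other layer that corresponds to `pos e + v` -/
def Dat.par (d : Dat ι) (e : ι × Bool) (v : ℂ) : ℂ := d.pos (opp e) + conj (d.bet e ^ 2 / v)

def Dat.tA (d : Dat ι) (S : Spin ι) (μ : ι × Bool) (z : ℂ) : ℂ :=
  d.bet μ / (z - d.pos μ) * tl (S.2 (opp μ)) (d.bet μ ^ 2 / (z - d.pos μ))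

def Dat.tB (d : Dat ι) (S : Spin ι) (μ : ι × Bool) (z : ℂ) : ℂ :=
  -(d.bet μ / (z - d.pos μ) * tl (S.1 (opp μ)) (d.bet μ ^ 2 / (z - d.pos μ)))

namespace Frm

variable (F : Frm ι)

def lay (e : ι × Bool) : ℕ := F.gap e.1 + (if e.2 then 1 else 0)

open Classical in
/-- the other sides on the layer of `e` -/
def oth (e : ι × Bool) : Finset (ι × Bool) := (F.sides (F.lay e)).erase e

/-- the large radius -/
def R (e : ι × Bool) : ℝ := (F.t e.1)⁻¹ ^ 16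

/-- the truncation radius -/
def Rs (e : ι × Bool) : ℝ := (F.t e.1)⁻¹ ^ 12

structure Adm (d : Dat ι) : Prop where
  t_pos : ∀ ν, 0 < F.t ν
  T_le : ∀ k, F.T k ≤ 1 / 1000
  T_pos : ∀ k, 0 < F.T k
  T_anti : Antitone F.T
  t_le : ∀ e, F.t e.1 ≤ F.T (F.lay e)
  t_ge : ∀ e, Real.exp (-(F.T (F.lay e))⁻¹) ≤ F.t e.1
  card : ∀ k, ((F.sides k).card : ℝ) ≤ (F.T k)⁻¹
  b_ge : ∀ e, F.t e.1 ≤ ‖d.bet e‖
  b_le : ∀ e, ‖d.bet e‖ ≤ (F.T (F.lay e))⁻¹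
  b_real : ∀ ν, ‖d.2 ν - ‖d.2 ν‖‖ ≤ F.t ν ^ 20
  pos_le : ∀ e, ‖d.pos e‖ ≤ Real.exp (F.T (F.lay e))⁻¹
  pq : ∀ e, ‖d.pos e - d.pos (opp e)‖ ≤ (F.t e.1)⁻¹ ^ 3
  sep : ∀ e, ∀ μ ∈ F.oth e, 8 * F.R e ≤ ‖d.pos e - d.pos μ‖
  lam : ∀ e, ∑ μ ∈ F.oth e, ‖d.bet μ‖ / ‖d.pos e - d.pos μ‖ ≤ F.t e.1 ^ 30
  ne : ∀ k, ∃ ν, F.gap ν = k

variable (d : Dat ι)

def step (S : Spin ι) : Spin ι :=
  (fun e v => 1 + ∑ μ ∈ F.oth e, d.tA S μ (d.pos e + v),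
    fun e v => ∑ μ ∈ F.oth e, d.tB S μ (d.pos e + v))

def iter (n : ℕ) : Spin ι := (F.step d)^[n] (fun _ _ => 1, fun _ _ => 0)

/-- the regular parts of the two spinors at the sides -/
def spin : Spin ι :=
  (fun e v => limUnder atTop fun n => (F.iter d n).1 e v,
    fun e v => limUnder atTop fun n => (F.iter d n).2 e v)

def a (k : ℕ) (z : ℂ) : ℂ := 1 + ∑ μ ∈ F.sides k, d.tA (F.spin d) μ z

def b (k : ℕ) (z : ℂ) : ℂ := ∑ μ ∈ F.sides k, d.tB (F.spin d) μ z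

/-- where the spinors are holomorphic -/
def Big (k : ℕ) : Set ℂ := {z | ∀ e ∈ F.sides k, ‖d.bet e‖ ^ 2 / (4 * F.R e) < ‖z - d.pos e‖}

def U (k : ℕ) : Set ℂ := {z | ∀ e ∈ F.sides k, ‖d.bet e‖ ^ 2 / F.R e < ‖z - d.pos e‖}

def Ub (k : ℕ) : Set ℂ := {z | ∀ e ∈ F.sides k, ‖d.bet e‖ ≤ ‖z - d.pos e‖}

def Far (k : ℕ) : Set ℂ := {z | ∀ e ∈ F.sides k, F.Rs e ≤ ‖z - d.pos e‖}

/-- radius of the contour -/
def sr (e : ι × Bool) : ℝ := ‖d.bet e‖ ^ 2 / (2 * F.R e)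

def res (f : ℂ → ℂ) (e : ι × Bool) : ℂ :=
  (2 * Real.pi * I)⁻¹ * ∮ ζ in C(d.pos e, F.sr d e), f ζ

/-- primitive of the principal part without its residue term -/
def prim (f : ℂ → ℂ) (e : ι × Bool) (z : ℂ) : ℂ :=
  (2 * Real.pi * I)⁻¹ *
    ∮ ζ in C(d.pos e, F.sr d e), f ζ * Complex.log (1 - (ζ - d.pos e) / (z - d.pos e))

def aa (k : ℕ) (z : ℂ) : ℂ := F.a d k z ^ 2
def ab (k : ℕ) (z : ℂ) : ℂ := F.a d k z * F.b d k z
def bb (k : ℕ) (z : ℂ) : ℂ := F.b d k z ^ 2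

def ra (e : ι × Bool) : ℂ := F.res d (F.aa d (F.lay e)) e
def rab (e : ι × Bool) : ℂ := F.res d (F.ab d (F.lay e)) e
def rb (e : ι × Bool) : ℂ := F.res d (F.bb d (F.lay e)) e

/-- horizontal part of the parametrisation of layer `k` -/
def H (k : ℕ) (z : ℂ) : ℂ :=
  z + ∑ e ∈ F.sides k, (F.prim d (F.aa d k) e z - conj (F.prim d (F.bb d k) e z) +
    2 * F.ra d e * (Real.log ‖z - d.pos e‖ : ℝ))

/-- half the height, up to a constant -/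
def h0 (k : ℕ) (z : ℂ) : ℝ :=
  ∑ e ∈ F.sides k, ((F.prim d (F.ab d k) e z).re + (F.rab d e).re * Real.log ‖z - d.pos e‖)

def X (C : ℕ → ℝ) (k : ℕ) (z : ℂ) : E3 := mk3 (F.H d k z) (2 * (C k + F.h0 d k z))

def Jh (e : ι × Bool) : ℂ := Real.circleAverage (F.H d (F.lay e)) (d.pos e) ‖d.bet e‖

def J3 (e : ι × Bool) : ℝ := Real.circleAverage (F.h0 d (F.lay e)) (d.pos e) ‖d.bet e‖

/-- the period problem is solved -/
structure Sol (C : ℕ → ℝ) : Prop where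
  hor : ∀ ν, conj (F.ra d (ν, false)) + F.rb d (ν, false) = 0
  ver : ∀ ν, (F.rab d (ν, false)).im = 0
  bh : ∀ ν, F.Jh d (ν, false) = F.Jh d (ν, true)
  b3 : ∀ ν, C (F.gap ν + 1) - C (F.gap ν) = F.J3 d (ν, false) - F.J3 d (ν, true)
  sum_ra : ∀ k, ∑ e ∈ F.sides k, F.ra d e = 0

/-- the truncated model of half the height of layer `k` -/
def Ut (C : ℕ → ℝ) (k : ℕ) (z : ℂ) : ℝ :=
  C k + ∑ e ∈ F.sides k, (F.rab d e).re * Real.log (max ‖z - d.pos e‖ (F.Rs e))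

/-- the layers are ordered and go to infinity -/
structure Ord (C : ℕ → ℝ) : Prop where
  gap : ∀ k z, F.Ut d C k z + F.T (k - 1) ^ 5 ≤ F.Ut d C (k + 1) z
  up : ∀ r A : ℝ, ∃ K : ℕ, ∀ k, K ≤ k → ∀ z, ‖z‖ ≤ r → A ≤ F.Ut d C k z

/-- potentials on the layers -/
structure Pots (φ : ℕ → ℂ → ℝ) (δ : ι → ℝ) : Prop where
  δ_pos : ∀ ν, 0 < δ ν
  δ_le : ∀ ν, δ ν ≤ 1
  sup : ∀ k, SupOn (φ k) (F.U d k)
  harm : ∀ e z, 0 < ‖z - d.pos e‖ → ‖z - d.pos e‖ < 2 * F.R e →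
    InnerProductSpace.HarmonicAt (φ (F.lay e)) z
  low : ∀ k, ∀ z ∈ F.U d k, 2 ≤ φ k z
  cmp : ∀ e v, F.R e / 4 ≤ ‖v‖ → ‖v‖ ≤ F.R e →
    φ (F.lay e) (d.pos e + v) + δ e.1 ≤ φ (F.lay (opp e)) (d.par e v)
  nc : ∃ k z z', (∀ e ∈ F.sides k, F.R e ≤ ‖z - d.pos e‖ ∧ F.R e ≤ ‖z' - d.pos e‖) ∧
    φ k z ≠ φ k z'

/-- a symmetry of the combinatorial data -/
structure Perm (π : ι ≃ ι) : Prop where
  gap : ∀ ν, F.gap (π ν) = F.gap ν
  t : ∀ ν, F.t (π ν) = F.t ν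

end Frm

def sd (π : ι ≃ ι) (e : ι × Bool) : ι × Bool := (π e.1, e.2)

/-- the configuration is invariant under the rotation by `u` -/
structure Dat.Rot (d : Dat ι) (π : ι ≃ ι) (u : ℂ) : Prop where
  unit : ‖u‖ = 1
  pos : ∀ e, d.pos (sd π e) = u * d.pos e
  bet : ∀ ν, d.2 (π ν) = d.2 ν

/-- the configuration is invariant under complex conjugation -/
structure Dat.Refl (d : Dat ι) (π : ι ≃ ι) : Prop where
  pos : ∀ e, d.pos (sd π e) = conj (d.pos e)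
  bet : ∀ ν, d.2 (π ν) = conj (d.2 ν)

end Pool.Agent.MP_943ae2_gt
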