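import Pool.Agent.MP_943ae2_gt.Prim

open Set Complex Filter
open scoped Topology ComplexConjugate ContDiff

noncomputable section

namespace Pool.Agent.MP_943ae2_gt

section Aux

variable {ι : Type} {F : Frm ι} {Y : Type} [TopologicalSpace Y] {D : Y → Dat ι}

/-- joint continuity of a family of spinors, tested on parameter spaces -/
def CtsS (F : Frm ι) (S : Dat ι → Spin ι) : Prop :=
  ∀ (Y : Type) [TopologicalSpace Y] (D : Y → Dat ι) (v : Y → ℂ) (e : ι × Bool), Continuous D →
    (∀ y, F.Adm (D y)) → Continuous v → (∀ y, ‖v y‖ < 4 * F.R e) →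
    Continuous (fun y => (S (D y)).1 e (v y)) ∧ Continuous (fun y => (S (D y)).2 e (v y))

/-- joint continuity of a function on a layer -/
def CtsF (F : Frm ι) (k : ℕ) (f : Dat ι → ℂ → ℂ) : Prop :=
  ∀ (Y : Type) [TopologicalSpace Y] (D : Y → Dat ι) (z : Y → ℂ), Continuous D →
    (∀ y, F.Adm (D y)) → Continuous z → (∀ y, z y ∈ F.Big (D y) k) →
    Continuous fun y => f (D y) (z y)

lemma Cts_pos (hD : Continuous D) (e : ι × Bool) : Continuous fun y => (D y).pos e :=
  (continuous_apply e).comp (continuous_fst.comp hD)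

lemma Cts_bet (hD : Continuous D) (e : ι × Bool) : Continuous fun y => (D y).bet e := by
  have h : Continuous fun y => (D y).2 e.1 := (continuous_apply e.1).comp (continuous_snd.comp hD)
  rcases e with ⟨ν, _ | _⟩
  · simpa only [bet_false] using h
  · simp only [bet_true]
    exact (continuous_conj.comp h).neg

lemma Cts_t {S : Dat ι → Spin ι} (hS : CtsS F S) (hD : Continuous D) (hA : ∀ y, F.Adm (D y))
    (μ : ι × Bool) {z : Y → ℂ} (hz : Continuous z) (h0 : ∀ y, z y - (D y).pos μ ≠ 0)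
    (h1 : ∀ y, ‖(D y).bet μ ^ 2 / (z y - (D y).pos μ)‖ < 4 * F.R μ) :
    Continuous (fun y => (D y).tA (S (D y)) μ (z y)) ∧
      Continuous (fun y => (D y).tB (S (D y)) μ (z y)) := by
  have hw : Continuous fun y => z y - (D y).pos μ := hz.sub (Cts_pos hD μ)
  have hb := Cts_bet hD μ
  have h2 := hS Y D (fun y => conj ((D y).bet μ ^ 2 / (z y - (D y).pos μ))) (opp μ) hD hA
    (continuous_conj.comp ((hb.pow 2).div hw h0)) (fun y => by
      rw [Complex.norm_conj]; exact h1 y)
  exact ⟨(hb.div hw h0).mul (continuous_conj.comp h2.2),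
    ((hb.div hw h0).mul (continuous_conj.comp h2.1)).neg⟩

lemma Cts_step {S : Dat ι → Spin ι} (hS : CtsS F S) : CtsS F fun d => F.step d (S d) := by
  intro Y _ D v e hD hA hv hv'
  have key : ∀ μ ∈ F.oth e,
      Continuous (fun y => (D y).tA (S (D y)) μ ((D y).pos e + v y)) ∧
        Continuous (fun y => (D y).tB (S (D y)) μ ((D y).pos e + v y)) := by
    intro μ hμ
    refine Cts_t hS hD hA μ ((Cts_pos hD e).add hv) (fun y => ?_)
      fun y => ((hA y).arg_lt hμ (hv' y)).2
    have h1 := ((hA y).arg_lt hμ (hv' y)).1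
    have h2 := (hA y).sep e μ hμ
    have h3 := (hA y).R_pos e
    exact norm_pos_iff.1 (by linarith)
  exact ⟨continuous_const.add (continuous_finsetSum _ fun μ hμ => (key μ hμ).1),
    continuous_finsetSum _ fun μ hμ => (key μ hμ).2⟩

lemma Cts_iter (n : ℕ) : CtsS F fun d => F.iter d n := by
  induction n with
  | zero => exact fun Y _ D v e _ _ _ _ => ⟨continuous_const, continuous_const⟩
  | succ n ih =>
    have h : (fun d => F.iter d (n + 1)) = fun d => F.step d (F.iter d n) :=
      funext fun d => Function.iterate_succ_apply' _ _ _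
    rw [h]
    exact Cts_step ih

lemma Cts_lim {f : ℕ → Y → ℂ} {g : Y → ℂ} (hf : ∀ n, Continuous (f n))
    (h : ∀ n y, ‖f n y - g y‖ ≤ 4 * (1 / 2) ^ n) : Continuous g := by
  refine TendstoUniformly.continuous (F := f) (p := atTop) ?_ (Frequently.of_forall hf)
  rw [Metric.tendstoUniformly_iff]
  intro ε hε
  have h1 : Tendsto (fun n : ℕ => 4 * (1 / 2 : ℝ) ^ n) atTop (𝓝 (4 * 0)) :=
    (tendsto_pow_atTop_nhds_zero_of_lt_one (by norm_num) (by norm_num)).const_mul 4
  rw [mul_zero] at h1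
  filter_upwards [h1.eventually (gt_mem_nhds hε)] with n hn y
  rw [dist_comm, dist_eq_norm]
  exact (h n y).trans_lt hn

lemma Cts_spin : CtsS F F.spin := by
  intro Y _ D v e hD hA hv hv'
  exact ⟨Cts_lim (fun n => (Cts_iter n Y D v e hD hA hv hv').1)
      fun n y => ((hA y).iter_rate n e (hv' y)).1,
    Cts_lim (fun n => (Cts_iter n Y D v e hD hA hv hv').2)
      fun n y => ((hA y).iter_rate n e (hv' y)).2⟩

lemma Cts_ab0 (k : ℕ) : CtsF F k (fun d => F.a d k) ∧ CtsF F k (fun d => F.b d k) := by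
  have key : ∀ (Y : Type) [TopologicalSpace Y] (D : Y → Dat ι) (z : Y → ℂ), Continuous D →
      (∀ y, F.Adm (D y)) → Continuous z → (∀ y, z y ∈ F.Big (D y) k) → ∀ μ ∈ F.sides k,
      Continuous (fun y => (D y).tA (F.spin (D y)) μ (z y)) ∧
        Continuous (fun y => (D y).tB (F.spin (D y)) μ (z y)) := by
    intro Y _ D z hD hA hz hz' μ hμ
    have h0 : ∀ y, 0 < ‖z y - (D y).pos μ‖ := fun y => by
      have h1 := hz' y μ hμ
      have h2 := (hA y).R_pos μ
      exact lt_of_le_of_lt (by positivity) h1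
    refine Cts_t Cts_spin hD hA μ hz (fun y => norm_pos_iff.1 (h0 y)) fun y => ?_
    have h1 := hz' y μ hμ
    have h2 := (hA y).R_pos μ
    rw [div_lt_iff₀ (by positivity)] at h1
    rw [norm_div, norm_pow, div_lt_iff₀ (h0 y)]
    linarith
  exact ⟨fun Y _ D z hD hA hz hz' => continuous_const.add
      (continuous_finsetSum _ fun μ hμ => (key Y D z hD hA hz hz' μ hμ).1),
    fun Y _ D z hD hA hz hz' => continuous_finsetSum _ fun μ hμ => (key Y D z hD hA hz hz' μ hμ).2⟩

lemma Cts_aa (k : ℕ) : CtsF F k fun d => F.aa d k := fun Y _ D z hD hA hz hz' =>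
  ((Cts_ab0 k).1 Y D z hD hA hz hz').pow 2

lemma Cts_bb (k : ℕ) : CtsF F k fun d => F.bb d k := fun Y _ D z hD hA hz hz' =>
  ((Cts_ab0 k).2 Y D z hD hA hz hz').pow 2

lemma Cts_ab (k : ℕ) : CtsF F k fun d => F.ab d k := fun Y _ D z hD hA hz hz' =>
  ((Cts_ab0 k).1 Y D z hD hA hz hz').mul ((Cts_ab0 k).2 Y D z hD hA hz hz')

lemma Cts_map {c : Y → ℂ} {r : Y → ℝ} (hc : Continuous c) (hr : Continuous r) :
    Continuous fun p : Y × ℝ => circleMap (c p.1) (r p.1) p.2 := by
  unfold circleMap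
  fun_prop

lemma Cts_circ {c : Y → ℂ} {r : Y → ℝ} (hr : Continuous r) {g : Y → ℂ → ℂ}
    (hg : Continuous fun p : Y × ℝ => g p.1 (circleMap (c p.1) (r p.1) p.2)) :
    Continuous fun y => ∮ ζ in C(c y, r y), g y ζ := by
  unfold circleIntegral
  refine intervalIntegral.continuous_parametric_intervalIntegral_of_continuous'
    (f := fun y θ => deriv (circleMap (c y) (r y)) θ • g y (circleMap (c y) (r y) θ)) ?_ _ _
  have h : Continuous fun p : Y × ℝ => circleMap 0 (r p.1) p.2 * I :=
    (Cts_map (c := fun _ => 0) continuous_const hr).mul continuous_const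
  simp only [deriv_circleMap]
  exact h.smul hg

lemma Cts_avg {E : Type} [NormedAddCommGroup E] [NormedSpace ℝ E] {c : Y → ℂ} {r : Y → ℝ}
    {g : Y → ℂ → E} (hg : Continuous fun p : Y × ℝ => g p.1 (circleMap (c p.1) (r p.1) p.2)) :
    Continuous fun y => Real.circleAverage (g y) (c y) (r y) := by
  unfold Real.circleAverage
  exact (intervalIntegral.continuous_parametric_intervalIntegral_of_continuous'
    (f := fun y θ => g y (circleMap (c y) (r y) θ)) hg _ _).const_smul _

lemma Cts_bet_le {d : Dat ι} (h : F.Adm d) (e : ι × Bool) : ‖d.bet e‖ ≤ F.R e := by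
  refine (h.bet_le e).trans (le_self_pow₀ ?_ (by norm_num))
  exact (one_le_inv₀ (h.t_pos _)).2 ((h.t_small _).trans (by norm_num))

lemma Cts_sr (hD : Continuous D) (e : ι × Bool) : Continuous fun y => F.sr (D y) e :=
  ((Cts_bet hD e).norm.pow 2).div_const _

lemma Cts_add (c : ℂ) (r θ : ℝ) : circleMap c r θ = c + circleMap 0 r θ := by
  simp [circleMap]

lemma Cts_mem {d : Dat ι} (h : F.Adm d) (e : ι × Bool) (θ : ℝ) :
    circleMap (d.pos e) (F.sr d e) θ ∈ F.Big d (F.lay e) := by
  have h1 := h.R_pos e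
  have h2 := h.bet_pos e
  have h3 := Cts_bet_le h e
  rw [Cts_add]
  refine h.mem_Big e ?_ ?_ <;> rw [norm_circleMap_zero, abs_of_pos (h.sr_pos e), Frm.sr]
  · exact div_lt_div_of_pos_left (by positivity) (by positivity) (by linarith)
  · rw [div_le_iff₀ (by positivity)]
    nlinarith

lemma Cts_on {e : ι × Bool} {f : Dat ι → ℂ → ℂ} (hf : CtsF F (F.lay e) f) (hD : Continuous D)
    (hA : ∀ y, F.Adm (D y)) :
    Continuous fun p : Y × ℝ => f (D p.1) (circleMap ((D p.1).pos e) (F.sr (D p.1) e) p.2) :=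
  hf (Y × ℝ) (fun p => D p.1) _ (hD.comp continuous_fst) (fun p => hA p.1)
    (Cts_map (Cts_pos hD e) (Cts_sr hD e)) fun p => Cts_mem (hA p.1) e p.2

lemma Cts_res {e : ι × Bool} {f : Dat ι → ℂ → ℂ} (hf : CtsF F (F.lay e) f) (hD : Continuous D)
    (hA : ∀ y, F.Adm (D y)) : Continuous fun y => F.res (D y) (f (D y)) e :=
  continuous_const.mul (Cts_circ (g := fun y => f (D y)) (Cts_sr hD e) (Cts_on hf hD hA))

lemma Cts_prim {e : ι × Bool} {f : Dat ι → ℂ → ℂ} (hf : CtsF F (F.lay e) f) (hD : Continuous D)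
    (hA : ∀ y, F.Adm (D y)) {z : Y → ℂ} (hz : Continuous z)
    (hz' : ∀ y, F.sr (D y) e < ‖z y - (D y).pos e‖) :
    Continuous fun y => F.prim (D y) (f (D y)) e (z y) := by
  refine continuous_const.mul (Cts_circ
    (g := fun y ζ => f (D y) ζ * Complex.log (1 - (ζ - (D y).pos e) / (z y - (D y).pos e)))
    (Cts_sr hD e) ((Cts_on hf hD hA).mul ?_))
  have h0 : ∀ y, 0 < ‖z y - (D y).pos e‖ := fun y => ((hA y).sr_pos e).trans (hz' y)
  have hp : Continuous fun p : Y × ℝ => (D p.1).pos e := (Cts_pos hD e).comp continuous_fst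
  refine Continuous.clog (continuous_const.sub
    (((Cts_map (Cts_pos hD e) (Cts_sr hD e)).sub hp).div ((hz.comp continuous_fst).sub hp)
      fun p => norm_pos_iff.1 (h0 p.1))) fun p => ?_
  rw [sub_eq_add_neg]
  refine mem_slitPlane_of_norm_lt_one ?_
  rw [norm_neg, norm_div, circleMap_sub_center, norm_circleMap_zero,
    abs_of_pos ((hA p.1).sr_pos e), div_lt_one (h0 p.1)]
  exact hz' p.1

lemma Cts_U {d : Dat ι} (h : F.Adm d) {e : ι × Bool} {z : ℂ} (hz : z ∈ F.U d (F.lay e)) :
    F.sr d e < ‖z - d.pos e‖ := by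
  have h1 := h.R_pos e
  have h2 := h.bet_pos e
  refine lt_trans ?_ (hz e (self_mem_sides e))
  exact div_lt_div_of_pos_left (by positivity) h1 (by linarith)

lemma Cts_log (hD : Continuous D) (hA : ∀ y, F.Adm (D y)) {e : ι × Bool} {z : Y → ℂ}
    (hz : Continuous z) (hz' : ∀ y, z y ∈ F.U (D y) (F.lay e)) :
    Continuous fun y => Real.log ‖z y - (D y).pos e‖ :=
  (hz.sub (Cts_pos hD e)).norm.log fun y => (((hA y).sr_pos e).trans (Cts_U (hA y) (hz' y))).ne'

lemma Cts_H (hD : Continuous D) (hA : ∀ y, F.Adm (D y)) {k : ℕ} {z : Y → ℂ}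
    (hz : Continuous z) (hz' : ∀ y, z y ∈ F.U (D y) k) :
    Continuous fun y => F.H (D y) k (z y) := by
  refine hz.add (continuous_finsetSum _ fun e he => ?_)
  obtain rfl := mem_sides_iff.1 he
  have h1 := fun y => Cts_U (hA y) (hz' y)
  exact ((Cts_prim (Cts_aa _) hD hA hz h1).sub
    (continuous_conj.comp (Cts_prim (Cts_bb _) hD hA hz h1))).add
    ((continuous_const.mul (Cts_res (Cts_aa _) hD hA)).mul
      (continuous_ofReal.comp (Cts_log hD hA hz hz')))

lemma Cts_h0 (hD : Continuous D) (hA : ∀ y, F.Adm (D y)) {k : ℕ} {z : Y → ℂ}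
    (hz : Continuous z) (hz' : ∀ y, z y ∈ F.U (D y) k) :
    Continuous fun y => F.h0 (D y) k (z y) := by
  refine continuous_finsetSum _ fun e he => ?_
  obtain rfl := mem_sides_iff.1 he
  have h1 := fun y => Cts_U (hA y) (hz' y)
  exact (continuous_re.comp (Cts_prim (Cts_ab _) hD hA hz h1)).add
    ((continuous_re.comp (Cts_res (Cts_ab _) hD hA)).mul (Cts_log hD hA hz hz'))

lemma Cts_memU {d : Dat ι} (h : F.Adm d) (e : ι × Bool) (θ : ℝ) :
    circleMap (d.pos e) ‖d.bet e‖ θ ∈ F.U d (F.lay e) := by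
  have h1 := h.R_pos e
  have h3 := Cts_bet_le h e
  rw [Cts_add]
  refine h.Ub_sub _ (h.mem_Ub e ?_ ?_) <;> rw [norm_circleMap_zero, abs_norm]
  linarith

end Aux

variable {ι : Type} (F : Frm ι)

theorem continuousOn_ra (e : ι × Bool) : ContinuousOn (fun d => F.ra d e) {d | F.Adm d} :=
  continuousOn_iff_continuous_domRestrict.2
    (Cts_res (Cts_aa _) continuous_subtype_val fun y => y.2)

theorem continuousOn_rb (e : ι × Bool) : ContinuousOn (fun d => F.rb d e) {d | F.Adm d} :=
  continuousOn_iff_continuous_domRestrict.2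
    (Cts_res (Cts_bb _) continuous_subtype_val fun y => y.2)

theorem continuousOn_rab (e : ι × Bool) : ContinuousOn (fun d => F.rab d e) {d | F.Adm d} :=
  continuousOn_iff_continuous_domRestrict.2
    (Cts_res (Cts_ab _) continuous_subtype_val fun y => y.2)

theorem continuousOn_Jh (e : ι × Bool) : ContinuousOn (fun d => F.Jh d e) {d | F.Adm d} :=
  continuousOn_iff_continuous_domRestrict.2
    (Cts_avg (g := fun y : {d | F.Adm d} => F.H y.1 (F.lay e))
      (Cts_H (continuous_subtype_val.comp continuous_fst) (fun p => p.1.2)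
        (Cts_map (Cts_pos continuous_subtype_val e) (Cts_bet continuous_subtype_val e).norm)
        fun p => Cts_memU p.1.2 e p.2))

theorem continuousOn_J3 (e : ι × Bool) : ContinuousOn (fun d => F.J3 d e) {d | F.Adm d} :=
  continuousOn_iff_continuous_domRestrict.2
    (Cts_avg (g := fun y : {d | F.Adm d} => F.h0 y.1 (F.lay e))
      (Cts_h0 (continuous_subtype_val.comp continuous_fst) (fun p => p.1.2)
        (Cts_map (Cts_pos continuous_subtype_val e) (Cts_bet continuous_subtype_val e).norm)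
        fun p => Cts_memU p.1.2 e p.2))

end Pool.Agent.MP_943ae2_gt
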