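import Pool.Agent.MP_943ae2_gt.Mac3
import Pool.Agent.MP_943ae2_gt.Cts

open Set Complex Filter Finset
open scoped Topology ComplexConjugate ContDiff

noncomputable section

namespace Pool.Agent.MP_943ae2_gt

section Aux

variable {Y : Type} [TopologicalSpace Y] {X : Y → Prm}

lemma Cont_u (hX : Continuous X) (j : ℕ) : Continuous fun y => (X y).u j :=
  (continuous_apply j).comp hX.fst

lemma Cont_s (hX : Continuous X) (j a : ℕ) : Continuous fun y => (X y).s j a :=
  (continuous_apply a).comp ((continuous_apply j).comp hX.snd.fst)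

lemma Cont_y (hX : Continuous X) (j a : ℕ) : Continuous fun y => (X y).y j a :=
  (continuous_apply a).comp ((continuous_apply j).comp hX.snd.snd.fst)

lemma Cont_xi (hX : Continuous X) (j k : ℕ) (i : ZMod (nn j)) :
    Continuous fun y => (X y).ξ j k i :=
  (continuous_apply i).comp ((continuous_apply k).comp
    ((continuous_apply j).comp hX.snd.snd.snd.fst))

lemma Cont_eps (hX : Continuous X) (j k : ℕ) (i : ZMod (nn j)) :
    Continuous fun y => (X y).ε j k i :=
  (continuous_apply i).comp ((continuous_apply k).comp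
    ((continuous_apply j).comp hX.snd.snd.snd.snd.fst))

lemma Cont_io (hX : Continuous X) (j k : ℕ) (i : ZMod (nn j)) :
    Continuous fun y => (X y).io j k i :=
  (continuous_apply i).comp ((continuous_apply k).comp
    ((continuous_apply j).comp hX.snd.snd.snd.snd.snd.fst))

lemma Cont_de (hX : Continuous X) (j k : ℕ) (i : ZMod (nn j)) :
    Continuous fun y => (X y).de j k i :=
  (continuous_apply i).comp ((continuous_apply k).comp
    ((continuous_apply j).comp hX.snd.snd.snd.snd.snd.snd))

lemma Cont_W (hX : Continuous X) (j : ℕ) : Continuous fun y => (X y).W j := by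
  induction j with
  | zero => exact continuous_const
  | succ j ih => exact ih.mul (Cont_u hX (j + 1))

lemma Cont_sTop (hX : Continuous X) (j a : ℕ) : Continuous fun y => (X y).sTop j a :=
  ((Cont_s hX j a).mul (Cont_W hX j)).div_const _

lemma Cont_sBot (hX : Continuous X) (j a : ℕ) : Continuous fun y => (X y).sBot j a :=
  (Cont_sTop hX (j - 1) a).neg.sub ((Cont_W hX j).div_const _)

lemma Cont_prof {s : Y → ℕ → ℝ} (hs : ∀ l, Continuous fun y => s y l) (m a : ℕ) :
    Continuous fun y => prof (s y) m a :=
  continuous_finsetSum _ fun _ _ => (continuous_finsetSum _ fun l _ => hs l).sub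
    ((continuous_finsetSum _ fun _ _ => continuous_finsetSum _ fun l _ => hs l).div_const _)

lemma Cont_w (hX : Continuous X) (j k : ℕ) : Continuous fun y => (X y).w j k := by
  unfold Prm.w
  split_ifs
  · exact (((Cont_W hX j).mul continuous_const).div_const _).add
      (Cont_prof (s := fun y => (X y).sBot j) (Cont_sBot hX j) _ _)
  · exact (((Cont_W hX j).mul continuous_const).div_const _).add
      (Cont_prof (s := fun y => (X y).sTop j) (Cont_sTop hX j) _ _)
  · exact continuous_const

lemma Cont_D2 (hX : Continuous X) (j k : ℕ) : Continuous fun y => (X y).D2 j k :=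
  ((Cont_w hX j (k + 1)).sub (continuous_const.mul (Cont_w hX j k))).add (Cont_w hX j (k - 1))

lemma Cont_lr (hX : Continuous X) (j k : ℕ) : Continuous fun y => (X y).lr j k :=
  continuous_const.sub ((continuous_finsetSum _ fun i _ => Cont_y hX j i).div_const _)

lemma Cont_c (hX : Continuous X) (j k : ℕ) : Continuous fun y => ((X y).wall j).c k :=
  (Cont_w hX j k).div_const _

lemma Cont_g (hX : Continuous X) (j k : ℕ) : Continuous fun y => ((X y).wall j).g k := by
  cases j with
  | zero => exact continuous_const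
  | succ j => exact (Cont_D2 hX j (Lb j + k)).neg

lemma Cont_wy (hX : Continuous X) (j k : ℕ) : Continuous fun y => ((X y).wall j).y (nn j) k :=
  continuous_const.mul ((Cont_lr hX j k).sub (Cont_lr hX j (k + 1)))

lemma Cont_th : Continuous th := by
  unfold th
  exact continuous_const.div (continuous_const.add (Real.continuous_exp.comp continuous_neg))
    fun y => by positivity

lemma Cont_Em (hX : Continuous X) (j k : ℕ) : Continuous fun y => ((X y).wall j).Em (nn j) k :=
  ((((continuous_const.mul (Cont_c hX j k)).sub (Cont_c hX j k)).add (Cont_g hX j k)).sub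
    ((continuous_const.mul (Cont_c hX j (k + 1))).mul (Cont_th.comp (Cont_wy hX j k)))).sub
    ((continuous_const.mul (Cont_c hX j (k - 1))).mul
      (continuous_const.sub (Cont_th.comp (Cont_wy hX j (k - 1)))))

lemma Cont_pp (hX : Continuous X) (j k : ℕ) (i : ZMod (nn j)) :
    Continuous fun y => (X y).pp j k i := by
  unfold Prm.pp
  split_ifs
  · exact continuous_const
  · exact ((continuous_ofReal.comp (Real.continuous_exp.comp (Cont_lr hX j k))).mul
      continuous_const).mul (continuous_exp.comp (Cont_xi hX j k i))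

lemma Cont_bq (hX : Continuous X) (j k : ℕ) (i : ZMod (nn j)) :
    Continuous fun y => (X y).bq j k i :=
  (Cont_c hX j k).add (Cont_eps hX j k i)

lemma Cont_dat (hX : Continuous X) : Continuous fun y => (X y).dat := by
  refine Continuous.prodMk (continuous_pi fun e => (Cont_pp hX _ _ _).add ?_)
    (continuous_pi fun ν => (continuous_ofReal.comp (Cont_bq hX _ _ _)).add
      ((continuous_ofReal.comp (Cont_io hX _ _ _)).mul continuous_const))
  split_ifs
  · exact Cont_de hX _ _ _
  · exact continuous_const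

lemma Cont_ext {K : Type} [Zero K] [TopologicalSpace K] {f : Y → Nk → K}
    (hf : ∀ ν, Continuous fun y => f y ν) (j k : ℕ) (i : ZMod (nn j)) :
    Continuous fun y => Prm.ext (f y) j k i := by
  unfold Prm.ext
  split_ifs
  · exact hf _
  · exact continuous_const

lemma Cont_avg {n : ℕ} [NeZero n] {f : Y → ZMod n → ℝ} (hf : ∀ i, Continuous fun y => f y i) :
    Continuous fun y => avg n (f y) :=
  (continuous_finsetSum _ fun i _ => hf i).div_const _

lemma Cont_avgC {n : ℕ} [NeZero n] {f : Y → ZMod n → ℂ} (hf : ∀ i, Continuous fun y => f y i) :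
    Continuous fun y => avgC n (f y) :=
  (continuous_finsetSum _ fun i _ => hf i).div_const _

lemma Cont_comp {K : Type} [TopologicalSpace K] {f : Dat Nk → K}
    (hf : ContinuousOn f {d | frm.Adm d}) (hX : Continuous X) (hK : ∀ y, InK (X y)) :
    Continuous fun y => f (X y).dat :=
  hf.comp_continuous (Cont_dat hX) fun y => (hK y).adm

variable (hX : Continuous X) (hK : ∀ y, InK (X y))
include hX hK

lemma Cont_Ft (j k : ℕ) (i : ZMod (nn j)) : Continuous fun y => (X y).Ft j k i := by
  refine Cont_ext (fun ν => ?_) j k i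
  refine ((Cont_pp hX _ _ _).mul ((continuous_conj.comp
    (Cont_comp (continuousOn_ra frm (ν, false)) hX hK)).add
    (Cont_comp (continuousOn_rb frm (ν, false)) hX hK))).div
    (continuous_const.mul (continuous_ofReal.comp (Cont_bq hX _ _ _))) fun y => ?_
  have h1 := (hK y).bq_ge ν
  have h2 : (0 : ℝ) < PP ν.j := lt_of_lt_of_le (by positivity) (PP_ge ν.j)
  have h3 : 0 < (X y).bq ν.j ν.k ν.i := lt_of_lt_of_le (by positivity) h1
  exact mul_ne_zero two_ne_zero (ofReal_ne_zero.2 h3.ne')

lemma Cont_Dt (j k : ℕ) (i : ZMod (nn j)) : Continuous fun y => (X y).Dt j k i :=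
  Cont_ext (fun ν => (Cont_comp (continuousOn_J3 frm (ν, false)) hX hK).sub
    (Cont_comp (continuousOn_J3 frm (ν, true)) hX hK)) j k i

lemma Cont_err (j k : ℕ) : Continuous fun y => (X y).err j k :=
  (Cont_Em hX j k).sub (Cont_avg (f := fun y i => ((X y).Ft j k i).re)
    fun i => continuous_re.comp (Cont_Ft hX hK j k i))

lemma Cont_eta (j k : ℕ) : Continuous fun y => (X y).eta j k :=
  (((Cont_g hX j k).sub ((Cont_D2 hX j k).div_const _)).sub (Cont_c hX j k)).sub
    (Cont_err hX hK j k)

lemma Cont_psi (j k : ℕ) : Continuous fun y => (X y).psi j k := by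
  unfold Prm.psi
  split_ifs
  · exact continuous_finsetSum _ fun i _ => (Cont_w hX j i).mul (Cont_eta hX hK j i)
  · exact (continuous_finsetSum _ fun i _ => (Cont_w hX j i).mul (Cont_eta hX hK j i)).neg

omit [TopologicalSpace Y] hX in
lemma Cont_wpos {j k : ℕ} (h1 : 1 ≤ k) (h2 : k < NN j) (y : Y) : 0 < (X y).w j k := by
  have h3 := (hK y).w_ge h1 h2
  have h4 := (hK y).Mac2_W_pos j
  have h5 : (0 : ℝ) < NN j := Nat.cast_pos.2 (by omega)
  exact lt_of_lt_of_le (by positivity) h3

lemma Cont_ff {j k : ℕ} (h1 : 1 ≤ k) (h2 : k + 1 < NN j) : Continuous fun y => (X y).ff j k :=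
  (Cont_psi hX hK j k).div ((Cont_w hX j k).mul (Cont_w hX j (k + 1))) fun y =>
    (mul_pos (Cont_wpos hK h1 (by omega) y) (Cont_wpos hK (by omega) h2 y)).ne'

omit [TopologicalSpace Y] hX in
lemma Cont_ff_lt {j k : ℕ} (h1 : 1 ≤ k) (h2 : k + 1 < NN j) (y : Y) : |(X y).ff j k| < 1 / 2 := by
  have hj : 1 ≤ j := by
    rcases Nat.eq_zero_or_pos j with rfl | h
    · rw [NN_zero] at h2; omega
    · exact h
  refine ((hK y).ff_le hj h1 h2).trans_lt ?_
  have h3 := nn_big hj
  have h4 : (1 : ℝ) ≤ NN j := Nat.one_le_cast.2 (by omega)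
  rw [div_lt_iff₀ (Mac2_nn_pos j)]
  nlinarith

lemma Cont_uN (j : ℕ) : Continuous fun y => (X y).uN j := by
  unfold Prm.uN
  split_ifs
  · exact continuous_const
  · refine (Cont_u hX j).sub ((continuous_const.mul (continuous_const.div
      ((Cont_W hX (j - 1)).mul (Cont_W hX j)) fun y => ?_)).mul
      (continuous_finsetSum _ fun i _ => (Cont_w hX j i).mul (Cont_eta hX hK j i)))
    exact (mul_pos ((hK y).Mac2_W_pos _) ((hK y).Mac2_W_pos _)).ne'

lemma Cont_sN (j a : ℕ) : Continuous fun y => (X y).sN j a := by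
  unfold Prm.sN
  split_ifs
  · exact (Cont_s hX j a).add (((continuous_const.div (Cont_W hX j)
      fun y => ((hK y).Mac2_W_pos _).ne').mul
      ((Cont_avg (f := fun y => (X y).Dt j (Lb j + a)) (Cont_Dt hX hK j _)).sub
        (Cont_avg (f := fun y => (X y).Dt (j + 1) a) (Cont_Dt hX hK (j + 1) _)))).div_const _)
  · exact continuous_const

lemma Cont_yN (j k : ℕ) : Continuous fun y => (X y).yN j k := by
  unfold Prm.yN
  split_ifs with h
  · have hf := Cont_ff hX hK h.1 h.2
    have hp : ∀ y, 0 < 1 + 2 * (X y).ff j k := fun y => by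
      have := (abs_lt.1 (Cont_ff_lt hK h.1 h.2 y)).1
      linarith
    have hm : ∀ y, 0 < 1 - 2 * (X y).ff j k := fun y => by
      have := (abs_lt.1 (Cont_ff_lt hK h.1 h.2 y)).2
      linarith
    exact ((continuous_const.add (continuous_const.mul hf)).div
      (continuous_const.sub (continuous_const.mul hf)) fun y => (hm y).ne').log
      fun y => (div_pos (hp y) (hm y)).ne'
  · exact continuous_const

lemma Cont_vxi (j k : ℕ) (i : ZMod (nn j)) : Continuous fun y => (X y).vξ j k i :=
  (continuous_ofReal.comp (Cont_c hX j k)).mul ((Cont_Ft hX hK j k i).sub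
    (Cont_avgC (f := fun y => (X y).Ft j k) (Cont_Ft hX hK j k)))

lemma Cont_veps (j k : ℕ) (i : ZMod (nn j)) : Continuous fun y => (X y).vε j k i :=
  ((Cont_Dt hX hK j k i).sub (Cont_avg (f := fun y => (X y).Dt j k) (Cont_Dt hX hK j k))).neg

lemma Cont_sc (j : ℕ) : Continuous fun y => (X y).sc j := by
  have h : Continuous fun y =>
      ((X y).wall j).nsq (nn j) ((X y).ξ j + (X y).vξ j) ((X y).ε j + (X y).vε j) :=
    continuous_finsetSum (Ico 1 (NN j)) fun k _ => continuous_finsetSum _ fun i _ =>
      (((Cont_xi hX j k i).add (Cont_vxi hX hK j k i)).norm.pow 2).add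
        (((Cont_eps hX j k i).add (Cont_veps hX hK j k i)).pow 2)
  exact continuous_const.div (continuous_const.max h.sqrt) fun y =>
    (lt_max_of_lt_left (pow_pos (tt_pos j) 3)).ne'

lemma Cont_xiN (j k : ℕ) (i : ZMod (nn j)) : Continuous fun y => (X y).ξN j k i :=
  (continuous_ofReal.comp (Cont_sc hX hK j)).mul ((Cont_xi hX j k i).add (Cont_vxi hX hK j k i))

lemma Cont_epsN (j k : ℕ) (i : ZMod (nn j)) : Continuous fun y => (X y).εN j k i :=
  (Cont_sc hX hK j).mul ((Cont_eps hX j k i).add (Cont_veps hX hK j k i))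

lemma Cont_ioN (j k : ℕ) (i : ZMod (nn j)) : Continuous fun y => (X y).ioN j k i :=
  Cont_ext (fun ν => (Cont_io hX _ _ _).add
    (continuous_im.comp (Cont_comp (continuousOn_rab frm (ν, false)) hX hK))) j k i

lemma Cont_deN (j k : ℕ) (i : ZMod (nn j)) : Continuous fun y => (X y).deN j k i :=
  Cont_ext (fun ν => (Cont_de hX _ _ _).add
    ((Cont_comp (continuousOn_Jh frm (ν, false)) hX hK).sub
      (Cont_comp (continuousOn_Jh frm (ν, true)) hX hK))) j k i

lemma Cont_Phi : Continuous fun y => (X y).Phi :=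
  (continuous_pi (Cont_uN hX hK)).prodMk
    ((continuous_pi fun j => continuous_pi (Cont_sN hX hK j)).prodMk
    ((continuous_pi fun j => continuous_pi (Cont_yN hX hK j)).prodMk
    ((continuous_pi fun j => continuous_pi fun k => continuous_pi (Cont_xiN hX hK j k)).prodMk
    ((continuous_pi fun j => continuous_pi fun k => continuous_pi (Cont_epsN hX hK j k)).prodMk
    ((continuous_pi fun j => continuous_pi fun k => continuous_pi (Cont_ioN hX hK j k)).prodMk
      (continuous_pi fun j => continuous_pi fun k => continuous_pi (Cont_deN hX hK j k)))))))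

end Aux

theorem Phi_continuousOn : ContinuousOn Prm.Phi {x : Prm | InK x} :=
  continuousOn_iff_continuous_domRestrict.2 (Cont_Phi continuous_subtype_val fun y => y.2)

end Pool.Agent.MP_943ae2_gt
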