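import Pool.Agent.MP_943ae2_gt.Par

open Set Complex Filter Finset
open scoped Topology ComplexConjugate ContDiff

noncomputable section

namespace Pool.Agent.MP_943ae2_gt

lemma Cst_lt (j : ℕ) : j < 4 ^ j := Nat.lt_pow_self (by norm_num)

lemma Cst_inv (j : ℕ) : (tt j)⁻¹ = 2 ^ (4096 * 4 ^ j) := by
  rw [tt, one_div, inv_pow, inv_inv]

lemma Cst_PP (j : ℕ) : PP j = 2 ^ 64 * 32 ^ j := by
  rw [PP, pow_add, pow_mul]; norm_num

lemma Cst_le {a : ℝ} (h0 : 0 ≤ a) (h : a ≤ 32) (j : ℕ) : a ^ j ≤ 32 ^ j :=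
  pow_le_pow_left₀ h0 h j

theorem tt_pos (j : ℕ) : 0 < tt j := by unfold tt; positivity

theorem tt_succ (j : ℕ) : tt (j + 1) = tt j ^ 4 := by
  rw [tt, tt, ← pow_mul, pow_succ, mul_assoc]

theorem tt_anti : Antitone tt := fun _ _ h =>
  pow_le_pow_of_le_one (by norm_num) (by norm_num)
    (Nat.mul_le_mul_left _ (Nat.pow_le_pow_right (by norm_num) h))

theorem tt_le (j : ℕ) : tt j ≤ 1 / 1000 := by
  have h : tt j ≤ (1 / 2) ^ 10 := pow_le_pow_of_le_one (by norm_num) (by norm_num)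
    (by have := Cst_lt j; omega)
  exact h.trans (by norm_num)

theorem PP_tt (j : ℕ) : PP j ^ 60 * tt j ≤ 1 := by
  rw [← le_div_iff₀ (tt_pos j), one_div, Cst_inv, PP, ← pow_mul]
  exact pow_le_pow_right₀ (by norm_num) (by have := Cst_lt j; omega)

theorem PP_ge (j : ℕ) : 2 ^ 64 ≤ PP j := pow_le_pow_right₀ (by norm_num) (by omega)

theorem PP_succ (j : ℕ) : PP (j + 1) = 32 * PP j := by
  rw [Cst_PP, Cst_PP, pow_succ]; ring

theorem nn_zero : nn 0 = 1 := rfl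

lemma Cst_nn {j : ℕ} (hj : 1 ≤ j) : nn j = 2 ^ 50 * 25 ^ (j - 5) := if_neg (by omega)

theorem Lb_pos (j : ℕ) : 1 ≤ Lb j := Nat.one_le_pow _ _ (by norm_num)
theorem Mt_pos (j : ℕ) : 1 ≤ Mt j := Nat.one_le_pow _ _ (by norm_num)
theorem Lb_succ (j : ℕ) : Lb (j + 1) = Mt j := rfl

theorem Mt_eq {j : ℕ} (hj : 1 ≤ j) : Mt j = 5 * Lb j := by
  obtain ⟨j, rfl⟩ := Nat.exists_eq_add_of_le' hj
  rw [Lb_succ, Mt, Mt, pow_succ']

theorem NN_eq {j : ℕ} (hj : 1 ≤ j) : NN j = 6 * Lb j := by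
  rw [NN, Mt_eq hj]; ring

theorem NN_mono (j : ℕ) : NN j ≤ NN (j + 1) :=
  Nat.add_le_add (Nat.pow_le_pow_right (by norm_num) (by omega))
    (Nat.pow_le_pow_right (by norm_num) (by omega))

theorem Lb_zero : Lb 0 = 1 := rfl
theorem Mt_zero : Mt 0 = 1 := rfl
theorem NN_zero : NN 0 = 2 := rfl

theorem nn_le_PP (j : ℕ) : 2 ^ 10 * (nn (j + 1) : ℝ) ≤ PP j := by
  have h1 : (25 : ℝ) ^ (j - 4) ≤ 25 ^ j := pow_le_pow_right₀ (by norm_num) (by omega)
  have h2 := Cst_le (a := 25) (by norm_num) (by norm_num) j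
  have h3 : (0 : ℝ) ≤ 32 ^ j := by positivity
  rw [Cst_nn (by omega), Cst_PP]
  push_cast
  linarith

theorem NN_le_PP (j : ℕ) : 2 ^ 10 * (NN (j + 1) : ℝ) ≤ PP j := by
  have h2 := Cst_le (a := 5) (by norm_num) (by norm_num) j
  have h3 : (0 : ℝ) ≤ 32 ^ j := by positivity
  rw [NN_eq (by omega), Lb_succ, Mt, Cst_PP]
  push_cast
  linarith

theorem two_pow_le_PP (j : ℕ) : 2 ^ 10 * (2 : ℝ) ^ (j + 1) ≤ PP j := by
  have h2 := Cst_le (a := 2) (by norm_num) (by norm_num) j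
  have h3 : (0 : ℝ) ≤ 32 ^ j := by positivity
  rw [Cst_PP, pow_succ _ j]
  linarith

theorem nn_ge {j : ℕ} (hj : 1 ≤ j) : 2 ^ 50 ≤ nn j := by
  rw [Cst_nn hj]
  exact Nat.le_mul_of_pos_right _ (by positivity)

theorem nn_mono (j : ℕ) : nn j ≤ nn (j + 1) := by
  rcases Nat.eq_zero_or_pos j with rfl | hj
  · exact Nat.pos_of_ne_zero (NeZero.ne _)
  · rw [Cst_nn hj, Cst_nn (by omega)]
    exact Nat.mul_le_mul_left _ (Nat.pow_le_pow_right (by norm_num) (by omega))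

theorem nn_succ_le {j : ℕ} (hj : 1 ≤ j) : nn (j + 1) ≤ 25 * nn j := by
  rw [Cst_nn hj, Cst_nn (by omega), mul_left_comm, ← pow_succ']
  exact Nat.mul_le_mul_left _ (Nat.pow_le_pow_right (by norm_num) (by omega))

theorem nn_big {j : ℕ} (hj : 1 ≤ j) : (10 : ℝ) ^ 7 * (NN j : ℝ) ^ 2 ≤ nn j := by
  have h1 : (25 : ℝ) ^ (j - 1) ≤ 25 ^ (j - 5 + 4) := pow_le_pow_right₀ (by norm_num) (by omega)
  have h2 : ((5 : ℝ) ^ (j - 1)) ^ 2 = 25 ^ (j - 1) := by
    rw [← pow_mul, mul_comm, pow_mul]; norm_num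
  have h3 : (0 : ℝ) ≤ 25 ^ (j - 5) := by positivity
  rw [pow_add] at h1
  rw [NN_eq hj, Cst_nn hj, Lb]
  push_cast
  rw [mul_pow, h2]
  linarith

theorem rho_pos (j : ℕ) : 0 < rho j := pow_pos (inv_pos.2 (tt_pos j)) _

theorem rho_succ (j : ℕ) : rho (j + 1) = rho j ^ 4 := by
  rw [rho, rho, tt_succ, ← inv_pow, ← pow_mul, ← pow_mul]

theorem exp_ell (j : ℕ) : Real.exp (ell j) = rho j := Real.exp_log (rho_pos j)

theorem ell_succ (j : ℕ) : ell (j + 1) = 4 * ell j := by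
  rw [ell, ell, rho_succ, Real.log_pow]; norm_num

theorem ell_eq (j : ℕ) : ell j = 32 * Real.log (tt j)⁻¹ := by
  rw [ell, rho, Real.log_pow]; norm_num

lemma Cst_ell (j : ℕ) : ell j = 131072 * 4 ^ j * Real.log 2 := by
  rw [ell_eq, Cst_inv, Real.log_pow]; push_cast; ring

theorem ell_le_PP (j : ℕ) : 2 ^ 10 * ell (j + 1) ≤ PP j := by
  have h1 := Cst_le (a := 4) (by norm_num) (by norm_num) j
  have h2 : (4 : ℝ) ^ j * Real.log 2 ≤ 4 ^ j * 1 :=
    mul_le_mul_of_nonneg_left (by linarith [Real.log_two_lt_d9]) (by positivity)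
  have h3 : (0 : ℝ) ≤ 32 ^ j := by positivity
  rw [ell_succ, Cst_ell, Cst_PP]
  linarith

theorem ell_ge (j : ℕ) : 90000 * 4 ^ j ≤ ell j := by
  have h2 : (4 : ℝ) ^ j * 0.6931471803 ≤ 4 ^ j * Real.log 2 :=
    mul_le_mul_of_nonneg_left Real.log_two_gt_d9.le (by positivity)
  have h3 : (0 : ℝ) ≤ 4 ^ j := by positivity
  rw [Cst_ell]
  linarith

theorem log_PP (j : ℕ) : Real.log (PP j) ≤ ell j / 1000 := by
  have h1 : (j : ℝ) + 1 ≤ 4 ^ j := by exact_mod_cast Cst_lt j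
  have h2 : ((j : ℝ) + 1) * Real.log 2 ≤ 4 ^ j * Real.log 2 :=
    mul_le_mul_of_nonneg_right h1 (Real.log_nonneg (by norm_num))
  have h3 : 0 ≤ (j : ℝ) * Real.log 2 := mul_nonneg (by positivity) (Real.log_nonneg (by norm_num))
  have h4 : 0 ≤ Real.log 2 := Real.log_nonneg (by norm_num)
  rw [Cst_ell, PP, Real.log_pow]
  push_cast
  linarith

theorem rho_tendsto : Tendsto rho atTop atTop := by
  refine tendsto_atTop_mono (fun j => ?_) tendsto_natCast_atTop_atTop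
  have h1 : (j : ℝ) + 1 ≤ 4 ^ j := by exact_mod_cast Cst_lt j
  have h2 := Real.add_one_le_exp (ell j)
  have h3 := ell_ge j
  have h4 : (0 : ℝ) ≤ j := by positivity
  rw [exp_ell] at h2
  linarith

lemma Cst_bs (j : ℕ) : bs (j + 1) = bs j + Lb j := rfl

lemma Cst_bs2 (j : ℕ) : bs (j + 2) = bs j + NN j := by
  rw [Cst_bs, Cst_bs, Lb_succ, NN, add_assoc]

lemma Cst_mono : Monotone bs := monotone_nat_of_le_succ fun _ => Nat.le_add_right _ _

theorem layer_cases (l : ℕ) : l = 0 ∨ ∃ j a, 1 ≤ a ∧ a ≤ Mt j ∧ l = bs (j + 1) + a - 1 := by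
  induction l with
  | zero => exact .inl rfl
  | succ l ih =>
    right
    rcases ih with rfl | ⟨j, a, h1, h2, h3⟩
    · exact ⟨0, 1, le_rfl, le_rfl, rfl⟩
    · rcases h2.lt_or_eq with h | h
      · exact ⟨j, a + 1, by omega, h, by omega⟩
      · exact ⟨j + 1, 1, le_rfl, Mt_pos _, by rw [Cst_bs, Lb_succ]; omega⟩

theorem lev_zero : lev 0 = 0 := rfl

theorem lev_mono : Monotone lev := fun _ _ h =>
  Nat.findGreatest_mono (fun _ h' => le_trans h' h) h

theorem lev_block {j a : ℕ} (h1 : 1 ≤ a) (h2 : a ≤ Mt j) : lev (bs (j + 1) + a - 1) = j := by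
  have := le_bs (j + 1)
  refine Nat.findGreatest_eq_iff.2 ⟨by omega, fun _ => by omega, fun n hn _ => ?_⟩
  have h3 : bs (j + 1 + 1) ≤ bs (n + 1) := Cst_mono (by omega)
  rw [Cst_bs, Lb_succ] at h3
  omega

theorem lev_wall {j i : ℕ} (h1 : 1 ≤ i) (h2 : i ≤ NN j) :
    lev (bs j + i - 1) = if i ≤ Lb j then j - 1 else j := by
  split_ifs with h
  · rcases j with _ | j
    · obtain rfl : i = 1 := le_antisymm h h1
      rfl
    · exact lev_block h1 h
  · rw [NN] at h2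
    rw [← lev_block (j := j) (a := i - Lb j) (by omega) (by omega), Cst_bs]
    congr 1
    rw [← Cst_bs, lev_block (by omega) (by omega), Cst_bs]
    omega

theorem lay_eq (e : Nk × Bool) :
    frm.lay e = bs e.1.j + (e.1.k + if e.2 then 1 else 0) - 1 := by
  have := e.1.h1
  change bs e.1.j + e.1.k - 1 + _ = _
  omega

theorem mem_sides_wall {j i : ℕ} (h1 : 1 ≤ i) (h2 : i ≤ NN j) (e : Nk × Bool) :
    e ∈ frm.sides (bs j + i - 1) ↔ (e.1.j = j ∧ (e.1.k + if e.2 then 1 else 0) = i) ∨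
      (i ≤ Lb j ∧ e.1.j + 1 = j ∧ (e.1.k + if e.2 then 1 else 0) = Lb e.1.j + i) ∨
      (Lb j < i ∧ e.1.j = j + 1 ∧ (e.1.k + if e.2 then 1 else 0) + Lb j = i) := by
  rw [frm.mem_sides, ← Frm.lay, lay_eq]
  have h3 : 1 ≤ e.1.k + if e.2 then 1 else 0 := by have := e.1.h1; omega
  have h4 : (e.1.k + if e.2 then 1 else 0) ≤ NN e.1.j := by
    have := e.1.h2; split_ifs <;> omega
  generalize (e.1.k + if e.2 then 1 else 0) = m at h3 h4 ⊢
  generalize e.1.j = q at h4 ⊢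
  rcases (show j = q + 1 ∨ q + 2 ≤ j ∨ q = j ∨ q = j + 1 ∨ j + 2 ≤ q by omega) with
    rfl | h | rfl | rfl | h
  · rw [NN] at h4
    have := Cst_bs q
    have := Lb_succ q
    omega
  · have := Cst_mono h
    rw [Cst_bs2] at this
    omega
  · omega
  · have := Cst_bs j
    omega
  · have := Cst_mono h
    rw [Cst_bs2] at this
    omega

/-- sum over the sides of the neighbouring wall on the local layer `i` of wall `j` -/
def othSum {M : Type} [AddCommMonoid M] (f : Nk × Bool → M) (j i : ℕ) : M :=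
  if i ≤ Lb j then (if j = 0 then 0 else wallSum f (j - 1) (Lb (j - 1) + i))
  else wallSum f (j + 1) (i - Lb j)

variable {M : Type} [AddCommMonoid M] (f : Nk × Bool → M)

lemma Cst_ring (S : Finset (Nk × Bool)) (s : Bool) (j k : ℕ)
    (h : ∀ e, e ∈ S ↔ e.1.j = j ∧ e.1.k = k ∧ e.2 = s) : ∑ e ∈ S, f e = ringSum f s j k := by
  unfold ringSum
  split_ifs with hk
  · symm
    refine sum_bij (fun i _ => (⟨j, k, i, hk.1, hk.2⟩, s)) (fun i _ => (h _).2 ⟨rfl, rfl, rfl⟩)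
      (fun i _ i' _ hi => by simpa using hi) ?_ fun _ _ => rfl
    rintro ⟨⟨j', k', i, h1, h2⟩, s'⟩ he
    obtain ⟨rfl, rfl, rfl⟩ := (h _).1 he
    exact ⟨i, mem_univ _, rfl⟩
  · refine sum_eq_zero fun e he => (hk ?_).elim
    obtain ⟨rfl, rfl, -⟩ := (h _).1 he
    exact ⟨e.1.h1, e.1.h2⟩

lemma Cst_wall (S : Finset (Nk × Bool)) (j i : ℕ)
    (h : ∀ e, e ∈ S ↔ e.1.j = j ∧ (e.1.k + if e.2 then 1 else 0) = i) :
    ∑ e ∈ S, f e = wallSum f j i := by
  rw [← sum_filter_add_sum_filter_not S fun e => e.2 = false, wallSum]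
  congr 1 <;> refine Cst_ring f _ _ _ _ ?_ <;> rintro ⟨ν, _ | _⟩ <;> simp [h]
  have := ν.h1
  omega

theorem sum_sides_wall {j i : ℕ} (h1 : 1 ≤ i) (h2 : i ≤ NN j) :
    ∑ e ∈ frm.sides (bs j + i - 1), f e = wallSum f j i + othSum f j i := by
  rw [← sum_filter_add_sum_filter_not _ fun e => e.1.j = j, othSum]
  congr 1
  · refine Cst_wall f _ _ _ fun e => ?_
    rw [mem_filter, mem_sides_wall h1 h2]
    omega
  · split_ifs with h h0
    · refine sum_eq_zero fun e he => ?_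
      rw [mem_filter, mem_sides_wall h1 h2] at he
      omega
    · refine Cst_wall f _ _ _ fun e => ?_
      rw [mem_filter, mem_sides_wall h1 h2]
      by_cases he : e.1.j = j - 1
      · rw [← he]; omega
      · omega
    · refine Cst_wall f _ _ _ fun e => ?_
      rw [mem_filter, mem_sides_wall h1 h2]
      omega

theorem sum_sides_zero : ∑ e ∈ frm.sides 0, f e = wallSum f 0 1 :=
  (sum_sides_wall f (j := 0) (i := 1) le_rfl (by decide)).trans (add_zero _)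

theorem sum_sides_block {j a : ℕ} (h1 : 1 ≤ a) (h2 : a ≤ Mt j) :
    ∑ e ∈ frm.sides (bs (j + 1) + a - 1), f e = wallSum f j (Lb j + a) + wallSum f (j + 1) a := by
  rw [sum_sides_wall f h1 (h2.trans (Nat.le_add_right _ _)), add_comm, othSum,
    if_pos (show a ≤ Lb (j + 1) from h2), if_neg (Nat.succ_ne_zero j)]
  rfl

lemma Cst_rc {f g : Nk × Bool → M} {s : Bool} {j : ℕ} (k : ℕ)
    (h : ∀ e, e.1.j = j → e.2 = s → f e = g e) : ringSum f s j k = ringSum g s j k := by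
  unfold ringSum
  split_ifs
  · exact sum_congr rfl fun _ _ => h _ rfl rfl
  · rfl

lemma Cst_oc {f g : Nk × Bool → M} {j : ℕ} (i : ℕ) (h : ∀ e, e.1.j ≠ j → f e = g e) :
    othSum f j i = othSum g j i := by
  unfold othSum wallSum
  split_ifs with h1 h2
  · rfl
  all_goals congr 1 <;> exact Cst_rc _ fun e he _ => h e (by omega)

open Classical in
lemma Cst_oth (ν : Nk) (s : Bool) (i : ℕ) (hi : (ν.k + if s then 1 else 0) = i) :
    ∑ μ ∈ frm.oth (ν, s), f μ =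
      wallSum (fun μ => if μ = (ν, s) then 0 else f μ) ν.j i + othSum f ν.j i := by
  have h1 := ν.h1
  have h2 := ν.h2
  rw [← Cst_oc (f := fun μ => if μ = (ν, s) then 0 else f μ) i
      fun e he => if_neg (by rintro rfl; exact he rfl),
    ← sum_sides_wall _ (by omega) (by split_ifs at hi <;> omega), Frm.oth, lay_eq, ← hi,
    ← sum_erase (f := fun μ => if μ = (ν, s) then 0 else f μ) (a := (ν, s)) _ (if_pos rfl)]
  exact sum_congr rfl fun μ hμ => (if_neg (ne_of_mem_erase hμ)).symm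

open Classical in
lemma Cst_own (ν : Nk) (s : Bool) :
    ringSum (fun μ => if μ = (ν, s) then 0 else f μ) s ν.j ν.k =
      ∑ i ∈ univ.erase ν.i, f (⟨ν.j, ν.k, i, ν.h1, ν.h2⟩, s) := by
  rw [ringSum, dif_pos ⟨ν.h1, ν.h2⟩]
  rw [← add_sum_erase _ _ (mem_univ ν.i), if_pos rfl, zero_add]
  refine sum_congr rfl fun i hi => if_neg fun h => ne_of_mem_erase hi ?_
  obtain ⟨j, k, i', h1, h2⟩ := ν
  simpa using h

theorem sum_oth_false (ν : Nk) : ∑ μ ∈ frm.oth (ν, false), f μ =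
    ∑ i ∈ univ.erase ν.i, f (⟨ν.j, ν.k, i, ν.h1, ν.h2⟩, false) + ringSum f true ν.j (ν.k - 1) +
      othSum f ν.j ν.k := by
  rw [Cst_oth f ν false ν.k rfl, wallSum, Cst_own,
    Cst_rc (g := f) _ fun e _ he => if_neg (by rintro rfl; simp at he)]

theorem sum_oth_true (ν : Nk) : ∑ μ ∈ frm.oth (ν, true), f μ =
    ∑ i ∈ univ.erase ν.i, f (⟨ν.j, ν.k, i, ν.h1, ν.h2⟩, true) + ringSum f false ν.j (ν.k + 1) +
      othSum f ν.j (ν.k + 1) := by
  rw [Cst_oth f ν true (ν.k + 1) rfl, wallSum, Nat.add_sub_cancel, Cst_own,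
    Cst_rc (g := f) _ fun e _ he => if_neg (by rintro rfl; simp at he), add_comm (ringSum _ _ _ _)]

lemma Cst_r1 (s : Bool) (j k : ℕ) : ringSum (fun _ => (1 : ℝ)) s j k ≤ nn j := by
  unfold ringSum
  split_ifs <;> simp

lemma Cst_w1 (j i : ℕ) : wallSum (fun _ => (1 : ℝ)) j i ≤ 2 * nn j := by
  rw [wallSum, two_mul]
  exact add_le_add (Cst_r1 _ _ _) (Cst_r1 _ _ _)

theorem card_sides (l : ℕ) : ((frm.sides l).card : ℝ) ≤ PP (lev l) := by
  rw [Finset.card_eq_sum_ones]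
  push_cast
  rcases layer_cases l with rfl | ⟨j, a, h1, h2, rfl⟩
  · have h1 := Cst_w1 0 1
    have h2 := PP_ge (lev 0)
    rw [nn_zero] at h1
    rw [sum_sides_zero]
    push_cast at h1
    linarith
  · have h3 := Cst_w1 j (Lb j + a)
    have h4 := Cst_w1 (j + 1) a
    have h5 : (nn j : ℝ) ≤ nn (j + 1) := by exact_mod_cast nn_mono j
    have h6 := nn_le_PP j
    have h7 : (0 : ℝ) ≤ nn (j + 1) := by positivity
    rw [sum_sides_block _ h1 h2, lev_block h1 h2]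
    linarith

end Pool.Agent.MP_943ae2_gt
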