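import Mathlib

/-! Definitions used in the statement: minimal surfaces in `ℝ³`, the Laplace–Beltrami operator of
the induced metric, ends. -/

open scoped Manifold ContDiff RealInnerProductSpace
open Set

noncomputable section

namespace Pool.Agent.MP_943ae2_gt

abbrev E2 := EuclideanSpace ℝ (Fin 2)
abbrev E3 := EuclideanSpace ℝ (Fin 3)

/-- Partial derivative `∂ᵢ g` at `x`. -/
def pd {F : Type} [NormedAddCommGroup F] [NormedSpace ℝ F] (g : E2 → F) (i : Fin 2) (x : E2) : F :=
  fderiv ℝ g x (EuclideanSpace.single i 1)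

section
variable {M : Type} [TopologicalSpace M] [ChartedSpace E2 M]

/-- The coordinates of `p` in the chart at `p`. -/
def ctr (p : M) : E2 := chartAt E2 p p

/-- The map `f` read in the chart at `p`. -/
def loc {F : Type} (f : M → F) (p : M) : E2 → F := f ∘ (chartAt E2 p).symm

/-- Coefficients `g_ij` of the metric induced by `f`, in the chart at `p`, at the point `x`. -/
def met (f : M → E3) (p : M) (i j : Fin 2) (x : E2) : ℝ := ⟪pd (loc f p) i x, pd (loc f p) j x⟫

/-- The area density `√(det g)` in the chart at `p`. -/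
def dens (f : M → E3) (p : M) (x : E2) : ℝ := √(met f p 0 0 x * met f p 1 1 x - met f p 0 1 x ^ 2)

/-- Coefficients of the second fundamental form of `f` at `p` with respect to the vector `N`. -/
def sff (f : M → E3) (p : M) (N : E3) (i j : Fin 2) : ℝ := ⟪pd (pd (loc f p) i) j (ctr p), N⟫

/-- `f` is a smooth immersion whose mean curvature `(e G - 2 f F + g E) / (2 (E G - F²))`
vanishes at every point, for every normal vector. -/
structure IsMinimal (f : M → E3) : Prop where
  smooth : ContMDiff (𝓡 2) (𝓡 3) ∞ f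
  immersion : ∀ p, LinearIndependent ℝ fun i => pd (loc f p) i (ctr p)
  mean : ∀ p N, (∀ i, ⟪pd (loc f p) i (ctr p), N⟫ = 0) →
    sff f p N 0 0 * met f p 1 1 (ctr p) - 2 * sff f p N 0 1 * met f p 0 1 (ctr p) +
      sff f p N 1 1 * met f p 0 0 (ctr p) = 0

/-- The Laplace–Beltrami operator `(1/√g) ∂ᵢ (√g g^{ij} ∂ⱼ u)` of the metric induced by `f`,
applied to `u`, at `p`. -/
def lapBel (f : M → E3) (u : M → ℝ) (p : M) : ℝ :=
  (pd (fun x => (met f p 1 1 x * pd (loc u p) 0 x - met f p 0 1 x * pd (loc u p) 1 x) / dens f p x)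
      0 (ctr p) +
    pd (fun x => (met f p 0 0 x * pd (loc u p) 1 x - met f p 0 1 x * pd (loc u p) 0 x) / dens f p x)
      1 (ctr p)) / dens f p (ctr p)

end

/-- An end of `M`: for every compact `K` a connected component `e K` of `M ∖ K` that is unbounded
(its closure is not compact), decreasing in `K`. -/
def IsEnd {M : Type} [TopologicalSpace M] (e : Set M → Set M) : Prop :=
  (∀ K, IsCompact K → (∃ x ∉ K, e K = connectedComponentIn Kᶜ x) ∧ ¬ IsCompact (closure (e K))) ∧
    ∀ K K', IsCompact K → IsCompact K' → K ⊆ K' → e K' ⊆ e K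

/-- `M` has at least two ends. -/
def TwoEnds (M : Type) [TopologicalSpace M] : Prop :=
  ∃ e e' : Set M → Set M, IsEnd e ∧ IsEnd e' ∧ ∃ K, IsCompact K ∧ e K ≠ e' K

end Pool.Agent.MP_943ae2_gt
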