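import Pool.Agent.MP_943ae2_gt.Mat

open Set Complex Filter
open scoped Topology ComplexConjugate ContDiff

noncomputable section

namespace Pool.Agent.MP_943ae2_gt

variable {ι : Type} {F : Frm ι} {d : Dat ι} {C : ℕ → ℝ}

lemma emb1_log1 {x y m : ℝ} (hm : 0 < m) (hx : m ≤ x) (hy : m ≤ y) :
    Real.log x - Real.log y ≤ |x - y| / m := by
  have hx0 : 0 < x := hm.trans_le hx
  have hy0 : 0 < y := hm.trans_le hy
  rw [← Real.log_div hx0.ne' hy0.ne']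
  refine (Real.log_le_sub_one_of_pos (div_pos hx0 hy0)).trans ?_
  have e : x / y - 1 = (x - y) / y := by field_simp
  rw [e]
  exact (div_le_div_of_nonneg_right (le_abs_self _) hy0.le).trans
    (div_le_div_of_nonneg_left (abs_nonneg _) hm hy)

lemma emb1_log {x y m : ℝ} (hm : 0 < m) (hx : m ≤ x) (hy : m ≤ y) :
    |Real.log x - Real.log y| ≤ |x - y| / m := by
  refine abs_le.2 ⟨?_, emb1_log1 hm hx hy⟩
  have := emb1_log1 hm hy hx
  rw [abs_sub_comm] at this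
  linarith

lemma emb1_norm (x y p : ℂ) : |‖x - p‖ - ‖y - p‖| ≤ ‖y - x‖ := by
  have := abs_norm_sub_norm_le (x - p) (y - p)
  rwa [sub_sub_sub_cancel_right, norm_sub_rev x y] at this

lemma emb1_pow {x : ℝ} (h0 : 0 < x) (h1 : x ≤ 1 / 1000) (n m : ℕ) :
    1000 * x ^ (n + 1 + m) ≤ x ^ n := by
  have h2 : x ^ m ≤ 1 := pow_le_one₀ h0.le (by linarith)
  have h3 : 0 < x ^ n := pow_pos h0 n
  have h4 : 1000 * x * x ^ m ≤ 1 := by
    have := mul_le_mul_of_nonneg_left h2 (by linarith : 0 ≤ 1000 * x)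
    linarith
  calc 1000 * x ^ (n + 1 + m) = x ^ n * (1000 * x * x ^ m) := by ring
    _ ≤ x ^ n * 1 := mul_le_mul_of_nonneg_left h4 h3.le
    _ = x ^ n := mul_one _

/-- the contribution of one side to the difference of the height and its model -/
def emb1T (F : Frm ι) (d : Dat ι) (e : ι × Bool) (z y : ℂ) : ℝ :=
  (F.prim d (F.ab d (F.lay e)) e z).re +
    (F.rab d e).re * (Real.log ‖z - d.pos e‖ - Real.log (max ‖y - d.pos e‖ (F.Rs e)))

lemma emb1_sum (k : ℕ) (z y : ℂ) :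
    C k + F.h0 d k z - F.Ut d C k y = ∑ e ∈ F.sides k, emb1T F d e z y := by
  unfold Frm.h0 Frm.Ut
  rw [add_sub_add_left_eq_sub, ← Finset.sum_sub_distrib]
  refine Finset.sum_congr rfl fun e he => ?_
  unfold emb1T
  rw [mem_sides_iff.1 he]
  ring

namespace Frm.Adm

section

variable (h : F.Adm d)
include h

lemma emb1_u (e : ι × Bool) : (1000 : ℝ) ≤ (F.t e.1)⁻¹ := by
  have := inv_anti₀ (h.t_pos e.1) (h.t_small e.1)
  simpa using this

lemma emb1_u3 (e : ι × Bool) : (F.t e.1)⁻¹ ^ 3 ≤ F.Rs e :=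
  pow_le_pow_right₀ (by linarith [h.emb1_u e]) (by norm_num)

lemma emb1_bRs (e : ι × Bool) : ‖d.bet e‖ ≤ F.Rs e := by
  refine (h.bet_le e).trans ?_
  have := pow_le_pow_right₀ (a := (F.t e.1)⁻¹) (by linarith [h.emb1_u e])
    (by norm_num : 1 ≤ 12)
  rwa [pow_one] at this

lemma emb1_RsR (e : ι × Bool) : F.Rs e ≤ F.R e :=
  pow_le_pow_right₀ (by linarith [h.emb1_u e]) (by norm_num)

lemma emb1_bR (e : ι × Bool) : ‖d.bet e‖ < F.R e := by
  refine (h.bet_le e).trans_lt ?_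
  have := pow_lt_pow_right₀ (a := (F.t e.1)⁻¹) (by linarith [h.emb1_u e])
    (by norm_num : 1 < 16)
  rwa [pow_one] at this

lemma emb1_b2 (e : ι × Bool) : ‖d.bet e‖ ^ 2 / F.R e < ‖d.bet e‖ := by
  have h1 := h.bet_pos e
  rw [div_lt_iff₀ (h.R_pos e), sq]
  exact mul_lt_mul_of_pos_left (h.emb1_bR e) h1

lemma emb1_b14 (e : ι × Bool) : ‖d.bet e‖ ^ 2 / F.R e ≤ F.t e.1 ^ 14 := by
  have h1 := h.t_pos e.1
  rw [div_le_iff₀ (h.R_pos e)]
  refine (pow_le_pow_left₀ (norm_nonneg _) (h.bet_le e) 2).trans (le_of_eq ?_)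
  unfold Frm.R
  field_simp

lemma emb1_prim (e : ι × Bool) {z : ℂ} (hz : ‖d.bet e‖ ≤ ‖z - d.pos e‖) :
    |(F.prim d (F.ab d (F.lay e)) e z).re| ≤ F.T (F.lay e) ^ 8 := by
  have h1 := h.bet_pos e
  have h2 := h.R_pos e
  have h3 := h.t_pos e.1
  refine (abs_re_le_norm _).trans ((h.prim_ab e ((h.emb1_b2 e).le.trans hz)).trans ?_)
  have h4 : 5 * ‖d.bet e‖ ^ 3 / (F.R e * ‖z - d.pos e‖) ≤
      5 * ‖d.bet e‖ ^ 3 / (F.R e * ‖d.bet e‖) :=
    div_le_div_of_nonneg_left (by positivity) (by positivity)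
      (mul_le_mul_of_nonneg_left hz h2.le)
  have h5 : 5 * ‖d.bet e‖ ^ 3 / (F.R e * ‖d.bet e‖) = 5 * (‖d.bet e‖ ^ 2 / F.R e) := by
    field_simp
  have h6 := h.emb1_b14 e
  have h7 := emb1_pow h3 (h.t_small e.1) 8 5
  have h8 : F.t e.1 ^ 8 ≤ F.T (F.lay e) ^ 8 := pow_le_pow_left₀ h3.le (h.t_le e) 8
  have h9 : 0 < F.t e.1 ^ 14 := pow_pos h3 14
  norm_num at h7
  linarith

/-- a side that is far from the point -/
lemma emb1_far (e : ι × Bool) {z y : ℂ} (hz : F.Rs e ≤ ‖z - d.pos e‖)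
    (hy : ‖y - z‖ ≤ (F.T (F.lay e))⁻¹ ^ 3) : |emb1T F d e z y| ≤ 3 * F.T (F.lay e) ^ 8 := by
  have h1 := h.emb1_prim e ((h.emb1_bRs e).trans hz)
  have h2 := h.Rs_pos e
  have h3 := h.t_pos e.1
  have hT := h.T_pos (F.lay e)
  have h4 := emb1_log h2 hz (le_max_right ‖y - d.pos e‖ (F.Rs e))
  have h5 : |‖z - d.pos e‖ - max ‖y - d.pos e‖ (F.Rs e)| ≤ (F.T (F.lay e))⁻¹ ^ 3 := by
    have h6 := abs_max_sub_max_le_abs ‖z - d.pos e‖ ‖y - d.pos e‖ (F.Rs e)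
    rw [max_eq_left hz] at h6
    exact h6.trans ((emb1_norm z y _).trans hy)
  have h6 : (F.T (F.lay e))⁻¹ ^ 12 ≤ F.Rs e :=
    pow_le_pow_left₀ (inv_pos.2 hT).le (inv_anti₀ h3 (h.t_le e)) 12
  have h7 : |Real.log ‖z - d.pos e‖ - Real.log (max ‖y - d.pos e‖ (F.Rs e))| ≤
      F.T (F.lay e) ^ 9 := by
    refine h4.trans ((div_le_div₀ (by positivity) h5 (by positivity) h6).trans (le_of_eq ?_))
    field_simp
  have h8 : |(F.rab d e).re| ≤ 2 * (F.T (F.lay e))⁻¹ := by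
    have := h.rab_le e
    have := h.b_le e
    linarith
  have h9 := mul_le_mul h8 h7 (abs_nonneg _) (by positivity)
  have h10 : 2 * (F.T (F.lay e))⁻¹ * F.T (F.lay e) ^ 9 = 2 * F.T (F.lay e) ^ 8 := by
    field_simp
  unfold emb1T
  refine (abs_add_le _ _).trans ?_
  rw [abs_mul]
  linarith

lemma emb1_card {k : ℕ} {s : Finset (ι × Bool)} (hs : s ⊆ F.sides k) {f : ι × Bool → ℝ}
    (hf : ∀ e ∈ s, |f e| ≤ 3 * F.T k ^ 8) : |∑ e ∈ s, f e| ≤ 3 * F.T k ^ 7 := by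
  have hT := h.T_pos k
  refine (Finset.abs_sum_le_sum_abs _ _).trans ((Finset.sum_le_card_nsmul _ _ _ hf).trans ?_)
  rw [nsmul_eq_mul]
  have h1 : (s.card : ℝ) ≤ (F.T k)⁻¹ :=
    le_trans (by exact_mod_cast Finset.card_le_card hs) (h.card k)
  refine (mul_le_mul_of_nonneg_right h1 (by positivity)).trans (le_of_eq ?_)
  field_simp

lemma emb1_away {e μ : ι × Bool} (hμ : μ ∈ F.oth e) {z : ℂ} (hz : ‖z - d.pos e‖ < 4 * F.R e) :
    ‖d.pos e - d.pos μ‖ / 2 ≤ ‖z - d.pos μ‖ ∧ F.Rs μ ≤ ‖z - d.pos μ‖ := by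
  have h1 := (h.arg_lt hμ hz).1
  rw [add_sub_cancel] at h1
  have h2 := h.sep' hμ
  have h3 := h.emb1_RsR μ
  have h4 := h.R_pos μ
  exact ⟨h1, by linarith⟩

/-- the other sides seen from a neighbourhood of a side -/
lemma emb1_lam (e : ι × Bool) {z y : ℂ} (hz : ‖z - d.pos e‖ ≤ F.Rs e)
    (hy : ‖y - d.pos e‖ ≤ 3 * F.Rs e) : |∑ μ ∈ F.oth e, emb1T F d μ z y| ≤ F.t e.1 ^ 6 := by
  have h1 := h.emb1_RsR e
  have h2 := h.R_pos e
  have h3 := h.Rs_pos e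
  have ht := h.t_pos e.1
  have hRs : 1 ≤ F.Rs e := one_le_pow₀ (by linarith [h.emb1_u e])
  have h4 : ‖y - z‖ ≤ 4 * F.Rs e := by
    have := norm_sub_le (y - d.pos e) (z - d.pos e)
    rw [sub_sub_sub_cancel_right] at this
    linarith
  have key : ∀ μ ∈ F.oth e, |emb1T F d μ z y| ≤
      26 * F.Rs e * (‖d.bet μ‖ / ‖d.pos e - d.pos μ‖) := by
    intro μ hμ
    obtain ⟨a1, a2⟩ := h.emb1_away hμ (z := z) (by linarith)
    obtain ⟨b1, b2⟩ := h.emb1_away hμ (z := y) (by linarith)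
    have hR := h.R_pos μ
    have hb := h.bet_pos μ
    have hD : 0 < ‖d.pos e - d.pos μ‖ := by linarith [h.sep' hμ]
    have hq : 0 ≤ ‖d.bet μ‖ / ‖d.pos e - d.pos μ‖ := by positivity
    have c1 : |(F.prim d (F.ab d (F.lay μ)) μ z).re| ≤
        10 * (‖d.bet μ‖ / ‖d.pos e - d.pos μ‖) := by
      refine (abs_re_le_norm _).trans ((h.prim_ab μ
        ((h.emb1_b2 μ).le.trans ((h.emb1_bRs μ).trans a2))).trans ?_)
      have c2 : 5 * ‖d.bet μ‖ ^ 3 / (F.R μ * ‖z - d.pos μ‖) ≤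
          5 * ‖d.bet μ‖ ^ 3 / (F.R μ * (‖d.pos e - d.pos μ‖ / 2)) :=
        div_le_div_of_nonneg_left (by positivity) (by positivity)
          (mul_le_mul_of_nonneg_left a1 hR.le)
      have c3 : 5 * ‖d.bet μ‖ ^ 3 / (F.R μ * (‖d.pos e - d.pos μ‖ / 2)) =
          10 * (‖d.bet μ‖ / ‖d.pos e - d.pos μ‖) * (‖d.bet μ‖ ^ 2 / F.R μ) := by
        field_simp
        ring
      have c4 : ‖d.bet μ‖ ^ 2 / F.R μ ≤ 1 :=
        (h.emb1_b14 μ).trans (pow_le_one₀ (h.t_pos _).le (by linarith [h.t_small μ.1]))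
      have c5 := mul_le_mul_of_nonneg_left c4
        (by positivity : 0 ≤ 10 * (‖d.bet μ‖ / ‖d.pos e - d.pos μ‖))
      linarith
    have c6 : |Real.log ‖z - d.pos μ‖ - Real.log ‖y - d.pos μ‖| ≤
        4 * F.Rs e / (‖d.pos e - d.pos μ‖ / 2) :=
      (emb1_log (half_pos hD) a1 b1).trans
        (div_le_div_of_nonneg_right ((emb1_norm z y _).trans h4) (half_pos hD).le)
    have c7 := mul_le_mul (h.rab_le μ) c6 (abs_nonneg _) (by positivity)
    have c8 : 2 * ‖d.bet μ‖ * (4 * F.Rs e / (‖d.pos e - d.pos μ‖ / 2)) =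
        16 * F.Rs e * (‖d.bet μ‖ / ‖d.pos e - d.pos μ‖) := by
      field_simp
      ring
    have c9 := mul_le_mul_of_nonneg_right hRs hq
    unfold emb1T
    refine (abs_add_le _ _).trans ?_
    rw [abs_mul, max_eq_left b2]
    linarith
  refine (Finset.abs_sum_le_sum_abs _ _).trans ((Finset.sum_le_sum key).trans ?_)
  rw [← Finset.mul_sum]
  refine (mul_le_mul_of_nonneg_left (h.lam e) (by positivity)).trans ?_
  have h5 : 26 * F.Rs e * F.t e.1 ^ 30 = 26 * F.t e.1 ^ 18 := by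
    unfold Frm.Rs
    field_simp
  have h6 := emb1_pow ht (h.t_small e.1) 6 11
  have h7 : 0 < F.t e.1 ^ 18 := pow_pos ht 18
  norm_num at h6
  linarith

end

variable (h : F.Adm d) (hs : F.Sol d C)
include h hs

theorem height_far {k : ℕ} {z : ℂ} (hz : z ∈ F.Far d k) :
    |C k + F.h0 d k z - F.Ut d C k (F.H d k z)| ≤ F.T k ^ 6 := by
  have h1 := h.H_near hs (h.Far_sub k hz)
  rw [emb1_sum]
  refine (h.emb1_card (k := k) subset_rfl fun e he => ?_).trans ?_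
  · have hk := mem_sides_iff.1 he
    have h2 := h.emb1_far e (y := F.H d k z) (hz e he) (by rw [hk]; exact h1)
    rwa [hk] at h2
  · have h6 := emb1_pow (h.T_pos k) (h.T_le k) 6 0
    have h7 : 0 < F.T k ^ 7 := pow_pos (h.T_pos k) 7
    norm_num at h6
    linarith

/-- comparison with the model of the same layer near a side -/
lemma emb1_own (e : ι × Bool) {z : ℂ} (hz : z ∈ F.Ub d (F.lay e))
    (hn : ‖z - d.pos e‖ < F.Rs e) : ∃ N : ℝ, 0 ≤ N ∧
      |C (F.lay e) + F.h0 d (F.lay e) z - F.Ut d C (F.lay e) (F.H d (F.lay e) z) +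
        (F.rab d e).re * N| ≤ F.T (F.lay e) ^ 6 := by
  have h1 := h.H_near hs hz
  have hb := hz e (self_mem_sides e)
  have hT := h.T_pos (F.lay e)
  refine ⟨Real.log (max ‖F.H d (F.lay e) z - d.pos e‖ (F.Rs e)) - Real.log ‖z - d.pos e‖,
    sub_nonneg.2 (Real.log_le_log ((h.bet_pos e).trans_le hb)
      (hn.le.trans (le_max_right _ _))), ?_⟩
  rw [emb1_sum, sum_sides_split]
  have h2 := h.emb1_prim e hb
  have h3 : |∑ μ ∈ F.oth e, emb1T F d μ z (F.H d (F.lay e) z)| ≤ 3 * F.T (F.lay e) ^ 7 := by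
    refine h.emb1_card (fun μ hμ => mem_sides_iff.2 (mem_oth.1 hμ).2) fun μ hμ => ?_
    have hk := (mem_oth.1 hμ).2
    have h4 := (h.emb1_away hμ (z := z) (by linarith [h.emb1_RsR e, h.R_pos e])).2
    have h5 := h.emb1_far μ (y := F.H d (F.lay e) z) h4 (by rw [hk]; exact h1)
    rwa [hk] at h5
  have h6 := emb1_pow hT (h.T_le _) 6 0
  have h7 := emb1_pow hT (h.T_le _) 7 0
  have h8 : 0 < F.T (F.lay e) ^ 8 := pow_pos hT 8
  norm_num at h6 h7
  obtain ⟨a1, a2⟩ := abs_le.1 h2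
  obtain ⟨b1, b2⟩ := abs_le.1 h3
  unfold emb1T at *
  rw [abs_le]
  constructor <;> linarith

/-- comparison with the model of the other layer near a side -/
lemma emb1_other (e : ι × Bool) {z : ℂ} (hz : z ∈ F.Ub d (F.lay e))
    (hn : ‖z - d.pos e‖ < F.Rs e) : ∃ N : ℝ, 1 ≤ N ∧
      |C (F.lay e) + F.h0 d (F.lay e) z - F.Ut d C (F.lay (opp e)) (F.H d (F.lay e) z) +
        (F.rab d (opp e)).re * N| ≤ F.T (F.lay e) ^ 6 + ‖d.bet e‖ / 2 := by
  have h1 := h.H_near hs hz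
  have hb := hz e (self_mem_sides e)
  have hβ := h.bet_pos e
  have ht := h.t_pos e.1
  have hR := h.R_pos e
  have hRs := h.Rs_pos e
  have hv : 0 < ‖z - d.pos e‖ := hβ.trans_le hb
  have hm := h.matching hs e ((h.emb1_b2 e).trans_le hb) (hn.trans_le (h.emb1_RsR e))
  rw [add_sub_cancel] at hm
  obtain ⟨-, m2⟩ := X_eq_iff.1 hm
  have hw := norm_par_sub (d := d) e (z - d.pos e)
  generalize d.par e (z - d.pos e) = z' at m2 hw
  generalize F.H d (F.lay e) z = y at h1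
  have w1 : ‖z' - d.pos (opp e)‖ ≤ ‖d.bet e‖ := by
    rw [hw, div_le_iff₀ hv, sq]
    exact mul_le_mul_of_nonneg_left hb hβ.le
  have w2 : ‖d.bet e‖ ^ 2 / F.Rs e ≤ ‖z' - d.pos (opp e)‖ := by
    rw [hw]
    exact div_le_div_of_nonneg_left (by positivity) hv hn.le
  have w3 : 0 < ‖z' - d.pos (opp e)‖ := lt_of_lt_of_le (by positivity) w2
  have y1 : ‖y - d.pos (opp e)‖ ≤ 3 * F.Rs e := by
    have a1 : ‖y - d.pos (opp e)‖ ≤ ‖y - z‖ + ‖z - d.pos e‖ + ‖d.pos e - d.pos (opp e)‖ := by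
      have := norm_add₃_le (a := y - z) (b := z - d.pos e) (c := d.pos e - d.pos (opp e))
      rwa [sub_add_sub_cancel, sub_add_sub_cancel] at this
    have a2 : (F.T (F.lay e))⁻¹ ^ 3 ≤ (F.t e.1)⁻¹ ^ 3 :=
      pow_le_pow_left₀ (inv_pos.2 (h.T_pos _)).le (inv_anti₀ ht (h.t_le e)) 3
    have a3 := h.pq e
    have a4 := h.emb1_u3 e
    linarith
  have h2 := h.emb1_lam (opp e) (z := z') (y := y) (w1.trans (h.emb1_bRs e)) y1
  have h3 : F.t e.1 ^ 6 ≤ F.T (F.lay e) ^ 6 := pow_le_pow_left₀ ht.le (h.t_le e) 6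
  have h4 : |(F.prim d (F.ab d (F.lay (opp e))) (opp e) z').re| ≤ ‖d.bet e‖ / 2 := by
    have a1 := h.prim_ab (opp e) (z := z') (by
      rw [norm_bet_opp, R_opp]
      exact (div_le_div_of_nonneg_left (by positivity) hRs (h.emb1_RsR e)).trans w2)
    rw [norm_bet_opp, R_opp] at a1
    have a2 : 5 * ‖d.bet e‖ ^ 3 / (F.R e * ‖z' - d.pos (opp e)‖) ≤
        5 * ‖d.bet e‖ ^ 3 / (F.R e * (‖d.bet e‖ ^ 2 / F.Rs e)) :=
      div_le_div_of_nonneg_left (by positivity) (by positivity)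
        (mul_le_mul_of_nonneg_left w2 hR.le)
    have a3 : 5 * ‖d.bet e‖ ^ 3 / (F.R e * (‖d.bet e‖ ^ 2 / F.Rs e)) =
        ‖d.bet e‖ * (5 * F.t e.1 ^ 4) := by
      unfold Frm.R Frm.Rs
      field_simp
    have a4 := emb1_pow ht (h.t_small e.1) 0 3
    norm_num at a4
    have a5 := mul_le_mul_of_nonneg_left (by linarith : 5 * F.t e.1 ^ 4 ≤ 1 / 2) hβ.le
    refine (abs_re_le_norm _).trans ?_
    linarith
  refine ⟨Real.log (max ‖y - d.pos (opp e)‖ (F.Rs (opp e))) - Real.log ‖z' - d.pos (opp e)‖,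
    ?_, ?_⟩
  · have a0 := h.emb1_u e
    have a1 : Real.log ‖z' - d.pos (opp e)‖ ≤ Real.log (F.t e.1)⁻¹ :=
      Real.log_le_log w3 (w1.trans (h.bet_le e))
    have a2 : Real.log (F.Rs e) ≤ Real.log (max ‖y - d.pos (opp e)‖ (F.Rs (opp e))) :=
      Real.log_le_log hRs (le_max_right _ _)
    have a3 : Real.log (F.Rs e) = 12 * Real.log (F.t e.1)⁻¹ := by
      unfold Frm.Rs
      rw [Real.log_pow]
      norm_num
    have a4 := Real.one_sub_inv_le_log_of_pos (inv_pos.2 ht)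
    rw [inv_inv] at a4
    have a5 := h.t_small e.1
    linarith
  · rw [m2, emb1_sum, sum_sides_split]
    obtain ⟨a1, a2⟩ := abs_le.1 h2
    obtain ⟨b1, b2⟩ := abs_le.1 h4
    rw [opp_fst] at a1 a2
    unfold emb1T at *
    rw [abs_le]
    constructor <;> linarith

theorem height_lo (ν : ι) {z : ℂ} (hz : z ∈ F.Ub d (F.gap ν))
    (hn : ‖z - d.pos (ν, false)‖ < F.Rs (ν, false)) :
    F.Ut d C (F.gap ν) (F.H d (F.gap ν) z) - F.T (F.gap ν) ^ 6 ≤ C (F.gap ν) + F.h0 d (F.gap ν) z ∧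
      C (F.gap ν) + F.h0 d (F.gap ν) z ≤
        F.Ut d C (F.gap ν + 1) (F.H d (F.gap ν) z) + F.T (F.gap ν) ^ 6 := by
  have hz' : z ∈ F.Ub d (F.lay (ν, false)) := by rwa [lay_false]
  obtain ⟨N, hN, h1⟩ := h.emb1_own hs (ν, false) hz' hn
  obtain ⟨M, hM, h2⟩ := h.emb1_other hs (ν, false) hz' hn
  rw [opp_false, lay_true, bet_false] at h2
  rw [lay_false] at h1 h2
  have a1 := h.rab_lo ν
  have a2 := h.rab_up ν
  have a3 := norm_nonneg (d.2 ν)
  have a4 := mul_nonneg (by linarith : 0 ≤ -(F.rab d (ν, false)).re) hN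
  have a5 := mul_le_mul_of_nonneg_left hM (by linarith : 0 ≤ (F.rab d (ν, true)).re)
  have b1 := (abs_le.1 h1).1
  have b2 := (abs_le.1 h2).2
  constructor <;> linarith

theorem height_up (ν : ι) {z : ℂ} (hz : z ∈ F.Ub d (F.gap ν + 1))
    (hn : ‖z - d.pos (ν, true)‖ < F.Rs (ν, true)) :
    F.Ut d C (F.gap ν) (F.H d (F.gap ν + 1) z) - F.T (F.gap ν + 1) ^ 6 ≤
        C (F.gap ν + 1) + F.h0 d (F.gap ν + 1) z ∧
      C (F.gap ν + 1) + F.h0 d (F.gap ν + 1) z ≤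
        F.Ut d C (F.gap ν + 1) (F.H d (F.gap ν + 1) z) + F.T (F.gap ν + 1) ^ 6 := by
  have hz' : z ∈ F.Ub d (F.lay (ν, true)) := by rwa [lay_true]
  obtain ⟨N, hN, h1⟩ := h.emb1_own hs (ν, true) hz' hn
  obtain ⟨M, hM, h2⟩ := h.emb1_other hs (ν, true) hz' hn
  rw [opp_true, lay_false, norm_bet] at h2
  rw [lay_true] at h1 h2
  have a1 := h.rab_lo ν
  have a2 := h.rab_up ν
  have a3 := norm_nonneg (d.2 ν)
  have a4 := mul_nonneg (by linarith : 0 ≤ (F.rab d (ν, true)).re) hN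
  have a5 := mul_le_mul_of_nonneg_left hM (by linarith : 0 ≤ -(F.rab d (ν, false)).re)
  have b1 := (abs_le.1 h1).2
  have b2 := (abs_le.1 h2).1
  constructor <;> linarith

end Frm.Adm

end Pool.Agent.MP_943ae2_gt
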