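import Pool.Agent.MP_943ae2_gt.Prim

open Set Complex Filter
open scoped Topology ComplexConjugate ContDiff

noncomputable section

namespace Pool.Agent.MP_943ae2_gt

variable {ι : Type} {F : Frm ι} {d : Dat ι} {π : ι ≃ ι} {u : ℂ}

/-- a rotation, possibly composed with complex conjugation -/
structure EquiSym (d : Dat ι) (π : ι ≃ ι) (u : ℂ) (σ : ℂ →+* ℂ) : Prop where
  unit : ‖u‖ = 1
  alt : σ = RingHom.id ℂ ∨ σ = starRingEnd ℂ
  pos : ∀ e, d.pos (sd π e) = u * σ (d.pos e)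
  bet : ∀ e, d.bet (sd π e) = σ (d.bet e)

lemma equi_res_eq (f : ℂ → ℂ) (c : ℂ) (r : ℝ) :
    (2 * Real.pi * I)⁻¹ * ∮ ζ in C(c, r), f ζ = Real.circleAverage (fun ζ => (ζ - c) * f ζ) c r := by
  have e : ∮ ζ in C(c, r), f ζ =
      I * ∫ θ in (0 : ℝ)..2 * Real.pi, (circleMap c r θ - c) * f (circleMap c r θ) := by
    rw [circleIntegral, ← intervalIntegral.integral_const_mul]
    congr with θ
    simp only [deriv_circleMap, circleMap_sub_center, smul_eq_mul]
    ring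
  rw [e, Real.circleAverage, real_smul]
  have := Real.pi_ne_zero
  push_cast
  field_simp

lemma equi_avg_rot {E : Type} [NormedAddCommGroup E] [NormedSpace ℝ E] (hu : ‖u‖ = 1) (g : ℂ → E)
    (c : ℂ) (r : ℝ) : Real.circleAverage g (u * c) r = Real.circleAverage (fun z => g (u * z)) c r := by
  rw [Real.circleAverage_eq_integral_add (arg u), Real.circleAverage]
  congr with θ
  congr 1
  have e := norm_mul_exp_arg_mul_I u
  rw [hu, ofReal_one, one_mul] at e
  simp only [circleMap, ofReal_add, add_mul, Complex.exp_add, e]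
  ring

lemma equi_avg_conj {E : Type} [NormedAddCommGroup E] [NormedSpace ℝ E] (g : ℂ → E)
    (c : ℂ) (r : ℝ) :
    Real.circleAverage g (conj c) r = Real.circleAverage (fun z => g (conj z)) c r := by
  unfold Real.circleAverage
  congr 1
  simp only [conj_circleMap]
  rw [intervalIntegral.integral_comp_neg (fun w => g (circleMap (conj c) r w))]
  have t₀ : Function.Periodic (fun w => g (circleMap (conj c) r w)) (2 * Real.pi) :=
    fun x => by simp [periodic_circleMap (conj c) r x]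
  simpa using (t₀.intervalIntegral_add_eq (-(2 * Real.pi)) 0).symm

lemma equi_avg_conj' (g : ℂ → ℂ) (c : ℂ) (r : ℝ) :
    Real.circleAverage (fun z => conj (g z)) c r = conj (Real.circleAverage g c r) := by
  unfold Real.circleAverage intervalIntegral
  simp only [integral_conj, real_smul, map_mul, map_sub, conj_ofReal]

lemma equi_lay (hπ : F.Perm π) (e : ι × Bool) : F.lay (sd π e) = F.lay e := by
  simp [Frm.lay, sd, hπ.gap]

lemma equi_R (hπ : F.Perm π) (e : ι × Bool) : F.R (sd π e) = F.R e := by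
  simp [Frm.R, sd, hπ.t]

lemma equi_inj {e μ : ι × Bool} : sd π μ = sd π e ↔ μ = e := by
  simp [sd, Prod.ext_iff]

lemma equi_sum_sides {M : Type} [AddCommMonoid M] (hπ : F.Perm π) (k : ℕ) (g : ι × Bool → M) :
    ∑ μ ∈ F.sides k, g μ = ∑ μ ∈ F.sides k, g (sd π μ) :=
  (Finset.sum_equiv (π.prodCongr (Equiv.refl _)) (fun μ => by
    change _ ↔ sd π μ ∈ _
    rw [mem_sides_iff, mem_sides_iff, equi_lay hπ]) fun _ _ => rfl).symm

lemma equi_sum_oth {M : Type} [AddCommMonoid M] (hπ : F.Perm π) (e : ι × Bool)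
    (g : ι × Bool → M) : ∑ μ ∈ F.oth (sd π e), g μ = ∑ μ ∈ F.oth e, g (sd π μ) :=
  (Finset.sum_equiv (π.prodCongr (Equiv.refl _)) (fun μ => by
    change _ ↔ sd π μ ∈ _
    rw [mem_oth, mem_oth, equi_lay hπ, equi_lay hπ, Ne, Ne, equi_inj]) fun _ _ => rfl).symm

namespace EquiSym

variable {σ : ℂ →+* ℂ} (s : EquiSym d π u σ)
include s

lemma mul_conj : u * conj u = 1 := by
  rw [Complex.mul_conj, normSq_eq_norm_sq, s.unit]
  simp

lemma ne : u ≠ 0 := norm_pos_iff.1 (by rw [s.unit]; exact one_pos)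

lemma conj_eq : conj u = u⁻¹ := eq_inv_of_mul_eq_one_right s.mul_conj

lemma comm (x : ℂ) : σ (conj x) = conj (σ x) := by rcases s.alt with e | e <;> simp [e]

lemma norm (x : ℂ) : ‖σ x‖ = ‖x‖ := by rcases s.alt with e | e <;> simp [e]

lemma re (x : ℂ) : (σ x).re = x.re := by rcases s.alt with e | e <;> simp [e]

lemma real (x : ℝ) : σ x = x := by rcases s.alt with e | e <;> simp [e]

lemma cont : Continuous σ := by
  rcases s.alt with e | e <;> rw [e]
  exacts [continuous_id, continuous_conj]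

lemma log {x : ℂ} (hx : ‖x‖ < 1) : Complex.log (1 - σ x) = σ (Complex.log (1 - x)) := by
  rcases s.alt with e | e <;> rw [e]
  · rfl
  · have := mem_slitPlane_of_norm_lt_one (z := -x) (by rwa [norm_neg])
    rw [← sub_eq_add_neg] at this
    rw [← log_conj _ (slitPlane_arg_ne_pi this), map_sub, map_one]

lemma avg {E : Type} [NormedAddCommGroup E] [NormedSpace ℝ E] (g : ℂ → E) (c : ℂ) (r : ℝ) :
    Real.circleAverage g (u * σ c) r = Real.circleAverage (fun z => g (u * σ z)) c r := by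
  rw [equi_avg_rot s.unit]
  rcases s.alt with e | e <;> rw [e]
  · rfl
  · exact equi_avg_conj _ c r

lemma avg2 {E : Type} [NormedAddCommGroup E] [NormedSpace ℝ E] (g : ℂ → E) (e : ι × Bool) (r : ℝ) :
    Real.circleAverage g (d.pos (sd π e)) r =
      Real.circleAverage (fun z => g (u * σ z)) (d.pos e) r := by rw [s.pos, s.avg]

lemma avg' (g : ℂ → ℂ) (a c : ℂ) (r : ℝ) :
    Real.circleAverage (fun z => a * σ (g z)) c r = a * σ (Real.circleAverage g c r) := by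
  have := Real.circleAverage_fun_smul (a := a) (f := fun z => σ (g z)) (c := c) (R := r)
  simp only [smul_eq_mul] at this
  rw [this]
  rcases s.alt with e | e <;> rw [e]
  · rfl
  · rw [equi_avg_conj']

lemma sub (z : ℂ) (μ : ι × Bool) : u * σ z - d.pos (sd π μ) = u * σ (z - d.pos μ) := by
  rw [s.pos, map_sub, mul_sub]

lemma norm_sub (z : ℂ) (μ : ι × Bool) : ‖u * σ z - d.pos (sd π μ)‖ = ‖z - d.pos μ‖ := by
  rw [s.sub, norm_mul, s.unit, s.norm, one_mul]

lemma arg_eq (z : ℂ) (μ : ι × Bool) : conj (d.bet (sd π μ) ^ 2 / (u * σ z - d.pos (sd π μ))) =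
    u * σ (conj (d.bet μ ^ 2 / (z - d.pos μ))) := by
  rw [s.sub, s.bet, s.comm, map_div₀ σ, map_pow σ, map_div₀, map_div₀, map_mul, s.conj_eq]
  have := s.ne
  field_simp

lemma tA {S : Spin ι} {z : ℂ} {μ : ι × Bool}
    (hS : S.2 (sd π (opp μ)) (u * σ (conj (d.bet μ ^ 2 / (z - d.pos μ)))) =
      conj u * σ (S.2 (opp μ) (conj (d.bet μ ^ 2 / (z - d.pos μ))))) :
    d.tA S (sd π μ) (u * σ z) = σ (d.tA S μ z) := by
  unfold Dat.tA tl
  rw [s.arg_eq]
  change _ * conj (S.2 (sd π (opp μ)) _) = _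
  rw [hS, s.sub, s.bet, map_mul σ, map_div₀ σ, s.comm, map_mul, conj_conj]
  have := s.ne
  field_simp

lemma tB {S : Spin ι} {z : ℂ} {μ : ι × Bool}
    (hS : S.1 (sd π (opp μ)) (u * σ (conj (d.bet μ ^ 2 / (z - d.pos μ)))) =
      σ (S.1 (opp μ) (conj (d.bet μ ^ 2 / (z - d.pos μ))))) :
    d.tB S (sd π μ) (u * σ z) = conj u * σ (d.tB S μ z) := by
  unfold Dat.tB tl
  rw [s.arg_eq]
  change -(_ * conj (S.1 (sd π (opp μ)) _)) = _
  rw [hS, s.sub, s.bet, map_neg, map_mul σ, map_div₀ σ, s.comm, s.conj_eq]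
  have := s.ne
  field_simp

variable (hπ : F.Perm π)
include hπ

lemma iter (n : ℕ) : ∀ e v, (F.iter d n).1 (sd π e) (u * σ v) = σ ((F.iter d n).1 e v) ∧
    (F.iter d n).2 (sd π e) (u * σ v) = conj u * σ ((F.iter d n).2 e v) := by
  induction n with
  | zero => simp [Frm.iter]
  | succ n ih =>
    intro e v
    have e1 : d.pos (sd π e) + u * σ v = u * σ (d.pos e + v) := by rw [s.pos, map_add, mul_add]
    have e2 : F.iter d (n + 1) = F.step d (F.iter d n) := Function.iterate_succ_apply' _ _ _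
    rw [e2]
    generalize F.iter d n = S at ih ⊢
    simp only [Frm.step]
    rw [e1, equi_sum_oth hπ, equi_sum_oth hπ, map_add σ 1, map_one, map_sum, map_sum,
      Finset.mul_sum]
    exact ⟨congrArg _ (Finset.sum_congr rfl fun μ _ => s.tA (ih _ _).2),
      Finset.sum_congr rfl fun μ _ => s.tB (ih _ _).1⟩

lemma sr (e : ι × Bool) : F.sr d (sd π e) = F.sr d e := by
  simp only [Frm.sr, equi_R hπ, s.bet, s.norm]

variable (h : F.Adm d)
include h

lemma spin (e : ι × Bool) {v : ℂ} (hv : ‖v‖ < 4 * F.R e) :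
    (F.spin d).1 (sd π e) (u * σ v) = σ ((F.spin d).1 e v) ∧
      (F.spin d).2 (sd π e) (u * σ v) = conj u * σ ((F.spin d).2 e v) := by
  have t : Tendsto (fun n : ℕ => 4 * (1 / 2 : ℝ) ^ n) atTop (𝓝 0) := by
    simpa using (tendsto_pow_atTop_nhds_zero_of_lt_one (r := (1 / 2 : ℝ)) (by norm_num)
      (by norm_num)).const_mul 4
  have t1 : Tendsto (fun n => (F.iter d n).1 e v) atTop (𝓝 ((F.spin d).1 e v)) :=
    tendsto_iff_norm_sub_tendsto_zero.2
      (squeeze_zero (fun _ => norm_nonneg _) (fun n => (h.iter_rate n e hv).1) t)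
  have t2 : Tendsto (fun n => (F.iter d n).2 e v) atTop (𝓝 ((F.spin d).2 e v)) :=
    tendsto_iff_norm_sub_tendsto_zero.2
      (squeeze_zero (fun _ => norm_nonneg _) (fun n => (h.iter_rate n e hv).2) t)
  constructor
  · refine Tendsto.limUnder_eq ?_
    simp only [(s.iter hπ _ e v).1]
    exact (s.cont.tendsto _).comp t1
  · refine Tendsto.limUnder_eq ?_
    simp only [(s.iter hπ _ e v).2]
    exact ((s.cont.tendsto _).comp t2).const_mul _

omit s hπ in
lemma big_arg {k : ℕ} {z : ℂ} (hz : z ∈ F.Big d k) {μ : ι × Bool} (hμ : μ ∈ F.sides k) :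
    ‖conj (d.bet μ ^ 2 / (z - d.pos μ))‖ < 4 * F.R (opp μ) := by
  have h1 := hz μ hμ
  have h2 := h.R_pos μ
  have h3 := h.bet_pos μ
  have h4 : 0 < ‖z - d.pos μ‖ := lt_trans (by positivity) h1
  rw [norm_conj, norm_div, norm_pow, R_opp, div_lt_iff₀ h4, mul_comm]
  rwa [div_lt_iff₀ (by positivity)] at h1

lemma a_eq {k : ℕ} {z : ℂ} (hz : z ∈ F.Big d k) : F.a d k (u * σ z) = σ (F.a d k z) := by
  rw [Frm.a, Frm.a, equi_sum_sides hπ, map_add, map_one, map_sum]
  exact congrArg _ (Finset.sum_congr rfl fun μ hμ =>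
    s.tA (s.spin hπ h _ (big_arg h hz hμ)).2)

lemma b_eq {k : ℕ} {z : ℂ} (hz : z ∈ F.Big d k) :
    F.b d k (u * σ z) = conj u * σ (F.b d k z) := by
  rw [Frm.b, Frm.b, equi_sum_sides hπ, map_sum, Finset.mul_sum]
  exact Finset.sum_congr rfl fun μ hμ => s.tB (s.spin hπ h _ (big_arg h hz hμ)).1

omit s hπ in
lemma bet_le_R (e : ι × Bool) : 1 ≤ F.R e ∧ ‖d.bet e‖ ≤ F.R e := by
  have h1 : 1 ≤ (F.t e.1)⁻¹ := (one_le_inv₀ (h.t_pos _)).2 ((h.t_small _).trans (by norm_num))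
  exact ⟨one_le_pow₀ h1, (h.bet_le e).trans (le_self_pow₀ h1 (by norm_num))⟩

omit s hπ in
lemma sphere_big (e : ι × Bool) {ζ : ℂ} (hζ : ζ ∈ Metric.sphere (d.pos e) |F.sr d e|) :
    ζ ∈ F.Big d (F.lay e) ∧ ‖ζ - d.pos e‖ = F.sr d e := by
  rw [abs_of_pos (h.sr_pos e), mem_sphere_iff_norm] at hζ
  refine ⟨?_, hζ⟩
  have h2 := h.R_pos e
  have h3 := h.bet_pos e
  have h4 := (bet_le_R h e).2
  have := h.mem_Big e (v := ζ - d.pos e) (by
    rw [hζ, Frm.sr]
    exact div_lt_div_of_pos_left (by positivity) (by positivity) (by linarith)) (by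
    rw [hζ, Frm.sr, div_le_iff₀ (by positivity)]
    nlinarith)
  rwa [add_sub_cancel] at this

lemma res {f : ℂ → ℂ} {c : ℂ} (e : ι × Bool)
    (hf : ∀ z ∈ F.Big d (F.lay e), f (u * σ z) = c * σ (f z)) :
    F.res d f (sd π e) = c * u * σ (F.res d f e) := by
  rw [Frm.res, Frm.res, equi_res_eq, equi_res_eq, s.sr hπ, ← s.avg', s.pos e, s.avg, ← s.pos e]
  refine Real.circleAverage_congr_sphere fun ζ hζ => ?_
  simp only [s.sub, hf ζ (sphere_big h e hζ).1, map_mul]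
  ring

lemma prim {f : ℂ → ℂ} {c : ℂ} (e : ι × Bool)
    (hf : ∀ z ∈ F.Big d (F.lay e), f (u * σ z) = c * σ (f z)) {z : ℂ}
    (hz : z ∈ F.U d (F.lay e)) :
    F.prim d f (sd π e) (u * σ z) = c * u * σ (F.prim d f e z) := by
  rw [Frm.prim, Frm.prim, equi_res_eq, equi_res_eq, s.sr hπ, ← s.avg']
  refine (s.avg2 _ e _).trans ?_
  refine Real.circleAverage_congr_sphere fun ζ hζ => ?_
  have h1 := hz e (self_mem_sides e)
  have h2 := h.R_pos e
  have h3 := h.bet_pos e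
  have h4 : ‖(ζ - d.pos e) / (z - d.pos e)‖ < 1 := by
    rw [norm_div, div_lt_one (lt_trans (by positivity) h1), (sphere_big h e hζ).2, Frm.sr]
    exact lt_trans (div_lt_div_of_pos_left (by positivity) h2 (by linarith)) h1
  simp only [s.sub, hf ζ (sphere_big h e hζ).1, map_mul]
  rw [mul_div_mul_left _ _ s.ne, ← map_div₀, s.log h4]
  ring

lemma aa_eq (k : ℕ) : ∀ z ∈ F.Big d k, F.aa d k (u * σ z) = 1 * σ (F.aa d k z) := fun z hz => by
  rw [Frm.aa, Frm.aa, s.a_eq hπ h hz, map_pow, one_mul]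

lemma ab_eq (k : ℕ) : ∀ z ∈ F.Big d k, F.ab d k (u * σ z) = conj u * σ (F.ab d k z) :=
  fun z hz => by
    rw [Frm.ab, Frm.ab, s.a_eq hπ h hz, s.b_eq hπ h hz, map_mul σ]
    ring

lemma bb_eq (k : ℕ) : ∀ z ∈ F.Big d k, F.bb d k (u * σ z) = conj u ^ 2 * σ (F.bb d k z) :=
  fun z hz => by rw [Frm.bb, Frm.bb, s.b_eq hπ h hz, map_pow, mul_pow]

lemma ra (e : ι × Bool) : F.ra d (sd π e) = u * σ (F.ra d e) := by
  rw [Frm.ra, Frm.ra, equi_lay hπ, s.res hπ h e (s.aa_eq hπ h _), one_mul]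

lemma rab (e : ι × Bool) : F.rab d (sd π e) = σ (F.rab d e) := by
  rw [Frm.rab, Frm.rab, equi_lay hπ, s.res hπ h e (s.ab_eq hπ h _), mul_comm _ u, s.mul_conj,
    one_mul]

lemma rb (e : ι × Bool) : F.rb d (sd π e) = conj u * σ (F.rb d e) := by
  rw [Frm.rb, Frm.rb, equi_lay hπ, s.res hπ h e (s.bb_eq hπ h _), pow_two, mul_assoc _ _ u,
    mul_comm _ u, s.mul_conj, mul_one]

lemma H_eq {k : ℕ} {z : ℂ} (hz : z ∈ F.U d k) : F.H d k (u * σ z) = u * σ (F.H d k z) := by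
  rw [Frm.H, Frm.H, equi_sum_sides hπ, map_add, map_sum, mul_add, Finset.mul_sum]
  refine congrArg _ (Finset.sum_congr rfl fun e he => ?_)
  obtain rfl := mem_sides_iff.1 he
  rw [s.prim hπ h e (s.aa_eq hπ h _) hz, s.prim hπ h e (s.bb_eq hπ h _) hz, s.ra hπ h, s.norm_sub]
  simp only [map_add, map_sub, map_mul, map_pow, conj_conj, s.comm, s.real, map_ofNat]
  linear_combination -(u * conj (σ (F.prim d (F.bb d (F.lay e)) e z))) * s.mul_conj

lemma h0_eq {k : ℕ} {z : ℂ} (hz : z ∈ F.U d k) : F.h0 d k (u * σ z) = F.h0 d k z := by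
  rw [Frm.h0, Frm.h0, equi_sum_sides hπ]
  refine Finset.sum_congr rfl fun e he => ?_
  obtain rfl := mem_sides_iff.1 he
  rw [s.prim hπ h e (s.ab_eq hπ h _) hz, s.rab hπ h, s.norm_sub, mul_comm _ u, s.mul_conj,
    one_mul, s.re, s.re]

omit s hπ in
lemma sphere_U (e : ι × Bool) {ζ : ℂ} (hζ : ζ ∈ Metric.sphere (d.pos e) |‖d.bet e‖|) :
    ζ ∈ F.U d (F.lay e) := by
  rw [abs_norm, mem_sphere_iff_norm] at hζ
  have h2 := h.R_pos e
  have := h.mem_Ub e (v := ζ - d.pos e) hζ.ge (by linarith [(bet_le_R h e).2])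
  rw [add_sub_cancel] at this
  exact h.Ub_sub _ this

lemma Jh (e : ι × Bool) : F.Jh d (sd π e) = u * σ (F.Jh d e) := by
  rw [Frm.Jh, Frm.Jh, equi_lay hπ, s.pos, s.bet, s.norm, s.avg, ← s.avg']
  exact Real.circleAverage_congr_sphere fun ζ hζ => s.H_eq hπ h (sphere_U h e hζ)

lemma J3 (e : ι × Bool) : F.J3 d (sd π e) = F.J3 d e := by
  rw [Frm.J3, Frm.J3, equi_lay hπ, s.pos, s.bet, s.norm, s.avg]
  exact Real.circleAverage_congr_sphere fun ζ hζ => s.h0_eq hπ h (sphere_U h e hζ)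

end EquiSym

theorem rot_all (h : F.Adm d) (hπ : F.Perm π) (hr : d.Rot π u) (e : ι × Bool) :
    F.ra d (sd π e) = u * F.ra d e ∧ F.rb d (sd π e) = conj u * F.rb d e ∧
      F.rab d (sd π e) = F.rab d e ∧ F.Jh d (sd π e) = u * F.Jh d e ∧
      F.J3 d (sd π e) = F.J3 d e :=
  have s : EquiSym d π u (RingHom.id ℂ) :=
    ⟨hr.unit, Or.inl rfl, hr.pos, fun e => by simp [Dat.bet, sd, hr.bet]⟩
  ⟨s.ra hπ h e, s.rb hπ h e, s.rab hπ h e, s.Jh hπ h e, s.J3 hπ h e⟩

theorem refl_all (h : F.Adm d) (hπ : F.Perm π) (hr : d.Refl π) (e : ι × Bool) :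
    F.ra d (sd π e) = conj (F.ra d e) ∧ F.rb d (sd π e) = conj (F.rb d e) ∧
      F.rab d (sd π e) = conj (F.rab d e) ∧ F.Jh d (sd π e) = conj (F.Jh d e) ∧
      F.J3 d (sd π e) = F.J3 d e := by
  have s : EquiSym d π 1 (starRingEnd ℂ) :=
    ⟨norm_one, Or.inr rfl, fun e => by rw [hr.pos, one_mul], fun e => by
      rcases e with ⟨ν, _ | _⟩ <;> simp [sd, hr.bet]⟩
  exact ⟨by simpa using s.ra hπ h e, by simpa using s.rb hπ h e, s.rab hπ h e,
    by simpa using s.Jh hπ h e, s.J3 hπ h e⟩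

theorem sum_ra_rot (h : F.Adm d) (hπ : F.Perm π) (hr : d.Rot π u) (hu : u ≠ 1) (k : ℕ) :
    ∑ e ∈ F.sides k, F.ra d e = 0 := by
  have e := equi_sum_sides hπ k (F.ra d)
  simp only [(rot_all h hπ hr _).1, ← Finset.mul_sum] at e
  exact (mul_eq_zero.1 (by linear_combination e : (1 - u) * ∑ e ∈ F.sides k, F.ra d e = 0)).resolve_left
    (sub_ne_zero.2 hu.symm)

end Pool.Agent.MP_943ae2_gt
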