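import Pool.Agent.MP_943ae2_gt.Prim

open Set Complex Filter
open scoped Topology ComplexConjugate ContDiff

noncomputable section

namespace Pool.Agent.MP_943ae2_gt

variable {ι : Type} {F : Frm ι} {d : Dat ι} {C : ℕ → ℝ}

lemma mat_avg {E : Type} [NormedAddCommGroup E] [NormedSpace ℝ E] [CompleteSpace E]
    {f g : ℂ → E} {p p' : ℂ} {r η M : ℝ} (hr : 0 ≤ r) (hf : ContinuousOn f (Metric.sphere p r))
    (hg : ContinuousOn g (Metric.sphere p' r)) (c : E)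
    (h : ∀ θ, ‖f (circleMap p r θ) - g (circleMap p' r (θ + η)) - c‖ ≤ M) :
    ‖Real.circleAverage f p r - Real.circleAverage g p' r - c‖ ≤ M := by
  have hπ := Real.pi_pos
  have h1 : Continuous fun θ : ℝ => f (circleMap p r θ) :=
    hf.comp_continuous (continuous_circleMap p r) fun θ => circleMap_mem_sphere p hr θ
  have h2 : Continuous fun θ : ℝ => g (circleMap p' r (θ + η)) :=
    hg.comp_continuous ((continuous_circleMap p' r).comp (by fun_prop))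
      fun θ => circleMap_mem_sphere p' hr _
  have e : Real.circleAverage f p r - Real.circleAverage g p' r - c =
      (2 * Real.pi)⁻¹ • ∫ θ in (0 : ℝ)..2 * Real.pi,
        (f (circleMap p r θ) - g (circleMap p' r (θ + η)) - c) := by
    rw [Real.circleAverage_eq_integral_add (f := g) η, Real.circleAverage_def,
      intervalIntegral.integral_sub ((h1.intervalIntegrable _ _).sub (h2.intervalIntegrable _ _))
        intervalIntegrable_const,
      intervalIntegral.integral_sub (h1.intervalIntegrable _ _) (h2.intervalIntegrable _ _),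
      intervalIntegral.integral_const, smul_sub, smul_sub, smul_smul, sub_zero,
      inv_mul_cancel₀ (by positivity), one_smul]
  rw [e, norm_smul, Real.norm_eq_abs, abs_of_pos (by positivity)]
  have h3 := intervalIntegral.norm_integral_le_of_norm_le_const (a := 0) (b := 2 * Real.pi)
    (C := M) (f := fun θ => f (circleMap p r θ) - g (circleMap p' r (θ + η)) - c)
    fun θ _ => h θ
  rw [sub_zero, abs_of_pos (by positivity)] at h3
  calc _ ≤ (2 * Real.pi)⁻¹ * (M * (2 * Real.pi)) := by gcongr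
    _ = M := by field_simp

lemma mat_conn (r₁ r₂ : ℝ) (h : 0 ≤ r₁) : IsPreconnected {v : ℂ | r₁ < ‖v‖ ∧ ‖v‖ < r₂} := by
  have e : {v : ℂ | r₁ < ‖v‖ ∧ ‖v‖ < r₂} =
      (fun x : ℝ × ℝ => circleMap 0 x.1 x.2) '' (Ioo r₁ r₂ ×ˢ univ) := by
    ext v
    constructor
    · intro hv
      refine ⟨(‖v‖, arg v), ⟨hv, trivial⟩, ?_⟩
      simp [circleMap]
    · rintro ⟨⟨r, θ⟩, ⟨hr, -⟩, rfl⟩
      have : ‖circleMap 0 r θ‖ = r := by
        rw [norm_circleMap_zero, abs_of_pos (h.trans_lt hr.1)]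
      exact ⟨by rw [this]; exact hr.1, by rw [this]; exact hr.2⟩
  rw [e]
  refine (isPreconnected_Ioo.prod isPreconnected_univ).image _ (Continuous.continuousOn ?_)
  unfold circleMap; fun_prop

lemma mat_log {ρ D β : ℝ} (hD : 0 < D) (h1 : D / 2 ≤ ρ) (h2 : |ρ - D| ≤ β) :
    |Real.log ρ - Real.log D| ≤ 2 * β / D := by
  have hρ : 0 < ρ := by linarith
  have hβ : 0 ≤ β := (abs_nonneg _).trans h2
  obtain ⟨h3, h4⟩ := abs_le.1 h2
  rw [abs_le]
  constructor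
  · have := Real.log_le_sub_one_of_pos (div_pos hD hρ)
    rw [Real.log_div hD.ne' hρ.ne'] at this
    have h5 : D / ρ - 1 ≤ 2 * β / D := by
      rw [div_sub_one hρ.ne', div_le_div_iff₀ hρ hD]
      nlinarith
    linarith
  · have := Real.log_le_sub_one_of_pos (div_pos hρ hD)
    rw [Real.log_div hρ.ne' hD.ne'] at this
    have h5 : ρ / D - 1 ≤ 2 * β / D := by
      rw [div_sub_one hD.ne']
      gcongr; linarith
    linarith

lemma mat_term (x y r : ℂ) (l : ℝ) :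
    ‖x - conj y + 2 * r * (l : ℂ)‖ ≤ ‖x‖ + ‖y‖ + 2 * ‖r‖ * |l| := by
  refine (norm_add_le _ _).trans (add_le_add ((norm_sub_le _ _).trans ?_) ?_)
  · simp
  · simp

lemma mat_par_deriv (e : ι × Bool) {v : ℂ} (hv : v ≠ 0) :
    ∃ L : ℂ →L[ℝ] ℂ, HasFDerivAt (d.par e) L v ∧ ∀ w, L w = conj (-(d.bet e ^ 2 / v ^ 2) * w) := by
  have h1 : HasDerivAt (fun v : ℂ => d.bet e ^ 2 / v) (-(d.bet e ^ 2 / v ^ 2)) v := by
    have := (hasDerivAt_inv hv).const_mul (d.bet e ^ 2)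
    simpa [div_eq_mul_inv] using this
  have h2 := (conjCLE.toContinuousLinearMap.hasFDerivAt.comp v
    (h1.hasFDerivAt.restrictScalars ℝ)).const_add (d.pos (opp e))
  refine ⟨_, h2, fun w => ?_⟩
  simp [mul_comm]

lemma mat_rot (e : ι × Bool) (hb : d.bet e ≠ 0) (θ : ℝ) :
    d.par e (circleMap 0 ‖d.bet e‖ θ) =
      circleMap (d.pos (opp e)) ‖d.bet e‖ (θ + -(2 * arg (d.bet e))) := by
  have hn : (‖d.bet e‖ : ℂ) ≠ 0 := by exact_mod_cast (norm_pos_iff.2 hb).ne'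
  have h1 : d.bet e = ‖d.bet e‖ * exp (arg (d.bet e) * I) := (norm_mul_exp_arg_mul_I _).symm
  unfold Dat.par circleMap
  congr 1
  set β := ‖d.bet e‖
  set α := arg (d.bet e)
  have h2 : d.bet e ^ 2 / (0 + β * exp (θ * I)) = β * exp (-((θ + -(2 * α) : ℝ) * I)) := by
    rw [h1, zero_add, div_eq_iff (mul_ne_zero hn (exp_ne_zero _)), mul_pow, ← exp_nat_mul,
      mul_mul_mul_comm, ← exp_add, ← sq]
    congr 2
    push_cast; ring
  rw [h2, map_mul, conj_ofReal, ← exp_conj]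
  congr 2
  simp only [map_neg, map_mul, conj_ofReal, conj_I]
  ring

namespace Frm.Adm

variable (h : F.Adm d)
include h

lemma mat_bet_sq (e : ι × Bool) : ‖d.bet e‖ ^ 2 / F.R e ≤ F.t e.1 ^ 14 := by
  have ht := h.t_pos e.1
  rw [div_le_iff₀ (h.R_pos e)]
  calc _ ≤ (F.t e.1)⁻¹ ^ 2 := pow_le_pow_left₀ (norm_nonneg _) (h.bet_le e) 2
    _ = _ := by unfold Frm.R; field_simp

lemma mat_lt_R (e : ι × Bool) : ‖d.bet e‖ < F.R e := by
  have ht := h.t_pos e.1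
  have h1 : 1 < (F.t e.1)⁻¹ := (one_lt_inv₀ ht).2 (by linarith [h.t_small e.1])
  calc _ ≤ (F.t e.1)⁻¹ ^ 1 := by rw [pow_one]; exact h.bet_le e
    _ < _ := pow_lt_pow_right₀ h1 (by norm_num)

lemma mat_sq_lt (e : ι × Bool) : ‖d.bet e‖ ^ 2 / F.R e < ‖d.bet e‖ := by
  rw [div_lt_iff₀ (h.R_pos e), sq]
  exact mul_lt_mul_of_pos_left (h.mat_lt_R e) (h.bet_pos e)

lemma mat_sphere (e : ι × Bool) : Metric.sphere (d.pos e) ‖d.bet e‖ ⊆ F.U d (F.lay e) := by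
  intro z hz
  rw [mem_sphere_iff_norm] at hz
  have := h.mem_U e (v := z - d.pos e) (by rw [hz]; exact h.mat_sq_lt e)
    (by rw [hz]; linarith [h.mat_lt_R e, h.R_pos e])
  simpa using this

lemma mat_pow {ν : ι} {m n : ℕ} (hmn : m ≤ n) : F.t ν ^ n ≤ F.t ν ^ m :=
  pow_le_pow_of_le_one (h.t_pos ν).le (by linarith [h.t_small ν]) hmn

lemma mat_own (e : ι × Bool) {z : ℂ} (hz : ‖z - d.pos e‖ = ‖d.bet e‖) :
    ‖F.prim d (F.aa d (F.lay e)) e z - conj (F.prim d (F.bb d (F.lay e)) e z) +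
      2 * F.ra d e * (Real.log ‖z - d.pos e‖ : ℝ)‖ ≤ 35 * (F.t e.1)⁻¹ := by
  have ht := h.t_pos e.1
  have hb := h.bet_pos e
  have hb' := h.bet_le e
  have hR := h.R_pos e
  have hq := h.mat_bet_sq e
  have ht1 : F.t e.1 ≤ 1 := by linarith [h.t_small e.1]
  have h1 := h.prim_aa e (z := z) (by rw [hz]; exact (h.mat_sq_lt e).le)
  have h2 := h.prim_bb e (z := z) (by rw [hz]; exact (h.mat_sq_lt e).le)
  have h3 := h.ra_le e
  refine (mat_term _ _ _ _).trans ?_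
  rw [hz] at h1 h2 ⊢
  have e1 : 2 * ‖d.bet e‖ ^ 4 / (F.R e ^ 2 * ‖d.bet e‖) ≤ 2 * (F.t e.1)⁻¹ := by
    have : 2 * ‖d.bet e‖ ^ 4 / (F.R e ^ 2 * ‖d.bet e‖) =
        2 * (‖d.bet e‖ * (‖d.bet e‖ / F.R e) ^ 2) := by field_simp
    rw [this]
    have h5 : ‖d.bet e‖ / F.R e ≤ 1 := (div_le_one hR).2 (h.mat_lt_R e).le
    have h6 : (‖d.bet e‖ / F.R e) ^ 2 ≤ 1 := pow_le_one₀ (by positivity) h5
    nlinarith
  have e2 : 13 * ‖d.bet e‖ ^ 2 / ‖d.bet e‖ = 13 * ‖d.bet e‖ := by field_simp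
  have e3 : |Real.log ‖d.bet e‖| ≤ (F.t e.1)⁻¹ := by
    have hl := Real.log_le_sub_one_of_pos (inv_pos.2 ht)
    rw [Real.log_inv] at hl
    rw [abs_le]
    constructor
    · linarith [Real.log_le_log ht (h.b_ge e)]
    · linarith [Real.log_le_sub_one_of_pos hb]
  have e4 : ‖F.ra d e‖ ≤ 10 := by
    refine h3.trans ?_
    have h5 : ‖d.bet e‖ * F.t e.1 ≤ 1 := by
      calc _ ≤ (F.t e.1)⁻¹ * F.t e.1 := by gcongr
        _ = 1 := inv_mul_cancel₀ ht.ne'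
    have h6 : F.t e.1 ^ 30 ≤ F.t e.1 ^ 1 := h.mat_pow (by norm_num)
    rw [pow_one] at h6
    nlinarith
  have e5 : 2 * ‖F.ra d e‖ * |Real.log ‖d.bet e‖| ≤ 2 * 10 * (F.t e.1)⁻¹ := by gcongr
  linarith

lemma mat_oth {e μ : ι × Bool} (hμ : μ ∈ F.oth e) {z : ℂ} (hz : ‖z - d.pos e‖ = ‖d.bet e‖) :
    ‖F.prim d (F.aa d (F.lay e)) μ z - conj (F.prim d (F.bb d (F.lay e)) μ z) +
      2 * F.ra d μ * (Real.log ‖z - d.pos μ‖ : ℝ)‖ ≤ F.T (F.lay e) := by
  have hl := (mem_oth.1 hμ).2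
  have ht := h.t_pos μ.1
  have hT := h.T_pos (F.lay e)
  have hT' := h.T_le (F.lay e)
  have htT := h.t_le μ
  have hb := h.bet_pos μ
  have hbT := h.b_le μ
  have hR := h.R_pos μ
  have hq := h.mat_bet_sq μ
  rw [hl] at htT hbT
  have ht1 : F.t μ.1 ≤ 1 := by linarith
  have h0 := (h.arg_lt hμ (v := z - d.pos e)
    (by rw [hz]; linarith [h.mat_lt_R e, h.R_pos e])).1
  rw [add_sub_cancel] at h0
  have hρ : 4 * F.R μ ≤ ‖z - d.pos μ‖ := by linarith [h.sep' hμ]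
  have hle : ‖d.bet μ‖ ^ 2 / F.R μ ≤ ‖z - d.pos μ‖ := by
    linarith [h.mat_sq_lt μ, h.mat_lt_R μ]
  have h1 := h.prim_aa μ hle
  have h2 := h.prim_bb μ hle
  have h3 := h.ra_le μ
  rw [hl] at h1 h2
  refine (mat_term _ _ _ _).trans ?_
  have hR1 : 1 ≤ F.R μ := one_le_pow₀ ((one_le_inv₀ ht).2 ht1)
  have h14 : F.t μ.1 ^ 14 ≤ F.T (F.lay e) / 1000 := by
    have : F.t μ.1 ^ 14 ≤ F.t μ.1 ^ 2 := h.mat_pow (by norm_num)
    nlinarith
  set q := ‖d.bet μ‖ ^ 2 / F.R μ with hqd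
  have hq0 : 0 ≤ q := by positivity
  have e1 : 2 * ‖d.bet μ‖ ^ 4 / (F.R μ ^ 2 * ‖z - d.pos μ‖) ≤ 2 * q := by
    have : 2 * ‖d.bet μ‖ ^ 4 / (F.R μ ^ 2 * ‖z - d.pos μ‖) = 2 * q ^ 2 / ‖z - d.pos μ‖ := by
      rw [hqd]; field_simp
    rw [this, div_le_iff₀ (by linarith)]
    nlinarith
  have e2 : 13 * ‖d.bet μ‖ ^ 2 / ‖z - d.pos μ‖ ≤ 13 * q := by
    rw [mul_div_assoc, hqd]
    gcongr; linarith
  have e3 : |Real.log ‖z - d.pos μ‖| ≤ 3 * (F.T (F.lay e))⁻¹ := by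
    rw [abs_of_nonneg (Real.log_nonneg (by linarith))]
    have p1 := h.pos_le e
    have p2 := h.pos_le μ
    rw [hl] at p2
    have p3 := h.b_le e
    have p4 := Real.add_one_le_exp (F.T (F.lay e))⁻¹
    have p5 : ‖z - d.pos μ‖ ≤ 3 * Real.exp (F.T (F.lay e))⁻¹ := by
      have : z - d.pos μ = (z - d.pos e) + d.pos e - d.pos μ := by ring
      rw [this]
      linarith [norm_sub_le ((z - d.pos e) + d.pos e) (d.pos μ), norm_add_le (z - d.pos e) (d.pos e)]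
    have p6 := Real.log_le_log (by linarith) p5
    rw [Real.log_mul (by norm_num) (Real.exp_pos _).ne', Real.log_exp] at p6
    have p7 := Real.log_le_sub_one_of_pos (by norm_num : (0 : ℝ) < 3)
    have p8 : 1 ≤ (F.T (F.lay e))⁻¹ := (one_le_inv₀ hT).2 (by linarith)
    linarith
  have e4 : ‖F.ra d μ‖ ≤ 10 * ((F.T (F.lay e))⁻¹ * F.T (F.lay e) ^ 4) := by
    refine h3.trans ?_
    rw [mul_assoc]
    gcongr
    exact (h.mat_pow (by norm_num : 4 ≤ 30)).trans (pow_le_pow_left₀ ht.le htT 4)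
  have e5 : 2 * ‖F.ra d μ‖ * |Real.log ‖z - d.pos μ‖| ≤
      2 * (10 * ((F.T (F.lay e))⁻¹ * F.T (F.lay e) ^ 4)) * (3 * (F.T (F.lay e))⁻¹) := by gcongr
  have e6 : 2 * (10 * ((F.T (F.lay e))⁻¹ * F.T (F.lay e) ^ 4)) * (3 * (F.T (F.lay e))⁻¹) =
      60 * F.T (F.lay e) ^ 2 := by field_simp; ring
  nlinarith

lemma mat_card (e : ι × Bool) : ((F.oth e).card : ℝ) ≤ (F.T (F.lay e))⁻¹ := by
  classical
  refine le_trans ?_ (h.card (F.lay e))
  exact_mod_cast Finset.card_le_card fun μ hμ => mem_sides_iff.2 (mem_oth.1 hμ).2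

theorem Jh_est (e : ι × Bool) : ‖F.Jh d e - d.pos e‖ ≤ (F.t e.1)⁻¹ ^ 2 := by
  have key := mat_avg (g := fun _ => (0 : ℂ)) (p' := 0) (η := 0) (M := (F.t e.1)⁻¹ ^ 2)
    (norm_nonneg (d.bet e)) ((h.H_cont (F.lay e)).mono (h.mat_sphere e)) continuousOn_const
    (d.pos e) ?_
  · simpa [Real.circleAverage_const, Frm.Jh] using key
  intro θ
  set z := circleMap (d.pos e) ‖d.bet e‖ θ
  have hz : ‖z - d.pos e‖ = ‖d.bet e‖ :=
    mem_sphere_iff_norm.1 (circleMap_mem_sphere _ (norm_nonneg _) θ)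
  have ht := h.t_pos e.1
  have hT := h.T_pos (F.lay e)
  have h1 := h.mat_own e hz
  have h2 : ‖∑ μ ∈ F.oth e, (F.prim d (F.aa d (F.lay e)) μ z -
      conj (F.prim d (F.bb d (F.lay e)) μ z) + 2 * F.ra d μ * (Real.log ‖z - d.pos μ‖ : ℝ))‖ ≤ 1 := by
    refine (norm_sum_le _ _).trans ((Finset.sum_le_card_nsmul _ _ _
      fun μ hμ => h.mat_oth hμ hz).trans ?_)
    rw [nsmul_eq_mul]
    calc _ ≤ (F.T (F.lay e))⁻¹ * F.T (F.lay e) := by gcongr; exact h.mat_card e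
      _ = 1 := inv_mul_cancel₀ hT.ne'
  unfold Frm.H
  rw [sum_sides_split, sub_zero, add_sub_right_comm]
  have h3 := h.bet_le e
  have h4 : 1000 ≤ (F.t e.1)⁻¹ := by
    rw [le_inv_comm₀ (by norm_num) ht]; linarith [h.t_small e.1]
  refine (norm_add_le _ _).trans ((add_le_add hz.le ((norm_add_le _ _).trans
    (add_le_add h1 h2))).trans ?_)
  nlinarith

theorem J3_est (e : ι × Bool) :
    |F.J3 d e - ((F.rab d e).re * Real.log ‖d.bet e‖ +
      ∑ μ ∈ F.oth e, (F.rab d μ).re * Real.log ‖d.pos e - d.pos μ‖)| ≤ F.t e.1 ^ 13 := by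
  have key := mat_avg (g := fun _ => (0 : ℝ)) (p' := 0) (η := 0) (M := F.t e.1 ^ 13)
    (norm_nonneg (d.bet e)) ((h.h0_cont (F.lay e)).mono (h.mat_sphere e)) continuousOn_const
    ((F.rab d e).re * Real.log ‖d.bet e‖ +
      ∑ μ ∈ F.oth e, (F.rab d μ).re * Real.log ‖d.pos e - d.pos μ‖) ?_
  · simpa [Real.circleAverage_const, Frm.J3] using key
  intro θ
  set z := circleMap (d.pos e) ‖d.bet e‖ θ
  have hz : ‖z - d.pos e‖ = ‖d.bet e‖ :=
    mem_sphere_iff_norm.1 (circleMap_mem_sphere _ (norm_nonneg _) θ)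
  have ht := h.t_pos e.1
  have hb := h.bet_pos e
  have h1 : |(F.prim d (F.ab d (F.lay e)) e z).re| ≤ 5 * F.t e.1 ^ 14 := by
    refine (abs_re_le_norm _).trans ((h.prim_ab e (by rw [hz]; exact (h.mat_sq_lt e).le)).trans ?_)
    have hR := h.R_pos e
    have : 5 * ‖d.bet e‖ ^ 3 / (F.R e * ‖z - d.pos e‖) = 5 * (‖d.bet e‖ ^ 2 / F.R e) := by
      rw [hz]; field_simp
    rw [this]
    linarith [h.mat_bet_sq e]
  have h4 : 1000 ≤ (F.t e.1)⁻¹ := by
    rw [le_inv_comm₀ (by norm_num) ht]; linarith [h.t_small e.1]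
  have h2 : ∀ μ ∈ F.oth e, |(F.prim d (F.ab d (F.lay e)) μ z).re +
      (F.rab d μ).re * Real.log ‖z - d.pos μ‖ - (F.rab d μ).re * Real.log ‖d.pos e - d.pos μ‖| ≤
      5 * (F.t e.1)⁻¹ * (‖d.bet μ‖ / ‖d.pos e - d.pos μ‖) := by
    intro μ hμ
    have hl := (mem_oth.1 hμ).2
    have hR := h.R_pos μ
    have hbμ := h.bet_pos μ
    have h0 := (h.arg_lt hμ (v := z - d.pos e)
      (by rw [hz]; linarith [h.mat_lt_R e, h.R_pos e])).1
    rw [add_sub_cancel] at h0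
    have hD : 0 < ‖d.pos e - d.pos μ‖ := by linarith [h.sep' hμ]
    have hle : ‖d.bet μ‖ ^ 2 / F.R μ ≤ ‖z - d.pos μ‖ := by
      linarith [h.mat_sq_lt μ, h.mat_lt_R μ, h.sep' hμ]
    have p1 := h.prim_ab μ hle
    rw [hl] at p1
    have p2 : 5 * ‖d.bet μ‖ ^ 3 / (F.R μ * ‖z - d.pos μ‖) ≤
        10 * (‖d.bet μ‖ / ‖d.pos e - d.pos μ‖) := by
      have q1 : ‖d.bet μ‖ ^ 2 / F.R μ ≤ 1 :=
        (h.mat_bet_sq μ).trans (pow_le_one₀ (h.t_pos _).le (by linarith [h.t_small μ.1]))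
      calc _ = 5 * (‖d.bet μ‖ ^ 2 / F.R μ) * (‖d.bet μ‖ / ‖z - d.pos μ‖) := by field_simp
        _ ≤ 5 * 1 * (‖d.bet μ‖ / (‖d.pos e - d.pos μ‖ / 2)) := by gcongr
        _ = _ := by field_simp; ring
    have p3 := mat_log (β := ‖d.bet e‖) hD h0 (by
      rw [← hz]
      refine (abs_norm_sub_norm_le _ _).trans (le_of_eq ?_)
      congr 1; ring)
    have p4 : |(F.rab d μ).re * (Real.log ‖z - d.pos μ‖ - Real.log ‖d.pos e - d.pos μ‖)| ≤
        4 * (F.t e.1)⁻¹ * (‖d.bet μ‖ / ‖d.pos e - d.pos μ‖) := by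
      rw [abs_mul]
      calc _ ≤ 2 * ‖d.bet μ‖ * (2 * (F.t e.1)⁻¹ / ‖d.pos e - d.pos μ‖) := by
            refine mul_le_mul (h.rab_le μ) (p3.trans ?_) (abs_nonneg _) (by positivity)
            gcongr; exact h.bet_le e
        _ = _ := by ring
    have p5 : 0 ≤ ‖d.bet μ‖ / ‖d.pos e - d.pos μ‖ := by positivity
    rw [add_sub_assoc, ← mul_sub]
    refine (abs_add_le _ _).trans ((add_le_add ((abs_re_le_norm _).trans (p1.trans p2)) p4).trans ?_)
    nlinarith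
  have h3 := (Finset.abs_sum_le_sum_abs _ _).trans (Finset.sum_le_sum h2)
  rw [← Finset.mul_sum, Finset.sum_sub_distrib] at h3
  have h5 : 5 * (F.t e.1)⁻¹ * ∑ μ ∈ F.oth e, ‖d.bet μ‖ / ‖d.pos e - d.pos μ‖ ≤
      5 * F.t e.1 ^ 14 := by
    calc _ ≤ 5 * (F.t e.1)⁻¹ * F.t e.1 ^ 15 := by
          gcongr; exact (h.lam e).trans (h.mat_pow (by norm_num))
      _ = _ := by field_simp
  unfold Frm.h0
  rw [sum_sides_split, sub_zero, hz, Real.norm_eq_abs, add_sub_add_comm, add_sub_cancel_right]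
  refine (abs_add_le _ _).trans ((add_le_add h1 (h3.trans h5)).trans ?_)
  have h6 : 0 < F.t e.1 ^ 13 := by positivity
  have h7 : F.t e.1 ^ 14 = F.t e.1 ^ 13 * F.t e.1 := by ring
  nlinarith [h.t_small e.1]

lemma mat_par_mem (e : ι × Bool) {v : ℂ} (h1 : ‖d.bet e‖ ^ 2 / F.R e < ‖v‖) (h2 : ‖v‖ < F.R e) :
    d.par e v ∈ F.U d (F.lay (opp e)) := by
  have hb := h.bet_pos e
  have hR := h.R_pos e
  have hv : 0 < ‖v‖ := lt_trans (by positivity) h1
  have e1 : ‖conj (d.bet e ^ 2 / v)‖ = ‖d.bet e‖ ^ 2 / ‖v‖ := by simp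
  refine h.mem_U (opp e) ?_ ?_
  · rw [e1, norm_bet_opp, R_opp]; gcongr
  · rw [e1, R_opp, div_le_iff₀ hv]
    rw [div_lt_iff₀ hR] at h1
    nlinarith

theorem matching (hs : F.Sol d C) (e : ι × Bool) {v : ℂ} (h1 : ‖d.bet e‖ ^ 2 / F.R e < ‖v‖)
    (h2 : ‖v‖ < F.R e) :
    F.X d C (F.lay e) (d.pos e + v) = F.X d C (F.lay (opp e)) (d.par e v) := by
  have hb := h.bet_pos e
  have hR := h.R_pos e
  set Ω := {v : ℂ | ‖d.bet e‖ ^ 2 / F.R e < ‖v‖ ∧ ‖v‖ < F.R e} with hΩ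
  have hO : IsOpen Ω := (isOpen_lt continuous_const continuous_norm).inter
    (isOpen_lt continuous_norm continuous_const)
  have hc : IsPreconnected Ω := mat_conn _ _ (by positivity)
  have hD : ∀ w ∈ Ω,
      HasFDerivAt (fun w => F.H d (F.lay e) (d.pos e + w) - F.H d (F.lay (opp e)) (d.par e w))
        (0 : ℂ →L[ℝ] ℂ) w ∧
      HasFDerivAt (fun w => F.h0 d (F.lay e) (d.pos e + w) - F.h0 d (F.lay (opp e)) (d.par e w))
        (0 : ℂ →L[ℝ] ℝ) w := by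
    rintro w ⟨w1, w2⟩
    have hw : 0 < ‖w‖ := lt_trans (by positivity) w1
    have m1 := h.mem_U e w1 (by linarith)
    have m2 := h.mat_par_mem e w1 w2
    have w3 : ‖d.bet e‖ ^ 2 / (4 * F.R e) < ‖w‖ := by
      refine lt_of_le_of_lt ?_ w1
      gcongr; linarith
    have ga := h.glue_a e w3 (by linarith)
    have gb := h.glue_b e w3 (by linarith)
    obtain ⟨P, hP, hP'⟩ := mat_par_deriv (d := d) e (norm_pos_iff.1 hw)
    obtain ⟨L1, a1, b1⟩ := h.H_deriv hs m1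
    obtain ⟨L2, a2, b2⟩ := h.H_deriv hs m2
    obtain ⟨L3, a3, b3⟩ := h.h0_deriv hs m1
    obtain ⟨L4, a4, b4⟩ := h.h0_deriv hs m2
    have hI : HasFDerivAt (fun w : ℂ => d.pos e + w) (ContinuousLinearMap.id ℝ ℂ) w :=
      (hasFDerivAt_id w).const_add _
    constructor
    · refine ((a1.comp w hI).sub (a2.comp w hP)).congr_fderiv ?_
      refine ContinuousLinearMap.ext fun u => ?_
      simp only [zero_apply, sub_apply,
        ContinuousLinearMap.comp_apply, ContinuousLinearMap.id_apply, b1, b2, hP', ga, gb,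
        map_mul, map_pow, map_neg, map_div₀, conj_conj]
      ring
    · refine ((a3.comp w hI).sub (a4.comp w hP)).congr_fderiv ?_
      refine ContinuousLinearMap.ext fun u => ?_
      simp only [zero_apply, sub_apply,
        ContinuousLinearMap.comp_apply, ContinuousLinearMap.id_apply, b3, b4, hP', ga, gb]
      rw [← conj_re (_ * _ * conj _)]
      simp only [map_mul, conj_conj]
      rw [sub_eq_zero]
      congr 1
      ring
  have hm : ∀ θ, circleMap 0 ‖d.bet e‖ θ ∈ Ω := fun θ => by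
    rw [hΩ, mem_ofPred_eq, norm_circleMap_zero, abs_of_pos hb]
    exact ⟨h.mat_sq_lt e, h.mat_lt_R e⟩
  have hp : ∀ θ, d.pos e + circleMap 0 ‖d.bet e‖ θ = circleMap (d.pos e) ‖d.bet e‖ θ :=
    fun θ => by simp [circleMap]
  have hsp := h.mat_sphere (opp e)
  rw [norm_bet_opp] at hsp
  have k1 := mat_avg (M := 0) (η := -(2 * arg (d.bet e))) hb.le
    ((h.H_cont (F.lay e)).mono (h.mat_sphere e)) ((h.H_cont (F.lay (opp e))).mono hsp)
    (F.H d (F.lay e) (d.pos e + v) - F.H d (F.lay (opp e)) (d.par e v)) fun θ => by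
      rw [← mat_rot e (h.bet_ne e), ← hp, norm_le_zero_iff, sub_eq_zero]
      exact hO.is_const_of_fderiv_eq_zero (𝕜 := ℝ) hc
        (fun w hw => (hD w hw).1.differentiableAt.differentiableWithinAt)
        (fun w hw => (hD w hw).1.fderiv) (hm θ) ⟨h1, h2⟩
  have k2 := mat_avg (M := 0) (η := -(2 * arg (d.bet e))) hb.le
    ((h.h0_cont (F.lay e)).mono (h.mat_sphere e)) ((h.h0_cont (F.lay (opp e))).mono hsp)
    (F.h0 d (F.lay e) (d.pos e + v) - F.h0 d (F.lay (opp e)) (d.par e v)) fun θ => by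
      rw [← mat_rot e (h.bet_ne e), ← hp, norm_le_zero_iff, sub_eq_zero]
      exact hO.is_const_of_fderiv_eq_zero (𝕜 := ℝ) hc
        (fun w hw => (hD w hw).2.differentiableAt.differentiableWithinAt)
        (fun w hw => (hD w hw).2.fderiv) (hm θ) ⟨h1, h2⟩
  rw [norm_le_zero_iff, sub_eq_zero] at k1 k2
  have j1 : F.Jh d e - F.Jh d (opp e) =
      F.H d (F.lay e) (d.pos e + v) - F.H d (F.lay (opp e)) (d.par e v) := by
    unfold Frm.Jh; rw [norm_bet_opp]; exact k1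
  have j2 : F.J3 d e - F.J3 d (opp e) =
      F.h0 d (F.lay e) (d.pos e + v) - F.h0 d (F.lay (opp e)) (d.par e v) := by
    unfold Frm.J3; rw [norm_bet_opp]; exact k2
  rw [X_eq_iff]
  rcases e with ⟨ν, _ | _⟩
  · have t1 := hs.bh ν
    have t2 := hs.b3 ν
    simp only [opp_false, lay_false, lay_true] at j1 j2 ⊢
    exact ⟨by linear_combination t1 - j1, by linarith⟩
  · have t1 := hs.bh ν
    have t2 := hs.b3 ν
    simp only [opp_true, lay_false, lay_true] at j1 j2 ⊢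
    exact ⟨by linear_combination -t1 - j1, by linarith⟩

end Frm.Adm

end Pool.Agent.MP_943ae2_gt
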