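import Pool.Agent.MP_943ae2_gt.AdmM
import Pool.Agent.MP_943ae2_gt.Mat

open Set Complex Filter Finset
open scoped Topology ComplexConjugate ContDiff

noncomputable section

namespace Pool.Agent.MP_943ae2_gt

def Prm.SS (x : Prm) (e : Nk × Bool) : ℂ :=
  ∑ μ ∈ frm.oth e, x.dat.bet μ / (x.dat.pos e - x.dat.pos μ)

def Prm.LL (x : Prm) (e : Nk × Bool) : ℝ :=
  ∑ μ ∈ frm.oth e, (if μ.2 then 1 else -1) * x.bq μ.1.j μ.1.k μ.1.i *
    Real.log ‖x.dat.pos e - x.dat.pos μ‖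

lemma err1_nb {e μ : Nk × Bool} (h : μ ∈ frm.oth e) : μ.1.j ≤ e.1.j + 1 ∧ e.1.j ≤ μ.1.j + 1 := by
  have a1 := admM_lev μ
  have a2 := admM_lev e
  rw [(mem_oth.1 h).2] at a1
  omega

lemma err1_t {e μ : Nk × Bool} (h : μ ∈ frm.oth e) {m : ℕ} (hm : 28 ≤ m) :
    tt μ.1.j ^ m ≤ tt e.1.j ^ 7 := by
  have h1 : tt μ.1.j ^ m ≤ tt μ.1.j ^ 28 :=
    pow_le_pow_of_le_one (tt_pos _).le (admM_tt_one _) hm
  have h2 : tt (μ.1.j + 1) ≤ tt e.1.j := tt_anti (err1_nb h).2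
  have h3 : tt μ.1.j ^ 28 = tt (μ.1.j + 1) ^ 7 := by rw [tt_succ, ← pow_mul]
  rw [h3] at h1
  exact h1.trans (pow_le_pow_left₀ (tt_pos _).le h2 7)

lemma err1_card (e : Nk × Bool) : ((frm.oth e).card : ℝ) ≤ PP e.1.j := by
  classical
  have h1 : (frm.oth e).card ≤ (frm.sides (frm.lay e)).card :=
    Finset.card_le_card fun μ hμ => mem_sides_iff.2 (mem_oth.1 hμ).2
  have h2 : ((frm.oth e).card : ℝ) ≤ (frm.sides (frm.lay e)).card := by exact_mod_cast h1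
  exact h2.trans ((card_sides _).trans (admM_PP_mono (admM_lev e).1))

lemma err1_rho_mono : Monotone rho := monotone_nat_of_le_succ fun j => by
  have h1 := admM_rho_succ j
  have h2 := rho_pos j
  linarith

lemma err1_rho_tt (j : ℕ) : rho j * tt j ^ 32 = 1 := by
  have := (tt_pos j).ne'
  unfold rho
  field_simp

lemma err1_PP_rho (j : ℕ) : PP j ≤ rho j :=
  (admM_PP_le j).trans (le_self_pow₀ (admM_inv_one j) (by norm_num))

lemma err1_small (j : ℕ) {m : ℕ} (hm : m < 60) {c : ℝ} (hc : c ≤ 1000) :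
    c * PP j ^ m * tt j ^ 7 ≤ tt j ^ 6 / 2 := by
  have ht := tt_pos j
  have hP := admM_PP_pos j
  have h1 := admM_pow_tt j (m := m + 1) (by omega)
  have h2 : (2000 : ℝ) ≤ PP j := le_trans (by norm_num) (PP_ge j)
  have h3 : c * PP j ^ m * tt j ≤ 1 / 2 := by
    have h4 : 0 ≤ PP j ^ m * tt j := by positivity
    have h5 : PP j ^ (m + 1) * tt j = PP j * (PP j ^ m * tt j) := by ring
    rw [h5] at h1
    have h6 : 2000 * (PP j ^ m * tt j) ≤ PP j * (PP j ^ m * tt j) := by gcongr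
    have h7 : c * (PP j ^ m * tt j) ≤ 1000 * (PP j ^ m * tt j) := by gcongr
    rw [mul_assoc]
    linarith
  calc c * PP j ^ m * tt j ^ 7 = c * PP j ^ m * tt j * tt j ^ 6 := by ring
    _ ≤ 1 / 2 * tt j ^ 6 := by gcongr
    _ = _ := by ring

lemma err1_alg (p ra rb β B0 B1 S0 S1 : ℂ) (q : ℝ) (hq : q ≠ 0) :
    p * (conj ra + rb) / (2 * q) - p * (S0 - S1) =
      (p * (conj (ra - 2 * β * conj B1) + (rb + 2 * β * B0)) +
        2 * (conj β * (p * (B1 + S1)) - β * (p * (B0 + S0))) +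
        2 * ((β - q) * (p * S0) - (conj β - q) * (p * S1))) / (2 * q) := by
  have : (q : ℂ) ≠ 0 := by exact_mod_cast hq
  simp only [map_sub, map_mul, conj_conj, map_ofNat]
  field_simp
  ring

namespace InK

variable {x : Prm} (hx : InK x)
include hx

lemma err1_lam (e : Nk × Bool) :
    ∑ μ ∈ frm.oth e, ‖x.dat.bet μ‖ / ‖x.dat.pos e - x.dat.pos μ‖ ≤
      PP e.1.j ^ 3 * tt e.1.j ^ 32 := by
  have hP := admM_PP_pos e.1.j
  have ht := tt_pos e.1.j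
  have hn := admM_nn_pos e.1.j
  have hr := rho_pos e.1.j
  have hb : ∀ μ ∈ frm.oth e, ‖x.dat.bet μ‖ / ‖x.dat.pos e - x.dat.pos μ‖ ≤
      PP e.1.j ^ 2 * tt e.1.j ^ 32 := by
    intro μ hμ
    have h2 := hx.admM_bet_le (err1_nb hμ).1
    have h3 := hx.sep_oth hμ
    have h4 : rho e.1.j / PP e.1.j ≤ rho e.1.j / (4 * nn e.1.j) := by
      gcongr; linarith [admM_nn_le e.1.j]
    have h5 : 0 < rho e.1.j / PP e.1.j := by positivity
    calc _ ≤ PP e.1.j / (rho e.1.j / PP e.1.j) := by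
          gcongr
          · linarith [norm_nonneg (x.dat.bet μ)]
          · exact h4.trans h3
      _ = _ := by unfold rho; field_simp
  calc _ ≤ ∑ _μ ∈ frm.oth e, PP e.1.j ^ 2 * tt e.1.j ^ 32 := Finset.sum_le_sum hb
    _ = (frm.oth e).card * (PP e.1.j ^ 2 * tt e.1.j ^ 32) := by
        rw [Finset.sum_const, nsmul_eq_mul]
    _ ≤ PP e.1.j * (PP e.1.j ^ 2 * tt e.1.j ^ 32) := by gcongr; exact err1_card e
    _ = _ := by ring

lemma err1_SS (e : Nk × Bool) : ‖x.SS e‖ ≤ PP e.1.j ^ 3 * tt e.1.j ^ 32 := by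
  refine le_trans (norm_sum_le _ _) (le_trans (le_of_eq ?_) (hx.err1_lam e))
  exact Finset.sum_congr rfl fun μ _ => norm_div _ _

lemma err1_B (e : Nk × Bool) :
    ‖(frm.spin x.dat).2 e 0 + x.SS e‖ ≤ 2 * tt e.1.j ^ 7 * (PP e.1.j ^ 3 * tt e.1.j ^ 32) := by
  have ht := tt_pos e.1.j
  refine (hx.adm.B0_est e).trans ?_
  calc _ ≤ ∑ μ ∈ frm.oth e,
        2 * tt e.1.j ^ 7 * (‖x.dat.bet μ‖ / ‖x.dat.pos e - x.dat.pos μ‖) := by
        refine Finset.sum_le_sum fun μ hμ => ?_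
        rw [mul_div_assoc]
        have := err1_t hμ (m := 30) (by norm_num)
        change 2 * tt μ.1.j ^ 30 * _ ≤ _
        gcongr
    _ = 2 * tt e.1.j ^ 7 * ∑ μ ∈ frm.oth e, ‖x.dat.bet μ‖ / ‖x.dat.pos e - x.dat.pos μ‖ := by
        rw [Finset.mul_sum]
    _ ≤ _ := by gcongr; exact hx.err1_lam e

lemma err1_pp (ν : Nk) {z : ℂ} {c : ℝ} (hc : 0 ≤ c) (hz : ‖z‖ ≤ c * tt ν.j ^ 32) :
    ‖x.pp ν.j ν.k ν.i * z‖ ≤ 2 * c := by
  have h1 : ‖x.pp ν.j ν.k ν.i‖ ≤ 11 / 10 * rho ν.j := by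
    have := hx.pos_le (ν, false)
    rw [Pos_pos] at this
    simpa using this
  have hr := rho_pos ν.j
  rw [norm_mul]
  calc _ ≤ (11 / 10 * rho ν.j) * (c * tt ν.j ^ 32) := by gcongr
    _ = 11 / 10 * c * (rho ν.j * tt ν.j ^ 32) := by ring
    _ ≤ 2 * c := by rw [err1_rho_tt]; linarith

theorem Ft_near (ν : Nk) :
    ‖x.Ft ν.j ν.k ν.i - x.pp ν.j ν.k ν.i * (x.SS (ν, false) - x.SS (ν, true))‖ ≤ tt ν.j ^ 6 / 2 := by
  have hP := admM_PP_pos ν.j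
  have hP1 := admM_PP_one ν.j
  have ht := tt_pos ν.j
  have ht1 := admM_tt_one ν.j
  have hq := hx.bq_ge ν
  have hq0 : 0 < x.bq ν.j ν.k ν.i := lt_of_lt_of_le (by positivity) hq
  have hF : x.Ft ν.j ν.k ν.i = x.pp ν.j ν.k ν.i *
      (conj (frm.ra x.dat (ν, false)) + frm.rb x.dat (ν, false)) / (2 * x.bq ν.j ν.k ν.i) := by
    unfold Prm.Ft Prm.ext
    rw [dif_pos ⟨ν.h1, ν.h2⟩]
  set β := x.dat.bet (ν, false) with hβ
  have hβP : ‖β‖ ≤ PP ν.j := by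
    have := hx.admM_bet_le (e := (ν, false)) (l := ν.j) (Nat.le_succ _)
    linarith [norm_nonneg β]
  have hβq : β - x.bq ν.j ν.k ν.i = x.io ν.j ν.k ν.i * I := by
    rw [hβ, bet_false]; simp [Prm.dat]
  have hio : ‖β - x.bq ν.j ν.k ν.i‖ ≤ tt ν.j ^ 28 := by
    rw [hβq, norm_mul, norm_I, mul_one, norm_real, Real.norm_eq_abs]; exact hx.io_le _ _ _
  have hio' : ‖conj β - x.bq ν.j ν.k ν.i‖ ≤ tt ν.j ^ 28 := by
    rw [← conj_ofReal (x.bq ν.j ν.k ν.i), ← map_sub, norm_conj]; exact hio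
  rw [hF, err1_alg _ _ _ β ((frm.spin x.dat).2 (ν, false) 0) ((frm.spin x.dat).2 (ν, true) 0) _ _ _
    hq0.ne']
  have a1 := hx.adm.ra_est (ν, false)
  have a2 := hx.adm.rb_est (ν, false)
  rw [opp_false] at a1
  change _ ≤ 16 * ‖β‖ * tt ν.j ^ 60 at a1 a2
  have a3 : ‖conj (frm.ra x.dat (ν, false) - 2 * β * conj ((frm.spin x.dat).2 (ν, true) 0)) +
      (frm.rb x.dat (ν, false) + 2 * β * (frm.spin x.dat).2 (ν, false) 0)‖ ≤
      (32 * PP ν.j * tt ν.j ^ 28) * tt ν.j ^ 32 := by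
    refine (norm_add_le _ _).trans ?_
    rw [norm_conj]
    have : 16 * ‖β‖ * tt ν.j ^ 60 ≤ 16 * PP ν.j * tt ν.j ^ 60 := by gcongr
    have e : (32 * PP ν.j * tt ν.j ^ 28) * tt ν.j ^ 32 = 2 * (16 * PP ν.j * tt ν.j ^ 60) := by ring
    linarith
  have b1 := hx.err1_pp ν (by positivity) a3
  have hB : ∀ s, ‖x.pp ν.j ν.k ν.i * ((frm.spin x.dat).2 (ν, s) 0 + x.SS (ν, s))‖ ≤
      2 * (2 * tt ν.j ^ 7 * PP ν.j ^ 3) := fun s =>
    hx.err1_pp ν (by positivity) ((hx.err1_B (ν, s)).trans (le_of_eq (by ring)))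
  have hS : ∀ s, ‖x.pp ν.j ν.k ν.i * x.SS (ν, s)‖ ≤ 2 * PP ν.j ^ 3 := fun s =>
    hx.err1_pp ν (by positivity) (hx.err1_SS (ν, s))
  have b2 : ‖conj β * (x.pp ν.j ν.k ν.i * ((frm.spin x.dat).2 (ν, true) 0 + x.SS (ν, true))) -
      β * (x.pp ν.j ν.k ν.i * ((frm.spin x.dat).2 (ν, false) 0 + x.SS (ν, false)))‖ ≤
      2 * (PP ν.j * (2 * (2 * tt ν.j ^ 7 * PP ν.j ^ 3))) := by
    refine (norm_sub_le _ _).trans ?_
    rw [norm_mul (conj β), norm_mul β, norm_conj, two_mul (PP ν.j * _)]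
    have := hB true
    have := hB false
    gcongr
  have b3 : ‖(β - x.bq ν.j ν.k ν.i) * (x.pp ν.j ν.k ν.i * x.SS (ν, false)) -
      (conj β - x.bq ν.j ν.k ν.i) * (x.pp ν.j ν.k ν.i * x.SS (ν, true))‖ ≤
      2 * (tt ν.j ^ 28 * (2 * PP ν.j ^ 3)) := by
    refine (norm_sub_le _ _).trans ?_
    rw [norm_mul (conj β - _), norm_mul (β - _), two_mul (tt ν.j ^ 28 * _)]
    have := hS true
    have := hS false
    gcongr
  have h28 : tt ν.j ^ 28 ≤ tt ν.j ^ 7 := pow_le_pow_of_le_one ht.le ht1 (by norm_num)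
  have hp1 : PP ν.j ≤ PP ν.j ^ 4 := le_self_pow₀ hP1 (by norm_num)
  have hp3 : PP ν.j ^ 3 ≤ PP ν.j ^ 4 := pow_le_pow_right₀ hP1 (by norm_num)
  have c1 : PP ν.j * tt ν.j ^ 28 ≤ PP ν.j ^ 4 * tt ν.j ^ 7 := by gcongr
  have c3 : PP ν.j ^ 3 * tt ν.j ^ 28 ≤ PP ν.j ^ 4 * tt ν.j ^ 7 := by gcongr
  have hn2 : ‖(2 : ℂ) * (x.bq ν.j ν.k ν.i : ℝ)‖ = 2 * x.bq ν.j ν.k ν.i := by
    rw [norm_mul, norm_real, Real.norm_eq_abs, abs_of_pos hq0]; simp
  rw [norm_div, hn2]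
  refine le_trans ?_ (err1_small ν.j (m := 6) (by norm_num) (c := 44) (by norm_num))
  rw [div_le_iff₀ (by positivity)]
  have d1 : 88 * PP ν.j ^ 4 * tt ν.j ^ 7 ≤ 44 * PP ν.j ^ 6 * tt ν.j ^ 7 * (2 * x.bq ν.j ν.k ν.i) := by
    calc _ = 44 * PP ν.j ^ 6 * tt ν.j ^ 7 * (2 * (PP ν.j)⁻¹ ^ 2) := by field_simp; norm_num
      _ ≤ _ := by gcongr
  refine le_trans ?_ d1
  refine (norm_add_le _ _).trans ?_
  refine (add_le_add (norm_add_le _ _) le_rfl).trans ?_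
  rw [norm_mul (2 : ℂ), norm_mul (2 : ℂ), Complex.norm_ofNat]
  nlinarith

lemma err1_log {e μ : Nk × Bool} (h : μ ∈ frm.oth e) :
    |Real.log ‖x.dat.pos e - x.dat.pos μ‖| ≤ PP e.1.j := by
  have h3 := hx.sep_oth h
  have hn := admM_nn_pos e.1.j
  have h1 : 1 ≤ rho e.1.j / (4 * nn e.1.j) := by
    rw [le_div_iff₀ (by positivity)]
    linarith [admM_nn_le e.1.j, err1_PP_rho e.1.j]
  rw [abs_of_nonneg (Real.log_nonneg (h1.trans h3))]
  have h4 := hx.pos_le e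
  have h5 := hx.pos_le μ
  have h6 : rho e.1.j ≤ rho (e.1.j + 1) := err1_rho_mono (Nat.le_succ _)
  have h7 : rho μ.1.j ≤ rho (e.1.j + 1) := err1_rho_mono (err1_nb h).1
  have h8 := admM_rho_ge (e.1.j + 1)
  have h9 : ‖x.dat.pos e - x.dat.pos μ‖ ≤ rho (e.1.j + 1) ^ 2 := by
    have := norm_sub_le (x.dat.pos e) (x.dat.pos μ)
    nlinarith
  have h10 := Real.log_le_log (by linarith) h9
  rw [Real.log_pow] at h10
  have h11 := ell_le_PP e.1.j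
  have h12 : 0 ≤ ell (e.1.j + 1) := Real.log_nonneg (by linarith)
  change _ ≤ ((2 : ℕ) : ℝ) * ell (e.1.j + 1) at h10
  push_cast at h10
  linarith

lemma err1_LL (e : Nk × Bool) :
    |∑ μ ∈ frm.oth e, (frm.rab x.dat μ).re * Real.log ‖x.dat.pos e - x.dat.pos μ‖ - x.LL e| ≤
      PP e.1.j ^ 2 * tt e.1.j ^ 7 := by
  have hP := admM_PP_pos e.1.j
  have ht := tt_pos e.1.j
  rw [Prm.LL, ← Finset.sum_sub_distrib]
  refine (Finset.abs_sum_le_sum_abs _ _).trans ?_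
  calc _ ≤ ∑ _μ ∈ frm.oth e, tt e.1.j ^ 7 * PP e.1.j := by
        refine Finset.sum_le_sum fun μ hμ => ?_
        rw [← sub_mul, abs_mul]
        have h1 := (hx.rab_re μ).trans (err1_t hμ (m := 29) (by norm_num))
        have h2 : |(frm.rab x.dat μ).re - (if μ.2 then 1 else -1) * x.bq μ.1.j μ.1.k μ.1.i| ≤
            tt e.1.j ^ 7 := by
          refine le_trans (le_of_eq ?_) h1
          split_ifs
          · simp
          · rw [← abs_neg]; congr 1; ring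
        have h3 := hx.err1_log hμ
        gcongr
    _ = (frm.oth e).card * (tt e.1.j ^ 7 * PP e.1.j) := by
        rw [Finset.sum_const, nsmul_eq_mul]
    _ ≤ PP e.1.j * (tt e.1.j ^ 7 * PP e.1.j) := by gcongr; exact err1_card e
    _ = _ := by ring

theorem Dt_near (ν : Nk) :
    |x.Dt ν.j ν.k ν.i - (-2 * x.bq ν.j ν.k ν.i * Real.log (x.bq ν.j ν.k ν.i) +
      x.LL (ν, false) - x.LL (ν, true))| ≤ tt ν.j ^ 6 / 2 := by
  have hP := admM_PP_pos ν.j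
  have hP1 := admM_PP_one ν.j
  have ht := tt_pos ν.j
  have ht1 := admM_tt_one ν.j
  have hq := hx.bq_ge ν
  have hq0 : 0 < x.bq ν.j ν.k ν.i := lt_of_lt_of_le (by positivity) hq
  have hD : x.Dt ν.j ν.k ν.i = frm.J3 x.dat (ν, false) - frm.J3 x.dat (ν, true) := by
    unfold Prm.Dt Prm.ext
    rw [dif_pos ⟨ν.h1, ν.h2⟩]
  have j0 := hx.adm.J3_est (ν, false)
  have j1 := hx.adm.J3_est (ν, true)
  change _ ≤ tt ν.j ^ 13 at j0 j1
  have l0 := hx.err1_LL (ν, false)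
  have l1 := hx.err1_LL (ν, true)
  have r0 := hx.rab_re (ν, false)
  have r1 := hx.rab_re (ν, true)
  simp only [Bool.false_eq_true, if_false, if_true, neg_mul, one_mul] at r0 r1
  have hb : ‖x.dat.bet (ν, true)‖ = ‖x.dat.bet (ν, false)‖ := norm_bet_opp (ν, false)
  rw [hb] at j1
  set b := ‖x.dat.bet (ν, false)‖ with hbdef
  have hb1 : tt ν.j ≤ b := hx.adm.b_ge (ν, false)
  have hb2 : b ≤ (tt ν.j)⁻¹ := hx.adm.bet_le (ν, false)
  have hlog : |Real.log b| ≤ (tt ν.j)⁻¹ := by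
    have h1 := Real.log_le_log ht hb1
    have h2 := Real.log_le_log (ht.trans_le hb1) hb2
    have h3 := Real.log_le_sub_one_of_pos (inv_pos.2 ht)
    rw [Real.log_inv] at h2 h3
    rw [abs_le]
    constructor <;> linarith
  have hnear := hx.bet_near (ν, false)
  change |b - x.bq ν.j ν.k ν.i| ≤ tt ν.j ^ 28 at hnear
  have hge : x.bq ν.j ν.k ν.i ≤ b := by
    rw [hbdef, Pos_bet]
    refine le_trans (le_of_eq ?_) (re_le_norm _)
    simp
  have hm := mat_log (ρ := b) hq0 (by linarith) hnear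
  have m1 : |x.bq ν.j ν.k ν.i * (Real.log b - Real.log (x.bq ν.j ν.k ν.i))| ≤ 2 * tt ν.j ^ 28 := by
    rw [abs_mul, abs_of_pos hq0]
    calc _ ≤ x.bq ν.j ν.k ν.i * (2 * tt ν.j ^ 28 / x.bq ν.j ν.k ν.i) := by gcongr
      _ = _ := by field_simp
  have e29 : tt ν.j ^ 29 * (tt ν.j)⁻¹ = tt ν.j ^ 28 := by field_simp
  have m2 : |(-(frm.rab x.dat (ν, false)).re - x.bq ν.j ν.k ν.i) * Real.log b| ≤ tt ν.j ^ 28 := by
    rw [abs_mul, ← e29]; gcongr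
  have m3 : |((frm.rab x.dat (ν, true)).re - x.bq ν.j ν.k ν.i) * Real.log b| ≤ tt ν.j ^ 28 := by
    rw [abs_mul, ← e29]; gcongr
  have h28 : tt ν.j ^ 28 ≤ tt ν.j ^ 7 := pow_le_pow_of_le_one ht.le ht1 (by norm_num)
  have h13 : tt ν.j ^ 13 ≤ tt ν.j ^ 7 := pow_le_pow_of_le_one ht.le ht1 (by norm_num)
  have h7 : tt ν.j ^ 7 ≤ PP ν.j ^ 2 * tt ν.j ^ 7 :=
    le_mul_of_one_le_left (by positivity) (one_le_pow₀ hP1)
  have hs := err1_small ν.j (m := 2) (by norm_num) (c := 10) (by norm_num)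
  rw [hD]
  rw [abs_le] at j0 j1 l0 l1 m1 m2 m3 ⊢
  simp only at l0 l1
  constructor <;> linarith [j0.1, j0.2, j1.1, j1.2, l0.1, l0.2, l1.1, l1.2, m1.1, m1.2, m2.1, m2.2,
    m3.1, m3.2]

end InK

end Pool.Agent.MP_943ae2_gt
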