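import Pool.Agent.MP_943ae2_gt.W1

open Set Complex Filter Finset
open scoped Topology ComplexConjugate ContDiff

noncomputable section

namespace Pool.Agent.MP_943ae2_gt

lemma W2_kap {l : ℂ} {P : ℝ} (hP : 0 < P) (h : P⁻¹ ≤ ‖1 - l‖) : ‖kap l‖ ≤ P := by
  have h0 : 0 < P⁻¹ := inv_pos.2 hP
  rw [kap, norm_div, norm_one, one_div]
  exact (inv_le_comm₀ (h0.trans_le h) hP).2 h

lemma W2_small {P r : ℝ} (hP : 1000 ≤ P) (hr : r ≤ P⁻¹ ^ 4) : r * P ^ 4 ≤ 1 := by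
  have h0 : 0 < P := by linarith
  calc r * P ^ 4 ≤ P⁻¹ ^ 4 * P ^ 4 := by gcongr
    _ = 1 := by rw [← mul_pow, inv_mul_cancel₀ h0.ne', one_pow]

lemma W2_core {l u : ℂ} {c e P r : ℝ} (hP : 1000 ≤ P) (hr : r ≤ P⁻¹ ^ 4) (hl : ‖l‖ ≤ 2)
    (hs : P⁻¹ ≤ ‖1 - l‖) (hu : ‖u‖ ≤ 2 * r) (hc : |c| ≤ P) (he : |e| ≤ r) :
    ‖((c + e : ℝ) : ℂ) * kap (l * exp u) - c * kap l -
      (e * kap l + c * (l * kap l ^ 2) * u)‖ ≤ 200 * P ^ 4 * r ^ 2 := by
  have h0 : 0 < P := by linarith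
  have r0 : 0 ≤ r := (abs_nonneg e).trans he
  have hsm := W2_small hP hr
  have hP3 : (1000 : ℝ) ≤ P ^ 3 := by nlinarith [mul_pos h0 h0]
  have hrP : r * P * 1000 ≤ 1 := by
    have : r * P * 1000 ≤ r * P * P ^ 3 := by gcongr
    nlinarith
  have hr1 : r * 1000 ≤ 1 := by nlinarith
  have hu1 : ‖u‖ ≤ 1 := by linarith
  set d := exp u - 1 with hd
  have hd1 : ‖d‖ ≤ 4 * r := (Complex.norm_exp_sub_one_le hu1).trans (by linarith)
  have hd2 : ‖d - u‖ ≤ 4 * r ^ 2 := by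
    refine (Complex.norm_exp_sub_one_sub_id_le hu1).trans ?_
    calc ‖u‖ ^ 2 ≤ (2 * r) ^ 2 := by gcongr
      _ = 4 * r ^ 2 := by ring
  have hK : ‖kap l‖ ≤ P := W2_kap h0 hs
  have hld : ‖l * d‖ ≤ 8 * r := by
    rw [norm_mul]
    calc ‖l‖ * ‖d‖ ≤ 2 * (4 * r) := by gcongr
      _ = 8 * r := by ring
  have hs' : (2 * P)⁻¹ ≤ ‖1 - l * exp u‖ := by
    have e1 : 1 - l * exp u = (1 - l) - l * d := by rw [hd]; ring
    have h1 : ‖1 - l‖ - ‖l * d‖ ≤ ‖1 - l * exp u‖ := by rw [e1]; exact norm_sub_norm_le _ _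
    have h2 : 8 * r ≤ (2 * P)⁻¹ := by
      rw [← one_div, le_div_iff₀ (by linarith)]; nlinarith
    have h3 : P⁻¹ = (2 * P)⁻¹ + (2 * P)⁻¹ := by field_simp; ring
    linarith
  have hK' : ‖kap (l * exp u)‖ ≤ 2 * P := W2_kap (by linarith) hs'
  have n1 : 1 - l ≠ 0 := norm_pos_iff.1 ((inv_pos.2 h0).trans_le hs)
  have n2 : 1 - l * exp u ≠ 0 := norm_pos_iff.1 ((inv_pos.2 (by linarith)).trans_le hs')
  have key : kap (l * exp u) - kap l = kap (l * exp u) * kap l * l * d := by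
    rw [kap, kap, hd]; field_simp; ring
  have e2 : ((c + e : ℝ) : ℂ) * kap (l * exp u) - c * kap l -
      (e * kap l + c * (l * kap l ^ 2) * u) =
      e * (kap (l * exp u) * kap l * l * d) +
        c * (l * kap l * (kap (l * exp u) * kap l * l * d * d + kap l * (d - u))) := by
    push_cast
    linear_combination (e + c + c * l * kap l * d) * key
  have b1 : ‖kap (l * exp u) * kap l * l * d‖ ≤ 2 * P * P * 2 * (4 * r) := by
    simp only [norm_mul]; gcongr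
  have b2 : ‖kap (l * exp u) * kap l * l * d * d + kap l * (d - u)‖ ≤
      2 * P * P * 2 * (4 * r) * (4 * r) + P * (4 * r ^ 2) := by
    refine (norm_add_le _ _).trans (add_le_add ?_ ?_)
    · rw [norm_mul]; gcongr
    · rw [norm_mul]; gcongr
  rw [e2]
  refine (norm_add_le _ _).trans ?_
  have b3 : ‖(e : ℂ) * (kap (l * exp u) * kap l * l * d)‖ ≤ r * (2 * P * P * 2 * (4 * r)) := by
    rw [norm_mul, Complex.norm_real, Real.norm_eq_abs]; gcongr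
  have b4 : ‖(c : ℂ) * (l * kap l * (kap (l * exp u) * kap l * l * d * d + kap l * (d - u)))‖ ≤
      P * (2 * P * (2 * P * P * 2 * (4 * r) * (4 * r) + P * (4 * r ^ 2))) := by
    rw [norm_mul, norm_mul, norm_mul, Complex.norm_real, Real.norm_eq_abs]; gcongr
  have q1 : P ^ 2 * r ^ 2 ≤ P ^ 4 * r ^ 2 := by gcongr <;> linarith
  have q2 : P ^ 3 * r ^ 2 ≤ P ^ 4 * r ^ 2 := by gcongr <;> linarith
  nlinarith

lemma W2_lin {l u : ℂ} {c e P r : ℝ} (hP : 1000 ≤ P) (hl : ‖l‖ ≤ 2)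
    (hs : P⁻¹ ≤ ‖1 - l‖) (hu : ‖u‖ ≤ 2 * r) (hc : |c| ≤ P) (he : |e| ≤ r) :
    ‖(e : ℂ) * kap l + c * (l * kap l ^ 2) * u‖ ≤ 5 * P ^ 3 * r := by
  have h0 : 0 < P := by linarith
  have r0 : 0 ≤ r := (abs_nonneg e).trans he
  have hK : ‖kap l‖ ≤ P := W2_kap h0 hs
  have b1 : ‖(e : ℂ) * kap l‖ ≤ r * P := by
    rw [norm_mul, Complex.norm_real, Real.norm_eq_abs]; gcongr
  have b2 : ‖(c : ℂ) * (l * kap l ^ 2) * u‖ ≤ P * (2 * P ^ 2) * (2 * r) := by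
    rw [norm_mul, norm_mul, norm_mul, norm_pow, Complex.norm_real, Real.norm_eq_abs]; gcongr
  have q1 : P ^ 1 * r ≤ P ^ 3 * r := by gcongr <;> linarith
  refine (norm_add_le _ _).trans ?_
  nlinarith

lemma W2_ratio {x y : ℂ} (hx : x ≠ 0) : ‖1 - y / x‖ = ‖x - y‖ / ‖x‖ := by
  rw [← norm_div, sub_div, div_self hx]

section
variable {w : Wall} {n : ℕ} [NeZero n] {P : ℝ}

lemma W2_norm_p0 (k : ℕ) (i : ZMod n) : ‖w.p0 n k i‖ = Real.exp (w.lr k) := by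
  rw [Wall.p0, norm_mul, norm_un, mul_one, Complex.norm_real, Real.norm_eq_abs,
    abs_of_pos (Real.exp_pos _)]

lemma W2_p0_ne (k : ℕ) (i : ZMod n) : w.p0 n k i ≠ 0 :=
  norm_pos_iff.1 (by rw [W2_norm_p0]; exact Real.exp_pos _)

omit [NeZero n] in
lemma W2_c (hb : w.Bd n P) (k : ℕ) : |w.c k| ≤ P := by
  have h0 : 0 < P := by linarith [hb.P_ge]
  have : 0 ≤ w.c k := by
    rcases Nat.eq_zero_or_pos k with rfl | h1
    · exact hb.c_zero.ge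
    · rcases lt_or_ge k w.N with h2 | h2
      · exact (inv_pos.2 h0).le.trans (hb.c_ge k h1 h2)
      · exact (hb.c_out k h2).ge
  rw [abs_of_nonneg this]; exact hb.c_le k

lemma W2_inv (hb : w.Bd n P) : P⁻¹ ≤ 1 / (n : ℝ) := by
  have : (0 : ℝ) < n := Nat.cast_pos.2 (NeZero.pos n)
  rw [one_div]; exact inv_anti₀ this hb.n_le

lemma W2_same (hb : w.Bd n P) (k : ℕ) {i j : ZMod n} (h : j ≠ i) :
    ‖w.p0 n k j / w.p0 n k i‖ ≤ 2 ∧ P⁻¹ ≤ ‖1 - w.p0 n k j / w.p0 n k i‖ := by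
  have hn : (0 : ℝ) < n := Nat.cast_pos.2 (NeZero.pos n)
  have he := Real.exp_pos (w.lr k)
  constructor
  · rw [norm_div, W2_norm_p0, W2_norm_p0, div_self he.ne']; norm_num
  · rw [W2_ratio (W2_p0_ne k i), W2_norm_p0, Wall.p0, Wall.p0, ← mul_sub, norm_mul,
      Complex.norm_real, Real.norm_eq_abs, abs_of_pos he, mul_div_cancel_left₀ _ he.ne']
    refine (W2_inv hb).trans (le_trans ?_ (sep_same n k h))
    gcongr; norm_num

lemma W2_exp {a b : ℝ} (h : |a - b| ≤ 1 / 4) : Real.exp a ≤ 2 * Real.exp b := by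
  have h1 : Real.exp a * Real.exp (b - a) = Real.exp b := by rw [← Real.exp_add]; congr 1; ring
  have h2 := Real.add_one_le_exp (b - a)
  have h3 := (abs_le.1 h).2
  have h4 := Real.exp_pos a
  nlinarith

omit [NeZero n] in
lemma W2_lr (hb : w.Bd n P) {k : ℕ} (hk : k < w.N) : |w.lr k - w.lr (k + 1)| ≤ 1 / 4 := by
  have h := hb.y_le k hk
  have h2 : (2 : ℝ) ≤ n := by exact_mod_cast hb.n_ge
  rw [Wall.y, abs_mul, abs_of_nonneg (by linarith : (0 : ℝ) ≤ n)] at h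
  nlinarith [abs_nonneg (w.lr k - w.lr (k + 1))]

lemma W2_cross (hb : w.Bd n P) {k : ℕ} (hk : k < w.N) (i j : ZMod n) :
    (‖w.p0 n (k + 1) j / w.p0 n k i‖ ≤ 2 ∧ P⁻¹ ≤ ‖1 - w.p0 n (k + 1) j / w.p0 n k i‖) ∧
    (‖w.p0 n k i / w.p0 n (k + 1) j‖ ≤ 2 ∧ P⁻¹ ≤ ‖1 - w.p0 n k i / w.p0 n (k + 1) j‖) := by
  have hn : (0 : ℝ) < n := Nat.cast_pos.2 (NeZero.pos n)
  have ha := Real.exp_pos (w.lr k)
  have hc := Real.exp_pos (w.lr (k + 1))
  have h1 := W2_exp (W2_lr hb hk)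
  have h2 := W2_exp (a := w.lr (k + 1)) (b := w.lr k) (by rw [abs_sub_comm]; exact W2_lr hb hk)
  have hs : 2 * min (Real.exp (w.lr k)) (Real.exp (w.lr (k + 1))) / n ≤
      ‖w.p0 n k i - w.p0 n (k + 1) j‖ := sep_cross n k i j ha hc
  have m1 : Real.exp (w.lr k) ≤ 2 * min (Real.exp (w.lr k)) (Real.exp (w.lr (k + 1))) := by
    rcases le_total (Real.exp (w.lr k)) (Real.exp (w.lr (k + 1))) with h | h
    · rw [min_eq_left h]; linarith
    · rw [min_eq_right h]; linarith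
  have m2 : Real.exp (w.lr (k + 1)) ≤ 2 * min (Real.exp (w.lr k)) (Real.exp (w.lr (k + 1))) := by
    rcases le_total (Real.exp (w.lr k)) (Real.exp (w.lr (k + 1))) with h | h
    · rw [min_eq_left h]; linarith
    · rw [min_eq_right h]; linarith
  refine ⟨⟨?_, ?_⟩, ?_, ?_⟩
  · rw [norm_div, W2_norm_p0, W2_norm_p0, div_le_iff₀ ha]; exact h2
  · rw [W2_ratio (W2_p0_ne k i), W2_norm_p0, le_div_iff₀ ha]
    refine le_trans ?_ hs
    calc P⁻¹ * Real.exp (w.lr k) ≤ 1 / n * Real.exp (w.lr k) := by gcongr; exact W2_inv hb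
      _ = Real.exp (w.lr k) / n := by ring
      _ ≤ _ := by gcongr
  · rw [norm_div, W2_norm_p0, W2_norm_p0, div_le_iff₀ hc]; exact h1
  · rw [W2_ratio (W2_p0_ne (k + 1) j), W2_norm_p0, le_div_iff₀ hc, norm_sub_rev]
    refine le_trans ?_ hs
    calc P⁻¹ * Real.exp (w.lr (k + 1)) ≤ 1 / n * Real.exp (w.lr (k + 1)) := by
          gcongr; exact W2_inv hb
      _ = Real.exp (w.lr (k + 1)) / n := by ring
      _ ≤ _ := by gcongr

lemma W2_three (hb : w.Bd n P) {k : ℕ} (h1 : 1 ≤ k) (h2 : k < w.N) (i : ZMod n)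
    (T : ℕ → ZMod n → ℂ) {B : ℝ} (hB : 0 ≤ B)
    (hT : ∀ k' j, ‖w.p0 n k' j / w.p0 n k i‖ ≤ 2 → P⁻¹ ≤ ‖1 - w.p0 n k' j / w.p0 n k i‖ →
      ‖T k' j‖ ≤ B) :
    ‖2 * ∑ j ∈ univ.erase i, T k j - ∑ j, T (k + 1) j - ∑ j, T (k - 1) j‖ ≤ 4 * P * B := by
  have hcard : ∀ s : Finset (ZMod n), (s.card : ℝ) * B ≤ P * B := by
    intro s
    have : s.card ≤ n := by simpa [ZMod.card] using s.card_le_univ
    have h : (s.card : ℝ) ≤ P := (Nat.cast_le.2 this).trans hb.n_le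
    gcongr
  have hsum : ∀ (s : Finset (ZMod n)) (f : ZMod n → ℂ), (∀ j ∈ s, ‖f j‖ ≤ B) →
      ‖∑ j ∈ s, f j‖ ≤ P * B := by
    intro s f hf
    refine (norm_sum_le _ _).trans (le_trans ?_ (hcard s))
    simpa using Finset.sum_le_card_nsmul s _ B hf
  have a1 := hsum (univ.erase i) (T k) fun j hj =>
    hT k j (W2_same hb k (Finset.ne_of_mem_erase hj)).1 (W2_same hb k (Finset.ne_of_mem_erase hj)).2
  have a2 := hsum univ (T (k + 1)) fun j _ =>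
    hT (k + 1) j (W2_cross hb h2 i j).1.1 (W2_cross hb h2 i j).1.2
  have a3 := hsum univ (T (k - 1)) fun j _ => by
    have h := (W2_cross hb (k := k - 1) (by omega) j i).2
    rw [Nat.sub_add_cancel h1] at h
    exact hT (k - 1) j h.1 h.2
  refine (norm_sub_le _ _).trans ?_
  have a4 := norm_sub_le (2 * ∑ j ∈ univ.erase i, T k j) (∑ j, T (k + 1) j)
  rw [norm_mul, Complex.norm_ofNat] at a4
  linarith

lemma W2_pdiv (ξ : ℕ → ZMod n → ℂ) (k k' : ℕ) (i j : ZMod n) :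
    w.p n ξ k' j / w.p n ξ k i = w.p0 n k' j / w.p0 n k i * exp (ξ k' j - ξ k i) := by
  rw [Wall.p, Wall.p, Complex.exp_sub, mul_div_mul_comm]

end

variable {w : Wall} {n : ℕ} [NeZero n] {ξ : ℕ → ZMod n → ℂ} {ε : ℕ → ZMod n → ℝ} {P r : ℝ}
  (hb : w.Bd n P) (hr : r ≤ P⁻¹ ^ 4) (hξ : ∀ k i, ‖ξ k i‖ ≤ r) (hε : ∀ k i, |ε k i| ≤ r)
  (hε0 : ∀ k i, (k = 0 ∨ w.N ≤ k) → ε k i = 0)
include hb hr hξ hε hε0

theorem Fw_taylor {k : ℕ} (h1 : 1 ≤ k) (h2 : k < w.N) (i : ZMod n) :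
    ‖w.Fw n ξ ε k i - w.Em n k - w.LF n ξ ε k i‖ ≤ P ^ 7 * r ^ 2 := by
  have _ := hε0
  have hP := hb.P_ge
  have h0 : 0 < P := by linarith
  have h := W2_three hb h1 h2 i (fun k' j => ((w.c k' + ε k' j : ℝ) : ℂ) *
      kap (w.p0 n k' j / w.p0 n k i * exp (ξ k' j - ξ k i)) -
      w.c k' * kap (w.p0 n k' j / w.p0 n k i) - w.lf n ξ ε k i k' j)
    (B := 200 * P ^ 4 * r ^ 2) (by positivity) fun k' j a b =>
      W2_core hP hr a b ((norm_sub_le _ _).trans (by linarith [hξ k' j, hξ k i])) (W2_c hb k')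
        (hε k' j)
  rw [← Fw_zero h1 i]
  refine le_trans (le_of_eq ?_) (h.trans ?_)
  · congr 1
    simp only [Wall.Fw, Wall.LF, Wall.bq, W2_pdiv, Finset.sum_sub_distrib, Pi.zero_apply,
      add_zero, sub_self, Complex.exp_zero, mul_one]
    ring
  · have q : 800 * P ^ 5 ≤ P ^ 7 := by
      have : P ^ 7 = P ^ 2 * P ^ 5 := by ring
      rw [this]; gcongr; nlinarith
    have := mul_le_mul_of_nonneg_right q (sq_nonneg r)
    nlinarith

theorem Fw_lip {k : ℕ} (h1 : 1 ≤ k) (h2 : k < w.N) (i : ZMod n) :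
    ‖w.Fw n ξ ε k i - w.Em n k‖ ≤ P ^ 6 * r := by
  have hP := hb.P_ge
  have h0 : 0 < P := by linarith
  have r0 : 0 ≤ r := (norm_nonneg _).trans (hξ k i)
  have ht := Fw_taylor hb hr hξ hε hε0 h1 h2 i
  have h : ‖w.LF n ξ ε k i‖ ≤ 4 * P * (5 * P ^ 3 * r) :=
    W2_three hb h1 h2 i (fun k' j => w.lf n ξ ε k i k' j) (by positivity) fun k' j a b =>
      W2_lin hP a b ((norm_sub_le _ _).trans (by linarith [hξ k' j, hξ k i])) (W2_c hb k')
        (hε k' j)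
  have hs := W2_small hP hr
  have e : w.Fw n ξ ε k i - w.Em n k =
      (w.Fw n ξ ε k i - w.Em n k - w.LF n ξ ε k i) + w.LF n ξ ε k i := by ring
  rw [e]
  refine (norm_add_le _ _).trans ?_
  have q1 : P ^ 7 * r ^ 2 ≤ P ^ 3 * r := by
    have : P ^ 7 * r ^ 2 = P ^ 3 * r * (r * P ^ 4) := by ring
    rw [this]; exact mul_le_of_le_one_right (by positivity) hs
  have q2 : P ^ 3 * r ≤ P ^ 4 * r := by gcongr <;> linarith
  have q3 : 21 * P ^ 4 ≤ P ^ 6 := by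
    have : P ^ 6 = P ^ 2 * P ^ 4 := by ring
    rw [this]; gcongr; nlinarith
  have := mul_le_mul_of_nonneg_right q3 r0
  nlinarith

end Pool.Agent.MP_943ae2_gt
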