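import Pool.Agent.MP_943ae2_gt.Err1
import Pool.Agent.MP_943ae2_gt.W2

open Set Complex Filter Finset
open scoped Topology ComplexConjugate ContDiff

noncomputable section

namespace Pool.Agent.MP_943ae2_gt

lemma err2_term {p D D0 b b0 : ℂ} {P1 r δ η B : ℝ} (hr : 0 < r) (hp : ‖p‖ ≤ P1) (hD : r ≤ ‖D‖)
    (hD0 : r ≤ ‖D0‖) (hδ : ‖D - D0‖ ≤ δ) (hη : ‖b - b0‖ ≤ η) (hB : ‖b0‖ ≤ B) :
    ‖p * (b / D) - b0 * (p / D0)‖ ≤ P1 * (η / r + B * δ / r ^ 2) := by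
  have h1 : D ≠ 0 := norm_pos_iff.1 (hr.trans_le hD)
  have h2 : D0 ≠ 0 := norm_pos_iff.1 (hr.trans_le hD0)
  have e : p * (b / D) - b0 * (p / D0) = p * ((b - b0) / D - b0 * (D - D0) / (D * D0)) := by
    field_simp; ring
  have hP : 0 ≤ P1 := (norm_nonneg _).trans hp
  have hη0 : 0 ≤ η := (norm_nonneg _).trans hη
  have hδ0 : 0 ≤ δ := (norm_nonneg _).trans hδ
  have hB0 : 0 ≤ B := (norm_nonneg _).trans hB
  rw [e, norm_mul]
  refine mul_le_mul hp ((norm_sub_le _ _).trans (add_le_add ?_ ?_)) (norm_nonneg _) hP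
  · rw [norm_div]; gcongr
  · rw [norm_div, norm_mul, norm_mul, sq]; gcongr

lemma err2_ring {f : Nk × Bool → ℂ} {s : Bool} {j a : ℕ} (F : ZMod (nn j) → ℂ)
    (h1 : ∀ ha hb i, f (⟨j, a, i, ha, hb⟩, s) = F i) (h2 : (a = 0 ∨ NN j ≤ a) → ∀ i, F i = 0) :
    ringSum f s j a = ∑ i, F i := by
  unfold ringSum
  split_ifs with h
  · exact Finset.sum_congr rfl fun i _ => h1 _ _ i
  · exact (Finset.sum_eq_zero fun i _ => h2 (by omega) i).symm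

/-- the signed size of a side -/
def Prm.err2_b (x : Prm) (μ : Nk × Bool) : ℂ :=
  if μ.2 then -(x.bq μ.1.j μ.1.k μ.1.i : ℂ) else x.bq μ.1.j μ.1.k μ.1.i

/-- the model of the contribution of a side seen from the point `p` of wall `j` -/
def Prm.err2_m (x : Prm) (j : ℕ) (p : ℂ) (μ : Nk × Bool) : ℂ :=
  if μ.1.j = j then x.err2_b μ * kap (x.pp μ.1.j μ.1.k μ.1.i / p)
  else if μ.1.j + 1 = j then x.err2_b μ else 0

lemma err2_rho (j : ℕ) : rho j = (tt (j + 1))⁻¹ ^ 8 := by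
  rw [tt_succ, ← inv_pow, ← pow_mul]; rfl

lemma err2_card (e : Nk × Bool) : ((frm.oth e).card : ℝ) ≤ PP e.1.j := by
  have h1 : (frm.oth e).card ≤ (frm.sides (frm.lay e)).card :=
    Finset.card_le_card fun μ hμ => mem_sides_iff.2 (mem_oth.1 hμ).2
  have h2 : ((frm.oth e).card : ℝ) ≤ (frm.sides (frm.lay e)).card := by exact_mod_cast h1
  exact h2.trans ((card_sides _).trans (admM_PP_mono (admM_lev e).1))

namespace InK

variable {x : Prm} (hx : InK x)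
include hx

lemma err2_bet (μ : Nk × Bool) : ‖x.dat.bet μ - x.err2_b μ‖ ≤ tt μ.1.j ^ 28 := by
  have h := hx.io_le μ.1.j μ.1.k μ.1.i
  have e : x.dat.bet μ - x.err2_b μ = (x.io μ.1.j μ.1.k μ.1.i : ℂ) * I := by
    unfold Dat.bet Prm.err2_b Prm.dat
    split_ifs
    · simp only [map_add, map_mul, conj_ofReal, conj_I]; ring
    · ring
  rw [e, norm_mul, norm_I, mul_one, norm_real, Real.norm_eq_abs]
  exact h

lemma err2_de (e : Nk × Bool) :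
    ‖x.dat.pos e - x.pp e.1.j e.1.k e.1.i‖ ≤ (tt e.1.j)⁻¹ ^ 8 := by
  have h := hx.de_le e.1.j e.1.k e.1.i
  have h1 : (tt e.1.j)⁻¹ ^ 3 ≤ (tt e.1.j)⁻¹ ^ 8 := pow_le_pow_right₀ (admM_inv_one _) (by norm_num)
  rw [Pos_pos, add_sub_cancel_left]
  split_ifs
  · exact h.trans h1
  · rw [norm_zero]; have := tt_pos e.1.j; positivity

lemma err2_pp (ν : Nk) (hj : 1 ≤ ν.j) :
    9 / 10 * rho ν.j ≤ ‖x.pp ν.j ν.k ν.i‖ ∧ ‖x.pp ν.j ν.k ν.i‖ ≤ 11 / 10 * rho ν.j := by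
  have h1 := hx.pos_ge (ν, false) hj
  have h2 := hx.pos_le (ν, false)
  rw [Pos_pos] at h1 h2
  simpa using And.intro h1 h2

lemma err2_near {e μ : Nk × Bool} (hj : 1 ≤ e.1.j) (h : μ ∈ frm.oth e) {q : ℂ}
    (hμ : μ.1.j ≤ e.1.j) (hη : tt μ.1.j ^ 28 ≤ tt e.1.j ^ 7)
    (hq : ‖x.dat.pos μ - q‖ ≤ 2 * (tt e.1.j)⁻¹ ^ 8) :
    ‖x.pp e.1.j e.1.k e.1.i * (x.dat.bet μ / (x.dat.pos e - x.dat.pos μ)) -
      x.err2_b μ * (x.pp e.1.j e.1.k e.1.i / (x.pp e.1.j e.1.k e.1.i - q))‖ ≤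
      5 * PP e.1.j ^ 3 * tt e.1.j ^ 7 := by
  have hP := admM_PP_one e.1.j
  have ht := tt_pos e.1.j
  have ht1 := admM_tt_one e.1.j
  have hn := admM_nn_pos e.1.j
  have hr := rho_pos e.1.j
  have hnP := admM_nn_le e.1.j
  have hs := hx.sep_oth h
  have hde := hx.err2_de e
  have hb := (hx.err2_bet μ).trans hη
  have hb1 := hx.admM_bet_le (e := μ) (l := e.1.j) (by omega)
  have h7 : tt e.1.j ^ 7 ≤ 1 := pow_le_one₀ ht.le ht1
  have hP2 : (2 : ℝ) ≤ PP e.1.j := le_trans (by norm_num) (PP_ge _)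
  have hB : ‖x.err2_b μ‖ ≤ PP e.1.j := by
    have := norm_sub_norm_le (x.err2_b μ) (x.dat.bet μ)
    rw [norm_sub_rev] at this
    linarith
  have hδ : ‖x.dat.pos e - x.dat.pos μ - (x.pp e.1.j e.1.k e.1.i - q)‖ ≤ 3 * (tt e.1.j)⁻¹ ^ 8 := by
    have e1 : x.dat.pos e - x.dat.pos μ - (x.pp e.1.j e.1.k e.1.i - q) =
        (x.dat.pos e - x.pp e.1.j e.1.k e.1.i) - (x.dat.pos μ - q) := by ring
    rw [e1]
    exact (norm_sub_le _ _).trans (by linarith)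
  have h4 : 4 * (rho e.1.j / PP e.1.j) ≤ rho e.1.j / (4 * nn e.1.j) := by
    rw [← mul_div_assoc, div_le_div_iff₀ (by linarith) (by positivity)]
    nlinarith
  have h5 : (tt e.1.j)⁻¹ ^ 8 ≤ rho e.1.j / PP e.1.j := by
    rw [le_div_iff₀ (by linarith)]
    calc _ ≤ (tt e.1.j)⁻¹ ^ 8 * (tt e.1.j)⁻¹ := by gcongr; exact admM_PP_le _
      _ = (tt e.1.j)⁻¹ ^ 9 := by ring
      _ ≤ _ := pow_le_pow_right₀ (admM_inv_one _) (by norm_num)
  have h6 : 0 < rho e.1.j / PP e.1.j := by positivity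
  have hD0 : rho e.1.j / PP e.1.j ≤ ‖x.pp e.1.j e.1.k e.1.i - q‖ := by
    have := norm_sub_norm_le (x.dat.pos e - x.dat.pos μ) (x.pp e.1.j e.1.k e.1.i - q)
    linarith
  refine (err2_term h6 (hx.err2_pp e.1 hj).2 (by linarith) hD0 hδ hb hB).trans ?_
  have e2 : 11 / 10 * rho e.1.j * (tt e.1.j ^ 7 / (rho e.1.j / PP e.1.j) +
      PP e.1.j * (3 * (tt e.1.j)⁻¹ ^ 8) / (rho e.1.j / PP e.1.j) ^ 2) =
      11 / 10 * PP e.1.j * tt e.1.j ^ 7 + 33 / 10 * PP e.1.j ^ 3 * tt e.1.j ^ 24 := by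
    unfold rho; field_simp; ring
  rw [e2]
  have h8 : tt e.1.j ^ 24 ≤ tt e.1.j ^ 7 := pow_le_pow_of_le_one ht.le ht1 (by norm_num)
  have h9 : PP e.1.j ≤ PP e.1.j ^ 3 := le_self_pow₀ hP (by norm_num)
  have h10 : PP e.1.j * tt e.1.j ^ 7 ≤ PP e.1.j ^ 3 * tt e.1.j ^ 7 := by gcongr
  have h11 : PP e.1.j ^ 3 * tt e.1.j ^ 24 ≤ PP e.1.j ^ 3 * tt e.1.j ^ 7 := by gcongr
  have h12 : 0 ≤ PP e.1.j ^ 3 * tt e.1.j ^ 7 := by positivity
  linarith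

lemma err2_far {e μ : Nk × Bool} (hj : 1 ≤ e.1.j) (hμ : μ.1.j = e.1.j + 1) :
    ‖x.pp e.1.j e.1.k e.1.i * (x.dat.bet μ / (x.dat.pos e - x.dat.pos μ))‖ ≤
      5 * PP e.1.j ^ 3 * tt e.1.j ^ 7 := by
  have hP := admM_PP_one e.1.j
  have ht := tt_pos e.1.j
  have ht1 := admM_tt_one e.1.j
  have hr := admM_rho_ge e.1.j
  have h1 := hx.pos_ge μ (by omega)
  have h2 := hx.pos_le e
  rw [hμ, rho_succ] at h1
  have h3 := norm_sub_norm_le (x.dat.pos μ) (x.dat.pos e)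
  rw [norm_sub_rev] at h3
  have h4 : rho e.1.j ^ 2 ≤ ‖x.dat.pos e - x.dat.pos μ‖ := by
    have a1 : 1000 * rho e.1.j ≤ rho e.1.j ^ 2 := by nlinarith
    have a2 : 1000 * rho e.1.j ^ 2 ≤ rho e.1.j ^ 4 := by nlinarith
    nlinarith
  have hb1 := hx.admM_bet_le (e := μ) (l := e.1.j) hμ.le
  have hb : ‖x.dat.bet μ‖ ≤ PP e.1.j := by linarith [norm_nonneg (x.dat.bet μ)]
  have hp := (hx.err2_pp e.1 hj).2
  have h8 : tt e.1.j ^ 32 ≤ tt e.1.j ^ 7 := pow_le_pow_of_le_one ht.le ht1 (by norm_num)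
  have h9 : PP e.1.j ≤ PP e.1.j ^ 3 := le_self_pow₀ hP (by norm_num)
  rw [norm_mul, norm_div]
  calc _ ≤ 11 / 10 * rho e.1.j * (PP e.1.j / rho e.1.j ^ 2) := by gcongr
    _ = 11 / 10 * PP e.1.j * tt e.1.j ^ 32 := by unfold rho; field_simp
    _ ≤ 5 * PP e.1.j ^ 3 * tt e.1.j ^ 7 := by gcongr; norm_num

lemma err2_each {e μ : Nk × Bool} (hj : 1 ≤ e.1.j) (h : μ ∈ frm.oth e) :
    ‖x.pp e.1.j e.1.k e.1.i * (x.dat.bet μ / (x.dat.pos e - x.dat.pos μ)) -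
      x.err2_m e.1.j (x.pp e.1.j e.1.k e.1.i) μ‖ ≤ 5 * PP e.1.j ^ 3 * tt e.1.j ^ 7 := by
  have hm : μ ∈ frm.sides (frm.lay e) := mem_sides_iff.2 (mem_oth.1 h).2
  rw [lay_eq, mem_sides_wall (admM_loc e).1 (admM_loc e).2] at hm
  have ht := tt_pos e.1.j
  have hp : x.pp e.1.j e.1.k e.1.i ≠ 0 := by
    have := (hx.err2_pp e.1 hj).1
    have h2 := rho_pos e.1.j
    exact norm_pos_iff.1 (by linarith)
  unfold Prm.err2_m
  rcases hm with ⟨h1, -⟩ | ⟨-, h1, -⟩ | ⟨-, h1, -⟩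
  · rw [if_pos h1]
    have e1 : kap (x.pp μ.1.j μ.1.k μ.1.i / x.pp e.1.j e.1.k e.1.i) =
        x.pp e.1.j e.1.k e.1.i / (x.pp e.1.j e.1.k e.1.i - x.pp μ.1.j μ.1.k μ.1.i) := by
      unfold kap
      rw [one_sub_div hp, one_div_div]
    rw [e1]
    refine hx.err2_near hj h h1.le ?_ ?_
    · rw [h1]; exact pow_le_pow_of_le_one ht.le (admM_tt_one _) (by norm_num)
    · have a1 := hx.err2_de μ
      have a2 : 0 ≤ (tt e.1.j)⁻¹ ^ 8 := by positivity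
      have a3 : (tt μ.1.j)⁻¹ ^ 8 = (tt e.1.j)⁻¹ ^ 8 := by rw [h1]
      linarith
  · rw [if_neg (by omega), if_pos h1]
    have := hx.err2_near hj h (q := 0) (by omega) (by rw [← h1, tt_succ, ← pow_mul]) (by
      have a1 := hx.pos_le μ
      rw [err2_rho, h1] at a1
      have a2 : 0 ≤ (tt e.1.j)⁻¹ ^ 8 := by positivity
      rw [sub_zero]; linarith)
    rwa [sub_zero, div_self hp, mul_one] at this
  · rw [if_neg (by omega), if_neg (by omega), sub_zero]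
    exact hx.err2_far hj h1

lemma err2_sum (e : Nk × Bool) (hj : 1 ≤ e.1.j) :
    ‖x.pp e.1.j e.1.k e.1.i * x.SS e -
      ∑ μ ∈ frm.oth e, x.err2_m e.1.j (x.pp e.1.j e.1.k e.1.i) μ‖ ≤ tt e.1.j ^ 6 / 4 := by
  have hP : (20 : ℝ) ≤ PP e.1.j := le_trans (by norm_num) (PP_ge _)
  have ht := tt_pos e.1.j
  have hc := err2_card e
  have h5 := admM_pow_tt e.1.j (m := 5) (by norm_num)
  unfold Prm.SS
  rw [Finset.mul_sum, ← Finset.sum_sub_distrib]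
  calc _ ≤ ∑ μ ∈ frm.oth e, 5 * PP e.1.j ^ 3 * tt e.1.j ^ 7 :=
        norm_sum_le_of_le _ fun μ hμ => hx.err2_each hj hμ
    _ = (frm.oth e).card * (5 * PP e.1.j ^ 3 * tt e.1.j ^ 7) := by rw [Finset.sum_const, nsmul_eq_mul]
    _ ≤ PP e.1.j * (5 * PP e.1.j ^ 3 * tt e.1.j ^ 7) := by gcongr
    _ = 20 * (PP e.1.j ^ 4 * tt e.1.j) * (tt e.1.j ^ 6 / 4) := by ring
    _ ≤ PP e.1.j * (PP e.1.j ^ 4 * tt e.1.j) * (tt e.1.j ^ 6 / 4) := by gcongr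
    _ = (PP e.1.j ^ 5 * tt e.1.j) * (tt e.1.j ^ 6 / 4) := by ring
    _ ≤ 1 * (tt e.1.j ^ 6 / 4) := by gcongr
    _ = _ := one_mul _

lemma err2_same (j a : ℕ) (p : ℂ) (s : Bool) : ringSum (x.err2_m j p) s j a =
    (if s then -1 else 1) * ∑ i, (x.bq j a i : ℂ) * kap (x.pp j a i / p) := by
  rw [Finset.mul_sum]
  refine err2_ring _ (fun ha hb i => ?_) (fun h i => by rw [hx.bq_out h]; simp)
  unfold Prm.err2_m Prm.err2_b
  cases s <;> simp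

lemma err2_inner {j j' : ℕ} (h : j' + 1 = j) (a : ℕ) (p : ℂ) (s : Bool) :
    ringSum (x.err2_m j p) s j' a = (if s then -1 else 1) * (x.w j' a : ℂ) := by
  rw [← hx.sum_bq, ofReal_sum, Finset.mul_sum]
  refine err2_ring _ (fun ha hb i => ?_) (fun h i => by rw [hx.bq_out h]; simp)
  unfold Prm.err2_m Prm.err2_b
  have h2 : ¬j' = j := by omega
  cases s <;> simp [h, h2]

omit hx in
lemma err2_outer (j a : ℕ) (p : ℂ) (s : Bool) : ringSum (x.err2_m j p) s (j + 1) a = 0 := by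
  rw [err2_ring (fun _ => 0) (fun ha hb i => ?_) (fun _ _ => rfl), Finset.sum_const_zero]
  unfold Prm.err2_m
  rw [if_neg (by dsimp only; omega), if_neg (by dsimp only; omega)]

lemma err2_oth {j : ℕ} (hj : 1 ≤ j) (a : ℕ) (p : ℂ) : othSum (x.err2_m j p) j a =
    (x.w (j - 1) (Lb (j - 1) + a) : ℂ) - x.w (j - 1) (Lb (j - 1) + a - 1) := by
  have h1 : j - 1 + 1 = j := by omega
  unfold othSum wallSum
  split_ifs with h h0
  · omega
  · rw [hx.err2_inner h1, hx.err2_inner h1]; simp; ring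
  · have h2 := Lb_succ (j - 1)
    rw [h1] at h2
    have h3 : NN (j - 1) = Lb (j - 1) + Mt (j - 1) := rfl
    rw [err2_outer, err2_outer, x.w_out (by omega), x.w_out (by omega)]; simp

theorem SS_near (ν : Nk) (hj : 1 ≤ ν.j) :
    ‖x.pp ν.j ν.k ν.i * (x.SS (ν, false) - x.SS (ν, true)) -
      (x.wall ν.j).Fw (nn ν.j) (x.ξ ν.j) (x.ε ν.j) ν.k ν.i‖ ≤ tt ν.j ^ 6 / 2 := by
  have h0 := hx.err2_sum (ν, false) hj
  have h1 := hx.err2_sum (ν, true) hj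
  dsimp only at h0 h1
  have hpp : ∀ k i, (x.wall ν.j).p (nn ν.j) (x.ξ ν.j) k i = x.pp ν.j k i := fun k i => by
    unfold Prm.pp; rw [if_neg (by omega)]
  have hF : (x.wall ν.j).Fw (nn ν.j) (x.ξ ν.j) (x.ε ν.j) ν.k ν.i =
      ∑ μ ∈ frm.oth (ν, false), x.err2_m ν.j (x.pp ν.j ν.k ν.i) μ -
        ∑ μ ∈ frm.oth (ν, true), x.err2_m ν.j (x.pp ν.j ν.k ν.i) μ := by
    rw [sum_oth_false, sum_oth_true, hx.err2_same, hx.err2_same, hx.err2_oth hj, hx.err2_oth hj]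
    have hg : (x.wall ν.j).g ν.k = -x.D2 (ν.j - 1) (Lb (ν.j - 1) + ν.k) := by
      unfold Prm.wall; dsimp only; rw [if_neg (by omega)]
    have e1 : ∀ i, x.err2_m ν.j (x.pp ν.j ν.k ν.i) (⟨ν.j, ν.k, i, ν.h1, ν.h2⟩, false) =
        (x.bq ν.j ν.k i : ℂ) * kap (x.pp ν.j ν.k i / x.pp ν.j ν.k ν.i) := fun i => by
      unfold Prm.err2_m Prm.err2_b; simp
    have e2 : ∀ i, x.err2_m ν.j (x.pp ν.j ν.k ν.i) (⟨ν.j, ν.k, i, ν.h1, ν.h2⟩, true) =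
        -((x.bq ν.j ν.k i : ℂ) * kap (x.pp ν.j ν.k i / x.pp ν.j ν.k ν.i)) := fun i => by
      unfold Prm.err2_m Prm.err2_b; simp
    have e3 : Lb (ν.j - 1) + (ν.k + 1) - 1 = Lb (ν.j - 1) + ν.k := by omega
    simp only [e1, e2, e3, Finset.sum_neg_distrib]
    unfold Wall.Fw
    simp only [hpp, hg, Prm.D2, ← add_assoc]
    unfold Prm.bq
    push_cast
    ring
  rw [hF]
  have e : x.pp ν.j ν.k ν.i * (x.SS (ν, false) - x.SS (ν, true)) -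
      (∑ μ ∈ frm.oth (ν, false), x.err2_m ν.j (x.pp ν.j ν.k ν.i) μ -
        ∑ μ ∈ frm.oth (ν, true), x.err2_m ν.j (x.pp ν.j ν.k ν.i) μ) =
      (x.pp ν.j ν.k ν.i * x.SS (ν, false) -
        ∑ μ ∈ frm.oth (ν, false), x.err2_m ν.j (x.pp ν.j ν.k ν.i) μ) -
      (x.pp ν.j ν.k ν.i * x.SS (ν, true) -
        ∑ μ ∈ frm.oth (ν, true), x.err2_m ν.j (x.pp ν.j ν.k ν.i) μ) := by ring
  rw [e]
  exact (norm_sub_le _ _).trans (by linarith)

theorem Ft_err {j k : ℕ} (hj : 1 ≤ j) (h1 : 1 ≤ k) (h2 : k < NN j) (i : ZMod (nn j)) :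
    ‖x.Ft j k i - (x.wall j).Fw (nn j) (x.ξ j) (x.ε j) k i‖ ≤ tt j ^ 6 := by
  have a1 := hx.Ft_near ⟨j, k, i, h1, h2⟩
  have a2 := hx.SS_near ⟨j, k, i, h1, h2⟩ hj
  dsimp only at a1 a2
  exact (norm_sub_le_norm_sub_add_norm_sub _ _ _).trans ((add_le_add a1 a2).trans (by linarith))

theorem err_le {j k : ℕ} (hj : 1 ≤ j) (h1 : 1 ≤ k) (h2 : k < NN j) : |x.err j k| ≤ tt j ^ 2 := by
  have ht := tt_pos j
  have ht1 := tt_le j
  have hP : (2 : ℝ) ≤ PP j := le_trans (by norm_num) (PP_ge _)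
  have hn := admM_nn_pos j
  have hr : tt j ^ 3 ≤ (PP j ^ 2)⁻¹ ^ 4 := by
    have a1 := admM_pow_tt j (m := 8) (by norm_num)
    have a2 : tt j ^ 3 ≤ tt j := pow_le_of_le_one ht.le (admM_tt_one j) (by norm_num)
    rw [inv_pow, ← pow_mul, inv_eq_one_div, le_div_iff₀ (by positivity)]
    calc tt j ^ 3 * PP j ^ (2 * 4) ≤ tt j * PP j ^ 8 := by gcongr
      _ ≤ 1 := by rwa [mul_comm]
  have hb : ∀ i, |(x.wall j).Em (nn j) k - (x.Ft j k i).re| ≤ tt j ^ 2 := fun i => by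
    have a1 := hx.Ft_err hj h1 h2 i
    have a2 := Fw_lip (hx.wall_bd hj) hr (hx.ξ_le j) (hx.ε_le j) (hx.ε_out j) h1 h2 i
    have a3 := (norm_sub_le_norm_sub_add_norm_sub _ _ _).trans (add_le_add a1 a2)
    have a4 := (abs_re_le_norm _).trans a3
    rw [sub_re, ofReal_re, abs_sub_comm] at a4
    refine a4.trans ?_
    have a5 := admM_pow_tt j (m := 13) (by norm_num)
    have a6 : 2 * (PP j ^ 12 * tt j) ≤ 1 := by
      calc 2 * (PP j ^ 12 * tt j) ≤ PP j * (PP j ^ 12 * tt j) := by gcongr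
        _ = PP j ^ 13 * tt j := by ring
        _ ≤ 1 := a5
    have a7 : tt j ^ 4 ≤ 1 / 2 := (pow_le_of_le_one ht.le (admM_tt_one j) (by norm_num)).trans
      (by linarith)
    calc tt j ^ 6 + (PP j ^ 2) ^ 6 * tt j ^ 3 = (tt j ^ 4 + PP j ^ 12 * tt j) * tt j ^ 2 := by ring
      _ ≤ 1 * tt j ^ 2 := by gcongr; linarith
      _ = _ := one_mul _
  have e : x.err j k = (∑ i : ZMod (nn j), ((x.wall j).Em (nn j) k - (x.Ft j k i).re)) / nn j := by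
    unfold Prm.err avg
    rw [Finset.sum_sub_distrib, Finset.sum_const, Finset.card_univ, ZMod.card, nsmul_eq_mul]
    field_simp
  rw [e, abs_div, abs_of_pos (by linarith : (0 : ℝ) < nn j), div_le_iff₀ (by linarith)]
  calc _ ≤ ∑ i : ZMod (nn j), tt j ^ 2 :=
        (Finset.abs_sum_le_sum_abs _ _).trans (Finset.sum_le_sum fun i _ => hb i)
    _ = _ := by rw [Finset.sum_const, Finset.card_univ, ZMod.card, nsmul_eq_mul, mul_comm]

end InK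

end Pool.Agent.MP_943ae2_gt
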