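import Pool.Agent.MP_943ae2_gt.W1

open Set Complex Filter Finset
open scoped Topology ComplexConjugate ContDiff

noncomputable section

namespace Pool.Agent.MP_943ae2_gt

/-- two points that are well separated -/
structure W3Sep (P : ℝ) (a b : ℂ) : Prop where
  a0 : a ≠ 0
  b0 : b ≠ 0
  ha : ‖a‖ ≤ P * ‖a - b‖
  hb : ‖b‖ ≤ P * ‖a - b‖
  lg : |Real.log ‖a - b‖| ≤ 3 * P

lemma W3Sep.symm {P : ℝ} {a b : ℂ} (h : W3Sep P a b) : W3Sep P b a :=
  ⟨h.b0, h.a0, by rw [norm_sub_rev]; exact h.hb, by rw [norm_sub_rev]; exact h.ha,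
    by rw [norm_sub_rev]; exact h.lg⟩

lemma w3_sep {P s t : ℝ} {a b : ℂ} (hP : 1000 ≤ P) (ha : ‖a‖ = Real.exp s)
    (hb : ‖b‖ = Real.exp t) (hs : |s| ≤ P) (ht : |t| ≤ P) (h1 : Real.exp s ≤ P * ‖a - b‖)
    (h2 : Real.exp t ≤ P * ‖a - b‖) : W3Sep P a b := by
  have P0 : 0 < P := by linarith
  have d0 : 0 < ‖a - b‖ := (mul_pos_iff_of_pos_left P0).1 ((Real.exp_pos s).trans_le h1)
  refine ⟨norm_pos_iff.1 (ha ▸ Real.exp_pos s), norm_pos_iff.1 (hb ▸ Real.exp_pos t), ha ▸ h1,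
    hb ▸ h2, abs_le.2 ⟨?_, ?_⟩⟩
  · have h3 := Real.log_le_log (Real.exp_pos s) h1
    rw [Real.log_exp, Real.log_mul P0.ne' d0.ne'] at h3
    have h4 := Real.log_le_sub_one_of_pos P0
    linarith [(abs_le.1 hs).1]
  · have h3 : ‖a - b‖ ≤ 2 * Real.exp P := by
      have h4 := norm_sub_le a b
      have h5 := Real.exp_le_exp.2 (abs_le.1 hs).2
      have h6 := Real.exp_le_exp.2 (abs_le.1 ht).2
      linarith
    have h4 := Real.log_le_log d0 h3
    rw [Real.log_mul two_ne_zero (Real.exp_pos P).ne', Real.log_exp] at h4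
    have h5 := Real.log_le_sub_one_of_pos (show (0 : ℝ) < 2 by norm_num)
    linarith

lemma w3_small {P r : ℝ} (hP : 1000 ≤ P) (hr : r ≤ P⁻¹ ^ 4) : P ^ 4 * r ≤ 1 := by
  have P0 : 0 < P := by linarith
  have h := mul_le_mul_of_nonneg_left hr (pow_pos P0 4).le
  rwa [← mul_pow, mul_inv_cancel₀ P0.ne', one_pow] at h

lemma w3_small' {P r : ℝ} (hP : 1000 ≤ P) (hr : r ≤ P⁻¹ ^ 4) (r0 : 0 ≤ r) :
    1000 * (P * r) ≤ 1 ∧ 1000 * r ≤ P * r := by
  have h1 := w3_small hP hr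
  have P0 : 0 < P := by linarith
  have h2 : (1000 : ℝ) ≤ P ^ 3 :=
    hP.trans (le_self_pow₀ (by linarith) (by norm_num))
  have h3 := mul_le_mul_of_nonneg_right h2 (mul_nonneg P0.le r0)
  exact ⟨by linarith, mul_le_mul_of_nonneg_right hP r0⟩

lemma w3_log {P r : ℝ} {a b x y : ℂ} (hP : 1000 ≤ P) (hr : r ≤ P⁻¹ ^ 4) (h : W3Sep P a b)
    (hx : ‖x‖ ≤ r) (hy : ‖y‖ ≤ r) :
    |Real.log ‖a * exp x - b * exp y‖ - Real.log ‖a - b‖ -
      (kap (b / a) * x + kap (a / b) * y).re| ≤ 17 * P ^ 2 * r ^ 2 ∧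
    |(kap (b / a) * x + kap (a / b) * y).re| ≤ 3 * P * r := by
  have P0 : 0 < P := by linarith
  have r0 : 0 ≤ r := (norm_nonneg x).trans hx
  obtain ⟨s1, s2⟩ := w3_small' hP hr r0
  have a0 := h.a0
  have b0 := h.b0
  have d0 : 0 < ‖a - b‖ := (mul_pos_iff_of_pos_left P0).1 ((norm_pos_iff.2 a0).trans_le h.ha)
  have d1 : a - b ≠ 0 := norm_pos_iff.1 d0
  have d2 : b - a ≠ 0 := fun h1 => d1 (by linear_combination -h1)
  have k1 : kap (a / b) = -(b / (a - b)) := by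
    unfold kap
    have : 1 - a / b = (b - a) / b := by field_simp
    rw [this]
    field_simp
    ring
  have k2 : kap (b / a) = 1 - kap (a / b) := by
    rw [k1]
    unfold kap
    have : 1 - b / a = (a - b) / a := by field_simp
    rw [this]
    field_simp
    ring
  have k3 : ‖kap (a / b)‖ ≤ P := by
    rw [k1, norm_neg, norm_div, div_le_iff₀ d0]
    exact h.hb
  have e1 : a * exp x - b * exp y = (a - b) * exp x * (1 + kap (a / b) * (exp (y - x) - 1)) := by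
    rw [k1, Complex.exp_sub]
    have := Complex.exp_ne_zero x
    field_simp
    ring
  have e2 : kap (b / a) * x + kap (a / b) * y = x + kap (a / b) * (y - x) := by
    rw [k2]
    ring
  rw [e1, e2]
  generalize kap (a / b) = κ at k3
  have u1 : ‖y - x‖ ≤ 2 * r := (norm_sub_le y x).trans (by linarith)
  generalize y - x = u at u1
  have u2 : ‖u‖ ≤ 1 := by linarith
  have u3 := Complex.norm_exp_sub_one_le u2
  have u4 := Complex.norm_exp_sub_one_sub_id_le u2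
  have q1 : ‖κ * (exp u - 1)‖ ≤ 4 * (P * r) := by
    rw [norm_mul]
    have := mul_le_mul k3 (u3.trans (by linarith : 2 * ‖u‖ ≤ 4 * r)) (norm_nonneg _) P0.le
    linarith
  have q2 : ‖κ * (exp u - 1) - κ * u‖ ≤ 4 * P * r ^ 2 := by
    rw [← mul_sub, norm_mul]
    have h1 : ‖u‖ ^ 2 ≤ (2 * r) ^ 2 := pow_le_pow_left₀ (norm_nonneg u) u1 2
    have := mul_le_mul k3 (u4.trans h1) (norm_nonneg _) P0.le
    linarith
  have q3 : ‖κ * u‖ ≤ 2 * (P * r) := by
    rw [norm_mul]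
    have := mul_le_mul k3 u1 (norm_nonneg _) P0.le
    linarith
  generalize κ * (exp u - 1) = q at q1 q2
  generalize κ * u = v at q2 q3
  have q4 : ‖q‖ ≤ 1 / 2 := by linarith
  have q5 : 1 + q ≠ 0 := fun h1 => by
    have : q = -1 := by linear_combination h1
    rw [this, norm_neg, norm_one] at q4
    linarith
  have q6 : ‖Complex.log (1 + q) - q‖ ≤ 16 * P ^ 2 * r ^ 2 := by
    refine (Complex.norm_log_one_add_sub_self_le (by linarith)).trans ?_
    have h1 : (1 - ‖q‖)⁻¹ ≤ 2 := by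
      rw [inv_eq_one_div, div_le_iff₀ (by linarith)]
      linarith
    have h2 := mul_le_mul (pow_le_pow_left₀ (norm_nonneg q) q1 2) h1
      (inv_nonneg.2 (by linarith)) (sq_nonneg _)
    linarith
  refine ⟨?_, ?_⟩
  · rw [norm_mul, norm_mul, Real.log_mul (mul_pos d0 (norm_pos_iff.2 (Complex.exp_ne_zero x))).ne'
      (norm_ne_zero_iff.2 q5), Real.log_mul d0.ne' (norm_ne_zero_iff.2 (Complex.exp_ne_zero x)),
      Complex.norm_exp, Real.log_exp, ← Complex.log_re (1 + q), add_re]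
    have h1 := (Complex.abs_re_le_norm _).trans q6
    have h2 := (Complex.abs_re_le_norm _).trans q2
    rw [sub_re] at h1 h2
    have h3 : 4 * P * r ^ 2 ≤ P ^ 2 * r ^ 2 :=
      mul_le_mul_of_nonneg_right (by nlinarith) (sq_nonneg r)
    rw [abs_le] at h1 h2 ⊢
    constructor <;> linarith [h1.1, h1.2, h2.1, h2.2]
  · refine (Complex.abs_re_le_norm _).trans ((norm_add_le _ _).trans ?_)
    linarith

lemma w3_pair {P r c e : ℝ} {a b x y : ℂ} (hP : 1000 ≤ P) (hr : r ≤ P⁻¹ ^ 4) (h : W3Sep P a b)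
    (hx : ‖x‖ ≤ r) (hy : ‖y‖ ≤ r) (hc : |c| ≤ P) (he : |e| ≤ r) :
    |(c + e) * Real.log ‖a * exp x - b * exp y‖ - c * Real.log ‖a - b‖ -
      (e * Real.log ‖a - b‖ + c * (kap (b / a) * x + kap (a / b) * y).re)| ≤
        18 * P ^ 3 * r ^ 2 ∧
    |e * Real.log ‖a - b‖ + c * (kap (b / a) * x + kap (a / b) * y).re| ≤ 4 * P ^ 2 * r := by
  have P0 : 0 < P := by linarith
  have r0 : 0 ≤ r := (norm_nonneg x).trans hx
  obtain ⟨s1, s2⟩ := w3_small' hP hr r0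
  obtain ⟨h1, h2⟩ := w3_log hP hr h hx hy
  have h3 := h.lg
  generalize Real.log ‖a * exp x - b * exp y‖ = L at h1
  generalize Real.log ‖a - b‖ = L0 at h1 h3
  generalize (kap (b / a) * x + kap (a / b) * y).re = D at h1 h2
  have m1 : |c * (L - L0 - D)| ≤ P * (17 * P ^ 2 * r ^ 2) := by
    rw [abs_mul]
    exact mul_le_mul hc h1 (abs_nonneg _) P0.le
  have m2 : |e * (L - L0 - D)| ≤ r * (17 * P ^ 2 * r ^ 2) := by
    rw [abs_mul]
    exact mul_le_mul he h1 (abs_nonneg _) r0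
  have m3 : |e * D| ≤ r * (3 * P * r) := by
    rw [abs_mul]
    exact mul_le_mul he h2 (abs_nonneg _) r0
  have m4 : |e * L0| ≤ r * (3 * P) := by
    rw [abs_mul]
    exact mul_le_mul he h3 (abs_nonneg _) r0
  have m5 : |c * D| ≤ P * (3 * P * r) := by
    rw [abs_mul]
    exact mul_le_mul hc h2 (abs_nonneg _) P0.le
  have n1 : 1000 * (P * r) * (P * r ^ 2) ≤ 1 * (P * r ^ 2) :=
    mul_le_mul_of_nonneg_right s1 (by positivity)
  have n2 : 1000 * (P * r ^ 2) ≤ P ^ 2 * (P * r ^ 2) :=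
    mul_le_mul_of_nonneg_right (hP.trans (le_self_pow₀ (by linarith) (by norm_num)))
      (by positivity)
  have n3 : 1000 * (P * r) ≤ P * (P * r) := mul_le_mul_of_nonneg_right hP (by positivity)
  have n4 : 0 ≤ P * r ^ 2 := by positivity
  have n5 : 0 ≤ P * r := by positivity
  rw [abs_le] at m1 m2 m3 m4 m5
  refine ⟨abs_le.2 ⟨?_, ?_⟩, abs_le.2 ⟨?_, ?_⟩⟩
  · linarith [m1.1, m2.1, m3.1]
  · linarith [m1.2, m2.2, m3.2]
  · linarith [m4.1, m5.1]
  · linarith [m4.2, m5.2]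

lemma w3_ent {P r c e : ℝ} (hP : 1000 ≤ P) (hr : r ≤ P⁻¹ ^ 4) (hc : P⁻¹ ≤ c) (he : |e| ≤ r) :
    |(c + e) * Real.log (c + e) - c * Real.log c - (Real.log c + 1) * e| ≤ P * r ^ 2 := by
  have P0 : 0 < P := by linarith
  have r0 : 0 ≤ r := (abs_nonneg e).trans he
  obtain ⟨s1, -⟩ := w3_small' hP hr r0
  have c0 : 0 < c := (inv_pos.2 P0).trans_le hc
  have c1 : 1 ≤ P * c := by
    have := mul_le_mul_of_nonneg_left hc P0.le
    rwa [mul_inv_cancel₀ P0.ne'] at this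
  have c2 : r < c := by
    refine lt_of_mul_lt_mul_left ?_ P0.le
    linarith
  have c3 : 0 < c + e := by linarith [(abs_le.1 he).1]
  have t0 : 0 < (c + e) / c := div_pos c3 c0
  have h1 := mul_le_mul_of_nonneg_left (Real.log_le_sub_one_of_pos t0) c3.le
  have h2 := mul_le_mul_of_nonneg_left (Real.one_sub_inv_le_log_of_pos t0) c3.le
  rw [Real.log_div c3.ne' c0.ne'] at h1 h2
  have e1 : (c + e) * ((c + e) / c - 1) = e + e ^ 2 / c := by
    field_simp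
    ring
  have e2 : (c + e) * (1 - ((c + e) / c)⁻¹) = e := by
    field_simp
    ring
  have e3 : e ^ 2 / c ≤ P * r ^ 2 := by
    rw [div_le_iff₀ c0]
    have h3 : e ^ 2 ≤ r ^ 2 := sq_le_sq' (abs_le.1 he).1 (abs_le.1 he).2
    have h4 := mul_le_mul_of_nonneg_right c1 (sq_nonneg r)
    linarith
  have e4 : 0 ≤ P * r ^ 2 := by positivity
  rw [e1] at h1
  rw [e2] at h2
  rw [abs_le]
  constructor <;> linarith

lemma w3_sum {n : ℕ} [NeZero n] {P B : ℝ} (hn : (n : ℝ) ≤ P) (hB : 0 ≤ B) (s : Finset (ZMod n))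
    {f : ZMod n → ℝ} (h : ∀ j ∈ s, |f j| ≤ B) : |∑ j ∈ s, f j| ≤ P * B := by
  refine (Finset.abs_sum_le_sum_abs _ _).trans ((Finset.sum_le_card_nsmul _ _ _ h).trans ?_)
  rw [nsmul_eq_mul]
  refine mul_le_mul_of_nonneg_right (le_trans ?_ hn) hB
  have := Finset.card_le_univ s
  rw [ZMod.card] at this
  exact_mod_cast this

section

variable {w : Wall} {n : ℕ} [NeZero n] {P : ℝ}

lemma w3_norm_p0 (k : ℕ) (i : ZMod n) : ‖w.p0 n k i‖ = Real.exp (w.lr k) := by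
  unfold Wall.p0
  rw [norm_mul, norm_un, mul_one, Complex.norm_real, Real.norm_eq_abs, abs_of_pos (Real.exp_pos _)]

lemma w3_same (hb : w.Bd n P) {k : ℕ} (hk : k ≤ w.N) {i j : ZMod n} (h : j ≠ i) :
    W3Sep P (w.p0 n k i) (w.p0 n k j) := by
  have n0 : (0 : ℝ) < n := by exact_mod_cast NeZero.pos n
  have key : Real.exp (w.lr k) ≤ P * ‖w.p0 n k i - w.p0 n k j‖ := by
    unfold Wall.p0
    rw [← mul_sub, norm_mul, Complex.norm_real, Real.norm_eq_abs, abs_of_pos (Real.exp_pos _)]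
    have h1 := sep_same n k h
    rw [div_le_iff₀ n0] at h1
    have h2 := mul_le_mul_of_nonneg_left hb.n_le (norm_nonneg (un n k i - un n k j))
    have h3 := mul_le_mul_of_nonneg_left (h1.trans h2) (Real.exp_pos (w.lr k)).le
    linarith [Real.exp_pos (w.lr k)]
  exact w3_sep hb.P_ge (w3_norm_p0 k i) (w3_norm_p0 k j) (hb.lr_le k hk) (hb.lr_le k hk) key key

lemma w3_cross (hb : w.Bd n P) {k : ℕ} (hk : k < w.N) (i j : ZMod n) :
    W3Sep P (w.p0 n k i) (w.p0 n (k + 1) j) := by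
  have n0 : (0 : ℝ) < n := by exact_mod_cast NeZero.pos n
  have n1 : (1 : ℝ) ≤ n := by exact_mod_cast NeZero.one_le
  have h1 := sep_cross n k i j (Real.exp_pos (w.lr k)) (Real.exp_pos (w.lr (k + 1)))
  rw [div_le_iff₀ n0] at h1
  have h2 := h1.trans (mul_le_mul_of_nonneg_left hb.n_le (norm_nonneg _))
  have h3 : |w.lr k - w.lr (k + 1)| ≤ 1 / 2 := by
    have h4 := hb.y_le k hk
    unfold Wall.y at h4
    rw [abs_mul, abs_of_pos n0] at h4
    exact (le_mul_of_one_le_left (abs_nonneg _) n1).trans h4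
  have h4 : ∀ s t : ℝ, s - t ≤ 1 / 2 → Real.exp s ≤ 2 * Real.exp t := fun s t h => by
    have h5 := Real.add_one_le_exp (t - s)
    have h6 := mul_le_mul_of_nonneg_left (show 1 / 2 ≤ Real.exp (t - s) by linarith)
      (Real.exp_pos s).le
    rw [← Real.exp_add, add_sub_cancel] at h6
    linarith
  have h5 := h4 _ _ (abs_le.1 h3).2
  have h6 := h4 (w.lr (k + 1)) (w.lr k) (by linarith [(abs_le.1 h3).1])
  have h7 := Real.exp_pos (w.lr k)
  have h8 := Real.exp_pos (w.lr (k + 1))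
  refine w3_sep hb.P_ge (w3_norm_p0 k i) (w3_norm_p0 (k + 1) j) (hb.lr_le k hk.le)
    (hb.lr_le (k + 1) hk) ?_ ?_
  · refine le_trans ?_ (h2.trans_eq (mul_comm _ _))
    rw [mul_min_of_nonneg _ _ two_pos.le]
    exact le_min (by linarith) h5
  · refine le_trans ?_ (h2.trans_eq (mul_comm _ _))
    rw [mul_min_of_nonneg _ _ two_pos.le]
    exact le_min h6 (by linarith)

omit [NeZero n] in
lemma w3_c (hb : w.Bd n P) (k : ℕ) : |w.c k| ≤ P := by
  have P0 : 0 < P := by linarith [hb.P_ge]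
  rw [abs_of_nonneg]
  · exact hb.c_le k
  rcases Nat.eq_zero_or_pos k with rfl | h1
  · exact hb.c_zero.ge
  rcases lt_or_ge k w.N with h2 | h2
  · exact (inv_pos.2 P0).le.trans (hb.c_ge k h1 h2)
  · exact (hb.c_out k h2).ge

end

variable {w : Wall} {n : ℕ} [NeZero n] {ξ : ℕ → ZMod n → ℂ} {ε : ℕ → ZMod n → ℝ} {P r : ℝ}
  (hb : w.Bd n P) (hr : r ≤ P⁻¹ ^ 4) (hξ : ∀ k i, ‖ξ k i‖ ≤ r) (hε : ∀ k i, |ε k i| ≤ r)
  (hε0 : ∀ k i, (k = 0 ∨ w.N ≤ k) → ε k i = 0)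

include hb hr hξ hε in
lemma w3_ring {k k' : ℕ} {i : ZMod n} {s : Finset (ZMod n)}
    (h : ∀ j ∈ s, W3Sep P (w.p0 n k i) (w.p0 n k' j)) :
    |∑ j ∈ s, w.bq n ε k' j * Real.log ‖w.p n ξ k i - w.p n ξ k' j‖ -
      ∑ j ∈ s, w.c k' * Real.log ‖w.p0 n k i - w.p0 n k' j‖ -
      ∑ j ∈ s, w.ld n ξ ε k i k' j| ≤ P * (18 * P ^ 3 * r ^ 2) ∧
    |∑ j ∈ s, w.ld n ξ ε k i k' j| ≤ P * (4 * P ^ 2 * r) := by
  have P0 : 0 < P := by linarith [hb.P_ge]
  have r0 : 0 ≤ r := (norm_nonneg _).trans (hξ k i)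
  have key := fun j hj => w3_pair hb.P_ge hr (h j hj) (hξ k i) (hξ k' j) (w3_c hb k') (hε k' j)
  rw [← Finset.sum_sub_distrib, ← Finset.sum_sub_distrib]
  exact ⟨w3_sum hb.n_le (by positivity) s fun j hj => (key j hj).1,
    w3_sum hb.n_le (by positivity) s fun j hj => (key j hj).2⟩

include hb hr hξ hε in
lemma w3_both {k : ℕ} (h1 : 1 ≤ k) (h2 : k < w.N) (i : ZMod n) :
    |w.Dw n ξ ε k i - w.Ds n k - w.LD n ξ ε k i| ≤ 74 * (P ^ 4 * r ^ 2) ∧
      |w.LD n ξ ε k i| ≤ 21 * (P ^ 3 * r) := by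
  have hP := hb.P_ge
  have P0 : 0 < P := by linarith
  have P1 : 1 ≤ P := by linarith
  have r0 : 0 ≤ r := (norm_nonneg _).trans (hξ k i)
  obtain ⟨a1, a2⟩ := w3_ring hb hr hξ hε (s := univ.erase i)
    fun j hj => w3_same hb h2.le (Finset.ne_of_mem_erase hj)
  obtain ⟨b1, b2⟩ := w3_ring hb hr hξ hε (s := univ) fun j _ => w3_cross hb h2 i j
  obtain ⟨c1, c2⟩ := w3_ring hb hr hξ hε (s := univ) (k := k) (k' := k - 1) (i := i)
    fun j _ => by
      have := (w3_cross hb (k := k - 1) (by omega) j i).symm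
      rwa [Nat.sub_add_cancel h1] at this
  have d1 := w3_ent hP hr (hb.c_ge k h1 h2) (hε k i)
  have p0 : ∀ k' j, w.p n 0 k' j = w.p0 n k' j := fun k' j => by simp [Wall.p]
  have q0 : ∀ k' j, w.bq n 0 k' j = w.c k' := fun k' j => by simp [Wall.bq]
  have l1 : Real.log ‖w.p n ξ k i‖ = Real.log ‖w.p0 n k i‖ + (ξ k i).re := by
    unfold Wall.p
    rw [norm_mul, Complex.norm_exp, w3_norm_p0, ← Real.exp_add, Real.log_exp, Real.log_exp]
  have l2 : |Real.log (w.c k) + 1| ≤ 2 * P := by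
    have c0 : 0 < w.c k := (inv_pos.2 P0).trans_le (hb.c_ge k h1 h2)
    have h3 := Real.log_le_log (inv_pos.2 P0) (hb.c_ge k h1 h2)
    have h4 := Real.log_le_log c0 (hb.c_le k)
    have h5 := Real.log_le_sub_one_of_pos P0
    rw [Real.log_inv] at h3
    rw [abs_le]
    constructor <;> linarith
  have l3 : |(Real.log (w.c k) + 1) * ε k i| ≤ 2 * P * r := by
    rw [abs_mul]
    exact mul_le_mul l2 (hε k i) (abs_nonneg _) (by positivity)
  have l4 : |w.g k * (ξ k i).re| ≤ P * r := by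
    rw [abs_mul]
    exact mul_le_mul (hb.g_le k) ((Complex.abs_re_le_norm _).trans (hξ k i)) (abs_nonneg _) P0.le
  have m1 : P * r ^ 2 ≤ P ^ 4 * r ^ 2 :=
    mul_le_mul_of_nonneg_right (le_self_pow₀ P1 (by norm_num)) (sq_nonneg r)
  have m2 : P * r ≤ P ^ 3 * r := mul_le_mul_of_nonneg_right (le_self_pow₀ P1 (by norm_num)) r0
  have e0 : w.bq n ε k i = w.c k + ε k i := rfl
  rw [← Dw_zero h1 i]
  unfold Wall.Dw Wall.LD
  simp only [p0, q0]
  rw [l1, e0]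
  rw [abs_le] at a1 a2 b1 b2 c1 c2 d1 l3 l4
  refine ⟨abs_le.2 ⟨?_, ?_⟩, abs_le.2 ⟨?_, ?_⟩⟩
  · linarith [a1.2, b1.1, c1.1, d1.2]
  · linarith [a1.1, b1.2, c1.2, d1.1]
  · linarith [a2.2, b2.1, c2.1, l3.2, l4.2]
  · linarith [a2.1, b2.2, c2.2, l3.1, l4.1]

include hb hr hξ hε hε0

theorem Dw_taylor {k : ℕ} (h1 : 1 ≤ k) (h2 : k < w.N) (i : ZMod n) :
    |w.Dw n ξ ε k i - w.Ds n k - w.LD n ξ ε k i| ≤ P ^ 7 * r ^ 2 := by
  have _ := hε0
  have hP := hb.P_ge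
  have h3 : (1000 : ℝ) ≤ P ^ 3 := hP.trans (le_self_pow₀ (by linarith) (by norm_num))
  have h4 : 0 ≤ P ^ 4 * r ^ 2 := by positivity
  have h5 := mul_le_mul_of_nonneg_right h3 h4
  linarith [(w3_both hb hr hξ hε h1 h2 i).1]

theorem Dw_lip {k : ℕ} (h1 : 1 ≤ k) (h2 : k < w.N) (i : ZMod n) :
    |w.Dw n ξ ε k i - w.Ds n k| ≤ P ^ 6 * r := by
  have _ := hε0
  have hP := hb.P_ge
  have P0 : 0 < P := by linarith
  have r0 : 0 ≤ r := (norm_nonneg _).trans (hξ k i)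
  obtain ⟨a1, a2⟩ := w3_both hb hr hξ hε h1 h2 i
  have h3 : (1000 : ℝ) ≤ P ^ 3 := hP.trans (le_self_pow₀ (by linarith) (by norm_num))
  have h4 : 0 ≤ P ^ 3 * r := by positivity
  have h5 := mul_le_mul_of_nonneg_right h3 h4
  have h6 := mul_le_mul_of_nonneg_right (w3_small hP hr) r0
  have h7 := mul_le_mul_of_nonneg_right h3 r0
  have h8 := abs_add_le (w.Dw n ξ ε k i - w.Ds n k - w.LD n ξ ε k i) (w.LD n ξ ε k i)
  rw [sub_add_cancel] at h8
  linarith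

end Pool.Agent.MP_943ae2_gt
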