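import Pool.Agent.MP_943ae2_gt.Err1
import Pool.Agent.MP_943ae2_gt.W3

open Set Complex Filter Finset
open scoped Topology ComplexConjugate ContDiff

noncomputable section

namespace Pool.Agent.MP_943ae2_gt

lemma Err3_log {A B η : ℝ} (hA : 0 < A) (h : |B - A| ≤ η * A) (hη : η ≤ 1 / 2) :
    |Real.log B - Real.log A| ≤ 2 * η := by
  obtain ⟨h1, h2⟩ := abs_le.1 h
  have h0 : 0 ≤ η := by
    by_contra hc
    have := mul_neg_of_neg_of_pos (not_le.1 hc) hA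
    linarith
  have h3 : η * A ≤ 1 / 2 * A := mul_le_mul_of_nonneg_right hη hA.le
  have hB : 0 < B := by linarith
  have h4 := Real.log_le_sub_one_of_pos (div_pos hB hA)
  have h5 := Real.log_le_sub_one_of_pos (div_pos hA hB)
  rw [Real.log_div hB.ne' hA.ne'] at h4
  rw [Real.log_div hA.ne' hB.ne'] at h5
  have h6 : B / A ≤ 1 + η := by rw [div_le_iff₀ hA]; linarith
  have h7 : A / B ≤ 1 + 2 * η := by
    rw [div_le_iff₀ hB]
    have : η * A ≤ η * (2 * B) := mul_le_mul_of_nonneg_left (by linarith) h0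
    linarith
  exact abs_le.2 ⟨by linarith, by linarith⟩

lemma Err3_u (j : ℕ) : (1000 : ℝ) ≤ (tt j)⁻¹ :=
  le_trans (le_trans (by norm_num) (PP_ge j)) (admM_PP_le j)

lemma Err3_t8 (j : ℕ) : tt j ^ 8 ≤ 1 / 2 :=
  (pow_le_of_le_one (tt_pos j).le (admM_tt_one _) (by norm_num)).trans
    ((tt_le _).trans (by norm_num))

lemma Err3_rho (j : ℕ) : tt j ^ 8 * rho j = (tt j)⁻¹ ^ 24 := by
  have := tt_pos j
  rw [rho]; field_simp

lemma Err3_pow (j : ℕ) {a b : ℕ} (h : a < b) : 1000 * (tt j)⁻¹ ^ a ≤ (tt j)⁻¹ ^ b := by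
  have h1 := Err3_u j
  calc 1000 * (tt j)⁻¹ ^ a ≤ (tt j)⁻¹ * (tt j)⁻¹ ^ a := by gcongr
    _ = (tt j)⁻¹ ^ (a + 1) := by ring
    _ ≤ _ := pow_le_pow_right₀ (by linarith) h

lemma Err3_small {j j' : ℕ} (h : j' ≤ j + 1) : (2 : ℝ) ^ j' * (2 * tt j ^ 8) ≤ tt j ^ 6 / 16 := by
  have h1 : (2 : ℝ) ^ j' ≤ 2 ^ (j + 1) := pow_le_pow_right₀ (by norm_num) h
  have h2 := two_pow_le_PP j
  have h3 := admM_PP_tt j
  have h4 := tt_pos j
  have h5 := tt_le j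
  have h6 : (0 : ℝ) < 2 ^ (j + 1) := by positivity
  calc (2 : ℝ) ^ j' * (2 * tt j ^ 8) ≤ PP j * (2 * tt j ^ 8) := by gcongr; linarith
    _ = (PP j * tt j) * tt j * (2 * tt j ^ 6) := by ring
    _ ≤ 1 * (1 / 1000) * (2 * tt j ^ 6) := by gcongr
    _ ≤ _ := by have := pow_pos h4 6; linarith

/-- the summand of `LL` -/
def Err3F (x : Prm) (e μ : Nk × Bool) : ℝ :=
  (if μ.2 then 1 else -1) * x.bq μ.1.j μ.1.k μ.1.i * Real.log ‖x.dat.pos e - x.dat.pos μ‖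

/-- model of the contribution of the inner wall -/
def Err3I (x : Prm) (j m : ℕ) : ℝ :=
  if j = 0 then 0 else x.w (j - 1) (Lb (j - 1) + m - 1) - x.w (j - 1) (Lb (j - 1) + m)

/-- model of the contribution of the outer wall -/
def Err3O (x : Prm) (j m : ℕ) : ℝ :=
  x.w (j + 1) (m - Lb j - 1) * x.lr (j + 1) (m - Lb j - 1) -
    x.w (j + 1) (m - Lb j) * x.lr (j + 1) (m - Lb j)

lemma Err3_I (x : Prm) (j k : ℕ) : Err3I x j k - Err3I x j (k + 1) = -(x.wall j).g k := by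
  cases j with
  | zero =>
    have : (x.wall 0).g k = 0 := rfl
    simp [Err3I, this]
  | succ j =>
    rw [x.Mac1_g, Err3I, Err3I, if_neg (Nat.succ_ne_zero j), if_neg (Nat.succ_ne_zero j),
      Nat.add_sub_cancel, ← Nat.add_assoc, Nat.add_sub_cancel, Prm.D2]
    ring

lemma Err3_O (x : Prm) (j k : ℕ) : Err3O x j k - Err3O x j (k + 1) = x.Oc j k := by
  unfold Err3O Prm.Oc
  split_ifs with h
  · rw [show k + 1 - Lb j = k - Lb j + 1 by omega, Nat.add_sub_cancel]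
    ring
  · rw [show k + 1 - Lb j = 0 by omega, show k - Lb j = 0 by omega]
    ring

lemma Err3_pp (x : Prm) {j : ℕ} (hj : 1 ≤ j) (k : ℕ) (i : ZMod (nn j)) :
    x.pp j k i = (x.wall j).p (nn j) (x.ξ j) k i := if_neg (by omega)

lemma Err3_Dw (x : Prm) (j k : ℕ) (i : ZMod (nn j)) :
    (x.wall j).Dw (nn j) (x.ξ j) (x.ε j) k i = -2 * x.bq j k i * Real.log (x.bq j k i) -
      2 * ∑ i' ∈ univ.erase i, x.bq j k i' *
        Real.log ‖(x.wall j).p (nn j) (x.ξ j) k i - (x.wall j).p (nn j) (x.ξ j) k i'‖ +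
      ∑ i', x.bq j (k + 1) i' *
        Real.log ‖(x.wall j).p (nn j) (x.ξ j) k i - (x.wall j).p (nn j) (x.ξ j) (k + 1) i'‖ +
      ∑ i', x.bq j (k - 1) i' *
        Real.log ‖(x.wall j).p (nn j) (x.ξ j) k i - (x.wall j).p (nn j) (x.ξ j) (k - 1) i'‖ -
      (x.wall j).g k * Real.log ‖(x.wall j).p (nn j) (x.ξ j) k i‖ := rfl

namespace InK

variable {x : Prm} (hx : InK x)
include hx

lemma Err3_de (e : Nk × Bool) : ‖x.dat.pos e - x.pp e.1.j e.1.k e.1.i‖ ≤ (tt e.1.j)⁻¹ ^ 3 := by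
  rw [Pos_pos, add_sub_cancel_left]
  split_ifs
  · exact hx.de_le _ _ _
  · have := tt_pos e.1.j
    rw [norm_zero]; positivity

lemma Err3_bq (j k : ℕ) (i : ZMod (nn j)) : 0 ≤ x.bq j k i := by
  by_cases h : k = 0 ∨ NN j ≤ k
  · exact (hx.bq_out h i).ge
  · exact le_trans (by positivity) (hx.bq_ge ⟨j, k, i, by omega, by omega⟩)

lemma Err3_sum {j : ℕ} (k : ℕ) (S : Finset (ZMod (nn j))) (a b : ZMod (nn j) → ℝ) {δ : ℝ}
    (hδ : 0 ≤ δ) (h : ∀ i ∈ S, |a i - b i| ≤ δ) :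
    |∑ i ∈ S, x.bq j k i * a i - ∑ i ∈ S, x.bq j k i * b i| ≤ 2 ^ j * δ := by
  rw [← Finset.sum_sub_distrib]
  refine (Finset.abs_sum_le_sum_abs _ _).trans ?_
  calc ∑ i ∈ S, |x.bq j k i * a i - x.bq j k i * b i| ≤ ∑ i ∈ S, x.bq j k i * δ := by
        refine Finset.sum_le_sum fun i hi => ?_
        rw [← mul_sub, abs_mul, abs_of_nonneg (hx.Err3_bq j k i)]
        exact mul_le_mul_of_nonneg_left (h i hi) (hx.Err3_bq j k i)
    _ ≤ ∑ i, x.bq j k i * δ := Finset.sum_le_sum_of_subset_of_nonneg (Finset.subset_univ S)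
        fun i _ _ => mul_nonneg (hx.Err3_bq j k i) hδ
    _ = x.w j k * δ := by rw [← Finset.sum_mul, hx.sum_bq]
    _ ≤ _ := mul_le_mul_of_nonneg_right ((hx.w_le j k).trans (hx.W_le j)) hδ

lemma Err3_part (e : Nk × Bool) (s : Bool) {j k : ℕ} (h1 : 1 ≤ k) (h2 : k < NN j)
    (S : Finset (ZMod (nn j))) (b : ZMod (nn j) → ℝ) {δ : ℝ} (hδ : 0 ≤ δ)
    (h : ∀ i ∈ S, |Real.log ‖x.dat.pos e - x.dat.pos (⟨j, k, i, h1, h2⟩, s)‖ - b i| ≤ δ) :
    |∑ i ∈ S, Err3F x e (⟨j, k, i, h1, h2⟩, s) -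
      (if s then 1 else -1) * ∑ i ∈ S, x.bq j k i * b i| ≤ 2 ^ j * δ := by
  have h3 := hx.Err3_sum k S _ b hδ h
  have h4 : ∑ i ∈ S, Err3F x e (⟨j, k, i, h1, h2⟩, s) = (if s then 1 else -1) *
      ∑ i ∈ S, x.bq j k i * Real.log ‖x.dat.pos e - x.dat.pos (⟨j, k, i, h1, h2⟩, s)‖ := by
    rw [Finset.mul_sum]
    exact Finset.sum_congr rfl fun i _ => mul_assoc _ _ _
  rw [h4, ← mul_sub, abs_mul]
  cases s <;> simpa using h3

lemma Err3_ring (e : Nk × Bool) (s : Bool) (j k : ℕ) (b : ZMod (nn j) → ℝ) {δ : ℝ} (hδ : 0 ≤ δ)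
    (h : ∀ i h1 h2, |Real.log ‖x.dat.pos e - x.dat.pos (⟨j, k, i, h1, h2⟩, s)‖ - b i| ≤ δ) :
    |ringSum (Err3F x e) s j k - (if s then 1 else -1) * ∑ i, x.bq j k i * b i| ≤ 2 ^ j * δ := by
  unfold ringSum
  by_cases hk : 1 ≤ k ∧ k < NN j
  · rw [dif_pos hk]
    exact hx.Err3_part e s hk.1 hk.2 univ b hδ fun i _ => h i _ _
  · rw [dif_neg hk, Finset.sum_eq_zero fun i _ => by rw [hx.bq_out (by omega) i, zero_mul],
      mul_zero, sub_zero, abs_zero]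
    positivity

lemma Err3_wall (e : Nk × Bool) (j m : ℕ) (b : ℕ → ℝ) {δ : ℝ} (hδ : 0 ≤ δ)
    (h : ∀ μ : Nk × Bool, μ.1.j = j → |Real.log ‖x.dat.pos e - x.dat.pos μ‖ - b μ.1.k| ≤ δ) :
    |wallSum (Err3F x e) j m - (x.w j (m - 1) * b (m - 1) - x.w j m * b m)| ≤
      2 * (2 ^ j * δ) := by
  have h1 := hx.Err3_ring e false j m (fun _ => b m) hδ fun i h1 h2 => h _ rfl
  have h2 := hx.Err3_ring e true j (m - 1) (fun _ => b (m - 1)) hδ fun i h1 h2 => h _ rfl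
  rw [← Finset.sum_mul, hx.sum_bq] at h1 h2
  simp only [Bool.false_eq_true, if_false, if_true] at h1 h2
  obtain ⟨a1, a2⟩ := abs_le.1 h1
  obtain ⟨a3, a4⟩ := abs_le.1 h2
  unfold wallSum
  exact abs_le.2 ⟨by linarith, by linarith⟩

lemma Err3_same {j k k' : ℕ} {i i' : ZMod (nn j)} {h1 : 1 ≤ k} {h2 : k < NN j} {h1' : 1 ≤ k'}
    {h2' : k' < NN j} {s s' : Bool} (hk : (k' + if s' then 1 else 0) = k + if s then 1 else 0)
    (hne : k' ≠ k ∨ i' ≠ i) :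
    |Real.log ‖x.dat.pos (⟨j, k, i, h1, h2⟩, s) - x.dat.pos (⟨j, k', i', h1', h2'⟩, s')‖ -
      Real.log ‖(x.wall j).p (nn j) (x.ξ j) k i - (x.wall j).p (nn j) (x.ξ j) k' i'‖| ≤
      2 * tt j ^ 8 := by
  have hj : 1 ≤ j := by
    rcases Nat.eq_zero_or_pos j with rfl | hj
    · have hN := NN_zero
      have hs : Subsingleton (ZMod (nn 0)) := ZMod.subsingleton_iff.2 nn_zero
      rcases hne with h | h
      · omega
      · exact (h (Subsingleton.elim _ _)).elim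
    · exact hj
  have hm : ((⟨j, k', i', h1', h2'⟩, s') : Nk × Bool) ∈ frm.oth (⟨j, k, i, h1, h2⟩, s) := by
    refine mem_oth.2 ⟨fun h => ?_, ?_⟩
    · simp only [Prod.mk.injEq, Nk.mk.injEq, heq_eq_eq, true_and] at h
      rcases hne with h' | h'
      · exact h' h.1.1
      · exact h' h.1.2
    · rw [lay_eq, lay_eq]
      dsimp only
      rw [hk]
  have a1 := hx.sep_oth hm
  have a2 := hx.Err3_de (⟨j, k, i, h1, h2⟩, s)
  have a3 := hx.Err3_de (⟨j, k', i', h1', h2'⟩, s')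
  dsimp only at a1 a2 a3
  rw [Err3_pp x hj] at a2 a3
  have hn := admM_nn_pos j
  have hr := rho_pos j
  have ht := tt_pos j
  rw [abs_sub_comm]
  refine Err3_log (lt_of_lt_of_le (by positivity) a1) ?_ (Err3_t8 j)
  refine (abs_norm_sub_norm_le _ _).trans ?_
  have a4 : 2 * (tt j)⁻¹ ^ 3 ≤ tt j ^ 8 * (rho j / (4 * nn j)) := by
    rw [← mul_div_assoc, Err3_rho, le_div_iff₀ (by positivity)]
    have b1 := admM_nn_le j
    have b2 := admM_PP_le j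
    have b3 := Err3_pow j (show 4 < 24 by norm_num)
    have b4 : (0 : ℝ) < (tt j)⁻¹ ^ 3 := by positivity
    have b5 : (tt j)⁻¹ ^ 3 * nn j ≤ (tt j)⁻¹ ^ 3 * (tt j)⁻¹ := by gcongr; linarith
    have b6 : (tt j)⁻¹ ^ 3 * (tt j)⁻¹ = (tt j)⁻¹ ^ 4 := by ring
    have b7 : (0 : ℝ) < (tt j)⁻¹ ^ 4 := by positivity
    linarith
  have a5 := mul_le_mul_of_nonneg_left a1 (pow_pos ht 8).le
  refine le_trans ?_ (a4.trans a5)
  generalize x.dat.pos (⟨j, k, i, h1, h2⟩, s) = p at a2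
  generalize x.dat.pos (⟨j, k', i', h1', h2'⟩, s') = q at a3
  generalize (x.wall j).p (nn j) (x.ξ j) k i = p' at a2
  generalize (x.wall j).p (nn j) (x.ξ j) k' i' = q' at a3
  rw [show p' - q' - (p - q) = (q - q') - (p - p') by ring]
  linarith [norm_sub_le (q - q') (p - p')]

lemma Err3_in (e μ : Nk × Bool) (h : μ.1.j + 1 = e.1.j) :
    |Real.log ‖x.dat.pos e - x.dat.pos μ‖ -
      Real.log ‖(x.wall e.1.j).p (nn e.1.j) (x.ξ e.1.j) e.1.k e.1.i‖| ≤ 2 * tt e.1.j ^ 8 := by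
  have hj : 1 ≤ e.1.j := by omega
  have a1 := hx.pos_ge (e.1, false) hj
  have a2 := hx.Err3_de e
  have a3 := hx.pos_le μ
  have a4 : rho μ.1.j = (tt e.1.j)⁻¹ ^ 8 := by
    rw [← h, tt_succ, rho, ← inv_pow, ← pow_mul]
  rw [Pos_pos] at a1
  simp only [Bool.false_eq_true, if_false, add_zero] at a1
  rw [← Err3_pp x hj]
  have hr := rho_pos e.1.j
  have ht := tt_pos e.1.j
  refine Err3_log (by linarith) ?_ (Err3_t8 _)
  refine (abs_norm_sub_norm_le _ _).trans ?_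
  have a5 := mul_le_mul_of_nonneg_left a1 (pow_pos ht 8).le
  have a6 := Err3_rho e.1.j
  have b1 := Err3_pow e.1.j (show 3 < 24 by norm_num)
  have b2 := Err3_pow e.1.j (show 8 < 24 by norm_num)
  have b3 : (0 : ℝ) < (tt e.1.j)⁻¹ ^ 24 := by positivity
  rw [sub_right_comm]
  have b4 := norm_sub_le (x.dat.pos e - x.pp e.1.j e.1.k e.1.i) (x.dat.pos μ)
  linarith

lemma Err3_out (e μ : Nk × Bool) (h : μ.1.j = e.1.j + 1) :
    |Real.log ‖x.dat.pos e - x.dat.pos μ‖ - x.lr (e.1.j + 1) μ.1.k| ≤ 2 * tt e.1.j ^ 8 := by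
  have hj : 1 ≤ μ.1.j := by omega
  have a1 := hx.pos_near μ hj
  have a2 := hx.pos_le e
  have a3 := (hx.Pos_exp hj μ.1.h2.le).1
  have a4 : rho μ.1.j = (tt e.1.j)⁻¹ ^ 128 := by
    rw [h, rho_succ, rho, ← pow_mul]
  have a5 : tt μ.1.j ^ 3 = tt e.1.j ^ 4 * tt e.1.j ^ 8 := by
    rw [h, tt_succ]; ring
  have ht := tt_pos e.1.j
  have hA := Real.exp_pos (x.lr μ.1.j μ.1.k)
  have a6 : ‖((Real.exp (x.lr μ.1.j μ.1.k) : ℝ) : ℂ) * un (nn μ.1.j) μ.1.k μ.1.i‖ =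
      Real.exp (x.lr μ.1.j μ.1.k) := by
    rw [norm_mul, norm_un, mul_one, norm_real, Real.norm_eq_abs, abs_of_pos hA]
  rw [← h, ← Real.log_exp (x.lr μ.1.j μ.1.k), norm_sub_rev]
  refine Err3_log hA ?_ (Err3_t8 _)
  have a7 := abs_norm_sub_norm_le (x.dat.pos μ - x.dat.pos e)
    (((Real.exp (x.lr μ.1.j μ.1.k) : ℝ) : ℂ) * un (nn μ.1.j) μ.1.k μ.1.i)
  rw [a6, sub_right_comm] at a7
  refine a7.trans ((norm_sub_le _ _).trans ?_)
  have b0 := pow_pos ht 8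
  have b1 : tt e.1.j ^ 4 ≤ 1 / 1000 :=
    (pow_le_of_le_one ht.le (admM_tt_one _) (by norm_num)).trans (tt_le _)
  have b2 := mul_le_mul_of_nonneg_right b1 (mul_pos b0 hA).le
  have b3 := mul_le_mul_of_nonneg_left a3 b0.le
  have b4 : tt e.1.j ^ 8 * (tt e.1.j)⁻¹ ^ 128 = (tt e.1.j)⁻¹ ^ 120 := by field_simp
  have b5 := Err3_pow e.1.j (show 32 < 120 by norm_num)
  have b6 : rho e.1.j = (tt e.1.j)⁻¹ ^ 32 := rfl
  have b7 := rho_pos e.1.j
  rw [a5] at a1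
  rw [a4] at b3
  linarith

lemma Err3_oth (e : Nk × Bool) (m : ℕ) :
    |othSum (Err3F x e) e.1.j m - (Err3I x e.1.j m *
      Real.log ‖(x.wall e.1.j).p (nn e.1.j) (x.ξ e.1.j) e.1.k e.1.i‖ + Err3O x e.1.j m)| ≤
      tt e.1.j ^ 6 / 8 := by
  have ht := tt_pos e.1.j
  have hδ : 0 ≤ 2 * tt e.1.j ^ 8 := by positivity
  unfold othSum Err3I Err3O
  by_cases h : m ≤ Lb e.1.j
  · rw [if_pos h, show m - Lb e.1.j = 0 by omega, Nat.zero_sub, sub_self, add_zero]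
    by_cases h0 : e.1.j = 0
    · rw [if_pos h0, if_pos h0, zero_mul, sub_zero, abs_zero]
      positivity
    · have h1 := hx.Err3_wall e (e.1.j - 1) (Lb (e.1.j - 1) + m) (fun _ => _) hδ
        fun μ hμ => hx.Err3_in e μ (by omega)
      have h2 := Err3_small (j := e.1.j) (j' := e.1.j - 1) (by omega)
      rw [if_neg h0, if_neg h0, sub_mul]
      linarith
  · have h1 := hx.Err3_wall e (e.1.j + 1) (m - Lb e.1.j) (x.lr (e.1.j + 1)) hδ
      fun μ hμ => hx.Err3_out e μ hμ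
    have h2 := Err3_small (j := e.1.j) (j' := e.1.j + 1) le_rfl
    have h3 : (if e.1.j = 0 then 0 else x.w (e.1.j - 1) (Lb (e.1.j - 1) + m - 1) -
        x.w (e.1.j - 1) (Lb (e.1.j - 1) + m)) = 0 := by
      split_ifs with h0
      · rfl
      · have b1 := Lb_succ (e.1.j - 1)
        rw [Nat.sub_add_cancel (by omega)] at b1
        have b2 : NN (e.1.j - 1) = Lb (e.1.j - 1) + Mt (e.1.j - 1) := rfl
        rw [x.w_out (by omega), x.w_out (by omega), sub_zero]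
    rw [if_neg h, h3, zero_mul, zero_add]
    linarith

theorem LL_near (ν : Nk) :
    |-2 * x.bq ν.j ν.k ν.i * Real.log (x.bq ν.j ν.k ν.i) + x.LL (ν, false) - x.LL (ν, true) -
      ((x.wall ν.j).Dw (nn ν.j) (x.ξ ν.j) (x.ε ν.j) ν.k ν.i + x.Oc ν.j ν.k)| ≤ tt ν.j ^ 6 / 2 := by
  have e1 : x.LL (ν, false) = _ := sum_oth_false (Err3F x (ν, false)) ν
  have e2 : x.LL (ν, true) = _ := sum_oth_true (Err3F x (ν, true)) ν
  have o1 := hx.Err3_oth (ν, false) ν.k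
  have o2 := hx.Err3_oth (ν, true) (ν.k + 1)
  obtain ⟨j, k, i, h1, h2⟩ := ν
  dsimp only at e1 e2 o1 o2 ⊢
  have hδ : 0 ≤ 2 * tt j ^ 8 := by have := tt_pos j; positivity
  have s1 := hx.Err3_part (⟨j, k, i, h1, h2⟩, false) false h1 h2 (univ.erase i) _ hδ
    fun i' hi => hx.Err3_same rfl (.inr (ne_of_mem_erase hi))
  have s2 := hx.Err3_part (⟨j, k, i, h1, h2⟩, true) true h1 h2 (univ.erase i) _ hδ
    fun i' hi => hx.Err3_same rfl (.inr (ne_of_mem_erase hi))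
  have s3 := hx.Err3_ring (⟨j, k, i, h1, h2⟩, false) true j (k - 1) _ hδ
    fun i' a1 a2 => hx.Err3_same (by simp; omega) (.inl (by omega))
  have s4 := hx.Err3_ring (⟨j, k, i, h1, h2⟩, true) false j (k + 1) _ hδ
    fun i' a1 a2 => hx.Err3_same (by simp) (.inl (by omega))
  simp only [Bool.false_eq_true, if_false, if_true] at s1 s2 s3 s4
  have h3 := Err3_small (j := j) (j' := j) (by omega)
  have h4 := congrArg (· * Real.log ‖(x.wall j).p (nn j) (x.ξ j) k i‖) (Err3_I x j k)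
  have h5 := Err3_O x j k
  rw [e1, e2, Err3_Dw]
  obtain ⟨a1, a2⟩ := abs_le.1 s1
  obtain ⟨a3, a4⟩ := abs_le.1 s2
  obtain ⟨a5, a6⟩ := abs_le.1 s3
  obtain ⟨a7, a8⟩ := abs_le.1 s4
  obtain ⟨b1, b2⟩ := abs_le.1 o1
  obtain ⟨b3, b4⟩ := abs_le.1 o2
  exact abs_le.2 ⟨by linarith, by linarith⟩

theorem Dt_err {j k : ℕ} (h1 : 1 ≤ k) (h2 : k < NN j) (i : ZMod (nn j)) :
    |x.Dt j k i - ((x.wall j).Dw (nn j) (x.ξ j) (x.ε j) k i + x.Oc j k)| ≤ tt j ^ 6 := by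
  obtain ⟨a1, a2⟩ := abs_le.1 (hx.Dt_near ⟨j, k, i, h1, h2⟩)
  obtain ⟨a3, a4⟩ := abs_le.1 (hx.LL_near ⟨j, k, i, h1, h2⟩)
  dsimp only at a1 a2 a3 a4
  exact abs_le.2 ⟨by linarith, by linarith⟩

lemma Err3_lip {j k : ℕ} (h1 : 1 ≤ k) (h2 : k < NN j) (i : ZMod (nn j)) :
    |(x.wall j).Dw (nn j) (x.ξ j) (x.ε j) k i - (x.wall j).Ds (nn j) k| ≤ tt j ^ 2 / 2 := by
  have ht := tt_pos j
  rcases Nat.eq_zero_or_pos j with rfl | hj
  · have hN := NN_zero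
    obtain rfl : k = 1 := by omega
    have hs : Subsingleton (ZMod (nn 0)) := ZMod.subsingleton_iff.2 nn_zero
    have a1 : x.bq 0 1 i = 1 := by
      have b1 : x.w 0 1 = 1 := x.w_L 0
      have b2 : ((nn 0 : ℕ) : ℝ) = 1 := by rw [nn_zero, Nat.cast_one]
      rw [Pos_bq, (hx.micro_zero (j := 0) (by norm_num)).2, x.Mac1_c, b1, b2]
      simp
    have a2 : (x.wall 0).g 1 = 0 := rfl
    rw [x.Ds_zero, Err3_Dw, a1, a2,
      Finset.sum_eq_zero fun i' hi => (ne_of_mem_erase hi (Subsingleton.elim _ _)).elim,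
      Finset.sum_eq_zero fun i' _ => by rw [hx.bq_out (by omega) i', zero_mul],
      Finset.sum_eq_zero fun i' _ => by rw [hx.bq_out (by omega) i', zero_mul]]
    simp
    positivity
  · have hP := admM_PP_pos j
    have hr : tt j ^ 3 ≤ (PP j ^ 2)⁻¹ ^ 4 := by
      have a1 := admM_pow_tt j (m := 8) (by norm_num)
      have a2 : tt j ^ 3 ≤ tt j := pow_le_of_le_one ht.le (admM_tt_one j) (by norm_num)
      rw [inv_pow, inv_eq_one_div, le_div_iff₀ (by positivity)]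
      calc tt j ^ 3 * (PP j ^ 2) ^ 4 ≤ tt j * (PP j ^ 2) ^ 4 := by gcongr
        _ = PP j ^ 8 * tt j := by ring
        _ ≤ 1 := a1
    refine (Dw_lip (hx.wall_bd hj) hr (hx.ξ_le j) (hx.ε_le j) (hx.ε_out j) h1 h2 i).trans ?_
    have a1 := admM_pow_tt j (m := 13) (by norm_num)
    have a2 : (2 : ℝ) ≤ PP j := le_trans (by norm_num) (PP_ge j)
    rw [le_div_iff₀ two_pos]
    calc (PP j ^ 2) ^ 6 * tt j ^ 3 * 2 ≤ (PP j ^ 2) ^ 6 * tt j ^ 3 * PP j := by gcongr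
      _ = PP j ^ 13 * tt j * tt j ^ 2 := by ring
      _ ≤ 1 * tt j ^ 2 := by gcongr
      _ = _ := one_mul _

theorem Dt_val {j k : ℕ} (h1 : 1 ≤ k) (h2 : k < NN j) (i : ZMod (nn j)) :
    |x.Dt j k i - ((x.wall j).Ds (nn j) k + x.Oc j k)| ≤ tt j ^ 2 := by
  obtain ⟨a1, a2⟩ := abs_le.1 (hx.Dt_err h1 h2 i)
  obtain ⟨a3, a4⟩ := abs_le.1 (hx.Err3_lip h1 h2 i)
  have ht := tt_pos j
  have b1 : tt j ^ 4 ≤ 1 / 1000 :=
    (pow_le_of_le_one ht.le (admM_tt_one _) (by norm_num)).trans (tt_le _)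
  have b2 := mul_le_mul_of_nonneg_right b1 (pow_pos ht 2).le
  have b3 := pow_pos ht 2
  exact abs_le.2 ⟨by linarith, by linarith⟩

end InK

end Pool.Agent.MP_943ae2_gt
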