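import Pool.Agent.MP_943ae2_gt.Four

open Set Complex Filter Finset
open scoped Topology ComplexConjugate ContDiff

noncomputable section

namespace Pool.Agent.MP_943ae2_gt

variable {w : Wall} {n : ℕ} [NeZero n] {ρ ε : ℕ → ZMod n → ℝ} {P : ℝ}

theorem W4_drop (F : ℕ → ℝ) (h : F 0 = 0) : ∑ m ∈ range n, F m = ∑ m ∈ Ico 1 n, F m := by
  rw [range_eq_Ico, sum_eq_sum_Ico_succ_bot (Nat.pos_of_ne_zero (NeZero.ne n)), h, zero_add]

theorem W4_shift (T : ℕ → ℝ) (N : ℕ) (h0 : T 0 = 0) (hN : T (N - 1) = 0) :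
    ∑ k ∈ Ico 1 N, T (k - 1) = ∑ k ∈ Ico 1 N, T k := by
  have H : ∀ M : ℕ, ∑ k ∈ Ico 1 (M + 1), T (k - 1) + T M = ∑ k ∈ Ico 1 (M + 1), T k + T 0 := by
    intro M
    induction M with
    | zero => simp
    | succ M ih =>
      rw [sum_Ico_succ_top (by omega), sum_Ico_succ_top (a := 1) (b := M + 1) (by omega),
        Nat.add_sub_cancel]
      linarith
  cases N with
  | zero => simp
  | succ M =>
    have := H M
    rw [Nat.add_sub_cancel] at hN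
    linarith

theorem W4_sum_left (K : ZMod n → ℝ) (i : ZMod n) : ∑ j, K (j - i) = ∑ d, K d :=
  Fintype.sum_equiv (Equiv.subRight i) _ _ fun _ => rfl

theorem W4_sum_right (K : ZMod n → ℝ) (j : ZMod n) : ∑ i, K (j - i) = ∑ d, K d :=
  Fintype.sum_equiv (Equiv.subLeft j) _ _ fun _ => rfl

theorem W4_expand (K a b : ZMod n → ℝ) :
    ∑ i, ∑ j, K (j - i) * (b j - a i) ^ 2 = (∑ d, K d) * (∑ i, a i * a i) +
      (∑ d, K d) * (∑ j, b j * b j) - 2 * ∑ i, ∑ j, K (j - i) * a i * b j := by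
  have h1 : ∑ i, ∑ j, K (j - i) * (a i * a i) = (∑ d, K d) * (∑ i, a i * a i) := by
    rw [mul_sum]
    exact sum_congr rfl fun i _ => by rw [← sum_mul, W4_sum_left]
  have h2 : ∑ i, ∑ j, K (j - i) * (b j * b j) = (∑ d, K d) * (∑ j, b j * b j) := by
    rw [sum_comm, mul_sum]
    exact sum_congr rfl fun j _ => by rw [← sum_mul, W4_sum_right]
  rw [← h1, ← h2, mul_sum, ← sum_add_distrib, ← sum_sub_distrib]
  refine sum_congr rfl fun i _ => ?_
  rw [mul_sum, ← sum_add_distrib, ← sum_sub_distrib]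
  exact sum_congr rfl fun j _ => by ring

theorem W4_normsq (z : ℂ) : (z * conj z).re = ‖z‖ ^ 2 := by
  rw [mul_conj, ofReal_re, normSq_eq_norm_sq]

theorem W4_cross (hρ : ∀ k, ∑ i, ρ k i = 0) (k : ℕ) :
    ∑ i, ∑ j, Wall.KK (w.p0 n (k + 1) j / w.p0 n k i) * (ρ (k + 1) j - ρ k i) ^ 2 =
      (∑ m ∈ Ico 1 n, (n : ℝ) ^ 2 * (w.tk n k * (‖hat n ρ m k‖ ^ 2 + ‖hat n ρ m (k + 1)‖ ^ 2) -
        2 * w.Ak n m k * (hat n ρ m k * conj (hat n ρ m (k + 1))).re)) / n := by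
  simp only [p0_div_cross]
  rw [W4_expand (fun d => Wall.KK ((Real.exp (-w.y n k / n) : ℝ) * (ze n * ZMod.stdAddChar d)))
    (ρ k) (ρ (k + 1)), conv_cross n ρ ρ (fun d => Wall.KK ((Real.exp (-w.y n k / n) : ℝ) *
      (ze n * ZMod.stdAddChar d))), parseval n ρ ρ k, parseval n ρ ρ (k + 1)]
  have h0 : ∑ d : ZMod n, Wall.KK ((Real.exp (-w.y n k / n) : ℝ) * (ze n * ZMod.stdAddChar d)) =
      (n : ℝ) ^ 2 * w.tk n k := by
    have := K_cross n w k (Nat.zero_le n)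
    simp only [pow_zero, mul_one] at this
    rw [← ofReal_sum, ofReal_inj] at this
    rw [this]
    simp [Wall.Ak]
  rw [h0, ← W4_drop _ (by simp [hat_zero n (hρ _)]), ← mul_div_assoc, ← mul_div_assoc,
    ← mul_div_assoc, ← add_div, ← sub_div, mul_sum, mul_sum, mul_sum, ← sum_add_distrib,
    ← sum_sub_distrib]
  congr 1
  refine sum_congr rfl fun m hm => ?_
  rw [K_cross n w k (mem_range.1 hm).le, re_ofReal_mul, W4_normsq, W4_normsq]
  ring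

theorem W4_same (k : ℕ) :
    ∑ i, ∑ j ∈ univ.erase i, Wall.KK (w.p0 n k j / w.p0 n k i) * (ρ k j - ρ k i) ^ 2 =
      (∑ m ∈ Ico 1 n, (n : ℝ) ^ 2 * (m / n * (1 - m / n) * ‖hat n ρ m k‖ ^ 2)) / n := by
  have hn : (n : ℝ) ≠ 0 := Nat.cast_ne_zero.2 (NeZero.ne n)
  have e : ∀ i, ∑ j ∈ univ.erase i, Wall.KK (w.p0 n k j / w.p0 n k i) * (ρ k j - ρ k i) ^ 2 =
      ∑ j, Wall.KK (ZMod.stdAddChar (j - i)) * (ρ k j - ρ k i) ^ 2 := by
    intro i
    simp only [p0_div_same]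
    exact sum_erase _ (by simp)
  simp only [e]
  rw [W4_expand (fun d => Wall.KK (ZMod.stdAddChar d)) (ρ k) (ρ k),
    conv_same n ρ ρ (fun d => Wall.KK (ZMod.stdAddChar d)),
    parseval n ρ ρ k, ← W4_drop _ (by simp), ← mul_div_assoc, ← mul_div_assoc,
    ← add_div, ← sub_div, mul_sum, mul_sum, ← sum_add_distrib, ← sum_sub_distrib]
  congr 1
  refine sum_congr rfl fun m hm => ?_
  have h := K_same n (mem_range.1 hm).le
  rw [sum_erase _ (by simp)] at h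
  simp only [mul_sub, mul_one, sum_sub_distrib] at h
  have h' : ∑ d : ZMod n, (Wall.KK (ZMod.stdAddChar d) : ℂ) * ZMod.stdAddChar d ^ m =
      ((∑ d : ZMod n, Wall.KK (ZMod.stdAddChar d) - m * (n - m) / 2 : ℝ) : ℂ) := by
    push_cast
    linear_combination -h
  rw [h', re_ofReal_mul, W4_normsq]
  field_simp
  ring

theorem Sq_modes (hρ : ∀ k, ∑ i, ρ k i = 0) :
    w.Sq n ρ = (∑ m ∈ Ico 1 n, w.Sm n m (hat n ρ m)) / n := by
  unfold Wall.Sq Wall.Sm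
  simp only [W4_cross hρ, W4_same, mul_sum]
  rw [sum_comm, sum_div]
  refine sum_congr rfl fun k _ => ?_
  rw [← mul_div_assoc, ← mul_div_assoc, ← sub_div, mul_sum, mul_sum, ← sum_sub_distrib]
  congr 1
  exact sum_congr rfl fun m _ => by ring

theorem W4_kap_inv {l : ℂ} (h0 : l ≠ 0) (h1 : l ≠ 1) : (kap l⁻¹).re = 1 - (kap l).re := by
  have h : kap l⁻¹ = 1 - kap l := by
    have h2 : 1 - l ≠ 0 := sub_ne_zero.2 h1.symm
    have h3 : 1 - l⁻¹ ≠ 0 := sub_ne_zero.2 fun e => h1 (inv_eq_one.1 e.symm)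
    unfold kap
    rw [div_eq_iff h3]
    field_simp
    ring
  rw [h, sub_re, one_re]

theorem W4_ne (k : ℕ) (d : ZMod n) :
    ((Real.exp (-w.y n k / n) : ℝ) : ℂ) * (ze n * ZMod.stdAddChar d) ≠ 0 ∧
      ((Real.exp (-w.y n k / n) : ℝ) : ℂ) * (ze n * ZMod.stdAddChar d) ≠ 1 := by
  have h : (((Real.exp (-w.y n k / n) : ℝ) : ℂ) * (ze n * ZMod.stdAddChar d)) ^ n =
      ((-(Real.exp (-w.y n k / n)) ^ n : ℝ) : ℂ) := by
    rw [mul_pow, mul_pow, ze_pow, chi_pow]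
    push_cast
    ring
  have hp : 0 < (Real.exp (-w.y n k / n)) ^ n := by positivity
  constructor
  · intro e
    rw [e, zero_pow (NeZero.ne n), eq_comm, ofReal_eq_zero] at h
    linarith
  · intro e
    rw [e, one_pow, eq_comm, ← ofReal_one, ofReal_inj] at h
    linarith

theorem W4_P (f g : ℕ → ZMod n → ℝ) (k : ℕ) (hf : ∑ i, f k i = 0) :
    ∑ i, ∑ j, (kap (w.p0 n (k + 1) j / w.p0 n k i)).re * f k i * g (k + 1) j =
      (∑ m ∈ Ico 1 n, n * w.ph n m k / 2 * (hat n f m k * conj (hat n g m (k + 1))).re) / n := by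
  simp only [p0_div_cross]
  rw [conv_cross n f g (fun d => (kap ((Real.exp (-w.y n k / n) : ℝ) *
    (ze n * ZMod.stdAddChar d))).re), W4_drop _ (by simp [hat_zero n hf])]
  congr 1
  refine sum_congr rfl fun m hm => ?_
  rw [P_cross n w k (mem_Ico.1 hm).1 (mem_Ico.1 hm).2, re_ofReal_mul]

theorem W4_re_comm (a b : ℂ) : (a * conj b).re = (b * conj a).re := by
  simp only [mul_re, conj_re, conj_im]
  ring

theorem Xq_modes (hb : w.Bd n P) (hρ : ∀ k, ∑ i, ρ k i = 0) (hε : ∀ k, ∑ i, ε k i = 0)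
    (hε0 : ∀ k i, (k = 0 ∨ w.N ≤ k) → ε k i = 0) :
    w.Xq n ε ρ = (∑ m ∈ Ico 1 n, w.Xm n m (hat n ρ m) (hat n ε m)) / n := by
  -- the contribution of the lower ring
  obtain ⟨T, hT⟩ : ∃ T : ℕ → ℝ, ∀ k, T k = 2 * w.c (k + 1) *
      ∑ j, ∑ i, (kap (w.p0 n (k + 1) i / w.p0 n k j)).re * ε k j * ρ (k + 1) i := ⟨_, fun _ => rfl⟩
  have h1 : ∀ k i, 2 * ∑ j ∈ univ.erase i, ε k j * (kap (w.p0 n k j / w.p0 n k i)).re =
      -ε k i := by
    intro k i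
    have : ∑ j ∈ univ.erase i, ε k j * (kap (w.p0 n k j / w.p0 n k i)).re =
        ∑ j ∈ univ.erase i, ε k j * (1 / 2) := sum_congr rfl fun j hj => by
      rw [p0_div_same, re_kap_chi n (sub_ne_zero.2 (ne_of_mem_erase hj))]
    rw [this, ← sum_mul, sum_erase_eq_sub (mem_univ i), hε k]
    ring
  have h3 : ∀ k i, ∑ j, ε k j * (kap (w.p0 n k j / w.p0 n (k + 1) i)).re =
      -∑ j, ε k j * (kap (w.p0 n (k + 1) i / w.p0 n k j)).re := by
    intro k i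
    have : ∀ j, ε k j * (kap (w.p0 n k j / w.p0 n (k + 1) i)).re =
        ε k j - ε k j * (kap (w.p0 n (k + 1) i / w.p0 n k j)).re := by
      intro j
      rw [← inv_div, W4_kap_inv (by rw [p0_div_cross]; exact (W4_ne k _).1)
        (by rw [p0_div_cross]; exact (W4_ne k _).2)]
      ring
    simp only [this]
    rw [sum_sub_distrib, hε k, zero_sub]
  have h4 : w.Xq n ε ρ = ∑ k ∈ Ico 1 w.N, (-2 * w.c k * ∑ i, ρ k i * ε k i - 2 * w.c k *
      ∑ i, ∑ j, (kap (w.p0 n (k + 1) j / w.p0 n k i)).re * ρ k i * ε (k + 1) j + T (k - 1)) := by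
    unfold Wall.Xq
    refine sum_congr rfl fun k hk => ?_
    obtain ⟨k, rfl⟩ : ∃ k', k = k' + 1 := ⟨k - 1, by have := (mem_Ico.1 hk).1; omega⟩
    rw [Nat.add_sub_cancel, hT, sum_comm (f := fun j i =>
      (kap (w.p0 n (k + 1) i / w.p0 n k j)).re * ε k j * ρ (k + 1) i), mul_sum, mul_sum, mul_sum,
      ← sum_sub_distrib, ← sum_add_distrib]
    refine sum_congr rfl fun i _ => ?_
    rw [h1, h3]
    have e1 : ∑ j, (kap (w.p0 n (k + 1 + 1) j / w.p0 n (k + 1) i)).re * ρ (k + 1) i *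
        ε (k + 1 + 1) j = ρ (k + 1) i * ∑ j, ε (k + 1 + 1) j *
          (kap (w.p0 n (k + 1 + 1) j / w.p0 n (k + 1) i)).re := by
      rw [mul_sum]
      exact sum_congr rfl fun j _ => by ring
    have e2 : ∑ j, (kap (w.p0 n (k + 1) i / w.p0 n k j)).re * ε k j * ρ (k + 1) i =
        ρ (k + 1) i * ∑ j, ε k j * (kap (w.p0 n (k + 1) i / w.p0 n k j)).re := by
      rw [mul_sum]
      exact sum_congr rfl fun j _ => by ring
    rw [e1, e2]
    ring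
  have h5 : ∑ k ∈ Ico 1 w.N, T (k - 1) = ∑ k ∈ Ico 1 w.N, T k := by
    refine W4_shift T _ ?_ ?_
    · simp [hT, hε0 0 _ (Or.inl rfl)]
    · rw [hT, hb.c_out _ (by omega)]
      simp
  rw [h4, sum_add_distrib, h5, ← sum_add_distrib]
  unfold Wall.Xm
  rw [sum_comm, sum_div]
  refine sum_congr rfl fun k _ => ?_
  rw [hT, W4_P ρ ε k (hρ k), W4_P ε ρ k (hε k), parseval n ρ ε k,
    W4_drop _ (by simp [hat_zero n (hρ _)]), ← mul_div_assoc, ← mul_div_assoc, ← mul_div_assoc,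
    ← sub_div, ← add_div, mul_sum, mul_sum, mul_sum, ← sum_sub_distrib, ← sum_add_distrib]
  congr 1
  refine sum_congr rfl fun m _ => ?_
  rw [W4_re_comm (hat n ε m k)]
  ring

theorem W4_cast {m : ℕ} (hm : m ≤ n) : ((n - m : ℕ) : ℝ) / n = 1 - m / n := by
  have hn : (n : ℝ) ≠ 0 := Nat.cast_ne_zero.2 (NeZero.ne n)
  rw [Nat.cast_sub hm, sub_div, div_self hn]

theorem W4_Ak {m : ℕ} (hm : m ≤ n) (k : ℕ) : w.Ak n (n - m) k = -w.Ak n m k := by
  unfold Wall.Ak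
  rw [W4_cast hm, sub_sub_cancel]
  ring

theorem W4_ph {m : ℕ} (hm : m ≤ n) (k : ℕ) : w.ph n (n - m) k = -w.ph n m k := by
  unfold Wall.ph
  rw [W4_cast hm, ← neg_div, ← Real.sinh_neg]
  congr 2
  ring

theorem W4_hat_norm (f : ℕ → ZMod n → ℝ) {m : ℕ} (hm : m ≤ n) (k : ℕ) :
    ‖hat n f (n - m) k‖ = ‖hat n f m k‖ := by
  rw [hat_symm n f hm]
  simp

theorem W4_hat_re (f g : ℕ → ZMod n → ℝ) {m : ℕ} (hm : m ≤ n) (k l : ℕ) :
    (hat n f (n - m) k * conj (hat n g (n - m) l)).re =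
      (-1) ^ (k + l) * (hat n f m k * conj (hat n g m l)).re := by
  rw [hat_symm n f hm, hat_symm n g hm]
  have : (-1) ^ k * conj (hat n f m k) * conj ((-1) ^ l * conj (hat n g m l)) =
      (((-1) ^ (k + l) : ℝ) : ℂ) * conj (hat n f m k * conj (hat n g m l)) := by
    simp only [map_mul, map_pow, map_neg, map_one]
    push_cast
    ring
  rw [this, re_ofReal_mul, conj_re]

theorem W4_even (k : ℕ) : (-1 : ℝ) ^ (k + k) = 1 := Even.neg_one_pow ⟨k, rfl⟩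

theorem W4_odd (k : ℕ) : (-1 : ℝ) ^ (k + (k + 1)) = -1 := Odd.neg_one_pow ⟨k, by ring⟩

theorem W4_odd' (k : ℕ) : (-1 : ℝ) ^ (k + 1 + k) = -1 := Odd.neg_one_pow ⟨k, by ring⟩

theorem Sm_symm (ρ : ℕ → ZMod n → ℝ) {m : ℕ} (hm : m ≤ n) :
    w.Sm n (n - m) (hat n ρ (n - m)) = w.Sm n m (hat n ρ m) := by
  unfold Wall.Sm
  congr 1
  refine sum_congr rfl fun k _ => ?_
  rw [W4_cast hm, W4_Ak hm, W4_hat_norm ρ hm, W4_hat_norm ρ hm, W4_hat_re ρ ρ hm, W4_odd]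
  ring

theorem Xm_symm (ρ ε : ℕ → ZMod n → ℝ) {m : ℕ} (hm : m ≤ n) :
    w.Xm n (n - m) (hat n ρ (n - m)) (hat n ε (n - m)) = w.Xm n m (hat n ρ m) (hat n ε m) := by
  unfold Wall.Xm
  refine sum_congr rfl fun k _ => ?_
  rw [W4_ph hm, W4_hat_re ρ ε hm, W4_hat_re ρ ε hm, W4_hat_re ρ ε hm, W4_odd, W4_odd', W4_even]
  ring

end Pool.Agent.MP_943ae2_gt
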