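import Pool.Agent.MP_943ae2_gt.Four

open Set Complex Filter Finset
open scoped Topology ComplexConjugate ContDiff

noncomputable section

namespace Pool.Agent.MP_943ae2_gt

lemma W5_series {ι : Type} [Fintype ι] {z : ι → ℂ} (hz : ∀ a, ‖z a‖ < 1) (μ : ι → ℝ) :
    HasSum (fun l : ℕ => (l : ℝ)⁻¹ * ‖∑ a, (μ a : ℂ) * z a ^ l‖ ^ 2)
      (∑ a, ∑ b, μ a * μ b * -Real.log ‖1 - z a * conj (z b)‖) := by
  have h : ∀ a b, HasSum (fun l : ℕ => μ a * μ b * ((z a * conj (z b)) ^ l / l).re)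
      (μ a * μ b * -Real.log ‖1 - z a * conj (z b)‖) := fun a b => by
    have h1 := Complex.hasSum_re (hasSum_taylorSeries_neg_log (z := z a * conj (z b)) (by
      rw [norm_mul, Complex.norm_conj]
      exact mul_lt_one_of_nonneg_of_lt_one_left (norm_nonneg _) (hz a) (hz b).le))
    rw [neg_re, log_re] at h1
    exact h1.mul_left _
  convert hasSum_sum fun a (_ : a ∈ Finset.univ) => hasSum_sum fun b (_ : b ∈ Finset.univ) => h a b
    using 2 with l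
  rw [← Complex.normSq_eq_norm_sq, ← ofReal_re (normSq _), ← Complex.mul_conj, map_sum,
    Finset.sum_mul_sum, re_sum, Finset.mul_sum]
  refine Finset.sum_congr rfl fun a _ => ?_
  rw [re_sum, Finset.mul_sum]
  refine Finset.sum_congr rfl fun b _ => ?_
  rw [← re_ofReal_mul, ← re_ofReal_mul, map_mul, conj_ofReal, map_pow, mul_pow]
  congr 1
  push_cast
  ring

lemma W5_green {x y : ℂ} (hx : ‖x‖ < 1) (hy : ‖y‖ < 1) (h : x ≠ y) :
    Real.log ‖x - y‖ ≤ Real.log ‖1 - x * conj y‖ := by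
  refine Real.log_le_log (norm_pos_iff.2 (sub_ne_zero.2 h)) ?_
  have h1 : 0 ≤ (1 - ‖x‖ ^ 2) * (1 - ‖y‖ ^ 2) :=
    mul_nonneg (by nlinarith [norm_nonneg x]) (by nlinarith [norm_nonneg y])
  refine (sq_le_sq₀ (norm_nonneg _) (norm_nonneg _)).1 ?_
  simp only [← Complex.normSq_eq_norm_sq, normSq_apply, sub_re, sub_im, mul_re, mul_im, conj_re,
    conj_im, one_re, one_im] at h1 ⊢
  nlinarith

lemma W5_energy {ι : Type} [Fintype ι] {z : ι → ℂ} (hz : ∀ a, ‖z a‖ < 1)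
    (hi : Function.Injective z) {μ : ι → ℝ} (h0 : ∑ a, μ a = 0) {R C : ℝ} (hR : 0 < R)
    (hC : ∀ a, ∑ b, Real.log ‖1 - z a * conj (z b)‖ - ∑ b, Real.log ‖z a - z b‖ -
      2 * Real.log ‖1 - z a * conj (z a)‖ ≤ C) (s : Finset ℕ) :
    (Real.log R - C) * ∑ a, μ a ^ 2 + ∑ l ∈ s, (l : ℝ)⁻¹ * ‖∑ a, (μ a : ℂ) * z a ^ l‖ ^ 2 ≤
      -∑ a, ∑ b, μ a * μ b * Real.log ‖R * z a - R * z b‖ := by
  classical
  have h1 := sum_le_hasSum s (fun l _ => by positivity) (W5_series hz μ)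
  obtain ⟨G, hG⟩ : ∃ G : ι → ι → ℝ, ∀ a b,
      G a b = Real.log ‖1 - z a * conj (z b)‖ - Real.log ‖z a - z b‖ := ⟨_, fun _ _ => rfl⟩
  have Gs : ∀ a b, G a b = G b a := fun a b => by
    rw [hG, hG, norm_sub_rev (z a), ← Complex.norm_conj (1 - _), map_sub, map_one, map_mul,
      conj_conj, mul_comm]
  have h2 : ∑ a, ∑ b, μ a * μ b * Real.log ‖R * z a - R * z b‖ =
      ∑ a, ∑ b, μ a * μ b * Real.log ‖z a - z b‖ - Real.log R * ∑ a, μ a ^ 2 := by
    rw [Finset.mul_sum, ← Finset.sum_sub_distrib]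
    refine Finset.sum_congr rfl fun a _ => ?_
    have e : ∀ b, μ a * μ b * Real.log ‖R * z a - R * z b‖ = μ a * μ b * Real.log ‖z a - z b‖ +
        μ a * Real.log R * μ b - if b = a then Real.log R * μ a ^ 2 else 0 := fun b => by
      split_ifs with h
      · subst h
        simp only [sub_self, norm_zero, Real.log_zero]
        ring
      · rw [← mul_sub, norm_mul, Complex.norm_real, Real.norm_of_nonneg hR.le, Real.log_mul hR.ne'
          (norm_ne_zero_iff.2 (sub_ne_zero.2 (hi.ne (Ne.symm h))))]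
        ring
    rw [Finset.sum_congr rfl fun b _ => e b, Finset.sum_sub_distrib, Finset.sum_add_distrib,
      ← Finset.mul_sum _ μ, h0]
    simp
  have h3 : ∑ a, 4 * (μ a ^ 2 * G a a) ≤ ∑ a, ∑ b, (μ a + μ b) ^ 2 * G a b := by
    refine Finset.sum_le_sum fun a _ => ?_
    rw [← Finset.add_sum_erase _ _ (mem_univ a)]
    have : 0 ≤ ∑ b ∈ univ.erase a, (μ a + μ b) ^ 2 * G a b := Finset.sum_nonneg fun b hb =>
      mul_nonneg (sq_nonneg _) (by
        rw [hG]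
        exact sub_nonneg.2 (W5_green (hz a) (hz b) (hi.ne (Finset.ne_of_mem_erase hb).symm)))
    linarith
  have h4 : ∑ a, ∑ b, (μ a + μ b) ^ 2 * G a b =
      2 * ∑ a, ∑ b, μ a * μ b * G a b + 2 * ∑ a, μ a ^ 2 * ∑ b, G a b := by
    have e : ∑ a, ∑ b, μ b ^ 2 * G a b = ∑ a, ∑ b, μ a ^ 2 * G a b := by
      rw [Finset.sum_comm]
      simp only [Gs]
    have e2 : ∑ a, ∑ b, (μ a + μ b) ^ 2 * G a b = ∑ a, ∑ b, (2 * (μ a * μ b * G a b) +
        μ a ^ 2 * G a b + μ b ^ 2 * G a b) :=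
      Finset.sum_congr rfl fun a _ => Finset.sum_congr rfl fun b _ => by ring
    simp only [e2, Finset.sum_add_distrib, e, ← Finset.mul_sum]
    ring
  have h5 : ∑ a, μ a ^ 2 * ∑ b, G a b ≤ ∑ a, (C * μ a ^ 2 + 2 * (μ a ^ 2 * G a a)) := by
    refine Finset.sum_le_sum fun a _ => ?_
    have := mul_le_mul_of_nonneg_left (hC a) (sq_nonneg (μ a))
    simp only [hG, Finset.sum_sub_distrib, sub_self, norm_zero, Real.log_zero]
    linarith
  have h6 : ∑ a, ∑ b, μ a * μ b * -Real.log ‖1 - z a * conj (z b)‖ =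
      -∑ a, ∑ b, μ a * μ b * G a b - ∑ a, ∑ b, μ a * μ b * Real.log ‖z a - z b‖ := by
    simp only [← Finset.sum_neg_distrib, ← Finset.sum_sub_distrib]
    exact Finset.sum_congr rfl fun a _ => Finset.sum_congr rfl fun b _ => by rw [hG]; ring
  rw [Finset.sum_add_distrib, ← Finset.mul_sum, ← Finset.mul_sum] at h5
  rw [← Finset.mul_sum] at h3
  linarith

variable {w : Wall} {n : ℕ} [NeZero n] {ε : ℕ → ZMod n → ℝ} {P : ℝ}

lemma W5_norm (σ : ℝ) (k : ℕ) (i : ZMod n) : ‖(Real.exp σ : ℂ) * un n k i‖ = Real.exp σ := by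
  rw [norm_mul, norm_un, Complex.norm_real, Real.norm_of_nonneg (Real.exp_pos σ).le, mul_one]

lemma W5_row1 {x : ℂ} (hx : ‖x‖ < 1) {σ : ℝ} (hσ : σ ≤ 0) (k : ℕ) :
    ∑ j : ZMod n, Real.log ‖1 - x * conj ((Real.exp σ : ℂ) * un n k j)‖ ≤ 1 := by
  have h1 : ‖x * (Real.exp σ : ℂ)‖ < 1 := by
    rw [norm_mul, Complex.norm_real, Real.norm_of_nonneg (Real.exp_pos σ).le]
    exact mul_lt_one_of_nonneg_of_lt_one_left (norm_nonneg _) hx (Real.exp_le_one_iff.2 hσ)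
  have h2 : ‖(x * (Real.exp σ : ℂ)) ^ n‖ < 1 := by
    rw [norm_pow]
    exact pow_lt_one₀ (norm_nonneg _) h1 (NeZero.ne n)
  have h3 : ‖(ze n ^ k) ^ n‖ = 1 := by rw [norm_pow, norm_pow, norm_ze, one_pow, one_pow]
  have h4 : (x * (Real.exp σ : ℂ)) ^ n ≠ (ze n ^ k) ^ n := fun h => by
    rw [h, h3] at h2
    exact lt_irrefl _ h2
  have e : ∀ j : ZMod n, ‖1 - x * conj ((Real.exp σ : ℂ) * un n k j)‖ =
      ‖x * (Real.exp σ : ℂ) - ze n ^ k * ZMod.stdAddChar j‖ := fun j => by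
    have e1 : un n k j * conj (un n k j) = 1 := by
      rw [Complex.mul_conj, Complex.normSq_eq_norm_sq, norm_un]
      simp
    rw [← one_mul ‖1 - _‖, ← norm_un n k j, ← norm_mul, norm_sub_rev, map_mul, conj_ofReal]
    congr 1
    change _ = un n k j - _
    linear_combination (-x * (Real.exp σ : ℂ)) * e1
  rw [Finset.sum_congr rfl fun j _ => congrArg Real.log (e j), sum_log_ring n h4]
  refine (Real.log_le_sub_one_of_pos (norm_pos_iff.2 (sub_ne_zero.2 h4))).trans ?_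
  linarith [norm_sub_le ((x * (Real.exp σ : ℂ)) ^ n) ((ze n ^ k) ^ n)]

lemma W5_row2 {σ : ℝ} (hσ : σ ≤ 0) (h1 : -(3 / 2) ≤ n * σ) (k : ℕ) (i : ZMod n) :
    Real.log n - 3 / 2 ≤
      ∑ j, Real.log ‖(Real.exp σ : ℂ) * un n k i - (Real.exp σ : ℂ) * un n k j‖ := by
  have n0 : (0 : ℝ) < n := Nat.cast_pos.2 (NeZero.pos n)
  rw [← Finset.sum_erase (a := i) _ (by simp), Finset.sum_congr rfl fun j hj => show _ =
    σ + Real.log ‖un n k i - un n k j‖ by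
      rw [← mul_sub, norm_mul, Complex.norm_real, Real.norm_of_nonneg (Real.exp_pos σ).le,
        Real.log_mul (Real.exp_pos σ).ne' ((div_pos four_pos n0).trans_le
          (sep_same n k (Finset.ne_of_mem_erase hj))).ne', Real.log_exp],
    Finset.sum_add_distrib, sum_log_same, Finset.sum_const, Finset.card_erase_of_mem (mem_univ i),
    Finset.card_univ, ZMod.card, nsmul_eq_mul, Nat.cast_pred (NeZero.pos n)]
  linarith

lemma W5_row3 {σ : ℝ} (σ' : ℝ) (h1 : -(3 / 2) ≤ n * σ) {k k' : ℕ} (h : (-1 : ℂ) ^ k' = -(-1) ^ k)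
    (i : ZMod n) :
    -(3 / 2) ≤ ∑ j, Real.log ‖(Real.exp σ : ℂ) * un n k i - (Real.exp σ' : ℂ) * un n k' j‖ := by
  have e : ‖((Real.exp σ : ℂ) * un n k i) ^ n - ((Real.exp σ' : ℂ) * ze n ^ k') ^ n‖ =
      Real.exp σ ^ n + Real.exp σ' ^ n := by
    rw [mul_pow, mul_pow, un_pow, ← pow_mul, mul_comm k', pow_mul, ze_pow, h, mul_neg,
      sub_neg_eq_add, ← add_mul, norm_mul, norm_pow, norm_neg, norm_one, one_pow, mul_one]
    norm_cast
    exact Real.norm_of_nonneg (by positivity)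
  have h2 : ((Real.exp σ : ℂ) * un n k i) ^ n ≠ ((Real.exp σ' : ℂ) * ze n ^ k') ^ n :=
    sub_ne_zero.1 (norm_pos_iff.1 (by rw [e]; positivity))
  have h3 := sum_log_ring n h2
  simp only [mul_assoc] at h3
  refine h1.trans (le_of_le_of_eq ?_ h3.symm)
  rw [e, Real.le_log_iff_exp_le (by positivity), Real.exp_nat_mul]
  exact le_add_of_nonneg_right (by positivity)

lemma W5_diag (hn : 2 ≤ n) {σ : ℝ} (hσ : n * σ ≤ -1) (k : ℕ) (i : ZMod n) : -Real.log n ≤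
    Real.log ‖1 - (Real.exp σ : ℂ) * un n k i * conj ((Real.exp σ : ℂ) * un n k i)‖ := by
  have n2 : (2 : ℝ) ≤ n := by exact_mod_cast hn
  rw [Complex.mul_conj, Complex.normSq_eq_norm_sq, W5_norm, ← Real.log_inv]
  refine Real.log_le_log (by positivity) ?_
  norm_cast
  refine le_trans ?_ (le_abs_self _)
  have h1 : Real.exp σ ^ 2 * Real.exp (-(2 * σ)) = 1 := by
    rw [← Real.exp_nat_mul, ← Real.exp_add]
    simp
  have h2 := mul_le_mul_of_nonneg_left (Real.add_one_le_exp (-(2 * σ))) (sq_nonneg (Real.exp σ))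
  have h3 := mul_le_mul_of_nonneg_left hσ (sq_nonneg (Real.exp σ))
  rw [inv_le_iff_one_le_mul₀ (by positivity)]
  have h4 := mul_le_mul_of_nonneg_left (h2.trans_eq h1) (show (0 : ℝ) ≤ n by linarith)
  rcases le_total (2 * Real.exp σ ^ 2) 1 with h5 | h5 <;> nlinarith

lemma W5_lip {u v : ℝ} (hu : u ≤ 0) (h : v ≤ u) : Real.exp u - Real.exp v ≤ u - v := by
  have h1 := mul_le_mul_of_nonneg_left (Real.add_one_le_exp (v - u)) (Real.exp_pos u).le
  rw [← Real.exp_add, add_sub_cancel] at h1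
  nlinarith [Real.exp_le_one_iff.2 hu]

lemma W5_mode {u v d : ℝ} (hu : u ≤ 0) (hv : v ≤ 0) (h1 : -(3 / 4) ≤ v) (hd : |u - v| ≤ d)
    (e e' : ℂ) : 1 / 10 * ‖e' - e‖ ^ 2 - d ^ 2 * ‖e'‖ ^ 2 ≤
      ‖(Real.exp u : ℂ) * e' - (Real.exp v : ℂ) * e‖ ^ 2 := by
  have h2 : |Real.exp u - Real.exp v| ≤ d := by
    rcases le_total v u with h | h
    · rw [abs_of_nonneg (sub_nonneg.2 (Real.exp_le_exp.2 h))]
      exact (W5_lip hu h).trans ((le_abs_self _).trans hd)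
    · rw [abs_sub_comm] at hd ⊢
      rw [abs_of_nonneg (sub_nonneg.2 (Real.exp_le_exp.2 h))]
      exact (W5_lip hv h).trans ((le_abs_self _).trans hd)
  have h3 : 1 / 5 ≤ Real.exp v ^ 2 := by
    have a3 : (61 / 64 : ℝ) ≤ Real.exp (v / 16) := by linarith [Real.add_one_le_exp (v / 16)]
    have a4 := pow_le_pow_left₀ (by norm_num) a3 32
    rw [← Real.exp_nat_mul] at a4 ⊢
    refine le_trans (by norm_num) (a4.trans_eq (congrArg _ ?_))
    push_cast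
    ring
  have h4 : Real.exp v * ‖e' - e‖ ≤ ‖(Real.exp u : ℂ) * e' - (Real.exp v : ℂ) * e‖ + d * ‖e'‖ := by
    have a1 : (Real.exp v : ℂ) * (e' - e) = ((Real.exp u : ℂ) * e' - (Real.exp v : ℂ) * e) -
      ((Real.exp u - Real.exp v : ℝ) : ℂ) * e' := by
      push_cast
      ring
    have a2 := congrArg norm a1
    rw [norm_mul, Complex.norm_real, Real.norm_of_nonneg (Real.exp_pos v).le] at a2
    refine a2.trans_le ((norm_sub_le _ _).trans ?_)
    rw [norm_mul ((Real.exp u - Real.exp v : ℝ) : ℂ), Complex.norm_real, Real.norm_eq_abs]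
    gcongr
  have h5 := pow_le_pow_left₀ (by positivity) h4 2
  nlinarith [mul_le_mul_of_nonneg_right h3 (sq_nonneg ‖e' - e‖),
    sq_nonneg (‖(Real.exp u : ℂ) * e' - (Real.exp v : ℂ) * e‖ - d * ‖e'‖)]

lemma W5_pair (hn : 2 ≤ n) (hε : ∀ k, ∑ i, ε k i = 0) (k : ℕ) (hy : |w.y n k| ≤ 1 / 2) :
    (w.lr k - Real.log n - 5) * ∑ i, ε k i ^ 2 +
      (w.lr (k + 1) - Real.log n - 6) * ∑ i, ε (k + 1) i ^ 2 +
      1 / 10 * ∑ l ∈ Icc 1 (n / 2), (l : ℝ)⁻¹ * ‖hat n ε l (k + 1) - hat n ε l k‖ ^ 2 ≤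
    2 * ∑ i, ∑ j, ε k i * ε (k + 1) j * Real.log ‖w.p0 n k i - w.p0 n (k + 1) j‖ -
      ∑ i, ∑ j, ε k i * ε k j * Real.log ‖w.p0 n k i - w.p0 n k j‖ -
      ∑ i, ∑ j, ε (k + 1) i * ε (k + 1) j * Real.log ‖w.p0 n (k + 1) i - w.p0 n (k + 1) j‖ := by
  have n2 : (2 : ℝ) ≤ n := by exact_mod_cast hn
  have n0 : (0 : ℝ) < n := by linarith
  obtain ⟨m, s, t, e1, e2, s1, s2, t1, t2, st⟩ : ∃ m s t : ℝ, w.lr k = m + s ∧
      w.lr (k + 1) = m + t ∧ -(3 / 2) ≤ n * s ∧ n * s ≤ -1 ∧ -(3 / 2) ≤ n * t ∧ n * t ≤ -1 ∧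
      |n * t - n * s| ≤ 1 / 2 := by
    have h1 := abs_le.1 hy
    have h2 : (n : ℝ) * (n : ℝ)⁻¹ = 1 := mul_inv_cancel₀ n0.ne'
    unfold Wall.y at h1
    refine ⟨max (w.lr k) (w.lr (k + 1)) + (n : ℝ)⁻¹, _, _, (add_sub_cancel _ _).symm,
      (add_sub_cancel _ _).symm, ?_⟩
    rw [abs_le]
    rcases le_total (w.lr k) (w.lr (k + 1)) with h | h
    · rw [max_eq_right h]
      have := mul_le_mul_of_nonneg_left h n0.le
      refine ⟨?_, ?_, ?_, ?_, ?_, ?_⟩ <;> linarith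
    · rw [max_eq_left h]
      have := mul_le_mul_of_nonneg_left h n0.le
      refine ⟨?_, ?_, ?_, ?_, ?_, ?_⟩ <;> linarith
  have s0 : s < 0 := by nlinarith
  have t0 : t < 0 := by nlinarith
  have ns : ∀ (σ : ℝ) (k : ℕ) (i : ZMod n), σ < 0 → ‖(Real.exp σ : ℂ) * un n k i‖ < 1 :=
    fun σ k i h => by rw [W5_norm]; exact Real.exp_lt_one_iff.2 h
  have same : ∀ (σ : ℝ) (k : ℕ), Function.Injective fun i => (Real.exp σ : ℂ) * un n k i :=
    fun σ k i j h => by_contra fun h' => by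
      have := sep_same n k (Ne.symm h')
      rw [mul_left_cancel₀ (ofReal_ne_zero.2 (Real.exp_pos σ).ne') h, sub_self, norm_zero] at this
      exact this.not_gt (by positivity)
  have key := W5_energy (ι := ZMod n ⊕ ZMod n)
    (z := Sum.elim (fun i => (Real.exp s : ℂ) * un n k i) fun i => (Real.exp t : ℂ) * un n (k + 1) i)
    (by rintro (i | i); exacts [ns _ _ _ s0, ns _ _ _ t0])
    ((same _ _).sumElim (same _ _) fun i j h => by
      have := sep_cross n k i j (Real.exp_pos s) (Real.exp_pos t)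
      rw [h, sub_self, norm_zero] at this
      exact this.not_gt (by positivity))
    (μ := Sum.elim (fun i => -ε k i) (ε (k + 1))) (by simp [hε]) (C := 5 + Real.log n)
    (Real.exp_pos m) (by
      rintro (i | i) <;> simp only [Fintype.sum_sum_type, Sum.elim_inl, Sum.elim_inr]
      · linarith [W5_row1 (n := n) (ns _ k i s0) s0.le k, W5_row1 (n := n) (ns _ k i s0) t0.le (k + 1),
          W5_row2 s0.le s1 k i, W5_row3 t s1 (k := k) (k' := k + 1) (by ring) i, W5_diag hn s2 k i]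
      · linarith [W5_row1 (n := n) (ns _ (k + 1) i t0) s0.le k,
          W5_row1 (n := n) (ns _ (k + 1) i t0) t0.le (k + 1), W5_row2 t0.le t1 (k + 1) i,
          W5_row3 s t1 (k := k + 1) (k' := k) (by ring) i, W5_diag hn t2 (k + 1) i])
    (Icc 1 (n / 2))
  have p1 : ∀ i, (Real.exp m : ℂ) * ((Real.exp s : ℂ) * un n k i) = w.p0 n k i := fun i => by
    rw [Wall.p0, e1, Real.exp_add, ofReal_mul, mul_assoc]
  have p2 : ∀ i, (Real.exp m : ℂ) * ((Real.exp t : ℂ) * un n (k + 1) i) = w.p0 n (k + 1) i :=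
    fun i => by rw [Wall.p0, e2, Real.exp_add, ofReal_mul, mul_assoc]
  have p3 : ∑ i, ∑ j, ε (k + 1) i * ε k j * Real.log ‖w.p0 n (k + 1) i - w.p0 n k j‖ =
      ∑ i, ∑ j, ε k i * ε (k + 1) j * Real.log ‖w.p0 n k i - w.p0 n (k + 1) j‖ := by
    rw [Finset.sum_comm]
    simp only [norm_sub_rev (w.p0 n (k + 1) _), mul_comm (ε (k + 1) _)]
  simp only [Fintype.sum_sum_type, Sum.elim_inl, Sum.elim_inr, p1, p2, Real.log_exp, neg_mul,
    mul_neg, neg_sq, Finset.sum_add_distrib, Finset.sum_neg_distrib, p3] at key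
  have f1 : ∑ l ∈ Icc 1 (n / 2), (1 / 10 * ((l : ℝ)⁻¹ * ‖hat n ε l (k + 1) - hat n ε l k‖ ^ 2) -
      ‖hat n ε l (k + 1)‖ ^ 2 / n) ≤ ∑ l ∈ Icc 1 (n / 2), (l : ℝ)⁻¹ *
        ‖∑ i, ((-ε k i : ℝ) : ℂ) * ((Real.exp s : ℂ) * un n k i) ^ l +
          ∑ i, (ε (k + 1) i : ℂ) * ((Real.exp t : ℂ) * un n (k + 1) i) ^ l‖ ^ 2 := by
    refine Finset.sum_le_sum fun l hl => ?_
    obtain ⟨l1, l2⟩ := Finset.mem_Icc.1 hl
    have l0 : (0 : ℝ) < l := by exact_mod_cast l1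
    have l3 : 2 * (l : ℝ) ≤ n := by exact_mod_cast (by omega : 2 * l ≤ n)
    have h1 := W5_mode (u := l * t) (v := l * s) (d := l / n) (by nlinarith) (by nlinarith)
      (by nlinarith) (by
        rw [le_div_iff₀ n0, ← mul_sub, abs_mul, abs_of_pos l0, mul_assoc, ← abs_of_pos n0, ← abs_mul,
          mul_comm (t - s), mul_sub]
        nlinarith) (hat n ε l k) (hat n ε l (k + 1))
    have h2 : ∑ i, ((-ε k i : ℝ) : ℂ) * ((Real.exp s : ℂ) * un n k i) ^ l +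
        ∑ i, (ε (k + 1) i : ℂ) * ((Real.exp t : ℂ) * un n (k + 1) i) ^ l =
        (Real.exp (l * t) : ℂ) * hat n ε l (k + 1) - (Real.exp (l * s) : ℂ) * hat n ε l k := by
      rw [hat, hat, Finset.mul_sum, Finset.mul_sum, ← Finset.sum_sub_distrib,
        ← Finset.sum_add_distrib, Real.exp_nat_mul, Real.exp_nat_mul, ofReal_pow, ofReal_pow]
      refine Finset.sum_congr rfl fun i _ => ?_
      rw [ofReal_neg]
      ring
    have h3 : (l : ℝ)⁻¹ * (l / n) ^ 2 ≤ (n : ℝ)⁻¹ := by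
      field_simp
      linarith
    rw [h2]
    linarith [mul_le_mul_of_nonneg_left h1 (inv_pos.2 l0).le,
      mul_le_mul_of_nonneg_right h3 (sq_nonneg ‖hat n ε l (k + 1)‖),
      div_eq_inv_mul (‖hat n ε l (k + 1)‖ ^ 2) n]
  have f2 : ∑ l ∈ Icc 1 (n / 2), ‖hat n ε l (k + 1)‖ ^ 2 / n ≤ ∑ i, ε (k + 1) i ^ 2 := by
    have h1 := parseval n ε ε (k + 1)
    simp only [Complex.mul_conj, ofReal_re, Complex.normSq_eq_norm_sq, ← sq] at h1
    rw [h1, Finset.sum_div]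
    exact Finset.sum_le_sum_of_subset_of_nonneg (fun l hl => Finset.mem_range.2 (by
      have := (Finset.mem_Icc.1 hl).2
      omega)) fun _ _ _ => by positivity
  rw [Finset.sum_sub_distrib, ← Finset.mul_sum] at f1
  have q1 : 0 ≤ ∑ i, ε k i ^ 2 := by positivity
  have q2 : 0 ≤ ∑ i, ε (k + 1) i ^ 2 := by positivity
  rw [e1, e2]
  nlinarith [mul_nonneg (neg_pos.2 s0).le q1, mul_nonneg (neg_pos.2 t0).le q2]

lemma W5_sum0 {f : ℕ → ℝ} (h : f 0 = 0) (N : ℕ) : ∑ k ∈ range N, f k = ∑ k ∈ Ico 1 N, f k := by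
  rcases N with _ | N
  · simp
  · rw [Finset.range_eq_Ico, Finset.sum_eq_sum_Ico_succ_bot (Nat.succ_pos N), h, zero_add]

lemma W5_sum1 {f : ℕ → ℝ} {N : ℕ} (h : f N = 0) :
    ∑ k ∈ range N, f (k + 1) = ∑ k ∈ Ico 1 N, f k := by
  rcases N with _ | N
  · simp
  · rw [Finset.range_eq_Ico, Finset.sum_Ico_add' f 0 (N + 1) 1,
      Finset.sum_Ico_succ_top (by omega), h, add_zero]

theorem Hq_ge (hb : w.Bd n P) (hε : ∀ k, ∑ i, ε k i = 0)
    (hε0 : ∀ k i, (k = 0 ∨ w.N ≤ k) → ε k i = 0) :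
    100 * ∑ k ∈ Ico 1 w.N, ∑ i, ε k i ^ 2 + 1 / 10 * ∑ l ∈ Icc 1 (n / 2), (l : ℝ)⁻¹ *
      ∑ k ∈ range w.N, ‖hat n ε l (k + 1) - hat n ε l k‖ ^ 2 ≤ w.Hq n ε := by
  have z0 : ∀ i, ε 0 i = 0 := fun i => hε0 0 i (Or.inl rfl)
  have zN : ∀ i, ε w.N i = 0 := fun i => hε0 _ i (Or.inr le_rfl)
  have h1 := Finset.sum_le_sum fun k (hk : k ∈ range w.N) =>
    W5_pair hb.n_ge hε k (hb.y_le k (Finset.mem_range.1 hk))
  obtain ⟨S, hS⟩ : ∃ S : ℕ → ℕ → ℝ, ∀ k k', S k k' =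
    ∑ i, ∑ j, ε k i * ε k' j * Real.log ‖w.p0 n k i - w.p0 n k' j‖ := ⟨_, fun _ _ => rfl⟩
  have Ss : ∀ k k', S k k' = S k' k := fun k k' => by
    rw [hS, hS, Finset.sum_comm]
    simp only [norm_sub_rev (w.p0 n k _), mul_comm (ε k _)]
  simp only [← hS, Finset.sum_add_distrib, Finset.sum_sub_distrib, ← Finset.mul_sum] at h1
  rw [W5_sum0 (f := fun k => (w.lr k - Real.log n - 5) * ∑ i, ε k i ^ 2) (by simp [z0]),
    W5_sum1 (f := fun k => (w.lr k - Real.log n - 6) * ∑ i, ε k i ^ 2) (by simp [zN]),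
    W5_sum0 (f := fun k => S k k) (by simp [hS, z0]),
    W5_sum1 (f := fun k => S k k) (by simp [hS, zN]), Finset.sum_comm (s := range w.N)] at h1
  have h2 := W5_sum0 (f := fun k => S k (k + 1)) (by simp [hS, z0]) w.N
  have h3 := W5_sum1 (f := fun k => S k (k - 1)) (N := w.N) (by simp [hS, zN])
  simp only [Nat.add_sub_cancel, Ss (_ + 1)] at h3
  have h4 : w.Hq n ε = ∑ k ∈ Ico 1 w.N, (-2 * (Real.log (w.c k) + 1) * ∑ i, ε k i ^ 2 -
      2 * S k k + S k (k + 1) + S k (k - 1)) := by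
    refine Finset.sum_congr rfl fun k _ => ?_
    simp only [hS, Finset.mul_sum, ← Finset.sum_add_distrib, ← Finset.sum_sub_distrib]
    refine Finset.sum_congr rfl fun i _ => ?_
    rw [Finset.sum_erase _ (by simp)]
    simp only [← Finset.mul_sum, mul_assoc]
    ring
  have h5 : ∑ k ∈ Ico 1 w.N, 100 * ∑ i, ε k i ^ 2 ≤ ∑ k ∈ Ico 1 w.N,
      ((w.lr k - Real.log n - 5) * ∑ i, ε k i ^ 2 + (w.lr k - Real.log n - 6) * ∑ i, ε k i ^ 2 +
        -2 * (Real.log (w.c k) + 1) * ∑ i, ε k i ^ 2) := by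
    refine Finset.sum_le_sum fun k hk => ?_
    obtain ⟨k1, k2⟩ := Finset.mem_Ico.1 hk
    have a1 := hb.big k k1 k2
    have a2 : 0 < w.c k := (inv_pos.2 (by linarith [hb.P_ge])).trans_le (hb.c_ge k k1 k2)
    rw [Real.log_mul (Nat.cast_ne_zero.2 (NeZero.ne n)) a2.ne'] at a1
    rw [← add_mul, ← add_mul]
    exact mul_le_mul_of_nonneg_right (by linarith) (by positivity)
  simp only [Finset.sum_add_distrib, Finset.sum_sub_distrib, ← Finset.mul_sum] at h1 h4 h5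
  linarith

end Pool.Agent.MP_943ae2_gt
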