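import Pool.Agent.MP_943ae2_gt.W2
import Pool.Agent.MP_943ae2_gt.W3
import Pool.Agent.MP_943ae2_gt.W4
import Pool.Agent.MP_943ae2_gt.W5
import Pool.Agent.MP_943ae2_gt.W6b

open Set Complex Filter Finset
open scoped Topology ComplexConjugate ContDiff

noncomputable section

namespace Pool.Agent.MP_943ae2_gt

theorem w7_fold (n : ℕ) (F g : ℕ → ℝ) (hF : ∀ m ≤ n, F (n - m) = F m) (hg : ∀ l, 0 ≤ g l)
    (h : ∀ l, 1 ≤ l → 2 * l ≤ n → 0 ≤ F l + g l) :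
    0 ≤ ∑ m ∈ Ico 1 n, F m + 2 * ∑ l ∈ Icc 1 (n / 2), g l := by
  set u : ℕ → ℝ := fun m => if 2 * m ≤ n then g m else 0 with hu
  have h1 : ∑ m ∈ Ico 1 n, u m = ∑ l ∈ Icc 1 (n / 2), g l := by
    rw [hu, ← sum_filter]
    refine sum_congr ?_ fun _ _ => rfl
    ext m
    simp only [mem_filter, Finset.mem_Ico, Finset.mem_Icc]
    omega
  have h2 : ∑ m ∈ Ico 1 n, u (n - m) = ∑ m ∈ Ico 1 n, u m := by
    rw [sum_Ico_reflect u 1 (Nat.le_succ n), Nat.add_sub_cancel_left, Nat.add_sub_cancel]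
  have h0 : ∀ m, 0 ≤ u m := fun m => by
    simp only [hu]
    split_ifs
    exacts [hg m, le_rfl]
  rw [← h1, two_mul]
  nth_rewrite 2 [← h2]
  rw [← sum_add_distrib, ← sum_add_distrib]
  refine sum_nonneg fun m hm => ?_
  obtain ⟨m1, m2⟩ := Finset.mem_Ico.1 hm
  by_cases hc : 2 * m ≤ n
  · have h3 : u m = g m := if_pos hc
    linarith [h m m1 hc, h0 (n - m)]
  · have h3 : u (n - m) = g (n - m) := if_pos (by omega)
    linarith [h (n - m) (by omega) (by omega), h0 m, hF m m2.le]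

variable {w : Wall} {n : ℕ} [NeZero n] {ξ : ℕ → ZMod n → ℂ} {ε : ℕ → ZMod n → ℝ} {P : ℝ} {L : ℕ}

theorem w7_pars {f : ℕ → ZMod n → ℝ} (hf : ∀ k, ∑ i, f k i = 0) (k : ℕ) :
    ∑ i, f k i ^ 2 = (∑ m ∈ Ico 1 n, ‖hat n f m k‖ ^ 2) / n := by
  simp only [sq (f k _)]
  rw [parseval n f f k, W4_drop _ (by simp [hat_zero n (hf _)])]
  simp only [W4_normsq]

theorem w7_mode (hb : w.Bd n P) (hs : w.Shape n L) {m : ℕ} (h2 : 2 * m ≤ n) (v e : ℕ → ℂ)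
    (hz : (m < 10 ^ 6 ∨ m * L ^ 2 < 10 ^ 5 * n ∨ L < 1000) → ∀ k, v k = 0 ∧ e k = 0)
    (he0 : e 0 = 0) (he : e w.N = 0) :
    ∑ k ∈ Ico 1 w.N, (w.c k ^ 2 * ‖v k‖ ^ 2 + ‖e k‖ ^ 2) ≤
      w.Sm n m v + 100 * ∑ k ∈ Ico 1 w.N, ‖e k‖ ^ 2 +
        n / (20 * m) * ∑ k ∈ range w.N, ‖e (k + 1) - e k‖ ^ 2 - w.Xm n m v e := by
  by_cases hc : m < 10 ^ 6 ∨ m * L ^ 2 < 10 ^ 5 * n ∨ L < 1000
  · have h1 := fun k => (hz hc k).1
    have h3 := fun k => (hz hc k).2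
    simp [Wall.Sm, Wall.Xm, h1, h3]
  · push Not at hc
    by_cases hm : 100 * m ≤ n
    · exact mode_low hb hs hc.1 hm hc.2.1 v e he0 he
    · have h1 := mode_high hb hs (not_le.1 hm) h2 hc.2.2 v e he
      have h3 : 0 ≤ (n : ℝ) / (20 * m) * ∑ k ∈ range w.N, ‖e (k + 1) - e k‖ ^ 2 := by positivity
      linarith

variable (hb : w.Bd n P) (hs : w.Shape n L) (hp : w.Pert n ξ ε L)
include hb hs hp

theorem coercive :
    ∑ k ∈ Ico 1 w.N, ∑ i, (w.c k ^ 2 * ‖ξ k i‖ ^ 2 + ε k i ^ 2) ≤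
      w.Sq n (fun k i => (ξ k i).re) + w.Sq n (fun k i => (ξ k i).im) + w.Hq n ε -
        w.Xq n ε (fun k i => (ξ k i).re) := by
  have hn : (0 : ℝ) < n := Nat.cast_pos.2 (NeZero.pos n)
  set ρ : ℕ → ZMod n → ℝ := fun k i => (ξ k i).re with hρ
  set σ : ℕ → ZMod n → ℝ := fun k i => (ξ k i).im with hσ
  have mρ : ∀ k, ∑ i, ρ k i = 0 := fun k => by rw [hρ, ← re_sum, hp.ξ_mean, zero_re]
  have mσ : ∀ k, ∑ i, σ k i = 0 := fun k => by rw [hσ, ← im_sum, hp.ξ_mean, zero_im]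
  have hout : ∀ m k, (k = 0 ∨ w.N ≤ k) → hat n ε m k = 0 := fun m k hk => by
    simp [hat, hp.ε_out k _ hk]
  have key := w7_fold n (fun m => w.Sm n m (hat n ρ m) + w.Sm n m (hat n σ m) +
      100 * ∑ k ∈ Ico 1 w.N, ‖hat n ε m k‖ ^ 2 - w.Xm n m (hat n ρ m) (hat n ε m) -
      ∑ k ∈ Ico 1 w.N, (w.c k ^ 2 * (‖hat n ρ m k‖ ^ 2 + ‖hat n σ m k‖ ^ 2) + ‖hat n ε m k‖ ^ 2))
    (fun m => n / (20 * m) * ∑ k ∈ range w.N, ‖hat n ε m (k + 1) - hat n ε m k‖ ^ 2)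
    (fun m hm => by simp only [Sm_symm _ hm, Xm_symm _ _ hm, W4_hat_norm _ hm])
    (fun l => by positivity) fun m _ h2 => by
      have a1 := w7_mode hb hs h2 (hat n ρ m) (hat n ε m)
        (fun hc k => ⟨(hp.modes m k h2 hc).1, (hp.modes m k h2 hc).2.2⟩)
        (hout m 0 (Or.inl rfl)) (hout m _ (Or.inr le_rfl))
      have a2 := w7_mode hb hs h2 (hat n σ m) (fun _ => 0)
        (fun hc k => ⟨(hp.modes m k h2 hc).2.1, rfl⟩) rfl rfl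
      have a3 : w.Xm n m (hat n σ m) (fun _ => 0) = 0 := by simp [Wall.Xm]
      simp only [a3, norm_zero, sub_zero, ne_eq, OfNat.ofNat_ne_zero, not_false_eq_true, zero_pow,
        sum_const_zero, mul_zero, add_zero] at a2
      simp only [mul_add, sum_add_distrib] at a1 ⊢
      linarith
  have e1 : ∑ k ∈ Ico 1 w.N, ∑ i, (w.c k ^ 2 * ‖ξ k i‖ ^ 2 + ε k i ^ 2) = (∑ m ∈ Ico 1 n,
      ∑ k ∈ Ico 1 w.N, (w.c k ^ 2 * (‖hat n ρ m k‖ ^ 2 + ‖hat n σ m k‖ ^ 2) + ‖hat n ε m k‖ ^ 2))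
        / n := by
    rw [sum_comm (s := Ico 1 n), sum_div]
    refine sum_congr rfl fun k _ => ?_
    have : ∀ i, ‖ξ k i‖ ^ 2 = ρ k i ^ 2 + σ k i ^ 2 := fun i => by
      rw [← normSq_eq_norm_sq, normSq_apply, sq, sq]
    simp only [this, sum_add_distrib, ← mul_sum]
    rw [w7_pars mρ, w7_pars mσ, w7_pars hp.ε_mean]
    ring
  have e2 : ∑ k ∈ Ico 1 w.N, ∑ i, ε k i ^ 2 =
      (∑ m ∈ Ico 1 n, ∑ k ∈ Ico 1 w.N, ‖hat n ε m k‖ ^ 2) / n := by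
    rw [sum_comm (s := Ico 1 n), sum_div]
    exact sum_congr rfl fun k _ => w7_pars hp.ε_mean k
  have e3 : ∑ l ∈ Icc 1 (n / 2), (n : ℝ) / (20 * l) *
      ∑ k ∈ range w.N, ‖hat n ε l (k + 1) - hat n ε l k‖ ^ 2 = n / 20 * ∑ l ∈ Icc 1 (n / 2),
      (l : ℝ)⁻¹ * ∑ k ∈ range w.N, ‖hat n ε l (k + 1) - hat n ε l k‖ ^ 2 := by
    rw [mul_sum]
    exact sum_congr rfl fun l _ => by ring
  have hH := Hq_ge hb hp.ε_mean hp.ε_out
  rw [e2] at hH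
  rw [e1, Sq_modes mρ, Sq_modes mσ, Xq_modes hb mρ hp.ε_mean hp.ε_out]
  rw [e3, sum_sub_distrib, sum_sub_distrib, sum_add_distrib, sum_add_distrib, ← mul_sum] at key
  have k2 := div_nonneg key hn.le
  simp only [add_div, sub_div, mul_div_assoc] at k2
  generalize ∑ l ∈ Icc 1 (n / 2),
      (l : ℝ)⁻¹ * ∑ k ∈ range w.N, ‖hat n ε l (k + 1) - hat n ε l k‖ ^ 2 = G at k2 hH
  have e4 : (n : ℝ) / 20 * (G / n) = G / 20 := by field_simp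
  rw [e4] at k2
  linarith

theorem wall_neg {r E : ℝ} (hr0 : 0 ≤ r) (hr : r ≤ P⁻¹ ^ 20) (hn : w.nsq n ξ ε = r ^ 2)
    (hE : ∀ k, 1 ≤ k → k < w.N → |w.Em n k| ≤ E) :
    w.pair n ξ ε (w.Fw n ξ ε) (w.Dw n ξ ε) ≤ -(P⁻¹ ^ 2 * r ^ 2) + P ^ 11 * r ^ 3 + E * r ^ 2 := by
  have hP := hb.P_ge
  have P0 : 0 < P := by linarith
  have Pi1 : P⁻¹ ≤ 1 := inv_le_one_of_one_le₀ (by linarith)
  have hr4 : r ≤ P⁻¹ ^ 4 := hr.trans (pow_le_pow_of_le_one (by positivity) Pi1 (by norm_num))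
  have hle : ∀ k i, ‖ξ k i‖ ^ 2 + ε k i ^ 2 ≤ r ^ 2 := fun k i => by
    by_cases hk : k = 0 ∨ w.N ≤ k
    · rw [hp.ξ_out k i hk, hp.ε_out k i hk]; simp [sq_nonneg]
    · rw [← hn]
      exact (single_le_sum (f := fun i => ‖ξ k i‖ ^ 2 + ε k i ^ 2) (fun _ _ => by positivity)
        (mem_univ i)).trans (single_le_sum (f := fun k => ∑ i, (‖ξ k i‖ ^ 2 + ε k i ^ 2))
          (fun _ _ => by positivity) (Finset.mem_Ico.2 (by omega)))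
  have hξ : ∀ k i, ‖ξ k i‖ ≤ r := fun k i =>
    (abs_le_of_sq_le_sq' (by linarith [hle k i, sq_nonneg (ε k i)]) hr0).2
  have hε : ∀ k i, |ε k i| ≤ r := fun k i =>
    abs_le_of_sq_le_sq (by linarith [hle k i, sq_nonneg ‖ξ k i‖]) hr0
  have h1 : w.pair n ξ ε (w.Fw n ξ ε) (w.Dw n ξ ε) ≤ w.pair n ξ ε (w.LF n ξ ε) (w.LD n ξ ε) +
      ∑ _k ∈ Ico 1 w.N, ∑ _i : ZMod n, 2 * P ^ 8 * r ^ 3 := by
    unfold Wall.pair
    rw [← sum_add_distrib]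
    refine sum_le_sum fun k hk => ?_
    obtain ⟨k1, k2⟩ := Finset.mem_Ico.1 hk
    have z : ∑ i, (w.c k * w.Em n k * (ξ k i).re - w.Ds n k * ε k i) = 0 := by
      rw [sum_sub_distrib, ← mul_sum, ← mul_sum, ← re_sum, hp.ξ_mean, hp.ε_mean]; simp
    rw [← sum_add_distrib, ← add_zero (∑ i, (_ + 2 * P ^ 8 * r ^ 3)), ← z, ← sum_add_distrib]
    refine sum_le_sum fun i _ => ?_
    have a1 := Fw_taylor hb hr4 hξ hε hp.ε_out k1 k2 i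
    have a2 := Dw_taylor hb hr4 hξ hε hp.ε_out k1 k2 i
    obtain ⟨RF, hRF⟩ : ∃ RF, RF = w.Fw n ξ ε k i - w.Em n k - w.LF n ξ ε k i := ⟨_, rfl⟩
    obtain ⟨RD, hRD⟩ : ∃ RD, RD = w.Dw n ξ ε k i - w.Ds n k - w.LD n ξ ε k i := ⟨_, rfl⟩
    rw [← hRF] at a1
    rw [← hRD] at a2
    have b1 : w.c k * (conj (ξ k i) * RF).re ≤ P * (r * (P ^ 7 * r ^ 2)) := by
      refine (le_abs_self _).trans ?_
      rw [abs_mul]
      refine mul_le_mul (W2_c hb k) ((abs_re_le_norm _).trans ?_) (abs_nonneg _) P0.le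
      rw [norm_mul, RCLike.norm_conj]
      exact mul_le_mul (hξ k i) a1 (norm_nonneg _) hr0
    have b2 : -(ε k i * RD) ≤ r * (P ^ 7 * r ^ 2) := by
      refine (neg_le_abs _).trans ?_
      rw [abs_mul]
      exact mul_le_mul (hε k i) a2 (abs_nonneg _) hr0
    have b3 : r * (P ^ 7 * r ^ 2) ≤ P * (r * (P ^ 7 * r ^ 2)) :=
      le_mul_of_one_le_left (by positivity) (by linarith)
    rw [show w.Fw n ξ ε k i = w.LF n ξ ε k i + w.Em n k + RF by rw [hRF]; ring,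
      show w.Dw n ξ ε k i = w.LD n ξ ε k i + w.Ds n k + RD by rw [hRD]; ring]
    simp only [mul_add, add_re, mul_re (conj (ξ k i)) (w.Em n k), ofReal_re, ofReal_im, conj_re]
    linarith
  have h2 : ∑ _k ∈ Ico 1 w.N, ∑ _i : ZMod n, 2 * P ^ 8 * r ^ 3 ≤ P ^ 11 * r ^ 3 := by
    rw [sum_const, sum_const, card_univ, ZMod.card, Nat.card_Ico, nsmul_eq_mul, nsmul_eq_mul]
    have c1 : ((w.N - 1 : ℕ) : ℝ) ≤ P := (Nat.cast_le.2 (Nat.sub_le _ _)).trans hb.N_le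
    have c2 := hb.n_le
    calc _ ≤ P * (P * (P * P ^ 8 * r ^ 3)) := by gcongr; linarith
      _ = _ := by ring
  have h3 : P⁻¹ ^ 2 * r ^ 2 ≤ ∑ k ∈ Ico 1 w.N, ∑ i, (w.c k ^ 2 * ‖ξ k i‖ ^ 2 + ε k i ^ 2) := by
    rw [← hn, Wall.nsq, mul_sum]
    refine sum_le_sum fun k hk => ?_
    obtain ⟨k1, k2⟩ := Finset.mem_Ico.1 hk
    rw [mul_sum]
    refine sum_le_sum fun i _ => ?_
    have c1 := hb.c_ge k k1 k2
    have c2 : P⁻¹ ^ 2 ≤ 1 := pow_le_one₀ (by positivity) Pi1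
    rw [mul_add]
    exact add_le_add (by gcongr) (mul_le_of_le_one_left (sq_nonneg _) c2)
  have h4 : ∑ k ∈ Ico 1 w.N, ∑ i, ε k i * (w.Em n k * (ξ k i).re) ≤ E * r ^ 2 := by
    rw [← hn, Wall.nsq, mul_sum]
    refine sum_le_sum fun k hk => ?_
    obtain ⟨k1, k2⟩ := Finset.mem_Ico.1 hk
    rw [mul_sum]
    refine sum_le_sum fun i _ => (le_abs_self _).trans ?_
    have c1 := hE k k1 k2
    have c2 := abs_re_le_norm (ξ k i)
    rw [mul_left_comm, abs_mul, abs_mul, ← sq_abs (ε k i)]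
    refine mul_le_mul c1 ?_ (by positivity) ((abs_nonneg _).trans c1)
    have c3 := mul_le_mul_of_nonneg_left c2 (abs_nonneg (ε k i))
    nlinarith [sq_nonneg (|ε k i| - ‖ξ k i‖), sq_nonneg ‖ξ k i‖, sq_nonneg |ε k i|]
  have h5 := coercive hb hs hp
  rw [pair_lin hb hp.ξ_out hp.ε_out] at h1
  linarith

end Pool.Agent.MP_943ae2_gt
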