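import Pool.Agent.MP_943ae2_gt.Map
import Pool.Agent.MP_943ae2_gt.W7

open Set Complex Filter Finset
open scoped Topology ComplexConjugate ContDiff

noncomputable section

namespace Pool.Agent.MP_943ae2_gt

lemma Fix1_th {f : ℝ} (h : |f| < 1 / 2) :
    th (Real.log ((1 + 2 * f) / (1 - 2 * f))) = 1 / 2 + f := by
  obtain ⟨h1, h2⟩ := abs_lt.1 h
  have a : 0 < 1 + 2 * f := by linarith
  have b : 0 < 1 - 2 * f := by linarith
  unfold th
  rw [Real.exp_neg, Real.exp_log (div_pos a b)]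
  field_simp
  ring

lemma Fix1_nsq (w : Wall) (n : ℕ) [NeZero n] {ξ ξ' : ℕ → ZMod n → ℂ} {ε ε' : ℕ → ZMod n → ℝ}
    (s : ℝ) (h1 : ∀ k i, ξ k i = s * ξ' k i) (h2 : ∀ k i, ε k i = s * ε' k i) :
    w.nsq n ξ ε = s ^ 2 * w.nsq n ξ' ε' := by
  unfold Wall.nsq
  rw [mul_sum]
  refine sum_congr rfl fun k _ => ?_
  rw [mul_sum]
  refine sum_congr rfl fun i _ => ?_
  rw [h1, h2, norm_mul, norm_real, Real.norm_eq_abs, mul_pow, mul_pow, sq_abs]
  ring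

lemma Fix1_num {t P : ℝ} (ht : 0 < t) (ht1 : t ≤ 1 / 1000) (hP : 1 ≤ P) (h : P ^ 60 * t ≤ 1) :
    -((P ^ 2)⁻¹ ^ 2 * (t ^ 3) ^ 2) + (P ^ 2) ^ 11 * (t ^ 3) ^ 3 + t ^ 2 * (t ^ 3) ^ 2 +
      P ^ 2 * (P ^ 2 * (2 * P ^ 2 * t ^ 9)) ≤ 0 := by
  have P0 : 0 < P := by linarith
  have hm : ∀ m : ℕ, m ≤ 60 → P ^ m * t ≤ 1 := fun m hm =>
    le_trans (mul_le_mul_of_nonneg_right (pow_le_pow_right₀ hP hm) ht.le) h
  have a1 : P ^ 26 * t ^ 3 ≤ 1 / 4 := by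
    have := mul_le_mul (hm 26 (by norm_num)) (show t ^ 2 ≤ 1 / 4 by nlinarith) (by positivity)
      zero_le_one
    calc _ = P ^ 26 * t * t ^ 2 := by ring
      _ ≤ _ := by linarith
  have a2 : P ^ 4 * t ^ 2 ≤ 1 / 4 := by
    have := mul_le_mul (hm 4 (by norm_num)) (show t ≤ 1 / 4 by linarith) (by positivity)
      zero_le_one
    calc _ = P ^ 4 * t * t := by ring
      _ ≤ _ := by linarith
  have a3 : P ^ 10 * t ^ 3 ≤ 1 / 4 := by
    have := mul_le_mul (hm 10 (by norm_num)) (show t ^ 2 ≤ 1 / 4 by nlinarith) (by positivity)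
      zero_le_one
    calc _ = P ^ 10 * t * t ^ 2 := by ring
      _ ≤ _ := by linarith
  have e : -((P ^ 2)⁻¹ ^ 2 * (t ^ 3) ^ 2) + (P ^ 2) ^ 11 * (t ^ 3) ^ 3 + t ^ 2 * (t ^ 3) ^ 2 +
      P ^ 2 * (P ^ 2 * (2 * P ^ 2 * t ^ 9)) =
      (P ^ 4)⁻¹ * t ^ 6 * (-1 + P ^ 26 * t ^ 3 + P ^ 4 * t ^ 2 + 2 * (P ^ 10 * t ^ 3)) := by
    field_simp
  rw [e]
  exact mul_nonpos_of_nonneg_of_nonpos (by positivity) (by linarith)

lemma Fix1_sc (x : Prm) (j : ℕ) : 0 < x.sc j ∧ x.sc j ≤ 1 := by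
  have h : 0 < tt j ^ 3 := pow_pos (tt_pos j) 3
  have h' := lt_of_lt_of_le h (le_max_left _
    √((x.wall j).nsq (nn j) (x.ξ j + x.vξ j) (x.ε j + x.vε j)))
  exact ⟨div_pos h h', (div_le_one h').2 (le_max_left _ _)⟩

variable {x : Prm} (hx : InK x) (hf : x.Phi = x)
include hx hf

lemma Fix1_sum {j : ℕ} (hj : 1 ≤ j) : ∑ i ∈ Ico 1 (NN j), x.w j i * x.eta j i = 0 := by
  have h : x.uN j = x.u j := congrFun (congrArg Prod.fst hf) j
  unfold Prm.uN at h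
  rw [if_neg (by omega), sub_eq_self] at h
  have p1 := hx.Mac2_W_pos j
  have p2 := hx.Mac2_W_pos (j - 1)
  have p3 := Mac2_Lb_one j
  exact (mul_eq_zero.1 h).resolve_left (by positivity)

lemma Fix1_psi {j k : ℕ} (hj : 1 ≤ j) (h2 : k < NN j) :
    x.psi j k = ∑ i ∈ Ico 1 (k + 1), x.w j i * x.eta j i := by
  unfold Prm.psi
  split_ifs
  · rfl
  · have h := Fix1_sum hx hf hj
    rw [← sum_Ico_consecutive _ (show 1 ≤ k + 1 by omega) (show k + 1 ≤ NN j by omega)] at h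
    have e : Finset.Ioo k (NN j) = Finset.Ico (k + 1) (NN j) := by
      ext i; simp only [Finset.mem_Ioo, Finset.mem_Ico]; omega
    rw [e]
    linarith

lemma Fix1_A {j k : ℕ} (hj : 1 ≤ j) (h2 : k < NN j) :
    x.w j k * x.w j (k + 1) * th ((x.wall j).y (nn j) k) =
      x.w j k * x.w j (k + 1) / 2 + x.psi j k := by
  rcases Nat.eq_zero_or_pos k with rfl | h1
  · rw [Fix1_psi hx hf hj h2, x.w_zero]
    simp
  rcases eq_or_lt_of_le (show k + 1 ≤ NN j by omega) with h3 | h3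
  · rw [Fix1_psi hx hf hj h2, x.w_out h3.ge, h3, Fix1_sum hx hf hj]
    simp
  have h : x.yN j k = x.y j k := congrFun (congrFun (congrArg (fun p : Prm => p.2.2.1) hf) j) k
  unfold Prm.yN at h
  rw [if_pos ⟨h1, h3⟩] at h
  have q := Mac2_nn_pos j
  have N1 : (1 : ℝ) ≤ NN j := Nat.one_le_cast.2 (by omega)
  have hff : |x.ff j k| < 1 / 2 := by
    refine (hx.ff_le hj h1 h3).trans_lt ?_
    rw [div_lt_iff₀ q]
    nlinarith [nn_big hj]
  have Pi : 0 < (PP j)⁻¹ := inv_pos.2 (admM_PP_pos j)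
  have w1 := Pi.trans_le (hx.Mac2_w_ge h1 h2)
  have w2 := Pi.trans_le (hx.Mac2_w_ge (k := k + 1) (by omega) h3)
  rw [x.wall_y h1, ← h, Fix1_th hff]
  unfold Prm.ff
  field_simp

theorem fix_macro {j k : ℕ} (hj : 1 ≤ j) (h1 : 1 ≤ k) (h2 : k < NN j) :
    (x.wall j).Em (nn j) k = x.err j k := by
  have Pi : 0 < (PP j)⁻¹ := inv_pos.2 (admM_PP_pos j)
  have w1 := Pi.trans_le (hx.Mac2_w_ge h1 h2)
  have a1 := Fix1_A hx hf hj h2
  have a2 := Fix1_A hx hf hj (k := k - 1) (by omega)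
  have a3 := Fix1_psi hx hf hj h2
  have a4 := Fix1_psi hx hf hj (k := k - 1) (by omega)
  rw [Nat.sub_add_cancel h1] at a2 a4
  rw [sum_Ico_succ_top h1, ← a4] at a3
  have a5 : x.eta j k = (x.wall j).g k - (x.w j (k + 1) - 2 * x.w j k + x.w j (k - 1)) / 2 -
      (x.wall j).c k - x.err j k := rfl
  refine mul_left_cancel₀ w1.ne' ?_
  unfold Wall.Em
  rw [x.n_mul_c, x.n_mul_c, x.n_mul_c]
  rw [a5] at a3
  linear_combination a2 - a1 - a3

omit hf in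
lemma Fix1_pair (j : ℕ) : (x.wall j).pair (nn j) (x.ξ j) (x.ε j) (x.Ft j) (x.Dt j) =
    ∑ k ∈ Ico 1 (NN j), ∑ i, ((conj (x.ξ j k i) * x.vξ j k i).re + x.ε j k i * x.vε j k i) := by
  refine sum_congr rfl fun k _ => ?_
  have z : ∑ i, ((x.wall j).c k * (conj (x.ξ j k i) * avgC (nn j) (x.Ft j k)).re -
      x.ε j k i * avg (nn j) (x.Dt j k)) = 0 := by
    rw [sum_sub_distrib, ← mul_sum, ← sum_mul, ← re_sum, ← sum_mul, ← map_sum, hx.ξ_mean,
      hx.ε_mean]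
    simp
  rw [← sub_zero (∑ i, _), ← z, ← sum_sub_distrib]
  refine sum_congr rfl fun i _ => ?_
  unfold Prm.vξ Prm.vε
  rw [mul_left_comm, re_ofReal_mul, mul_sub (conj _), sub_re]
  ring

omit hf in
lemma Fix1_le {j : ℕ} (hj : 1 ≤ j) : (x.wall j).pair (nn j) (x.ξ j) (x.ε j) (x.Ft j) (x.Dt j) ≤
    (x.wall j).pair (nn j) (x.ξ j) (x.ε j) ((x.wall j).Fw (nn j) (x.ξ j) (x.ε j))
      ((x.wall j).Dw (nn j) (x.ξ j) (x.ε j)) +
      PP j ^ 2 * (PP j ^ 2 * (2 * PP j ^ 2 * tt j ^ 9)) := by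
  have hb := hx.wall_bd hj
  have t0 := tt_pos j
  have P1 : 1 ≤ PP j ^ 2 := by linarith [hb.P_ge]
  have h2 : ∑ _k ∈ Ico 1 (NN j), ∑ _i : ZMod (nn j), 2 * PP j ^ 2 * tt j ^ 9 ≤
      PP j ^ 2 * (PP j ^ 2 * (2 * PP j ^ 2 * tt j ^ 9)) := by
    rw [sum_const, sum_const, card_univ, ZMod.card, Nat.card_Ico, nsmul_eq_mul, nsmul_eq_mul]
    have c1 : ((NN j - 1 : ℕ) : ℝ) ≤ PP j ^ 2 := (Nat.cast_le.2 (Nat.sub_le _ _)).trans hb.N_le
    have c2 := hb.n_le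
    gcongr
  refine le_trans ?_ (add_le_add_right h2 _)
  unfold Wall.pair
  rw [show (x.wall j).N = NN j from rfl, ← sum_add_distrib]
  refine sum_le_sum fun k hk => ?_
  obtain ⟨k1, k2⟩ := Finset.mem_Ico.1 hk
  have z : ∑ i, -(x.ε j k i * x.Oc j k) = 0 := by
    rw [sum_neg_distrib, ← sum_mul, hx.ε_mean]
    simp
  rw [← sum_add_distrib, ← add_zero (∑ i, (_ + 2 * PP j ^ 2 * tt j ^ 9)), ← z, ← sum_add_distrib]
  refine sum_le_sum fun i _ => ?_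
  have a1 := hx.Ft_err hj k1 k2 i
  have a2 := hx.Dt_err k1 k2 i
  obtain ⟨RF, hRF⟩ : ∃ RF, RF = x.Ft j k i - (x.wall j).Fw (nn j) (x.ξ j) (x.ε j) k i := ⟨_, rfl⟩
  obtain ⟨RD, hRD⟩ : ∃ RD, RD = x.Dt j k i -
    ((x.wall j).Dw (nn j) (x.ξ j) (x.ε j) k i + x.Oc j k) := ⟨_, rfl⟩
  rw [← hRF] at a1
  rw [← hRD] at a2
  have b1 : (x.wall j).c k * (conj (x.ξ j k i) * RF).re ≤ PP j ^ 2 * (tt j ^ 3 * tt j ^ 6) := by
    refine (le_abs_self _).trans ?_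
    rw [abs_mul]
    refine mul_le_mul (W2_c hb k) ((abs_re_le_norm _).trans ?_) (abs_nonneg _) (by positivity)
    rw [norm_mul, RCLike.norm_conj]
    exact mul_le_mul (hx.ξ_le j k i) a1 (norm_nonneg _) (by positivity)
  have b2 : -(x.ε j k i * RD) ≤ tt j ^ 3 * tt j ^ 6 := by
    refine (neg_le_abs _).trans ?_
    rw [abs_mul]
    exact mul_le_mul (hx.ε_le j k i) a2 (abs_nonneg _) (by positivity)
  have b3 : tt j ^ 3 * tt j ^ 6 ≤ PP j ^ 2 * (tt j ^ 3 * tt j ^ 6) :=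
    le_mul_of_one_le_left (by positivity) P1
  rw [show x.Ft j k i = (x.wall j).Fw (nn j) (x.ξ j) (x.ε j) k i + RF by rw [hRF]; ring,
    show x.Dt j k i = (x.wall j).Dw (nn j) (x.ξ j) (x.ε j) k i + x.Oc j k + RD by rw [hRD]; ring]
  simp only [mul_add, add_re]
  have e : PP j ^ 2 * (tt j ^ 3 * tt j ^ 6) = PP j ^ 2 * tt j ^ 9 := by ring
  linarith

lemma Fix1_neg {j : ℕ} (hj : 2 ≤ j)
    (hn : (x.wall j).nsq (nn j) (x.ξ j) (x.ε j) = (tt j ^ 3) ^ 2) :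
    (x.wall j).pair (nn j) (x.ξ j) (x.ε j) (x.Ft j) (x.Dt j) ≤ 0 := by
  have hj1 : 1 ≤ j := by omega
  have t0 := tt_pos j
  have P0 := admM_PP_pos j
  have hr : tt j ^ 3 ≤ (PP j ^ 2)⁻¹ ^ 20 := by
    rw [inv_pow, ← pow_mul, ← one_div, le_div_iff₀ (by positivity)]
    have a := admM_pow_tt j (m := 40) (by norm_num)
    have b : tt j ^ 2 ≤ 1 := pow_le_one₀ t0.le (admM_tt_one j)
    calc _ = PP j ^ 40 * tt j * tt j ^ 2 := by ring
      _ ≤ 1 * 1 := mul_le_mul a b (by positivity) zero_le_one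
      _ = 1 := one_mul 1
  have h1 := wall_neg (hx.wall_bd hj1) (hx.wall_shape hj) (hx.wall_pert hj1) (E := tt j ^ 2)
    (by positivity) hr hn fun k k1 k2 => by
      rw [fix_macro hx hf hj1 k1 k2]
      exact hx.err_le hj1 k1 k2
  have h2 := Fix1_le hx hj1
  have h3 := Fix1_num t0 (tt_le j) (admM_PP_one j) (PP_tt j)
  linarith

theorem fix_micro (j k : ℕ) (i : ZMod (nn j)) : x.vξ j k i = 0 ∧ x.vε j k i = 0 := by
  have hξ : ∀ k i, x.ξ j k i = x.sc j * (x.ξ j k i + x.vξ j k i) := fun k i =>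
    (congrFun (congrFun (congrFun (congrArg (fun p : Prm => p.2.2.2.1) hf) j) k) i).symm
  have hε : ∀ k i, x.ε j k i = x.sc j * (x.ε j k i + x.vε j k i) := fun k i =>
    (congrFun (congrFun (congrFun (congrArg (fun p : Prm => p.2.2.2.2.1) hf) j) k) i).symm
  obtain ⟨s0, s1⟩ := Fix1_sc x j
  have s2 : (x.sc j : ℂ) ≠ 0 := ofReal_ne_zero.2 s0.ne'
  by_cases hj : j ≤ 5
  · obtain ⟨m1, m2⟩ := hx.micro_zero hj
    have a := hξ k i
    have b := hε k i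
    rw [m1] at a
    rw [m2] at b
    simp only [Pi.zero_apply, zero_add] at a b
    exact ⟨(mul_eq_zero.1 a.symm).resolve_left s2, (mul_eq_zero.1 b.symm).resolve_left s0.ne'⟩
  rcases eq_or_lt_of_le s1 with s3 | s3
  · have a := hξ k i
    have b := hε k i
    rw [s3] at a b
    rw [ofReal_one, one_mul] at a
    rw [one_mul] at b
    exact ⟨left_eq_add.1 a, left_eq_add.1 b⟩
  exfalso
  have t3 : 0 < tt j ^ 3 := pow_pos (tt_pos j) 3
  have hn : (x.wall j).nsq (nn j) (x.ξ j) (x.ε j) = (tt j ^ 3) ^ 2 := by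
    rw [Fix1_nsq (x.wall j) (nn j) (ξ' := x.ξ j + x.vξ j) (ε' := x.ε j + x.vε j) (x.sc j) hξ hε]
    unfold Prm.sc at s3 ⊢
    generalize (x.wall j).nsq (nn j) (x.ξ j + x.vξ j) (x.ε j + x.vε j) = Q at s3 ⊢
    rcases le_total √Q (tt j ^ 3) with h | h
    · rw [max_eq_left h, div_self t3.ne'] at s3
      exact absurd s3 (lt_irrefl _)
    · have q0 : 0 < √Q := t3.trans_le h
      rw [max_eq_right h, div_pow, Real.sq_sqrt (Real.sqrt_pos.1 q0).le,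
        div_mul_cancel₀ _ (Real.sqrt_pos.1 q0).ne']
  have h1 := Fix1_neg hx hf (by omega) hn
  have h2 : x.sc j * (x.wall j).pair (nn j) (x.ξ j) (x.ε j) (x.Ft j) (x.Dt j) =
      (1 - x.sc j) * (x.wall j).nsq (nn j) (x.ξ j) (x.ε j) := by
    rw [Fix1_pair hx, mul_sum]
    unfold Wall.nsq
    rw [mul_sum]
    refine sum_congr rfl fun k _ => ?_
    rw [mul_sum, mul_sum]
    refine sum_congr rfl fun i _ => ?_
    have a : (x.sc j : ℂ) * x.vξ j k i = ((1 - x.sc j : ℝ) : ℂ) * x.ξ j k i := by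
      push_cast
      linear_combination -hξ k i
    have b : x.sc j * x.vε j k i = (1 - x.sc j) * x.ε j k i := by
      linear_combination -hε k i
    rw [mul_add, ← re_ofReal_mul, mul_left_comm, a, mul_left_comm (conj _), re_ofReal_mul,
      conj_mul', mul_left_comm (x.sc j), b, ← ofReal_pow, ofReal_re]
    ring
  rw [hn] at h2
  have h3 : 0 < (1 - x.sc j) * (tt j ^ 3) ^ 2 := mul_pos (by linarith) (by positivity)
  have h4 := mul_nonpos_of_nonneg_of_nonpos s0.le h1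
  linarith

end Pool.Agent.MP_943ae2_gt
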