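import Pool.Agent.MP_943ae2_gt.Par

open Set Complex Filter Finset
open scoped Topology ComplexConjugate ContDiff

noncomputable section

namespace Pool.Agent.MP_943ae2_gt

lemma Kset_nsq (x : Prm) (j : ℕ) (ξ : ℕ → ZMod (nn j) → ℂ) (ε : ℕ → ZMod (nn j) → ℝ) :
    (x.wall j).nsq (nn j) ξ ε = ∑ k ∈ Ico 1 (NN j), ∑ i, (‖ξ k i‖ ^ 2 + ε k i ^ 2) := rfl

lemma Kset_tt_pos (j : ℕ) : 0 < tt j := by unfold tt; positivity

lemma Kset_cu (j : ℕ) : Continuous fun x : Prm => x.u j := by unfold Prm.u; fun_prop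

lemma Kset_cs (j a : ℕ) : Continuous fun x : Prm => x.s j a := by unfold Prm.s; fun_prop

lemma Kset_cy (j a : ℕ) : Continuous fun x : Prm => x.y j a := by unfold Prm.y; fun_prop

lemma Kset_cξ (j k : ℕ) (i : ZMod (nn j)) : Continuous fun x : Prm => x.ξ j k i := by
  unfold Prm.ξ; fun_prop

lemma Kset_cε (j k : ℕ) (i : ZMod (nn j)) : Continuous fun x : Prm => x.ε j k i := by
  unfold Prm.ε; fun_prop

lemma Kset_cio (j k : ℕ) (i : ZMod (nn j)) : Continuous fun x : Prm => x.io j k i := by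
  unfold Prm.io; fun_prop

lemma Kset_cde (j k : ℕ) (i : ZMod (nn j)) : Continuous fun x : Prm => x.de j k i := by
  unfold Prm.de; fun_prop

lemma Kset_le {f g : Prm → ℝ} (hf : Continuous f) (hg : Continuous g)
    (h : ∀ y, InK y → f y ≤ g y) {x : Prm} (hx : x ∈ closure {x : Prm | InK x}) : f x ≤ g x :=
  closure_minimal (t := {x | f x ≤ g x}) (fun y hy => h y hy) (isClosed_le hf hg) hx

lemma Kset_eq {E : Type} [TopologicalSpace E] [T2Space E] {f g : Prm → E} (hf : Continuous f)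
    (hg : Continuous g) (h : ∀ y, InK y → f y = g y) {x : Prm}
    (hx : x ∈ closure {x : Prm | InK x}) : f x = g x :=
  closure_minimal (t := {x | f x = g x}) (fun y hy => h y hy) (isClosed_eq hf hg) hx

lemma Kset_closed : IsClosed {x : Prm | InK x} := by
  refine isClosed_of_closure_subset fun x hx => ?_
  refine ⟨fun j => ?_, fun j a => ?_, fun j k => ?_, fun j k i h => ?_, fun j k i h => ?_,
    fun j => ?_, fun j k => ?_, fun j k => ?_, fun j k i => ?_, fun j k i => ?_, fun j k i => ?_,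
    fun j k i => ?_, fun j k i => ?_, fun j k i => ?_, fun j k i => ?_, fun j k i => ?_,
    fun j k i => ?_, fun j k i => ?_⟩
  · exact Kset_le ((Kset_cu j).sub continuous_const).abs continuous_const
      (fun y hy => hy.u_mem j) hx
  · exact Kset_le (Kset_cs j a).abs continuous_const (fun y hy => hy.s_le j a) hx
  · exact Kset_le (Kset_cy j k).abs continuous_const (fun y hy => hy.y_le j k) hx
  · exact Kset_eq (Kset_cξ j k i) continuous_const (fun y hy => hy.ξ_out j k i h) hx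
  · exact Kset_eq (Kset_cε j k i) continuous_const (fun y hy => hy.ε_out j k i h) hx
  · rw [Kset_nsq]
    refine Kset_le (f := fun x => ∑ k ∈ Ico 1 (NN j), ∑ i, (‖x.ξ j k i‖ ^ 2 + x.ε j k i ^ 2))
      ?_ continuous_const (fun y hy => hy.nsq_le j) hx
    exact continuous_finsetSum _ fun k _ => continuous_finsetSum _ fun i _ =>
      ((Kset_cξ j k i).norm.pow 2).add ((Kset_cε j k i).pow 2)
  · exact Kset_eq (continuous_finsetSum _ fun i _ => Kset_cξ j k i) continuous_const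
      (fun y hy => hy.ξ_mean j k) hx
  · exact Kset_eq (continuous_finsetSum _ fun i _ => Kset_cε j k i) continuous_const
      (fun y hy => hy.ε_mean j k) hx
  · exact Kset_le (Kset_cio j k i).abs continuous_const (fun y hy => hy.io_le j k i) hx
  · exact Kset_le (Kset_cde j k i).norm continuous_const (fun y hy => hy.de_le j k i) hx
  · exact Kset_eq (Kset_cξ j k _) (Kset_cξ j k i) (fun y hy => hy.ξ_rot j k i) hx
  · exact Kset_eq (Kset_cε j k _) (Kset_cε j k i) (fun y hy => hy.ε_rot j k i) hx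
  · exact Kset_eq (Kset_cio j k _) (Kset_cio j k i) (fun y hy => hy.io_rot j k i) hx
  · exact Kset_eq (Kset_cde j k _) (continuous_const.mul (Kset_cde j k i))
      (fun y hy => hy.de_rot j k i) hx
  · exact Kset_eq (Kset_cξ j k _) (continuous_conj.comp (Kset_cξ j k i))
      (fun y hy => hy.ξ_refl j k i) hx
  · exact Kset_eq (Kset_cε j k _) (Kset_cε j k i) (fun y hy => hy.ε_refl j k i) hx
  · exact Kset_eq (Kset_cio j k _) (Kset_cio j k i).neg (fun y hy => hy.io_refl j k i) hx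
  · exact Kset_eq (Kset_cde j k _) (continuous_conj.comp (Kset_cde j k i))
      (fun y hy => hy.de_refl j k i) hx

lemma Kset_box3 {E : Type} [NormedAddCommGroup E] [ProperSpace E] (r : ℕ → ℝ) :
    IsCompact (Set.pi univ fun j => Set.pi univ fun _ : ℕ => Set.pi univ fun _ : ZMod (nn j) =>
      Metric.closedBall (0 : E) (r j)) :=
  isCompact_univ_pi fun _ => isCompact_univ_pi fun _ => isCompact_univ_pi fun _ =>
    isCompact_closedBall _ _

lemma Kset_box2 (r : ℕ → ℝ) :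
    IsCompact (Set.pi univ fun j => Set.pi univ fun _ : ℕ => Metric.closedBall (0 : ℝ) (r j)) :=
  isCompact_univ_pi fun _ => isCompact_univ_pi fun _ => isCompact_closedBall _ _

lemma Kset_term {x : Prm} (hx : InK x) (j k : ℕ) (i : ZMod (nn j)) :
    ‖x.ξ j k i‖ ^ 2 + x.ε j k i ^ 2 ≤ (tt j ^ 3) ^ 2 := by
  by_cases h : k = 0 ∨ NN j ≤ k
  · rw [hx.ξ_out j k i h, hx.ε_out j k i h, norm_zero, zero_pow two_ne_zero, add_zero]
    exact sq_nonneg _
  · refine le_trans ?_ (hx.nsq_le j)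
    rw [Kset_nsq]
    have hk : k ∈ Finset.Ico 1 (NN j) := Finset.mem_Ico.2 ⟨by omega, by omega⟩
    refine le_trans ?_ (Finset.single_le_sum
      (f := fun k => ∑ i, (‖x.ξ j k i‖ ^ 2 + x.ε j k i ^ 2))
      (fun k _ => Finset.sum_nonneg fun i _ => add_nonneg (sq_nonneg _) (sq_nonneg _)) hk)
    exact Finset.single_le_sum (f := fun i => ‖x.ξ j k i‖ ^ 2 + x.ε j k i ^ 2)
      (fun i _ => add_nonneg (sq_nonneg _) (sq_nonneg _)) (Finset.mem_univ i)

theorem K_compact : IsCompact {x : Prm | InK x} := by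
  refine IsCompact.of_isClosed_subset
    ((isCompact_univ_pi fun _ : ℕ => isCompact_closedBall (5 / 3 : ℝ) (1 / 100)).prod
      ((Kset_box2 fun _ => 8).prod ((Kset_box2 fun j => 2000 * NN j / nn j).prod
        ((Kset_box3 (E := ℂ) fun j => tt j ^ 3).prod ((Kset_box3 (E := ℝ) fun j => tt j ^ 3).prod
          ((Kset_box3 (E := ℝ) fun j => tt j ^ 28).prod
            (Kset_box3 (E := ℂ) fun j => (tt j)⁻¹ ^ 3))))))) Kset_closed ?_
  intro x hx
  have hx' : InK x := hx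
  have t3 : ∀ j, 0 ≤ tt j ^ 3 := fun j => (pow_pos (Kset_tt_pos j) 3).le
  refine ⟨fun j _ => ?_, fun j _ a _ => ?_, fun j _ a _ => ?_, fun j _ k _ i _ => ?_,
    fun j _ k _ i _ => ?_, fun j _ k _ i _ => ?_, fun j _ k _ i _ => ?_⟩
  · exact mem_closedBall_iff_norm.2 (hx'.u_mem j)
  · exact mem_closedBall_zero_iff.2 (hx'.s_le j a)
  · exact mem_closedBall_zero_iff.2 (hx'.y_le j a)
  · refine mem_closedBall_zero_iff.2 ((pow_le_pow_iff_left₀ (norm_nonneg _) (t3 j) two_ne_zero).1 ?_)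
    exact (le_add_of_nonneg_right (sq_nonneg _)).trans (Kset_term hx' j k i)
  · refine mem_closedBall_zero_iff.2 ((pow_le_pow_iff_left₀ (norm_nonneg _) (t3 j) two_ne_zero).1 ?_)
    rw [Real.norm_eq_abs, sq_abs]
    exact (le_add_of_nonneg_left (sq_nonneg _)).trans (Kset_term hx' j k i)
  · exact mem_closedBall_zero_iff.2 (hx'.io_le j k i)
  · exact mem_closedBall_zero_iff.2 (hx'.de_le j k i)

lemma Kset_norm {E : Type} [NormedAddCommGroup E] [NormedSpace ℝ E] {p q : E} {a b r : ℝ}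
    (ha : 0 ≤ a) (hb : 0 ≤ b) (hab : a + b = 1) (hp : ‖p‖ ≤ r) (hq : ‖q‖ ≤ r) :
    ‖a • p + b • q‖ ≤ r := by
  refine (norm_add_le _ _).trans ?_
  rw [norm_smul, norm_smul, Real.norm_of_nonneg ha, Real.norm_of_nonneg hb]
  calc a * ‖p‖ + b * ‖q‖ ≤ a * r + b * r := by gcongr
    _ = r := by rw [← add_mul, hab, one_mul]

lemma Kset_sq {E : Type} [NormedAddCommGroup E] [NormedSpace ℝ E] (p q : E) {a b : ℝ}
    (ha : 0 ≤ a) (hb : 0 ≤ b) (hab : a + b = 1) :
    ‖a • p + b • q‖ ^ 2 ≤ a * ‖p‖ ^ 2 + b * ‖q‖ ^ 2 := by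
  have h1 : ‖a • p + b • q‖ ≤ a * ‖p‖ + b * ‖q‖ := by
    refine (norm_add_le _ _).trans ?_
    rw [norm_smul, norm_smul, Real.norm_of_nonneg ha, Real.norm_of_nonneg hb]
  refine (pow_le_pow_left₀ (norm_nonneg _) h1 2).trans ?_
  have h2 : b = 1 - a := by linarith
  have h3 := mul_nonneg (mul_nonneg ha hb) (sq_nonneg (‖p‖ - ‖q‖))
  subst h2
  nlinarith

theorem K_convex : Convex ℝ {x : Prm | InK x} := by
  intro x hx y hy a b ha hb hab
  have hx' : InK x := hx
  have hy' : InK y := hy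
  have eu : ∀ j, Prm.u (a • x + b • y) j = a • x.u j + b • y.u j := fun _ => rfl
  have es : ∀ j k, Prm.s (a • x + b • y) j k = a • x.s j k + b • y.s j k := fun _ _ => rfl
  have ey : ∀ j k, Prm.y (a • x + b • y) j k = a • x.y j k + b • y.y j k := fun _ _ => rfl
  have eξ : ∀ j k i, Prm.ξ (a • x + b • y) j k i = a • x.ξ j k i + b • y.ξ j k i :=
    fun _ _ _ => rfl
  have eε : ∀ j k i, Prm.ε (a • x + b • y) j k i = a • x.ε j k i + b • y.ε j k i :=
    fun _ _ _ => rfl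
  have ei : ∀ j k i, Prm.io (a • x + b • y) j k i = a • x.io j k i + b • y.io j k i :=
    fun _ _ _ => rfl
  have ed : ∀ j k i, Prm.de (a • x + b • y) j k i = a • x.de j k i + b • y.de j k i :=
    fun _ _ _ => rfl
  have ec : ∀ p q : ℂ, conj (a • p + b • q) = a • conj p + b • conj q := fun p q => by
    simp only [real_smul, map_add, map_mul, conj_ofReal]
  refine ⟨fun j => ?_, fun j c => ?_, fun j k => ?_, fun j k i h => ?_, fun j k i h => ?_,
    fun j => ?_, fun j k => ?_, fun j k => ?_, fun j k i => ?_, fun j k i => ?_, fun j k i => ?_,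
    fun j k i => ?_, fun j k i => ?_, fun j k i => ?_, fun j k i => ?_, fun j k i => ?_,
    fun j k i => ?_, fun j k i => ?_⟩
  · have e : Prm.u (a • x + b • y) j - 5 / 3 = a • (x.u j - 5 / 3) + b • (y.u j - 5 / 3) := by
      rw [eu]; simp only [smul_eq_mul]; linear_combination (5 / 3) * hab
    rw [e]
    exact Kset_norm (E := ℝ) ha hb hab (hx'.u_mem j) (hy'.u_mem j)
  · rw [es]; exact Kset_norm (E := ℝ) ha hb hab (hx'.s_le j c) (hy'.s_le j c)
  · rw [ey]; exact Kset_norm (E := ℝ) ha hb hab (hx'.y_le j k) (hy'.y_le j k)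
  · rw [eξ, hx'.ξ_out j k i h, hy'.ξ_out j k i h, smul_zero, smul_zero, add_zero]
  · rw [eε, hx'.ε_out j k i h, hy'.ε_out j k i h, smul_zero, smul_zero, add_zero]
  · have h1 := hx'.nsq_le j
    have h2 := hy'.nsq_le j
    rw [Kset_nsq] at h1 h2 ⊢
    calc ∑ k ∈ Ico 1 (NN j), ∑ i, (‖Prm.ξ (a • x + b • y) j k i‖ ^ 2 +
          Prm.ε (a • x + b • y) j k i ^ 2)
        ≤ ∑ k ∈ Ico 1 (NN j), ∑ i, (a * (‖x.ξ j k i‖ ^ 2 + x.ε j k i ^ 2) +
          b * (‖y.ξ j k i‖ ^ 2 + y.ε j k i ^ 2)) := by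
          refine Finset.sum_le_sum fun k _ => Finset.sum_le_sum fun i _ => ?_
          have h3 := Kset_sq (x.ξ j k i) (y.ξ j k i) ha hb hab
          have h4 := Kset_sq (x.ε j k i) (y.ε j k i) ha hb hab
          rw [Real.norm_eq_abs, Real.norm_eq_abs, Real.norm_eq_abs, sq_abs, sq_abs, sq_abs] at h4
          rw [eξ, eε]
          linarith
      _ = a * ∑ k ∈ Ico 1 (NN j), ∑ i, (‖x.ξ j k i‖ ^ 2 + x.ε j k i ^ 2) +
          b * ∑ k ∈ Ico 1 (NN j), ∑ i, (‖y.ξ j k i‖ ^ 2 + y.ε j k i ^ 2) := by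
          simp only [Finset.sum_add_distrib, Finset.mul_sum, mul_add]
      _ ≤ a * (tt j ^ 3) ^ 2 + b * (tt j ^ 3) ^ 2 :=
          add_le_add (mul_le_mul_of_nonneg_left h1 ha) (mul_le_mul_of_nonneg_left h2 hb)
      _ = (tt j ^ 3) ^ 2 := by rw [← add_mul, hab, one_mul]
  · simp only [eξ]
    rw [Finset.sum_add_distrib, ← Finset.smul_sum, ← Finset.smul_sum, hx'.ξ_mean, hy'.ξ_mean,
      smul_zero, smul_zero, add_zero]
  · simp only [eε]
    rw [Finset.sum_add_distrib, ← Finset.smul_sum, ← Finset.smul_sum, hx'.ε_mean, hy'.ε_mean,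
      smul_zero, smul_zero, add_zero]
  · rw [ei]; exact Kset_norm (E := ℝ) ha hb hab (hx'.io_le j k i) (hy'.io_le j k i)
  · rw [ed]; exact Kset_norm ha hb hab (hx'.de_le j k i) (hy'.de_le j k i)
  · rw [eξ, eξ, hx'.ξ_rot, hy'.ξ_rot]
  · rw [eε, eε, hx'.ε_rot, hy'.ε_rot]
  · rw [ei, ei, hx'.io_rot, hy'.io_rot]
  · rw [ed, ed, hx'.de_rot, hy'.de_rot, mul_add, mul_smul_comm, mul_smul_comm]
  · rw [eξ, eξ, hx'.ξ_refl, hy'.ξ_refl, ec]
  · rw [eε, eε, hx'.ε_refl, hy'.ε_refl]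
  · rw [ei, ei, hx'.io_refl, hy'.io_refl, smul_neg, smul_neg, neg_add]
  · rw [ed, ed, hx'.de_refl, hy'.de_refl, ec]

theorem K_nonempty : {x : Prm | InK x}.Nonempty := by
  refine ⟨(fun _ => 5 / 3, 0, 0, 0, 0, 0, 0), ?_⟩
  refine ⟨fun j => ?_, fun j c => ?_, fun j k => ?_, fun j k i h => rfl, fun j k i h => rfl,
    fun j => ?_, fun j k => Finset.sum_const_zero, fun j k => Finset.sum_const_zero,
    fun j k i => ?_, fun j k i => ?_, fun j k i => rfl,
    fun j k i => rfl, fun j k i => rfl, fun j k i => (mul_zero _).symm,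
    fun j k i => (map_zero _).symm, fun j k i => rfl,
    fun j k i => neg_zero.symm, fun j k i => (map_zero _).symm⟩
  · show |(5 / 3 : ℝ) - 5 / 3| ≤ 1 / 100
    norm_num
  · show |(0 : ℝ)| ≤ 8
    norm_num
  · show |(0 : ℝ)| ≤ _
    rw [abs_zero]; positivity
  · rw [Kset_nsq]
    show ∑ k ∈ Ico 1 (NN j), ∑ _i : ZMod (nn j), (‖(0 : ℂ)‖ ^ 2 + (0 : ℝ) ^ 2) ≤ _
    rw [norm_zero, zero_pow two_ne_zero, add_zero, Finset.sum_const_zero, Finset.sum_const_zero]
    exact sq_nonneg _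
  · show |(0 : ℝ)| ≤ _
    rw [abs_zero]; exact (pow_pos (Kset_tt_pos j) _).le
  · show ‖(0 : ℂ)‖ ≤ _
    rw [norm_zero]; exact (pow_pos (inv_pos.2 (Kset_tt_pos j)) _).le

end Pool.Agent.MP_943ae2_gt
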