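import Pool.Agent.MP_943ae2_gt.Fix1
import Pool.Agent.MP_943ae2_gt.Cont
import Pool.Agent.MP_943ae2_gt.Kset
import Pool.Agent.MP_943ae2_gt.Tych

open Set Complex Filter Finset
open scoped Topology ComplexConjugate ContDiff

noncomputable section

namespace Pool.Agent.MP_943ae2_gt

theorem Fix2_ext {K : Type} [Zero K] (f : Nk → K) (ν : Nk) : Prm.ext f ν.j ν.k ν.i = f ν := by
  unfold Prm.ext
  rw [dif_pos ⟨ν.h1, ν.h2⟩]

theorem fix_eqs {x : Prm} (hx : InK x) (hf : x.Phi = x) : Eqs x := by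
  have hD : ∀ j k i, x.Dt j k i = avg (nn j) (x.Dt j k) := fun j k i =>
    sub_eq_zero.1 (neg_eq_zero.1 (fix_micro hx hf j k i).2)
  refine ⟨fun j k i => ?_, fun j k i i' => by rw [hD j k i, hD j k i'], fun j a i i' h1 h2 => ?_,
    fun ν => ?_, fun ν => ?_⟩
  · by_cases h : 1 ≤ k ∧ k < NN j
    swap
    · unfold Prm.Ft Prm.ext
      rw [dif_neg h]
    rcases Nat.eq_zero_or_pos j with rfl | hj
    · unfold Prm.Ft Prm.ext
      rw [dif_pos h]
      simp [Prm.pp]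
    have hc : (0 : ℝ) < (x.wall j).c k := by
      have h0 : (0 : ℝ) < PP j := lt_of_lt_of_le (by norm_num) (PP_ge j)
      exact lt_of_lt_of_le (by positivity) (hx.c_ge ⟨j, k, i, h.1, h.2⟩)
    have e₁ : x.Ft j k i = avgC (nn j) (x.Ft j k) :=
      sub_eq_zero.1 ((mul_eq_zero.1 (fix_micro hx hf j k i).1).resolve_left
        (ofReal_ne_zero.2 hc.ne'))
    have e₂ := fix_macro hx hf hj h.1 h.2
    rw [Prm.err] at e₂
    have e₃ : (avg (nn j) fun i => (x.Ft j k i).re) = 0 := by linarith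
    rw [e₁, hx.avgC_Ft, e₃, ofReal_zero]
  · have e : x.sN j a = x.s j a := congrArg (fun p : Prm => p.s j a) hf
    rw [Prm.sN, if_pos ⟨h1, h2⟩, add_eq_left] at e
    have l : (0 : ℝ) < ell j := lt_of_lt_of_le (by positivity) (ell_ge j)
    have w := hx.Mac2_W_pos j
    have n := Mac2_nn_pos j
    rw [hD j _ i, hD (j + 1) a i']
    exact sub_eq_zero.1 ((mul_eq_zero.1 ((div_eq_zero_iff.1 e).resolve_right
      (by positivity))).resolve_left (by positivity))
  · have e : x.ioN ν.j ν.k ν.i = x.io ν.j ν.k ν.i :=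
      congrArg (fun p : Prm => p.io ν.j ν.k ν.i) hf
    rwa [Prm.ioN, Fix2_ext, add_eq_left] at e
  · have e : x.deN ν.j ν.k ν.i = x.de ν.j ν.k ν.i :=
      congrArg (fun p : Prm => p.de ν.j ν.k ν.i) hf
    rwa [Prm.deN, Fix2_ext, add_eq_left, sub_eq_zero] at e

theorem exists_eqs : ∃ x, InK x ∧ Eqs x := by
  obtain ⟨x, hx, hf⟩ := tychonoff K_compact K_convex K_nonempty Phi_continuousOn
    (fun x hx => InK.phi hx)
  exact ⟨x, hx, fix_eqs hx hf⟩

theorem CC_step {x : Prm} (he : Eqs x) (ν : Nk) :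
    CC x (ν.gap + 1) - CC x ν.gap = x.Dt ν.j ν.k ν.i := by
  obtain ⟨j, k, i, h1, h2⟩ := ν
  have key : ∀ j₁ k₁ j₂ k₂, j₁ = j₂ → k₁ = k₂ → x.Dt j₁ k₁ 0 = x.Dt j₂ k₂ 0 := by
    rintro _ _ _ _ rfl rfl; rfl
  simp only [Nk.gap, CC, add_sub_cancel_left]
  rcases Nat.eq_zero_or_pos j with rfl | hj
  · have hk : k = 1 := by rw [NN_zero] at h2; omega
    subst hk
    rw [if_pos (by simp [bs])]
    exact he.ring 0 1 0 i
  have hb := le_bs j
  rw [if_neg (by omega)]
  have hl := lev_wall h1 h2.le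
  split_ifs at hl with h
  · have e : lev (bs j + k - 1) + 1 = j := by omega
    exact (key _ _ j k e (by rw [e]; omega)).trans (he.ring j k 0 i)
  · obtain ⟨a, rfl⟩ : ∃ a, k = Lb j + a := ⟨k - Lb j, by omega⟩
    have e : lev (bs j + (Lb j + a) - 1) + 1 = j + 1 := by rw [hl]
    exact (key _ _ (j + 1) a e (by rw [hl, bs]; omega)).trans
      (he.two j a i 0 (by omega) (by unfold NN at h2; omega)).symm

theorem Eqs.sol {x : Prm} (he : Eqs x) (hx : InK x) : frm.Sol x.dat (CC x) := by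
  refine ⟨fun ν => ?_, he.ver, he.bh, fun ν => ?_,
    sum_ra_rot hx.adm perm_rot hx.dat_rot uu_ne⟩
  · rcases Nat.eq_zero_or_pos ν.j with hj | hj
    · exact hx.hor_zero ν hj
    have e := he.force ν.j ν.k ν.i
    rw [Prm.Ft, Fix2_ext] at e
    have h0 : (0 : ℝ) < PP ν.j := lt_of_lt_of_le (by norm_num) (PP_ge ν.j)
    have hb : (0 : ℝ) < x.bq ν.j ν.k ν.i := lt_of_lt_of_le (by positivity) (hx.bq_ge ν)
    have hp := hx.pos_ge (ν, false) hj
    rw [symm_pp] at hp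
    have hr := rho_pos ν.j
    have hp' : x.pp ν.j ν.k ν.i ≠ 0 := norm_pos_iff.1 (lt_of_lt_of_le (by positivity) hp)
    exact (mul_eq_zero.1 ((div_eq_zero_iff.1 e).resolve_right
      (mul_ne_zero two_ne_zero (ofReal_ne_zero.2 hb.ne')))).resolve_left hp'
  · have e := CC_step he ν
    rwa [Prm.Dt, Fix2_ext] at e

end Pool.Agent.MP_943ae2_gt
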