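import Pool.Agent.MP_943ae2_gt.Ring1

open Set Complex Filter Finset
open scoped Topology ComplexConjugate ContDiff

noncomputable section

namespace Pool.Agent.MP_943ae2_gt

variable (n : ℕ) [NeZero n]

theorem four_ne (k : ℕ) (i : ZMod n) : un n k i ≠ 0 := fun h => by
  have := norm_un n k i
  rw [h, norm_zero] at this
  exact zero_ne_one this

theorem four_chi_ne {d : ZMod n} (hd : d ≠ 0) : (ZMod.stdAddChar d : ℂ) ≠ 1 := fun h =>
  hd (ZMod.injective_stdAddChar (h.trans (AddChar.map_zero_eq_one _).symm))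

theorem four_orth (a : ZMod n) :
    ∑ m ∈ range n, (ZMod.stdAddChar a : ℂ) ^ m = if a = 0 then (n : ℂ) else 0 := by
  split_ifs with h
  · simp [h]
  · rw [geom_sum_eq (four_chi_ne n h), chi_pow, sub_self, zero_div]

theorem four_pow_sub (k : ℕ) (i : ZMod n) {m : ℕ} (hm : m ≤ n) :
    un n k i ^ (n - m) = (-1) ^ k * conj (un n k i) ^ m := by
  rw [pow_sub₀ _ (four_ne n k i) hm, un_pow, ← Complex.inv_eq_conj (norm_un n k i), inv_pow]

theorem four_conv (f g : ℕ → ZMod n → ℝ) (K : ZMod n → ℝ) (k k' : ℕ) (c : ℂ)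
    (hc : ∀ i j, un n k' j / un n k i = c * ZMod.stdAddChar (j - i)) :
    ∑ i, ∑ j, K (j - i) * f k i * g k' j = (∑ m ∈ range n,
      ((∑ d, (K d : ℂ) * (c * ZMod.stdAddChar d) ^ m) *
        (hat n f m k * conj (hat n g m k'))).re) / n := by
  have hn : (n : ℝ) ≠ 0 := Nat.cast_ne_zero.2 (NeZero.ne n)
  have e : ∀ d i j : ZMod n, c * ZMod.stdAddChar d * (un n k i * conj (un n k' j)) =
      ZMod.stdAddChar (d - (j - i)) := fun d i j => by
    have h1 := hc i j
    have h2 := four_ne n k i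
    have h3 := four_ne n k' j
    have h4 : (ZMod.stdAddChar d : ℂ) = ZMod.stdAddChar (d - (j - i)) * ZMod.stdAddChar (j - i) := by
      rw [← AddChar.map_add_eq_mul, sub_add_cancel]
    rw [div_eq_iff h2] at h1
    rw [← Complex.inv_eq_conj (norm_un n k' j), h4]
    field_simp
    linear_combination (-ZMod.stdAddChar (d - (j - i))) * h1
  have e1 : ∀ m : ℕ, (∑ d, (K d : ℂ) * (c * ZMod.stdAddChar d) ^ m) *
      (hat n f m k * conj (hat n g m k')) = ∑ i, ∑ j, ∑ d,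
        ((K d * f k i * g k' j : ℝ) : ℂ) * ZMod.stdAddChar (d - (j - i)) ^ m := fun m => by
    simp only [hat, map_sum, map_mul, map_pow, conj_ofReal]
    rw [Finset.sum_mul_sum univ univ (fun i => (f k i : ℂ) * un n k i ^ m), Finset.mul_sum]
    refine Finset.sum_congr rfl fun i _ => ?_
    rw [Finset.mul_sum]
    refine Finset.sum_congr rfl fun j _ => ?_
    rw [Finset.sum_mul]
    refine Finset.sum_congr rfl fun d _ => ?_
    rw [← e]
    push_cast
    ring
  rw [← re_sum, eq_div_iff hn]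
  simp only [e1]
  have e2 : ∑ m ∈ range n, ∑ i, ∑ j, ∑ d, ((K d * f k i * g k' j : ℝ) : ℂ) *
      ZMod.stdAddChar (d - (j - i)) ^ m = (((∑ i, ∑ j, K (j - i) * f k i * g k' j) * n : ℝ) : ℂ) := by
    rw [Finset.sum_comm, Finset.sum_mul, ofReal_sum]
    refine Finset.sum_congr rfl fun i _ => ?_
    rw [Finset.sum_comm, Finset.sum_mul, ofReal_sum]
    refine Finset.sum_congr rfl fun j _ => ?_
    rw [Finset.sum_comm]
    simp only [← Finset.mul_sum, four_orth, sub_eq_zero, mul_ite, mul_zero]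
    rw [Finset.sum_ite_eq' univ (j - i), if_pos (Finset.mem_univ _)]
    push_cast
    ring
  rw [e2, ofReal_re]

theorem four_E {m : ℕ} (hm : m + 1 ≤ n) :
    ∑ d ∈ univ.erase (0 : ZMod n), (ZMod.stdAddChar d : ℂ) ^ (m + 1) * kap (ZMod.stdAddChar d) =
      m - (n - 1) / 2 := by
  have st : ∀ m : ℕ, ∑ d ∈ univ.erase (0 : ZMod n), (ZMod.stdAddChar d : ℂ) ^ (m + 1) *
      kap (ZMod.stdAddChar d) = ∑ d ∈ univ.erase (0 : ZMod n), (ZMod.stdAddChar d : ℂ) ^ m *
      kap (ZMod.stdAddChar d) - (∑ d : ZMod n, (ZMod.stdAddChar d : ℂ) ^ m - 1) := fun m => by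
    rw [← Finset.add_sum_erase univ _ (mem_univ (0 : ZMod n)), AddChar.map_zero_eq_one, one_pow,
      add_sub_cancel_left, ← Finset.sum_sub_distrib]
    refine Finset.sum_congr rfl fun d hd => ?_
    have := sub_ne_zero.2 (four_chi_ne n (Finset.ne_of_mem_erase hd)).symm
    unfold kap
    field_simp
    ring
  induction m with
  | zero =>
    have := sum_kap_same n 0 0
    simp only [un_div, sub_zero] at this
    rw [st]
    simp only [pow_zero, one_mul, this, Finset.sum_const, card_univ, ZMod.card, nsmul_eq_mul]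
    push_cast
    ring
  | succ m ih =>
    rw [st, ih (by omega), sum_chi_pow n (by omega) (by omega)]
    push_cast
    ring

theorem four_KK {d : ZMod n} (hd : d ≠ 0) : (Wall.KK (ZMod.stdAddChar d) : ℂ) =
    -(ZMod.stdAddChar d * kap (ZMod.stdAddChar d) ^ 2) := by
  have h1 := sub_ne_zero.2 (four_chi_ne n hd).symm
  have h2 := Complex.inv_eq_conj (norm_chi n d)
  have h0 : (ZMod.stdAddChar d : ℂ) ≠ 0 := fun h => by
    have := norm_chi n d
    rw [h, norm_zero] at this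
    exact zero_ne_one this
  unfold Wall.KK
  rw [ofReal_neg, conj_eq_iff_re.1]
  simp only [kap, map_mul, map_pow, map_div₀, map_one, map_sub, ← h2]
  generalize (ZMod.stdAddChar d : ℂ) = l at *
  have h3 : l - 1 ≠ 0 := fun h => h1 (by linear_combination -h)
  field_simp
  ring

theorem four_refl (G : ℂ → ℂ) (hG : ∀ l, G (conj l) = conj (G l)) (r : ℝ) {m : ℕ} (hm : m ≤ n) :
    ∑ d : ZMod n, ((G (r * (ze n * ZMod.stdAddChar d))).re : ℂ) * (ze n * ZMod.stdAddChar d) ^ m =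
      (∑ d : ZMod n, G (r * (ze n * ZMod.stdAddChar d)) * (ze n * ZMod.stdAddChar d) ^ m -
        ∑ d : ZMod n, G (r * (ze n * ZMod.stdAddChar d)) *
          (ze n * ZMod.stdAddChar d) ^ (n - m)) / 2 := by
  have e : ∀ d : ZMod n, ze n * ZMod.stdAddChar d = un n 1 d := fun d => by rw [un, pow_one]
  simp only [e]
  rw [← Equiv.sum_comp (Equiv.subLeft (-((1 : ℕ) : ZMod n)))
    (fun d => G (r * un n 1 d) * un n 1 d ^ (n - m)), ← Finset.sum_sub_distrib, Finset.sum_div]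
  refine Finset.sum_congr rfl fun d _ => ?_
  have h1 : Equiv.subLeft (-((1 : ℕ) : ZMod n)) d = -d - ((1 : ℕ) : ZMod n) := by
    rw [Equiv.subLeft_apply]; ring
  rw [h1, four_pow_sub n 1 _ hm, un_refl, conj_conj, ← conj_ofReal r, ← map_mul, hG, conj_ofReal,
    re_eq_add_conj]
  ring

theorem four_z {r : ℝ} (hr : 0 < r) : ((r : ℂ) * ze n) ^ n = -(r : ℂ) ^ n ∧
    ((r : ℂ) * ze n) ^ n ≠ 1 ∧ 1 + (r : ℂ) ^ n ≠ 0 := by
  have h1 : ((r : ℂ) * ze n) ^ n = -(r : ℂ) ^ n := by rw [mul_pow, ze_pow]; ring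
  have h2 : 1 + (r : ℂ) ^ n ≠ 0 := by exact_mod_cast (by positivity : (1 + r ^ n : ℝ) ≠ 0)
  exact ⟨h1, fun h => h2 (by linear_combination h1 - h), h2⟩

theorem four_zz (r : ℝ) {m : ℕ} (hm : m ≤ n) :
    ze n ^ m * ((r : ℂ) * ze n) ^ (n - m) = -(r : ℂ) ^ (n - m) := by
  rw [mul_pow, mul_left_comm, ← pow_add, Nat.add_sub_cancel' hm, ze_pow]
  ring

theorem four_U {r : ℝ} (hr : 0 < r) {m : ℕ} (h1 : 1 ≤ m) (hm : m ≤ n) :
    ∑ d : ZMod n, kap (r * (ze n * ZMod.stdAddChar d)) * (ze n * ZMod.stdAddChar d) ^ m =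
      -(n * (r : ℂ) ^ (n - m) / (1 + (r : ℂ) ^ n)) := by
  obtain ⟨a, b, -⟩ := four_z n hr
  have k := congrArg (ze n ^ m * ·) (sum_kap n b h1 hm)
  simp only [Finset.mul_sum] at k
  rw [a, ← mul_div_assoc, mul_left_comm, four_zz n r hm] at k
  refine (Finset.sum_congr rfl fun d _ => ?_).trans (k.trans (by ring))
  rw [mul_assoc (r : ℂ)]
  ring

theorem four_T {r : ℝ} (hr : 0 < r) {m : ℕ} (hm : m ≤ n) :
    ∑ d : ZMod n, (r * (ze n * ZMod.stdAddChar d)) * kap (r * (ze n * ZMod.stdAddChar d)) ^ 2 *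
      (ze n * ZMod.stdAddChar d) ^ m = -(n * (r : ℂ) ^ (n - m) *
        ((n - m) * (1 + (r : ℂ) ^ n) - n * (r : ℂ) ^ n) / (1 + (r : ℂ) ^ n) ^ 2) := by
  obtain ⟨a, b, -⟩ := four_z n hr
  have key : ∀ m : ℕ, 1 ≤ m → m ≤ n → ∑ d : ZMod n, (r * (ze n * ZMod.stdAddChar d)) *
      kap (r * (ze n * ZMod.stdAddChar d)) ^ 2 * (ze n * ZMod.stdAddChar d) ^ m =
      -(n * (r : ℂ) ^ (n - m) * ((n - m) * (1 + (r : ℂ) ^ n) - n * (r : ℂ) ^ n) /
        (1 + (r : ℂ) ^ n) ^ 2) := fun m h1 hm => by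
    have k := congrArg (ze n ^ m * ·) (sum_kap_sq n b h1 hm)
    simp only [Finset.mul_sum] at k
    rw [a, ← mul_div_assoc, ← mul_assoc, mul_left_comm, four_zz n r hm] at k
    refine (Finset.sum_congr rfl fun d _ => ?_).trans (k.trans (by ring))
    rw [mul_assoc (r : ℂ)]
    ring_nf
  rcases Nat.eq_zero_or_pos m with rfl | h1
  · have k := key n (Nat.pos_of_ne_zero (NeZero.ne n)) le_rfl
    simp only [mul_pow, ze_pow, chi_pow, mul_one, mul_neg, Finset.sum_neg_distrib, neg_inj] at k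
    simp only [pow_zero, mul_one]
    rw [k, Nat.sub_self, Nat.sub_zero]
    push_cast
    ring
  · exact key m h1 hm

theorem four_exp (y : ℝ) {m : ℕ} (hm : m ≤ n) :
    Real.exp (-y / n) ^ m = (Real.exp (m / n * y))⁻¹ ∧
      Real.exp (-y / n) ^ (n - m) = (Real.exp ((1 - m / n) * y))⁻¹ ∧
      Real.exp (-y / n) ^ n = (Real.exp (m / n * y) * Real.exp ((1 - m / n) * y))⁻¹ := by
  have hn : (n : ℝ) ≠ 0 := Nat.cast_ne_zero.2 (NeZero.ne n)
  simp only [← Real.exp_nat_mul, ← Real.exp_add, ← Real.exp_neg, Nat.cast_sub hm]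
  refine ⟨?_, ?_, ?_⟩ <;> congr 1 <;> field_simp
  ring

theorem hat_zero {f : ℕ → ZMod n → ℝ} {k : ℕ} (h : ∑ i, f k i = 0) : hat n f 0 k = 0 := by
  simp only [hat, pow_zero, mul_one]
  exact_mod_cast h

theorem hat_symm (f : ℕ → ZMod n → ℝ) {m : ℕ} (hm : m ≤ n) (k : ℕ) :
    hat n f (n - m) k = (-1) ^ k * conj (hat n f m k) := by
  simp only [hat, map_sum, map_mul, map_pow, conj_ofReal, Finset.mul_sum, four_pow_sub n k _ hm]
  exact Finset.sum_congr rfl fun i _ => by ring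

theorem parseval (f g : ℕ → ZMod n → ℝ) (k : ℕ) :
    ∑ i, f k i * g k i = (∑ m ∈ range n, (hat n f m k * conj (hat n g m k)).re) / n := by
  have h := four_conv n f g (fun d => if d = 0 then 1 else 0) k k 1 fun i j => by
    rw [un_div, one_mul]
  have e : ∀ m : ℕ, ∑ d : ZMod n, (((if d = 0 then 1 else 0 : ℝ)) : ℂ) *
      (1 * ZMod.stdAddChar d) ^ m = 1 := fun m => by
    rw [Finset.sum_eq_single 0] <;> simp +contextual
  simp only [e] at h
  simpa only [one_mul, sub_eq_zero, ite_mul, zero_mul, Finset.sum_ite_eq', Finset.mem_univ, if_true]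
    using h

theorem conv_same (f g : ℕ → ZMod n → ℝ) (K : ZMod n → ℝ) (k : ℕ) :
    ∑ i, ∑ j, K (j - i) * f k i * g k j = (∑ m ∈ range n,
      ((∑ d, (K d : ℂ) * ZMod.stdAddChar d ^ m) * (hat n f m k * conj (hat n g m k))).re) / n := by
  simpa only [one_mul] using four_conv n f g K k k 1 fun i j => by rw [un_div, one_mul]

theorem conv_cross (f g : ℕ → ZMod n → ℝ) (K : ZMod n → ℝ) (k : ℕ) :
    ∑ i, ∑ j, K (j - i) * f k i * g (k + 1) j = (∑ m ∈ range n,
      ((∑ d, (K d : ℂ) * (ze n * ZMod.stdAddChar d) ^ m) *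
        (hat n f m k * conj (hat n g m (k + 1)))).re) / n :=
  four_conv n f g K k (k + 1) (ze n) (un_succ_div n k)

theorem p0_div_same (w : Wall) (k : ℕ) (i j : ZMod n) :
    w.p0 n k j / w.p0 n k i = ZMod.stdAddChar (j - i) := by
  unfold Wall.p0
  rw [mul_div_mul_left _ _ (ofReal_ne_zero.2 (Real.exp_pos _).ne'), un_div]

theorem p0_div_cross (w : Wall) (k : ℕ) (i j : ZMod n) :
    w.p0 n (k + 1) j / w.p0 n k i =
      (Real.exp (-w.y n k / n) : ℝ) * (ze n * ZMod.stdAddChar (j - i)) := by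
  have hn : (n : ℝ) ≠ 0 := Nat.cast_ne_zero.2 (NeZero.ne n)
  unfold Wall.p0 Wall.y
  rw [mul_div_mul_comm, un_succ_div, ← ofReal_div, ← Real.exp_sub]
  congr 3
  field_simp
  ring

theorem K_same {m : ℕ} (hm : m ≤ n) :
    ∑ d ∈ univ.erase (0 : ZMod n), (Wall.KK (ZMod.stdAddChar d) : ℂ) *
      (1 - ZMod.stdAddChar d ^ m) = m * (n - m) / 2 := by
  induction m with
  | zero => simp
  | succ m ih =>
    have e : ∑ d ∈ univ.erase (0 : ZMod n), (Wall.KK (ZMod.stdAddChar d) : ℂ) *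
        (1 - ZMod.stdAddChar d ^ (m + 1)) = ∑ d ∈ univ.erase (0 : ZMod n),
        (Wall.KK (ZMod.stdAddChar d) : ℂ) * (1 - ZMod.stdAddChar d ^ m) -
        ∑ d ∈ univ.erase (0 : ZMod n), (ZMod.stdAddChar d : ℂ) ^ (m + 1) *
          kap (ZMod.stdAddChar d) := by
      rw [← Finset.sum_sub_distrib]
      refine Finset.sum_congr rfl fun d hd => ?_
      have := sub_ne_zero.2 (four_chi_ne n (Finset.ne_of_mem_erase hd)).symm
      rw [four_KK n (Finset.ne_of_mem_erase hd)]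
      unfold kap
      field_simp
      ring
    rw [e, ih (by omega), four_E n hm]
    push_cast
    ring

theorem K_cross (w : Wall) (k : ℕ) {m : ℕ} (hm : m ≤ n) :
    ∑ d : ZMod n, (Wall.KK ((Real.exp (-w.y n k / n) : ℝ) * (ze n * ZMod.stdAddChar d)) : ℂ) *
      (ze n * ZMod.stdAddChar d) ^ m = ((n : ℝ) ^ 2 * w.Ak n m k : ℝ) := by
  have hn : (n : ℝ) ≠ 0 := Nat.cast_ne_zero.2 (NeZero.ne n)
  have hr := Real.exp_pos (-w.y n k / n)
  have h := four_refl n (fun l => l * kap l ^ 2) (fun l => by simp [kap]) (Real.exp (-w.y n k / n)) hm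
  rw [four_T n hr hm, four_T n hr (Nat.sub_le n m), Nat.sub_sub_self hm, Nat.cast_sub hm] at h
  simp only [Wall.KK, ofReal_neg, neg_mul, Finset.sum_neg_distrib]
  rw [h]
  norm_cast
  obtain ⟨e1, e2, e3⟩ := four_exp n (w.y n k) hm
  have e4 : Real.exp (w.y n k) = Real.exp (m / n * w.y n k) * Real.exp ((1 - m / n) * w.y n k) := by
    rw [← Real.exp_add]; congr 1; ring
  rw [e1, e2, e3]
  simp only [Wall.Ak, Wall.tk, Real.cosh_eq, Real.exp_neg, e4, Nat.cast_sub hm]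
  have a0 := Real.exp_pos (m / n * w.y n k)
  have b0 := Real.exp_pos ((1 - m / n) * w.y n k)
  generalize Real.exp (m / n * w.y n k) = a at *
  generalize Real.exp ((1 - m / n) * w.y n k) = b at *
  push_cast [Nat.cast_sub hm]
  field_simp
  ring

theorem P_cross (w : Wall) (k : ℕ) {m : ℕ} (h1 : 1 ≤ m) (h2 : m < n) :
    ∑ d : ZMod n, ((kap ((Real.exp (-w.y n k / n) : ℝ) * (ze n * ZMod.stdAddChar d))).re : ℂ) *
      (ze n * ZMod.stdAddChar d) ^ m = ((n : ℝ) * w.ph n m k / 2 : ℝ) := by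
  have hr := Real.exp_pos (-w.y n k / n)
  rw [four_refl n kap (fun l => by simp [kap]) _ h2.le, four_U n hr h1 h2.le,
    four_U n hr (by omega) (Nat.sub_le n m), Nat.sub_sub_self h2.le]
  norm_cast
  obtain ⟨e1, e2, e3⟩ := four_exp n (w.y n k) h2.le
  have e4 : Real.exp ((1 - m / n) * w.y n k) =
      Real.exp (w.y n k / 2) * Real.exp ((1 / 2 - m / n) * w.y n k) := by
    rw [← Real.exp_add]; congr 1; ring
  have e5 : Real.exp (m / n * w.y n k) =
      Real.exp (w.y n k / 2) * (Real.exp ((1 / 2 - m / n) * w.y n k))⁻¹ := by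
    rw [← Real.exp_neg, ← Real.exp_add]; congr 1; ring
  rw [e1, e2, e3, e4, e5]
  simp only [Wall.ph, Real.cosh_eq, Real.sinh_eq, Real.exp_neg]
  have a0 := Real.exp_pos (w.y n k / 2)
  have b0 := Real.exp_pos ((1 / 2 - m / n) * w.y n k)
  generalize Real.exp (w.y n k / 2) = a at *
  generalize Real.exp ((1 / 2 - m / n) * w.y n k) = b at *
  field_simp
  ring

end Pool.Agent.MP_943ae2_gt
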