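import Pool.Agent.MP_943ae2_gt.Par

/-! Smooth minimum; the logarithmic potentials on the layers. -/

open Set Complex Filter Finset
open scoped Topology ComplexConjugate ContDiff

noncomputable section

namespace Pool.Agent.MP_943ae2_gt

def chi (x : ℝ) : ℝ :=
  ∫ s in (0:ℝ)..(x + (1 - ∫ s in (0:ℝ)..1, Real.smoothTransition s)), Real.smoothTransition s

def smin (δ a b : ℝ) : ℝ := a - δ * chi ((a - b) / δ)

/-- sum of truncated logarithms -/
def lgs {n : ℕ} [NeZero n] (p : ZMod n → ℂ) (s : ℝ) (z : ℂ) : ℝ :=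
  ∑ i, Real.log (max ‖z - p i‖ s)

def pj (j : ℕ) : ℝ := (23 / 100) ^ j

/-- total current through ring `k` of wall `j` -/
def Af (j k : ℕ) : ℝ :=
  if j = 0 then 0 else if k ≤ Lb j then k * pj j else if k ≤ NN j then (NN j - k) * pj j / 5 else 0

/-- coefficient on the lower sides of ring `k` -/
def al (j k : ℕ) : ℝ := Af j k / nn j

/-- coefficient on the upper sides of ring `k` -/
def ap (j k : ℕ) : ℝ := if k = 0 then 0 else (Af j k + pj j / 100) / nn j

/-- coefficient at the origin on the local layer `i` -/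
def po (j i : ℕ) : ℝ := if i ≤ Lb j then nn j * (al j i - ap j (i - 1)) else 0

def dl (ν : Nk) : ℝ := pj ν.j / 100 / nn ν.j

namespace Prm

variable (x : Prm)

def xr (j k : ℕ) : ℝ := x.lr j k - ell j

def h1 (j k : ℕ) : ℝ :=
  al j k * (Real.log (nn j) + (nn j - 1) * x.xr j k) -
    ap j (k - 1) * (nn j * x.xr j k + Real.log (1 + Real.exp (x.y j (k - 1)))) - po j k * x.xr j k

def h2 (j k : ℕ) : ℝ :=
  -ap j k * (Real.log (nn j) + (nn j - 1) * x.xr j k) +
    al j (k + 1) * (nn j * x.xr j k + Real.log (1 + Real.exp (-x.y j k))) - po j (k + 1) * x.xr j k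

def dV (j k : ℕ) : ℝ :=
  (ap j k + al j k) * (Real.log ((x.wall j).c k) - ell j) - x.h2 j k + x.h1 j k

def V1 : ℕ → ℝ
  | 0 => 100 * ell 0
  | j + 1 => V1 j + ∑ i ∈ Ico 1 (Lb j + 1), x.dV j i - 66 / 100 * pj j * ell j

def VV (j k : ℕ) : ℝ := x.V1 j + ∑ i ∈ Ico 1 k, x.dV j i

/-- the potential adapted to wall `j` on its local layer `i` -/
def fl (j i : ℕ) (z : ℂ) : ℝ :=
  x.VV j i + wallSum (fun e => (if e.2 then -ap e.1.j e.1.k else al e.1.j e.1.k) *
    Real.log (‖z - x.dat.pos e‖ / rho j)) j i - po j i * Real.log (‖z‖ / rho j)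

/-- the potential on layer `a` of block `j` -/
def fb (j a : ℕ) (z : ℂ) : ℝ :=
  if ‖z‖ ≤ 3 * rho j then x.fl j (Lb j + a) z
  else if rho (j + 1) / 3 ≤ ‖z‖ then x.fl (j + 1) a z
  else smin (pj j) (x.fl j (Lb j + a) z) (x.fl (j + 1) a z)

def phi (l : ℕ) (z : ℂ) : ℝ :=
  if l = 0 then x.fl 0 1 z else x.fb (lev l) (l + 1 - bs (lev l + 1)) z

end Prm

end Pool.Agent.MP_943ae2_gt
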