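import Pool.Agent.MP_943ae2_gt.AdmM
import Pool.Agent.MP_943ae2_gt.Pot0

open Set Complex Filter Finset
open scoped Topology ComplexConjugate ContDiff

noncomputable section

namespace Pool.Agent.MP_943ae2_gt

/-- truncated logarithmic potential of the lower or upper sides of a ring -/
def Prm.G (x : Prm) (s : Bool) (j k : ℕ) (z : ℂ) : ℝ :=
  ringSum (fun e => (if e.2 then 1 else -1) * (frm.rab x.dat e).re *
    Real.log (max ‖z - x.dat.pos e‖ (frm.Rs e))) s j k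

/-- contribution of wall `j` to the gap at its ring `k` -/
def Prm.Br (x : Prm) (j k : ℕ) (z : ℂ) : ℝ :=
  x.G true j k z + x.G false j k z - x.G false j (k + 1) z - x.G true j (k - 1) z

def mx (j : ℕ) (z : ℂ) : ℝ := Real.log (max ‖z‖ (rho j))

lemma Gap0_out (x : Prm) (s : Bool) {j k : ℕ} (h : k = 0 ∨ NN j ≤ k) (z : ℂ) : x.G s j k z = 0 := by
  unfold Prm.G ringSum
  rw [dif_neg (by omega)]

lemma Gap0_wall (x : Prm) (j i : ℕ) (z : ℂ) :
    wallSum (fun e => (frm.rab x.dat e).re * Real.log (max ‖z - x.dat.pos e‖ (frm.Rs e))) j i =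
      x.G true j (i - 1) z - x.G false j i z := by
  unfold wallSum Prm.G ringSum
  rw [add_comm, sub_eq_add_neg]
  congr 1
  · split_ifs <;> simp
  · split_ifs <;> simp

lemma Gap0_block (x : Prm) (C : ℕ → ℝ) {j a l : ℕ} (h1 : 1 ≤ a) (h2 : a ≤ Mt j)
    (hl : l = bs (j + 1) + a - 1) (z : ℂ) :
    frm.Ut x.dat C l z = C l +
      ((x.G true j (Lb j + a - 1) z - x.G false j (Lb j + a) z) +
        (x.G true (j + 1) (a - 1) z - x.G false (j + 1) a z)) := by
  subst hl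
  unfold Frm.Ut
  rw [sum_sides_block _ h1 h2, Gap0_wall, Gap0_wall]

theorem Ut_zero (x : Prm) (C : ℕ → ℝ) (z : ℂ) : frm.Ut x.dat C 0 z = C 0 - x.G false 0 1 z := by
  unfold Frm.Ut
  rw [sum_sides_zero, Gap0_wall, Gap0_out x true (Or.inl rfl)]
  ring

theorem gap_zero (x : Prm) (C : ℕ → ℝ) (z : ℂ) :
    frm.Ut x.dat C 1 z - frm.Ut x.dat C 0 z = C 1 - C 0 + x.Br 0 1 z + x.Br 1 0 z := by
  rw [Ut_zero, Gap0_block x C (j := 0) (a := 1) (l := 1) le_rfl le_rfl rfl]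
  unfold Prm.Br
  simp only [Lb_zero, Nat.reduceAdd, Nat.add_one_sub_one, Nat.zero_sub, Nat.sub_self, zero_add]
  rw [Gap0_out x true (j := 0) (k := 0) (Or.inl rfl), Gap0_out x true (j := 1) (k := 0) (Or.inl rfl),
    Gap0_out x false (j := 1) (k := 0) (Or.inl rfl)]
  ring

theorem gap_int (x : Prm) (C : ℕ → ℝ) {j a : ℕ} (h1 : 1 ≤ a) (h2 : a < Mt j) (z : ℂ) :
    frm.Ut x.dat C (bs (j + 1) + a) z - frm.Ut x.dat C (bs (j + 1) + a - 1) z =
      C (bs (j + 1) + a) - C (bs (j + 1) + a - 1) + x.Br j (Lb j + a) z + x.Br (j + 1) a z := by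
  rw [Gap0_block x C (j := j) (a := a + 1) (l := bs (j + 1) + a) (by omega) h2 (by omega),
    Gap0_block x C h1 h2.le rfl]
  unfold Prm.Br
  rw [show Lb j + (a + 1) - 1 = Lb j + a by omega, show Lb j + (a + 1) = Lb j + a + 1 by omega,
    show a + 1 - 1 = a by omega]
  ring

theorem gap_face (x : Prm) (C : ℕ → ℝ) (j : ℕ) (z : ℂ) :
    frm.Ut x.dat C (bs (j + 2)) z - frm.Ut x.dat C (bs (j + 2) - 1) z =
      C (bs (j + 2)) - C (bs (j + 2) - 1) + x.Br j (NN j) z + x.Br (j + 1) (Lb (j + 1)) z +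
        x.Br (j + 2) 0 z := by
  have hb : bs (j + 2) = bs (j + 1) + Mt j := rfl
  rw [Gap0_block x C (j := j + 1) (a := 1) (l := bs (j + 2)) le_rfl (Mt_pos _) rfl,
    Gap0_block x C (j := j) (a := Mt j) (l := bs (j + 2) - 1) (Mt_pos _) le_rfl (by rw [hb])]
  unfold Prm.Br
  rw [show Lb j + Mt j = NN j from rfl, Lb_succ, show Mt j + 1 - 1 = Mt j by omega,
    show j + 1 + 1 = j + 2 from rfl]
  simp only [Nat.sub_self, Nat.zero_sub, zero_add]
  rw [Gap0_out x true (j := j + 2) (k := 0) (Or.inl rfl),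
    Gap0_out x false (j := j + 2) (k := 0) (Or.inl rfl),
    Gap0_out x true (j := j) (k := NN j) (Or.inr le_rfl),
    Gap0_out x false (j := j) (k := NN j + 1) (Or.inr (Nat.le_succ _))]
  ring

lemma Gap0_log {a b η : ℝ} (hb : 0 < b) (hη : η ≤ 1 / 2) (h : |a - b| ≤ η * b) :
    |Real.log a - Real.log b| ≤ 2 * η := by
  obtain ⟨h1, h2⟩ := abs_le.1 h
  have h0 : 0 ≤ η * b := (abs_nonneg _).trans h
  have hη0 : 0 ≤ η := nonneg_of_mul_nonneg_left h0 hb
  have h3 : η * b ≤ 1 / 2 * b := mul_le_mul_of_nonneg_right hη hb.le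
  have ha : 0 < a := by linarith
  rw [abs_le]
  constructor
  · have h4 := Real.log_le_sub_one_of_pos (div_pos hb ha)
    rw [Real.log_div hb.ne' ha.ne'] at h4
    have h5 : b / a ≤ 1 + 2 * η := by
      rw [div_le_iff₀ ha]
      nlinarith
    linarith
  · have h4 := Real.log_le_sub_one_of_pos (div_pos ha hb)
    rw [Real.log_div ha.ne' hb.ne'] at h4
    have h5 : a / b ≤ 1 + η := by
      rw [div_le_iff₀ hb]
      linarith
    linarith

lemma Gap0_PP2 (j : ℕ) : PP j * tt j ≤ 1 / 1000 := by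
  have h1 := admM_pow_tt j (m := 2) (by norm_num)
  have h2 := Mac2_PP_one j
  have h3 := tt_pos j
  have h4 : 1000 * (PP j * tt j) ≤ PP j * (PP j * tt j) :=
    mul_le_mul_of_nonneg_right h2 (by positivity)
  nlinarith

namespace InK

variable {x : Prm} (hx : InK x)
include hx

lemma Gap0_key (s : Bool) (j k : ℕ) (z : ℂ) {L δ : ℝ} (hδ : 0 ≤ δ)
    (h : ∀ i h1 h2, |Real.log (max ‖z - x.dat.pos (⟨j, k, i, h1, h2⟩, s)‖ ((tt j)⁻¹ ^ 12)) - L| ≤ δ) :
    |x.G s j k z - x.w j k * L| ≤ tt j ^ 28 * |L| + PP j * δ := by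
  have ht := tt_pos j
  have hP := admM_PP_pos j
  by_cases hk : 1 ≤ k ∧ k < NN j
  · have hn : (nn j : ℝ) * tt j ^ 29 ≤ tt j ^ 28 := by
      have h1 := Mac2_nn_le j
      have h2 := admM_PP_tt j
      have h3 : (nn j : ℝ) * tt j ≤ 1 := (mul_le_mul_of_nonneg_right h1 ht.le).trans h2
      calc (nn j : ℝ) * tt j ^ 29 = (nn j * tt j) * tt j ^ 28 := by ring
        _ ≤ 1 * tt j ^ 28 := mul_le_mul_of_nonneg_right h3 (by positivity)
        _ = _ := one_mul _
    have h28 : tt j ^ 28 ≤ 1 := pow_le_one₀ ht.le (admM_tt_one j)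
    have hw : x.w j k + tt j ^ 28 ≤ PP j := by
      have h1 := hx.w_le j k
      have h2 := hx.Mac2_W_le j
      have h3 := Mac2_PP_one j
      linarith
    unfold Prm.G ringSum
    rw [dif_pos hk, ← hx.sum_bq j k, sum_mul, ← sum_sub_distrib]
    refine (abs_sum_le_sum_abs _ _).trans ?_
    have hb : ∀ i : ZMod (nn j), |(if s then 1 else -1) *
        (frm.rab x.dat (⟨j, k, i, hk.1, hk.2⟩, s)).re *
        Real.log (max ‖z - x.dat.pos (⟨j, k, i, hk.1, hk.2⟩, s)‖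
          (frm.Rs (⟨j, k, i, hk.1, hk.2⟩, s))) - x.bq j k i * L| ≤
        tt j ^ 29 * |L| + (x.bq j k i + tt j ^ 29) * δ := by
      intro i
      have h1 := hx.rab_re (⟨j, k, i, hk.1, hk.2⟩, s)
      have h2 := h i hk.1 hk.2
      have h3 : 0 ≤ x.bq j k i :=
        le_trans (by positivity) (hx.bq_ge ⟨j, k, i, hk.1, hk.2⟩)
      dsimp only at h1
      change |_ * Real.log (max _ ((tt j)⁻¹ ^ 12)) - _| ≤ _
      generalize (if s then 1 else -1) * (frm.rab x.dat (⟨j, k, i, hk.1, hk.2⟩, s)).re = a at h1 ⊢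
      generalize Real.log (max ‖z - x.dat.pos (⟨j, k, i, hk.1, hk.2⟩, s)‖ ((tt j)⁻¹ ^ 12)) = l
        at h2 ⊢
      have h4 : |a| ≤ x.bq j k i + tt j ^ 29 := by
        have := abs_le.1 h1
        have h5 : 0 < tt j ^ 29 := by positivity
        rw [abs_le]; constructor <;> linarith
      calc |a * l - x.bq j k i * L| = |(a - x.bq j k i) * L + a * (l - L)| := by ring_nf
        _ ≤ |(a - x.bq j k i) * L| + |a * (l - L)| := abs_add_le _ _
        _ = |a - x.bq j k i| * |L| + |a| * |l - L| := by rw [abs_mul, abs_mul]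
        _ ≤ _ := by gcongr
    refine (sum_le_sum fun i _ => hb i).trans ?_
    simp only [sum_add_distrib, add_mul, ← sum_mul, sum_const, card_univ, ZMod.card, nsmul_eq_mul]
    rw [hx.sum_bq j k]
    have h5 := mul_le_mul_of_nonneg_right hn (abs_nonneg L)
    have h6 := mul_le_mul_of_nonneg_right hn hδ
    have h7 := mul_le_mul_of_nonneg_right hw hδ
    nlinarith
  · have hk' : k = 0 ∨ NN j ≤ k := by omega
    have hw : x.w j k = 0 := by
      rcases hk' with rfl | h0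
      · exact x.w_zero j
      · exact x.w_out h0
    rw [Gap0_out x s hk', hw]
    simp only [zero_mul, sub_zero, abs_zero]
    positivity

theorem G_out (s : Bool) (j k : ℕ) {z : ℂ} (hz : (tt j)⁻¹ ^ 40 ≤ ‖z‖) :
    |x.G s j k z - x.w j k * Real.log ‖z‖| ≤ tt j ^ 2 * (1 + Real.log ‖z‖) := by
  have ht := tt_pos j
  have ht1 := tt_le j
  have hi := admM_inv_one j
  have h40 : 1 ≤ (tt j)⁻¹ ^ 40 := one_le_pow₀ hi
  have hz1 : 1 ≤ ‖z‖ := h40.trans hz
  have hl : 0 ≤ Real.log ‖z‖ := Real.log_nonneg hz1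
  have h8 : tt j ^ 8 ≤ 1 / 1000 := (pow_le_of_le_one ht.le (by linarith) (by norm_num)).trans ht1
  have h8' : 0 < tt j ^ 8 := by positivity
  have hr : rho j ≤ tt j ^ 8 * ‖z‖ := by
    have : rho j = tt j ^ 8 * (tt j)⁻¹ ^ 40 := by unfold rho; field_simp
    rw [this]
    exact mul_le_mul_of_nonneg_left hz h8'.le
  have h12 : (tt j)⁻¹ ^ 12 ≤ rho j := pow_le_pow_right₀ hi (by norm_num)
  have hk := hx.Gap0_key s j k z (L := Real.log ‖z‖) (δ := 2 * (2 * tt j ^ 8)) (by positivity) (by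
    intro i h1 h2
    have h3 := hx.pos_le (⟨j, k, i, h1, h2⟩, s)
    dsimp only at h3
    have h4 := abs_norm_sub_norm_le (z - x.dat.pos (⟨j, k, i, h1, h2⟩, s)) z
    rw [sub_sub_cancel_left, norm_neg] at h4
    have h5 := mul_le_mul_of_nonneg_right h8 (norm_nonneg z)
    have h6 := (abs_le.1 h4).1
    have h7 := rho_pos j
    rw [max_eq_left (by linarith)]
    exact Gap0_log (by linarith) (by linarith) (by linarith))
  rw [abs_of_nonneg hl] at hk
  refine hk.trans ?_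
  have h2 : tt j ^ 28 ≤ tt j ^ 2 := pow_le_pow_of_le_one ht.le (by linarith) (by norm_num)
  have h3 : tt j ^ 7 ≤ tt j ^ 2 := pow_le_pow_of_le_one ht.le (by linarith) (by norm_num)
  have h4 := mul_le_mul_of_nonneg_right (Gap0_PP2 j) (show 0 ≤ tt j ^ 7 by positivity)
  have h5 := mul_le_mul_of_nonneg_right h2 hl
  have h6 : 0 < tt j ^ 2 := by positivity
  have h7 : PP j * (2 * (2 * tt j ^ 8)) = 4 * (PP j * tt j * tt j ^ 7) := by ring
  rw [h7]
  nlinarith

theorem G_in (s : Bool) {j : ℕ} (hj : 1 ≤ j) (k : ℕ) {z : ℂ} (hz : ‖z‖ ≤ (tt j)⁻¹ ^ 24) :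
    |x.G s j k z - x.w j k * x.lr j k| ≤ tt j ^ 2 := by
  have ht := tt_pos j
  have ht1 := tt_le j
  have hi := admM_inv_one j
  have h6 : 0 < tt j ^ 2 := by positivity
  by_cases hk0 : NN j ≤ k
  · rw [Gap0_out x s (Or.inr hk0), x.w_out hk0]
    simp only [zero_mul, sub_zero, abs_zero]
    exact h6.le
  have hkN : k ≤ NN j := by omega
  have h3 := Pos_t3 j
  have h3' : 0 < tt j ^ 3 := by positivity
  have hρ := rho_pos j
  obtain ⟨he1, he2⟩ := hx.Pos_exp hj hkN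
  have h24 : (tt j)⁻¹ ^ 24 ≤ tt j ^ 3 * rho j / 2 := by
    have e1 : (tt j)⁻¹ ^ 24 = tt j ^ 5 * (tt j ^ 3 * rho j) := by unfold rho; field_simp
    have e2 : tt j ^ 5 ≤ 1 / 2 :=
      (pow_le_of_le_one ht.le (by linarith) (by norm_num)).trans (by linarith)
    have e3 := mul_le_mul_of_nonneg_right e2 (mul_pos h3' hρ).le
    linarith
  have h12 : (tt j)⁻¹ ^ 12 ≤ (tt j)⁻¹ ^ 24 := pow_le_pow_right₀ hi (by norm_num)
  have hE := Real.exp_pos (x.lr j k)
  have hk := hx.Gap0_key s j k z (L := x.lr j k) (δ := 2 * (3 * tt j ^ 3)) (by positivity) (by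
    intro i h1 h2
    have h4 := hx.pos_near (⟨j, k, i, h1, h2⟩, s) hj
    dsimp only at h4
    have h5 := abs_norm_sub_norm_le (z - x.dat.pos (⟨j, k, i, h1, h2⟩, s))
      (-(((Real.exp (x.lr j k) : ℝ) : ℂ) * un (nn j) k i))
    rw [norm_neg, norm_mul, norm_un, mul_one, norm_real, Real.norm_eq_abs, abs_of_pos hE,
      show z - x.dat.pos (⟨j, k, i, h1, h2⟩, s) - -(((Real.exp (x.lr j k) : ℝ) : ℂ) * un (nn j) k i) =
        z - (x.dat.pos (⟨j, k, i, h1, h2⟩, s) - ((Real.exp (x.lr j k) : ℝ) : ℂ) * un (nn j) k i) by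
        ring] at h5
    have h7 := h5.trans (norm_sub_le _ _)
    have h8 := mul_le_mul_of_nonneg_left he1 h3'.le
    have h9 := mul_le_mul_of_nonneg_right h3 hE.le
    have h10 := mul_pos h3' hρ
    have h11 : |‖z - x.dat.pos (⟨j, k, i, h1, h2⟩, s)‖ - Real.exp (x.lr j k)| ≤
        3 * tt j ^ 3 * Real.exp (x.lr j k) := by linarith
    have h13 := (abs_le.1 h11).1
    rw [max_eq_left (by linarith)]
    have h14 := Gap0_log hE (by linarith) h11
    rwa [Real.log_exp] at h14)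
  refine hk.trans ?_
  have hlr : |x.lr j k| ≤ PP j := by
    have a1 := abs_le.1 (hx.lr_near hj hkN)
    have a2 := ell_le_PP j
    have a3 := ell_succ j
    have a4 := ell_ge j
    have a5 : (1 : ℝ) ≤ 4 ^ j := one_le_pow₀ (by norm_num)
    have a6 : 1 / (1000 * (nn j : ℝ)) ≤ 1 := by
      have := Mac2_nn_one j
      rw [div_le_one (by linarith)]
      linarith
    rw [abs_le]
    constructor <;> linarith
  have b1 := mul_le_mul_of_nonneg_left hlr (show 0 ≤ tt j ^ 28 by positivity)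
  have b2 := mul_le_mul_of_nonneg_right (Gap0_PP2 j) h6.le
  have b3 := mul_le_mul_of_nonneg_right (Gap0_PP2 j) (show 0 ≤ tt j ^ 27 by positivity)
  have b4 : tt j ^ 27 ≤ tt j ^ 2 := pow_le_pow_of_le_one ht.le (by linarith) (by norm_num)
  have b5 : PP j * (2 * (3 * tt j ^ 3)) = 6 * (PP j * tt j * tt j ^ 2) := by ring
  have b6 : tt j ^ 28 * PP j = PP j * tt j * tt j ^ 27 := by ring
  linarith

theorem G_ctr (s : Bool) (z : ℂ) :
    99 / 100 * Real.log (max ‖z‖ ((tt 0)⁻¹ ^ 12)) ≤ x.G s 0 1 z := by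
  have ht := tt_pos 0
  have ht1 := tt_le 0
  have hl : 0 ≤ Real.log (max ‖z‖ ((tt 0)⁻¹ ^ 12)) :=
    Real.log_nonneg (le_max_of_le_right (one_le_pow₀ (admM_inv_one 0)))
  have hk := hx.Gap0_key s 0 1 z (L := Real.log (max ‖z‖ ((tt 0)⁻¹ ^ 12))) (δ := 0) le_rfl (by
    intro i h1 h2
    rw [hx.pos_zero _ rfl, sub_zero, sub_self, abs_zero])
  have hw : x.w 0 1 = 1 := x.w_L 0
  rw [hw, abs_of_nonneg hl, one_mul, mul_zero, add_zero] at hk
  have h28 : tt 0 ^ 28 ≤ 1 / 1000 := (pow_le_of_le_one ht.le (by linarith) (by norm_num)).trans ht1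
  have h1 := mul_le_mul_of_nonneg_right h28 hl
  have h2 := (abs_le.1 hk).1
  linarith

end InK

end Pool.Agent.MP_943ae2_gt
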