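import Pool.Agent.MP_943ae2_gt.Ring1
import Pool.Agent.MP_943ae2_gt.Pot0

open Set Complex Filter Finset
open scoped Topology ComplexConjugate ContDiff

noncomputable section

namespace Pool.Agent.MP_943ae2_gt

lemma Ring2_log {d e t : ℝ} (hd : 0 < d) (h : |e - d| ≤ t * d) (ht : t ≤ 1 / 2) :
    |Real.log e - Real.log d| ≤ 2 * t := by
  obtain ⟨h1, h2⟩ := abs_le.1 h
  have t0 : 0 ≤ t := nonneg_of_mul_nonneg_left ((abs_nonneg _).trans h) hd
  have he : d / 2 ≤ e := by nlinarith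
  have e0 : 0 < e := by linarith
  have a := Real.log_le_sub_one_of_pos (div_pos e0 hd)
  have b := Real.log_le_sub_one_of_pos (div_pos hd e0)
  rw [Real.log_div e0.ne' hd.ne'] at a
  rw [Real.log_div hd.ne' e0.ne'] at b
  have a' : e / d ≤ t + 1 := by rw [div_le_iff₀ hd]; linarith
  have b' : d / e ≤ 2 * t + 1 := by rw [div_le_iff₀ e0]; nlinarith
  exact abs_le.2 ⟨by linarith, by linarith⟩

lemma Ring2_prod (n : ℕ) [NeZero n] (k : ℕ) (r z : ℂ) (i : ZMod n) :
    ∏ j, (z - r * un n k j) = z ^ n - (r * un n k i) ^ n := by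
  rw [← prod_sub_chi, ← Equiv.prod_comp (Equiv.addLeft i)]
  exact Finset.prod_congr rfl fun j _ => by rw [Equiv.coe_addLeft, un_add, mul_assoc]

lemma Ring2_geom (n : ℕ) [NeZero n] (k : ℕ) (r z : ℂ) (i : ZMod n) :
    ∏ j ∈ univ.erase i, (z - r * un n k j) =
      ∑ a ∈ range n, z ^ a * (r * un n k i) ^ (n - 1 - a) := by
  refine congrFun (Continuous.ext_on (f := fun z => ∏ j ∈ univ.erase i, (z - r * un n k j))
    (g := fun z => ∑ a ∈ range n, z ^ a * (r * un n k i) ^ (n - 1 - a))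
    (dense_compl_singleton (r * un n k i)) (by fun_prop) (by fun_prop) fun z hz => ?_) z
  refine mul_right_cancel₀ (sub_ne_zero.2 hz) ?_
  rw [geom_sum₂_mul, ← Ring2_prod n k r z i]
  exact Finset.prod_erase_mul _ (fun j => z - r * un n k j) (Finset.mem_univ i)

lemma Ring2_deriv (n : ℕ) [NeZero n] (k : ℕ) (r z : ℂ) :
    ∑ i, ∏ j ∈ univ.erase i, (z - r * un n k j) = n * z ^ (n - 1) := by
  have h1 := HasDerivAt.fun_finsetProd (u := univ) (x := z) (f := fun j z => z - r * un n k j)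
    (f' := fun _ => 1) fun j _ => (hasDerivAt_id z).sub_const _
  have h2 := (hasDerivAt_pow n z).sub_const ((r * un n k 0) ^ n)
  simp only [Ring2_prod n k r _ 0, smul_eq_mul, mul_one] at h1
  exact h1.unique h2

lemma Ring2_big (n : ℕ) [NeZero n] (k : ℕ) (r z : ℂ) (i : ZMod n)
    (hi : ∀ j, ‖z - r * un n k i‖ ≤ ‖z - r * un n k j‖) :
    ‖z‖ ^ (n - 1) ≤ ∏ j ∈ univ.erase i, ‖z - r * un n k j‖ := by
  have h := congrArg norm (Ring2_deriv n k r z)
  rw [norm_mul, norm_pow, Complex.norm_natCast] at h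
  refine le_of_mul_le_mul_left ?_ (Ring1_pos n)
  rw [← h]
  refine (norm_sum_le _ _).trans ((Finset.sum_le_card_nsmul _ _ _ fun l _ => ?_).trans
    (by rw [Finset.card_univ, ZMod.card, nsmul_eq_mul]))
  rw [norm_prod]
  by_cases hl : l = i
  · rw [hl]
  rw [← Finset.mul_prod_erase _ _ (mem_erase.2 ⟨Ne.symm hl, Finset.mem_univ i⟩),
    ← Finset.mul_prod_erase _ _ (mem_erase.2 ⟨hl, Finset.mem_univ l⟩), Finset.erase_right_comm]
  exact mul_le_mul_of_nonneg_right (hi l) (Finset.prod_nonneg fun _ _ => norm_nonneg _)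

lemma Ring2_nq (n : ℕ) [NeZero n] (k : ℕ) {r : ℝ} (hr : 0 < r) (i : ZMod n) :
    ‖(r : ℂ) * un n k i‖ = r := by
  rw [norm_mul, norm_un, mul_one, Complex.norm_real, Real.norm_of_nonneg hr.le]

lemma Ring2_min (n : ℕ) [NeZero n] (k : ℕ) {r : ℝ} (hr : 0 < r) (z : ℂ) :
    ∃ i, (∀ j, ‖z - r * un n k i‖ ≤ ‖z - r * un n k j‖) ∧
      ∀ j ∈ univ.erase i, r / (2 * n) ≤ ‖z - r * un n k j‖ := by
  obtain ⟨i, hi⟩ := Finite.exists_min fun j => ‖z - r * un n k j‖
  refine ⟨i, hi, fun j hj => ?_⟩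
  have h1 := sep_same n k (mem_erase.1 hj).1
  have h2 : ‖(r : ℂ) * un n k i - r * un n k j‖ ≤ ‖z - r * un n k i‖ + ‖z - r * un n k j‖ := by
    rw [norm_sub_rev z]
    exact norm_sub_le_norm_sub_add_norm_sub _ _ _
  rw [← mul_sub, norm_mul, Complex.norm_real, Real.norm_of_nonneg hr.le] at h2
  have h3 := mul_le_mul_of_nonneg_left h1 hr.le
  have h4 : r * (4 / n) = 8 * (r / (2 * n)) := by ring
  have h5 : 0 < r / (2 * n) := div_pos hr (mul_pos two_pos (Ring1_pos n))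
  linarith [hi j]

variable {n : ℕ} [NeZero n] {p : ZMod n → ℂ} {k : ℕ} {r η s : ℝ} (hn : 10 ≤ n) (hr : 0 < r)
  (hp : ∀ i, ‖p i - r * un n k i‖ ≤ η * r) (hη : η * (n : ℝ) ^ 2 ≤ 1 / 100)
include hn hr hp hη

lemma Ring2_eta : 0 ≤ η ∧ η * n ≤ 1 / 1000 ∧ η * r ≤ r / (10 * n) := by
  have h0 : 0 ≤ η := nonneg_of_mul_nonneg_left ((norm_nonneg _).trans (hp 0)) hr
  have hn' : (10 : ℝ) ≤ n := by exact_mod_cast hn
  have h1 : η * n ≤ 1 / 1000 := by nlinarith [mul_nonneg h0 (Ring1_pos n).le]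
  refine ⟨h0, h1, ?_⟩
  rw [le_div_iff₀ (by positivity)]
  nlinarith

lemma Ring2_abs (z : ℂ) (i : ZMod n) : |‖z - p i‖ - ‖z - r * un n k i‖| ≤ η * r := by
  refine (abs_norm_sub_norm_le _ _).trans ?_
  rw [sub_sub_sub_cancel_left, norm_sub_rev]
  exact hp i

lemma Ring2_near {z : ℂ} {i : ZMod n} (h : r / (2 * n) ≤ ‖z - r * un n k i‖) :
    r / (4 * n) ≤ ‖z - p i‖ ∧
      |Real.log ‖z - p i‖ - Real.log ‖z - r * un n k i‖| ≤ 2 * (2 * (η * n)) := by
  obtain ⟨h0, h1, h2⟩ := Ring2_eta hn hr hp hη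
  have h3 := Ring2_abs hn hr hp hη z i
  have hn' := Ring1_pos n
  have h4 : 0 < r / n := div_pos hr hn'
  have e1 : r / (2 * n) = r / n / 2 := by ring
  have e2 : r / (4 * n) = r / n / 4 := by ring
  have e3 : r / (10 * n) = r / n / 10 := by ring
  refine ⟨by linarith [(abs_le.1 h3).1], Ring2_log (by linarith) (h3.trans ?_) (by linarith)⟩
  refine le_trans (le_of_eq ?_) (mul_le_mul_of_nonneg_left h (by positivity))
  field_simp

lemma Ring2_sum {z : ℂ} {T : Finset (ZMod n)} (h : ∀ i ∈ T, r / (2 * n) ≤ ‖z - r * un n k i‖) :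
    |∑ i ∈ T, Real.log ‖z - p i‖ - Real.log (∏ i ∈ T, ‖z - r * un n k i‖)| ≤ 1 := by
  have hn' := Ring1_pos n
  have h0 := (Ring2_eta hn hr hp hη).1
  rw [Real.log_prod fun i hi => (lt_of_lt_of_le (by positivity) (h i hi)).ne',
    ← Finset.sum_sub_distrib]
  refine (Finset.abs_sum_le_sum_abs _ _).trans ((Finset.sum_le_card_nsmul _ _ _
    fun i hi => (Ring2_near hn hr hp hη (h i hi)).2).trans ?_)
  have h1 : (T.card : ℝ) ≤ n := by
    have := Finset.card_le_univ T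
    rw [ZMod.card] at this
    exact_mod_cast this
  rw [nsmul_eq_mul]
  nlinarith [mul_le_mul_of_nonneg_right h1 (mul_nonneg h0 hn'.le)]

lemma Ring2_split (h2 : s ≤ r / (10 * n)) {z : ℂ} {i : ZMod n}
    (h : ∀ j ∈ univ.erase i, r / (2 * n) ≤ ‖z - r * un n k j‖) :
    lgs p s z = Real.log (max ‖z - p i‖ s) + ∑ j ∈ univ.erase i, Real.log ‖z - p j‖ := by
  rw [lgs, ← Finset.add_sum_erase _ _ (Finset.mem_univ i)]
  congr 1
  refine Finset.sum_congr rfl fun j hj => ?_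
  rw [max_eq_left (h2.trans (le_trans ?_ (Ring2_near hn hr hp hη (h j hj)).1))]
  have := Ring1_pos n
  gcongr
  norm_num

theorem lgs_up (h1 : 0 < s) (h2 : s ≤ r / (10 * n)) (z : ℂ) :
    lgs p s z ≤ n * Real.log (max ‖z‖ r) + 5 := by
  obtain ⟨i, -, hi⟩ := Ring2_min n k hr z
  have hn' := Ring1_pos n
  have a1 := (abs_le.1 (Ring2_sum hn hr hp hη hi)).2
  rw [Ring2_split hn hr hp hη h2 hi]
  set D := ∏ j ∈ univ.erase i, ‖z - r * un n k j‖ with hD
  set M := max ‖z‖ r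
  have M1 : ‖z‖ ≤ M := le_max_left _ _
  have M2 : r ≤ M := le_max_right _ _
  have M0 : 0 < M := hr.trans_le M2
  have D0 : 0 < D := Finset.prod_pos fun j hj => lt_of_lt_of_le (by positivity) (hi j hj)
  have b1 : D * ‖z - r * un n k i‖ ≤ 2 * M ^ n := by
    rw [hD, Finset.prod_erase_mul _ (fun j => ‖z - r * un n k j‖) (Finset.mem_univ i), ← norm_prod,
      Ring2_prod n k r z i]
    refine (norm_sub_le _ _).trans ?_
    rw [norm_pow, norm_pow, Ring2_nq n k hr, two_mul]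
    gcongr
  have b2 : D ≤ n * M ^ (n - 1) := by
    rw [hD, ← norm_prod, Ring2_geom]
    refine (norm_sum_le _ _).trans ((Finset.sum_le_card_nsmul _ _ (M ^ (n - 1))
      fun a ha => ?_).trans (by rw [Finset.card_range, nsmul_eq_mul]))
    have := Finset.mem_range.1 ha
    rw [norm_mul, norm_pow, norm_pow, Ring2_nq n k hr,
      show M ^ (n - 1) = M ^ a * M ^ (n - 1 - a) by rw [← pow_add]; congr 1; omega]
    gcongr
  have b3 : max ‖z - p i‖ s ≤ ‖z - r * un n k i‖ + r / (10 * n) :=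
    max_le (by linarith [(abs_le.1 (Ring2_abs hn hr hp hη z i)).2, (Ring2_eta hn hr hp hη).2.2])
      (by linarith [norm_nonneg (z - r * un n k i)])
  have b4 : n * M ^ (n - 1) * (r / (10 * n)) ≤ M ^ n := by
    rw [show M ^ n = M ^ (n - 1) * M by rw [← pow_succ]; congr 1; omega,
      show n * M ^ (n - 1) * (r / (10 * n)) = M ^ (n - 1) * (r / 10) by field_simp]
    gcongr
    linarith
  have b5 : max ‖z - p i‖ s * D ≤ 4 * M ^ n := by
    have c1 := mul_le_mul_of_nonneg_left b3 D0.le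
    have c2 := mul_le_mul_of_nonneg_right b2 (h1.le.trans h2)
    have c3 := pow_pos M0 n
    linarith
  have m0 : 0 < max ‖z - p i‖ s := h1.trans_le (le_max_right _ _)
  have b6 := Real.log_le_log (mul_pos m0 D0) b5
  rw [Real.log_mul m0.ne' D0.ne', Real.log_mul (by norm_num) (pow_pos M0 n).ne', Real.log_pow] at b6
  linarith [Real.log_le_sub_one_of_pos (show (0 : ℝ) < 4 by norm_num)]

theorem log_mid {z : ℂ} (hz : ‖z‖ ≤ r * Real.exp (-1 / n) ∨ r * Real.exp (1 / n) ≤ ‖z‖) :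
    (∀ i, r / (4 * n) ≤ ‖z - p i‖) ∧
      |∑ i, Real.log ‖z - p i‖ - n * Real.log (max ‖z‖ r)| ≤ 5 := by
  have hn' := Ring1_pos n
  have hn1 : (10 : ℝ) ≤ n := by exact_mod_cast hn
  have x0 : (0 : ℝ) < 1 / n := by positivity
  have x1 : (1 : ℝ) / n ≤ 1 := by rw [div_le_one hn']; linarith
  have e0 := Real.add_one_le_exp (1 / (n : ℝ))
  have e1 : Real.exp (-1 / n) ≤ 1 - 1 / n / 2 := by
    rw [neg_div, Real.exp_neg, inv_le_iff_one_le_mul₀ (Real.exp_pos _)]
    nlinarith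
  have e2 : Real.exp (1 / n) ^ n = Real.exp 1 := by
    rw [← Real.exp_nat_mul, mul_one_div_cancel hn'.ne']
  have e3 : Real.exp (-1 / n) ^ n = (Real.exp 1)⁻¹ := by
    rw [neg_div, Real.exp_neg, inv_pow, e2]
  have e4 : 2 ≤ Real.exp 1 := by linarith [Real.add_one_le_exp 1]
  have e5 : (Real.exp 1)⁻¹ ≤ 2⁻¹ := inv_anti₀ two_pos e4
  have e6 : r / (2 * n) = r * (1 / n / 2) := by ring
  have hq : ∀ i ∈ Finset.univ, r / (2 * n) ≤ ‖z - r * un n k i‖ := fun i _ => by
    have := abs_le.1 (abs_norm_sub_norm_le z (r * un n k i))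
    rw [Ring2_nq n k hr] at this
    rcases hz with hz | hz <;> nlinarith
  refine ⟨fun i => (Ring2_near hn hr hp hη (hq i (Finset.mem_univ i))).1, ?_⟩
  have a1 := abs_le.1 (Ring2_sum hn hr hp hη hq)
  rw [← norm_prod, Ring2_prod n k r z 0] at a1
  have a2 := abs_le.1 (abs_norm_sub_norm_le (z ^ n) ((r * un n k 0) ^ n))
  have a3 := norm_sub_le (z ^ n) ((r * un n k 0) ^ n)
  rw [norm_pow, norm_pow, Ring2_nq n k hr] at a2 a3
  have r0 := pow_pos hr n
  have key : max ‖z‖ r ^ n / 2 ≤ ‖z ^ n - (r * un n k 0) ^ n‖ ∧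
      ‖z ^ n - (r * un n k 0) ^ n‖ ≤ max ‖z‖ r ^ n * 2 := by
    rcases hz with hz | hz
    · have := pow_le_pow_left₀ (norm_nonneg _) hz n
      rw [mul_pow, e3] at this
      rw [max_eq_right (by nlinarith)]
      constructor <;> nlinarith
    · have := pow_le_pow_left₀ (by positivity) hz n
      rw [mul_pow, e2] at this
      rw [max_eq_left (by nlinarith)]
      constructor <;> nlinarith
  have M0 : 0 < max ‖z‖ r ^ n := pow_pos (hr.trans_le (le_max_right _ _)) n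
  have b1 := Real.log_le_log (by positivity) key.1
  have b2 := Real.log_le_log (lt_of_lt_of_le (by positivity) key.1) key.2
  rw [Real.log_div M0.ne' two_ne_zero, Real.log_pow] at b1
  rw [Real.log_mul M0.ne' two_ne_zero, Real.log_pow] at b2
  have := Real.log_le_sub_one_of_pos two_pos
  exact abs_le.2 ⟨by linarith, by linarith⟩

theorem lgs_lo (h1 : 0 < s) (h2 : s ≤ r / (10 * n)) (z : ℂ) :
    n * Real.log (max ‖z‖ r) - Real.log (r / s) - 5 ≤ lgs p s z := by
  have hn' := Ring1_pos n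
  have hn1 : (10 : ℝ) ≤ n := by exact_mod_cast hn
  by_cases hz : ‖z‖ ≤ r * Real.exp (-1 / n) ∨ r * Real.exp (1 / n) ≤ ‖z‖
  · obtain ⟨a1, a2⟩ := log_mid hn hr hp hη hz
    have a3 : 0 ≤ Real.log (r / s) := Real.log_nonneg ((one_le_div h1).2
      (h2.trans (div_le_self hr.le (by linarith))))
    have a4 : ∑ i, Real.log ‖z - p i‖ ≤ lgs p s z := Finset.sum_le_sum fun i _ =>
      Real.log_le_log (lt_of_lt_of_le (by positivity) (a1 i)) (le_max_left _ _)
    linarith [(abs_le.1 a2).1]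
  obtain ⟨z1, z2⟩ := not_or.1 hz
  rw [not_le] at z1 z2
  obtain ⟨i, hi0, hi⟩ := Ring2_min n k hr z
  have a1 := (abs_le.1 (Ring2_sum hn hr hp hη hi)).1
  rw [Ring2_split hn hr hp hη h2 hi, Real.log_div hr.ne' h1.ne']
  have z0 : 0 < ‖z‖ := lt_trans (by positivity) z1
  have b1 := Real.log_le_log (pow_pos z0 _) (Ring2_big n k r z i hi0)
  have b2 := Real.log_le_log (by positivity) z1.le
  have b3 : Real.log (max ‖z‖ r) ≤ Real.log (r * Real.exp (1 / n)) :=
    Real.log_le_log (hr.trans_le (le_max_right _ _)) (max_le z2.le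
      (le_mul_of_one_le_right hr.le (Real.one_le_exp (by positivity))))
  have b4 := Real.log_le_log h1 (le_max_right ‖z - p i‖ s)
  rw [Real.log_mul hr.ne' (Real.exp_pos _).ne', Real.log_exp] at b2 b3
  rw [Real.log_pow, Nat.cast_pred (NeZero.pos n)] at b1
  have c1 := mul_le_mul_of_nonneg_left b2 (show (0 : ℝ) ≤ n - 1 by linarith)
  have c2 := mul_le_mul_of_nonneg_left b3 hn'.le
  have c3 : (n : ℝ) * (1 / n) = 1 := mul_one_div_cancel hn'.ne'
  have c4 : (-1 : ℝ) / n = -(1 / n) := neg_div _ _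
  have c5 : (0 : ℝ) < 1 / n := by positivity
  rw [c4] at c1
  nlinarith

theorem log_term (h1 : 0 < s) (h2 : s ≤ r) (z : ℂ) (i : ZMod n) :
    |Real.log (max ‖z - p i‖ s) - Real.log (max ‖z‖ r)| ≤ Real.log (r / s) + 2 := by
  have hn1 : (10 : ℝ) ≤ n := by exact_mod_cast hn
  have a1 := abs_le.1 (Ring2_abs hn hr hp hη z i)
  have a2 : η * r ≤ r := (Ring2_eta hn hr hp hη).2.2.trans (div_le_self hr.le (by linarith))
  have a3 := abs_le.1 (abs_norm_sub_norm_le z (r * un n k i))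
  have a4 := norm_sub_le z (r * un n k i)
  rw [Ring2_nq n k hr] at a3 a4
  have a5 : 0 ≤ Real.log (r / s) := Real.log_nonneg ((one_le_div h1).2 h2)
  have M1 := le_max_left ‖z‖ r
  have M2 := le_max_right ‖z‖ r
  have m1 := le_max_left ‖z - p i‖ s
  have m2 := le_max_right ‖z - p i‖ s
  have M0 := hr.trans_le M2
  have m0 := h1.trans_le m2
  have b1 : max ‖z - p i‖ s ≤ 2 ^ 2 * max ‖z‖ r := max_le (by linarith) (by linarith)
  have b2 : max ‖z‖ r ≤ 2 ^ 2 * (r / s * max ‖z - p i‖ s) := by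
    have c1 : r ≤ r / s * max ‖z - p i‖ s := by
      rw [div_mul_eq_mul_div, le_div_iff₀ h1]
      gcongr
    have c2 : max ‖z - p i‖ s ≤ r / s * max ‖z - p i‖ s :=
      le_mul_of_one_le_left m0.le ((one_le_div h1).2 h2)
    exact max_le (by linarith) (by linarith)
  have d1 := Real.log_le_log m0 b1
  have d2 := Real.log_le_log M0 b2
  rw [Real.log_mul (by norm_num) M0.ne', Real.log_pow] at d1
  rw [Real.log_mul (by norm_num) (by positivity), Real.log_mul (by positivity) m0.ne',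
    Real.log_pow] at d2
  have := Real.log_le_sub_one_of_pos two_pos
  push_cast at d1 d2
  exact abs_le.2 ⟨by linarith, by linarith⟩

end Pool.Agent.MP_943ae2_gt
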