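import Pool.Agent.MP_943ae2_gt.Gap0
import Pool.Agent.MP_943ae2_gt.Ring2

open Set Complex Filter Finset
open scoped Topology ComplexConjugate ContDiff

noncomputable section

namespace Pool.Agent.MP_943ae2_gt

lemma Gap1_ell_pos (j : ℕ) : 0 ≤ ell j :=
  le_trans (by positivity) (ell_ge j)

lemma Gap1_ell_le (j : ℕ) (z : ℂ) : ell j ≤ mx j z :=
  Real.log_le_log (rho_pos j) (le_max_right _ _)

lemma Gap1_mx (j : ℕ) (z : ℂ) : 0 ≤ mx j z := (Gap1_ell_pos j).trans (Gap1_ell_le j z)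

lemma Gap1_nt (j : ℕ) : (nn j : ℝ) * tt j ≤ 1 / 1024 := by
  have h1 := admM_nn_le j
  have h2 := admM_PP_tt j
  have h3 := tt_pos j
  nlinarith

/-- the truncated logarithm changes by at most the change of the truncation level -/
lemma Gap1_max {a b : ℝ} (u : ℝ) :
    Real.log (max u (Real.exp a)) ≤ Real.log (max u (Real.exp b)) + |a - b| := by
  have hb : 0 < max u (Real.exp b) := lt_of_lt_of_le (Real.exp_pos b) (le_max_right _ _)
  have ha : 0 < max u (Real.exp a) := lt_of_lt_of_le (Real.exp_pos a) (le_max_right _ _)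
  have h1 : 1 ≤ Real.exp |a - b| := Real.one_le_exp (abs_nonneg _)
  have h : max u (Real.exp a) ≤ max u (Real.exp b) * Real.exp |a - b| := by
    refine max_le ?_ ?_
    · exact (le_max_left u (Real.exp b)).trans (le_mul_of_one_le_right hb.le h1)
    · calc Real.exp a ≤ Real.exp b * Real.exp |a - b| := by
            rw [← Real.exp_add]
            exact Real.exp_le_exp.2 (by linarith [le_abs_self (a - b)])
        _ ≤ _ := mul_le_mul_of_nonneg_right (le_max_right _ _) (Real.exp_pos _).le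
  calc Real.log (max u (Real.exp a)) ≤ Real.log (max u (Real.exp b) * Real.exp |a - b|) :=
        Real.log_le_log ha h
    _ = _ := by rw [Real.log_mul hb.ne' (Real.exp_pos _).ne', Real.log_exp]

lemma Gap1_logRs (j : ℕ) : Real.log ((tt j)⁻¹ ^ 12) = 3 / 8 * ell j := by
  rw [Real.log_pow, ell_eq]; push_cast; ring

/-- the positions of the sides of a ring -/
def Gap1_p (x : Prm) (s : Bool) {j k : ℕ} (h : 1 ≤ k ∧ k < NN j) (i : ZMod (nn j)) : ℂ :=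
  x.dat.pos (⟨j, k, i, h.1, h.2⟩, s)

namespace InK

variable {x : Prm} (hx : InK x)
include hx

lemma Gap1_c (j k : ℕ) : 0 ≤ (x.wall j).c k := by
  rw [Prm.Mac1_c]
  exact div_nonneg (hx.w_nonneg j k) (Mac2_nn_pos j).le

omit hx in
lemma Gap1_out (s : Bool) {j k : ℕ} (h : ¬ (1 ≤ k ∧ k < NN j)) (z : ℂ) :
    x.G s j k z = 0 ∧ x.w j k = 0 ∧ (x.wall j).c k = 0 := by
  have hw : x.w j k = 0 := by
    rcases Nat.eq_zero_or_pos k with rfl | hk
    · exact x.w_zero j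
    · exact x.w_out (by omega)
  refine ⟨?_, hw, ?_⟩
  · unfold Prm.G ringSum
    rw [dif_neg h]
  · rw [Prm.Mac1_c, hw, zero_div]

/-- the potential of a ring is `c * lgs` up to a small error -/
lemma Gap1_split (s : Bool) {j k : ℕ} (h : 1 ≤ k ∧ k < NN j) (z : ℂ) {B : ℝ}
    (hB : ∀ i, |Real.log (max ‖z - Gap1_p x s h i‖ ((tt j)⁻¹ ^ 12))| ≤ B) :
    |x.G s j k z - (x.wall j).c k * lgs (Gap1_p x s h) ((tt j)⁻¹ ^ 12) z| ≤
      nn j * (2 * tt j ^ 3 * B) := by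
  unfold Prm.G ringSum lgs
  rw [dif_pos h, Finset.mul_sum, ← Finset.sum_sub_distrib]
  refine (Finset.abs_sum_le_sum_abs _ _).trans ?_
  have hc : (nn j : ℝ) * (2 * tt j ^ 3 * B) = ∑ _i : ZMod (nn j), 2 * tt j ^ 3 * B := by
    rw [Finset.sum_const, Finset.card_univ, ZMod.card, nsmul_eq_mul]
  rw [hc]
  refine Finset.sum_le_sum fun i _ => ?_
  have h1 := hx.rab_re (⟨j, k, i, h.1, h.2⟩, s)
  have h2 := hx.ε_le j k i
  have h3 : tt j ^ 29 ≤ tt j ^ 3 := pow_le_pow_of_le_one (tt_pos j).le (admM_tt_one j) (by norm_num)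
  have h4 := hB i
  simp only [Pos_bq] at h1
  have h5 : |(if s then 1 else -1) * (frm.rab x.dat (⟨j, k, i, h.1, h.2⟩, s)).re -
      (x.wall j).c k| ≤ 2 * tt j ^ 3 := by
    rw [abs_le] at h1 h2 ⊢
    constructor <;> linarith [h1.1, h1.2, h2.1, h2.2]
  have h6 : (if s then 1 else -1) * (frm.rab x.dat (⟨j, k, i, h.1, h.2⟩, s)).re *
      Real.log (max ‖z - x.dat.pos (⟨j, k, i, h.1, h.2⟩, s)‖ (frm.Rs (⟨j, k, i, h.1, h.2⟩, s))) -
      (x.wall j).c k * Real.log (max ‖z - Gap1_p x s h i‖ ((tt j)⁻¹ ^ 12)) =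
      ((if s then 1 else -1) * (frm.rab x.dat (⟨j, k, i, h.1, h.2⟩, s)).re - (x.wall j).c k) *
        Real.log (max ‖z - Gap1_p x s h i‖ ((tt j)⁻¹ ^ 12)) := by
    rw [sub_mul]; rfl
  rw [h6, abs_mul]
  exact mul_le_mul h5 h4 (abs_nonneg _) (by have := tt_pos j; positivity)

omit hx in
lemma Gap1_err (j : ℕ) {M : ℝ} (hM : 0 ≤ M) :
    (nn j : ℝ) * (2 * tt j ^ 3 * (3 * (1 + M))) ≤ tt j ^ 2 * (1 + M) := by
  have h1 := Gap1_nt j
  have h2 : 0 ≤ tt j ^ 2 * (1 + M) := by positivity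
  calc (nn j : ℝ) * (2 * tt j ^ 3 * (3 * (1 + M))) = 6 * (nn j * tt j) * (tt j ^ 2 * (1 + M)) := by
        ring
    _ ≤ 1 * (tt j ^ 2 * (1 + M)) := mul_le_mul_of_nonneg_right (by linarith) h2
    _ = _ := one_mul _

omit hx in
lemma Gap1_hn {j : ℕ} (hj : 1 ≤ j) : 10 ≤ nn j := le_trans (by norm_num) (nn_ge hj)

omit hx in
lemma Gap1_eta (j : ℕ) : 2 * tt j ^ 3 * (nn j : ℝ) ^ 2 ≤ 1 / 100 := by
  have h1 := Gap1_nt j
  have h2 := tt_pos j
  have h3 := tt_le j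
  have h4 : 0 ≤ (nn j : ℝ) * tt j := by positivity
  have h5 : ((nn j : ℝ) * tt j) ^ 2 ≤ 1 := pow_le_one₀ h4 (by linarith)
  calc 2 * tt j ^ 3 * (nn j : ℝ) ^ 2 = 2 * tt j * ((nn j : ℝ) * tt j) ^ 2 := by ring
    _ ≤ 2 * tt j * 1 := mul_le_mul_of_nonneg_left h5 (by positivity)
    _ ≤ 1 / 100 := by linarith

lemma Gap1_hp (s : Bool) {j k : ℕ} (hj : 1 ≤ j) (h : 1 ≤ k ∧ k < NN j) (i : ZMod (nn j)) :
    ‖Gap1_p x s h i - (Real.exp (x.lr j k) : ℝ) * un (nn j) k i‖ ≤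
      2 * tt j ^ 3 * Real.exp (x.lr j k) :=
  hx.pos_near (⟨j, k, i, h.1, h.2⟩, s) hj

lemma Gap1_Rs {j k : ℕ} (hj : 1 ≤ j) (hk : k ≤ NN j) :
    (tt j)⁻¹ ^ 12 ≤ Real.exp (x.lr j k) / (10 * nn j) := by
  have h1 := (hx.admM_rad hj hk).1
  have h2 := Mac2_nn_pos j
  have h3 := admM_nn_le j
  have h4 := admM_PP_le j
  have h5 := admM_inv_one j
  have h6 : (tt j)⁻¹ ≤ (tt j)⁻¹ ^ 20 := le_self_pow₀ h5 (by norm_num)
  have h7 : 0 < (tt j)⁻¹ ^ 12 := by positivity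
  rw [le_div_iff₀ (by positivity)]
  have h8 : rho j = (tt j)⁻¹ ^ 12 * (tt j)⁻¹ ^ 20 := by unfold rho; ring
  have h9 : (tt j)⁻¹ ^ 12 * (10 * nn j) ≤ (tt j)⁻¹ ^ 12 * (9 / 10 * (tt j)⁻¹ ^ 20) :=
    mul_le_mul_of_nonneg_left (by linarith) h7.le
  nlinarith

lemma Gap1_lr {j k : ℕ} (hj : 1 ≤ j) (hk : k ≤ NN j) : |x.lr j k - ell j| ≤ 1 / 1000 := by
  refine (hx.lr_near hj hk).trans ?_
  have h2 := Mac2_nn_one j
  exact one_div_le_one_div_of_le (by norm_num) (by linarith)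

lemma Gap1_near {j k : ℕ} (hj : 1 ≤ j) (hk : k ≤ NN j) (z : ℂ) :
    |Real.log (max ‖z‖ (Real.exp (x.lr j k))) - mx j z| ≤ 1 / (1000 * nn j) := by
  have h1 := hx.lr_near hj hk
  have h2 := Gap1_max (a := x.lr j k) (b := ell j) ‖z‖
  have h3 := Gap1_max (a := ell j) (b := x.lr j k) ‖z‖
  rw [abs_sub_comm] at h3
  rw [exp_ell] at h2 h3
  unfold mx
  rw [abs_le]
  constructor <;> linarith

lemma Gap1_near' {j k : ℕ} (hj : 1 ≤ j) (hk : k ≤ NN j) (z : ℂ) :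
    |nn j * Real.log (max ‖z‖ (Real.exp (x.lr j k))) - nn j * mx j z| ≤ 1 / 1000 := by
  have h1 := hx.Gap1_near hj hk z
  have h2 := Mac2_nn_pos j
  rw [← mul_sub, abs_mul, abs_of_pos h2]
  calc (nn j : ℝ) * |Real.log (max ‖z‖ (Real.exp (x.lr j k))) - mx j z| ≤
        nn j * (1 / (1000 * nn j)) := mul_le_mul_of_nonneg_left h1 h2.le
    _ = 1 / 1000 := by field_simp

omit hx in
lemma Gap1_logq (j k : ℕ) :
    Real.log (Real.exp (x.lr j k) / (tt j)⁻¹ ^ 12) = x.lr j k - 3 / 8 * ell j := by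
  have h := tt_pos j
  rw [Real.log_div (Real.exp_pos _).ne' (by positivity), Real.log_exp, Gap1_logRs]

/-- the error estimate for `j ≥ 1` -/
lemma Gap1_main (s : Bool) {j k : ℕ} (hj : 1 ≤ j) (h : 1 ≤ k ∧ k < NN j) (z : ℂ) :
    |x.G s j k z - (x.wall j).c k * lgs (Gap1_p x s h) ((tt j)⁻¹ ^ 12) z| ≤
      tt j ^ 2 * (1 + mx j z) := by
  refine (hx.Gap1_split s h z (B := 3 * (1 + mx j z)) fun i => ?_).trans
    (Gap1_err j (Gap1_mx j z))
  have ht := tt_pos j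
  have h0 := hx.Gap1_Rs hj h.2.le
  have hn := Mac2_nn_one j
  have hs : (tt j)⁻¹ ^ 12 ≤ Real.exp (x.lr j k) :=
    h0.trans (div_le_self (Real.exp_pos _).le (by linarith))
  have h1 := log_term (Gap1_hn hj) (Real.exp_pos _) (hx.Gap1_hp s hj h) (Gap1_eta j)
    (by positivity) hs z i
  rw [Gap1_logq] at h1
  have h2 := hx.Gap1_near hj h.2.le z
  have h3 : 1 / (1000 * (nn j : ℝ)) ≤ 1 / 1000 :=
    one_div_le_one_div_of_le (by norm_num) (by linarith)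
  have h4 := hx.Gap1_lr hj h.2.le
  have h5 := Gap1_ell_le j z
  have h6 := Gap1_ell_pos j
  rw [abs_le] at h1 h2 h4 ⊢
  constructor <;> linarith [h1.1, h1.2, h2.1, h2.2, h4.1, h4.2]

theorem G_up (s : Bool) (j k : ℕ) (z : ℂ) :
    x.G s j k z ≤ x.w j k * mx j z + 6 * (x.wall j).c k + tt j ^ 2 * (1 + mx j z) := by
  have hM := Gap1_mx j z
  have ht := tt_pos j
  by_cases h : 1 ≤ k ∧ k < NN j
  swap
  · obtain ⟨h1, h2, h3⟩ := Gap1_out (x := x) s h z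
    rw [h1, h2, h3]
    positivity
  have hc := hx.Gap1_c j k
  have hw := x.n_mul_c j k
  rcases Nat.eq_zero_or_pos j with rfl | hj
  · have hp : ∀ i, Gap1_p x s h i = 0 := fun i => hx.pos_zero (⟨0, k, i, h.1, h.2⟩, s) rfl
    have h5 := admM_inv_one 0
    have hL : ∀ i, 0 ≤ Real.log (max ‖z - Gap1_p x s h i‖ ((tt 0)⁻¹ ^ 12)) ∧
        Real.log (max ‖z - Gap1_p x s h i‖ ((tt 0)⁻¹ ^ 12)) ≤ mx 0 z := by
      intro i
      have h6 : (1 : ℝ) ≤ (tt 0)⁻¹ ^ 12 := one_le_pow₀ h5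
      refine ⟨Real.log_nonneg (h6.trans (le_max_right _ _)), ?_⟩
      rw [hp i, sub_zero]
      refine Real.log_le_log (lt_of_lt_of_le (by linarith) (le_max_right _ _)) ?_
      exact max_le_max le_rfl (pow_le_pow_right₀ h5 (by norm_num))
    have h1 := (hx.Gap1_split s h z (B := 3 * (1 + mx 0 z)) fun i => by
      rw [abs_of_nonneg (hL i).1]; linarith [(hL i).2]).trans (Gap1_err 0 hM)
    have h2 : lgs (Gap1_p x s h) ((tt 0)⁻¹ ^ 12) z ≤ nn 0 * mx 0 z := by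
      unfold lgs
      refine (Finset.sum_le_sum fun i _ => (hL i).2).trans ?_
      rw [Finset.sum_const, Finset.card_univ, ZMod.card, nsmul_eq_mul]
    have h3 := mul_le_mul_of_nonneg_left h2 hc
    have h4 := (abs_le.1 h1).2
    rw [← hw]
    nlinarith
  · have h1 := (abs_le.1 (hx.Gap1_main s hj h z)).2
    have h2 := lgs_up (Gap1_hn hj) (Real.exp_pos _) (hx.Gap1_hp s hj h) (Gap1_eta j)
      (by positivity) (hx.Gap1_Rs hj h.2.le) z
    have h3 := (abs_le.1 (hx.Gap1_near' hj h.2.le z)).2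
    have h4 : lgs (Gap1_p x s h) ((tt j)⁻¹ ^ 12) z ≤ nn j * mx j z + 6 := by linarith
    have h5 := mul_le_mul_of_nonneg_left h4 hc
    rw [← hw]
    nlinarith

theorem G_lo (s : Bool) {j : ℕ} (hj : 1 ≤ j) (k : ℕ) (z : ℂ) :
    x.w j k * mx j z - (x.wall j).c k * (5 / 8 * ell j + 6) - tt j ^ 2 * (1 + mx j z) ≤
      x.G s j k z := by
  have hM := Gap1_mx j z
  have ht := tt_pos j
  by_cases h : 1 ≤ k ∧ k < NN j
  swap
  · obtain ⟨h1, h2, h3⟩ := Gap1_out (x := x) s h z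
    rw [h1, h2, h3]
    have : 0 ≤ tt j ^ 2 * (1 + mx j z) := by positivity
    linarith
  have hc := hx.Gap1_c j k
  have hw := x.n_mul_c j k
  have h1 := (abs_le.1 (hx.Gap1_main s hj h z)).1
  have h2 := lgs_lo (Gap1_hn hj) (Real.exp_pos _) (hx.Gap1_hp s hj h) (Gap1_eta j)
    (by positivity) (hx.Gap1_Rs hj h.2.le) z
  rw [Gap1_logq] at h2
  have h3 := (abs_le.1 (hx.Gap1_near' hj h.2.le z)).1
  have h6 := (abs_le.1 (hx.Gap1_lr hj h.2.le)).2
  have h4 : nn j * mx j z - (5 / 8 * ell j + 6) ≤ lgs (Gap1_p x s h) ((tt j)⁻¹ ^ 12) z := by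
    linarith
  have h5 := mul_le_mul_of_nonneg_left h4 hc
  rw [← hw]
  nlinarith

theorem G_mid (s : Bool) {j : ℕ} (hj : 1 ≤ j) (k : ℕ) {z : ℂ}
    (hz : ‖z‖ ≤ rho j * Real.exp (-2 / nn j) ∨ rho j * Real.exp (2 / nn j) ≤ ‖z‖) :
    x.w j k * mx j z - 6 * (x.wall j).c k - tt j ^ 2 * (1 + mx j z) ≤ x.G s j k z := by
  have hM := Gap1_mx j z
  have ht := tt_pos j
  by_cases h : 1 ≤ k ∧ k < NN j
  swap
  · obtain ⟨h1, h2, h3⟩ := Gap1_out (x := x) s h z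
    rw [h1, h2, h3]
    have : 0 ≤ tt j ^ 2 * (1 + mx j z) := by positivity
    linarith
  have hc := hx.Gap1_c j k
  have hw := x.n_mul_c j k
  have hn := Mac2_nn_pos j
  have h1 := (abs_le.1 (hx.Gap1_main s hj h z)).1
  have hl := abs_le.1 (hx.lr_near hj h.2.le)
  have hq : 1 / (1000 * (nn j : ℝ)) ≤ 1 / nn j := one_div_le_one_div_of_le hn (by linarith)
  have e1 : (-2 : ℝ) / nn j = -2 * (1 / nn j) := by ring
  have e2 : (2 : ℝ) / nn j = 2 * (1 / nn j) := by ring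
  have e3 : (-1 : ℝ) / nn j = -(1 / nn j) := by ring
  have hz' : ‖z‖ ≤ Real.exp (x.lr j k) * Real.exp (-1 / nn j) ∨
      Real.exp (x.lr j k) * Real.exp (1 / nn j) ≤ ‖z‖ := by
    rw [← exp_ell, ← Real.exp_add, ← Real.exp_add] at hz
    rw [← Real.exp_add, ← Real.exp_add]
    refine hz.imp (fun h' => h'.trans (Real.exp_le_exp.2 ?_))
      (fun h' => (Real.exp_le_exp.2 ?_).trans h')
    all_goals linarith [hl.1, hl.2]
  obtain ⟨h2, h7⟩ := log_mid (Gap1_hn hj) (Real.exp_pos _) (hx.Gap1_hp s hj h) (Gap1_eta j) hz'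
  have h8 : lgs (Gap1_p x s h) ((tt j)⁻¹ ^ 12) z = ∑ i, Real.log ‖z - Gap1_p x s h i‖ := by
    unfold lgs
    refine Finset.sum_congr rfl fun i _ => ?_
    rw [max_eq_left]
    refine (hx.Gap1_Rs hj h.2.le).trans (le_trans ?_ (h2 i))
    exact div_le_div_of_nonneg_left (Real.exp_pos _).le (by positivity) (by linarith)
  have h3 := (abs_le.1 (hx.Gap1_near' hj h.2.le z)).1
  have h9 := (abs_le.1 h7).1
  have h4 : nn j * mx j z - 6 ≤ lgs (Gap1_p x s h) ((tt j)⁻¹ ^ 12) z := by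
    rw [h8]; linarith
  have h5 := mul_le_mul_of_nonneg_left h4 hc
  rw [← hw]
  nlinarith

end InK

end Pool.Agent.MP_943ae2_gt
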