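import Pool.Agent.MP_943ae2_gt.Gap1
import Pool.Agent.MP_943ae2_gt.Fix2

open Set Complex Filter Finset
open scoped Topology ComplexConjugate ContDiff

noncomputable section

namespace Pool.Agent.MP_943ae2_gt

lemma Gap2_j {j a : ℕ} (h1 : 1 ≤ a) (h2 : a < Mt j) : 1 ≤ j := by
  rcases Nat.eq_zero_or_pos j with rfl | h
  · rw [Mt_zero] at h2; omega
  · exact h

lemma Gap2_log {y : ℝ} (h : |y| ≤ 1 / 2) :
    0 ≤ Real.log (1 + Real.exp y) ∧ Real.log (1 + Real.exp y) ≤ 1 := by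
  have hp := Real.exp_pos y
  refine ⟨Real.log_nonneg (by linarith), ?_⟩
  rw [Real.log_le_iff_le_exp (by linarith)]
  have h1 : Real.exp y ≤ Real.exp (1 / 2) := Real.exp_le_exp.2 (abs_le.1 h).2
  have h2 : Real.exp (1 / 2) * Real.exp (1 / 2) = Real.exp 1 := by
    rw [← Real.exp_add]; norm_num
  have h3 := Real.exp_one_gt_d9
  have h4 := Real.exp_one_lt_d9
  have h5 := Real.exp_pos (1 / 2)
  have h6 : Real.exp (1 / 2) ≤ 17 / 10 := by nlinarith
  linarith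

lemma Gap2_neg (y : ℝ) : Real.log (1 + Real.exp y) = y + Real.log (1 + Real.exp (-y)) := by
  have hp := Real.exp_pos y
  have hn := Real.exp_pos (-y)
  have : 1 + Real.exp y = Real.exp y * (1 + Real.exp (-y)) := by
    rw [mul_add, ← Real.exp_add]; simp [add_comm]
  rw [this, Real.log_mul hp.ne' (by linarith), Real.log_exp]

lemma Gap2_tt (j : ℕ) : tt (j + 1) ^ 2 ≤ tt j ^ 2 :=
  pow_le_pow_left₀ (tt_pos _).le (tt_anti (Nat.le_succ j)) 2

lemma Gap2_c {x : Prm} (hx : InK x) (j k : ℕ) : 0 ≤ (x.wall j).c k := by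
  rw [Prm.Mac1_c]; exact div_nonneg (hx.w_nonneg j k) (Mac2_nn_pos j).le

lemma Gap2_nb {x : Prm} (hx : InK x) {j k : ℕ} (h1 : 1 ≤ k) (h2 : k < NN j) :
    (x.wall j).c (k + 1) + (x.wall j).c (k - 1) ≤ 4 * (x.wall j).c k := by
  simp only [Prm.Mac1_c]
  rw [← add_div, ← mul_div_assoc]
  exact div_le_div_of_nonneg_right (hx.w_nb h1 h2) (Mac2_nn_pos j).le

lemma Gap2_lr {x : Prm} (hx : InK x) {j k : ℕ} (hj : 1 ≤ j) (h : k ≤ NN j) :
    |x.lr j k - ell j| ≤ 1 / 1000 := by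
  refine (hx.lr_near hj h).trans ?_
  have := Mac2_nn_one j
  exact one_div_le_one_div_of_le (by norm_num) (by linarith)

lemma Gap2_ell (j : ℕ) : 90000 ≤ ell j := by
  have := ell_ge j
  have h : (1 : ℝ) ≤ 4 ^ j := one_le_pow₀ (by norm_num)
  linarith

lemma Gap2_big {x : Prm} (hx : InK x) {j k : ℕ} (hj : 1 ≤ j) (h1 : 1 ≤ k) (h2 : k < NN j) :
    998 / 1000 * ell j ≤ x.lr j k - Real.log (x.w j k) := by
  have a := abs_le.1 (Gap2_lr hx hj h2.le)
  have b := abs_le.1 (hx.log_w h1 h2)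
  have := Gap2_ell j
  linarith

lemma Gap2_pair {x : Prm} (hx : InK x) {j k : ℕ} (hj : 1 ≤ j) (h1 : 1 ≤ k) (h2 : k < NN j)
    {p q : ℝ} (hp : |p| ≤ 1 / 2) (hq : |q| ≤ 1 / 2) :
    0 ≤ (x.wall j).c (k - 1) * Real.log (1 + Real.exp p) +
        (x.wall j).c (k + 1) * Real.log (1 + Real.exp q) ∧
      (x.wall j).c (k - 1) * Real.log (1 + Real.exp p) +
        (x.wall j).c (k + 1) * Real.log (1 + Real.exp q) ≤ 4 * (x.wall j).c k := by
  have a := Gap2_log hp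
  have b := Gap2_log hq
  have c1 := Gap2_c hx j (k - 1)
  have c2 := Gap2_c hx j (k + 1)
  have := Gap2_nb hx h1 h2
  constructor
  · exact add_nonneg (mul_nonneg c1 a.1) (mul_nonneg c2 b.1)
  · nlinarith [mul_le_mul_of_nonneg_left a.2 c1, mul_le_mul_of_nonneg_left b.2 c2]

lemma Gap2_y {x : Prm} (hx : InK x) {j k : ℕ} (hj : 1 ≤ j) (h2 : k < NN j) :
    |(x.wall j).y (nn j) k| ≤ 1 / 2 := (hx.wall_bd hj).y_le k h2

lemma Gap2_Oc (x : Prm) (j a : ℕ) : x.Oc j (Lb j + a) =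
    x.w (j + 1) (a + 1) * x.lr (j + 1) (a + 1) - 2 * x.w (j + 1) a * x.lr (j + 1) a +
      x.w (j + 1) (a - 1) * x.lr (j + 1) (a - 1) := by
  unfold Prm.Oc
  rw [if_pos (Nat.le_add_right _ _), Nat.add_sub_cancel_left]

lemma Gap2_mx {j : ℕ} {z : ℂ} (hz : ‖z‖ ≤ (tt j)⁻¹ ^ 80) :
    ell j ≤ mx j z ∧ mx j z ≤ 5 / 2 * ell j := by
  have hr := rho_pos j
  have h1 := admM_inv_one j
  refine ⟨Real.log_le_log hr (le_max_right _ _), ?_⟩
  have : max ‖z‖ (rho j) ≤ (tt j)⁻¹ ^ 80 :=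
    max_le hz (pow_le_pow_right₀ h1 (by norm_num))
  refine (Real.log_le_log (lt_of_lt_of_le hr (le_max_right _ _)) this).trans (le_of_eq ?_)
  rw [Real.log_pow, ell_eq]; push_cast; ring

lemma Gap2_fin {c l m t D r X : ℝ} (hc : 2 * t ≤ c) (ht : 0 < t) (ht1 : t ≤ 1 / 1000)
    (hl : 90000 ≤ l) (htl : t * l ≤ 1 / 1000) (hm : m ≤ 5 / 2 * l) (hX : 998 / 1000 * l ≤ X)
    (h : (D ≤ c ∧ r = c * (5 / 4 * l + 36)) ∨
      (D ≤ 51 / 100 * (2 * c * (X + 2) + 2 * t ^ 2) ∧ r = 36 * c)) :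
    t ≤ 2 * c * X - D - r - 4 * (t ^ 2 * (1 + m)) - 5 * t ^ 2 := by
  have hc0 : 0 < c := by linarith
  have e1 : t ^ 2 ≤ t / 1000 := by nlinarith
  have e2 : t ^ 2 * m ≤ t / 100 := by
    have : t ^ 2 * m ≤ t ^ 2 * (5 / 2 * l) := mul_le_mul_of_nonneg_left hm (by positivity)
    nlinarith
  have e3 : c * (998 / 1000 * l) ≤ c * X := mul_le_mul_of_nonneg_left hX hc0.le
  have e4 : c * 90000 ≤ c * l := mul_le_mul_of_nonneg_left hl hc0.le
  rcases h with ⟨h1, rfl⟩ | ⟨h1, rfl⟩ <;> nlinarith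

variable {x : Prm} (hx : InK x) (he : Eqs x)
include hx he

theorem two_rel {j a : ℕ} (h1 : 1 ≤ a) (h2 : a < Mt j) :
    |(x.wall j).Ds (nn j) (Lb j + a) + x.Oc j (Lb j + a) - (x.wall (j + 1)).Ds (nn (j + 1)) a| ≤
      2 * tt j ^ 2 := by
  have ha : a < NN (j + 1) := by
    have := Lb_succ j
    unfold NN; omega
  have e := he.two j a 0 0 h1 h2
  have b1 := abs_le.1 (hx.Dt_val (j := j) (k := Lb j + a) (by omega) (by unfold NN; omega) 0)
  have b2 := abs_le.1 (hx.Dt_val (j := j + 1) h1 ha 0)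
  have e0 : x.Oc (j + 1) a = 0 := if_neg (by rw [Lb_succ]; omega)
  have := Gap2_tt j
  rw [e0] at b2
  rw [abs_le]
  constructor <;> linarith

lemma Gap2_rel {j a : ℕ} (h1 : 1 ≤ a) (h2 : a < Mt j) : ∃ A A' E : ℝ,
    0 ≤ A ∧ A ≤ 4 * (x.wall j).c (Lb j + a) ∧ 0 ≤ A' ∧ A' ≤ 4 * (x.wall (j + 1)).c a ∧
    |E| ≤ 2 * tt j ^ 2 ∧
    x.D2 j (Lb j + a) * (x.lr (j + 1) a - x.lr j (Lb j + a)) =
      2 * (x.wall j).c (Lb j + a) * (x.lr j (Lb j + a) - Real.log (x.w j (Lb j + a))) + A -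
        2 * (x.wall (j + 1)).c a * (x.lr (j + 1) a - Real.log (x.w (j + 1) a)) - A' - E := by
  have hj := Gap2_j h1 h2
  have ha : a < NN (j + 1) := by
    have := Lb_succ j
    unfold NN; omega
  have hk : Lb j + a < NN j := by unfold NN; omega
  have p1 := Gap2_pair hx hj (k := Lb j + a) (by omega) hk
    (Gap2_y hx hj (k := Lb j + a - 1) (by omega))
    (q := -(x.wall j).y (nn j) (Lb j + a)) (by rw [abs_neg]; exact Gap2_y hx hj hk)
  have p2 := Gap2_pair hx (j := j + 1) (by omega) h1 ha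
    (p := -(x.wall (j + 1)).y (nn (j + 1)) (a - 1))
    (by rw [abs_neg]; exact Gap2_y hx (by omega) (by omega))
    (Gap2_y hx (j := j + 1) (k := a) (by omega) ha)
  refine ⟨_, _, _, p1.1, p1.2, p2.1, p2.2, two_rel hx he h1 h2, ?_⟩
  rw [x.Ds_eq, x.Ds_eq, Gap2_Oc, x.wlr_eq (j + 1) h1, x.g_top (k := Lb j + a) (by omega),
    x.Mac1_g, Gap2_neg ((x.wall (j + 1)).y (nn (j + 1)) (a - 1)),
    Gap2_neg ((x.wall (j + 1)).y (nn (j + 1)) a)]
  ring

theorem D2_up {j a : ℕ} (h1 : 1 ≤ a) (h2 : a < Mt j) :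
    x.D2 j (Lb j + a) * (x.lr (j + 1) a - x.lr j (Lb j + a)) ≤
      2 * (x.wall j).c (Lb j + a) * (x.lr j (Lb j + a) - Real.log (x.w j (Lb j + a)) + 2) +
        2 * tt j ^ 2 := by
  obtain ⟨A, A', E, -, a2, a3, -, a5, a6⟩ := Gap2_rel hx he h1 h2
  have ha : a < NN (j + 1) := by
    have := Lb_succ j
    unfold NN; omega
  have b := Gap2_big hx (j := j + 1) (by omega) h1 ha
  have := Gap2_ell (j + 1)
  have c := mul_nonneg (Gap2_c hx (j + 1) a)
    (show 0 ≤ x.lr (j + 1) a - Real.log (x.w (j + 1) a) by linarith)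
  have := abs_le.1 a5
  rw [a6]
  nlinarith

theorem D2_lo {j a : ℕ} (h1 : 1 ≤ a) (h2 : a < Mt j) :
    -(2 * (x.wall (j + 1)).c a * (x.lr (j + 1) a - Real.log (x.w (j + 1) a) + 2)) - 2 * tt j ^ 2 ≤
      x.D2 j (Lb j + a) * (x.lr (j + 1) a - x.lr j (Lb j + a)) := by
  obtain ⟨A, A', E, a1, -, -, a4, a5, a6⟩ := Gap2_rel hx he h1 h2
  have b := Gap2_big hx (Gap2_j h1 h2) (k := Lb j + a) (by omega) (by unfold NN; omega)
  have := Gap2_ell j
  have c := mul_nonneg (Gap2_c hx j (Lb j + a))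
    (show 0 ≤ x.lr j (Lb j + a) - Real.log (x.w j (Lb j + a)) by linarith)
  have := abs_le.1 a5
  rw [a6]
  nlinarith

omit he in
lemma Gap2_small {j a : ℕ} (h1 : 1 ≤ a) (h2 : a < Mt j) {d : ℝ} (hd : |d| ≤ 3 / nn j) :
    x.D2 j (Lb j + a) * d ≤ (x.wall j).c (Lb j + a) := by
  have hj := Gap2_j h1 h2
  have hk : Lb j + a < NN j := by unfold NN; omega
  have hn := Mac2_nn_pos j
  have hW := hx.Mac2_W_pos j
  have hN : (1 : ℝ) ≤ NN j := by exact_mod_cast (show 1 ≤ NN j by omega)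
  have hb := nn_big hj
  have b1 : |x.D2 j (Lb j + a)| ≤ 8 * x.W j / nn j := by
    rw [x.D2_top h1 h2]; exact hx.sTop_le j a
  have b2 : x.D2 j (Lb j + a) * d ≤ 8 * x.W j / nn j * (3 / nn j) := by
    refine (le_abs_self _).trans ?_
    rw [abs_mul]
    exact mul_le_mul b1 hd (abs_nonneg _) (by positivity)
  refine b2.trans ?_
  rw [x.Mac1_c]
  refine le_trans ?_ (div_le_div_of_nonneg_right (hx.w_ge (by omega) hk) hn.le)
  have h24 : 24 * (NN j : ℝ) ≤ nn j := by nlinarith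
  rw [show 8 * x.W j / nn j * (3 / nn j) = x.W j * 24 / nn j / nn j by ring]
  refine div_le_div_of_nonneg_right ?_ hn.le
  rw [div_le_div_iff₀ hn (by linarith)]
  nlinarith

theorem gap_int_in {j a : ℕ} (h1 : 1 ≤ a) (h2 : a < Mt j) {z : ℂ} (hz : ‖z‖ ≤ (tt j)⁻¹ ^ 80) :
    frm.Ut x.dat (CC x) (bs (j + 1) + a - 1) z + tt j ≤ frm.Ut x.dat (CC x) (bs (j + 1) + a) z := by
  have hj := Gap2_j h1 h2
  have ha : a < NN (j + 1) := by
    have := Lb_succ j
    unfold NN; omega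
  have hk : Lb j + a < NN j := by unfold NN; omega
  have hk1 : 1 ≤ Lb j + a := by omega
  have g := gap_int x (CC x) h1 h2 z
  have cs := CC_step he ⟨j, Lb j + a, 0, hk1, hk⟩
  have eg : Nk.gap ⟨j, Lb j + a, 0, hk1, hk⟩ = bs (j + 1) + a - 1 := by
    simp only [Nk.gap, Cst_bs]; omega
  rw [eg, show bs (j + 1) + a - 1 + 1 = bs (j + 1) + a by omega] at cs
  have dv := abs_le.1 (hx.Dt_val hk1 hk 0)
  have hz' : ‖z‖ ≤ (tt (j + 1))⁻¹ ^ 24 := by
    rw [tt_succ, ← inv_pow, ← pow_mul]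
    exact hz.trans (pow_le_pow_right₀ (admM_inv_one j) (by norm_num))
  have i1 := abs_le.1 (hx.G_in true (j := j + 1) (by omega) a hz')
  have i2 := abs_le.1 (hx.G_in false (j := j + 1) (by omega) a hz')
  have i3 := abs_le.1 (hx.G_in false (j := j + 1) (by omega) (a + 1) hz')
  have i4 := abs_le.1 (hx.G_in true (j := j + 1) (by omega) (a - 1) hz')
  have ht := tt_pos j
  have ht1 := tt_le j
  have t8 : tt (j + 1) ^ 2 ≤ tt j ^ 2 := Gap2_tt j
  have hBr : -x.Oc j (Lb j + a) - 4 * tt j ^ 2 ≤ x.Br (j + 1) a z := by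
    rw [Gap2_Oc, Prm.Br]; linarith
  have u1 := hx.G_up false j (Lb j + a + 1) z
  have u2 := hx.G_up true j (Lb j + a - 1) z
  have nb := Gap2_nb hx hk1 hk
  have p1 := (Gap2_pair hx hj hk1 hk (Gap2_y hx hj (k := Lb j + a - 1) (by omega))
    (q := -(x.wall j).y (nn j) (Lb j + a)) (by rw [abs_neg]; exact Gap2_y hx hj hk)).1
  have ds := x.Ds_eq j (Lb j + a)
  rw [x.g_top (k := Lb j + a) (by omega), sub_zero] at ds
  have hm := Gap2_mx hz
  have hl := Gap2_ell j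
  have lr1 := abs_le.1 (Gap2_lr hx hj hk.le)
  have lr2 := abs_le.1 (Gap2_lr hx (j := j + 1) (by omega) ha.le)
  have lr3 := abs_le.1 (hx.lr_near hj hk.le)
  have hn := Mac2_nn_pos j
  have hX := Gap2_big hx hj hk1 hk
  have hc : 2 * tt j ≤ (x.wall j).c (Lb j + a) := by
    refine le_trans ?_ (hx.c_ge ⟨j, Lb j + a, 0, hk1, hk⟩)
    have hP := admM_PP_pos j
    have := admM_pow_tt j (m := 2) (by norm_num)
    have : tt j ≤ (PP j)⁻¹ ^ 2 := by
      rw [inv_pow, ← one_div, le_div_iff₀ (by positivity)]; linarith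
    show 2 * tt j ≤ 2 * (PP j)⁻¹ ^ 2
    linarith
  have htl : tt j * ell j ≤ 1 / 1000 := by
    have a1 := ell_le_PP j
    rw [ell_succ] at a1
    have a2 := admM_PP_tt j
    have := mul_le_mul_of_nonneg_left a1 ht.le
    linarith
  have hd : x.D2 j (Lb j + a) * (mx j z - x.lr j (Lb j + a)) =
      (x.w j (Lb j + a + 1) - 2 * x.w j (Lb j + a) + x.w j (Lb j + a - 1)) * mx j z -
        x.D2 j (Lb j + a) * x.lr j (Lb j + a) := by
    rw [mul_sub]; rfl
  have e3 : (3 : ℝ) / nn j = 2 / nn j + 1000 * (1 / (1000 * nn j)) := by field_simp; ring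
  have e4 : (0 : ℝ) < 1 / (1000 * nn j) := by positivity
  have e5 : (0 : ℝ) < 2 / nn j := by positivity
  by_cases hmid : ‖z‖ ≤ rho j * Real.exp (-2 / nn j) ∨ rho j * Real.exp (2 / nn j) ≤ ‖z‖
  · have l1 := hx.G_mid true hj (Lb j + a) hmid
    have l2 := hx.G_mid false hj (Lb j + a) hmid
    have hD : x.D2 j (Lb j + a) * (mx j z - x.lr j (Lb j + a)) ≤ 51 / 100 *
        (2 * (x.wall j).c (Lb j + a) * (x.lr j (Lb j + a) - Real.log (x.w j (Lb j + a)) + 2) +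
          2 * tt j ^ 2) := by
      rcases le_total 0 (x.D2 j (Lb j + a)) with h0 | h0
      · have := D2_up hx he h1 h2
        have b : mx j z - x.lr j (Lb j + a) ≤ 51 / 100 * (x.lr (j + 1) a - x.lr j (Lb j + a)) := by
          rw [ell_succ] at lr2; linarith
        have := mul_le_mul_of_nonneg_left b h0
        rw [mul_left_comm] at this
        linarith
      · have b := Gap2_small hx h1 h2 (d := ell j - x.lr j (Lb j + a))
          (by rw [abs_le]; constructor <;> linarith)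
        have b2 : x.D2 j (Lb j + a) * (mx j z - ell j) ≤ 0 :=
          mul_nonpos_of_nonpos_of_nonneg h0 (by linarith)
        have b3 := mul_nonneg (Gap2_c hx j (Lb j + a))
          (show 0 ≤ x.lr j (Lb j + a) - Real.log (x.w j (Lb j + a)) by linarith)
        have := Gap2_c hx j (Lb j + a)
        have := sq_nonneg (tt j)
        linarith
    have := Gap2_fin hc ht ht1 hl htl hm.2 hX (Or.inr ⟨hD, rfl⟩)
    rw [Prm.Br] at g
    linarith
  · have l1 := hx.G_lo true hj (Lb j + a) z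
    have l2 := hx.G_lo false hj (Lb j + a) z
    have hup : mx j z ≤ ell j + 2 / nn j := by
      have hr := rho_pos j
      have : max ‖z‖ (rho j) ≤ rho j * Real.exp (2 / nn j) :=
        max_le (le_of_not_ge (not_or.1 hmid).2) (le_mul_of_one_le_right hr.le (Real.one_le_exp e5.le))
      refine (Real.log_le_log (lt_of_lt_of_le hr (le_max_right _ _)) this).trans (le_of_eq ?_)
      rw [Real.log_mul hr.ne' (Real.exp_pos _).ne', Real.log_exp]; rfl
    have hD := Gap2_small hx h1 h2 (d := mx j z - x.lr j (Lb j + a))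
      (by rw [abs_le]; constructor <;> linarith)
    have := Gap2_fin hc ht ht1 hl htl hm.2 hX (Or.inl ⟨hD, rfl⟩)
    rw [Prm.Br] at g
    linarith

end Pool.Agent.MP_943ae2_gt
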