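import Pool.Agent.MP_943ae2_gt.Gap2

open Set Complex Filter Finset
open scoped Topology ComplexConjugate ContDiff

noncomputable section

namespace Pool.Agent.MP_943ae2_gt

lemma gap3_core {c M κ D m s lr t loss Dt B B' : ℝ} (hsm : s ≤ m) (hm : 0 ≤ m)
    (F1 : 2 * c * M - κ * lr - t ^ 2 ≤ Dt) (F2 : -D * s - 4 * (t ^ 2 * (1 + s)) ≤ B)
    (F3 : (κ + D) * m - loss - 4 * (t ^ 2 * (1 + m)) ≤ B')
    (F4 : -c ≤ (κ - 9 * t ^ 2) * (m - lr)) (F5 : t + 9 * t ^ 2 * (1 + lr) ≤ c)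
    (F6 : loss + 2 * c ≤ 2 * c * M + D * (m - s)) : t ≤ Dt + B + B' := by
  have a1 := mul_le_mul_of_nonneg_left hsm (sq_nonneg t)
  have a2 := mul_nonneg (sq_nonneg t) hm
  linarith

lemma gap3_small (j : ℕ) {lr : ℝ} (h : lr ≤ ell (j + 1) + 1) :
    tt j + 9 * tt j ^ 2 * (1 + lr) ≤ 2 * (PP (j + 1))⁻¹ ^ 2 := by
  have ht := tt_pos j
  have hP := PP_ge j
  have hP0 : 0 < PP j := admM_PP_pos j
  have h1 := admM_PP_tt j
  have h3 := admM_pow_tt j (m := 3) (by norm_num)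
  have h4 := ell_le_PP j
  have h5 : 9 * tt j * (1 + lr) ≤ 1 := by
    have : 9 * (1 + lr) ≤ PP j := by linarith
    nlinarith
  have h6 : tt j ≤ (PP (j + 1))⁻¹ ^ 2 := by
    rw [PP_succ, inv_pow, ← one_div, le_div_iff₀ (by positivity)]
    have : 1024 * (PP j ^ 2 * tt j) ≤ PP j * (PP j ^ 2 * tt j) :=
      mul_le_mul_of_nonneg_right (by linarith) (by positivity)
    nlinarith
  nlinarith

lemma gap3_mx (j : ℕ) {z : ℂ} (hz : 0 < ‖z‖) : Real.log ‖z‖ ≤ mx j z ∧ ell j ≤ mx j z ∧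
    (mx j z = Real.log ‖z‖ ∨ mx j z = ell j) := by
  refine ⟨Real.log_le_log hz (le_max_left _ _), Real.log_le_log (rho_pos j) (le_max_right _ _), ?_⟩
  unfold mx ell
  rcases max_choice ‖z‖ (rho j) with h | h <;> rw [h]
  exacts [Or.inl rfl, Or.inr rfl]

variable {x : Prm} (hx : InK x) (he : Eqs x)
include hx he

theorem gap_int_out {j a : ℕ} (h1 : 1 ≤ a) (h2 : a < Mt j) {z : ℂ} (hz : (tt j)⁻¹ ^ 80 ≤ ‖z‖) :
    frm.Ut x.dat (CC x) (bs (j + 1) + a - 1) z + tt j ≤ frm.Ut x.dat (CC x) (bs (j + 1) + a) z := by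
  have hj : 1 ≤ j := by
    rcases Nat.eq_zero_or_pos j with rfl | h
    · rw [Mt_zero] at h2; omega
    · exact h
  have hj' : 1 ≤ j + 1 := by omega
  have hL : a < Lb (j + 1) := by rw [Lb_succ]; exact h2
  have hN : a < NN (j + 1) := by unfold NN; omega
  have hk : Lb j + a ≤ NN j := by unfold NN; omega
  have ht := tt_pos j
  have ht1 := admM_inv_one j
  have hz0 : 0 < ‖z‖ := lt_of_lt_of_le (by positivity) hz
  have ht2 : tt (j + 1) ^ 2 ≤ tt j ^ 2 :=
    pow_le_pow_left₀ (tt_pos _).le (tt_anti (Nat.le_succ j)) 2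
  obtain ⟨m1, m2, m3⟩ := gap3_mx (j + 1) hz0
  have he0 : 90000 ≤ ell j :=
    le_trans (le_mul_of_one_le_right (by norm_num) (one_le_pow₀ (by norm_num))) (ell_ge j)
  have he1 := ell_succ j
  have hs : 5 / 2 * ell j ≤ Real.log ‖z‖ := by
    have := Real.log_le_log (by positivity) hz
    rw [Real.log_pow] at this
    rw [ell_eq]
    push_cast at this
    linarith
  have hn := Mac2_nn_pos j
  have hn' := Mac2_nn_pos (j + 1)
  have hn1 := Mac2_nn_one j
  have hn1' := Mac2_nn_one (j + 1)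
  have hW := hx.Mac2_W_pos j
  have hW' := hx.Mac2_W_pos (j + 1)
  have d1 : (1 : ℝ) / (1000 * nn j) ≤ 1 / 1000 := one_div_le_one_div_of_le (by norm_num) (by linarith)
  have d2 : (1 : ℝ) / (1000 * nn (j + 1)) ≤ 1 / 1000 :=
    one_div_le_one_div_of_le (by norm_num) (by linarith)
  have l1 := abs_le.1 (hx.lr_near hj hk)
  have l2 := abs_le.1 (hx.lr_near hj' hN.le)
  have l3 := abs_le.1 (hx.log_w h1 hN)
  have hc := hx.c_ge ⟨j + 1, a, 0, h1, hN⟩
  have F5 := (gap3_small j (lr := x.lr (j + 1) a) (by linarith)).trans hc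
  have hc0 : ∀ i, 0 ≤ (x.wall (j + 1)).c i := fun i => by
    rw [x.Mac1_c]; exact div_nonneg (hx.w_nonneg _ _) hn'.le
  have hnb : (x.wall (j + 1)).c (a + 1) + (x.wall (j + 1)).c (a - 1) ≤
      4 * (x.wall (j + 1)).c a := by
    simp only [x.Mac1_c]
    rw [← add_div, ← mul_div_assoc]
    exact div_le_div_of_nonneg_right (hx.w_nb h1 hN) hn'.le
  have hκ : x.D2 (j + 1) a = -(x.W (j + 1) / nn (j + 1) + x.D2 j (Lb j + a)) := by
    rw [x.D2_bot h1 hL, x.D2_top h1 h2, Prm.sBot, Nat.add_sub_cancel]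
    ring
  have hN0 : (1 : ℝ) ≤ NN j := by exact_mod_cast (show 1 ≤ NN j by omega)
  have hN5 : (NN (j + 1) : ℝ) = 5 * NN j := by
    rw [NN_eq hj', NN_eq hj, Lb_succ, Mt_eq hj]; push_cast; ring
  have hbig := nn_big hj
  have hnn : (nn j : ℝ) ≤ nn (j + 1) := by exact_mod_cast nn_mono j
  have hN80 : 80 * (NN j : ℝ) ≤ nn j := by nlinarith
  have hwge := hx.w_ge h1 hN
  rw [hN5, div_le_iff₀ (by positivity)] at hwge
  have hw0 := hx.w_nonneg (j + 1) a
  have hcw : (x.wall (j + 1)).c a = x.w (j + 1) a / nn (j + 1) := rfl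
  -- the increment of the constants
  have F1 : 2 * (x.wall (j + 1)).c a * (x.lr (j + 1) a - Real.log (x.w (j + 1) a)) -
      x.W (j + 1) / nn (j + 1) * x.lr (j + 1) a - tt j ^ 2 ≤
      CC x (bs (j + 1) + a) - CC x (bs (j + 1) + a - 1) := by
    have e1 := CC_step he ⟨j + 1, a, 0, h1, hN⟩
    have e2 := (abs_le.1 (hx.Dt_val h1 hN 0)).1
    have e3 : x.Oc (j + 1) a = 0 := if_neg (not_le.2 hL)
    simp only [Nk.gap] at e1
    rw [show bs (j + 1) + a - 1 + 1 = bs (j + 1) + a by omega] at e1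
    rw [e3, x.Ds_eq, x.Mac1_g, hκ] at e2
    have p1 := mul_nonneg (hc0 (a - 1)) (Real.log_nonneg
      (le_add_of_nonneg_right (Real.exp_pos ((x.wall (j + 1)).y (nn (j + 1)) (a - 1))).le))
    have p2 := mul_nonneg (hc0 (a + 1)) (Real.log_nonneg
      (le_add_of_nonneg_right (Real.exp_pos (-(x.wall (j + 1)).y (nn (j + 1)) a)).le))
    rw [e1]
    linarith
  have F2 : -x.D2 j (Lb j + a) * Real.log ‖z‖ - 4 * (tt j ^ 2 * (1 + Real.log ‖z‖)) ≤
      x.Br j (Lb j + a) z := by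
    have hz' : (tt j)⁻¹ ^ 40 ≤ ‖z‖ := (pow_le_pow_right₀ ht1 (by norm_num)).trans hz
    have g1 := (abs_le.1 (hx.G_out true j (Lb j + a) hz')).1
    have g2 := (abs_le.1 (hx.G_out false j (Lb j + a) hz')).1
    have g3 := (abs_le.1 (hx.G_out false j (Lb j + a + 1) hz')).2
    have g4 := (abs_le.1 (hx.G_out true j (Lb j + a - 1) hz')).2
    unfold Prm.Br Prm.D2
    linarith
  have F3 : ∀ q : ℝ, (∀ s, x.w (j + 1) a * mx (j + 1) z - q -
      tt (j + 1) ^ 2 * (1 + mx (j + 1) z) ≤ x.G s (j + 1) a z) →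
      (x.W (j + 1) / nn (j + 1) + x.D2 j (Lb j + a)) * mx (j + 1) z -
        (2 * q + 24 * (x.wall (j + 1)).c a) - 4 * (tt j ^ 2 * (1 + mx (j + 1) z)) ≤
        x.Br (j + 1) a z := by
    intro q hq
    have g1 := hq true
    have g2 := hq false
    have g3 := hx.G_up false (j + 1) (a + 1) z
    have g4 := hx.G_up true (j + 1) (a - 1) z
    have g5 := mul_le_mul_of_nonneg_right ht2 (show 0 ≤ 1 + mx (j + 1) z by linarith)
    rw [← neg_neg (x.W (j + 1) / nn (j + 1) + x.D2 j (Lb j + a)), ← hκ]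
    unfold Prm.Br Prm.D2
    linarith
  have hlr : 0 ≤ x.lr (j + 1) a := by linarith
  have ht9 : 9 * tt j ^ 2 ≤ (x.wall (j + 1)).c a := by
    have := mul_nonneg (sq_nonneg (tt j)) hlr
    linarith
  have F4 : -(x.wall (j + 1)).c a ≤
      (x.W (j + 1) / nn (j + 1) - 9 * tt j ^ 2) * (mx (j + 1) z - x.lr (j + 1) a) := by
    have k1 : (x.wall (j + 1)).c a ≤ x.W (j + 1) / nn (j + 1) :=
      div_le_div_of_nonneg_right (hx.w_le _ _) hn'.le
    have k2 : x.W (j + 1) / nn (j + 1) * (1 / (1000 * nn (j + 1))) ≤ (x.wall (j + 1)).c a := by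
      rw [hcw, div_mul_eq_mul_div]
      refine div_le_div_of_nonneg_right ?_ hn'.le
      rw [mul_one_div, div_le_iff₀ (by positivity)]
      exact hwge.trans (mul_le_mul_of_nonneg_left (by linarith) hw0)
    have k3 := mul_le_mul_of_nonneg_left
      (show -(1 / (1000 * nn (j + 1) : ℝ)) ≤ mx (j + 1) z - x.lr (j + 1) a by linarith)
      (show 0 ≤ x.W (j + 1) / nn (j + 1) - 9 * tt j ^ 2 by linarith)
    have k4 : 0 ≤ tt j ^ 2 * (1 / (1000 * nn (j + 1) : ℝ)) := by positivity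
    linarith
  have hM : 999 / 1000 * ell (j + 1) - 1 / 1000 ≤ x.lr (j + 1) a - Real.log (x.w (j + 1) a) := by
    linarith
  have hcM := mul_le_mul_of_nonneg_left hM (hc0 a)
  have hce := mul_le_mul_of_nonneg_left he0 (hc0 a)
  have hc1 := hc0 a
  rw [← le_sub_iff_add_le', gap_int x _ h1 h2]
  by_cases hmid : ‖z‖ ≤ rho (j + 1) * Real.exp (-2 / nn (j + 1)) ∨
      rho (j + 1) * Real.exp (2 / nn (j + 1)) ≤ ‖z‖
  · refine gap3_core m1 (by linarith) F1 F2 (F3 _ fun s => hx.G_mid s hj' a hmid) F4 F5 ?_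
    have b1 := D2_lo hx he h1 h2
    have b2 : 51 / 100 * (-(2 * (x.wall (j + 1)).c a *
        (x.lr (j + 1) a - Real.log (x.w (j + 1) a) + 2)) - 2 * tt j ^ 2) ≤
        x.D2 j (Lb j + a) * (mx (j + 1) z - Real.log ‖z‖) := by
      rcases le_total 0 (x.D2 j (Lb j + a)) with h | h
      · have := mul_nonneg h (sub_nonneg.2 m1)
        rw [he1] at hcM
        nlinarith [sq_nonneg (tt j)]
      · have : mx (j + 1) z - Real.log ‖z‖ ≤
            51 / 100 * (x.lr (j + 1) a - x.lr j (Lb j + a)) := by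
          rcases m3 with h | h <;> linarith
        have := mul_le_mul_of_nonpos_left this h
        linarith
    rw [he1] at hcM
    linarith
  · refine gap3_core m1 (by linarith) F1 F2 (F3 _ fun s => hx.G_lo s hj' a z) F4 F5 ?_
    have b1 : ell (j + 1) - 2 / nn (j + 1) ≤ Real.log ‖z‖ := by
      have := Real.log_le_log (mul_pos (rho_pos _) (Real.exp_pos _)) (not_le.1 (not_or.1 hmid).1).le
      rw [Real.log_mul (rho_pos _).ne' (Real.exp_pos _).ne', Real.log_exp, neg_div] at this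
      exact this
    have b2 : mx (j + 1) z - Real.log ‖z‖ ≤ 2 / nn (j + 1) := by
      have : (0 : ℝ) ≤ 2 / nn (j + 1) := by positivity
      rcases m3 with h | h <;> linarith
    have b3 : -(8 * x.W j / nn j) ≤ x.D2 j (Lb j + a) := by
      rw [x.D2_top h1 h2]
      exact (abs_le.1 (hx.sTop_le j a)).1
    have b4 : 8 * x.W j / nn j * (2 / nn (j + 1)) ≤ (x.wall (j + 1)).c a := by
      rw [hcw, ← mul_div_assoc]
      refine div_le_div_of_nonneg_right ?_ hn'.le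
      rw [div_mul_eq_mul_div, div_le_iff₀ hn]
      have := mul_le_mul_of_nonneg_left hN80 hw0
      have := (hx.W_succ j).1
      linarith
    have b5 := mul_le_mul_of_nonneg_right b3 (sub_nonneg.2 m1)
    have b6 := mul_le_mul_of_nonneg_left b2 (show 0 ≤ 8 * x.W j / nn j by positivity)
    rw [he1] at hcM ⊢
    linarith

end Pool.Agent.MP_943ae2_gt
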