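import Pool.Agent.MP_943ae2_gt.Gap1
import Pool.Agent.MP_943ae2_gt.Fix2

open Set Complex Filter Finset
open scoped Topology ComplexConjugate ContDiff

noncomputable section

namespace Pool.Agent.MP_943ae2_gt

lemma Gap4_G_zero (x : Prm) (s : Bool) (j : ℕ) (z : ℂ) : x.G s j 0 z = 0 := by
  unfold Prm.G ringSum
  exact dif_neg (by omega)

lemma Gap4_G_big (x : Prm) (s : Bool) {j k : ℕ} (h : NN j ≤ k) (z : ℂ) : x.G s j k z = 0 := by
  unfold Prm.G ringSum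
  exact dif_neg (by omega)

lemma Gap4_Br_N (x : Prm) (j : ℕ) (z : ℂ) : x.Br j (NN j) z = -x.G true j (NN j - 1) z := by
  unfold Prm.Br
  rw [Gap4_G_big x true le_rfl, Gap4_G_big x false le_rfl, Gap4_G_big x false (Nat.le_succ _)]
  ring

lemma Gap4_Br_zero (x : Prm) (j : ℕ) (z : ℂ) : x.Br j 0 z = -x.G false j 1 z := by
  unfold Prm.Br
  rw [Nat.zero_sub, Gap4_G_zero, Gap4_G_zero]
  ring

lemma Gap4_log (y : ℝ) : y ≤ Real.log (1 + Real.exp y) := by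
  rw [Real.le_log_iff_exp_le (by positivity)]
  linarith

lemma Gap4_log0 (y : ℝ) : 0 ≤ Real.log (1 + Real.exp y) :=
  Real.log_nonneg (by linarith [Real.exp_pos y])

lemma Gap4_LN (j : ℕ) : Lb j < NN j := by
  have := Mt_pos j
  unfold NN
  omega

lemma Gap4_one (j : ℕ) : 1 ≤ (tt j)⁻¹ := by
  have := tt_le j
  exact (one_le_inv₀ (tt_pos j)).2 (by linarith)

lemma Gap4_pow (j : ℕ) {a b : ℕ} (h : a ≤ b) : (tt j)⁻¹ ^ a ≤ (tt j)⁻¹ ^ b :=
  pow_le_pow_right₀ (Gap4_one j) h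

lemma Gap4_pow_succ (j a : ℕ) : (tt (j + 1))⁻¹ ^ a = (tt j)⁻¹ ^ (4 * a) := by
  rw [tt_succ, ← inv_pow, ← pow_mul]

lemma Gap4_log80 (j : ℕ) : Real.log ((tt j)⁻¹ ^ 80) = 5 / 2 * ell j := by
  rw [Real.log_pow, ell_eq]
  push_cast
  ring

lemma Gap4_ell (j : ℕ) : 90000 ≤ ell j := by
  have h := ell_ge j
  have : (1 : ℝ) ≤ 4 ^ j := one_le_pow₀ (by norm_num)
  linarith

lemma Gap4_mx_ge (j : ℕ) (z : ℂ) : ell j ≤ mx j z :=
  Real.log_le_log (rho_pos j) (le_max_right _ _)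

lemma Gap4_mx_log (j : ℕ) {z : ℂ} (hz : 0 < ‖z‖) : Real.log ‖z‖ ≤ mx j z :=
  Real.log_le_log hz (le_max_left _ _)

lemma Gap4_mx_le (j : ℕ) {z : ℂ} (hz : ‖z‖ ≤ (tt j)⁻¹ ^ 80) : mx j z ≤ 5 / 2 * ell j := by
  rw [← Gap4_log80]
  refine Real.log_le_log (lt_max_of_lt_right (rho_pos j)) (max_le hz ?_)
  exact Gap4_pow j (by norm_num)

lemma Gap4_mx_cases (j : ℕ) (z : ℂ) : mx j z = Real.log ‖z‖ ∧ ell j ≤ mx j z ∨ mx j z = ell j := by
  rcases le_total ‖z‖ (rho j) with h | h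
  · right
    unfold mx
    rw [max_eq_right h]
    rfl
  · left
    exact ⟨by unfold mx; rw [max_eq_left h], Gap4_mx_ge j z⟩

lemma Gap4_tP (j : ℕ) : tt j * PP j ≤ 1 := by
  have h := PP_tt j
  have h1 : (1 : ℝ) ≤ PP j := le_trans (by norm_num) (PP_ge j)
  have h2 : PP j ≤ PP j ^ 60 := le_self_pow₀ h1 (by norm_num)
  nlinarith [tt_pos j]

lemma Gap4_t_ell (j : ℕ) : tt j * ell (j + 1) ≤ 1 / 1000 := by
  have h := Gap4_tP j
  have h1 := ell_le_PP j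
  nlinarith [tt_pos j]

lemma Gap4_t_n (j : ℕ) : tt j * nn (j + 1) ≤ 1 := by
  have h := Gap4_tP j
  have h1 := nn_le_PP j
  have h2 := Mac2_nn_pos (j + 1)
  nlinarith [tt_pos j]

lemma Gap4_t_L (j : ℕ) : tt j * Lb (j + 1) ≤ 1 := by
  have h := Gap4_tP j
  have h1 := NN_le_PP j
  have h2 : (Lb (j + 1) : ℝ) ≤ NN (j + 1) := by exact_mod_cast (Gap4_LN (j + 1)).le
  have h3 := Mac2_Lb_one (j + 1)
  nlinarith [tt_pos j]

lemma Gap4_sq (j : ℕ) : tt (j + 1) ^ 2 ≤ tt j ^ 2 :=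
  pow_le_pow_left₀ (tt_pos _).le (tt_anti (Nat.le_succ j)) 2

/-- the gap across an interface, with the increment of the constants bounded below -/
lemma Gap4_base {x : Prm} (hx : InK x) (he : Eqs x) (j : ℕ) (z : ℂ) :
    (x.wall (j + 1)).Ds (nn (j + 1)) (Lb (j + 1)) + x.w (j + 2) 1 * ell (j + 2) - tt (j + 1) ^ 2 -
      x.G true j (NN j - 1) z + x.Br (j + 1) (Lb (j + 1)) z - x.G false (j + 2) 1 z ≤
      frm.Ut x.dat (CC x) (bs (j + 2)) z - frm.Ut x.dat (CC x) (bs (j + 2) - 1) z := by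
  have h1 := Lb_pos (j + 1)
  have h2 := Gap4_LN (j + 1)
  have hs := CC_step he ⟨j + 1, Lb (j + 1), 0, h1, h2⟩
  have e : bs (j + 2) = bs (j + 1) + Lb (j + 1) := Cst_bs (j + 1)
  have e1 : Nk.gap ⟨j + 1, Lb (j + 1), 0, h1, h2⟩ = bs (j + 2) - 1 := by
    simp only [Nk.gap]
    omega
  have e2 : bs (j + 2) - 1 + 1 = bs (j + 2) := by omega
  rw [e1, e2] at hs
  have hd := (abs_le.1 (hx.Dt_val h1 h2 0)).1
  rw [x.Oc_L] at hd
  rw [gap_face, Gap4_Br_N, Gap4_Br_zero, hs]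
  linarith

lemma Gap4_W_one {x : Prm} (hx : InK x) (j : ℕ) : 1 ≤ x.W j :=
  le_trans (one_le_pow₀ (by norm_num)) (hx.W_ge j)

lemma Gap4_c_nonneg {x : Prm} (hx : InK x) (j k : ℕ) : 0 ≤ (x.wall j).c k :=
  div_nonneg (hx.w_nonneg j k) (Mac2_nn_pos j).le

lemma Gap4_c_le {x : Prm} (hx : InK x) (j k : ℕ) : (x.wall j).c k ≤ x.w j k :=
  div_le_self (hx.w_nonneg j k) (Mac2_nn_one j)

lemma Gap4_c_L {x : Prm} (hx : InK x) (j k : ℕ) : (x.wall j).c k ≤ (x.wall j).c (Lb j) := by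
  rw [x.Mac1_c, x.Mac1_c, x.w_L]
  exact div_le_div_of_nonneg_right (hx.w_le j k) (Mac2_nn_pos j).le

lemma Gap4_lr {x : Prm} (hx : InK x) (j : ℕ) :
    |x.lr (j + 1) (Lb (j + 1)) - ell (j + 1)| ≤ 1 / 1000 := by
  refine (hx.lr_near (by omega) (Gap4_LN (j + 1)).le).trans ?_
  have := Mac2_nn_one (j + 1)
  exact one_div_le_one_div_of_le (by norm_num) (by linarith)

/-- the last ring of the inner wall -/
lemma Gap4_om_i {x : Prm} (hx : InK x) (j : ℕ) :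
    9999 / 10000 * (x.W j / Mt j) ≤ x.w j (NN j - 1) ∧
      x.w j (NN j - 1) ≤ 10001 / 10000 * (x.W j / Mt j) := by
  have h := Gap4_LN j
  have h1 := Lb_pos j
  refine ⟨hx.Mac2_ge_top (by omega) (by omega), ?_⟩
  have h2 := (abs_le.1 (hx.w_top (j := j) (k := NN j - 1) (by omega) (by omega))).2
  have e : (NN j : ℝ) - ((NN j - 1 : ℕ) : ℝ) = 1 := by
    rw [Nat.cast_sub (by omega)]
    push_cast
    ring
  rw [e, mul_one] at h2
  linarith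

/-- the slope budget at an interface -/
lemma Gap4_slopes {x : Prm} (hx : InK x) (j : ℕ) :
    x.W (j + 1) / Lb (j + 1) / 4 ≤ -x.D2 (j + 1) (Lb (j + 1)) - x.w j (NN j - 1) - x.w (j + 2) 1 ∧
      x.w (j + 2) 1 ≤ x.W (j + 1) / Lb (j + 1) := by
  have hL := Lb_pos (j + 1)
  have hL' := Mac2_Lb_one (j + 1)
  have hM : (Mt (j + 1) : ℝ) = 5 * Lb (j + 1) := by exact_mod_cast Mt_eq (j := j + 1) (by omega)
  have h1 := (abs_le.1 (hx.slope_bot (j := j + 1) (k := Lb (j + 1) - 1) (by omega))).1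
  rw [Nat.sub_add_cancel hL] at h1
  have h2 := (abs_le.1 (hx.slope_top (j := j + 1) le_rfl (Gap4_LN (j + 1)))).2
  have h3 := (Gap4_om_i hx j).2
  have h4 := (abs_le.1 (hx.w_bot (j := j + 2) (k := 1) (Lb_pos _))).2
  rw [Lb_succ (j + 1), hM, Nat.cast_one, mul_one] at h4
  rw [hM] at h2
  rw [← Lb_succ] at h3
  have h5 : x.W j / Lb (j + 1) ≤ 20 / 33 * (x.W (j + 1) / Lb (j + 1)) := by
    rw [← mul_div_assoc]
    exact div_le_div_of_nonneg_right (by linarith [(hx.W_succ j).1]) (by linarith)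
  have h6 : x.W (j + 2) / (5 * Lb (j + 1)) ≤ 17 / 50 * (x.W (j + 1) / Lb (j + 1)) := by
    rw [← div_div, ← mul_div_assoc]
    exact div_le_div_of_nonneg_right (by linarith [(hx.W_succ (j + 1)).2]) (by linarith)
  have h7 : x.W (j + 1) / (5 * Lb (j + 1)) = 1 / 5 * (x.W (j + 1) / Lb (j + 1)) := by
    field_simp
  have h8 : 0 ≤ x.W (j + 1) / Lb (j + 1) := div_nonneg (hx.Mac2_W_pos _).le (by linarith)
  rw [h7] at h2
  unfold Prm.D2
  constructor <;> linarith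

/-- the value of the model gap at the ring `L`, keeping only the main terms -/
lemma Gap4_Ds {x : Prm} (hx : InK x) (j : ℕ) :
    2 * (x.wall (j + 1)).c (Lb (j + 1)) * (999 / 1000 * ell (j + 1) - 1 / 1000) +
      (x.D2 (j + 1) (Lb (j + 1)) + x.w j (NN j - 1)) * x.lr (j + 1) (Lb (j + 1)) +
      (x.wall (j + 1)).c (Lb (j + 1) - 1) *
        Real.log (1 + Real.exp ((x.wall (j + 1)).y (nn (j + 1)) (Lb (j + 1) - 1))) +
      (x.wall (j + 1)).c (Lb (j + 1) + 1) *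
        Real.log (1 + Real.exp (-(x.wall (j + 1)).y (nn (j + 1)) (Lb (j + 1)))) ≤
      (x.wall (j + 1)).Ds (nn (j + 1)) (Lb (j + 1)) := by
  rw [x.Ds_eq, x.g_L, sub_neg_eq_add]
  have h1 := (abs_le.1 (Gap4_lr hx j)).1
  have h2 := (abs_le.1 (hx.log_w (Lb_pos (j + 1)) (Gap4_LN (j + 1)))).2
  have h3 := Gap4_c_nonneg hx (j + 1) (Lb (j + 1))
  have h4 : 999 / 1000 * ell (j + 1) - 1 / 1000 ≤
      x.lr (j + 1) (Lb (j + 1)) - Real.log (x.w (j + 1) (Lb (j + 1))) := by linarith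
  have h5 := mul_le_mul_of_nonneg_left h4 h3
  linarith

lemma Gap4_ar_in {om lr e m c t : ℝ} (hom : 0 ≤ om) (hlr : 4 * e - 1 / 1000 ≤ lr)
    (hm : m ≤ 5 / 2 * e) (hc : c ≤ om) (he : 90000 ≤ e) (hoe : 100 ≤ om * e) (ht0 : 0 < t)
    (ht : t ≤ 1 / 1000) (hte : t * (4 * e) ≤ 1 / 1000) :
    1 ≤ om * lr - (om * m + 6 * c + t ^ 2 * (1 + m)) - 6 * t ^ 2 := by
  have h1 : om * (4 * e - 1 / 1000) ≤ om * lr := mul_le_mul_of_nonneg_left hlr hom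
  have h2 : om * m ≤ om * (5 / 2 * e) := mul_le_mul_of_nonneg_left hm hom
  have h3 : om * 90000 ≤ om * e := mul_le_mul_of_nonneg_left he hom
  have h4 : t ^ 2 * m ≤ t ^ 2 * (5 / 2 * e) := mul_le_mul_of_nonneg_left hm (by positivity)
  have h5 : t * (t * (4 * e)) ≤ t * (1 / 1000) := mul_le_mul_of_nonneg_left hte ht0.le
  have h6 : t * t ≤ t * (1 / 1000) := mul_le_mul_of_nonneg_left ht ht0.le
  nlinarith

lemma Gap4_ar_mid {c A om lr e m s t d : ℝ} (hc : t ≤ c) (hom : 0 ≤ om) (hA : om ≤ A)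
    (hd : A * d ≤ c) (hd0 : 0 ≤ d) (hlr : lr ≤ e + d) (hm : e ≤ m) (hs : s ≤ m)
    (hm2 : m ≤ 5 / 2 * e) (he : 90000 ≤ e) (ht0 : 0 < t) (ht : t ≤ 1 / 1000)
    (hte : t * e ≤ 1 / 1000) :
    t ≤ 2 * c * (999 / 1000 * e - 1 / 1000) + (-A + om) * lr - (om * s + t ^ 2 * (1 + s)) +
      (A * m - 2 * (c * (5 / 8 * e + 6)) - 12 * c - 4 * (t ^ 2 * (1 + m))) - 2 * t ^ 2 := by
  have h1 : om * s ≤ om * m := mul_le_mul_of_nonneg_left hs hom
  have h2 : (A - om) * (-d) ≤ (A - om) * (m - lr) :=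
    mul_le_mul_of_nonneg_left (by linarith) (by linarith)
  have h3 : 0 ≤ om * d := mul_nonneg hom hd0
  have h4 : c * 90000 ≤ c * e := mul_le_mul_of_nonneg_left he (by linarith)
  have h5 : t ^ 2 * s ≤ t ^ 2 * (5 / 2 * e) :=
    mul_le_mul_of_nonneg_left (by linarith) (by positivity)
  have h6 : t ^ 2 * m ≤ t ^ 2 * (5 / 2 * e) := mul_le_mul_of_nonneg_left hm2 (by positivity)
  have h7 : t * (t * e) ≤ t * (1 / 1000) := mul_le_mul_of_nonneg_left hte ht0.le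
  have h8 : t * t ≤ t * (1 / 1000) := mul_le_mul_of_nonneg_left ht ht0.le
  nlinarith

lemma Gap4_ar_out {B A om oo co lr eo m s t : ℝ} (hB : t ≤ B) (hA : B / 4 ≤ A - om - oo)
    (hoo : 0 ≤ oo) (hco : co ≤ B) (hD : 1000 ≤ s - lr) (hm : m - eo ≤ s - lr)
    (hm2 : 1 + m ≤ 4 * (s - lr)) (hs : s ≤ m) (hm0 : 0 ≤ m) (ht0 : 0 < t) (ht : t ≤ 1 / 1000) :
    t ≤ (-A + om) * lr + oo * eo - t ^ 2 - (om * s + t ^ 2 * (1 + s)) +
      (A * s - 4 * (t ^ 2 * (1 + s))) - (oo * m + 6 * co + t ^ 2 * (1 + m)) := by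
  have h1 : oo * (m - eo) ≤ oo * (s - lr) := mul_le_mul_of_nonneg_left hm hoo
  have h2 : B / 4 * (s - lr) ≤ (A - om - oo) * (s - lr) :=
    mul_le_mul_of_nonneg_right hA (by linarith)
  have h3 : B * 1000 ≤ B * (s - lr) := mul_le_mul_of_nonneg_left hD (by linarith)
  have h4 : t ^ 2 * (1 + s) ≤ t ^ 2 * (1 + m) :=
    mul_le_mul_of_nonneg_left (by linarith) (by positivity)
  have h5 : t ^ 2 * 1 ≤ t ^ 2 * (1 + m) := mul_le_mul_of_nonneg_left (by linarith) (by positivity)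
  have h6 : t ^ 2 ≤ B / 1000 := by nlinarith
  have h7 : t ^ 2 * (1 + m) ≤ B / 1000 * (4 * (s - lr)) :=
    mul_le_mul h6 hm2 (by linarith) (by linarith)
  nlinarith

variable {x : Prm} (hx : InK x) (he : Eqs x)
include hx he

theorem gap_face_in (j : ℕ) {z : ℂ} (hz : ‖z‖ ≤ (tt j)⁻¹ ^ 80) :
    frm.Ut x.dat (CC x) (bs (j + 2) - 1) z + 1 ≤ frm.Ut x.dat (CC x) (bs (j + 2)) z := by
  have hb := Gap4_base hx he j z
  have hD := Gap4_Ds hx j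
  have hz1 : ‖z‖ ≤ (tt (j + 1))⁻¹ ^ 24 := by
    rw [Gap4_pow_succ]
    exact hz.trans (Gap4_pow j (by norm_num))
  have hz2 : ‖z‖ ≤ (tt (j + 2))⁻¹ ^ 24 := by
    rw [Gap4_pow_succ]
    exact hz1.trans (Gap4_pow _ (by norm_num))
  have g1 := (abs_le.1 (hx.G_in true (j := j + 1) (by omega) (Lb (j + 1)) hz1)).1
  have g2 := (abs_le.1 (hx.G_in false (j := j + 1) (by omega) (Lb (j + 1)) hz1)).1
  have g3 := (abs_le.1 (hx.G_in false (j := j + 1) (by omega) (Lb (j + 1) + 1) hz1)).2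
  have g4 := (abs_le.1 (hx.G_in true (j := j + 1) (by omega) (Lb (j + 1) - 1) hz1)).2
  have g5 := (abs_le.1 (hx.G_in false (j := j + 2) (by omega) 1 hz2)).2
  rw [x.lr_one] at g5
  have g6 := hx.G_up true j (NN j - 1) z
  have hw := x.wlr_eq (j + 1) (Lb_pos (j + 1))
  have l1 := mul_le_mul_of_nonneg_left
    (Gap4_log ((x.wall (j + 1)).y (nn (j + 1)) (Lb (j + 1) - 1)))
    (Gap4_c_nonneg hx (j + 1) (Lb (j + 1) - 1))
  have l2 := mul_le_mul_of_nonneg_left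
    (Gap4_log (-(x.wall (j + 1)).y (nn (j + 1)) (Lb (j + 1))))
    (Gap4_c_nonneg hx (j + 1) (Lb (j + 1) + 1))
  have s1 := Gap4_sq j
  have s2 := Gap4_sq (j + 1)
  have e1 := Gap4_ell j
  have e2 := ell_succ j
  have l3 : 0 ≤ (x.wall (j + 1)).c (Lb (j + 1)) * (999 / 1000 * ell (j + 1) - 1 / 1000) :=
    mul_nonneg (Gap4_c_nonneg hx _ _) (by linarith)
  have hoe : 100 ≤ x.w j (NN j - 1) * ell j := by
    have a1 := (Gap4_om_i hx j).1
    have a2 : (33 / 20) ^ j / Mt j ≤ x.W j / Mt j :=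
      div_le_div_of_nonneg_right (hx.W_ge j) (by positivity)
    have a3 : ((33 : ℝ) / 20) ^ j / Mt j * 4 ^ j = (33 / 25) ^ j := by
      unfold Mt
      push_cast
      rw [← div_pow, ← mul_pow]
      norm_num
    have a4 : (1 : ℝ) ≤ (33 / 25) ^ j := one_le_pow₀ (by norm_num)
    have a5 : (0 : ℝ) ≤ (33 / 20) ^ j / Mt j := by positivity
    have a6 : 1 / 2 * (((33 : ℝ) / 20) ^ j / Mt j) * (90000 * 4 ^ j) ≤ x.w j (NN j - 1) * ell j :=
      mul_le_mul (by linarith) (ell_ge j) (by positivity) (hx.w_nonneg _ _)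
    nlinarith
  have key := Gap4_ar_in (lr := x.lr (j + 1) (Lb (j + 1))) (hx.w_nonneg j (NN j - 1))
    (by linarith [(abs_le.1 (Gap4_lr hx j)).1]) (Gap4_mx_le j hz) (Gap4_c_le hx j (NN j - 1)) e1 hoe
    (tt_pos j) (tt_le j) (by rw [← e2]; exact Gap4_t_ell j)
  unfold Prm.Br at hb
  linarith

theorem gap_face_mid (j : ℕ) {z : ℂ} (h1 : (tt j)⁻¹ ^ 80 ≤ ‖z‖) (h2 : ‖z‖ ≤ (tt (j + 1))⁻¹ ^ 80) :
    frm.Ut x.dat (CC x) (bs (j + 2) - 1) z + tt j ≤ frm.Ut x.dat (CC x) (bs (j + 2)) z := by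
  have hb := Gap4_base hx he j z
  have hD := Gap4_Ds hx j
  have hz0 : 0 < ‖z‖ := lt_of_lt_of_le (pow_pos (inv_pos.2 (tt_pos j)) _) h1
  have hz1 : (tt j)⁻¹ ^ 40 ≤ ‖z‖ := (Gap4_pow j (by norm_num)).trans h1
  have hz2 : ‖z‖ ≤ (tt (j + 2))⁻¹ ^ 24 := by
    rw [Gap4_pow_succ]
    exact h2.trans (Gap4_pow _ (by norm_num))
  have g1 := hx.G_lo true (j := j + 1) (by omega) (Lb (j + 1)) z
  have g2 := hx.G_lo false (j := j + 1) (by omega) (Lb (j + 1)) z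
  have g3 := hx.G_up false (j + 1) (Lb (j + 1) + 1) z
  have g4 := hx.G_up true (j + 1) (Lb (j + 1) - 1) z
  have g5 := (abs_le.1 (hx.G_in false (j := j + 2) (by omega) 1 hz2)).2
  rw [x.lr_one] at g5
  have g6 := (abs_le.1 (hx.G_out true j (NN j - 1) hz1)).2
  have l1 := mul_nonneg (Gap4_c_nonneg hx (j + 1) (Lb (j + 1) - 1))
    (Gap4_log0 ((x.wall (j + 1)).y (nn (j + 1)) (Lb (j + 1) - 1)))
  have l2 := mul_nonneg (Gap4_c_nonneg hx (j + 1) (Lb (j + 1) + 1))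
    (Gap4_log0 (-(x.wall (j + 1)).y (nn (j + 1)) (Lb (j + 1))))
  have s1 := Gap4_sq j
  have s2 := Gap4_sq (j + 1)
  have e1 := Gap4_ell (j + 1)
  have m1 := Gap4_mx_ge (j + 1) z
  have s3 : tt (j + 1) ^ 2 * (1 + mx (j + 1) z) ≤ tt j ^ 2 * (1 + mx (j + 1) z) :=
    mul_le_mul_of_nonneg_right s1 (by linarith)
  have c1 := Gap4_c_L hx (j + 1) (Lb (j + 1) + 1)
  have c2 := Gap4_c_L hx (j + 1) (Lb (j + 1) - 1)
  have hn := Mac2_nn_pos (j + 1)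
  have hW := Gap4_W_one hx (j + 1)
  have hc : tt j ≤ (x.wall (j + 1)).c (Lb (j + 1)) := by
    rw [x.Mac1_c, x.w_L, le_div_iff₀ hn]
    linarith [Gap4_t_n j]
  have hA : x.w j (NN j - 1) ≤ -x.D2 (j + 1) (Lb (j + 1)) := by
    have a1 := (Gap4_slopes hx j).1
    have a2 : 0 ≤ x.W (j + 1) / Lb (j + 1) := by positivity
    linarith [hx.w_nonneg (j + 2) 1]
  have hd : -x.D2 (j + 1) (Lb (j + 1)) * (1 / (1000 * nn (j + 1))) ≤
      (x.wall (j + 1)).c (Lb (j + 1)) := by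
    rw [x.Mac1_c, x.w_L, mul_one_div, ← div_div]
    refine div_le_div_of_nonneg_right ?_ hn.le
    unfold Prm.D2
    rw [x.w_L]
    linarith [hx.w_nonneg (j + 1) (Lb (j + 1) + 1), hx.w_nonneg (j + 1) (Lb (j + 1) - 1)]
  have key := Gap4_ar_mid (lr := x.lr (j + 1) (Lb (j + 1))) hc (hx.w_nonneg j (NN j - 1)) hA hd
    (by positivity)
    (by linarith [(abs_le.1 (hx.lr_near (j := j + 1) (by omega) (Gap4_LN (j + 1)).le)).2])
    m1 (Gap4_mx_log (j + 1) hz0) (Gap4_mx_le (j + 1) h2) e1 (tt_pos j) (tt_le j) (Gap4_t_ell j)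
  unfold Prm.Br at hb
  unfold Prm.D2 at key hD
  linarith

theorem gap_face_out (j : ℕ) {z : ℂ} (hz : (tt (j + 1))⁻¹ ^ 80 ≤ ‖z‖) :
    frm.Ut x.dat (CC x) (bs (j + 2) - 1) z + tt j ≤ frm.Ut x.dat (CC x) (bs (j + 2)) z := by
  have hb := Gap4_base hx he j z
  have hD := Gap4_Ds hx j
  have hp : 0 < (tt (j + 1))⁻¹ ^ 80 := pow_pos (inv_pos.2 (tt_pos _)) _
  have hz0 : 0 < ‖z‖ := lt_of_lt_of_le hp hz
  have hz1 : (tt (j + 1))⁻¹ ^ 40 ≤ ‖z‖ := (Gap4_pow _ (by norm_num)).trans hz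
  have hz2 : (tt j)⁻¹ ^ 40 ≤ ‖z‖ := by
    rw [Gap4_pow_succ] at hz1
    exact (Gap4_pow _ (by norm_num)).trans hz1
  have hs : 5 / 2 * ell (j + 1) ≤ Real.log ‖z‖ := by
    rw [← Gap4_log80]
    exact Real.log_le_log hp hz
  have g1 := (abs_le.1 (hx.G_out true (j + 1) (Lb (j + 1)) hz1)).1
  have g2 := (abs_le.1 (hx.G_out false (j + 1) (Lb (j + 1)) hz1)).1
  have g3 := (abs_le.1 (hx.G_out false (j + 1) (Lb (j + 1) + 1) hz1)).2
  have g4 := (abs_le.1 (hx.G_out true (j + 1) (Lb (j + 1) - 1) hz1)).2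
  have g5 := hx.G_up false (j + 2) 1 z
  have g6 := (abs_le.1 (hx.G_out true j (NN j - 1) hz2)).2
  have l1 := mul_nonneg (Gap4_c_nonneg hx (j + 1) (Lb (j + 1) - 1))
    (Gap4_log0 ((x.wall (j + 1)).y (nn (j + 1)) (Lb (j + 1) - 1)))
  have l2 := mul_nonneg (Gap4_c_nonneg hx (j + 1) (Lb (j + 1) + 1))
    (Gap4_log0 (-(x.wall (j + 1)).y (nn (j + 1)) (Lb (j + 1))))
  have s1 := Gap4_sq j
  have s2 := Gap4_sq (j + 1)
  have e1 := Gap4_ell (j + 1)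
  have e2 : ell (j + 2) = 4 * ell (j + 1) := ell_succ (j + 1)
  have l3 : 0 ≤ (x.wall (j + 1)).c (Lb (j + 1)) * (999 / 1000 * ell (j + 1) - 1 / 1000) :=
    mul_nonneg (Gap4_c_nonneg hx _ _) (by linarith)
  have m1 := Gap4_mx_ge (j + 2) z
  have s3 : tt (j + 1) ^ 2 * (1 + Real.log ‖z‖) ≤ tt j ^ 2 * (1 + Real.log ‖z‖) :=
    mul_le_mul_of_nonneg_right s1 (by linarith)
  have s4 : tt (j + 2) ^ 2 * (1 + mx (j + 2) z) ≤ tt j ^ 2 * (1 + mx (j + 2) z) :=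
    mul_le_mul_of_nonneg_right (s2.trans s1) (by linarith)
  have hL := Mac2_Lb_one (j + 1)
  have hW := Gap4_W_one hx (j + 1)
  have hB : tt j ≤ x.W (j + 1) / Lb (j + 1) := by
    rw [le_div_iff₀ (by linarith)]
    linarith [Gap4_t_L j]
  have hlr := (abs_le.1 (Gap4_lr hx j)).2
  have hm : mx (j + 2) z - ell (j + 2) ≤ Real.log ‖z‖ - x.lr (j + 1) (Lb (j + 1)) := by
    rcases Gap4_mx_cases (j + 2) z with h | h
    · linarith [h.1]
    · linarith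
  have hm2 : 1 + mx (j + 2) z ≤ 4 * (Real.log ‖z‖ - x.lr (j + 1) (Lb (j + 1))) := by
    rcases Gap4_mx_cases (j + 2) z with h | h
    · linarith [h.1, h.2]
    · linarith
  have key := Gap4_ar_out hB (Gap4_slopes hx j).1 (hx.w_nonneg (j + 2) 1)
    ((Gap4_c_le hx (j + 2) 1).trans (Gap4_slopes hx j).2) (by linarith) hm hm2
    (Gap4_mx_log (j + 2) hz0) (by linarith) (tt_pos j) (tt_le j)
  unfold Prm.Br at hb
  unfold Prm.D2 at key hD
  linarith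

end Pool.Agent.MP_943ae2_gt
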