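import Pool.Agent.MP_943ae2_gt.Gap3
import Pool.Agent.MP_943ae2_gt.Gap4
import Pool.Agent.MP_943ae2_gt.Err3

open Set Complex Filter Finset
open scoped Topology ComplexConjugate ContDiff

noncomputable section

namespace Pool.Agent.MP_943ae2_gt

lemma Gap5_G_out (x : Prm) (s : Bool) {j k : ℕ} (h : k = 0 ∨ NN j ≤ k) (z : ℂ) :
    x.G s j k z = 0 := by
  unfold Prm.G ringSum
  rw [dif_neg (by omega)]

lemma Gap5_mx_ge (j : ℕ) (z : ℂ) : ell j ≤ mx j z :=
  Real.log_le_log (rho_pos j) (le_max_right _ _)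

lemma Gap5_ell_pos (j : ℕ) : 0 < ell j := lt_of_lt_of_le (by positivity) (ell_ge j)

lemma Gap5_sq (j : ℕ) : tt j ^ 2 ≤ 1 / 10 ^ 6 := by
  have h1 := tt_le j
  have h2 := tt_pos j
  nlinarith

lemma Gap5_T {j a : ℕ} (h1 : 1 ≤ a) : frm.T (bs (j + 1) + a - 1 - 1) ^ 5 ≤ tt j := by
  change tt (lev (bs (j + 1) + a - 1 - 1)) ^ 5 ≤ tt j
  rcases j with _ | j
  · have h2 := tt_anti (Nat.zero_le (lev (bs (0 + 1) + a - 1 - 1)))
    exact (pow_le_of_le_one (tt_pos _).le (admM_tt_one _) (by norm_num)).trans h2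
  · have h2 : lev (bs (j + 1) + Mt j - 1) = j := lev_block (Mt_pos j) le_rfl
    have h3 : bs (j + 1 + 1) = bs (j + 1) + Mt j := rfl
    have h4 : j ≤ lev (bs (j + 1 + 1) + a - 1 - 1) := by
      rw [← h2]
      conv_rhs => rw [h2]
      exact lev_mono (by omega)
    have h5 := tt_anti h4
    have h6 := tt_pos (lev (bs (j + 1 + 1) + a - 1 - 1))
    rw [tt_succ]
    calc _ ≤ tt j ^ 5 := by gcongr
      _ ≤ tt j ^ 4 := pow_le_pow_of_le_one (tt_pos j).le (admM_tt_one j) (by norm_num)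

variable {x : Prm} (hx : InK x) (he : Eqs x)
include hx he

theorem gap_first (z : ℂ) : frm.Ut x.dat (CC x) 0 z + 1 ≤ frm.Ut x.dat (CC x) 1 z := by
  have h0 := gap_zero x (CC x) z
  have hN : 1 < NN 0 := by rw [NN_zero]; norm_num
  have h1 : CC x 1 - CC x 0 = x.Dt 0 1 0 := CC_step he ⟨0, 1, 0, le_rfl, hN⟩
  have h2 := (abs_le.1 (hx.Dt_val (j := 0) (k := 1) le_rfl hN 0)).1
  have h3 : x.Oc 0 1 = x.w 1 1 * ell 1 := x.Oc_L 0
  have h4 : x.w 1 1 = x.W 1 := x.w_L 1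
  have h5 : 33 / 20 * 1 ≤ x.W 1 ∧ x.W 1 ≤ 17 / 10 * 1 := hx.W_succ 0
  rw [x.Ds_zero, h3, h4] at h2
  have h6 : x.Br 0 1 z = x.G true 0 1 z + x.G false 0 1 z := by
    unfold Prm.Br
    rw [Gap5_G_out x false (j := 0) (k := 1 + 1) (Or.inr (by rw [NN_zero])),
      Gap5_G_out x true (j := 0) (k := 1 - 1) (Or.inl rfl)]
    ring
  have h7 : x.Br 1 0 z = -x.G false 1 1 z := by
    unfold Prm.Br
    rw [Gap5_G_out x true (j := 1) (k := 0) (Or.inl rfl),
      Gap5_G_out x false (j := 1) (k := 0) (Or.inl rfl)]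
    ring
  have h8 := hx.G_ctr true z
  have h9 := hx.G_ctr false z
  have h10 := hx.G_up false 1 1 z
  have h11 : (x.wall 1).c 1 ≤ 2 := by
    rw [x.Mac1_c, h4]
    have := admM_nn_pos 1
    rw [div_le_iff₀ (by positivity)]
    linarith [h5.2]
  rw [h4] at h10
  have s0 := Gap5_sq 0
  have s1 := Gap5_sq 1
  have p1 : 0 ≤ tt 1 ^ 2 := by positivity
  have e0 : 90000 ≤ ell 0 := by simpa using ell_ge 0
  have e1 : ell 1 = 4 * ell 0 := ell_succ 0
  have m1 := Gap5_mx_ge 1 z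
  have ht := inv_pos.2 (tt_pos 0)
  set M := Real.log (max ‖z‖ ((tt 0)⁻¹ ^ 12)) with hM
  have hM1 : 3 / 8 * ell 0 ≤ M := by
    have : Real.log ((tt 0)⁻¹ ^ 12) ≤ M := Real.log_le_log (by positivity) (le_max_right _ _)
    rw [Real.log_pow] at this
    rw [ell_eq]
    push_cast at this
    linarith
  have q1 : tt 1 ^ 2 * (1 + mx 1 z) ≤ 1 / 10 ^ 6 * (1 + mx 1 z) :=
    mul_le_mul_of_nonneg_right s1 (by linarith)
  rw [h1, h6, h7] at h0
  rcases le_total ‖z‖ (rho 1) with hz | hz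
  · have m2 : mx 1 z = ell 1 := by unfold mx ell; rw [max_eq_right hz]
    rw [m2] at h10 q1
    linarith
  · have m2 : mx 1 z ≤ M := by
      unfold mx
      rw [max_eq_left hz]
      exact Real.log_le_log (lt_of_lt_of_le (rho_pos 1) hz) (le_max_left _ _)
    have q2 : x.W 1 * mx 1 z ≤ 17 / 10 * mx 1 z :=
      mul_le_mul_of_nonneg_right (by linarith [h5.2]) (by linarith)
    have q3 : 1 * ell 1 ≤ x.W 1 * ell 1 :=
      mul_le_mul_of_nonneg_right (by linarith [h5.1]) (by linarith)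
    linarith

lemma Gap5_gap (k : ℕ) (z : ℂ) :
    frm.Ut x.dat (CC x) k z + frm.T (k - 1) ^ 5 ≤ frm.Ut x.dat (CC x) (k + 1) z := by
  rcases layer_cases k with rfl | ⟨j, a, h1, h2, rfl⟩
  · have h := gap_first hx he z
    have h3 : frm.T (0 - 1) ^ 5 ≤ 1 := pow_le_one₀ (tt_pos _).le (admM_tt_one _)
    simp only [zero_add]
    linarith
  · have h3 := Gap5_T (j := j) h1
    have h4 : bs (j + 1) + a - 1 + 1 = bs (j + 1) + a := by omega
    rw [h4]
    rcases lt_or_eq_of_le h2 with h5 | rfl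
    · rcases le_total ‖z‖ ((tt j)⁻¹ ^ 80) with hz | hz
      · linarith [gap_int_in hx he h1 h5 hz]
      · linarith [gap_int_out hx he h1 h5 hz]
    · have h6 : bs (j + 1) + Mt j = bs (j + 2) := rfl
      rw [h6] at h3 ⊢
      rcases le_total ‖z‖ ((tt j)⁻¹ ^ 80) with hz | hz
      · linarith [gap_face_in hx he j hz, admM_tt_one j]
      · rcases le_total ‖z‖ ((tt (j + 1))⁻¹ ^ 80) with hz' | hz'
        · linarith [gap_face_mid hx he j hz hz']
        · linarith [gap_face_out hx he j hz']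

lemma Gap5_mono (z : ℂ) : Monotone fun k => frm.Ut x.dat (CC x) k z :=
  monotone_nat_of_le_succ fun k => by
    have h1 := Gap5_gap hx he k z
    have h2 : 0 ≤ frm.T (k - 1) ^ 5 := pow_nonneg (tt_pos _).le _
    linarith

omit he in
lemma Gap5_base {r : ℝ} {z : ℂ} (hz : ‖z‖ ≤ r) :
    -(2 * Real.log (max r (rho 0)) + 7) ≤ frm.Ut x.dat (CC x) 0 z := by
  rw [Ut_zero]
  have h1 := hx.G_up false 0 1 z
  have h2 : x.w 0 1 = 1 := x.w_L 0
  have h3 : (x.wall 0).c 1 = 1 := by rw [x.Mac1_c, h2, nn_zero]; norm_num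
  have h4 : mx 0 z ≤ Real.log (max r (rho 0)) :=
    Real.log_le_log (lt_of_lt_of_le (rho_pos 0) (le_max_right _ _)) (max_le_max hz le_rfl)
  have h5 := Gap5_mx_ge 0 z
  have h6 := Gap5_ell_pos 0
  have h7 : tt 0 ^ 2 * (1 + mx 0 z) ≤ 1 * (1 + mx 0 z) :=
    mul_le_mul_of_nonneg_right ((Gap5_sq 0).trans (by norm_num)) (by linarith)
  have h8 : CC x 0 = 0 := rfl
  rw [h2, h3] at h1
  linarith

lemma Gap5_climb {r : ℝ} {J : ℕ} (hJ : ∀ j, J ≤ j → r ≤ rho j) {z : ℂ} (hz : ‖z‖ ≤ r) (m : ℕ) :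
    frm.Ut x.dat (CC x) 0 z + m ≤ frm.Ut x.dat (CC x) (bs (J + m + 1)) z := by
  induction m with
  | zero => simpa using Gap5_mono hx he z (Nat.zero_le _)
  | succ m ih =>
    have h1 : ‖z‖ ≤ (tt (J + m))⁻¹ ^ 80 :=
      (hz.trans (hJ (J + m) (by omega))).trans (pow_le_pow_right₀ (admM_inv_one _) (by norm_num))
    have h2 := gap_face_in hx he (J + m) h1
    have h3 : bs (J + m + 1) ≤ bs (J + m + 2) - 1 := by
      have h4 : bs (J + m + 2) = bs (J + m + 1) + Lb (J + m + 1) := rfl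
      have := Lb_pos (J + m + 1)
      omega
    have h5 : frm.Ut x.dat (CC x) (bs (J + m + 1)) z ≤ frm.Ut x.dat (CC x) (bs (J + m + 2) - 1) z :=
      Gap5_mono hx he z h3
    have h6 : J + (m + 1) + 1 = J + m + 2 := rfl
    rw [h6]
    push_cast
    linarith

theorem Eqs_ord : frm.Ord x.dat (CC x) where
  gap := Gap5_gap hx he
  up r A := by
    obtain ⟨J, hJ⟩ := eventually_atTop.1 (rho_tendsto.eventually_ge_atTop r)
    obtain ⟨m, hm⟩ := exists_nat_ge (A + (2 * Real.log (max r (rho 0)) + 7))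
    refine ⟨bs (J + m + 1), fun k hk z hz => ?_⟩
    have h1 := Gap5_climb hx he hJ hz m
    have h2 := Gap5_base hx hz
    have h3 : frm.Ut x.dat (CC x) (bs (J + m + 1)) z ≤ frm.Ut x.dat (CC x) k z :=
      Gap5_mono hx he z hk
    linarith

end Pool.Agent.MP_943ae2_gt
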