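import Pool.Agent.MP_943ae2_gt.Defs

/-! The target statement and the data from which the surface is assembled. -/

open Set Complex
open scoped Topology ComplexConjugate ContDiff Manifold

noncomputable section

namespace Pool.Agent.MP_943ae2_gt

def Final : Prop :=
  ∃ (M : Type) (_ : TopologicalSpace M) (_ : ChartedSpace E2 M) (_ : IsManifold (𝓡 2) ∞ M)
    (_ : T2Space M) (_ : ConnectedSpace M) (f : M → E3),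
    IsMinimal f ∧ Topology.IsEmbedding f ∧ (∀ K, IsCompact K → IsCompact (f ⁻¹' K)) ∧ TwoEnds M ∧
    ∃ u : M → ℝ, ContMDiff (𝓡 2) 𝓘(ℝ, ℝ) ∞ u ∧ (∀ p, 0 < u p) ∧ (∀ p, lapBel f u p ≤ 0) ∧
      ∃ p q, u p ≠ u q

/-- the point with horizontal part `z` and height `h` -/
def mk3 (z : ℂ) (h : ℝ) : E3 := !₂[z.re, z.im, h]

def toC (x : E2) : ℂ := ⟨x 0, x 1⟩

def toE2 (z : ℂ) : E2 := !₂[z.re, z.im]

/-- the differential of the Weierstrass representation with spinors `a`, `b` -/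
def Wei (X : ℂ → E3) (a b z : ℂ) : Prop :=
  ∃ L : ℂ →L[ℝ] E3, HasFDerivAt X L z ∧
    ∀ v, L v = mk3 (a ^ 2 * v - conj (b ^ 2 * v)) (2 * (a * b * v).re)

/-- smooth and superharmonic on a set -/
def SupOn (u : ℂ → ℝ) (U : Set ℂ) : Prop :=
  ∀ z ∈ U, ContDiffAt ℝ ∞ u z ∧ Laplacian.laplacian u z ≤ 0

structure Atlas where
  U : ℕ → Set ℂ
  Ub : ℕ → Set ℂ
  X : ℕ → ℂ → E3
  a : ℕ → ℂ → ℂ
  b : ℕ → ℂ → ℂ
  u : ℕ → ℂ → ℝ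
  opn : ∀ k, IsOpen (U k)
  cls : ∀ k, IsClosed (Ub k)
  sub : ∀ k, Ub k ⊆ U k
  hol_a : ∀ k, DifferentiableOn ℂ (a k) (U k)
  hol_b : ∀ k, DifferentiableOn ℂ (b k) (U k)
  a_ne : ∀ k, ∀ z ∈ U k, a k z ≠ 0
  wei : ∀ k, ∀ z ∈ U k, Wei (X k) (a k z) (b k z) z
  cover : ∀ k, ∀ z ∈ U k, ∃ k', ∃ z' ∈ Ub k', X k' z' = X k z
  inj : ∀ k, InjOn (X k) (U k)
  rel : ∀ k k', ∀ z ∈ U k, ∀ z' ∈ U k', X k z = X k' z' →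
    ∃ φ : ℂ → ℂ, ContDiffAt ℝ ∞ φ z ∧ φ z = z' ∧ ∀ᶠ y in 𝓝 z, X k' (φ y) = X k y
  proper : ∀ R : ℝ, ∃ K : ℕ, ∀ k, ∀ z ∈ Ub k, ‖X k z‖ ≤ R → k ≤ K ∧ ‖z‖ ≤ K
  conn : ∀ k, IsPreconnected (Ub k)
  link : ∀ k, ∃ z ∈ Ub k, ∃ z' ∈ Ub (k + 1), X k z = X (k + 1) z'
  far : ∀ k, ∃ R : ℝ, ∀ z, R ≤ ‖z‖ → z ∈ Ub k ∧ ∀ k', ∀ z' ∈ U k', X k' z' = X k z → k' = k
  u_sup : ∀ k, SupOn (u k) (U k)
  u_pos : ∀ k, ∀ z ∈ U k, 0 < u k z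
  u_rel : ∀ k k', ∀ z ∈ U k, ∀ z' ∈ U k', X k z = X k' z' → u k z = u k' z'
  u_nc : ∃ k, ∃ z ∈ U k, ∃ z' ∈ U k, u k z ≠ u k z'

/-- the surface as a subset of `ℝ³` -/
def Atlas.S (A : Atlas) : Set E3 := ⋃ k, A.X k '' A.U k

/-- the charts of `M` are the parametrisations of the atlas -/
def Atlas.Charts (A : Atlas) {M : Type} [TopologicalSpace M] [ChartedSpace E2 M] (f : M → E3) :
    Prop :=
  ∀ p : M, ∃ k, ∃ z ∈ A.U k, ctr p = toE2 z ∧ f p = A.X k z ∧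
    ∀ᶠ y in 𝓝 (ctr p), loc f p y = A.X k (toC y)

end Pool.Agent.MP_943ae2_gt
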