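import Pool.Agent.MP_943ae2_gt.Glue0

open Set Complex Filter
open scoped Topology ComplexConjugate ContDiff

noncomputable section

namespace Pool.Agent.MP_943ae2_gt

open scoped Manifold

theorem glue1_toC_toE2 (z : ℂ) : toC (toE2 z) = z := by
  apply Complex.ext <;> simp [toC, toE2]

theorem glue1_toE2_toC (x : E2) : toE2 (toC x) = x := by
  ext i
  fin_cases i <;> simp [toC, toE2]

theorem glue1_contDiff_toE2 : ContDiff ℝ ∞ toE2 := by
  refine contDiff_euclidean.2 fun i => ?_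
  fin_cases i
  · exact reCLM.contDiff
  · exact imCLM.contDiff

theorem glue1_contDiff_toC : ContDiff ℝ ∞ toC := by
  have : toC = fun x : E2 => (x 0 : ℝ) • (1 : ℂ) + (x 1 : ℝ) • I := by
    funext x
    apply Complex.ext <;> simp [toC]
  rw [this]
  fun_prop

theorem glue1_mk3 {f : ℂ → ℂ} {h : ℂ → ℝ} {U : Set ℂ} (hf : ContDiffOn ℝ ∞ f U)
    (hh : ContDiffOn ℝ ∞ h U) : ContDiffOn ℝ ∞ (fun z => mk3 (f z) (h z)) U := by
  refine contDiffOn_euclidean.2 fun i => ?_
  fin_cases i
  · exact reCLM.contDiff.comp_contDiffOn hf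
  · exact imCLM.contDiff.comp_contDiffOn hf
  · exact hh

theorem Wei.contDiffAt {X : ℂ → E3} {a b : ℂ → ℂ} {U : Set ℂ} (hU : IsOpen U)
    (ha : DifferentiableOn ℂ a U) (hb : DifferentiableOn ℂ b U)
    (hw : ∀ z ∈ U, Wei X (a z) (b z) z) {z : ℂ} (hz : z ∈ U) : ContDiffAt ℝ ∞ X z := by
  have ha' : ContDiffOn ℝ ∞ a U := (ha.contDiffOn hU).restrict_scalars ℝ
  have hb' : ContDiffOn ℝ ∞ b U := (hb.contDiffOn hU).restrict_scalars ℝ
  have hv : ∀ v : ℂ, ContDiffOn ℝ ∞
      (fun z => mk3 (a z ^ 2 * v - conj (b z ^ 2 * v)) (2 * (a z * b z * v).re)) U := fun v =>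
    glue1_mk3 (((ha'.pow 2).mul contDiffOn_const).sub
        (conjCLE.contDiff.comp_contDiffOn ((hb'.pow 2).mul contDiffOn_const)))
      (contDiffOn_const.mul (reCLM.contDiff.comp_contDiffOn ((ha'.mul hb').mul contDiffOn_const)))
  refine ContDiffOn.contDiffAt ?_ (hU.mem_nhds hz)
  refine (contDiffOn_infty_iff_fderiv_of_isOpen hU).2 ⟨fun y hy => ?_, ?_⟩
  · obtain ⟨L, hL, -⟩ := hw y hy
    exact hL.differentiableAt.differentiableWithinAt
  · refine contDiffOn_clm_apply.2 fun v => (hv v).congr fun y hy => ?_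
    obtain ⟨L, hL, h⟩ := hw y hy
    rw [hL.fderiv, h]

theorem glue1_cont (A : Atlas) (k : ℕ) {z : ℂ} (hz : z ∈ A.U k) : ContinuousAt (A.X k) z := by
  obtain ⟨L, hL, -⟩ := A.wei k z hz
  exact hL.continuousAt

theorem Atlas.isOpen_image (A : Atlas) (k : ℕ) {O : Set ℂ} (hO : IsOpen O) (hs : O ⊆ A.U k) :
    IsOpen ((Subtype.val : A.S → E3) ⁻¹' (A.X k '' O)) := by
  have hV : ∀ k', IsOpen {z' | z' ∈ A.U k' ∧ A.X k' z' ∈ A.X k '' O} := fun k' => by
    refine isOpen_iff_mem_nhds.2 ?_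
    rintro z' ⟨hz', z, hz, e⟩
    obtain ⟨φ, h1, h2, h3⟩ := A.rel k' k z' hz' z (hs hz) e.symm
    have h4 : ∀ᶠ y in 𝓝 z', φ y ∈ O := h1.continuousAt.eventually (hO.mem_nhds (h2 ▸ hz))
    filter_upwards [h3, h4, (A.opn k').mem_nhds hz'] with y y1 y2 y3
    exact ⟨y3, φ y, y2, y1⟩
  refine isOpen_iff_mem_nhds.2 fun p hp => ?_
  obtain ⟨K, hK⟩ := A.proper (‖p.1‖ + 1)
  have hC : IsClosed (⋃ k' ∈ Finset.range (K + 1), A.X k' '' ((A.Ub k' ∩ Metric.closedBall 0 K) \
      {z' | z' ∈ A.U k' ∧ A.X k' z' ∈ A.X k '' O})) := by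
    refine isClosed_biUnion_finset fun k' _ => IsCompact.isClosed ?_
    refine IsCompact.image_of_continuousOn
      (((isCompact_closedBall 0 K).inter_left (A.cls k')).diff (hV k')) fun z hz => ?_
    exact (glue1_cont A k' (A.sub k' hz.1.1)).continuousWithinAt
  have h1 := continuous_subtype_val.continuousAt (x := p) |>.eventually
    (hC.isOpen_compl.mem_nhds (by
      simp only [mem_compl_iff, mem_iUnion, not_exists]
      rintro k' - ⟨z, hz, e⟩
      exact hz.2 ⟨A.sub k' hz.1.1, e ▸ hp⟩))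
  have h2 := continuous_subtype_val.continuousAt (x := p) |>.eventually
    (Metric.ball_mem_nhds p.1 one_pos)
  filter_upwards [h1, h2] with q q1 q2
  obtain ⟨k₁, z₁, hz₁, e₁⟩ := mem_iUnion.1 q.2
  obtain ⟨k', z', hz', e'⟩ := A.cover k₁ z₁ hz₁
  have e : A.X k' z' = q.1 := e'.trans e₁
  have hn : ‖A.X k' z'‖ ≤ ‖p.1‖ + 1 := by
    rw [e]
    have := norm_le_norm_add_norm_sub' q.1 p.1
    have q3 : ‖q.1 - p.1‖ < 1 := mem_ball_iff_norm.1 q2
    linarith
  obtain ⟨h3, h4⟩ := hK k' z' hz' hn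
  by_contra hq
  refine q1 (mem_iUnion₂.2 ⟨k', Finset.mem_range.2 (by omega), z',
    ⟨⟨hz', mem_closedBall_zero_iff.2 h4⟩, fun h => hq ?_⟩, e⟩)
  have := h.2
  rwa [e] at this

open scoped Classical in
/-- the inverse of the parametrisation number `k` as a chart -/
def glue1Chart (A : Atlas) (k : ℕ) (p₀ : A.S) : OpenPartialHomeomorph A.S E2 where
  toFun p := toE2 (Function.invFunOn (A.X k) (A.U k) p.1)
  invFun y := if h : toC y ∈ A.U k then
    ⟨A.X k (toC y), mem_iUnion.2 ⟨k, mem_image_of_mem _ h⟩⟩ else p₀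
  source := Subtype.val ⁻¹' (A.X k '' A.U k)
  target := toC ⁻¹' A.U k
  map_source' p hp := by
    rw [mem_preimage, glue1_toC_toE2]
    exact Function.invFunOn_mem hp
  map_target' y hy := by
    rw [mem_preimage, dif_pos (show toC y ∈ A.U k from hy)]
    exact mem_image_of_mem _ hy
  left_inv' p hp := by
    have h : toC (toE2 (Function.invFunOn (A.X k) (A.U k) p.1)) ∈ A.U k := by
      rw [glue1_toC_toE2]
      exact Function.invFunOn_mem hp
    rw [dif_pos h]
    refine Subtype.ext ?_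
    simp only [glue1_toC_toE2]
    exact Function.invFunOn_eq hp
  right_inv' y hy := by
    rw [dif_pos (show toC y ∈ A.U k from hy)]
    simp only
    rw [(A.inj k).leftInvOn_invFunOn hy, glue1_toE2_toC]
  open_source := A.isOpen_image k (A.opn k) Subset.rfl
  open_target := (A.opn k).preimage glue1_contDiff_toC.continuous
  continuousOn_toFun := by
    refine glue1_contDiff_toE2.continuous.comp_continuousOn ?_
    refine (continuousOn_open_iff (A.isOpen_image k (A.opn k) Subset.rfl)).2 fun t ht => ?_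
    convert A.isOpen_image k ((A.opn k).inter ht) inter_subset_left using 1
    ext p
    constructor
    · rintro ⟨hp, hp'⟩
      exact ⟨_, ⟨Function.invFunOn_mem hp, hp'⟩, Function.invFunOn_eq hp⟩
    · rintro ⟨z, hz, e⟩
      refine ⟨⟨z, hz.1, e⟩, ?_⟩
      rw [mem_preimage, ← e, (A.inj k).leftInvOn_invFunOn hz.1]
      exact hz.2
  continuousOn_invFun := by
    refine Topology.IsInducing.subtypeVal.continuousOn_iff.2 ?_
    refine ContinuousOn.congr (f := fun y => A.X k (toC y)) (fun y hy => ?_) fun y hy => ?_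
    · exact ((glue1_cont A k hy).comp glue1_contDiff_toC.continuous.continuousAt).continuousWithinAt
    · simp only [Function.comp]
      rw [dif_pos (show toC y ∈ A.U k from hy)]

theorem glue1_symm (A : Atlas) (k : ℕ) (p₀ : A.S) {y : E2} (hy : toC y ∈ A.U k) :
    ((glue1Chart A k p₀).symm y).1 = A.X k (toC y) := by
  classical
  change (dite _ _ _ : A.S).1 = _
  rw [dif_pos hy]

theorem Atlas.manifold (A : Atlas) : ∃ (_ : ChartedSpace E2 A.S) (_ : IsManifold (𝓡 2) ∞ A.S),
    A.Charts (Subtype.val : A.S → E3) := by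
  choose κ hκ using fun p : A.S => mem_iUnion.1 p.2
  let C : ChartedSpace E2 A.S :=
    { atlas := {e | ∃ k p, e = glue1Chart A k p}
      chartAt := fun p => glue1Chart A (κ p) p
      mem_chart_source := fun p => hκ p
      chart_mem_atlas := fun p => ⟨κ p, p, rfl⟩ }
  refine ⟨C, isManifold_of_contDiffOn _ _ _ ?_, fun p => ?_⟩
  · rintro _ _ ⟨k, p, rfl⟩ ⟨k', p', rfl⟩
    simp only [modelWithCornersSelf_coe, modelWithCornersSelf_coe_symm, Function.comp_id,
      Function.id_comp, preimage_id, range_id, inter_univ]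
    intro y hy
    have hy1 : toC y ∈ A.U k := hy.1
    obtain ⟨z', hz', e⟩ : ((glue1Chart A k p).symm y).1 ∈ A.X k' '' A.U k' := hy.2
    rw [glue1_symm A k p hy1] at e
    obtain ⟨φ, h1, h2, h3⟩ := A.rel k k' _ hy1 z' hz' e.symm
    have h4 : ∀ᶠ w in 𝓝 (toC y), φ w ∈ A.U k' :=
      h1.continuousAt.eventually ((A.opn k').mem_nhds (h2 ▸ hz'))
    have h5 := glue1_contDiff_toC.continuous.continuousAt.eventually
      (h3.and (h4.and ((A.opn k).mem_nhds hy1)))
    refine ContDiffAt.contDiffWithinAt ?_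
    refine (glue1_contDiff_toE2.contDiffAt.comp y
      (h1.comp y glue1_contDiff_toC.contDiffAt)).congr_of_eventuallyEq ?_
    filter_upwards [h5] with w hw
    change toE2 (Function.invFunOn (A.X k') (A.U k') ((glue1Chart A k p).symm w).1) =
      toE2 (φ (toC w))
    rw [glue1_symm A k p hw.2.2, ← hw.1, (A.inj k').leftInvOn_invFunOn hw.2.1]
  · have h1 := Function.invFunOn_mem (hκ p)
    refine ⟨κ p, _, h1, rfl, (Function.invFunOn_eq (hκ p)).symm, ?_⟩
    have h2 : toC (ctr p) ∈ A.U (κ p) := by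
      change toC (toE2 _) ∈ _
      rwa [glue1_toC_toE2]
    filter_upwards [glue1_contDiff_toC.continuous.continuousAt.eventually
      ((A.opn (κ p)).mem_nhds h2)] with y hy
    exact glue1_symm A (κ p) p hy

end Pool.Agent.MP_943ae2_gt
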