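import Pool.Agent.MP_943ae2_gt.Glue1

open Set Complex Filter
open scoped Topology ComplexConjugate ContDiff

noncomputable section

namespace Pool.Agent.MP_943ae2_gt

open scoped Manifold

namespace Glue2X

open scoped RealInnerProductSpace

/-- `toC` as a continuous linear equivalence -/
def cE : E2 ≃L[ℝ] ℂ := orthonormalBasisOneI.repr.symm.toContinuousLinearEquiv

lemma cE_eq (y : E2) : cE y = toC y := by
  change orthonormalBasisOneI.repr.symm y = _
  rw [orthonormalBasisOneI_repr_symm_apply]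
  apply Complex.ext <;> simp [toC]

lemma toC_eq : toC = cE := funext fun y => (cE_eq y).symm

lemma cE_toE2 (z : ℂ) : cE (toE2 z) = z := by
  rw [cE_eq]
  apply Complex.ext <;> simp [toC, toE2]

/-- the two coordinate directions -/
def dir (i : Fin 2) : ℂ := cE (EuclideanSpace.single i 1)

lemma dir0 : dir 0 = 1 := by
  unfold dir
  rw [cE_eq]
  apply Complex.ext <;> simp [toC]

lemma dir1 : dir 1 = I := by
  unfold dir
  rw [cE_eq]
  apply Complex.ext <;> simp [toC]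

lemma pd_comp {F : Type} [NormedAddCommGroup F] [NormedSpace ℝ F] (g : ℂ → F) (i : Fin 2) :
    pd (g ∘ cE) i = (fun w => fderiv ℝ g w (dir i)) ∘ cE := by
  funext y
  unfold pd
  rw [cE.comp_right_fderiv]
  rfl

lemma pd_congr {F : Type} [NormedAddCommGroup F] [NormedSpace ℝ F] {g g' : E2 → F} {x : E2}
    (h : g =ᶠ[𝓝 x] g') (i : Fin 2) : pd g i =ᶠ[𝓝 x] pd g' i := by
  filter_upwards [h.fderiv (𝕜 := ℝ)] with y hy
  unfold pd
  rw [hy]

/-- the real linear map behind the Weierstrass representation -/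
def lamL : (ℂ × ℂ × ℂ) →ₗ[ℝ] E3 where
  toFun t := mk3 (t.1 - conj t.2.1) (2 * t.2.2.re)
  map_add' s t := by
    ext i
    fin_cases i <;> simp [mk3] <;> ring
  map_smul' c t := by
    ext i
    fin_cases i <;> simp [mk3] <;> ring

def lam : (ℂ × ℂ × ℂ) →L[ℝ] E3 := LinearMap.toContinuousLinearMap lamL

def tri (a b : ℂ) : ℂ × ℂ × ℂ := (a ^ 2, b ^ 2, a * b)

lemma lam_tri (a b v : ℂ) :
    lam (v • tri a b) = mk3 (a ^ 2 * v - conj (b ^ 2 * v)) (2 * (a * b * v).re) := by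
  change mk3 (v * a ^ 2 - conj (v * b ^ 2)) (2 * (v * (a * b)).re) = _
  rw [mul_comm v, mul_comm v, mul_comm v]

lemma inner_mk3 (z z' : ℂ) (h h' : ℝ) :
    ⟪mk3 z h, mk3 z' h'⟫ = z.re * z'.re + z.im * z'.im + h * h' := by
  simp [mk3, PiLp.inner_apply, Fin.sum_univ_three]
  ring

/-- the conformal factor -/
def cf (a b : ℂ) : ℝ := (normSq a + normSq b) ^ 2

lemma cf_pos {a : ℂ} (h : a ≠ 0) (b : ℂ) : 0 < cf a b :=
  pow_pos (add_pos_of_pos_of_nonneg (normSq_pos.2 h) (normSq_nonneg b)) 2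

lemma inner00 (a b : ℂ) : ⟪lam (dir 0 • tri a b), lam (dir 0 • tri a b)⟫ = cf a b := by
  rw [lam_tri, inner_mk3, dir0]
  simp [cf, normSq_apply, sq]
  ring

lemma inner11 (a b : ℂ) : ⟪lam (dir 1 • tri a b), lam (dir 1 • tri a b)⟫ = cf a b := by
  rw [lam_tri, inner_mk3, dir1]
  simp [cf, normSq_apply, sq]
  ring

lemma inner01 (a b : ℂ) : ⟪lam (dir 0 • tri a b), lam (dir 1 • tri a b)⟫ = 0 := by
  rw [lam_tri, lam_tri, inner_mk3, dir0, dir1]
  simp [sq]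
  ring

lemma pd_lam {G : ℂ → ℂ × ℂ × ℂ} {G' : ℂ × ℂ × ℂ} {x : E2} (hG : HasDerivAt G G' (cE x)) (c : ℂ)
    (i : Fin 2) : pd ((fun w => lam (c • G w)) ∘ cE) i x = lam (dir i • c • G') := by
  have h1 := lam.hasFDerivAt.comp (cE x) ((hG.const_smul c).hasFDerivAt.restrictScalars ℝ)
  rw [pd_comp]
  change fderiv ℝ (lam ∘ fun w => c • G w) (cE x) (dir i) = _
  erw [h1.fderiv]
  rfl

variable {M : Type} [TopologicalSpace M] [ChartedSpace E2 M]

lemma smooth [IsManifold (𝓡 2) ∞ M] {F : Type} [NormedAddCommGroup F] [NormedSpace ℝ F]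
    {g : M → F} {G : ℂ → F} {p : M} (hG : ContDiffAt ℝ ∞ G (cE (ctr p)))
    (he : loc g p =ᶠ[𝓝 (ctr p)] G ∘ cE) : ContMDiffAt (𝓡 2) 𝓘(ℝ, F) ∞ g p := by
  have hs := (chartAt E2 p).open_source.mem_nhds (mem_chart_source E2 p)
  have h1 : ContMDiffAt (𝓡 2) 𝓘(ℝ, E2) ∞ (chartAt E2 p) p := contMDiffOn_chart.contMDiffAt hs
  have h2 : ContDiffAt ℝ ∞ (G ∘ cE) (chartAt E2 p p) := hG.comp _ cE.contDiff.contDiffAt
  refine (h2.comp_contMDiffAt h1).congr_of_eventuallyEq ?_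
  filter_upwards [hs, h1.continuousAt.eventually he] with x hx hx'
  have : loc g p (chartAt E2 p x) = g x := by
    unfold loc
    rw [Function.comp_apply, (chartAt E2 p).left_inv hx]
  exact this.symm.trans hx'

/-- What the charts give at a point. -/
structure At (A : Atlas) (f : M → E3) (p : M) (k : ℕ) : Prop where
  mem : cE (ctr p) ∈ A.U k
  val : f p = A.X k (cE (ctr p))
  ev : loc f p =ᶠ[𝓝 (ctr p)] A.X k ∘ cE

lemma exists_at {A : Atlas} {f : M → E3} (h : A.Charts f) (p : M) : ∃ k, At A f p k := by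
  obtain ⟨k, z, hz, h1, h2, h3⟩ := h p
  have e : cE (ctr p) = z := by rw [h1, cE_toE2]
  rw [toC_eq] at h3
  exact ⟨k, e ▸ hz, e ▸ h2, h3⟩

variable {A : Atlas} {f : M → E3} {p : M} {k : ℕ}

lemma At.near (h : At A f p k) : ∀ᶠ y in 𝓝 (ctr p), cE y ∈ A.U k :=
  cE.continuous.continuousAt.eventually ((A.opn k).mem_nhds h.mem)

lemma At.pd (h : At A f p k) (i : Fin 2) :
    pd (loc f p) i =ᶠ[𝓝 (ctr p)] (fun w => lam (dir i • tri (A.a k w) (A.b k w))) ∘ cE := by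
  refine (pd_congr h.ev i).trans ?_
  rw [pd_comp]
  filter_upwards [h.near] with y hy
  obtain ⟨L, hL, hv⟩ := A.wei k _ hy
  simp only [Function.comp_apply]
  rw [hL.fderiv, hv, lam_tri]

lemma At.met (h : At A f p k) : ∀ᶠ y in 𝓝 (ctr p), ∃ E, 0 < E ∧ met f p 0 0 y = E ∧
    met f p 1 1 y = E ∧ met f p 0 1 y = 0 := by
  filter_upwards [h.near, h.pd 0, h.pd 1] with y hy h0 h1
  refine ⟨_, cf_pos (A.a_ne k _ hy) (A.b k (cE y)), ?_⟩
  unfold MP_943ae2_gt.met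
  rw [h0, h1]
  exact ⟨inner00 _ _, inner11 _ _, inner01 _ _⟩

lemma At.harm (h : At A f p k) :
    MP_943ae2_gt.pd (MP_943ae2_gt.pd (loc f p) 0) 0 (ctr p) +
      MP_943ae2_gt.pd (MP_943ae2_gt.pd (loc f p) 1) 1 (ctr p) = 0 := by
  have hn := (A.opn k).mem_nhds h.mem
  have ha := (A.hol_a k).differentiableAt hn
  have hb := (A.hol_b k).differentiableAt hn
  have hG : DifferentiableAt ℂ (fun w => tri (A.a k w) (A.b k w)) (cE (ctr p)) :=
    (ha.pow 2).prodMk ((hb.pow 2).prodMk (ha.mul hb))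
  rw [(pd_congr (h.pd 0) 0).eq_of_nhds, (pd_congr (h.pd 1) 1).eq_of_nhds,
    pd_lam hG.hasDerivAt, pd_lam hG.hasDerivAt, ← map_add, dir0, dir1, smul_smul, smul_smul,
    I_mul_I, ← add_smul]
  simp

lemma pd_pd {g : ℂ → ℝ} {x : E2} (hg : ContDiffAt ℝ ∞ g (cE x)) (i : Fin 2) :
    pd (pd (g ∘ cE) i) i x = iteratedFDeriv ℝ 2 g (cE x) ![dir i, dir i] := by
  have h1 : DifferentiableAt ℝ (fderiv ℝ g) (cE x) :=
    (hg.fderiv_right (m := 1) (by norm_cast)).differentiableAt one_ne_zero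
  rw [pd_comp, pd_comp, iteratedFDeriv_two_apply, Function.comp_apply,
    fderiv_clm_apply h1 (differentiableAt_const _)]
  simp

lemma At.lap (h : At A f p k) {u : M → ℝ} {g : ℂ → ℝ} (hg : ContDiffAt ℝ ∞ g (cE (ctr p)))
    (he : loc u p =ᶠ[𝓝 (ctr p)] g ∘ cE) (hl : Laplacian.laplacian g (cE (ctr p)) ≤ 0) :
    lapBel f u p ≤ 0 := by
  have hd : ∀ {y E}, 0 < E → MP_943ae2_gt.met f p 0 0 y = E → MP_943ae2_gt.met f p 1 1 y = E →
      MP_943ae2_gt.met f p 0 1 y = 0 → dens f p y = E := fun {y E} hE h0 h1 h2 => by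
    unfold dens
    rw [h0, h1, h2, zero_pow two_ne_zero, sub_zero, Real.sqrt_mul_self hE.le]
  have e0 : (fun x => (MP_943ae2_gt.met f p 1 1 x * MP_943ae2_gt.pd (loc u p) 0 x -
      MP_943ae2_gt.met f p 0 1 x * MP_943ae2_gt.pd (loc u p) 1 x) / dens f p x) =ᶠ[𝓝 (ctr p)]
      MP_943ae2_gt.pd (g ∘ cE) 0 := by
    filter_upwards [h.met, pd_congr he 0] with y ⟨E, hE, h0, h1, h2⟩ hy
    rw [hd hE h0 h1 h2, h1, h2, hy]
    field_simp
    ring
  have e1 : (fun x => (MP_943ae2_gt.met f p 0 0 x * MP_943ae2_gt.pd (loc u p) 1 x -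
      MP_943ae2_gt.met f p 0 1 x * MP_943ae2_gt.pd (loc u p) 0 x) / dens f p x) =ᶠ[𝓝 (ctr p)]
      MP_943ae2_gt.pd (g ∘ cE) 1 := by
    filter_upwards [h.met, pd_congr he 1] with y ⟨E, hE, h0, h1, h2⟩ hy
    rw [hd hE h0 h1 h2, h0, h2, hy]
    field_simp
    ring
  unfold lapBel
  rw [(pd_congr e0 0).eq_of_nhds, (pd_congr e1 1).eq_of_nhds, pd_pd hg, pd_pd hg, dir0, dir1]
  rw [InnerProductSpace.laplacian_eq_iteratedFDeriv_complexPlane] at hl
  exact div_nonpos_of_nonpos_of_nonneg hl (Real.sqrt_nonneg _)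

end Glue2X

open Glue2X

theorem Atlas.isMinimal (A : Atlas) {M : Type} [TopologicalSpace M] [ChartedSpace E2 M]
    [IsManifold (𝓡 2) ∞ M] {f : M → E3} (h : A.Charts f) : IsMinimal f := by
  refine ⟨fun p => ?_, fun p => ?_, fun p N _ => ?_⟩
  · obtain ⟨k, hk⟩ := exists_at h p
    exact smooth (Wei.contDiffAt (A.opn k) (A.hol_a k) (A.hol_b k) (A.wei k) hk.mem) hk.ev
  · obtain ⟨k, hk⟩ := exists_at h p
    obtain ⟨E, hE, h0, h1, h2⟩ := hk.met.self_of_nhds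
    unfold met at h0 h1 h2
    refine linearIndependent_of_ne_zero_of_inner_eq_zero (fun i hi => ?_) fun i j hij => ?_
    · fin_cases i
      · erw [hi, inner_zero_left] at h0
        exact hE.ne h0
      · erw [hi, inner_zero_left] at h1
        exact hE.ne h1
    · fin_cases i <;> fin_cases j
      · exact absurd rfl hij
      · exact h2
      · exact (real_inner_comm _ _).trans h2
      · exact absurd rfl hij
  · obtain ⟨k, hk⟩ := exists_at h p
    obtain ⟨E, hE, h0, h1, h2⟩ := hk.met.self_of_nhds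
    have h3 : sff f p N 0 0 + sff f p N 1 1 = 0 := by
      unfold sff
      rw [← inner_add_left, hk.harm, inner_zero_left]
    rw [h0, h1, h2, mul_zero, sub_zero, ← add_mul, h3, zero_mul]

theorem Atlas.exists_super (A : Atlas) {M : Type} [TopologicalSpace M] [ChartedSpace E2 M]
    [IsManifold (𝓡 2) ∞ M] {f : M → E3} (h : A.Charts f) (hr : range f = A.S) :
    ∃ u : M → ℝ, ContMDiff (𝓡 2) 𝓘(ℝ, ℝ) ∞ u ∧ (∀ p, 0 < u p) ∧ (∀ p, lapBel f u p ≤ 0) ∧
      ∃ p q, u p ≠ u q := by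
  choose k hk using exists_at h
  have hu : ∀ p k', ∀ z ∈ A.U k', f p = A.X k' z → A.u (k p) (cE (ctr p)) = A.u k' z :=
    fun p k' z hz e => A.u_rel _ _ _ (hk p).mem _ hz ((hk p).val.symm.trans e)
  have he : ∀ p, loc (fun p => A.u (k p) (cE (ctr p))) p =ᶠ[𝓝 (ctr p)] A.u (k p) ∘ cE := fun p => by
    filter_upwards [(hk p).near, (hk p).ev] with y hy hy'
    exact hu _ _ _ hy hy'
  refine ⟨fun p => A.u (k p) (cE (ctr p)), fun p => smooth (A.u_sup _ _ (hk p).mem).1 (he p),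
    fun p => A.u_pos _ _ (hk p).mem,
    fun p => (hk p).lap (A.u_sup _ _ (hk p).mem).1 (he p) (A.u_sup _ _ (hk p).mem).2, ?_⟩
  obtain ⟨k', z, hz, z', hz', hne⟩ := A.u_nc
  obtain ⟨p, hp⟩ : A.X k' z ∈ range f := hr ▸ mem_iUnion.2 ⟨k', z, hz, rfl⟩
  obtain ⟨q, hq⟩ : A.X k' z' ∈ range f := hr ▸ mem_iUnion.2 ⟨k', z', hz', rfl⟩
  refine ⟨p, q, ?_⟩
  change A.u (k p) (cE (ctr p)) ≠ A.u (k q) (cE (ctr q))
  rw [hu p k' z hz hp, hu q k' z' hz' hq]
  exact hne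

end Pool.Agent.MP_943ae2_gt
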