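import Pool.Agent.MP_943ae2_gt.Cst

open Set Complex Filter Finset
open scoped Topology ComplexConjugate ContDiff

noncomputable section

namespace Pool.Agent.MP_943ae2_gt

theorem prof_zero (s : ℕ → ℝ) (m : ℕ) : prof s m 0 = 0 := by
  simp [prof]

theorem prof_end (s : ℕ → ℝ) {m : ℕ} (hm : 1 ≤ m) : prof s m m = 0 := by
  have h : (m : ℝ) ≠ 0 := by positivity
  unfold prof
  rw [Finset.sum_sub_distrib, Finset.sum_const, Nat.card_Icc, Nat.add_sub_cancel, nsmul_eq_mul]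
  field_simp
  ring

theorem Mac1_succ (s : ℕ → ℝ) (m a : ℕ) : prof s m (a + 1) = prof s m a +
    (∑ l ∈ Ico 1 (a + 1), s l - (∑ i' ∈ Icc 1 m, ∑ l ∈ Ico 1 i', s l) / m) := by
  unfold prof
  rw [Finset.sum_Icc_succ_top (by omega)]

theorem prof_d2 (s : ℕ → ℝ) (m : ℕ) {a : ℕ} (ha : 1 ≤ a) :
    prof s m (a + 1) - 2 * prof s m a + prof s m (a - 1) = s a := by
  obtain ⟨b, rfl⟩ : ∃ b, a = b + 1 := ⟨a - 1, by omega⟩
  rw [Nat.add_sub_cancel, Mac1_succ s m (b + 1), Mac1_succ s m b,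
    Finset.sum_Ico_succ_top (by omega : 1 ≤ b + 1)]
  ring

theorem Mac1_sum {s : ℕ → ℝ} {m i : ℕ} {B : ℝ} (hB : 0 ≤ B) (hs : ∀ l, 1 ≤ l → l < m → |s l| ≤ B)
    (hi : i ≤ m) : |∑ l ∈ Ico 1 i, s l| ≤ m * B := by
  refine (Finset.abs_sum_le_sum_abs _ _).trans ?_
  refine (Finset.sum_le_card_nsmul _ _ B fun l hl => ?_).trans ?_
  · rw [Finset.mem_Ico] at hl
    exact hs l hl.1 (by omega)
  · rw [Nat.card_Ico, nsmul_eq_mul]
    have : ((i - 1 : ℕ) : ℝ) ≤ m := by exact_mod_cast (by omega : i - 1 ≤ m)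
    exact mul_le_mul_of_nonneg_right this hB

theorem prof_slope {s : ℕ → ℝ} {m a : ℕ} {B : ℝ} (hB : 0 ≤ B) (hs : ∀ l, 1 ≤ l → l < m → |s l| ≤ B)
    (ha : a < m) : |prof s m (a + 1) - prof s m a| ≤ 2 * m * B := by
  have hm : (0 : ℝ) < m := by exact_mod_cast (by omega : 0 < m)
  have h1 := Mac1_sum hB hs (i := a + 1) ha
  have h2 : |∑ i' ∈ Icc 1 m, ∑ l ∈ Ico 1 i', s l| ≤ m * (m * B) := by
    refine (Finset.abs_sum_le_sum_abs _ _).trans ?_
    refine (Finset.sum_le_card_nsmul _ _ (m * B) fun i hi => ?_).trans ?_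
    · exact Mac1_sum hB hs (Finset.mem_Icc.1 hi).2
    · rw [Nat.card_Icc, Nat.add_sub_cancel, nsmul_eq_mul]
  have h3 : |(∑ i' ∈ Icc 1 m, ∑ l ∈ Ico 1 i', s l) / m| ≤ m * B := by
    rw [abs_div, abs_of_pos hm, div_le_iff₀ hm]
    linarith
  rw [Mac1_succ, add_sub_cancel_left]
  refine (abs_sub _ _).trans ?_
  linarith

theorem Mac1_Lb (j : ℕ) : 1 ≤ Lb j := Nat.one_le_pow _ _ (by norm_num)

theorem Mac1_Mt (j : ℕ) : 1 ≤ Mt j := Nat.one_le_pow _ _ (by norm_num)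

theorem Mac1_nn (j : ℕ) : (nn j : ℝ) ≠ 0 := Nat.cast_ne_zero.2 (NeZero.ne _)

namespace Prm

variable (x : Prm)

theorem Mac1_bot {j k : ℕ} (h : k ≤ Lb j) :
    x.w j k = x.W j * k / Lb j + prof (x.sBot j) (Lb j) k := by
  unfold w
  rw [if_pos h]

theorem w_zero (j : ℕ) : x.w j 0 = 0 := by
  rw [x.Mac1_bot (Nat.zero_le _), prof_zero]
  simp

theorem w_out {j k : ℕ} (h : NN j ≤ k) : x.w j k = 0 := by
  have h1 := Mac1_Mt j
  have h2 : NN j = Lb j + Mt j := rfl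
  unfold w
  rw [if_neg (by omega)]
  split_ifs with h3
  · obtain rfl : k = NN j := by omega
    rw [show NN j - Lb j = Mt j by omega, prof_end _ h1]
    simp
  · rfl

theorem w_L (j : ℕ) : x.w j (Lb j) = x.W j := by
  have h1 := Mac1_Lb j
  have h : (Lb j : ℝ) ≠ 0 := by positivity
  rw [x.Mac1_bot le_rfl, prof_end _ h1]
  field_simp
  ring

theorem Mac1_top {j a : ℕ} (h : a ≤ Mt j) :
    x.w j (Lb j + a) = x.W j * (Mt j - a) / Mt j + prof (x.sTop j) (Mt j) a := by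
  have h1 := Mac1_Mt j
  have h2 : NN j = Lb j + Mt j := rfl
  rcases Nat.eq_zero_or_pos a with rfl | ha
  · have h3 : (Mt j : ℝ) ≠ 0 := by positivity
    rw [Nat.add_zero, w_L, prof_zero]
    field_simp
    simp
  · unfold w
    rw [if_neg (by omega), if_pos (by omega), Nat.add_sub_cancel_left, h2]
    push_cast
    ring

theorem D2_bot {j k : ℕ} (h1 : 1 ≤ k) (h2 : k < Lb j) : x.D2 j k = x.sBot j k := by
  unfold D2
  rw [x.Mac1_bot (k := k + 1) h2, x.Mac1_bot h2.le, x.Mac1_bot (k := k - 1) (by omega),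
    ← prof_d2 (x.sBot j) (Lb j) h1, Nat.cast_sub h1]
  push_cast
  ring

theorem D2_top {j a : ℕ} (h1 : 1 ≤ a) (h2 : a < Mt j) : x.D2 j (Lb j + a) = x.sTop j a := by
  unfold D2
  rw [Nat.add_assoc, Nat.add_sub_assoc h1, x.Mac1_top (a := a + 1) h2, x.Mac1_top h2.le,
    x.Mac1_top (a := a - 1) (by omega), ← prof_d2 (x.sTop j) (Mt j) h1, Nat.cast_sub h1]
  push_cast
  ring

theorem D2_zero (j : ℕ) : x.D2 j 0 = x.w j 1 := by
  unfold D2
  rw [Nat.zero_sub, w_zero]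
  ring

theorem D2_N (j : ℕ) : x.D2 j (NN j) = x.w j (NN j - 1) := by
  unfold D2
  rw [x.w_out (Nat.le_succ _), x.w_out le_rfl]
  ring

theorem D2_out {j k : ℕ} (h : NN j < k) : x.D2 j k = 0 := by
  unfold D2
  rw [x.w_out (k := k + 1) (by omega), x.w_out h.le, x.w_out (k := k - 1) (by omega)]
  ring

theorem Mac1_g (j k : ℕ) : (x.wall (j + 1)).g k = -x.D2 j (Lb j + k) := rfl

theorem g_bot {j k : ℕ} (h1 : 1 ≤ k) (h2 : k < Lb j) : (x.wall j).g k = -x.sTop (j - 1) k := by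
  cases j with
  | zero =>
    have : Lb 0 = 1 := rfl
    omega
  | succ j => rw [Mac1_g, x.D2_top (j := j) h1 h2, Nat.add_sub_cancel]

theorem g_L (j : ℕ) : (x.wall (j + 1)).g (Lb (j + 1)) = -x.w j (NN j - 1) := by
  rw [Mac1_g, ← D2_N]
  rfl

theorem g_top {j k : ℕ} (h : Lb j < k) : (x.wall j).g k = 0 := by
  cases j with
  | zero => rfl
  | succ j =>
    have h1 : Lb (j + 1) = Mt j := rfl
    have h2 : NN j = Lb j + Mt j := rfl
    rw [Mac1_g, x.D2_out (by omega), neg_zero]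

theorem lr_zero (j : ℕ) : x.lr j 0 = ell j := by
  simp [lr]

theorem lr_one (j : ℕ) : x.lr j 1 = ell j := by
  simp [lr]

theorem Mac1_y (j k : ℕ) : (x.wall j).y (nn j) k = nn j * (x.lr j k - x.lr j (k + 1)) := rfl

theorem Mac1_c (j k : ℕ) : (x.wall j).c k = x.w j k / nn j := rfl

theorem wall_y {j k : ℕ} (h : 1 ≤ k) : (x.wall j).y (nn j) k = x.y j k := by
  have h1 := Mac1_nn j
  rw [Mac1_y]
  unfold lr
  rw [Finset.sum_Ico_succ_top h]
  field_simp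
  ring

theorem wall_y_zero (j : ℕ) : (x.wall j).y (nn j) 0 = 0 := by
  rw [Mac1_y, Nat.zero_add, lr_zero, lr_one]
  ring

theorem n_mul_c (j k : ℕ) : (nn j : ℝ) * (x.wall j).c k = x.w j k := by
  have h1 := Mac1_nn j
  rw [Mac1_c]
  field_simp

theorem Ds_eq (j k : ℕ) : (x.wall j).Ds (nn j) k =
    2 * (x.wall j).c k * (x.lr j k - Real.log (x.w j k)) + (x.D2 j k - (x.wall j).g k) * x.lr j k +
      (x.wall j).c (k - 1) * Real.log (1 + Real.exp ((x.wall j).y (nn j) (k - 1))) +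
      (x.wall j).c (k + 1) * Real.log (1 + Real.exp (-(x.wall j).y (nn j) k)) := by
  have h : (nn j : ℝ) * ((x.wall j).c (k + 1) - 2 * (x.wall j).c k + (x.wall j).c (k - 1)) =
      x.D2 j k := by
    unfold D2
    rw [← n_mul_c, ← n_mul_c, ← n_mul_c]
    ring
  unfold Wall.Ds
  rw [h, n_mul_c]
  rfl

theorem Ds_zero : (x.wall 0).Ds (nn 0) 1 = 0 := by
  have h0 : x.w 0 0 = 0 := x.w_zero 0
  have h1 : x.w 0 1 = 1 := x.w_L 0
  have h2 : x.w 0 2 = 0 := x.w_out (j := 0) le_rfl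
  have h3 : (x.wall 0).g 1 = 0 := rfl
  have h4 : nn 0 = 1 := rfl
  rw [Ds_eq, Mac1_c, Mac1_c, Mac1_c, h3]
  unfold D2
  rw [h0, h1, h2, h4]
  simp

theorem wlr_eq (j : ℕ) {k : ℕ} (hk : 1 ≤ k) :
    x.w j (k + 1) * x.lr j (k + 1) - 2 * x.w j k * x.lr j k + x.w j (k - 1) * x.lr j (k - 1) =
      x.D2 j k * x.lr j k - (x.wall j).c (k + 1) * (x.wall j).y (nn j) k +
        (x.wall j).c (k - 1) * (x.wall j).y (nn j) (k - 1) := by
  unfold D2
  rw [Mac1_y, Mac1_y, Nat.sub_add_cancel hk, ← x.n_mul_c j (k + 1), ← x.n_mul_c j (k - 1)]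
  ring

theorem Oc_L (j : ℕ) : x.Oc j (Lb j) = x.w (j + 1) 1 * ell (j + 1) := by
  unfold Oc
  rw [if_pos le_rfl, Nat.sub_self, Nat.zero_add, Nat.zero_sub, w_zero, lr_one]
  ring

end Prm

end Pool.Agent.MP_943ae2_gt
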