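import Pool.Agent.MP_943ae2_gt.Mac1

open Set Complex Filter Finset
open scoped Topology ComplexConjugate ContDiff

noncomputable section

namespace Pool.Agent.MP_943ae2_gt

theorem Mac2_nn_pos (j : ℕ) : (0 : ℝ) < nn j := Nat.cast_pos.2 (Nat.pos_of_ne_zero (NeZero.ne _))

theorem Mac2_nn_one (j : ℕ) : (1 : ℝ) ≤ nn j := Nat.one_le_cast.2 (Nat.pos_of_ne_zero (NeZero.ne _))

theorem Mac2_Lb_one (j : ℕ) : (1 : ℝ) ≤ Lb j := Nat.one_le_cast.2 (Lb_pos j)

theorem Mac2_Mt_one (j : ℕ) : (1 : ℝ) ≤ Mt j := Nat.one_le_cast.2 (Mt_pos j)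

theorem Mac2_NN (j : ℕ) : (NN j : ℝ) = Lb j + Mt j := by simp [NN]

theorem Mac2_ratio (j : ℕ) : (Lb j : ℝ) ≤ Mt j ∧ (Mt j : ℝ) ≤ 5 * Lb j := by
  rcases Nat.eq_zero_or_pos j with rfl | h
  · simp [Lb_zero, Mt_zero]
  · have := Mac2_Lb_one j
    rw [Mt_eq h]; push_cast; constructor <;> linarith

theorem Mac2_PP_one (j : ℕ) : (1000 : ℝ) ≤ PP j := le_trans (by norm_num) (PP_ge j)

theorem Mac2_nn_le (j : ℕ) : (nn j : ℝ) ≤ PP j := by
  have h₁ := nn_le_PP j
  have h₂ : (nn j : ℝ) ≤ nn (j + 1) := Nat.cast_le.2 (nn_mono j)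
  have := Mac2_nn_pos j
  linarith

theorem Mac2_NN_le (j : ℕ) : (NN j : ℝ) ≤ PP j := by
  have h₁ := NN_le_PP j
  have h₂ : (NN j : ℝ) ≤ NN (j + 1) := Nat.cast_le.2 (NN_mono j)
  have : (0 : ℝ) ≤ NN j := Nat.cast_nonneg _
  linarith

theorem Mac2_two_le (j : ℕ) : 2 * (2 : ℝ) ^ j ≤ PP j := by
  have h₁ := two_pow_le_PP j
  have : (0 : ℝ) < 2 ^ j := by positivity
  rw [pow_succ 2 j] at h₁
  linarith

theorem Mac2_wbot (x : Prm) {j k : ℕ} (h : k ≤ Lb j) :
    x.w j k = x.W j * k / Lb j + prof (x.sBot j) (Lb j) k := by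
  unfold Prm.w; rw [if_pos h]

theorem Mac2_wtop (x : Prm) {j k : ℕ} (h1 : Lb j ≤ k) (h2 : k ≤ NN j) :
    x.w j k = x.W j * (NN j - k) / Mt j + prof (x.sTop j) (Mt j) (k - Lb j) := by
  rcases h1.eq_or_lt with rfl | h
  · have := Mac2_Mt_one j
    rw [x.w_L, Nat.sub_self, prof_zero, Mac2_NN]
    field_simp
    ring
  · unfold Prm.w; rw [if_neg (by omega), if_pos h2]

namespace InK

variable {x : Prm} (hx : InK x)
include hx

theorem Mac2_W_pos (j : ℕ) : 0 < x.W j := by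
  induction j with
  | zero => simp [Prm.W]
  | succ j ih =>
    have := abs_le.1 (hx.u_mem (j + 1))
    exact mul_pos ih (by linarith)

theorem W_succ (j : ℕ) : 33 / 20 * x.W j ≤ x.W (j + 1) ∧ x.W (j + 1) ≤ 17 / 10 * x.W j := by
  have h := abs_le.1 (hx.u_mem (j + 1))
  have p := hx.Mac2_W_pos j
  have e : x.W (j + 1) = x.W j * x.u (j + 1) := rfl
  rw [e]
  constructor <;> nlinarith

theorem W_ge (j : ℕ) : (33 / 20) ^ j ≤ x.W j := by
  induction j with
  | zero => simp [Prm.W]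
  | succ j ih => rw [pow_succ]; linarith [(hx.W_succ j).1]

theorem W_le (j : ℕ) : x.W j ≤ 2 ^ j := by
  induction j with
  | zero => simp [Prm.W]
  | succ j ih => rw [pow_succ]; linarith [(hx.W_succ j).2, hx.Mac2_W_pos j]

theorem sTop_le (j a : ℕ) : |x.sTop j a| ≤ 8 * x.W j / nn j := by
  have p := hx.Mac2_W_pos j
  have q := Mac2_nn_pos j
  rw [Prm.sTop, abs_div, abs_mul, abs_of_pos p, abs_of_pos q]
  gcongr
  exact hx.s_le j a

theorem sBot_le {j : ℕ} (hj : 2 ≤ j) (k : ℕ) : |x.sBot j k| ≤ 126 * x.W j / nn j := by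
  obtain ⟨j, rfl⟩ : ∃ i, j = i + 1 := ⟨j - 1, by omega⟩
  have h₁ := hx.sTop_le j k
  have h₂ := (hx.W_succ j).1
  have h₃ : (nn (j + 1) : ℝ) ≤ 25 * nn j := by exact_mod_cast nn_succ_le (by omega : 1 ≤ j)
  have p := hx.Mac2_W_pos j
  have p' := hx.Mac2_W_pos (j + 1)
  have q := Mac2_nn_pos j
  have q' := Mac2_nn_pos (j + 1)
  have h₄ : 8 * x.W j / nn j ≤ 125 * x.W (j + 1) / nn (j + 1) := by
    rw [div_le_div_iff₀ q q']
    nlinarith [mul_le_mul_of_nonneg_left h₃ p.le, mul_le_mul_of_nonneg_left h₂ q.le]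
  have h₅ : 0 < x.W (j + 1) / nn (j + 1) := div_pos p' q'
  rw [Prm.sBot, Nat.add_sub_cancel]
  rw [mul_div_assoc] at h₄ ⊢
  rw [mul_div_assoc 125] at h₄
  rw [mul_div_assoc] at h₁
  rw [abs_le] at h₁ ⊢
  constructor <;> linarith [h₁.1, h₁.2]

theorem slope_bot {j k : ℕ} (h : k < Lb j) :
    |x.w j (k + 1) - x.w j k - x.W j / Lb j| ≤ x.W j / Lb j / 10 ^ 4 := by
  have p := hx.Mac2_W_pos j
  have q := Mac2_nn_pos j
  have l := Mac2_Lb_one j
  have e : x.w j (k + 1) - x.w j k - x.W j / Lb j =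
      prof (x.sBot j) (Lb j) (k + 1) - prof (x.sBot j) (Lb j) k := by
    rw [Mac2_wbot x (Nat.succ_le_of_lt h), Mac2_wbot x h.le]; push_cast; ring
  rw [e]
  rcases le_or_gt 2 j with hj | hj
  · refine (prof_slope (by positivity) (fun l _ _ => hx.sBot_le hj l) h).trans ?_
    have b := nn_big (by omega : 1 ≤ j)
    rw [NN_eq (by omega)] at b
    push_cast at b
    rw [← mul_div_assoc, div_div, div_le_div_iff₀ q (by positivity)]
    nlinarith [mul_le_mul_of_nonneg_left b p.le, mul_pos p (mul_pos (one_pos.trans_le l)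
      (one_pos.trans_le l))]
  · have : Lb j = 1 := by unfold Lb; rw [show j - 1 = 0 by omega]; rfl
    refine (prof_slope le_rfl (fun l _ _ => by omega) h).trans ?_
    rw [mul_zero]; positivity

theorem slope_top {j k : ℕ} (h1 : Lb j ≤ k) (h2 : k < NN j) :
    |x.w j (k + 1) - x.w j k + x.W j / Mt j| ≤ x.W j / Mt j / 10 ^ 4 := by
  have p := hx.Mac2_W_pos j
  have q := Mac2_nn_pos j
  have l := Mac2_Mt_one j
  have l' := Mac2_Lb_one j
  have e : x.w j (k + 1) - x.w j k + x.W j / Mt j =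
      prof (x.sTop j) (Mt j) (k - Lb j + 1) - prof (x.sTop j) (Mt j) (k - Lb j) := by
    rw [Mac2_wtop x (by omega) (Nat.succ_le_of_lt h2), Mac2_wtop x h1 h2.le,
      show k + 1 - Lb j = k - Lb j + 1 by omega]
    push_cast; ring
  have h : k - Lb j < Mt j := by unfold NN at h2; omega
  rw [e]
  rcases le_or_gt 1 j with hj | hj
  · refine (prof_slope (by positivity) (fun l _ _ => hx.sTop_le j l) h).trans ?_
    have b := nn_big hj
    rw [Mac2_NN] at b
    have b' : 10 ^ 7 * (Mt j : ℝ) ^ 2 ≤ nn j := le_trans (by gcongr; linarith) b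
    rw [← mul_div_assoc, div_div, div_le_div_iff₀ q (by positivity)]
    nlinarith [mul_le_mul_of_nonneg_left b' p.le, mul_pos p (mul_pos (one_pos.trans_le l)
      (one_pos.trans_le l))]
  · have : Mt j = 1 := by rw [show j = 0 by omega]; rfl
    refine (prof_slope le_rfl (fun l _ _ => by omega) h).trans ?_
    rw [mul_zero]; positivity

theorem w_bot {j k : ℕ} (h : k ≤ Lb j) :
    |x.w j k - x.W j * k / Lb j| ≤ x.W j * k / Lb j / 10 ^ 4 := by
  induction k with
  | zero => simp [x.w_zero]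
  | succ k ih =>
    have h₁ := abs_le.1 (ih (by omega))
    have h₂ := abs_le.1 (hx.slope_bot (by omega : k < Lb j))
    have e : x.W j * ((k + 1 : ℕ) : ℝ) / Lb j = x.W j * k / Lb j + x.W j / Lb j := by
      push_cast; ring
    rw [e, abs_le]
    constructor <;> linarith [h₁.1, h₁.2, h₂.1, h₂.2]

theorem w_top {j k : ℕ} (h1 : Lb j ≤ k) (h2 : k ≤ NN j) :
    |x.w j k - x.W j * (NN j - k) / Mt j| ≤ x.W j * (NN j - k) / Mt j / 10 ^ 4 := by
  induction h2 using Nat.decreasingInduction with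
  | self => simp [x.w_out le_rfl]
  | of_succ k hk ih =>
    have h₁ := abs_le.1 (ih (by omega))
    have h₂ := abs_le.1 (hx.slope_top h1 hk)
    have e : x.W j * (NN j - k) / Mt j =
        x.W j * (NN j - ((k + 1 : ℕ) : ℝ)) / Mt j + x.W j / Mt j := by
      push_cast; ring
    rw [e, abs_le]
    constructor <;> linarith [h₁.1, h₁.2, h₂.1, h₂.2]

theorem w_nonneg (j k : ℕ) : 0 ≤ x.w j k := by
  have p := hx.Mac2_W_pos j
  rcases le_total k (Lb j) with h | h
  · have h₁ := (abs_le.1 (hx.w_bot h)).1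
    have : 0 ≤ x.W j * k / Lb j := by positivity
    linarith
  rcases le_total k (NN j) with h' | h'
  · have h₁ := (abs_le.1 (hx.w_top h h')).1
    have : (0 : ℝ) ≤ NN j - k := sub_nonneg.2 (Nat.cast_le.2 h')
    have : 0 ≤ x.W j * (NN j - k) / Mt j := by positivity
    linarith
  · exact (x.w_out h').ge

theorem Mac2_up {j k : ℕ} (h : k < Lb j) : x.w j k ≤ x.w j (k + 1) := by
  have h₁ := (abs_le.1 (hx.slope_bot h)).1
  have : 0 ≤ x.W j / Lb j := by have := hx.Mac2_W_pos j; positivity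
  linarith

theorem Mac2_down {j k : ℕ} (h1 : Lb j ≤ k) : x.w j (k + 1) ≤ x.w j k := by
  rcases lt_or_ge k (NN j) with h2 | h2
  · have h₁ := (abs_le.1 (hx.slope_top h1 h2)).2
    have : 0 ≤ x.W j / Mt j := by have := hx.Mac2_W_pos j; positivity
    linarith
  · rw [x.w_out h2, x.w_out (by omega)]

theorem w_le (j k : ℕ) : x.w j k ≤ x.W j := by
  rcases le_total k (Lb j) with h | h
  · induction h using Nat.decreasingInduction with
    | self => exact (x.w_L j).le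
    | of_succ k hk ih => exact (hx.Mac2_up hk).trans ih
  · induction h with
    | refl => exact (x.w_L j).le
    | step hk ih => exact (hx.Mac2_down hk).trans ih

theorem Mac2_ge_bot {j k : ℕ} (h1 : 1 ≤ k) (h : k ≤ Lb j) :
    9999 / 10000 * (x.W j / Lb j) ≤ x.w j k := by
  have h₁ := (abs_le.1 (hx.w_bot h)).1
  have p := hx.Mac2_W_pos j
  have : x.W j / Lb j ≤ x.W j * k / Lb j := by
    gcongr
    exact le_mul_of_one_le_right p.le (Nat.one_le_cast.2 h1)
  linarith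

theorem Mac2_ge_top {j k : ℕ} (h : Lb j ≤ k) (h2 : k < NN j) :
    9999 / 10000 * (x.W j / Mt j) ≤ x.w j k := by
  have h₁ := (abs_le.1 (hx.w_top h h2.le)).1
  have p := hx.Mac2_W_pos j
  have : ((k + 1 : ℕ) : ℝ) ≤ NN j := Nat.cast_le.2 h2
  have : x.W j / Mt j ≤ x.W j * (NN j - k) / Mt j := by
    gcongr
    exact le_mul_of_one_le_right p.le (by push_cast at this; linarith)
  linarith

theorem w_ge {j k : ℕ} (h1 : 1 ≤ k) (h2 : k < NN j) : x.W j / NN j ≤ x.w j k := by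
  have p := hx.Mac2_W_pos j
  have l := Mac2_Mt_one j
  have l' := Mac2_Lb_one j
  obtain ⟨r₁, r₂⟩ := Mac2_ratio j
  rcases le_total k (Lb j) with h | h
  · refine le_trans ?_ (hx.Mac2_ge_bot h1 h)
    rw [← mul_div_assoc, Mac2_NN, div_le_div_iff₀ (by positivity) (by positivity)]
    nlinarith
  · refine le_trans ?_ (hx.Mac2_ge_top h h2)
    rw [← mul_div_assoc, Mac2_NN, div_le_div_iff₀ (by positivity) (by positivity)]
    nlinarith

theorem w_nb {j k : ℕ} (h1 : 1 ≤ k) (h2 : k < NN j) :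
    x.w j (k + 1) + x.w j (k - 1) ≤ 4 * x.w j k := by
  have p := hx.Mac2_W_pos j
  have n := hx.w_nonneg j k
  obtain ⟨k, rfl⟩ : ∃ i, k = i + 1 := ⟨k - 1, by omega⟩
  rw [Nat.add_sub_cancel]
  rcases lt_trichotomy (k + 1) (Lb j) with h | h | h
  · have a₁ := (abs_le.1 (hx.slope_bot h)).2
    have a₂ := hx.Mac2_up (by omega : k < Lb j)
    have a₃ := hx.Mac2_ge_bot h1 h.le
    linarith
  · have a₁ := hx.Mac2_up (by omega : k < Lb j)
    have a₂ := hx.Mac2_down h.ge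
    linarith
  · have a₁ := (abs_le.1 (hx.slope_top (by omega : Lb j ≤ k) (by omega))).1
    have a₂ := hx.Mac2_down h.le
    have a₃ := hx.Mac2_ge_top h.le h2
    linarith

theorem Mac2_w_ge {j k : ℕ} (h1 : 1 ≤ k) (h2 : k < NN j) : (PP j)⁻¹ ≤ x.w j k := by
  refine le_trans ?_ (hx.w_ge h1 h2)
  have a : 1 ≤ x.W j := le_trans (one_le_pow₀ (by norm_num)) (hx.W_ge j)
  have b : (0 : ℝ) < NN j := Nat.cast_pos.2 (by omega)
  rw [inv_eq_one_div]
  exact div_le_div₀ (by linarith) a b (Mac2_NN_le j)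

theorem Mac2_W_le (j : ℕ) : 2 * x.W j ≤ PP j := by
  linarith [hx.W_le j, Mac2_two_le j]

theorem log_w {j k : ℕ} (h1 : 1 ≤ k) (h2 : k < NN j) : |Real.log (x.w j k)| ≤ ell j / 1000 := by
  have a := hx.Mac2_w_ge h1 h2
  have P := Mac2_PP_one j
  have P' : 0 < (PP j)⁻¹ := inv_pos.2 (by linarith)
  have b : x.w j k ≤ PP j := by linarith [hx.w_le j k, hx.Mac2_W_le j, hx.Mac2_W_pos j]
  have c₁ := Real.log_le_log P' a
  have c₂ := Real.log_le_log (P'.trans_le a) b
  rw [Real.log_inv] at c₁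
  rw [abs_le]
  constructor <;> linarith [log_PP j]

theorem lr_near {j k : ℕ} (hj : 1 ≤ j) (h : k ≤ NN j) : |x.lr j k - ell j| ≤ 1 / (1000 * nn j) := by
  have q := Mac2_nn_pos j
  have b := nn_big hj
  have s : |∑ i ∈ Ico 1 k, x.y j i| ≤ NN j * (2000 * NN j / nn j) := by
    refine (abs_sum_le_sum_abs _ _).trans ((sum_le_card_nsmul _ _ _ fun i _ => hx.y_le j i).trans ?_)
    rw [nsmul_eq_mul, Nat.card_Ico]
    gcongr
    omega
  have s' : (NN j : ℝ) * (2000 * NN j / nn j) ≤ 1 / 1000 := by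
    rw [← mul_div_assoc, div_le_iff₀ q]
    nlinarith [sq_nonneg (NN j : ℝ)]
  rw [Prm.lr, sub_sub_cancel_left, abs_neg, abs_div, abs_of_pos q, ← div_div]
  gcongr
  exact s.trans s'

theorem Mac2_y {j k : ℕ} : |(x.wall j).y (nn j) k| ≤ 2000 * NN j / nn j := by
  rcases Nat.eq_zero_or_pos k with rfl | h
  · rw [x.wall_y_zero, abs_zero]; positivity
  · rw [x.wall_y h]; exact hx.y_le j k

theorem wall_bd {j : ℕ} (hj : 1 ≤ j) : (x.wall j).Bd (nn j) (PP j ^ 2) := by
  have P := Mac2_PP_one j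
  have P2 : PP j ≤ PP j ^ 2 := by nlinarith
  have q := Mac2_nn_pos j
  have q₁ := Mac2_nn_one j
  have p := hx.Mac2_W_pos j
  have e := ell_ge j
  have e' : (90000 : ℝ) ≤ ell j := le_trans (le_mul_of_one_le_right (by norm_num)
    (one_le_pow₀ (by norm_num))) e
  have hlr : ∀ k, k ≤ NN j → |x.lr j k - ell j| ≤ 1 := fun k hk =>
    (hx.lr_near hj hk).trans ((div_le_one (by positivity)).2 (by linarith))
  refine ⟨P.trans P2, le_trans (by norm_num) (nn_ge hj), (Mac2_nn_le j).trans P2,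
    (Mac2_NN_le j).trans P2, ?_, ?_, ?_, ?_, ?_, ?_, ?_, ?_⟩
  · change x.w j 0 / nn j = 0
    rw [x.w_zero, zero_div]
  · intro k hk
    change x.w j k / nn j = 0
    rw [x.w_out hk, zero_div]
  · intro k h1 h2
    change _ ≤ x.w j k / nn j
    rw [sq, mul_inv, ← div_eq_mul_inv]
    exact div_le_div₀ (hx.w_nonneg j k) (hx.Mac2_w_ge h1 h2) q (Mac2_nn_le j)
  · intro k
    change x.w j k / nn j ≤ _
    refine (div_le_self (hx.w_nonneg j k) q₁).trans ?_
    linarith [hx.w_le j k, hx.Mac2_W_le j]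
  · intro k
    obtain ⟨j, rfl⟩ : ∃ i, j = i + 1 := ⟨j - 1, by omega⟩
    change |if j + 1 = 0 then 0 else -x.D2 (j + 1 - 1) (Lb (j + 1 - 1) + k)| ≤ _
    rw [if_neg (by omega), Nat.add_sub_cancel, abs_neg, Prm.D2, abs_le]
    have a₁ := (hx.W_succ j).1
    have a₂ := hx.Mac2_W_le (j + 1)
    have a₃ := hx.Mac2_W_pos j
    constructor <;>
      linarith [hx.w_le j (Lb j + k + 1), hx.w_le j (Lb j + k), hx.w_le j (Lb j + k - 1),
        hx.w_nonneg j (Lb j + k + 1), hx.w_nonneg j (Lb j + k), hx.w_nonneg j (Lb j + k - 1)]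
  · intro k hk
    change |x.lr j k| ≤ _
    have a₁ := abs_le.1 (hlr k hk)
    have a₂ := ell_le_PP j
    rw [ell_succ] at a₂
    rw [abs_le]
    constructor <;> linarith [a₁.1, a₁.2]
  · intro k hk
    refine hx.Mac2_y.trans ?_
    have b := nn_big hj
    have : (1 : ℝ) ≤ NN j := Nat.one_le_cast.2 (by change k < NN j at hk; omega)
    rw [div_le_iff₀ q]
    nlinarith
  · intro k h1 h2
    rw [x.n_mul_c]
    change _ ≤ x.lr j k - _
    have a₁ := abs_le.1 (hlr k (le_of_lt h2))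
    have a₂ := abs_le.1 (hx.log_w h1 h2)
    linarith [a₁.1, a₂.2]

theorem wall_shape {j : ℕ} (hj : 2 ≤ j) : (x.wall j).Shape (nn j) (Lb j) := by
  have hj' : 1 ≤ j := by omega
  have q := Mac2_nn_pos j
  have p := hx.Mac2_W_pos j
  have l := Mac2_Lb_one j
  have l5 : 5 ≤ Lb j := by
    unfold Lb
    calc 5 = 5 ^ 1 := rfl
      _ ≤ 5 ^ (j - 1) := Nat.pow_le_pow_right (by norm_num) (by omega)
  have l5' : (5 : ℝ) ≤ Lb j := by exact_mod_cast l5
  have hM : (Mt j : ℝ) = 5 * Lb j := by exact_mod_cast Mt_eq hj'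
  have hN : (NN j : ℝ) = 6 * Lb j := by exact_mod_cast NN_eq hj'
  have hN' := NN_eq hj'
  have hc : ∀ k, (x.wall j).c k = x.w j k / nn j := fun _ => rfl
  have hd : ∀ k, (x.wall j).c (k + 1) - 2 * (x.wall j).c k + (x.wall j).c (k - 1) =
      x.D2 j k / nn j := fun k => by simp only [hc, Prm.D2]; ring
  have hL : (x.wall j).c (Lb j) = x.W j / nn j := by rw [hc, x.w_L]
  have hWL : 0 < x.W j / Lb j := by positivity
  have hWM : x.W j / Mt j = x.W j / Lb j / 5 := by rw [hM]; field_simp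
  have s₁ := abs_le.1 (hx.slope_bot (by omega : Lb j - 1 < Lb j))
  have s₂ := abs_le.1 (hx.slope_top (le_refl (Lb j)) (by omega))
  rw [show Lb j - 1 + 1 = Lb j by omega] at s₁
  rw [hWM] at s₂
  refine ⟨Lb_pos j, hN', nn_big hj', ?_, ?_, ?_, ?_, ?_, ?_, fun k _ => hx.Mac2_y⟩
  · intro k hk
    change k ≤ NN j at hk
    change _ * ((min k (NN j - k) : ℕ) : ℝ) / _ ≤ _
    rw [hL, hc, div_mul_eq_mul_div, div_right_comm]
    gcongr
    rcases le_total k (Lb j) with h | h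
    · have h₁ := (abs_le.1 (hx.w_bot h)).1
      have h₂ : ((min k (NN j - k) : ℕ) : ℝ) ≤ k := Nat.cast_le.2 (min_le_left _ _)
      have h₃ : x.W j * ((min k (NN j - k) : ℕ) : ℝ) / (6 * Lb j) ≤ x.W j * k / Lb j / 6 := by
        rw [div_div, mul_comm (Lb j : ℝ)]; gcongr
      have : 0 ≤ x.W j * k / Lb j := by positivity
      linarith
    · have h₁ := (abs_le.1 (hx.w_top h hk)).1
      have h₂ : ((min k (NN j - k) : ℕ) : ℝ) ≤ NN j - k := by
        rw [← Nat.cast_sub hk]; exact Nat.cast_le.2 (min_le_right _ _)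
      have h₄ : (0 : ℝ) ≤ NN j - k := sub_nonneg.2 (Nat.cast_le.2 hk)
      have h₃ : x.W j * ((min k (NN j - k) : ℕ) : ℝ) / (6 * Lb j) ≤
          x.W j * (NN j - k) / Mt j * (5 / 6) := by
        rw [hM, show x.W j * (NN j - k) / (5 * Lb j) * (5 / 6) =
          x.W j * (NN j - k) / (6 * Lb j) by field_simp]
        gcongr
      have : 0 ≤ x.W j * (NN j - k) / Mt j := by positivity
      linarith
  · intro k
    rw [hL, hc, ← mul_div_assoc]
    gcongr
    linarith [hx.w_le j k]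
  · intro k h1 h2
    rw [hL, hc, div_right_comm]
    gcongr
    have h₁ := (abs_le.1 (hx.w_top h1 (by omega))).1
    have h₂ : (k : ℝ) ≤ 2 * Lb j := by exact_mod_cast h2
    have h₃ : 4 / 5 * x.W j ≤ x.W j * (NN j - k) / Mt j := by
      rw [hM, hN, le_div_iff₀ (by positivity)]
      nlinarith
    linarith
  · intro k h1 h2
    rw [hc, hc, hc, ← add_div]
    gcongr
    rcases lt_trichotomy k (Lb j) with h | rfl | h
    · linarith [hx.Mac2_up h, hx.w_nonneg j (k - 1)]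
    · have : x.W j / Lb j ≤ x.W j / 5 := by gcongr
      rw [x.w_L] at s₁ s₂ ⊢
      linarith [s₁.2, s₂.1]
    · have := hx.Mac2_down (by omega : Lb j ≤ k - 1)
      rw [show k - 1 + 1 = k by omega] at this
      linarith [hx.w_nonneg j (k + 1)]
  · intro k h1 h2 h3
    change k < NN j at h2
    rw [hd, hL, abs_div, abs_of_pos q]
    gcongr
    have : 0 < x.W j / nn j := by positivity
    rcases lt_or_gt_of_ne h3 with h | h
    · rw [x.D2_bot h1 h]
      have := hx.sBot_le hj k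
      rw [mul_div_assoc] at this
      linarith
    · obtain ⟨a, rfl⟩ : ∃ a, k = Lb j + a := ⟨k - Lb j, by omega⟩
      rw [x.D2_top (by omega) (by unfold NN at h2; omega)]
      have := hx.sTop_le j a
      rw [mul_div_assoc] at this
      linarith
  · rw [hd, hL, abs_div, abs_of_pos q, ← mul_div_assoc, div_right_comm]
    gcongr
    rw [Prm.D2, mul_div_assoc, abs_le]
    constructor <;> linarith [s₁.1, s₁.2, s₂.1, s₂.2]

end InK

end Pool.Agent.MP_943ae2_gt
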