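import Pool.Agent.MP_943ae2_gt.Err2
import Pool.Agent.MP_943ae2_gt.Err3

open Set Complex Filter Finset
open scoped Topology ComplexConjugate ContDiff

noncomputable section

namespace Pool.Agent.MP_943ae2_gt

lemma Mac3_avg {n : ℕ} [NeZero n] {f : ZMod n → ℝ} {v B : ℝ} (h : ∀ i, |f i - v| ≤ B) :
    |avg n f - v| ≤ B := by
  have hn : (0 : ℝ) < n := Nat.cast_pos.2 (Nat.pos_of_ne_zero (NeZero.ne n))
  have e : avg n f - v = (∑ i, (f i - v)) / n := by
    rw [avg, sum_sub_distrib, sum_const, card_univ, ZMod.card, nsmul_eq_mul]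
    field_simp
  rw [e, abs_div, abs_of_pos hn, div_le_iff₀ hn]
  refine (abs_sum_le_sum_abs _ _).trans ((sum_le_card_nsmul _ _ _ fun i _ => h i).trans ?_)
  rw [card_univ, ZMod.card, nsmul_eq_mul, mul_comm]

lemma Mac3_mul {a b A B : ℝ} (ha : |a| ≤ A) (hb : |b| ≤ B) : |a * b| ≤ A * B := by
  rw [abs_mul]
  exact mul_le_mul ha hb (abs_nonneg _) ((abs_nonneg _).trans ha)

lemma Mac3_log {f : ℝ} (hf : |f| ≤ 1 / 10) :
    |Real.log ((1 + 2 * f) / (1 - 2 * f))| ≤ 5 * |f| := by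
  obtain ⟨h1, h2⟩ := abs_le.1 hf
  have a : 0 < 1 + 2 * f := by linarith
  have b : 0 < 1 - 2 * f := by linarith
  have f1 := le_abs_self f
  have f2 := neg_abs_le f
  have f0 := abs_nonneg f
  rw [abs_le]
  constructor
  · have h := Real.log_le_sub_one_of_pos (div_pos b a)
    have e : Real.log ((1 - 2 * f) / (1 + 2 * f)) = -Real.log ((1 + 2 * f) / (1 - 2 * f)) := by
      rw [← Real.log_inv, inv_div]
    have g : (1 - 2 * f) / (1 + 2 * f) ≤ 1 + 5 * |f| := by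
      rw [div_le_iff₀ a]
      nlinarith
    linarith
  · have h := Real.log_le_sub_one_of_pos (div_pos a b)
    have g : (1 + 2 * f) / (1 - 2 * f) ≤ 1 + 5 * |f| := by
      rw [div_le_iff₀ b]
      nlinarith
    linarith

lemma Mac3_lexp {y : ℝ} (hy : |y| ≤ 1) : |Real.log (1 + Real.exp y)| ≤ 3 := by
  have h0 := Real.exp_pos y
  have h1 : Real.exp y ≤ 3 :=
    (Real.exp_le_exp.2 (abs_le.1 hy).2).trans (Real.exp_one_lt_d9.le.trans (by norm_num))
  rw [abs_of_nonneg (Real.log_nonneg (by linarith))]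
  have := Real.log_le_sub_one_of_pos (show 0 < 1 + Real.exp y by linarith)
  linarith

lemma Mac3_fin {s l a a1 a2 b b1 b2 p p' q1 q2 q1' q2' d e : ℝ} (hl : 90000 ≤ l) (hs : |s| ≤ 8)
    (ha : |a| ≤ 1) (ha1 : |a1| ≤ 1) (ha2 : |a2| ≤ 1) (hb : |b| ≤ 2) (hb1 : |b1| ≤ 2)
    (hb2 : |b2| ≤ 2) (hp : |p| ≤ 11 / 10 * l) (hp' : |p'| ≤ 41 / 10 * l) (hq1 : |q1| ≤ 3)
    (hq2 : |q2| ≤ 3) (hq1' : |q1'| ≤ 4) (hq2' : |q2'| ≤ 4) (hd : |3 * l - d| ≤ 1) (he : |e| ≤ 2) :
    |s + (2 * (a * p) + a1 * q1 + a2 * q2 - s * d - 2 * (b * p') - b1 * q1' - b2 * q2' + e) /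
      (3 * l)| ≤ 8 := by
  have l0 : 0 < 3 * l := by linarith
  have e1 : s + (2 * (a * p) + a1 * q1 + a2 * q2 - s * d - 2 * (b * p') - b1 * q1' - b2 * q2' + e) /
      (3 * l) = (s * (3 * l - d) + 2 * (a * p) + a1 * q1 + a2 * q2 - 2 * (b * p') - b1 * q1' -
        b2 * q2' + e) / (3 * l) := by
    field_simp
    ring
  rw [e1, abs_div, abs_of_pos l0, div_le_iff₀ l0]
  have m0 := abs_le.1 (Mac3_mul hs hd)
  have m1 := abs_le.1 (Mac3_mul ha hp)
  have m2 := abs_le.1 (Mac3_mul ha1 hq1)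
  have m3 := abs_le.1 (Mac3_mul ha2 hq2)
  have m4 := abs_le.1 (Mac3_mul hb hp')
  have m5 := abs_le.1 (Mac3_mul hb1 hq1')
  have m6 := abs_le.1 (Mac3_mul hb2 hq2')
  have m7 := abs_le.1 he
  rw [abs_le]
  constructor <;> linarith [m0.1, m0.2, m1.1, m1.2, m2.1, m2.2, m3.1, m3.2, m4.1, m4.2, m5.1, m5.2,
    m6.1, m6.2, m7.1, m7.2]

lemma Mac3_tn (j : ℕ) : tt j ^ 2 * nn j ≤ 1 := by
  have h1 := admM_PP_tt j
  have h2 := Mac2_nn_le j
  have h3 := tt_pos j
  have h4 := admM_tt_one j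
  have h5 := Mac2_nn_pos j
  have h6 : tt j * nn j ≤ 1 := by nlinarith
  nlinarith

lemma Mac3_NN {j : ℕ} (hj : 1 ≤ j) : (NN j : ℝ) = 6 * Lb j := by
  rw [NN_eq hj]
  push_cast
  ring

lemma Mac3_Mt {j : ℕ} (hj : 1 ≤ j) : (Mt j : ℝ) = 5 * Lb j := by
  rw [Mt_eq hj]
  push_cast
  ring

lemma Mac3_small {j : ℕ} (hj : 1 ≤ j) : (NN j : ℝ) / nn j ≤ 1 / 10 ^ 7 := by
  have h := nn_big hj
  have q := Mac2_nn_pos j
  have h1 := Mac2_Lb_one j
  have h2 := Mac3_NN hj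
  rw [div_le_div_iff₀ q (by norm_num)]
  nlinarith

namespace InK

variable {x : Prm} (hx : InK x)
include hx

lemma Mac3_W_one (j : ℕ) : 1 ≤ x.W j :=
  (one_le_pow₀ (by norm_num)).trans (hx.W_ge j)

lemma Mac3_t (j : ℕ) : tt j ^ 2 ≤ x.W j / nn j := by
  rw [le_div_iff₀ (Mac2_nn_pos j)]
  exact (Mac3_tn j).trans (hx.Mac3_W_one j)

lemma Mac3_c (j k : ℕ) : |(x.wall j).c k| ≤ x.W j / nn j := by
  have q := Mac2_nn_pos j
  rw [x.Mac1_c, abs_of_nonneg (div_nonneg (hx.w_nonneg j k) q.le)]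
  exact div_le_div_of_nonneg_right (hx.w_le j k) q.le

lemma Mac3_up {j i k : ℕ} (h : i ≤ k) (hk : k ≤ Lb j) : x.w j i ≤ x.w j k := by
  induction k, h using Nat.le_induction with
  | base => exact le_rfl
  | succ k _ ih => exact (ih (by omega)).trans (hx.Mac2_up (by omega))

lemma Mac3_down {j i k : ℕ} (h : i ≤ k) (hi : Lb j ≤ i) : x.w j k ≤ x.w j i := by
  induction k, h using Nat.le_induction with
  | base => exact le_rfl
  | succ k hk ih => exact (hx.Mac2_down (by omega)).trans ih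

theorem eta_le {j k : ℕ} (hj : 1 ≤ j) (h1 : 1 ≤ k) (h2 : k < NN j) (h3 : k ≠ Lb j) :
    |x.eta j k| ≤ 200 * x.W j / nn j := by
  have c := abs_le.1 (hx.Mac3_c j k)
  have e := abs_le.1 ((hx.err_le hj h1 h2).trans (hx.Mac3_t j))
  have r : 0 ≤ x.W j / nn j := (abs_nonneg _).trans (hx.Mac3_c j k)
  rw [mul_div_assoc, Prm.eta]
  rcases lt_or_gt_of_ne h3 with h | h
  · have hj2 : 2 ≤ j := by
      by_contra hc
      obtain rfl : j = 1 := by omega
      have : Lb 1 = 1 := rfl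
      omega
    have s := hx.sBot_le hj2 k
    rw [mul_div_assoc, abs_le] at s
    rw [x.g_bot h1 h, x.D2_bot h1 h]
    have d : x.sTop (j - 1) k = -x.sBot j k - x.W j / nn j := by
      rw [Prm.sBot]
      ring
    rw [d, abs_le]
    constructor <;> linarith [c.1, c.2, e.1, e.2, s.1, s.2]
  · obtain ⟨a, rfl⟩ : ∃ a, k = Lb j + a := ⟨k - Lb j, by omega⟩
    have hN : NN j = Lb j + Mt j := rfl
    have s := hx.sTop_le j a
    rw [mul_div_assoc, abs_le] at s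
    rw [x.g_top h, x.D2_top (by omega) (by omega), abs_le]
    constructor <;> linarith [c.1, c.2, e.1, e.2, s.1, s.2]

theorem eta_L (j : ℕ) :
    |x.eta (j + 1) (Lb (j + 1)) * Lb (j + 1) - (3 / 5 * x.W (j + 1) - x.W j)| ≤
      x.W (j + 1) / 1000 := by
  have hj : 1 ≤ j + 1 := by omega
  have hN : NN j = Lb j + Mt j := rfl
  have hN' : NN (j + 1) = Lb (j + 1) + Mt (j + 1) := rfl
  have hL := Lb_pos (j + 1)
  have hM := Mt_pos (j + 1)
  have hM0 := Mt_pos j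
  have L1 := Mac2_Lb_one (j + 1)
  have L0 : (0 : ℝ) < Lb (j + 1) := by linarith
  have q := Mac2_nn_pos (j + 1)
  have W0 := hx.Mac2_W_pos j
  have W1 := (hx.W_succ j).1
  have a1 := hx.w_top (j := j) (k := NN j - 1) (by omega) (by omega)
  rw [Nat.cast_sub (by omega), Nat.cast_one, sub_sub_cancel, mul_one, ← Lb_succ] at a1
  have a2 := hx.slope_top (j := j + 1) (k := Lb (j + 1)) le_rfl (by omega)
  rw [Mac3_Mt hj] at a2
  have a3 := hx.slope_bot (j := j + 1) (k := Lb (j + 1) - 1) (by omega)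
  rw [Nat.sub_add_cancel hL] at a3
  have a4 := hx.Mac3_c (j + 1) (Lb (j + 1))
  have a5 := (hx.err_le hj hL (by omega)).trans (hx.Mac3_t (j + 1))
  have a6 : x.W (j + 1) / nn (j + 1) * Lb (j + 1) ≤ x.W (j + 1) / 10 ^ 7 := by
    have b := Mac3_small hj
    rw [Mac3_NN hj, mul_div_assoc] at b
    have b0 : (0 : ℝ) ≤ Lb (j + 1) / nn (j + 1) := by positivity
    have e : x.W (j + 1) / nn (j + 1) * Lb (j + 1) = x.W (j + 1) * (Lb (j + 1) / nn (j + 1)) := by
      ring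
    rw [e]
    nlinarith
  have k0 : |(Lb (j + 1) : ℝ)| ≤ Lb (j + 1) := (abs_of_pos L0).le
  have b1 := abs_le.1 (Mac3_mul a1 k0)
  have b2 := abs_le.1 (Mac3_mul a2 k0)
  have b3 := abs_le.1 (Mac3_mul a3 k0)
  have b4 := abs_le.1 ((Mac3_mul a4 k0).trans a6)
  have b5 := abs_le.1 ((Mac3_mul a5 k0).trans a6)
  have e1 : x.W j / Lb (j + 1) * Lb (j + 1) = x.W j := div_mul_cancel₀ _ L0.ne'
  have e2 : x.W (j + 1) / (5 * Lb (j + 1)) * Lb (j + 1) = x.W (j + 1) / 5 := by field_simp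
  have e3 : x.W (j + 1) / Lb (j + 1) * Lb (j + 1) = x.W (j + 1) := div_mul_cancel₀ _ L0.ne'
  rw [Prm.eta, x.g_L, Prm.D2, abs_le]
  constructor <;> linarith [b1.1, b1.2, b2.1, b2.2, b3.1, b3.2, b4.1, b4.2, b5.1, b5.2]

lemma Mac3_sum {j : ℕ} (hj : 1 ≤ j) (S : Finset ℕ) {B : ℝ}
    (hS : ∀ i ∈ S, 1 ≤ i ∧ i < NN j ∧ i ≠ Lb j ∧ x.w j i ≤ B) :
    |∑ i ∈ S, x.w j i * x.eta j i| ≤ S.card * (B * (200 * x.W j / nn j)) := by
  refine (abs_sum_le_sum_abs _ _).trans ((sum_le_card_nsmul _ _ _ fun i hi => ?_).trans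
    (nsmul_eq_mul _ _).le)
  obtain ⟨h1, h2, h3, h4⟩ := hS i hi
  exact Mac3_mul ((abs_of_nonneg (hx.w_nonneg j i)).le.trans h4) (hx.eta_le hj h1 h2 h3)

theorem ff_le {j k : ℕ} (hj : 1 ≤ j) (h1 : 1 ≤ k) (h2 : k + 1 < NN j) :
    |x.ff j k| ≤ 400 * NN j / nn j := by
  have q := Mac2_nn_pos j
  have W0 := hx.Mac2_W_pos j
  have L1 := Mac2_Lb_one j
  have hN := Mac3_NN hj
  have hM := Mac3_Mt hj
  have N0 : (0 : ℝ) < NN j := by linarith
  have p0 : 0 < x.W j / NN j := div_pos W0 N0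
  have p1 : 0 < x.w j k := p0.trans_le (hx.w_ge h1 (by omega))
  have p2 : 0 < x.w j (k + 1) := p0.trans_le (hx.w_ge (by omega) h2)
  rw [Prm.ff, abs_div, abs_of_pos (mul_pos p1 p2), div_le_iff₀ (mul_pos p1 p2), Prm.psi]
  split_ifs with h
  · refine (hx.Mac3_sum hj _ (B := x.w j k) fun i hi => ?_).trans ?_
    · rw [Finset.mem_Icc] at hi
      exact ⟨hi.1, by omega, by omega, hx.Mac3_up hi.2 h.le⟩
    · have a := (abs_le.1 (hx.w_bot (j := j) (k := k + 1) h)).1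
      have L0 : (0 : ℝ) < Lb j := by linarith
      have b : x.W j * k ≤ 2 * NN j * x.w j (k + 1) := by
        have e : x.W j * ((k + 1 : ℕ) : ℝ) / Lb j * Lb j = x.W j * (k + 1) := by
          push_cast
          field_simp
        have k0 : (0 : ℝ) ≤ k := Nat.cast_nonneg k
        have c : x.W j * ((k + 1 : ℕ) : ℝ) / Lb j ≤ 2 * x.w j (k + 1) := by linarith
        have c' := mul_le_mul_of_nonneg_right c L0.le
        rw [hN]
        nlinarith
      rw [Nat.card_Icc, Nat.add_sub_cancel]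
      have e1 : (k : ℝ) * (x.w j k * (200 * x.W j / nn j)) =
        200 * x.w j k / nn j * (x.W j * k) := by ring
      have e2 : 400 * (NN j : ℝ) / nn j * (x.w j k * x.w j (k + 1)) =
        200 * x.w j k / nn j * (2 * NN j * x.w j (k + 1)) := by ring
      rw [e1, e2]
      exact mul_le_mul_of_nonneg_left b (by positivity)
  · rw [abs_neg]
    refine (hx.Mac3_sum hj _ (B := x.w j (k + 1)) fun i hi => ?_).trans ?_
    · rw [Finset.mem_Ioo] at hi
      exact ⟨by omega, hi.2, by omega, hx.Mac3_down hi.1 (by omega)⟩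
    · have a := (abs_le.1 (hx.w_top (j := j) (k := k) (by omega) (by omega))).1
      have M0 : (0 : ℝ) < Mt j := by linarith
      have hc : (((Finset.Ioo k (NN j)).card : ℕ) : ℝ) ≤ NN j - k := by
        rw [Nat.card_Ioo, ← Nat.cast_sub (by omega)]
        exact Nat.cast_le.2 (by omega)
      have b : x.W j * ((Finset.Ioo k (NN j)).card : ℕ) ≤ 2 * NN j * x.w j k := by
        have e : x.W j * ((NN j : ℝ) - k) / Mt j * Mt j = x.W j * (NN j - k) := by
          field_simp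
        have c : x.W j * ((NN j : ℝ) - k) / Mt j ≤ 2 * x.w j k := by linarith
        have c' := mul_le_mul_of_nonneg_right c M0.le
        have c'' := mul_le_mul_of_nonneg_left hc W0.le
        have : 2 * x.w j k * Mt j ≤ 2 * NN j * x.w j k := by
          rw [hN, hM]
          nlinarith
        linarith
      have e1 : (((Finset.Ioo k (NN j)).card : ℕ) : ℝ) * (x.w j (k + 1) * (200 * x.W j / nn j)) =
        200 * x.w j (k + 1) / nn j * (x.W j * ((Finset.Ioo k (NN j)).card : ℕ)) := by ring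
      have e2 : 400 * (NN j : ℝ) / nn j * (x.w j k * x.w j (k + 1)) =
        200 * x.w j (k + 1) / nn j * (2 * NN j * x.w j k) := by ring
      rw [e1, e2]
      exact mul_le_mul_of_nonneg_left b (by positivity)

theorem uN_mem (j : ℕ) : |x.uN j - 5 / 3| ≤ 1 / 100 := by
  rcases j with _ | j
  · rw [Prm.uN, if_pos rfl]
    norm_num
  have hj : 1 ≤ j + 1 := by omega
  have hN' : NN (j + 1) = Lb (j + 1) + Mt (j + 1) := rfl
  have hL := Lb_pos (j + 1)
  have hM := Mt_pos (j + 1)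
  have L1 := Mac2_Lb_one (j + 1)
  have q := Mac2_nn_pos (j + 1)
  have W0 := hx.Mac2_W_pos j
  have W1 := hx.Mac2_W_pos (j + 1)
  have W2 := (hx.W_succ j).2
  have hW : x.W (j + 1) = x.W j * x.u (j + 1) := rfl
  have hm : Lb (j + 1) ∈ Finset.Ico 1 (NN (j + 1)) := Finset.mem_Ico.2 ⟨hL, by omega⟩
  have a1 := hx.eta_L j
  have a2 := hx.Mac3_sum hj ((Finset.Ico 1 (NN (j + 1))).erase (Lb (j + 1))) (B := x.W (j + 1))
    fun i hi => by
      rw [Finset.mem_erase, Finset.mem_Ico] at hi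
      exact ⟨hi.2.1, hi.2.2, hi.1, hx.w_le _ _⟩
  have hc : ((((Finset.Ico 1 (NN (j + 1))).erase (Lb (j + 1))).card : ℕ) : ℝ) ≤ NN (j + 1) := by
    refine Nat.cast_le.2 (Finset.card_erase_le.trans ?_)
    rw [Nat.card_Ico]
    omega
  replace a2 := a2.trans (mul_le_mul_of_nonneg_right hc (by positivity))
  rw [Prm.uN, if_neg (by omega), Nat.add_sub_cancel, ← Finset.add_sum_erase _ _ hm, x.w_L]
  generalize ∑ i ∈ (Finset.Ico 1 (NN (j + 1))).erase (Lb (j + 1)),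
    x.w (j + 1) i * x.eta (j + 1) i = R at a2 ⊢
  have e : x.u (j + 1) - 5 / 3 * (Lb (j + 1) / (x.W j * x.W (j + 1))) *
      (x.W (j + 1) * x.eta (j + 1) (Lb (j + 1)) + R) - 5 / 3 =
      -(5 / 3) * ((x.eta (j + 1) (Lb (j + 1)) * Lb (j + 1) - (3 / 5 * x.W (j + 1) - x.W j)) /
        x.W j + Lb (j + 1) / (x.W j * x.W (j + 1)) * R) := by
    have hu : x.u (j + 1) = x.W (j + 1) / x.W j := by
      rw [hW]
      field_simp
    rw [hu]
    field_simp
    ring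
  have b1 : |(x.eta (j + 1) (Lb (j + 1)) * Lb (j + 1) - (3 / 5 * x.W (j + 1) - x.W j)) / x.W j| ≤
      2 / 1000 := by
    rw [abs_div, abs_of_pos W0, div_le_iff₀ W0]
    linarith
  have b2 : |Lb (j + 1) / (x.W j * x.W (j + 1)) * R| ≤ 1 / 1000 := by
    have k0 : |(Lb (j + 1) : ℝ) / (x.W j * x.W (j + 1))| ≤ NN (j + 1) / (x.W j * x.W (j + 1)) := by
      rw [abs_of_pos (by positivity), Mac3_NN hj]
      gcongr
      linarith
    refine (Mac3_mul k0 a2).trans ?_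
    have e2 : (NN (j + 1) : ℝ) / (x.W j * x.W (j + 1)) *
        (NN (j + 1) * (x.W (j + 1) * (200 * x.W (j + 1) / nn (j + 1)))) =
        200 * (x.W (j + 1) / x.W j) * (NN (j + 1) ^ 2 / nn (j + 1)) := by
      field_simp
    have c1 : x.W (j + 1) / x.W j ≤ 2 := by
      rw [div_le_iff₀ W0]
      linarith
    have c2 : (NN (j + 1) : ℝ) ^ 2 / nn (j + 1) ≤ 1 / 10 ^ 7 := by
      rw [div_le_div_iff₀ q (by norm_num)]
      linarith [nn_big hj]
    rw [e2]
    calc _ ≤ 200 * (2 : ℝ) * (1 / 10 ^ 7) := by gcongr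
      _ ≤ _ := by norm_num
  rw [e, abs_le]
  obtain ⟨b1, b1'⟩ := abs_le.1 b1
  obtain ⟨b2, b2'⟩ := abs_le.1 b2
  constructor <;> linarith

theorem yN_le (j k : ℕ) : |x.yN j k| ≤ 2000 * NN j / nn j := by
  have q := Mac2_nn_pos j
  rw [Prm.yN]
  split_ifs with h
  · have hj : 1 ≤ j := by
      by_contra hc
      obtain rfl : j = 0 := by omega
      have := NN_zero
      omega
    have a := hx.ff_le hj h.1 h.2
    have b := Mac3_small hj
    rw [mul_div_assoc] at a ⊢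
    refine (Mac3_log (by linarith)).trans (by linarith)
  · rw [abs_zero]
    positivity

lemma Mac3_y {j : ℕ} (hj : 1 ≤ j) (k : ℕ) : |(x.wall j).y (nn j) k| ≤ 1 := by
  have a := hx.Mac2_y (j := j) (k := k)
  have b := Mac3_small hj
  rw [mul_div_assoc] at a
  linarith

lemma Mac3_lr {j k : ℕ} (hj : 1 ≤ j) (h : k ≤ NN j) : |x.lr j k - ell j| ≤ 1 / 1000 := by
  refine (hx.lr_near hj h).trans (one_div_le_one_div_of_le (by norm_num) ?_)
  linarith [Mac2_nn_one j]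

lemma Mac3_rc (j k : ℕ) : |nn j / x.W j * (x.wall j).c k| ≤ 1 := by
  have q := Mac2_nn_pos j
  have W0 := hx.Mac2_W_pos j
  refine (Mac3_mul (abs_of_pos (div_pos q W0)).le (hx.Mac3_c j k)).trans (le_of_eq ?_)
  field_simp

lemma Mac3_rc' (j k : ℕ) : |nn j / x.W j * (x.wall (j + 1)).c k| ≤ 2 := by
  have q := Mac2_nn_pos j
  have q' := Mac2_nn_pos (j + 1)
  have W0 := hx.Mac2_W_pos j
  have W1 := hx.Mac2_W_pos (j + 1)
  have W2 := (hx.W_succ j).2
  have m : (nn j : ℝ) ≤ nn (j + 1) := Nat.cast_le.2 (nn_mono j)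
  refine (Mac3_mul (abs_of_pos (div_pos q W0)).le (hx.Mac3_c (j + 1) k)).trans ?_
  rw [div_mul_div_comm, div_le_iff₀ (by positivity)]
  nlinarith

theorem sN_le (j a : ℕ) : |x.sN j a| ≤ 8 := by
  rw [Prm.sN]
  split_ifs with h
  swap
  · norm_num
  obtain ⟨h1, h2⟩ := h
  have hj : 1 ≤ j := by
    by_contra hc
    obtain rfl : j = 0 := by omega
    have := Mt_zero
    omega
  have hj' : 1 ≤ j + 1 := by omega
  have hN : NN j = Lb j + Mt j := rfl
  have hN' : NN (j + 1) = Lb (j + 1) + Mt (j + 1) := rfl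
  have hL : Lb (j + 1) = Mt j := rfl
  have q := Mac2_nn_pos j
  have W0 := hx.Mac2_W_pos j
  have l0 : 90000 ≤ ell j := by
    have := ell_ge j
    have : (1 : ℝ) ≤ 4 ^ j := one_le_pow₀ (by norm_num)
    linarith
  have l1 := ell_succ j
  have k1 : 1 ≤ Lb j + a := by omega
  have k2 : Lb j + a < NN j := by omega
  have k3 : a < NN (j + 1) := by omega
  have a1 := Mac3_avg (hx.Dt_val k1 k2)
  have a2 := Mac3_avg (hx.Dt_val h1 k3)
  have o2 : x.Oc (j + 1) a = 0 := by rw [Prm.Oc, if_neg (by omega)]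
  have o1 : x.Oc j (Lb j + a) = x.D2 (j + 1) a * x.lr (j + 1) a -
      (x.wall (j + 1)).c (a + 1) * (x.wall (j + 1)).y (nn (j + 1)) a +
      (x.wall (j + 1)).c (a - 1) * (x.wall (j + 1)).y (nn (j + 1)) (a - 1) := by
    rw [Prm.Oc, if_pos (by omega), Nat.add_sub_cancel_left, x.wlr_eq (j + 1) h1]
  have t1 := hx.Mac3_t j
  have t2 : tt (j + 1) ^ 2 ≤ tt j ^ 2 :=
    pow_le_pow_left₀ (tt_pos _).le (tt_anti (Nat.le_succ j)) 2
  rw [o1, x.Ds_eq, x.g_top (by omega), x.D2_top h1 h2] at a1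
  rw [o2, x.Ds_eq, x.Mac1_g, x.D2_top h1 h2] at a2
  have r1 := abs_le.1 (hx.Mac3_lr hj k2.le)
  have r2 := abs_le.1 (hx.Mac3_lr hj' k3.le)
  have g1 := abs_le.1 (hx.log_w k1 k2)
  have g2 := abs_le.1 (hx.log_w h1 k3)
  have y1 := hx.Mac3_y hj (Lb j + a - 1)
  have y2 := hx.Mac3_y hj (Lb j + a)
  have y3 := hx.Mac3_y hj' (a - 1)
  have y4 := hx.Mac3_y hj' a
  have z1 := Mac3_lexp y1
  have z2 := Mac3_lexp ((abs_neg _).trans_le y2)
  have z3 := abs_le.1 (Mac3_lexp y3)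
  have z4 := abs_le.1 (Mac3_lexp ((abs_neg _).trans_le y4))
  replace y3 := abs_le.1 y3
  replace y4 := abs_le.1 y4
  have hs : x.sTop j a = x.s j a * x.W j / nn j := rfl
  have E := abs_le.1 (a1.trans t1)
  have E' := abs_le.1 (a2.trans (t2.trans t1))
  generalize avg (nn j) (x.Dt j (Lb j + a)) = A at E ⊢
  generalize avg (nn (j + 1)) (x.Dt (j + 1) a) = A' at E' ⊢
  clear a1 a2
  have key := Mac3_fin (p := x.lr j (Lb j + a) - Real.log (x.w j (Lb j + a)))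
    (p' := x.lr (j + 1) a - Real.log (x.w (j + 1) a))
    (q1' := Real.log (1 + Real.exp ((x.wall (j + 1)).y (nn (j + 1)) (a - 1))) -
      (x.wall (j + 1)).y (nn (j + 1)) (a - 1))
    (q2' := Real.log (1 + Real.exp (-(x.wall (j + 1)).y (nn (j + 1)) a)) +
      (x.wall (j + 1)).y (nn (j + 1)) a)
    (d := x.lr (j + 1) a - x.lr j (Lb j + a))
    (e := nn j / x.W j * ((A - (2 * (x.wall j).c (Lb j + a) *
        (x.lr j (Lb j + a) - Real.log (x.w j (Lb j + a))) + (x.sTop j a - 0) * x.lr j (Lb j + a) +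
        (x.wall j).c (Lb j + a - 1) *
          Real.log (1 + Real.exp ((x.wall j).y (nn j) (Lb j + a - 1))) +
        (x.wall j).c (Lb j + a + 1) * Real.log (1 + Real.exp (-(x.wall j).y (nn j) (Lb j + a))) +
        (x.D2 (j + 1) a * x.lr (j + 1) a -
          (x.wall (j + 1)).c (a + 1) * (x.wall (j + 1)).y (nn (j + 1)) a +
          (x.wall (j + 1)).c (a - 1) * (x.wall (j + 1)).y (nn (j + 1)) (a - 1)))) -
      (A' - (2 * (x.wall (j + 1)).c a * (x.lr (j + 1) a - Real.log (x.w (j + 1) a)) +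
        (x.D2 (j + 1) a - -x.sTop j a) * x.lr (j + 1) a +
        (x.wall (j + 1)).c (a - 1) *
          Real.log (1 + Real.exp ((x.wall (j + 1)).y (nn (j + 1)) (a - 1))) +
        (x.wall (j + 1)).c (a + 1) *
          Real.log (1 + Real.exp (-(x.wall (j + 1)).y (nn (j + 1)) a)) + 0))))
    l0 (hx.s_le j a) (hx.Mac3_rc j (Lb j + a)) (hx.Mac3_rc j (Lb j + a - 1))
    (hx.Mac3_rc j (Lb j + a + 1)) (hx.Mac3_rc' j a) (hx.Mac3_rc' j (a - 1)) (hx.Mac3_rc' j (a + 1))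
    (abs_le.2 ⟨by linarith [r1.1, g1.2], by linarith [r1.2, g1.1]⟩)
    (abs_le.2 ⟨by linarith [r2.1, g2.2], by linarith [r2.2, g2.1]⟩) z1 z2
    (abs_le.2 ⟨by linarith [z3.1, y3.2], by linarith [z3.2, y3.1]⟩)
    (abs_le.2 ⟨by linarith [z4.1, y4.1], by linarith [z4.2, y4.2]⟩)
    (abs_le.2 ⟨by linarith [r1.1, r2.2], by linarith [r1.2, r2.1]⟩)
    ((Mac3_mul (B := 2 * (x.W j / nn j)) (abs_of_pos (div_pos q W0)).le
      (abs_le.2 ⟨by linarith [E.1, E'.2], by linarith [E.2, E'.1]⟩)).trans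
      (le_of_eq (by field_simp)))
  refine le_of_eq_of_le ?_ key
  congr 3
  rw [hs]
  field_simp
  ring

end InK

end Pool.Agent.MP_943ae2_gt
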