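import Pool.Agent.MP_943ae2_gt.Pot5
import Pool.Agent.MP_943ae2_gt.Gap5
import Pool.Agent.MP_943ae2_gt.Asm

open Set Complex Filter Finset
open scoped Topology ComplexConjugate ContDiff

noncomputable section

namespace Pool.Agent.MP_943ae2_gt

theorem final : Final := by
  obtain ⟨x, hx, he⟩ := exists_eqs
  exact hx.adm.final (he.sol hx) (Eqs_ord hx he) hx.pots

end Pool.Agent.MP_943ae2_gt
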