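import Pool.Agent.MP_943ae2_gt.AdmM
import Pool.Agent.MP_943ae2_gt.Equi

open Set Complex Filter Finset
open scoped Topology ComplexConjugate ContDiff

noncomputable section

namespace Pool.Agent.MP_943ae2_gt

theorem symm_uu : uu * conj uu = 1 := by
  rw [mul_conj, normSq_eq_norm_sq, norm_uu]
  simp

theorem symm_pp (x : Prm) (ν : Nk) : x.dat.pos (ν, false) = x.pp ν.j ν.k ν.i := by
  simp [Dat.pos, Prm.dat]

theorem symm_rot_fix (ν : Nk) (hj : ν.j = 0) : rotN ν = ν := by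
  obtain ⟨j, k, i, h1, h2⟩ := ν
  obtain rfl : j = 0 := hj
  have : Subsingleton (ZMod (nn 0)) := by
    rw [nn_zero]
    infer_instance
  show (⟨0, k, i + sh 0, h1, h2⟩ : Nk) = ⟨0, k, i, h1, h2⟩
  rw [Subsingleton.elim (i + sh 0) i]

namespace InK

variable {x : Prm} (hx : InK x)
include hx

theorem symm_bq_rot (j k : ℕ) (i : ZMod (nn j)) : x.bq j k (i + sh j) = x.bq j k i := by
  simp only [Prm.bq, Wall.bq, hx.ε_rot]

theorem symm_bq_refl (j k : ℕ) (i : ZMod (nn j)) : x.bq j k (-i - k) = x.bq j k i := by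
  simp only [Prm.bq, Wall.bq, hx.ε_refl]

theorem Ft_rot (j k : ℕ) (i : ZMod (nn j)) : x.Ft j k (i + sh j) = x.Ft j k i := by
  unfold Prm.Ft Prm.ext
  split_ifs with h
  · let ν : Nk := ⟨j, k, i, h.1, h.2⟩
    obtain ⟨h1, h2, -⟩ := rot_all hx.adm perm_rot hx.dat_rot (ν, false)
    have h3 := hx.dat_rot.pos (ν, false)
    have h4 : x.pp j k (i + sh j) = uu * x.pp j k i := by
      rw [symm_pp] at h3
      exact (symm_pp x (rotN ν)).symm.trans h3
    show x.pp j k (i + sh j) * (conj (frm.ra x.dat (sd rotN (ν, false))) +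
      frm.rb x.dat (sd rotN (ν, false))) / (2 * x.bq j k (i + sh j)) =
      x.pp j k i * (conj (frm.ra x.dat (ν, false)) + frm.rb x.dat (ν, false)) / (2 * x.bq j k i)
    rw [h1, h2, h4, hx.symm_bq_rot, map_mul]
    congr 1
    linear_combination
      (x.pp j k i * (conj (frm.ra x.dat (ν, false)) + frm.rb x.dat (ν, false))) * symm_uu
  · rfl

theorem Ft_refl (j k : ℕ) (i : ZMod (nn j)) : x.Ft j k (-i - k) = conj (x.Ft j k i) := by
  unfold Prm.Ft Prm.ext
  split_ifs with h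
  · let ν : Nk := ⟨j, k, i, h.1, h.2⟩
    obtain ⟨h1, h2, -⟩ := refl_all hx.adm perm_refl hx.dat_refl (ν, false)
    have h3 := hx.dat_refl.pos (ν, false)
    have h4 : x.pp j k (-i - k) = conj (x.pp j k i) := by
      rw [symm_pp] at h3
      exact (symm_pp x (reflN ν)).symm.trans h3
    show x.pp j k (-i - k) * (conj (frm.ra x.dat (sd reflN (ν, false))) +
      frm.rb x.dat (sd reflN (ν, false))) / (2 * x.bq j k (-i - k)) =
      conj (x.pp j k i * (conj (frm.ra x.dat (ν, false)) + frm.rb x.dat (ν, false)) /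
        (2 * x.bq j k i))
    rw [h1, h2, h4, hx.symm_bq_refl]
    simp only [map_div₀, map_mul, map_add, conj_ofReal, map_ofNat]
  · exact (map_zero _).symm

theorem Dt_rot (j k : ℕ) (i : ZMod (nn j)) : x.Dt j k (i + sh j) = x.Dt j k i := by
  unfold Prm.Dt Prm.ext
  split_ifs with h
  · let ν : Nk := ⟨j, k, i, h.1, h.2⟩
    exact congrArg₂ (· - ·) (rot_all hx.adm perm_rot hx.dat_rot (ν, false)).2.2.2.2
      (rot_all hx.adm perm_rot hx.dat_rot (ν, true)).2.2.2.2
  · rfl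

theorem Dt_refl (j k : ℕ) (i : ZMod (nn j)) : x.Dt j k (-i - k) = x.Dt j k i := by
  unfold Prm.Dt Prm.ext
  split_ifs with h
  · let ν : Nk := ⟨j, k, i, h.1, h.2⟩
    exact congrArg₂ (· - ·) (refl_all hx.adm perm_refl hx.dat_refl (ν, false)).2.2.2.2
      (refl_all hx.adm perm_refl hx.dat_refl (ν, true)).2.2.2.2
  · rfl

theorem avgC_Ft (j k : ℕ) : avgC (nn j) (x.Ft j k) = (avg (nn j) fun i => (x.Ft j k i).re : ℝ) := by
  have h1 : ∑ i, x.Ft j k i = conj (∑ i, x.Ft j k i) := by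
    rw [map_sum]
    refine (Fintype.sum_equiv ((Equiv.neg _).trans (Equiv.subRight (k : ZMod (nn j)))) _ _
      fun i => ?_).symm
    exact (hx.Ft_refl j k i).symm
  have h2 : ∑ i, x.Ft j k i = ((∑ i, (x.Ft j k i).re : ℝ) : ℂ) := by
    rw [← re_sum]
    exact (conj_eq_iff_re.1 h1.symm).symm
  rw [avgC, avg, h2, ofReal_div, ofReal_natCast]

theorem hor_zero (ν : Nk) (hj : ν.j = 0) :
    conj (frm.ra x.dat (ν, false)) + frm.rb x.dat (ν, false) = 0 := by
  obtain ⟨h1, h2, -⟩ := rot_all hx.adm perm_rot hx.dat_rot (ν, false)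
  rw [sd, symm_rot_fix ν hj] at h1 h2
  have h3 : conj uu ≠ 1 := fun h => uu_ne (by simpa using congrArg conj h)
  have h4 : frm.ra x.dat (ν, false) = 0 :=
    (mul_eq_zero.1 (by linear_combination h1 : (1 - uu) * frm.ra x.dat (ν, false) = 0)).resolve_left
      (sub_ne_zero.2 uu_ne.symm)
  have h5 : frm.rb x.dat (ν, false) = 0 :=
    (mul_eq_zero.1 (by linear_combination h2 :
      (1 - conj uu) * frm.rb x.dat (ν, false) = 0)).resolve_left (sub_ne_zero.2 h3.symm)
  rw [h4, h5, map_zero, add_zero]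

end InK

end Pool.Agent.MP_943ae2_gt
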