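import Pool.Agent.MP_943ae2_gt.Mac3
import Pool.Agent.MP_943ae2_gt.Symm
import Pool.Agent.MP_943ae2_gt.Mat

open Set Complex Filter Finset
open scoped Topology ComplexConjugate ContDiff

noncomputable section

namespace Pool.Agent.MP_943ae2_gt

lemma Map_out {K : Type} [Zero K] (f : Nk → K) {j k : ℕ} (h : k = 0 ∨ NN j ≤ k) :
    Prm.ext f j k = fun _ => 0 := funext fun _ => dif_neg (by omega)

lemma Map_ext {K : Type} [Zero K] (f : Nk → K) {P : ∀ j, ℕ → (ZMod (nn j) → K) → Prop} (j k : ℕ)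
    (h0 : P j k fun _ => 0)
    (h1 : ∀ (h1 : 1 ≤ k) (h2 : k < NN j), P j k fun i => f ⟨j, k, i, h1, h2⟩) :
    P j k (Prm.ext f j k) := by
  by_cases h : 1 ≤ k ∧ k < NN j
  · convert h1 h.1 h.2 with i
    exact dif_pos h
  · rwa [Map_out f (by omega)]

lemma Map_nsq (x : Prm) (j : ℕ) :
    (x.wall j).nsq (nn j) (x.ξN j) (x.εN j) ≤ (tt j ^ 3) ^ 2 := by
  set Q := (x.wall j).nsq (nn j) (x.ξ j + x.vξ j) (x.ε j + x.vε j) with hQ
  have h0 : 0 ≤ Q := sum_nonneg fun _ _ => sum_nonneg fun _ _ => by positivity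
  have h1 : (x.wall j).nsq (nn j) (x.ξN j) (x.εN j) = (x.sc j * √Q) ^ 2 := by
    rw [mul_pow, Real.sq_sqrt h0, hQ]
    simp only [Wall.nsq, mul_sum, Prm.ξN, Prm.εN, norm_mul, mul_pow, norm_real, Real.norm_eq_abs,
      sq_abs, mul_add (x.sc j ^ 2), Pi.add_apply]
  have h2 : 0 < tt j ^ 3 := pow_pos (tt_pos j) 3
  have h3 : 0 < max (tt j ^ 3) √Q := lt_max_of_lt_left h2
  rw [h1, Prm.sc, ← hQ]
  refine pow_le_pow_left₀ (by positivity) ?_ 2
  rw [div_mul_eq_mul_div, div_le_iff₀ h3]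
  exact mul_le_mul_of_nonneg_left (le_max_right _ _) h2.le

theorem InK.phi {x : Prm} (hx : InK x) : InK x.Phi := by
  have hn : ∀ j, (nn j : ℝ) ≠ 0 := fun j => Nat.cast_ne_zero.2 (NeZero.ne _)
  have hn' : ∀ j, (nn j : ℂ) ≠ 0 := fun j => Nat.cast_ne_zero.2 (NeZero.ne _)
  have hr := rot_all hx.adm perm_rot hx.dat_rot
  have hf := refl_all hx.adm perm_refl hx.dat_refl
  let fi : Nk → ℝ := fun ν => x.io ν.j ν.k ν.i + (frm.rab x.dat (ν, false)).im
  let fd : Nk → ℂ := fun ν =>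
    x.de ν.j ν.k ν.i + (frm.Jh x.dat (ν, false) - frm.Jh x.dat (ν, true))
  refine ⟨hx.uN_mem, hx.sN_le, hx.yN_le, fun j k i h => ?_, fun j k i h => ?_, Map_nsq x,
    fun j k => ?_, fun j k => ?_, fun j k => ?_, fun j k => ?_, fun j k i => ?_, fun j k i => ?_,
    fun j k => ?_, fun j k => ?_, fun j k i => ?_, fun j k i => ?_, fun j k => ?_, fun j k => ?_⟩
  · change x.ξN j k i = 0
    simp [Prm.ξN, Prm.vξ, Prm.Ft, hx.ξ_out j k i h, Map_out _ h, avgC]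
  · change x.εN j k i = 0
    simp [Prm.εN, Prm.vε, Prm.Dt, hx.ε_out j k i h, Map_out _ h, avg]
  · change ∑ i, x.ξN j k i = 0
    simp only [Prm.ξN, Prm.vξ, ← mul_sum, sum_add_distrib, sum_sub_distrib, hx.ξ_mean, avgC,
      sum_const, card_univ, ZMod.card, nsmul_eq_mul, mul_div_cancel₀ _ (hn' j)]
    simp
  · change ∑ i, x.εN j k i = 0
    simp only [Prm.εN, Prm.vε, ← mul_sum, sum_add_distrib, sum_neg_distrib, sum_sub_distrib,
      hx.ε_mean, avg, sum_const, card_univ, ZMod.card, nsmul_eq_mul, mul_div_cancel₀ _ (hn j)]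
    simp
  · have ht := tt_pos j
    refine Map_ext fi (P := fun j _ g => ∀ i, |g i| ≤ tt j ^ 28) j k
      (fun _ => by rw [abs_zero]; positivity) fun h1 h2 i => ?_
    have e1 := hx.adm.rab_est (⟨j, k, i, h1, h2⟩, false)
    have e2 : ‖x.dat.bet (⟨j, k, i, h1, h2⟩, false)‖ ≤ (tt j)⁻¹ := hx.adm.bet_le _
    refine le_trans (le_of_eq ?_) ((abs_im_le_norm _).trans (e1.trans ?_))
    · simp [fi, Prm.dat, add_comm]
    · change 10 * _ * tt j ^ 30 ≤ _
      calc _ ≤ 10 * (tt j)⁻¹ * tt j ^ 30 := by gcongr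
        _ = 10 * tt j * tt j ^ 28 := by field_simp
        _ ≤ 1 * tt j ^ 28 := by gcongr; linarith [tt_le j]
        _ = _ := one_mul _
  · have ht := tt_pos j
    refine Map_ext fd (P := fun j _ g => ∀ i, ‖g i‖ ≤ (tt j)⁻¹ ^ 3) j k
      (fun _ => by rw [norm_zero]; positivity) fun h1 h2 i => ?_
    have e1 : _ ≤ (tt j)⁻¹ ^ 2 := hx.adm.Jh_est (⟨j, k, i, h1, h2⟩, false)
    have e2 : _ ≤ (tt j)⁻¹ ^ 2 := hx.adm.Jh_est (⟨j, k, i, h1, h2⟩, true)
    refine le_trans (le_of_eq ?_) ((norm_sub_le _ _).trans ((add_le_add e1 e2).trans ?_))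
    · congr 1
      simp only [fd, Dat.pos, Prm.dat, Bool.false_eq_true, if_false, if_true]
      ring
    · have : 2 ≤ (tt j)⁻¹ := by
        rw [le_inv_comm₀ two_pos ht]; linarith [tt_le j]
      rw [← two_mul, pow_succ' _ 2]
      gcongr
  · change x.ξN j k _ = x.ξN j k i
    simp only [Prm.ξN, Prm.vξ, hx.ξ_rot, hx.Ft_rot]
  · change x.εN j k _ = x.εN j k i
    simp only [Prm.εN, Prm.vε, hx.ε_rot, hx.Dt_rot]
  · refine Map_ext fi (P := fun j _ g => ∀ i, g (i + sh j) = g i) j k (fun _ => rfl)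
      fun h1 h2 i => ?_
    exact congrArg₂ (· + ·) (hx.io_rot j k i) (congrArg im (hr (⟨j, k, i, h1, h2⟩, false)).2.2.1)
  · refine Map_ext fd (P := fun j _ g => ∀ i, g (i + sh j) = uu * g i) j k
      (fun _ => (mul_zero _).symm) fun h1 h2 i => ?_
    simp only [fd, mul_add, mul_sub]
    exact congrArg₂ (· + ·) (hx.de_rot j k i) (congrArg₂ (· - ·)
      (hr (⟨j, k, i, h1, h2⟩, false)).2.2.2.1 (hr (⟨j, k, i, h1, h2⟩, true)).2.2.2.1)
  · change x.ξN j k _ = conj (x.ξN j k i)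
    simp only [Prm.ξN, Prm.vξ, hx.ξ_refl, hx.Ft_refl, hx.avgC_Ft, map_mul, map_add, map_sub,
      conj_ofReal]
  · change x.εN j k _ = x.εN j k i
    simp only [Prm.εN, Prm.vε, hx.ε_refl, hx.Dt_refl]
  · refine Map_ext fi (P := fun j k g => ∀ i, g (-i - k) = -g i) j k (fun _ => neg_zero.symm)
      fun h1 h2 i => ?_
    simp only [fi, neg_add, ← conj_im]
    exact congrArg₂ (· + ·) (hx.io_refl j k i) (congrArg im (hf (⟨j, k, i, h1, h2⟩, false)).2.2.1)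
  · refine Map_ext fd (P := fun j k g => ∀ i, g (-i - k) = conj (g i)) j k
      (fun _ => (map_zero _).symm) fun h1 h2 i => ?_
    simp only [fd, map_add, map_sub]
    exact congrArg₂ (· + ·) (hx.de_refl j k i) (congrArg₂ (· - ·)
      (hf (⟨j, k, i, h1, h2⟩, false)).2.2.2.1 (hf (⟨j, k, i, h1, h2⟩, true)).2.2.2.1)

end Pool.Agent.MP_943ae2_gt
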