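import Mathlib

/-! One wall: rings `k = 1, ..., N - 1` of `n` necks near the circle of radius `exp (lr k)`.
Model force `Fw`, model gap `Dw`, their linearisations and the quadratic forms. -/

open Set Complex Filter Finset
open scoped Topology ComplexConjugate

noncomputable section

namespace Pool.Agent.MP_943ae2_gt

def kap (l : ℂ) : ℂ := 1 / (1 - l)

def th (y : ℝ) : ℝ := 1 / (1 + Real.exp (-y))

section
variable (n : ℕ) [NeZero n]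

def ze : ℂ := exp (Real.pi * I / n)

/-- unit vector of the neck `i` of ring `k` -/
def un (k : ℕ) (i : ZMod n) : ℂ := ze n ^ k * ZMod.stdAddChar i

def avg (f : ZMod n → ℝ) : ℝ := (∑ i, f i) / n

def avgC (f : ZMod n → ℂ) : ℂ := (∑ i, f i) / n

/-- twisted Fourier coefficient of a real function on ring `k` -/
def hat (f : ℕ → ZMod n → ℝ) (m k : ℕ) : ℂ := ∑ i, (f k i : ℂ) * un n k i ^ m

end

/-- symmetric data of a wall: number of layers, neck sizes, incoming slope differences,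
logarithms of the radii -/
structure Wall where
  N : ℕ
  c : ℕ → ℝ
  g : ℕ → ℝ
  lr : ℕ → ℝ

namespace Wall

variable (w : Wall) (n : ℕ) [NeZero n] (ξ : ℕ → ZMod n → ℂ) (ε : ℕ → ZMod n → ℝ)

def y (k : ℕ) : ℝ := n * (w.lr k - w.lr (k + 1))

def p0 (k : ℕ) (i : ZMod n) : ℂ := (Real.exp (w.lr k) : ℝ) * un n k i

def p (k : ℕ) (i : ZMod n) : ℂ := w.p0 n k i * exp (ξ k i)

def bq (k : ℕ) (i : ZMod n) : ℝ := w.c k + ε k i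

def Fw (k : ℕ) (i : ZMod n) : ℂ :=
  2 * ∑ j ∈ univ.erase i, (w.bq n ε k j : ℂ) * kap (w.p n ξ k j / w.p n ξ k i) -
    ∑ j, (w.bq n ε (k + 1) j : ℂ) * kap (w.p n ξ (k + 1) j / w.p n ξ k i) -
    ∑ j, (w.bq n ε (k - 1) j : ℂ) * kap (w.p n ξ (k - 1) j / w.p n ξ k i) + w.g k

def Dw (k : ℕ) (i : ZMod n) : ℝ :=
  -2 * w.bq n ε k i * Real.log (w.bq n ε k i) -
    2 * ∑ j ∈ univ.erase i, w.bq n ε k j * Real.log ‖w.p n ξ k i - w.p n ξ k j‖ +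
    ∑ j, w.bq n ε (k + 1) j * Real.log ‖w.p n ξ k i - w.p n ξ (k + 1) j‖ +
    ∑ j, w.bq n ε (k - 1) j * Real.log ‖w.p n ξ k i - w.p n ξ (k - 1) j‖ -
    w.g k * Real.log ‖w.p n ξ k i‖

/-- value of `Fw` at the symmetric configuration -/
def Em (k : ℕ) : ℝ :=
  n * w.c k - w.c k + w.g k - n * w.c (k + 1) * th (w.y n k) -
    n * w.c (k - 1) * (1 - th (w.y n (k - 1)))

/-- value of `Dw` at the symmetric configuration -/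
def Ds (k : ℕ) : ℝ :=
  2 * w.c k * (w.lr k - Real.log (n * w.c k)) +
    (n * (w.c (k + 1) - 2 * w.c k + w.c (k - 1)) - w.g k) * w.lr k +
    w.c (k - 1) * Real.log (1 + Real.exp (w.y n (k - 1))) +
    w.c (k + 1) * Real.log (1 + Real.exp (-w.y n k))

/-- derivative of `c' * kap (p' / p)` -/
def lf (k : ℕ) (i : ZMod n) (k' : ℕ) (j : ZMod n) : ℂ :=
  (ε k' j : ℂ) * kap (w.p0 n k' j / w.p0 n k i) +
    (w.c k' : ℂ) * (w.p0 n k' j / w.p0 n k i * kap (w.p0 n k' j / w.p0 n k i) ^ 2) * (ξ k' j - ξ k i)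

/-- derivative of `c' * log ‖p - p'‖` -/
def ld (k : ℕ) (i : ZMod n) (k' : ℕ) (j : ZMod n) : ℝ :=
  ε k' j * Real.log ‖w.p0 n k i - w.p0 n k' j‖ +
    w.c k' * (kap (w.p0 n k' j / w.p0 n k i) * ξ k i + kap (w.p0 n k i / w.p0 n k' j) * ξ k' j).re

def LF (k : ℕ) (i : ZMod n) : ℂ :=
  2 * ∑ j ∈ univ.erase i, w.lf n ξ ε k i k j - ∑ j, w.lf n ξ ε k i (k + 1) j -
    ∑ j, w.lf n ξ ε k i (k - 1) j

def LD (k : ℕ) (i : ZMod n) : ℝ :=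
  -2 * (Real.log (w.c k) + 1) * ε k i - 2 * ∑ j ∈ univ.erase i, w.ld n ξ ε k i k j +
    ∑ j, w.ld n ξ ε k i (k + 1) j + ∑ j, w.ld n ξ ε k i (k - 1) j - w.g k * (ξ k i).re

def KK (l : ℂ) : ℝ := -(l * kap l ^ 2).re

def Sq (ρ : ℕ → ZMod n → ℝ) : ℝ :=
  ∑ k ∈ Ico 1 w.N, (w.c k * w.c (k + 1) *
      ∑ i, ∑ j, KK (w.p0 n (k + 1) j / w.p0 n k i) * (ρ (k + 1) j - ρ k i) ^ 2 -
    w.c k ^ 2 * ∑ i, ∑ j ∈ univ.erase i, KK (w.p0 n k j / w.p0 n k i) * (ρ k j - ρ k i) ^ 2)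

def Hq : ℝ :=
  ∑ k ∈ Ico 1 w.N, ∑ i, ε k i * (-2 * (Real.log (w.c k) + 1) * ε k i -
    2 * ∑ j ∈ univ.erase i, ε k j * Real.log ‖w.p0 n k i - w.p0 n k j‖ +
    ∑ j, ε (k + 1) j * Real.log ‖w.p0 n k i - w.p0 n (k + 1) j‖ +
    ∑ j, ε (k - 1) j * Real.log ‖w.p0 n k i - w.p0 n (k - 1) j‖)

def Xq (ρ : ℕ → ZMod n → ℝ) : ℝ :=
  ∑ k ∈ Ico 1 w.N, ∑ i, 2 * w.c k * ρ k i *
    (2 * ∑ j ∈ univ.erase i, ε k j * (kap (w.p0 n k j / w.p0 n k i)).re -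
      ∑ j, ε (k + 1) j * (kap (w.p0 n (k + 1) j / w.p0 n k i)).re -
      ∑ j, ε (k - 1) j * (kap (w.p0 n (k - 1) j / w.p0 n k i)).re)

/-- squared norm of the non-symmetric unknowns -/
def nsq : ℝ := ∑ k ∈ Ico 1 w.N, ∑ i, (‖ξ k i‖ ^ 2 + ε k i ^ 2)

/-- the pairing of the unknowns with a force `F` and a gap `D` -/
def pair (F : ℕ → ZMod n → ℂ) (D : ℕ → ZMod n → ℝ) : ℝ :=
  ∑ k ∈ Ico 1 w.N, ∑ i, (w.c k * (conj (ξ k i) * F k i).re - ε k i * D k i)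

def tk (k : ℕ) : ℝ := 1 / (2 + 2 * Real.cosh (w.y n k))

def Ak (m k : ℕ) : ℝ :=
  w.tk n k * ((1 - m / n) * Real.cosh (m / n * w.y n k) - m / n * Real.cosh ((1 - m / n) * w.y n k))

def ph (m k : ℕ) : ℝ := Real.sinh ((1 / 2 - m / n) * w.y n k) / Real.cosh (w.y n k / 2)

/-- mode `m` of `Sq` -/
def Sm (m : ℕ) (v : ℕ → ℂ) : ℝ :=
  (n : ℝ) ^ 2 * ∑ k ∈ Ico 1 w.N, (w.c k * w.c (k + 1) *
      (w.tk n k * (‖v k‖ ^ 2 + ‖v (k + 1)‖ ^ 2) - 2 * w.Ak n m k * (v k * conj (v (k + 1))).re) -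
    m / n * (1 - m / n) * w.c k ^ 2 * ‖v k‖ ^ 2)

/-- mode `m` of `Xq` -/
def Xm (m : ℕ) (v e : ℕ → ℂ) : ℝ :=
  ∑ k ∈ Ico 1 w.N, (-2 * w.c k * (v k * conj (e k)).re + n * w.ph n m k *
    (w.c (k + 1) * (v (k + 1) * conj (e k)).re - w.c k * (v k * conj (e (k + 1))).re))

/-- crude bounds on a wall -/
structure Bd (P : ℝ) : Prop where
  P_ge : 1000 ≤ P
  n_ge : 2 ≤ n
  n_le : (n : ℝ) ≤ P
  N_le : (w.N : ℝ) ≤ P
  c_zero : w.c 0 = 0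
  c_out : ∀ k, w.N ≤ k → w.c k = 0
  c_ge : ∀ k, 1 ≤ k → k < w.N → P⁻¹ ≤ w.c k
  c_le : ∀ k, w.c k ≤ P
  g_le : ∀ k, |w.g k| ≤ P
  lr_le : ∀ k, k ≤ w.N → |w.lr k| ≤ P
  y_le : ∀ k, k < w.N → |w.y n k| ≤ 1 / 2
  big : ∀ k, 1 ≤ k → k < w.N → 100 ≤ w.lr k - Real.log (n * w.c k)

/-- the shape of a wall with `L` lower and `5 L` upper layers -/
structure Shape (L : ℕ) : Prop where
  L_pos : 1 ≤ L
  N_eq : w.N = 6 * L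
  n_ge : (10 : ℝ) ^ 7 * (w.N : ℝ) ^ 2 ≤ n
  c_ge : ∀ k, k ≤ w.N → w.c L * (min k (w.N - k) : ℕ) / (6 * L) ≤ w.c k
  c_le : ∀ k, w.c k ≤ 2 * w.c L
  c_mid : ∀ k, L ≤ k → k ≤ 2 * L → w.c L / 2 ≤ w.c k
  c_nb : ∀ k, 1 ≤ k → k < w.N → w.c k ≤ w.c (k + 1) + w.c (k - 1)
  d2 : ∀ k, 1 ≤ k → k < w.N → k ≠ L → |w.c (k + 1) - 2 * w.c k + w.c (k - 1)| ≤ 128 * w.c L / n
  d2L : |w.c (L + 1) - 2 * w.c L + w.c (L - 1)| ≤ 2 * w.c L / L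
  y_le : ∀ k, k < w.N → |w.y n k| ≤ 2000 * w.N / n

/-- admissible non-symmetric perturbations -/
structure Pert (L : ℕ) : Prop where
  ξ_out : ∀ k i, (k = 0 ∨ w.N ≤ k) → ξ k i = 0
  ε_out : ∀ k i, (k = 0 ∨ w.N ≤ k) → ε k i = 0
  ξ_mean : ∀ k, ∑ i, ξ k i = 0
  ε_mean : ∀ k, ∑ i, ε k i = 0
  modes : ∀ m k, 2 * m ≤ n → (m < 10 ^ 6 ∨ m * L ^ 2 < 10 ^ 5 * n ∨ L < 1000) →
    hat n (fun k i => (ξ k i).re) m k = 0 ∧ hat n (fun k i => (ξ k i).im) m k = 0 ∧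
      hat n ε m k = 0

end Wall

end Pool.Agent.MP_943ae2_gt
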