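import Pool.Agent.MP_943ae2_gt.Bas
import Pool.Agent.MP_943ae2_gt.Wall0

/-! The concrete configuration. Block `j` has `5 ^ j` layers; wall `j` (radius `rho j`, `nn j` necks
per ring) joins the `Lb j` layers of block `j - 1` and the `Mt j` layers of block `j`; its local
layers are `1, ..., NN j` and its rings `1, ..., NN j - 1`. Wall `0` is the single central neck. -/

open Set Complex Filter Finset
open scoped Topology ComplexConjugate ContDiff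

noncomputable section

namespace Pool.Agent.MP_943ae2_gt

def Lb (j : ℕ) : ℕ := 5 ^ (j - 1)
def Mt (j : ℕ) : ℕ := 5 ^ j
def NN (j : ℕ) : ℕ := Lb j + Mt j
def nn (j : ℕ) : ℕ := if j = 0 then 1 else 2 ^ 50 * 25 ^ (j - 5)

instance nn_neZero (j : ℕ) : NeZero (nn j) := ⟨by unfold nn; split_ifs <;> positivity⟩

def tt (j : ℕ) : ℝ := (1 / 2) ^ (4096 * 4 ^ j)
def rho (j : ℕ) : ℝ := (tt j)⁻¹ ^ 32
def ell (j : ℕ) : ℝ := Real.log (rho j)
def PP (j : ℕ) : ℝ := 2 ^ (64 + 5 * j)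

/-- global index of the local layer `1` of wall `j` -/
def bs : ℕ → ℕ
  | 0 => 0
  | j + 1 => bs j + Lb j

/-- the block that contains a layer -/
def lev (l : ℕ) : ℕ := Nat.findGreatest (fun j => bs (j + 1) ≤ l) l

structure Nk where
  j : ℕ
  k : ℕ
  i : ZMod (nn j)
  h1 : 1 ≤ k
  h2 : k < NN j

def Nk.gap (ν : Nk) : ℕ := bs ν.j + ν.k - 1

lemma le_bs (j : ℕ) : j ≤ bs j := by
  induction j with
  | zero => simp
  | succ j ih => have : 0 < Lb j := by unfold Lb; positivity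
                 simp only [bs]; omega

lemma nk_fin (l : ℕ) : {e : Nk × Bool | e.1.gap + (if e.2 then 1 else 0) = l}.Finite := by
  let g : Nk × Bool → (Σ j, ℕ × ZMod (nn j)) × Bool := fun e => (⟨e.1.j, e.1.k, e.1.i⟩, e.2)
  have hg : Function.Injective g := by
    rintro ⟨⟨j, k, i, _, _⟩, s⟩ ⟨⟨j', k', i', _, _⟩, s'⟩ h
    simp only [g, Prod.mk.injEq, Sigma.mk.injEq] at h
    obtain ⟨⟨rfl, h⟩, rfl⟩ := h
    obtain ⟨rfl, rfl⟩ := Prod.mk.inj (eq_of_heq h)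
    rfl
  refine Set.Finite.subset (Set.Finite.preimage hg.injOn
    ((((Finset.range (l + 2)).sigma fun j => Finset.range (l + 2) ×ˢ (univ : Finset (ZMod (nn j)))) ×ˢ
      (univ : Finset Bool)).finite_toSet)) ?_
  rintro ⟨⟨j, k, i, h1, h2⟩, s⟩ h
  have := le_bs j
  simp only [Set.mem_ofPred_eq, Nk.gap] at h
  simp only [g, Set.mem_preimage, Finset.mem_coe, Finset.mem_product, Finset.mem_sigma,
    Finset.mem_range, Finset.mem_univ, and_true]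
  constructor <;> split_ifs at h <;> omega

def frm : Frm Nk where
  gap := Nk.gap
  t ν := tt ν.j
  T l := tt (lev l)
  sides l := (nk_fin l).toFinset
  mem_sides l e := by simp

/-- sum over the lower (`s = false`) or upper (`s = true`) sides of ring `k` of wall `j` -/
def ringSum {M : Type} [AddCommMonoid M] (f : Nk × Bool → M) (s : Bool) (j k : ℕ) : M :=
  if h : 1 ≤ k ∧ k < NN j then ∑ i, f (⟨j, k, i, h.1, h.2⟩, s) else 0

/-- sum over the sides of wall `j` on its local layer `i` -/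
def wallSum {M : Type} [AddCommMonoid M] (f : Nk × Bool → M) (j i : ℕ) : M :=
  ringSum f false j i + ringSum f true j (i - 1)

abbrev RF (K : Type) := ∀ j, ℕ → ZMod (nn j) → K

/-- the unknowns -/
abbrev Prm := (ℕ → ℝ) × (ℕ → ℕ → ℝ) × (ℕ → ℕ → ℝ) × RF ℂ × RF ℝ × RF ℝ × RF ℂ

/-- solution of `d (a+1) - 2 d a + d (a-1) = s a` for `0 < a < m`, `d 0 = d m = 0` -/
def prof (s : ℕ → ℝ) (m a : ℕ) : ℝ :=
  ∑ i ∈ Icc 1 a, (∑ l ∈ Ico 1 i, s l - (∑ i' ∈ Icc 1 m, ∑ l ∈ Ico 1 i', s l) / m)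

namespace Prm

variable (x : Prm)

def u : ℕ → ℝ := x.1
def s : ℕ → ℕ → ℝ := x.2.1
def y : ℕ → ℕ → ℝ := x.2.2.1
def ξ : RF ℂ := x.2.2.2.1
def ε : RF ℝ := x.2.2.2.2.1
def io : RF ℝ := x.2.2.2.2.2.1
def de : RF ℂ := x.2.2.2.2.2.2

def W : ℕ → ℝ
  | 0 => 1
  | j + 1 => W j * x.u (j + 1)

def sTop (j a : ℕ) : ℝ := x.s j a * x.W j / nn j

def sBot (j k : ℕ) : ℝ := -x.sTop (j - 1) k - x.W j / nn j

def w (j k : ℕ) : ℝ :=
  if k ≤ Lb j then x.W j * k / Lb j + prof (x.sBot j) (Lb j) k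
  else if k ≤ NN j then x.W j * (NN j - k) / Mt j + prof (x.sTop j) (Mt j) (k - Lb j) else 0

def D2 (j k : ℕ) : ℝ := x.w j (k + 1) - 2 * x.w j k + x.w j (k - 1)

def lr (j k : ℕ) : ℝ := ell j - (∑ i ∈ Ico 1 k, x.y j i) / nn j

def wall (j : ℕ) : Wall where
  N := NN j
  c k := x.w j k / nn j
  g k := if j = 0 then 0 else -x.D2 (j - 1) (Lb (j - 1) + k)
  lr := x.lr j

def pp (j k : ℕ) (i : ZMod (nn j)) : ℂ := if j = 0 then 0 else (x.wall j).p (nn j) (x.ξ j) k i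

def bq (j k : ℕ) (i : ZMod (nn j)) : ℝ := (x.wall j).bq (nn j) (x.ε j) k i

def dat : Dat Nk :=
  (fun e => x.pp e.1.j e.1.k e.1.i + if e.2 then x.de e.1.j e.1.k e.1.i else 0,
    fun ν => x.bq ν.j ν.k ν.i + x.io ν.j ν.k ν.i * I)

/-- extension by zero of a function of the necks -/
def ext {K : Type} [Zero K] (f : Nk → K) : RF K := fun j k i =>
  if h : 1 ≤ k ∧ k < NN j then f ⟨j, k, i, h.1, h.2⟩ else 0

/-- true force -/
def Ft : RF ℂ := ext fun ν =>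
  x.pp ν.j ν.k ν.i * (conj (frm.ra x.dat (ν, false)) + frm.rb x.dat (ν, false)) /
    (2 * x.bq ν.j ν.k ν.i)

/-- true gap -/
def Dt : RF ℝ := ext fun ν => frm.J3 x.dat (ν, false) - frm.J3 x.dat (ν, true)

/-- contribution of the next wall to the gap -/
def Oc (j k : ℕ) : ℝ :=
  if Lb j ≤ k then x.w (j + 1) (k - Lb j + 1) * x.lr (j + 1) (k - Lb j + 1) -
    2 * x.w (j + 1) (k - Lb j) * x.lr (j + 1) (k - Lb j) +
    x.w (j + 1) (k - Lb j - 1) * x.lr (j + 1) (k - Lb j - 1) else 0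

def err (j k : ℕ) : ℝ := (x.wall j).Em (nn j) k - avg (nn j) fun i => (x.Ft j k i).re

def eta (j k : ℕ) : ℝ := (x.wall j).g k - x.D2 j k / 2 - (x.wall j).c k - x.err j k

def psi (j k : ℕ) : ℝ :=
  if k < Lb j then ∑ i ∈ Icc 1 k, x.w j i * x.eta j i else -∑ i ∈ Ioo k (NN j), x.w j i * x.eta j i

def ff (j k : ℕ) : ℝ := x.psi j k / (x.w j k * x.w j (k + 1))

def uN (j : ℕ) : ℝ :=
  if j = 0 then 5 / 3 else
    x.u j - 5 / 3 * (Lb j / (x.W (j - 1) * x.W j)) * ∑ i ∈ Ico 1 (NN j), x.w j i * x.eta j i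

def sN (j a : ℕ) : ℝ :=
  if 1 ≤ a ∧ a < Mt j then x.s j a + nn j / x.W j *
    (avg (nn j) (x.Dt j (Lb j + a)) - avg (nn (j + 1)) (x.Dt (j + 1) a)) / (3 * ell j) else 0

def yN (j k : ℕ) : ℝ :=
  if 1 ≤ k ∧ k + 1 < NN j then Real.log ((1 + 2 * x.ff j k) / (1 - 2 * x.ff j k)) else 0

def vξ (j k : ℕ) (i : ZMod (nn j)) : ℂ := (x.wall j).c k * (x.Ft j k i - avgC (nn j) (x.Ft j k))

def vε (j k : ℕ) (i : ZMod (nn j)) : ℝ := -(x.Dt j k i - avg (nn j) (x.Dt j k))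

def sc (j : ℕ) : ℝ :=
  tt j ^ 3 / max (tt j ^ 3) √((x.wall j).nsq (nn j) (x.ξ j + x.vξ j) (x.ε j + x.vε j))

def ξN : RF ℂ := fun j k i => x.sc j * (x.ξ j k i + x.vξ j k i)

def εN : RF ℝ := fun j k i => x.sc j * (x.ε j k i + x.vε j k i)

def ioN : RF ℝ := ext fun ν => x.io ν.j ν.k ν.i + (frm.rab x.dat (ν, false)).im

def deN : RF ℂ := ext fun ν =>
  x.de ν.j ν.k ν.i + (frm.Jh x.dat (ν, false) - frm.Jh x.dat (ν, true))

/-- the map whose fixed point solves the period problem -/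
def Phi : Prm := (x.uN, x.sN, x.yN, x.ξN, x.εN, x.ioN, x.deN)

end Prm

/-- the rotation of the global symmetry group, its shift on the rings of wall `j` -/
def uu : ℂ := exp (2 * Real.pi * I / 2 ^ 50)

def sh (j : ℕ) : ZMod (nn j) := ((25 ^ (j - 5) : ℕ) : ZMod (nn j))

structure InK (x : Prm) : Prop where
  u_mem : ∀ j, |x.u j - 5 / 3| ≤ 1 / 100
  s_le : ∀ j a, |x.s j a| ≤ 8
  y_le : ∀ j k, |x.y j k| ≤ 2000 * NN j / nn j
  ξ_out : ∀ j k i, (k = 0 ∨ NN j ≤ k) → x.ξ j k i = 0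
  ε_out : ∀ j k i, (k = 0 ∨ NN j ≤ k) → x.ε j k i = 0
  nsq_le : ∀ j, (x.wall j).nsq (nn j) (x.ξ j) (x.ε j) ≤ (tt j ^ 3) ^ 2
  ξ_mean : ∀ j k, ∑ i, x.ξ j k i = 0
  ε_mean : ∀ j k, ∑ i, x.ε j k i = 0
  io_le : ∀ j k i, |x.io j k i| ≤ tt j ^ 28
  de_le : ∀ j k i, ‖x.de j k i‖ ≤ (tt j)⁻¹ ^ 3
  ξ_rot : ∀ j k i, x.ξ j k (i + sh j) = x.ξ j k i
  ε_rot : ∀ j k i, x.ε j k (i + sh j) = x.ε j k i
  io_rot : ∀ j k i, x.io j k (i + sh j) = x.io j k i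
  de_rot : ∀ j k i, x.de j k (i + sh j) = uu * x.de j k i
  ξ_refl : ∀ j (k : ℕ) i, x.ξ j k (-i - k) = conj (x.ξ j k i)
  ε_refl : ∀ j (k : ℕ) i, x.ε j k (-i - k) = x.ε j k i
  io_refl : ∀ j (k : ℕ) i, x.io j k (-i - k) = -x.io j k i
  de_refl : ∀ j (k : ℕ) i, x.de j k (-i - k) = conj (x.de j k i)

/-- the equations solved by a fixed point -/
structure Eqs (x : Prm) : Prop where
  force : ∀ j k i, x.Ft j k i = 0
  ring : ∀ j k i i', x.Dt j k i = x.Dt j k i'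
  two : ∀ j a i i', 1 ≤ a → a < Mt j → x.Dt j (Lb j + a) i = x.Dt (j + 1) a i'
  ver : ∀ ν, (frm.rab x.dat (ν, false)).im = 0
  bh : ∀ ν, frm.Jh x.dat (ν, false) = frm.Jh x.dat (ν, true)

/-- the height constants -/
def CC (x : Prm) : ℕ → ℝ
  | 0 => 0
  | l + 1 => CC x l + if l = 0 then x.Dt 0 1 0 else x.Dt (lev l + 1) (l + 1 - bs (lev l + 1)) 0

def rotN : Nk ≃ Nk where
  toFun ν := ⟨ν.j, ν.k, ν.i + sh ν.j, ν.h1, ν.h2⟩
  invFun ν := ⟨ν.j, ν.k, ν.i - sh ν.j, ν.h1, ν.h2⟩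
  left_inv ν := by simp
  right_inv ν := by simp

def reflN : Nk ≃ Nk where
  toFun ν := ⟨ν.j, ν.k, -ν.i - ν.k, ν.h1, ν.h2⟩
  invFun ν := ⟨ν.j, ν.k, -ν.i - ν.k, ν.h1, ν.h2⟩
  left_inv ν := by simp
  right_inv ν := by simp

end Pool.Agent.MP_943ae2_gt
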