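import Pool.Agent.MP_943ae2_gt.Mac2
import Pool.Agent.MP_943ae2_gt.Four

open Set Complex Filter Finset
open scoped Topology ComplexConjugate ContDiff

noncomputable section

namespace Pool.Agent.MP_943ae2_gt

theorem Pos_prim : IsPrimitiveRoot uu (2 ^ 50) := by
  have h := isPrimitiveRoot_exp (2 ^ 50) (by positivity)
  rwa [Nat.cast_pow, Nat.cast_ofNat] at h

theorem norm_uu : ‖uu‖ = 1 := Pos_prim.norm'_eq_one (by positivity)

theorem uu_ne : uu ≠ 1 := Pos_prim.ne_one (by norm_num)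

theorem Pos_nn {j : ℕ} (hj : 1 ≤ j) : nn j = 2 ^ 50 * 25 ^ (j - 5) := by
  unfold nn
  rw [if_neg (by omega)]

theorem chi_sh {j : ℕ} (hj : 1 ≤ j) : (ZMod.stdAddChar (sh j) : ℂ) = uu := by
  rw [sh, Ring1_nat, Ring1_one, ← exp_nat_mul, uu]
  congr 1
  have e : ((nn j : ℕ) : ℂ) = 2 ^ 50 * 25 ^ (j - 5) := by
    rw [Pos_nn hj, Nat.cast_mul, Nat.cast_pow, Nat.cast_pow, Nat.cast_ofNat, Nat.cast_ofNat]
  rw [e]
  push_cast
  field_simp

theorem perm_rot : frm.Perm rotN := ⟨fun _ => rfl, fun _ => rfl⟩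
theorem perm_refl : frm.Perm reflN := ⟨fun _ => rfl, fun _ => rfl⟩

theorem Pos_const {n : ℕ} [NeZero n] {K : Type} [Field K] [CharZero K] (f : ZMod n → K)
    (h : ∀ i, f (i + 1) = f i) (h0 : ∑ i, f i = 0) (i : ZMod n) : f i = 0 := by
  have h1 : ∀ m : ℕ, f (m : ZMod n) = f 0 := by
    intro m
    induction m with
    | zero => rw [Nat.cast_zero]
    | succ m ih => rw [Nat.cast_succ, h, ih]
  have h2 : ∀ i, f i = f 0 := fun i => by rw [← h1 i.val, ZMod.natCast_zmod_val]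
  rw [Finset.sum_congr rfl fun i _ => h2 i, Finset.sum_const, card_univ, ZMod.card, nsmul_eq_mul,
    mul_eq_zero] at h0
  rw [h2 i]
  exact h0.resolve_left (Nat.cast_ne_zero.2 (NeZero.ne n))

theorem Pos_hat {j : ℕ} (hj : 1 ≤ j) (f : ℕ → ZMod (nn j) → ℝ)
    (h : ∀ k i, f k (i + sh j) = f k i) (h0 : ∀ k, ∑ i, f k i = 0) (m k : ℕ) (hm : 2 * m ≤ nn j)
    (hc : m < 10 ^ 6 ∨ m * Lb j ^ 2 < 10 ^ 5 * nn j ∨ Lb j < 1000) : hat (nn j) f m k = 0 := by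
  rcases Nat.eq_zero_or_pos m with rfl | hm0
  · exact hat_zero _ (h0 k)
  have hnd : ¬ 2 ^ 50 ∣ m := by
    intro hd
    have h1 : 2 ^ 50 ≤ m := Nat.le_of_dvd hm0 hd
    rw [Pos_nn hj] at hm hc
    obtain ⟨a, rfl⟩ : ∃ a, j = a + 6 := by
      refine ⟨j - 6, ?_⟩
      by_contra hne
      rw [show j - 5 = 0 by omega] at hm
      omega
    have e1 : Lb (a + 6) = 5 ^ a * 3125 := by
      rw [Lb, show a + 6 - 1 = a + 5 by omega, pow_add]; norm_num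
    have e2 : 25 ^ (a + 6 - 5) = (5 ^ a) ^ 2 * 25 := by
      rw [show a + 6 - 5 = a + 1 by omega, pow_succ, ← pow_mul, mul_comm a 2, pow_mul]; norm_num
    have h2 : 1 ≤ 5 ^ a := Nat.one_le_pow _ _ (by norm_num)
    rw [e1, e2] at hc
    generalize 5 ^ a = q at hc h2
    rcases hc with hc | hc | hc
    · omega
    · have h3 : 2 ^ 50 * (q * 3125) ^ 2 ≤ m * (q * 3125) ^ 2 := Nat.mul_le_mul_right _ h1
      rw [mul_pow q] at h3 hc
      generalize m * (q ^ 2 * 3125 ^ 2) = r at h3 hc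
      generalize q ^ 2 = s at h3 hc
      omega
    · omega
  have h1 : uu ^ m ≠ 1 := fun e => hnd ((Pos_prim.pow_eq_one_iff_dvd m).1 e)
  have h2 : hat (nn j) f m k = uu ^ m * hat (nn j) f m k := by
    unfold hat
    rw [Finset.mul_sum, ← Equiv.sum_comp (Equiv.addRight (sh j))]
    refine Finset.sum_congr rfl fun i _ => ?_
    rw [Equiv.coe_addRight, h, un_add, chi_sh hj]
    ring
  have h3 : (uu ^ m - 1) * hat (nn j) f m k = 0 := by linear_combination -h2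
  exact (mul_eq_zero.1 h3).resolve_left (sub_ne_zero.2 h1)

theorem Pos_t3 (j : ℕ) : tt j ^ 3 ≤ 1 / 10 ^ 9 := by
  refine (pow_le_pow_left₀ (tt_pos j).le (tt_le j) 3).trans (by norm_num)

theorem Pos_tP (j : ℕ) : tt j ^ 3 ≤ (PP j)⁻¹ ^ 2 := by
  have h1 := PP_tt j
  have h2 : (1 : ℝ) ≤ PP j := le_trans (by norm_num) (PP_ge j)
  have h3 := tt_pos j
  have h4 : tt j ^ 3 ≤ tt j := pow_le_of_le_one h3.le ((tt_le j).trans (by norm_num)) (by norm_num)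
  have h5 : PP j ^ 2 ≤ PP j ^ 60 := pow_le_pow_right₀ h2 (by norm_num)
  rw [inv_pow, inv_eq_one_div, le_div_iff₀ (by positivity)]
  calc tt j ^ 3 * PP j ^ 2 ≤ tt j * PP j ^ 60 := by gcongr
    _ ≤ 1 := by rwa [mul_comm]

theorem Pos_bet (x : Prm) (e : Nk × Bool) :
    ‖x.dat.bet e‖ = ‖(x.bq e.1.j e.1.k e.1.i : ℂ) + x.io e.1.j e.1.k e.1.i * I‖ := by
  unfold Dat.bet
  split_ifs
  · rw [norm_neg, norm_conj]; rfl
  · rfl

theorem Pos_pos (x : Prm) (e : Nk × Bool) :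
    x.dat.pos e = x.pp e.1.j e.1.k e.1.i + if e.2 then x.de e.1.j e.1.k e.1.i else 0 := rfl

theorem Pos_pp (x : Prm) {j : ℕ} (hj : 1 ≤ j) (k : ℕ) (i : ZMod (nn j)) :
    x.pp j k i = (Real.exp (x.lr j k) : ℝ) * un (nn j) k i * exp (x.ξ j k i) := by
  unfold Prm.pp
  rw [if_neg (by omega)]
  rfl

theorem Pos_bq (x : Prm) (j k : ℕ) (i : ZMod (nn j)) : x.bq j k i = (x.wall j).c k + x.ε j k i :=
  rfl

namespace InK

variable {x : Prm} (hx : InK x)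
include hx

theorem Pos_sq {j k : ℕ} (h1 : 1 ≤ k) (h2 : k < NN j) (i : ZMod (nn j)) :
    ‖x.ξ j k i‖ ^ 2 + x.ε j k i ^ 2 ≤ (tt j ^ 3) ^ 2 := by
  refine le_trans ?_ (hx.nsq_le j)
  unfold Wall.nsq
  refine le_trans ?_ (Finset.single_le_sum
    (f := fun k => ∑ i, (‖x.ξ j k i‖ ^ 2 + x.ε j k i ^ 2))
    (fun k _ => Finset.sum_nonneg fun i _ => by positivity) (Finset.mem_Ico.2 ⟨h1, h2⟩))
  exact Finset.single_le_sum (f := fun i => ‖x.ξ j k i‖ ^ 2 + x.ε j k i ^ 2)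
    (fun i _ => by positivity) (Finset.mem_univ i)

theorem ξ_le (j k : ℕ) (i : ZMod (nn j)) : ‖x.ξ j k i‖ ≤ tt j ^ 3 := by
  have h0 : 0 ≤ tt j ^ 3 := (pow_pos (tt_pos j) 3).le
  by_cases h : k = 0 ∨ NN j ≤ k
  · rw [hx.ξ_out j k i h, norm_zero]; exact h0
  · have := hx.Pos_sq (j := j) (k := k) (by omega) (by omega) i
    exact (abs_le_of_sq_le_sq' (by linarith [sq_nonneg (x.ε j k i)]) h0).2

theorem ε_le (j k : ℕ) (i : ZMod (nn j)) : |x.ε j k i| ≤ tt j ^ 3 := by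
  have h0 : 0 ≤ tt j ^ 3 := (pow_pos (tt_pos j) 3).le
  by_cases h : k = 0 ∨ NN j ≤ k
  · rw [hx.ε_out j k i h, abs_zero]; exact h0
  · have := hx.Pos_sq (j := j) (k := k) (by omega) (by omega) i
    exact abs_le_of_sq_le_sq (by linarith [sq_nonneg ‖x.ξ j k i‖]) h0

theorem sum_bq (j k : ℕ) : ∑ i, x.bq j k i = x.w j k := by
  simp only [Pos_bq]
  rw [Finset.sum_add_distrib, hx.ε_mean, add_zero, Finset.sum_const, card_univ, ZMod.card,
    nsmul_eq_mul, x.n_mul_c]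

theorem bq_out {j k : ℕ} (h : k = 0 ∨ NN j ≤ k) (i : ZMod (nn j)) : x.bq j k i = 0 := by
  rw [Pos_bq, hx.ε_out j k i h, add_zero, x.Mac1_c]
  rcases h with rfl | h
  · rw [x.w_zero, zero_div]
  · rw [x.w_out h, zero_div]

theorem c_ge (ν : Nk) : 2 * (PP ν.j)⁻¹ ^ 2 ≤ (x.wall ν.j).c ν.k := by
  have h1 := hx.w_ge ν.h1 ν.h2
  have h2 : (1 : ℝ) ≤ x.W ν.j := le_trans (one_le_pow₀ (by norm_num)) (hx.W_ge ν.j)
  have h3 := NN_le_PP ν.j
  have h4 := nn_le_PP ν.j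
  have h5 : (NN ν.j : ℝ) ≤ NN (ν.j + 1) := Nat.cast_le.2 (NN_mono _)
  have h6 : (nn ν.j : ℝ) ≤ nn (ν.j + 1) := Nat.cast_le.2 (nn_mono _)
  have h7 : (0 : ℝ) < NN ν.j := Nat.cast_pos.2 (lt_of_le_of_lt (Nat.zero_le _) ν.h2)
  have h8 : (0 : ℝ) < nn ν.j := Ring1_pos _
  have h9 : (0 : ℝ) < PP ν.j := lt_of_lt_of_le (by norm_num) (PP_ge ν.j)
  have h10 : 1 / (NN ν.j : ℝ) ≤ x.w ν.j ν.k := le_trans (by gcongr) h1
  rw [x.Mac1_c, le_div_iff₀ h8]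
  refine le_trans ?_ h10
  rw [le_div_iff₀ h7, inv_pow, mul_assoc, mul_assoc, mul_left_comm, inv_mul_le_iff₀ (by positivity),
    mul_one]
  calc 2 * ((nn ν.j : ℝ) * NN ν.j) ≤ (2 ^ 10 * nn ν.j) * (2 ^ 10 * NN ν.j) := by
        nlinarith [mul_pos h8 h7]
    _ ≤ PP ν.j * PP ν.j := mul_le_mul (by linarith) (by linarith) (by positivity) h9.le
    _ = PP ν.j ^ 2 := (sq _).symm

theorem bq_ge (ν : Nk) : (PP ν.j)⁻¹ ^ 2 ≤ x.bq ν.j ν.k ν.i := by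
  have h1 := hx.c_ge ν
  have h2 := (abs_le.1 (hx.ε_le ν.j ν.k ν.i)).1
  have h3 := Pos_tP ν.j
  rw [Pos_bq]
  linarith

theorem bet_near (e : Nk × Bool) : |‖x.dat.bet e‖ - x.bq e.1.j e.1.k e.1.i| ≤ tt e.1.j ^ 28 := by
  have h1 : 0 ≤ x.bq e.1.j e.1.k e.1.i := le_trans (by positivity) (hx.bq_ge e.1)
  have h2 := abs_norm_sub_norm_le ((x.bq e.1.j e.1.k e.1.i : ℂ) + x.io e.1.j e.1.k e.1.i * I)
    (x.bq e.1.j e.1.k e.1.i : ℂ)
  rw [add_sub_cancel_left, norm_mul, norm_I, mul_one, norm_real, norm_real, Real.norm_eq_abs,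
    Real.norm_eq_abs, abs_of_nonneg h1] at h2
  rw [Pos_bet]
  exact h2.trans (hx.io_le _ _ _)

theorem bet_le (e : Nk × Bool) : ‖x.dat.bet e‖ ≤ 2 ^ (e.1.j + 1) := by
  have h1 := (abs_le.1 (hx.bet_near e)).2
  have h2 := (abs_le.1 (hx.ε_le e.1.j e.1.k e.1.i)).2
  have h3 := Pos_t3 e.1.j
  have h4 : tt e.1.j ^ 28 ≤ tt e.1.j ^ 3 :=
    pow_le_pow_of_le_one (tt_pos _).le ((tt_le _).trans (by norm_num)) (by norm_num)
  have h5 : (x.wall e.1.j).c e.1.k ≤ x.w e.1.j e.1.k := by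
    rw [x.Mac1_c]
    exact div_le_self (hx.w_nonneg _ _) (Nat.one_le_cast.2 NeZero.one_le)
  have h6 := hx.w_le e.1.j e.1.k
  have h7 := hx.W_le e.1.j
  have h8 : (1 : ℝ) ≤ 2 ^ e.1.j := one_le_pow₀ (by norm_num)
  rw [Pos_bq] at h1
  rw [pow_succ]
  linarith

theorem Pos_exp {j k : ℕ} (hj : 1 ≤ j) (h : k ≤ NN j) :
    999 / 1000 * rho j ≤ Real.exp (x.lr j k) ∧ Real.exp (x.lr j k) ≤ 1000 / 999 * rho j := by
  have h1 := hx.lr_near hj h
  have h2 : (1 : ℝ) / (1000 * nn j) ≤ 1 / 1000 := by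
    have : (1 : ℝ) ≤ nn j := Nat.one_le_cast.2 NeZero.one_le
    exact one_div_le_one_div_of_le (by norm_num) (by linarith)
  obtain ⟨h3, h4⟩ := abs_le.1 (h1.trans h2)
  have h5 := Real.add_one_le_exp (x.lr j k - ell j)
  have h6 := Real.add_one_le_exp (ell j - x.lr j k)
  have h7 := rho_pos j
  have h8 := Real.exp_pos (x.lr j k)
  rw [Real.exp_sub, exp_ell, le_div_iff₀ h7] at h5
  rw [Real.exp_sub, exp_ell, le_div_iff₀ h8] at h6
  constructor <;> nlinarith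

theorem pos_near (e : Nk × Bool) (hj : 1 ≤ e.1.j) :
    ‖x.dat.pos e - (Real.exp (x.lr e.1.j e.1.k) : ℝ) * un (nn e.1.j) e.1.k e.1.i‖ ≤
      2 * tt e.1.j ^ 3 * Real.exp (x.lr e.1.j e.1.k) := by
  have h1 := hx.ξ_le e.1.j e.1.k e.1.i
  have h2 := Pos_t3 e.1.j
  have h3 := norm_exp_sub_one_sub_id_le (x := x.ξ e.1.j e.1.k e.1.i) (by linarith)
  have h4 : ‖exp (x.ξ e.1.j e.1.k e.1.i) - 1‖ ≤ 3 / 2 * tt e.1.j ^ 3 := by
    have h5 := norm_add_le (exp (x.ξ e.1.j e.1.k e.1.i) - 1 - x.ξ e.1.j e.1.k e.1.i)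
      (x.ξ e.1.j e.1.k e.1.i)
    rw [sub_add_cancel] at h5
    nlinarith [norm_nonneg (x.ξ e.1.j e.1.k e.1.i)]
  have ht := tt_pos e.1.j
  have h5 : ‖(if e.2 then x.de e.1.j e.1.k e.1.i else 0)‖ ≤ (tt e.1.j)⁻¹ ^ 3 := by
    split_ifs
    · exact hx.de_le _ _ _
    · rw [norm_zero]; positivity
  have h6 : 4 * (tt e.1.j)⁻¹ ^ 3 ≤ tt e.1.j ^ 3 * rho e.1.j := by
    have h7 : (1000 : ℝ) ≤ (tt e.1.j)⁻¹ := by
      rw [le_inv_comm₀ (by norm_num) ht, ← one_div]; exact tt_le _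
    have h8 : (tt e.1.j)⁻¹ ≤ (tt e.1.j)⁻¹ ^ 26 := le_self_pow₀ (by linarith) (by norm_num)
    have e1 : tt e.1.j ^ 3 * rho e.1.j = (tt e.1.j)⁻¹ ^ 26 * (tt e.1.j)⁻¹ ^ 3 := by
      rw [rho]; field_simp
    rw [e1]
    exact mul_le_mul_of_nonneg_right (by linarith) (by positivity)
  have h7 := (hx.Pos_exp hj e.1.h2.le).1
  have h8 := Real.exp_pos (x.lr e.1.j e.1.k)
  have h9 := rho_pos e.1.j
  have h10 := pow_pos ht 3
  have e2 : x.dat.pos e - (Real.exp (x.lr e.1.j e.1.k) : ℝ) * un (nn e.1.j) e.1.k e.1.i =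
      (Real.exp (x.lr e.1.j e.1.k) : ℝ) * un (nn e.1.j) e.1.k e.1.i *
        (exp (x.ξ e.1.j e.1.k e.1.i) - 1) + if e.2 then x.de e.1.j e.1.k e.1.i else 0 := by
    rw [Pos_pos, Pos_pp x hj]; ring
  rw [e2]
  refine (norm_add_le _ _).trans ?_
  rw [norm_mul, norm_mul, norm_un, mul_one, norm_real, Real.norm_eq_abs, abs_of_pos h8]
  have h11 := mul_le_mul_of_nonneg_left h4 h8.le
  have h12 := mul_le_mul_of_nonneg_left h7 h10.le
  have h13 := mul_pos h10 h9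
  linarith

theorem pos_ge (e : Nk × Bool) (hj : 1 ≤ e.1.j) : 9 / 10 * rho e.1.j ≤ ‖x.dat.pos e‖ := by
  have h1 := (abs_norm_sub_norm_le _ _).trans (hx.pos_near e hj)
  have h2 := Real.exp_pos (x.lr e.1.j e.1.k)
  rw [norm_mul, norm_un, mul_one, norm_real, Real.norm_eq_abs, abs_of_pos h2] at h1
  have h3 := (abs_le.1 h1).1
  have h4 := (hx.Pos_exp hj e.1.h2.le).1
  have h5 := mul_le_mul_of_nonneg_right (Pos_t3 e.1.j) h2.le
  have h6 := rho_pos e.1.j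
  linarith

theorem pos_zero (e : Nk × Bool) (hj : e.1.j = 0) : x.dat.pos e = 0 := by
  obtain ⟨⟨j, k, i, h1, h2⟩, s⟩ := e
  dsimp only at hj
  subst hj
  have hs : Subsingleton (ZMod (nn 0)) := ZMod.subsingleton_iff.2 nn_zero
  have h3 := hx.de_rot 0 k i
  rw [Subsingleton.elim (i + sh 0) i] at h3
  have h4 : (uu - 1) * x.de 0 k i = 0 := by linear_combination -h3
  have h5 := (mul_eq_zero.1 h4).resolve_left (sub_ne_zero.2 uu_ne)
  rw [Pos_pos]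
  dsimp only
  rw [h5, ite_self, add_zero, Prm.pp, if_pos rfl]

theorem pos_le (e : Nk × Bool) : ‖x.dat.pos e‖ ≤ 11 / 10 * rho e.1.j := by
  have h6 := rho_pos e.1.j
  rcases Nat.eq_zero_or_pos e.1.j with hj | hj
  · rw [hx.pos_zero e hj, norm_zero]; positivity
  have h1 := (abs_norm_sub_norm_le _ _).trans (hx.pos_near e hj)
  have h2 := Real.exp_pos (x.lr e.1.j e.1.k)
  rw [norm_mul, norm_un, mul_one, norm_real, Real.norm_eq_abs, abs_of_pos h2] at h1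
  have h3 := (abs_le.1 h1).2
  have h4 := (hx.Pos_exp hj e.1.h2.le).2
  have h5 := mul_le_mul_of_nonneg_right (Pos_t3 e.1.j) h2.le
  linarith

theorem micro_zero {j : ℕ} (hj : j ≤ 5) : x.ξ j = 0 ∧ x.ε j = 0 := by
  have h : sh j = 1 := by rw [sh, show j - 5 = 0 by omega, pow_zero, Nat.cast_one]
  constructor
  · funext k i
    exact Pos_const _ (fun i => by rw [← h, hx.ξ_rot]) (hx.ξ_mean j k) i
  · funext k i
    exact Pos_const _ (fun i => by rw [← h, hx.ε_rot]) (hx.ε_mean j k) i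

theorem wall_pert {j : ℕ} (hj : 1 ≤ j) : (x.wall j).Pert (nn j) (x.ξ j) (x.ε j) (Lb j) where
  ξ_out := hx.ξ_out j
  ε_out := hx.ε_out j
  ξ_mean := hx.ξ_mean j
  ε_mean := hx.ε_mean j
  modes m k hm hc :=
    ⟨Pos_hat hj _ (fun k i => by rw [hx.ξ_rot])
        (fun k => by rw [← re_sum, hx.ξ_mean, zero_re]) m k hm hc,
      Pos_hat hj _ (fun k i => by rw [hx.ξ_rot])
        (fun k => by rw [← im_sum, hx.ξ_mean, zero_im]) m k hm hc,
      Pos_hat hj _ (hx.ε_rot j) (hx.ε_mean j) m k hm hc⟩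

theorem dat_rot : x.dat.Rot rotN uu where
  unit := norm_uu
  pos e := by
    rcases Nat.eq_zero_or_pos e.1.j with hj | hj
    · rw [hx.pos_zero e hj, hx.pos_zero (sd rotN e) hj, mul_zero]
    · have e1 : x.dat.pos (sd rotN e) = x.pp e.1.j e.1.k (e.1.i + sh e.1.j) +
          if e.2 then x.de e.1.j e.1.k (e.1.i + sh e.1.j) else 0 := rfl
      rw [e1, Pos_pos, Pos_pp x hj, Pos_pp x hj, hx.ξ_rot, hx.de_rot, un_add, chi_sh hj]
      split_ifs <;> ring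
  bet ν := by
    have e1 : x.dat.2 (rotN ν) = x.bq ν.j ν.k (ν.i + sh ν.j) + x.io ν.j ν.k (ν.i + sh ν.j) * I :=
      rfl
    rw [e1, Pos_bq, hx.ε_rot, hx.io_rot]
    rfl

theorem dat_refl : x.dat.Refl reflN where
  pos e := by
    rcases Nat.eq_zero_or_pos e.1.j with hj | hj
    · rw [hx.pos_zero e hj, hx.pos_zero (sd reflN e) hj, map_zero]
    · have e1 : x.dat.pos (sd reflN e) = x.pp e.1.j e.1.k (-e.1.i - e.1.k) +
          if e.2 then x.de e.1.j e.1.k (-e.1.i - e.1.k) else 0 := rfl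
      rw [e1, Pos_pos, Pos_pp x hj, Pos_pp x hj, hx.ξ_refl, hx.de_refl, un_refl, map_add, map_mul,
        map_mul, conj_ofReal, exp_conj]
      split_ifs
      · rfl
      · rw [map_zero]
  bet ν := by
    have e1 : x.dat.2 (reflN ν) = x.bq ν.j ν.k (-ν.i - ν.k) + x.io ν.j ν.k (-ν.i - ν.k) * I := rfl
    have e2 : x.dat.2 ν = x.bq ν.j ν.k ν.i + x.io ν.j ν.k ν.i * I := rfl
    rw [e1, e2, Pos_bq, Pos_bq, hx.ε_refl, hx.io_refl, map_add, map_mul, conj_ofReal, conj_ofReal,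
      conj_I]
    push_cast
    ring

end InK

end Pool.Agent.MP_943ae2_gt
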