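import Pool.Agent.MP_943ae2_gt.Mac2
import Pool.Agent.MP_943ae2_gt.Pot0

open Set Complex Filter Finset
open scoped Topology ComplexConjugate ContDiff

noncomputable section

namespace Pool.Agent.MP_943ae2_gt

theorem pj_pos (j : ℕ) : 0 < pj j := by unfold pj; positivity

theorem pj_le (j : ℕ) : pj j ≤ 1 := pow_le_one₀ (by norm_num) (by norm_num)

theorem pj_ge (j : ℕ) : (PP j)⁻¹ ≤ pj j := by
  have h1 : (32 : ℝ) ^ j ≤ PP j := by
    rw [Cst_PP]
    exact le_mul_of_one_le_left (by positivity) (by norm_num)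
  calc (PP j)⁻¹ ≤ ((32 : ℝ) ^ j)⁻¹ := inv_anti₀ (by positivity) h1
    _ = (32⁻¹ : ℝ) ^ j := (inv_pow _ _).symm
    _ ≤ pj j := pow_le_pow_left₀ (by norm_num) (by norm_num) j

theorem Pot1_succ (j : ℕ) : pj (j + 1) = 23 / 100 * pj j := by
  unfold pj; ring

theorem Pot1_NN {j : ℕ} (hj : 1 ≤ j) : (NN j : ℝ) = 6 * Lb j := by
  rw [NN_eq hj]; push_cast; ring

theorem Pot1_Af0 (k : ℕ) : Af 0 k = 0 := if_pos rfl

theorem Pot1_bot {j k : ℕ} (hj : 1 ≤ j) (h : k ≤ Lb j) : Af j k = k * pj j := by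
  unfold Af; rw [if_neg (by omega), if_pos h]

theorem Pot1_top {j k : ℕ} (hj : 1 ≤ j) (h : Lb j ≤ k) (h2 : k ≤ NN j) :
    Af j k = (NN j - k) * pj j / 5 := by
  rcases h.eq_or_lt with rfl | h
  · rw [Pot1_bot hj le_rfl, Pot1_NN hj]; ring
  · unfold Af; rw [if_neg (by omega), if_neg (by omega), if_pos h2]

theorem Pot1_Af (j k : ℕ) : 0 ≤ Af j k ∧ Af j k ≤ Lb j * pj j := by
  have hp := pj_pos j
  have hL := Mac2_Lb_one j
  have h0 : 0 ≤ Lb j * pj j := by positivity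
  rcases Nat.eq_zero_or_pos j with rfl | hj
  · rw [Pot1_Af0]; exact ⟨le_rfl, h0⟩
  rcases le_total k (Lb j) with h | h
  · rw [Pot1_bot hj h]
    exact ⟨by positivity, mul_le_mul_of_nonneg_right (Nat.cast_le.2 h) hp.le⟩
  rcases le_or_gt k (NN j) with h2 | h2
  · rw [Pot1_top hj h h2]
    have h3 : (k : ℝ) ≤ NN j := Nat.cast_le.2 h2
    have h4 : (Lb j : ℝ) ≤ k := Nat.cast_le.2 h
    rw [Pot1_NN hj] at h3 ⊢
    constructor <;> nlinarith
  · have : Af j k = 0 := by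
      have := NN_eq hj
      unfold Af; rw [if_neg (by omega), if_neg (by omega), if_neg (by omega)]
    rw [this]; exact ⟨le_rfl, h0⟩

theorem al_nonneg (j k : ℕ) : 0 ≤ al j k := div_nonneg (Pot1_Af j k).1 (Nat.cast_nonneg _)

theorem ap_nonneg (j k : ℕ) : 0 ≤ ap j k := by
  have := (Pot1_Af j k).1
  have := pj_pos j
  unfold ap; split_ifs
  · exact le_rfl
  · positivity

theorem al_le (j k : ℕ) : al j k ≤ Lb j * pj j / nn j :=
  div_le_div_of_nonneg_right (Pot1_Af j k).2 (Nat.cast_nonneg _)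

theorem ap_le (j k : ℕ) : ap j k ≤ 2 * Lb j * pj j / nn j := by
  have h1 := (Pot1_Af j k).2
  have hp := pj_pos j
  have hL := Mac2_Lb_one j
  unfold ap; split_ifs
  · positivity
  · exact div_le_div_of_nonneg_right (by nlinarith) (Nat.cast_nonneg _)

theorem al_out {j k : ℕ} (h : NN j ≤ k) : al j k = 0 := by
  have : Af j k = 0 := by
    rcases Nat.eq_zero_or_pos j with rfl | hj
    · exact Pot1_Af0 k
    have h1 := NN_eq hj
    have h2 := Lb_pos j
    rcases h.eq_or_lt with rfl | h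
    · rw [Pot1_top hj (by omega) le_rfl]; ring
    · unfold Af; rw [if_neg (by omega), if_neg (by omega), if_neg (by omega)]
  rw [al, this, zero_div]

theorem ap_sub (ν : Nk) : ap ν.j ν.k - al ν.j ν.k = dl ν := by
  have := ν.h1
  unfold ap al dl
  rw [if_neg (by omega)]; ring

theorem po_zero (i : ℕ) : po 0 i = 0 := by
  unfold po; split_ifs with h
  · rw [Lb_zero] at h
    rw [al, Pot1_Af0, ap, if_pos (by omega)]; ring
  · rfl

theorem po_top {j i : ℕ} (h : Lb j < i) : po j i = 0 := if_neg (by omega)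

theorem po_bot {j i : ℕ} (hj : 1 ≤ j) (h1 : 1 ≤ i) (h2 : i ≤ Lb j) :
    99 / 100 * pj j ≤ po j i ∧ po j i ≤ pj j := by
  have hp := pj_pos j
  have hn := Mac1_nn j
  rw [po, if_pos h2, al, Pot1_bot hj h2, ap]
  split_ifs with h
  · obtain rfl : i = 1 := by omega
    have : (nn j : ℝ) * (((1 : ℕ) : ℝ) * pj j / nn j - 0) = pj j := by
      field_simp; push_cast; ring
    rw [this]; constructor <;> linarith
  · rw [Pot1_bot hj (by omega : i - 1 ≤ Lb j), Nat.cast_sub h1]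
    have : (nn j : ℝ) * ((i : ℝ) * pj j / nn j - (((i : ℝ) - (1 : ℕ)) * pj j + pj j / 100) / nn j) =
        99 / 100 * pj j := by
      field_simp; push_cast; ring
    rw [this]; constructor <;> linarith

theorem top_slope {j i : ℕ} (hj : 1 ≤ j) (h1 : Lb j < i) (h2 : i ≤ NN j) :
    (nn j : ℝ) * (al j i - ap j (i - 1)) = -(21 / 100 * pj j) := by
  have hn := Mac1_nn j
  have hL := Lb_pos j
  rw [al, ap, if_neg (by omega), Pot1_top hj h1.le h2,
    Pot1_top hj (by omega : Lb j ≤ i - 1) (by omega), Nat.cast_sub (by omega : 1 ≤ i)]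
  field_simp; push_cast; ring

theorem Pot1_po {j i : ℕ} (hj : 1 ≤ j) (h1 : 1 ≤ i) : |po j i| ≤ pj j := by
  have hp := pj_pos j
  rcases le_or_gt i (Lb j) with h | h
  · have := po_bot hj h1 h
    rw [abs_le]; constructor <;> linarith [this.1, this.2]
  · rw [po_top h, abs_zero]; exact hp.le

theorem Pot1_al0 (k : ℕ) : al 0 k = 0 := by rw [al, Pot1_Af0, zero_div]

theorem fl_zero_one (x : Prm) (z : ℂ) : x.fl 0 1 z = 100 * ell 0 := by
  simp [Prm.fl, Prm.VV, Prm.V1, wallSum, ringSum, po_zero, Pot1_al0]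

theorem Pot1_lg {y : ℝ} (h : |y| ≤ 1) : |Real.log (1 + Real.exp y)| ≤ 3 := by
  have h0 := Real.exp_pos y
  have h1 : Real.exp y ≤ Real.exp 1 := Real.exp_le_exp.2 (abs_le.1 h).2
  have h2 := Real.exp_one_lt_d9
  rw [abs_of_nonneg (Real.log_nonneg (by linarith))]
  have := Real.log_le_sub_one_of_pos (show 0 < 1 + Real.exp y by linarith)
  linarith

theorem Pot1_mul {a b A B : ℝ} (h0 : 0 ≤ a) (ha : a ≤ A) (hb : |b| ≤ B) : |a * b| ≤ A * B := by
  rw [abs_mul, abs_of_nonneg h0]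
  exact mul_le_mul ha hb (abs_nonneg _) (h0.trans ha)

theorem Pot1_small {j : ℕ} (hj : 1 ≤ j) :
    6 * Lb j * (20 * Lb j * pj j * ell j / nn j) ≤ pj j * ell j / 10000 := by
  have hn := Mac2_nn_pos j
  have hb := nn_big hj
  have hp := pj_pos j
  have hl : 0 < ell j := lt_of_lt_of_le (by positivity) (ell_ge j)
  rw [Pot1_NN hj] at hb
  have hq : 0 < pj j * ell j := mul_pos hp hl
  have h1 : 6 * Lb j * (20 * Lb j * pj j * ell j / nn j) =
      120 * (Lb j : ℝ) ^ 2 / nn j * (pj j * ell j) := by ring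
  have h2 : 120 * (Lb j : ℝ) ^ 2 / nn j ≤ 1 / 10000 := by
    rw [div_le_iff₀ hn]; nlinarith [sq_nonneg (Lb j : ℝ)]
  rw [h1]; nlinarith

namespace InK

variable {x : Prm} (hx : InK x)
include hx

theorem dV_le {j k : ℕ} (hj : 1 ≤ j) (h1 : 1 ≤ k) (h2 : k < NN j) :
    |x.dV j k| ≤ 20 * Lb j * pj j * ell j / nn j := by
  have hn := Mac2_nn_pos j
  have hn1 := Mac2_nn_one j
  have hp := pj_pos j
  have hL := Mac2_Lb_one j
  have hl : 90000 ≤ ell j := le_trans
    (le_mul_of_one_le_right (by norm_num) (one_le_pow₀ (by norm_num))) (ell_ge j)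
  set A : ℝ := Lb j * pj j / nn j with hA
  have hA0 : 0 ≤ A := by positivity
  have hal : ∀ k, al j k ≤ A := al_le j
  have hap : ∀ k, ap j k ≤ 2 * A := fun k => (ap_le j k).trans_eq (by rw [hA]; ring)
  have hxr : |x.xr j k| ≤ 1 / (1000 * nn j) := hx.lr_near hj h2.le
  have hnx : |nn j * x.xr j k| ≤ 1 := by
    refine (Pot1_mul hn.le le_rfl hxr).trans ?_
    rw [mul_one_div, div_le_one (by positivity)]; linarith
  have hnx' : |(nn j - 1) * x.xr j k| ≤ 1 := by
    refine (Pot1_mul (by linarith) (by linarith : (nn j : ℝ) - 1 ≤ nn j) hxr).trans ?_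
    rw [mul_one_div, div_le_one (by positivity)]; linarith
  have hlg0 : 0 ≤ Real.log (nn j) := Real.log_nonneg hn1
  have hlg : Real.log (nn j) ≤ ell j / 1000 :=
    (Real.log_le_log hn (Mac2_nn_le j)).trans (log_PP j)
  have hy : ∀ i, |x.y j i| ≤ 1 := fun i => by
    refine (hx.y_le j i).trans ?_
    have hb := nn_big hj
    have hN : (1 : ℝ) ≤ NN j := by rw [Pot1_NN hj]; linarith
    rw [div_le_one hn]; nlinarith
  have hc : |Real.log ((x.wall j).c k) - ell j| ≤ 2 * ell j := by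
    have hw : 0 < x.w j k := lt_of_lt_of_le (inv_pos.2 (by linarith [Mac2_PP_one j]))
      (hx.Mac2_w_ge h1 h2)
    have := abs_le.1 (hx.log_w h1 h2)
    rw [x.Mac1_c, Real.log_div hw.ne' hn.ne', abs_le]
    constructor <;> linarith [this.1, this.2]
  have hb1 : |Real.log (nn j) + (nn j - 1) * x.xr j k| ≤ ell j := by
    have := abs_le.1 hnx'
    rw [abs_le]; constructor <;> linarith [this.1, this.2]
  have hb2 : ∀ y : ℝ, |y| ≤ 1 → |nn j * x.xr j k + Real.log (1 + Real.exp y)| ≤ ell j :=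
    fun y h => (abs_add_le _ _).trans (by linarith [Pot1_lg h])
  have hb3 : ∀ i, 1 ≤ i → |po j i * x.xr j k| ≤ A * ell j := fun i hi => by
    rw [abs_mul]
    refine (mul_le_mul (Pot1_po hj hi) hxr (abs_nonneg _) hp.le).trans ?_
    have h3 : pj j * (1 / (1000 * nn j)) = pj j / nn j * (1 / 1000) := by field_simp
    have h4 : pj j / nn j ≤ A := div_le_div_of_nonneg_right (by nlinarith) hn.le
    rw [h3]
    exact mul_le_mul h4 (by linarith) (by norm_num) hA0
  have e1 := abs_le.1 (Pot1_mul (add_nonneg (ap_nonneg j k) (al_nonneg j k))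
    (add_le_add (hap k) (hal k)) hc)
  have e2 := abs_le.1 (Pot1_mul (ap_nonneg j k) (hap k) hb1)
  have e3 := abs_le.1 (Pot1_mul (al_nonneg j (k + 1)) (hal (k + 1))
    (hb2 (-x.y j k) (by rw [abs_neg]; exact hy k)))
  have e4 := abs_le.1 (hb3 (k + 1) (by omega))
  have e5 := abs_le.1 (Pot1_mul (al_nonneg j k) (hal k) hb1)
  have e6 := abs_le.1 (Pot1_mul (ap_nonneg j (k - 1)) (hap (k - 1)) (hb2 _ (hy (k - 1))))
  have e7 := abs_le.1 (hb3 k h1)
  have e8 : 20 * Lb j * pj j * ell j / nn j = 20 * (A * ell j) := by rw [hA]; ring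
  have e9 : 0 ≤ A * ell j := by positivity
  rw [e8, Prm.dV, Prm.h1, Prm.h2, abs_le]
  constructor <;> nlinarith [e1.1, e1.2, e2.1, e2.2, e3.1, e3.2, e4.1, e4.2, e5.1, e5.2, e6.1, e6.2,
    e7.1, e7.2]

theorem Pot1_sum {j a b : ℕ} (hj : 1 ≤ j) (ha : 1 ≤ a) (hb : b ≤ NN j) :
    |∑ i ∈ Ico a b, x.dV j i| ≤ pj j * ell j / 10000 := by
  refine le_trans ?_ (Pot1_small hj)
  have hp := pj_pos j
  have hl : 0 < ell j := lt_of_lt_of_le (by positivity) (ell_ge j)
  refine (Finset.abs_sum_le_sum_abs _ _).trans ?_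
  refine (Finset.sum_le_card_nsmul _ _ _ fun i hi => hx.dV_le hj
    (ha.trans (Finset.mem_Ico.1 hi).1) ((Finset.mem_Ico.1 hi).2.trans_le hb)).trans ?_
  rw [nsmul_eq_mul, Nat.card_Ico, ← Pot1_NN hj]
  exact mul_le_mul_of_nonneg_right (Nat.cast_le.2 (by omega)) (by positivity)

omit hx in
theorem Pot1_dV0 : x.dV 0 1 = -(ell 0 / 100) := by
  have hw : x.w 0 1 = 1 := x.w_L 0
  have h1 : ap 0 1 = 1 / 100 := by simp [ap, Pot1_Af0, pj, nn_zero]
  have h0 : ap 0 0 = 0 := if_pos rfl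
  simp only [Prm.dV, Prm.h1, Prm.h2, Prm.Mac1_c, hw, h1, h0, Pot1_al0, po_zero, nn_zero,
    Nat.sub_self, Nat.cast_one, div_one, Real.log_one]
  ring

theorem VV_zero_two : x.VV 0 2 = 100 * ell 0 - ell 0 / 100 := by
  have _ := hx
  have : ∑ i ∈ Ico 1 2, x.dV 0 i = x.dV 0 1 := by simp
  rw [Prm.VV, this, Pot1_dV0, Prm.V1]; ring

theorem Pot1_sum0 {j b : ℕ} (hb : b ≤ NN j) :
    -(pj j * ell j / 100) ≤ ∑ i ∈ Ico 1 b, x.dV j i := by
  have hp := pj_pos j
  have hl : 0 < ell j := lt_of_lt_of_le (by positivity) (ell_ge j)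
  have hq : 0 < pj j * ell j := mul_pos hp hl
  rcases Nat.eq_zero_or_pos j with rfl | hj
  · rw [NN_zero] at hb
    rcases hb.eq_or_lt with rfl | hb
    · have : ∑ i ∈ Ico 1 2, x.dV 0 i = x.dV 0 1 := by simp
      rw [this, Pot1_dV0]; simp [pj]
    · rw [Finset.Ico_eq_empty (by omega), Finset.sum_empty]; linarith
  · linarith [(abs_le.1 (hx.Pot1_sum hj le_rfl hb)).1]

theorem Pot1_V1 (j : ℕ) : 90 * ell 0 + 9 * (pj j * ell j) ≤ x.V1 j := by
  induction j with
  | zero =>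
    have hl : 0 < ell 0 := lt_of_lt_of_le (by positivity) (ell_ge 0)
    simp only [Prm.V1, pj, pow_zero]; linarith
  | succ j ih =>
    have hp := pj_pos j
    have hl : 0 < ell j := lt_of_lt_of_le (by positivity) (ell_ge j)
    have hq : 0 < pj j * ell j := mul_pos hp hl
    have h1 := hx.Pot1_sum0 (j := j) (b := Lb j + 1) (Nat.add_le_add_left (Mt_pos j) _)
    rw [Prm.V1, Pot1_succ, ell_succ]
    nlinarith

theorem VV_ge {j i : ℕ} (h : i ≤ NN j) : 80 * ell 0 ≤ x.VV j i := by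
  have hp := pj_pos j
  have hl : 0 < ell j := lt_of_lt_of_le (by positivity) (ell_ge j)
  have hl0 : 0 < ell 0 := lt_of_lt_of_le (by positivity) (ell_ge 0)
  have hq : 0 < pj j * ell j := mul_pos hp hl
  have h1 := hx.Pot1_sum0 h
  have h2 := hx.Pot1_V1 j
  rw [Prm.VV]; linarith

theorem VV_diff {j a : ℕ} (h1 : 1 ≤ a) (h2 : a ≤ Mt j) :
    |x.VV j (Lb j + a) - x.VV (j + 1) a - 66 / 100 * pj j * ell j| ≤ pj j * ell j / 1000 := by
  have hp := pj_pos j
  have hl : 0 < ell j := lt_of_lt_of_le (by positivity) (ell_ge j)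
  have hq : 0 < pj j * ell j := mul_pos hp hl
  have e : x.VV j (Lb j + a) - x.VV (j + 1) a - 66 / 100 * pj j * ell j =
      ∑ i ∈ Ico (Lb j + 1) (Lb j + a), x.dV j i - ∑ i ∈ Ico 1 a, x.dV (j + 1) i := by
    rw [Prm.VV, Prm.VV, Prm.V1,
      ← Finset.sum_Ico_consecutive _ (by omega : 1 ≤ Lb j + 1) (by omega : Lb j + 1 ≤ Lb j + a)]
    ring
  have h3 : |∑ i ∈ Ico (Lb j + 1) (Lb j + a), x.dV j i| ≤ pj j * ell j / 10000 := by
    rcases Nat.eq_zero_or_pos j with rfl | hj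
    · rw [Mt_zero] at h2
      rw [Finset.Ico_eq_empty (by omega), Finset.sum_empty, abs_zero]; linarith
    · exact hx.Pot1_sum hj (by omega) (Nat.add_le_add_left h2 _)
  have h4 := hx.Pot1_sum (j := j + 1) (b := a) (by omega) le_rfl
    (h2.trans (Nat.le_add_right (Lb (j + 1)) _))
  rw [Pot1_succ, ell_succ] at h4
  rw [e]
  refine (abs_sub _ _).trans ?_
  nlinarith

end InK

end Pool.Agent.MP_943ae2_gt
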