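import Pool.Agent.MP_943ae2_gt.Pot1
import Pool.Agent.MP_943ae2_gt.Pos
import Pool.Agent.MP_943ae2_gt.Ring2

open Set Complex Filter Finset
open scoped Topology ComplexConjugate ContDiff

noncomputable section

namespace Pool.Agent.MP_943ae2_gt

lemma Pot2_rho_ge (j : ℕ) : 90000 ≤ rho j := by
  have h1 := Real.add_one_le_exp (ell j)
  have h2 := ell_ge j
  have h3 : (1 : ℝ) ≤ 4 ^ j := one_le_pow₀ (by norm_num)
  rw [exp_ell] at h1
  linarith

lemma Pot2_ell_ge (j : ℕ) : 90000 ≤ ell j := by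
  have h2 := ell_ge j
  have h3 : (1 : ℝ) ≤ 4 ^ j := one_le_pow₀ (by norm_num)
  linarith

lemma Pot2_rho_succ (j : ℕ) : 8 * rho j ≤ rho (j + 1) := by
  have h := Pot2_rho_ge j
  rw [rho_succ]
  have h3 : rho j ≤ rho j ^ 3 := le_self_pow₀ (by linarith) (by norm_num)
  nlinarith

lemma Pot2_n_le (j : ℕ) : 2 ^ 10 * (nn j : ℝ) ≤ PP j := by
  have h1 := nn_le_PP j
  have h2 : (nn j : ℝ) ≤ nn (j + 1) := Nat.cast_le.2 (nn_mono j)
  linarith

lemma Pot2_tP (j : ℕ) : PP j ^ 2 * PP j * tt j ≤ 1 := by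
  have h1 := PP_tt j
  have h2 : (1 : ℝ) ≤ PP j := le_trans (by norm_num) (PP_ge j)
  have h3 : PP j ^ 3 ≤ PP j ^ 60 := pow_le_pow_right₀ h2 (by norm_num)
  have h4 := tt_pos j
  calc PP j ^ 2 * PP j * tt j = PP j ^ 3 * tt j := by ring
    _ ≤ PP j ^ 60 * tt j := by gcongr
    _ ≤ 1 := h1

lemma Pot2_eta (j : ℕ) : 2 * tt j ^ 3 * (nn j : ℝ) ^ 2 ≤ 1 / 100 := by
  have h1 := Pos_tP j
  have h2 := Pot2_n_le j
  have h3 := Mac2_nn_pos j
  have h4 : (0 : ℝ) < PP j := by linarith [Mac2_PP_one j]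
  have h5 : (nn j : ℝ) * (PP j)⁻¹ ≤ 1 / 1000 := by
    rw [← div_eq_mul_inv, div_le_iff₀ h4]
    linarith
  have h6 : 0 ≤ (nn j : ℝ) * (PP j)⁻¹ := by positivity
  calc 2 * tt j ^ 3 * (nn j : ℝ) ^ 2 ≤ 2 * (PP j)⁻¹ ^ 2 * (nn j : ℝ) ^ 2 := by gcongr
    _ = 2 * ((nn j : ℝ) * (PP j)⁻¹) ^ 2 := by ring
    _ ≤ 1 / 100 := by nlinarith

lemma Pot2_PP_rho (j : ℕ) : PP j ≤ rho j := by
  have h1 := Pot2_tP j
  have h2 := Mac2_PP_one j
  have h4 := tt_pos j
  have h5 : PP j ≤ (tt j)⁻¹ := by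
    rw [← one_div, le_div_iff₀ h4]
    have : 1 ≤ PP j ^ 2 := one_le_pow₀ (by linarith)
    have : 0 ≤ PP j * tt j := by positivity
    nlinarith
  exact h5.trans (le_self_pow₀ (by linarith) (by norm_num))

lemma Pot2_Ln {j : ℕ} (hj : 1 ≤ j) : (Lb j : ℝ) / nn j ≤ 1 / 10 ^ 7 := by
  have h1 := nn_big hj
  have h2 := Mac2_Lb_one j
  rw [NN_eq hj] at h1
  push_cast at h1
  rw [div_le_iff₀ (Mac2_nn_pos j)]
  nlinarith

lemma Pot2_al {j : ℕ} (hj : 1 ≤ j) (k : ℕ) : al j k ≤ pj j / 10 ^ 6 := by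
  have h1 := al_le j k
  have h2 := Pot2_Ln hj
  have h3 := pj_pos j
  have e : Lb j * pj j / nn j = Lb j / nn j * pj j := by ring
  nlinarith

lemma Pot2_ap {j : ℕ} (hj : 1 ≤ j) (k : ℕ) : ap j k ≤ pj j / 10 ^ 6 := by
  have h1 := ap_le j k
  have h2 := Pot2_Ln hj
  have h3 := pj_pos j
  have e : 2 * Lb j * pj j / nn j = 2 * (Lb j / nn j * pj j) := by ring
  nlinarith

lemma Pot2_max {a r ρ δ : ℝ} (hr : 0 < r) (hρ : 0 < ρ) (h : |Real.log r - Real.log ρ| ≤ δ) :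
    |Real.log (max a r) - Real.log (max a ρ)| ≤ δ := by
  obtain ⟨h1, h2⟩ := abs_le.1 h
  rw [abs_le]
  rcases le_total a r with h3 | h3 <;> rcases le_total a ρ with h4 | h4
  · rw [max_eq_right h3, max_eq_right h4]
    exact ⟨h1, h2⟩
  · rw [max_eq_right h3, max_eq_left h4]
    have := Real.log_le_log hρ h4
    have := Real.log_le_log (hρ.trans_le h4) h3
    constructor <;> linarith
  · rw [max_eq_left h3, max_eq_right h4]
    have := Real.log_le_log hr h3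
    have := Real.log_le_log (hr.trans_le h3) h4
    constructor <;> linarith
  · rw [max_eq_left h3, max_eq_left h4]
    constructor <;> linarith

/-- positions of the sides of a ring -/
def Pot2p (x : Prm) (s : Bool) {j k : ℕ} (h : 1 ≤ k ∧ k < NN j) (i : ZMod (nn j)) : ℂ :=
  x.dat.pos (⟨j, k, i, h.1, h.2⟩, s)

/-- deviation of the logarithmic sum of a ring from its radial model -/
def Pot2D (x : Prm) (s : Bool) (j k : ℕ) (z : ℂ) : ℝ :=
  if h : 1 ≤ k ∧ k < NN j then ∑ i, Real.log (‖z - Pot2p x s h i‖ / rho j) -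
    nn j * Real.log (max ‖z‖ (rho j) / rho j) else 0

lemma Pot2_fl (x : Prm) {j i : ℕ} (h1 : 1 ≤ i) (h2 : i ≤ NN j) (z : ℂ) :
    x.fl j i z = x.VV j i +
      nn j * (al j i - ap j (i - 1)) * Real.log (max ‖z‖ (rho j) / rho j) -
      po j i * Real.log (‖z‖ / rho j) +
      (al j i * Pot2D x false j i z - ap j (i - 1) * Pot2D x true j (i - 1) z) := by
  have e1 : ringSum (fun e => (if e.2 then -ap e.1.j e.1.k else al e.1.j e.1.k) *
      Real.log (‖z - x.dat.pos e‖ / rho j)) false j i =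
      al j i * (Pot2D x false j i z + nn j * Real.log (max ‖z‖ (rho j) / rho j)) := by
    unfold ringSum Pot2D
    split_ifs with h
    · rw [sub_add_cancel, Finset.mul_sum]
      rfl
    · rw [al_out (by omega), zero_mul]
  have e2 : ringSum (fun e => (if e.2 then -ap e.1.j e.1.k else al e.1.j e.1.k) *
      Real.log (‖z - x.dat.pos e‖ / rho j)) true j (i - 1) =
      -ap j (i - 1) * (Pot2D x true j (i - 1) z + nn j * Real.log (max ‖z‖ (rho j) / rho j)) := by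
    unfold ringSum Pot2D
    split_ifs with h
    · rw [sub_add_cancel, Finset.mul_sum]
      rfl
    · have : ap j (i - 1) = 0 := if_pos (by omega)
      rw [this, neg_zero, zero_mul]
  rw [Prm.fl, wallSum, e1, e2]
  ring

lemma Pot2_D_eq (x : Prm) (s : Bool) {j k : ℕ} (h : 1 ≤ k ∧ k < NN j) {z : ℂ}
    (hz : ∀ i, 0 < ‖z - Pot2p x s h i‖) : Pot2D x s j k z =
      ∑ i, Real.log ‖z - Pot2p x s h i‖ - nn j * Real.log (max ‖z‖ (rho j)) := by
  have hρ := rho_pos j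
  rw [Pot2D, dif_pos h, Finset.sum_congr rfl fun i _ => Real.log_div (hz i).ne' hρ.ne',
    Real.log_div (lt_max_of_lt_right hρ).ne' hρ.ne', Finset.sum_sub_distrib, Finset.sum_const,
    card_univ, ZMod.card, nsmul_eq_mul]
  ring

namespace InK

variable {x : Prm} (hx : InK x)
include hx

theorem fl_zero_two (z : ℂ) : x.fl 0 2 z = x.VV 0 2 - 1 / 100 * Real.log (‖z‖ / rho 0) := by
  have h1 : ap 0 1 = 1 / 100 := by simp [ap, Af, pj, nn_zero]
  rw [Prm.fl, wallSum, po_zero, ringSum, ringSum, dif_neg (by decide), dif_pos (by decide),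
    Finset.sum_congr rfl (g := fun _ => -(1 / 100) * Real.log (‖z‖ / rho 0)) fun i _ => by
      rw [hx.pos_zero _ rfl, sub_zero, if_pos rfl, ← h1],
    Finset.sum_const, card_univ, ZMod.card, nn_zero, one_smul]
  ring

lemma Pot2_near (s : Bool) {j k : ℕ} (hj : 1 ≤ j) (h : 1 ≤ k ∧ k < NN j) (i : ZMod (nn j)) :
    ‖Pot2p x s h i - (Real.exp (x.lr j k) : ℝ) * un (nn j) k i‖ ≤
      2 * tt j ^ 3 * Real.exp (x.lr j k) :=
  hx.pos_near (⟨j, k, i, h.1, h.2⟩, s) hj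

lemma Pot2_rad {j k : ℕ} (hj : 1 ≤ j) (h : k ≤ NN j) (a : ℝ) :
    |nn j * Real.log (max a (Real.exp (x.lr j k))) - nn j * Real.log (max a (rho j))| ≤ 1 := by
  have hn := Mac2_nn_pos j
  have h1 := Pot2_max (a := a) (δ := 1 / (1000 * (nn j : ℝ))) (Real.exp_pos (x.lr j k)) (rho_pos j)
    (by rw [Real.log_exp]; exact hx.lr_near hj h)
  rw [← mul_sub, abs_mul, abs_of_pos hn]
  calc _ ≤ nn j * (1 / (1000 * (nn j : ℝ))) := by gcongr
    _ = 1 / 1000 := by field_simp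
    _ ≤ 1 := by norm_num

lemma Pot2_D_far (s : Bool) {j : ℕ} (hj : 1 ≤ j) (k : ℕ) {z : ℂ}
    (hz : ‖z‖ ≤ rho j / 2 ∨ 2 * rho j ≤ ‖z‖) : |Pot2D x s j k z| ≤ 6 := by
  by_cases h : 1 ≤ k ∧ k < NN j
  · have hn : 10 ≤ nn j := le_trans (by norm_num) (nn_ge hj)
    have hn' : (10 : ℝ) ≤ nn j := by exact_mod_cast hn
    have hr := Real.exp_pos (x.lr j k)
    have hρ := rho_pos j
    obtain ⟨r1, r2⟩ := hx.Pos_exp hj h.2.le
    have hi : (1 : ℝ) / nn j ≤ 1 / 10 := one_div_le_one_div_of_le (by norm_num) hn'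
    have hz' : ‖z‖ ≤ Real.exp (x.lr j k) * Real.exp (-1 / nn j) ∨
        Real.exp (x.lr j k) * Real.exp (1 / nn j) ≤ ‖z‖ := by
      have e1 : 9 / 10 ≤ Real.exp (-1 / nn j) := by
        have := Real.add_one_le_exp (-1 / nn j)
        rw [neg_div] at this ⊢
        linarith
      have e2 : Real.exp (1 / nn j) ≤ 10 / 9 := by
        have e : Real.exp (1 / nn j) * Real.exp (-1 / nn j) = 1 := by
          rw [← Real.exp_add, neg_div, add_neg_cancel, Real.exp_zero]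
        have := Real.exp_pos (1 / nn j)
        nlinarith
      rcases hz with hz | hz
      · left; nlinarith
      · right; nlinarith
    obtain ⟨h1, h2⟩ := log_mid hn hr (hx.Pot2_near s hj h) (Pot2_eta j) hz'
    rw [Pot2_D_eq x s h fun i => lt_of_lt_of_le (by positivity) (h1 i)]
    have h3 := abs_le.1 (hx.Pot2_rad hj h.2.le ‖z‖)
    have h4 := abs_le.1 h2
    rw [abs_le]
    constructor <;> linarith
  · rw [Pot2D, dif_neg h]
    norm_num

theorem fl_far {j i : ℕ} (hj : 1 ≤ j) (h1 : 1 ≤ i) (h2 : i ≤ NN j) {z : ℂ}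
    (hz : ‖z‖ ≤ rho j / 2 ∨ 2 * rho j ≤ ‖z‖) :
    |x.fl j i z - (x.VV j i + nn j * (al j i - ap j (i - 1)) * Real.log (max ‖z‖ (rho j) / rho j) -
      po j i * Real.log (‖z‖ / rho j))| ≤ pj j / 1000 := by
  rw [Pot2_fl x h1 h2, add_sub_cancel_left]
  obtain ⟨a1, a2⟩ := abs_le.1 (hx.Pot2_D_far false hj i hz)
  obtain ⟨b1, b2⟩ := abs_le.1 (hx.Pot2_D_far true hj (i - 1) hz)
  have c1 := al_nonneg j i
  have c2 := ap_nonneg j (i - 1)
  have c3 := Pot2_al hj i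
  have c4 := Pot2_ap hj (i - 1)
  have c5 := pj_pos j
  rw [abs_le]
  constructor <;> nlinarith

lemma Pot2_bet (e : Nk × Bool) : tt e.1.j ≤ ‖x.dat.bet e‖ := by
  have h1 := hx.bq_ge e.1
  have h2 := (abs_le.1 (hx.bet_near e)).1
  have h3 := Pot2_tP e.1.j
  have h4 := Mac2_PP_one e.1.j
  have h5 := tt_pos e.1.j
  have h6 : tt e.1.j ^ 28 ≤ tt e.1.j :=
    pow_le_of_le_one h5.le (by linarith [tt_le e.1.j]) (by norm_num)
  have h7 : 2 * tt e.1.j ≤ (PP e.1.j)⁻¹ ^ 2 := by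
    rw [inv_pow, ← one_div, le_div_iff₀ (by positivity)]
    have : 0 ≤ PP e.1.j ^ 2 * tt e.1.j := by positivity
    nlinarith
  linarith

lemma Pot2_D_U (s : Bool) {j : ℕ} (hj : 1 ≤ j) (k : ℕ) {l : ℕ} {z : ℂ} (hz : z ∈ frm.U x.dat l)
    (hl : ∀ e : Nk × Bool, e.1.j = j → e.1.k = k → e.2 = s → e ∈ frm.sides l) :
    -(2 * ell j) ≤ Pot2D x s j k z ∧ Pot2D x s j k z ≤ 6 := by
  have hE := Pot2_ell_ge j
  by_cases h : 1 ≤ k ∧ k < NN j
  · have hn : 10 ≤ nn j := le_trans (by norm_num) (nn_ge hj)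
    have hn' : (10 : ℝ) ≤ nn j := by exact_mod_cast hn
    have hr := Real.exp_pos (x.lr j k)
    have ht := tt_pos j
    have hs : 0 < tt j ^ 18 := by positivity
    have hU : ∀ i, tt j ^ 18 ≤ ‖z - Pot2p x s h i‖ := by
      intro i
      have h1 := hz _ (hl (⟨j, k, i, h.1, h.2⟩, s) rfl rfl rfl)
      have h2 : tt j ≤ _ := hx.Pot2_bet (⟨j, k, i, h.1, h.2⟩, s)
      refine le_trans ?_ h1.le
      change _ ≤ _ / (tt j)⁻¹ ^ 16
      rw [inv_pow, div_inv_eq_mul]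
      calc tt j ^ 18 = tt j ^ 2 * tt j ^ 16 := by ring
        _ ≤ _ := by gcongr
    have hs2 : tt j ^ 18 ≤ Real.exp (x.lr j k) / (10 * nn j) := by
      have h1 : tt j ^ 18 ≤ 1 := pow_le_one₀ ht.le (by linarith [tt_le j])
      have h2 := (hx.Pos_exp hj h.2.le).1
      have h3 := Pot2_n_le j
      have h4 := Pot2_PP_rho j
      refine h1.trans ?_
      rw [le_div_iff₀ (by positivity)]
      linarith
    have h1 := lgs_up hn hr (hx.Pot2_near s hj h) (Pot2_eta j) hs hs2 z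
    have h2 := lgs_lo hn hr (hx.Pot2_near s hj h) (Pot2_eta j) hs hs2 z
    have e : lgs (Pot2p x s h) (tt j ^ 18) z = ∑ i, Real.log ‖z - Pot2p x s h i‖ :=
      Finset.sum_congr rfl fun i _ => by rw [max_eq_left (hU i)]
    have h3 := abs_le.1 (hx.Pot2_rad hj h.2.le ‖z‖)
    have h4 : Real.log (Real.exp (x.lr j k) / tt j ^ 18) ≤ 25 / 16 * ell j + 1 := by
      have h5 := (abs_le.1 (hx.lr_near hj h.2.le)).2
      have h6 : 1 / (1000 * (nn j : ℝ)) ≤ 1 := by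
        rw [div_le_one (by positivity)]
        linarith
      have h7 := ell_eq j
      rw [Real.log_inv] at h7
      rw [Real.log_div hr.ne' hs.ne', Real.log_exp, Real.log_pow]
      push_cast
      linarith
    rw [Pot2_D_eq x s h fun i => hs.trans_le (hU i), ← e]
    constructor <;> linarith
  · rw [Pot2D, dif_neg h]
    constructor <;> linarith

theorem fl_low {j i : ℕ} (hj : 1 ≤ j) (h1 : 1 ≤ i) (h2 : i ≤ NN j) {z : ℂ}
    (hz : z ∈ frm.U x.dat (bs j + i - 1)) :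
    x.VV j i + nn j * (al j i - ap j (i - 1)) * Real.log (max ‖z‖ (rho j) / rho j) -
      po j i * Real.log (‖z‖ / rho j) - pj j * ell j / 1000 ≤ x.fl j i z := by
  rw [Pot2_fl x h1 h2]
  have a1 := (hx.Pot2_D_U false hj i hz fun e e1 e2 e3 =>
    (mem_sides_wall h1 h2 e).2 (.inl ⟨e1, by simp [e2, e3]⟩)).1
  have b1 := (hx.Pot2_D_U true hj (i - 1) hz fun e e1 e2 e3 =>
    (mem_sides_wall h1 h2 e).2 (.inl ⟨e1, by simp only [e2, e3, if_true]; omega⟩)).2
  have c1 := al_nonneg j i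
  have c2 := ap_nonneg j (i - 1)
  have c3 := Pot2_al hj i
  have c4 := Pot2_ap hj (i - 1)
  have c5 := pj_pos j
  have c6 := Pot2_ell_ge j
  have d1 : -(al j i * (2 * ell j)) ≤ al j i * Pot2D x false j i z := by nlinarith
  have d2 : ap j (i - 1) * Pot2D x true j (i - 1) z ≤ ap j (i - 1) * 6 := by gcongr
  have d3 : al j i * (2 * ell j) ≤ pj j / 10 ^ 6 * (2 * ell j) := by gcongr
  nlinarith

lemma Pot2_top {j a : ℕ} (h1 : 1 ≤ a) (h2 : a ≤ Mt j) {z : ℂ} (hz : 2 * rho j ≤ ‖z‖) :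
    x.VV j (Lb j + a) - 21 / 100 * pj j * Real.log (‖z‖ / rho j) - pj j / 1000 ≤
      x.fl j (Lb j + a) z ∧ x.fl j (Lb j + a) z ≤ x.VV j (Lb j + a) + pj j / 1000 := by
  have hρ := rho_pos j
  have hl : 0 ≤ Real.log (‖z‖ / rho j) := Real.log_nonneg (by rw [le_div_iff₀ hρ]; linarith)
  rcases Nat.eq_zero_or_pos j with rfl | hj
  · obtain rfl : a = 1 := le_antisymm h2 h1
    have e : pj 0 = 1 := pow_zero _
    change _ ≤ x.fl 0 2 z ∧ x.fl 0 2 z ≤ x.VV 0 2 + _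
    change x.VV 0 2 - _ - _ ≤ _ ∧ _
    rw [hx.fl_zero_two, e]
    constructor <;> linarith
  · have h3 : Lb j + a ≤ NN j := Nat.add_le_add_left h2 _
    have h4 := abs_le.1 (hx.fl_far hj (by omega) h3 (.inr hz))
    rw [top_slope hj (by omega) h3, po_top (by omega), max_eq_left (by linarith)] at h4
    have h5 : 0 ≤ pj j * Real.log (‖z‖ / rho j) := mul_nonneg (pj_pos j).le hl
    constructor <;> linarith [h4.1, h4.2]

lemma Pot2_bot {j a : ℕ} (h1 : 1 ≤ a) (h2 : a ≤ Mt j) {z : ℂ} (hz : ‖z‖ ≤ rho (j + 1) / 2) :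
    |x.fl (j + 1) a z - (x.VV (j + 1) a - po (j + 1) a * Real.log (‖z‖ / rho (j + 1)))| ≤
      pj j / 1000 := by
  have hρ := rho_pos (j + 1)
  have h3 : a ≤ NN (j + 1) := h2.trans (Nat.le_add_right _ _)
  have h4 := hx.fl_far (by omega) h1 h3 (.inl hz)
  rw [max_eq_right (by linarith), div_self hρ.ne', Real.log_one, mul_zero, add_zero] at h4
  have e : pj (j + 1) = pj j * (23 / 100) := pow_succ _ _
  have := pj_pos j
  linarith

theorem ann_in {j a : ℕ} (h1 : 1 ≤ a) (h2 : a ≤ Mt j) {z : ℂ} (hz1 : 2 * rho j ≤ ‖z‖)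
    (hz2 : ‖z‖ ≤ 4 * rho j) : x.fl j (Lb j + a) z + pj j ≤ x.fl (j + 1) a z := by
  have hρ := rho_pos j
  have h8 := Pot2_rho_succ j
  have a1 := (hx.Pot2_top h1 h2 hz1).2
  have a2 := (abs_le.1 (hx.Pot2_bot h1 h2 (z := z) (by linarith))).1
  have a3 := (abs_le.1 (hx.VV_diff h1 h2)).2
  have a4 := (po_bot (j := j + 1) (by omega) h1 h2).1
  have e : pj (j + 1) = pj j * (23 / 100) := pow_succ _ _
  have c5 := pj_pos j
  have c6 := Pot2_ell_ge j
  have a5 : Real.log (‖z‖ / rho (j + 1)) ≤ 3 - 3 * ell j := by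
    have b1 : Real.log ‖z‖ ≤ Real.log (4 * rho j) := Real.log_le_log (by linarith) hz2
    have b2 := Real.log_le_sub_one_of_pos (show (0 : ℝ) < 4 by norm_num)
    have b3 := ell_succ j
    rw [Real.log_mul (by norm_num) hρ.ne'] at b1
    rw [Real.log_div (by linarith) (by linarith)]
    unfold ell at b3 ⊢
    linarith
  have a6 : 99 / 100 * pj (j + 1) * (3 * ell j - 3) ≤
      po (j + 1) a * -Real.log (‖z‖ / rho (j + 1)) :=
    mul_le_mul a4 (by linarith) (by linarith) (by linarith)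
  rw [e] at a6
  nlinarith

theorem ann_out {j a : ℕ} (h1 : 1 ≤ a) (h2 : a ≤ Mt j) {z : ℂ} (hz1 : rho (j + 1) / 4 ≤ ‖z‖)
    (hz2 : ‖z‖ ≤ rho (j + 1) / 2) : x.fl (j + 1) a z + pj j ≤ x.fl j (Lb j + a) z := by
  have hρ := rho_pos j
  have h8 := Pot2_rho_succ j
  have a1 := (hx.Pot2_top h1 h2 (z := z) (by linarith)).1
  have a2 := (abs_le.1 (hx.Pot2_bot h1 h2 hz2)).2
  have a3 := (abs_le.1 (hx.VV_diff h1 h2)).1
  obtain ⟨a4, a4'⟩ := po_bot (j := j + 1) (by omega) h1 h2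
  have e : pj (j + 1) = pj j * (23 / 100) := pow_succ _ _
  have c5 := pj_pos j
  have c6 := Pot2_ell_ge j
  have b3 := ell_succ j
  have a5 : -Real.log (‖z‖ / rho (j + 1)) ≤ 3 := by
    have b1 : Real.log (rho (j + 1) / 4) ≤ Real.log ‖z‖ := Real.log_le_log (by linarith) hz1
    have b2 := Real.log_le_sub_one_of_pos (show (0 : ℝ) < 4 by norm_num)
    rw [Real.log_div (by linarith) (by norm_num)] at b1
    rw [Real.log_div (by linarith) (by linarith)]
    linarith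
  have a6 : Real.log (‖z‖ / rho j) ≤ 3 * ell j := by
    have b1 : Real.log ‖z‖ ≤ Real.log (rho (j + 1)) := Real.log_le_log (by linarith) (by linarith)
    rw [Real.log_div (by linarith) hρ.ne']
    unfold ell at b3 ⊢
    linarith
  have a7 : po (j + 1) a * -Real.log (‖z‖ / rho (j + 1)) ≤ pj (j + 1) * 3 :=
    (mul_le_mul_of_nonneg_left a5 (by linarith)).trans (by linarith)
  have a8 : pj j * Real.log (‖z‖ / rho j) ≤ pj j * (3 * ell j) := by gcongr
  rw [e] at a7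
  nlinarith

end InK

end Pool.Agent.MP_943ae2_gt
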