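import Pool.Agent.MP_943ae2_gt.Four

open Set Complex Filter Finset
open scoped Topology ComplexConjugate ContDiff

noncomputable section

namespace Pool.Agent.MP_943ae2_gt

variable {w : Wall} {n : ℕ} [NeZero n] {ξ : ℕ → ZMod n → ℂ} {ε : ℕ → ZMod n → ℝ} {P : ℝ}

theorem w1_p_zero (k : ℕ) (i : ZMod n) : w.p n 0 k i = w.p0 n k i := by simp [Wall.p]

omit [NeZero n] in
theorem w1_bq_zero (k : ℕ) (i : ZMod n) : w.bq n 0 k i = w.c k := by simp [Wall.bq]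

theorem w1_norm_p0 (k : ℕ) (i : ZMod n) : ‖w.p0 n k i‖ = Real.exp (w.lr k) := by
  rw [Wall.p0, norm_mul, norm_un, mul_one, Complex.norm_real,
    Real.norm_of_nonneg (Real.exp_pos _).le]

theorem w1_p0_ne (k : ℕ) (i : ZMod n) : w.p0 n k i ≠ 0 :=
  norm_pos_iff.1 (by rw [w1_norm_p0]; exact Real.exp_pos _)

theorem w1_zpow (y : ℝ) :
    (((Real.exp (-y / n) : ℝ) : ℂ) * ze n) ^ n = ((-Real.exp (-y) : ℝ) : ℂ) := by
  have hn : (n : ℝ) ≠ 0 := Nat.cast_ne_zero.2 (NeZero.ne n)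
  rw [mul_pow, ze_pow, ← Complex.ofReal_pow, ← Real.exp_nat_mul, mul_div_cancel₀ _ hn]
  push_cast
  ring

theorem w1_zpow_ne (y : ℝ) : (((Real.exp (-y / n) : ℝ) : ℂ) * ze n) ^ n ≠ 1 := by
  rw [w1_zpow, ← Complex.ofReal_one, Ne, Complex.ofReal_inj]
  linarith [Real.exp_pos (-y)]

theorem w1_sum_z (y : ℝ) :
    ∑ j : ZMod n, kap (((Real.exp (-y / n) : ℝ) : ℂ) * (ze n * ZMod.stdAddChar j)) =
      ((n * th y : ℝ) : ℂ) := by
  have h := sum_kap n (w1_zpow_ne (n := n) y) (Nat.pos_of_ne_zero (NeZero.ne n)) le_rfl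
  simp only [chi_pow, one_mul, Nat.sub_self, pow_zero, mul_one, w1_zpow] at h
  simp only [← mul_assoc]
  rw [h, th]
  push_cast
  ring

theorem w1_sum_up (k : ℕ) (i : ZMod n) :
    ∑ j, kap (w.p0 n (k + 1) j / w.p0 n k i) = ((n * th (w.y n k) : ℝ) : ℂ) := by
  simp only [p0_div_cross]
  rw [← w1_sum_z]
  exact Fintype.sum_equiv (Equiv.subRight i) _ _ fun j => rfl

theorem w1_kap_inv {l : ℂ} (h0 : l ≠ 0) (h1 : l ≠ 1) : kap l⁻¹ = 1 - kap l := by
  have h2 : 1 - l ≠ 0 := sub_ne_zero.2 h1.symm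
  have h3 : l - 1 ≠ 0 := sub_ne_zero.2 h1
  unfold kap
  rw [show 1 - l⁻¹ = (l - 1) / l by field_simp]
  field_simp
  ring

theorem w1_cross_ne (k : ℕ) (i j : ZMod n) : w.p0 n (k + 1) j / w.p0 n k i ≠ 1 := by
  intro h
  have h2 := congrArg (· ^ n) h
  simp only [p0_div_cross, ← mul_assoc, one_pow] at h2
  rw [mul_pow, chi_pow, mul_one] at h2
  exact w1_zpow_ne _ h2

theorem w1_sum_down (k : ℕ) (i : ZMod n) :
    ∑ j, kap (w.p0 n k j / w.p0 n (k + 1) i) = ((n * (1 - th (w.y n k)) : ℝ) : ℂ) := by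
  have e : ∀ j, kap (w.p0 n k j / w.p0 n (k + 1) i) = 1 - kap (w.p0 n (k + 1) i / w.p0 n k j) :=
    fun j => by
      rw [← w1_kap_inv (div_ne_zero (w1_p0_ne _ _) (w1_p0_ne _ _)) (w1_cross_ne k j i), inv_div]
  have e2 : ∑ j, kap (w.p0 n (k + 1) i / w.p0 n k j) = ((n * th (w.y n k) : ℝ) : ℂ) := by
    simp only [p0_div_cross]
    rw [← w1_sum_z]
    exact Fintype.sum_equiv (Equiv.subLeft i) _ _ fun j => rfl
  simp only [e]
  rw [sum_sub_distrib, e2, sum_const, card_univ, ZMod.card]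
  push_cast
  ring

theorem w1_sum_same (k : ℕ) (i : ZMod n) :
    ∑ j ∈ univ.erase i, kap (w.p0 n k j / w.p0 n k i) = (n - 1) / 2 := by
  simp only [p0_div_same]
  rw [← sum_kap_same n k i]
  simp only [un_div]

theorem Fw_zero {k : ℕ} (hk : 1 ≤ k) (i : ZMod n) : w.Fw n 0 0 k i = w.Em n k := by
  obtain ⟨k, rfl⟩ : ∃ m, k = m + 1 := ⟨k - 1, by omega⟩
  unfold Wall.Fw Wall.Em
  simp only [w1_p_zero, w1_bq_zero, ← mul_sum, Nat.add_sub_cancel]
  rw [w1_sum_same, w1_sum_up, w1_sum_down]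
  push_cast
  ring

theorem w1_log_same (k : ℕ) (i : ZMod n) :
    ∑ j ∈ univ.erase i, Real.log ‖w.p0 n k i - w.p0 n k j‖ = (n - 1) * w.lr k + Real.log n := by
  have hn : (0 : ℝ) < n := Nat.cast_pos.2 (Nat.pos_of_ne_zero (NeZero.ne n))
  have e : ∀ j ∈ univ.erase i, Real.log ‖w.p0 n k i - w.p0 n k j‖ =
      w.lr k + Real.log ‖un n k i - un n k j‖ := by
    intro j hj
    have h1 := sep_same n k (ne_of_mem_erase hj)
    have h2 : 0 < ‖un n k i - un n k j‖ := lt_of_lt_of_le (by positivity) h1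
    rw [Wall.p0, Wall.p0, ← mul_sub, norm_mul, Complex.norm_real,
      Real.norm_of_nonneg (Real.exp_pos _).le, Real.log_mul (Real.exp_pos _).ne' h2.ne',
      Real.log_exp]
  rw [sum_congr rfl e, sum_add_distrib, sum_log_same, sum_const, card_erase_of_mem (mem_univ i),
    card_univ, ZMod.card, nsmul_eq_mul, Nat.cast_pred (Nat.pos_of_ne_zero (NeZero.ne n))]

theorem w1_log_cross {k k' : ℕ} (h : (-1 : ℂ) ^ k' = -(-1) ^ k) (i : ZMod n) :
    ∑ j, Real.log ‖w.p0 n k i - w.p0 n k' j‖ =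
      n * w.lr k + Real.log (1 + Real.exp (n * (w.lr k' - w.lr k))) := by
  have e1 : w.p0 n k i ^ n - (((Real.exp (w.lr k') : ℝ) : ℂ) * ze n ^ k') ^ n =
      (-1) ^ k * ((Real.exp (n * w.lr k) * (1 + Real.exp (n * (w.lr k' - w.lr k))) : ℝ) : ℂ) := by
    rw [Wall.p0, mul_pow, mul_pow, un_pow, ← pow_mul, mul_comm k' n, pow_mul, ze_pow, h,
      ← Complex.ofReal_pow, ← Complex.ofReal_pow, ← Real.exp_nat_mul, ← Real.exp_nat_mul,
      mul_add (Real.exp _), ← Real.exp_add, mul_one,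
      show n * w.lr k + n * (w.lr k' - w.lr k) = n * w.lr k' by ring, Complex.ofReal_add]
    ring
  have hpos : 0 < Real.exp (n * w.lr k) * (1 + Real.exp (n * (w.lr k' - w.lr k))) := by positivity
  have e2 : ‖w.p0 n k i ^ n - (((Real.exp (w.lr k') : ℝ) : ℂ) * ze n ^ k') ^ n‖ =
      Real.exp (n * w.lr k) * (1 + Real.exp (n * (w.lr k' - w.lr k))) := by
    rw [e1, norm_mul, norm_pow, norm_neg, norm_one, one_pow, one_mul, Complex.norm_real,
      Real.norm_of_nonneg hpos.le]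
  have hne : w.p0 n k i ^ n ≠ (((Real.exp (w.lr k') : ℝ) : ℂ) * ze n ^ k') ^ n :=
    sub_ne_zero.1 (norm_pos_iff.1 (e2 ▸ hpos))
  have h2 := sum_log_ring n hne
  rw [e2, Real.log_mul (Real.exp_pos _).ne' (by positivity), Real.log_exp] at h2
  rw [← h2]
  refine sum_congr rfl fun j _ => ?_
  rw [Wall.p0.eq_1 w n k' j, un, mul_assoc]

theorem Dw_zero {k : ℕ} (hk : 1 ≤ k) (i : ZMod n) : w.Dw n 0 0 k i = w.Ds n k := by
  obtain ⟨k, rfl⟩ : ∃ m, k = m + 1 := ⟨k - 1, by omega⟩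
  have hn : (n : ℝ) ≠ 0 := Nat.cast_ne_zero.2 (NeZero.ne n)
  unfold Wall.Dw Wall.Ds Wall.y
  simp only [w1_p_zero, w1_bq_zero, ← mul_sum, Nat.add_sub_cancel]
  rw [w1_log_same, w1_log_cross (k' := k + 1 + 1) (by rw [pow_succ]; ring),
    w1_log_cross (k' := k) (by rw [pow_succ]; ring), w1_norm_p0, Real.log_exp,
    show -(n * (w.lr (k + 1) - w.lr (k + 1 + 1))) = n * (w.lr (k + 1 + 1) - w.lr (k + 1)) by ring]
  rcases eq_or_ne (w.c (k + 1)) 0 with h0 | h0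
  · rw [h0]; ring
  · rw [Real.log_mul hn h0]; ring

/-- the signed sum over the neighbours -/
def w1A (T : ℕ → ZMod n → ℕ → ZMod n → ℝ) (k : ℕ) (i : ZMod n) : ℝ :=
  2 * ∑ j ∈ univ.erase i, T k i k j - ∑ j, T k i (k + 1) j - ∑ j, T k i (k - 1) j

theorem w1A_add (T T' : ℕ → ZMod n → ℕ → ZMod n → ℝ) (k : ℕ) (i : ZMod n) :
    w1A (fun a b c d => T a b c d + T' a b c d) k i = w1A T k i + w1A T' k i := by
  simp only [w1A, sum_add_distrib]
  ring

theorem w1_shift (U : ℕ → ℝ) (N : ℕ) (h1 : U 1 = 0) (hN : U N = 0) :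
    ∑ k ∈ Ico 1 N, U k = ∑ k ∈ Ico 1 N, U (k + 1) := by
  have key : ∀ M, 1 ≤ M → ∑ k ∈ Ico 1 M, U k + U M = ∑ k ∈ Ico 1 M, U (k + 1) + U 1 := by
    intro M hM
    induction M, hM using Nat.le_induction with
    | base => simp
    | succ M hM ih => rw [sum_Ico_succ_top hM, sum_Ico_succ_top hM]; linarith
  rcases Nat.eq_zero_or_pos N with rfl | h
  · simp
  · have := key N h
    linarith

theorem w1_canon (T : ℕ → ZMod n → ℕ → ZMod n → ℝ) (N : ℕ) (h1 : ∀ i j, T 1 i 0 j = 0)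
    (hN : ∀ i j, T N i (N - 1) j = 0) :
    ∑ k ∈ Ico 1 N, ∑ i, w1A T k i = ∑ k ∈ Ico 1 N,
      (∑ i, ∑ j ∈ univ.erase i, (T k i k j + T k j k i) -
        ∑ i, ∑ j, (T k i (k + 1) j + T (k + 1) j k i)) := by
  have s1 := w1_shift (fun k => ∑ i, ∑ j, T k i (k - 1) j) N (by simp [h1]) (by simp [hN])
  have s2 : ∀ k, ∑ i, ∑ j ∈ univ.erase i, T k j k i = ∑ i, ∑ j ∈ univ.erase i, T k i k j :=
    fun k => sum_comm' fun x y => by simp [eq_comm]
  have s3 : ∀ k, ∑ i, ∑ j, T (k + 1) j k i = ∑ i, ∑ j, T (k + 1) i k j := fun k => sum_comm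
  simp only [Nat.add_sub_cancel] at s1
  simp only [w1A, sum_add_distrib, sum_sub_distrib, ← mul_sum, s2, s3, s1]
  ring

theorem w1_M_inv {l : ℂ} (h0 : l ≠ 0) : l⁻¹ * kap l⁻¹ ^ 2 = l * kap l ^ 2 := by
  by_cases h1 : l = 1
  · rw [h1, inv_one]
  · have h2 : 1 - l ≠ 0 := sub_ne_zero.2 (Ne.symm h1)
    rw [w1_kap_inv h0 h1]
    unfold kap
    field_simp
    ring

variable (w ξ ε) in
/-- the quadratic term plus an antisymmetric term -/
def w1D (k : ℕ) (i : ZMod n) (k' : ℕ) (j : ZMod n) : ℝ :=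
  w.c k * w.c k' * (conj (ξ k i) * (w.p0 n k' j / w.p0 n k i *
      kap (w.p0 n k' j / w.p0 n k i) ^ 2 * (ξ k' j - ξ k i))).re +
    ε k i * w.c k' * (kap (w.p0 n k i / w.p0 n k' j) * ξ k' j).re -
    ε k' j * w.c k * (kap (w.p0 n k' j / w.p0 n k i) * ξ k i).re

theorem w1D_sym (k : ℕ) (i : ZMod n) (k' : ℕ) (j : ZMod n) :
    w1D w ξ ε k i k' j + w1D w ξ ε k' j k i =
      w.c k * w.c k' * (Wall.KK (w.p0 n k' j / w.p0 n k i) * ((ξ k' j).re - (ξ k i).re) ^ 2) +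
      w.c k * w.c k' * (Wall.KK (w.p0 n k' j / w.p0 n k i) * ((ξ k' j).im - (ξ k i).im) ^ 2) := by
  have h := w1_M_inv (div_ne_zero (w1_p0_ne (w := w) k' j) (w1_p0_ne (w := w) k i))
  rw [inv_div] at h
  unfold w1D Wall.KK
  rw [h]
  generalize w.p0 n k' j / w.p0 n k i * kap (w.p0 n k' j / w.p0 n k i) ^ 2 = M
  simp only [mul_re, mul_im, sub_re, sub_im, conj_re, conj_im]
  ring

theorem w1_point {k : ℕ} (hk : 1 ≤ k) (i : ZMod n) :
    w.c k * (conj (ξ k i) * w.LF n ξ ε k i).re - ε k i * w.LD n ξ ε k i =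
      w1A (w1D w ξ ε) k i -
      ε k i * (-2 * (Real.log (w.c k) + 1) * ε k i -
        2 * ∑ j ∈ univ.erase i, ε k j * Real.log ‖w.p0 n k i - w.p0 n k j‖ +
        ∑ j, ε (k + 1) j * Real.log ‖w.p0 n k i - w.p0 n (k + 1) j‖ +
        ∑ j, ε (k - 1) j * Real.log ‖w.p0 n k i - w.p0 n (k - 1) j‖) +
      2 * w.c k * (ξ k i).re *
        (2 * ∑ j ∈ univ.erase i, ε k j * (kap (w.p0 n k j / w.p0 n k i)).re -
          ∑ j, ε (k + 1) j * (kap (w.p0 n (k + 1) j / w.p0 n k i)).re -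
          ∑ j, ε (k - 1) j * (kap (w.p0 n (k - 1) j / w.p0 n k i)).re) +
      ε k i * (w.Em n k * (ξ k i).re) := by
  have ea : w.c k * (conj (ξ k i) * w.LF n ξ ε k i).re =
      w1A (fun a b c d => w.c a * (conj (ξ a b) * w.lf n ξ ε a b c d).re) k i := by
    unfold w1A Wall.LF
    simp only [← mul_sum, ← re_sum]
    simp only [mul_re, sub_re, sub_im, mul_im, re_ofNat, im_ofNat]
    ring
  have eb : w1A (fun a b c d => ε a b * w.ld n ξ ε a b c d) k i =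
      ε k i * (2 * ∑ j ∈ univ.erase i, w.ld n ξ ε k i k j - ∑ j, w.ld n ξ ε k i (k + 1) j -
        ∑ j, w.ld n ξ ε k i (k - 1) j) := by
    unfold w1A
    simp only [← mul_sum]
    ring
  have ec : w1A (fun a b c d => ε a b * (ε c d * Real.log ‖w.p0 n a b - w.p0 n c d‖)) k i =
      ε k i * (2 * ∑ j ∈ univ.erase i, ε k j * Real.log ‖w.p0 n k i - w.p0 n k j‖ -
        ∑ j, ε (k + 1) j * Real.log ‖w.p0 n k i - w.p0 n (k + 1) j‖ -
        ∑ j, ε (k - 1) j * Real.log ‖w.p0 n k i - w.p0 n (k - 1) j‖) := by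
    unfold w1A
    simp only [← mul_sum]
    ring
  have ed : w1A (fun a b c d => 2 * w.c a * (ξ a b).re *
      (ε c d * (kap (w.p0 n c d / w.p0 n a b)).re)) k i = 2 * w.c k * (ξ k i).re *
        (2 * ∑ j ∈ univ.erase i, ε k j * (kap (w.p0 n k j / w.p0 n k i)).re -
          ∑ j, ε (k + 1) j * (kap (w.p0 n (k + 1) j / w.p0 n k i)).re -
          ∑ j, ε (k - 1) j * (kap (w.p0 n (k - 1) j / w.p0 n k i)).re) := by
    unfold w1A
    simp only [← mul_sum]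
    ring
  have ee : ε k i * (w.Em n k * (ξ k i).re) = w1A (fun a b c d =>
      ε a b * (ξ a b * ((w.c c : ℂ) * kap (w.p0 n c d / w.p0 n a b))).re) k i +
        ε k i * (w.g k * (ξ k i).re) := by
    have h1 : w.Em n k * (ξ k i).re = (ξ k i * w.Fw n 0 0 k i).re := by
      rw [Fw_zero hk, mul_re, ofReal_re, ofReal_im]; ring
    rw [h1]
    unfold w1A Wall.Fw
    simp only [w1_p_zero, w1_bq_zero, ← mul_sum, ← re_sum]
    simp only [mul_re, sub_re, sub_im, add_re, add_im, mul_im, re_ofNat, im_ofNat, ofReal_re,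
      ofReal_im]
    ring
  have ef : w1A (fun a b c d => w.c a * (conj (ξ a b) * w.lf n ξ ε a b c d).re +
      ε a b * w.ld n ξ ε a b c d) k i = w1A (fun a b c d => w1D w ξ ε a b c d +
        ε a b * (ε c d * Real.log ‖w.p0 n a b - w.p0 n c d‖) +
        2 * w.c a * (ξ a b).re * (ε c d * (kap (w.p0 n c d / w.p0 n a b)).re) +
        ε a b * (ξ a b * ((w.c c : ℂ) * kap (w.p0 n c d / w.p0 n a b))).re) k i := by
    congr 1
    funext a b c d
    unfold w1D Wall.lf Wall.ld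
    generalize w.p0 n c d / w.p0 n a b * kap (w.p0 n c d / w.p0 n a b) ^ 2 = M
    simp only [mul_re, mul_im, sub_re, sub_im, add_re, add_im, conj_re, conj_im, ofReal_re,
      ofReal_im]
    ring
  rw [w1A_add, w1A_add, w1A_add, w1A_add, ← ea, eb, ec, ed] at ef
  rw [ee]
  unfold Wall.LD
  linear_combination ef

theorem pair_lin (hb : w.Bd n P) (hξ : ∀ k i, (k = 0 ∨ w.N ≤ k) → ξ k i = 0)
    (hε : ∀ k i, (k = 0 ∨ w.N ≤ k) → ε k i = 0) :
    w.pair n ξ ε (w.LF n ξ ε) (w.LD n ξ ε) =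
      -w.Sq n (fun k i => (ξ k i).re) - w.Sq n (fun k i => (ξ k i).im) - w.Hq n ε +
        w.Xq n ε (fun k i => (ξ k i).re) +
        ∑ k ∈ Ico 1 w.N, ∑ i, ε k i * (w.Em n k * (ξ k i).re) := by
  have h1 := w1_canon (w1D w ξ ε) w.N
    (fun i j => by simp [w1D, hb.c_zero, hε 0 j (Or.inl rfl), hξ 0 j (Or.inl rfl)])
    (fun i j => by simp [w1D, hb.c_out w.N le_rfl, hε w.N i (Or.inr le_rfl)])
  have h2 : ∑ k ∈ Ico 1 w.N, ∑ i, w1A (w1D w ξ ε) k i =
      -w.Sq n (fun k i => (ξ k i).re) - w.Sq n (fun k i => (ξ k i).im) := by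
    rw [h1]
    unfold Wall.Sq
    rw [← sum_neg_distrib, ← sum_sub_distrib]
    refine sum_congr rfl fun k _ => ?_
    simp only [w1D_sym, sum_add_distrib, ← mul_sum]
    ring
  rw [← h2]
  unfold Wall.pair Wall.Hq Wall.Xq
  rw [← sum_sub_distrib, ← sum_add_distrib, ← sum_add_distrib]
  refine sum_congr rfl fun k hk => ?_
  rw [← sum_sub_distrib, ← sum_add_distrib, ← sum_add_distrib]
  exact sum_congr rfl fun i _ => w1_point (mem_Ico.1 hk).1 i

end Pool.Agent.MP_943ae2_gt
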