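import Pool.Agent.MP_943ae2_gt.Pot1
import Pool.Agent.MP_943ae2_gt.AdmM
import Pool.Agent.MP_943ae2_gt.W1

open Set Complex Filter Finset
open scoped Topology ComplexConjugate ContDiff

noncomputable section

namespace Pool.Agent.MP_943ae2_gt

lemma Pot3_log_real {a b δ : ℝ} (hb : 0 < b) (hδ : δ ≤ 1 / 2) (h : |a - b| ≤ δ * b) :
    0 < a ∧ |Real.log a - Real.log b| ≤ 2 * δ := by
  obtain ⟨h1, h2⟩ := abs_le.1 h
  have h0 : 0 ≤ δ := by
    by_contra hc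
    have := mul_neg_of_neg_of_pos (not_le.1 hc) hb
    linarith
  have h3 : δ * b ≤ 1 / 2 * b := mul_le_mul_of_nonneg_right hδ hb.le
  have ha : 0 < a := by linarith
  refine ⟨ha, abs_le.2 ⟨?_, ?_⟩⟩
  · have h4 := Real.log_le_sub_one_of_pos (div_pos hb ha)
    rw [Real.log_div hb.ne' ha.ne'] at h4
    have h5 : b / a ≤ 1 + 2 * δ := by
      rw [div_le_iff₀ ha]
      have h6 : δ * b ≤ δ * (2 * a) := mul_le_mul_of_nonneg_left (by linarith) h0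
      linarith
    linarith
  · have h4 := Real.log_le_sub_one_of_pos (div_pos ha hb)
    rw [Real.log_div ha.ne' hb.ne'] at h4
    have h5 : a / b ≤ 1 + δ := by
      rw [div_le_iff₀ hb]
      linarith
    linarith

/-- the size of the termwise error -/
def Pot3_E (j : ℕ) : ℝ := 10 * nn j * tt j ^ 3

lemma Pot3_E_nonneg (j : ℕ) : 0 ≤ Pot3_E j := by
  have := tt_pos j
  unfold Pot3_E
  positivity

lemma Pot3_log (j : ℕ) {a b : ℂ} (hd : ‖a - b‖ ≤ 5 * tt j ^ 3 * rho j) (hb : rho j / nn j ≤ ‖b‖) :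
    |Real.log (‖a‖ / rho j) - (Real.log ‖b‖ - ell j)| ≤ Pot3_E j := by
  have hn := Mac2_nn_pos j
  have hr := rho_pos j
  have ht := tt_pos j
  have hc := admM_cube j
  have hb0 : 0 < ‖b‖ := lt_of_lt_of_le (by positivity) hb
  have h1 : |‖a‖ - ‖b‖| ≤ 5 * nn j * tt j ^ 3 * ‖b‖ := by
    refine (abs_norm_sub_norm_le a b).trans (hd.trans ?_)
    calc 5 * tt j ^ 3 * rho j = 5 * nn j * tt j ^ 3 * (rho j / nn j) := by field_simp
      _ ≤ _ := by gcongr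
  obtain ⟨ha, h2⟩ := Pot3_log_real hb0 (by linarith) h1
  rw [Real.log_div ha.ne' hr.ne']
  have e : Real.log ‖a‖ - Real.log (rho j) - (Real.log ‖b‖ - ell j) =
      Real.log ‖a‖ - Real.log ‖b‖ := by
    unfold ell
    ring
  rw [e, Pot3_E]
  linarith

lemma Pot3_R (e : Nk × Bool) : frm.R e ≤ tt e.1.j ^ 3 * rho e.1.j / 2 := by
  change (tt e.1.j)⁻¹ ^ 16 ≤ tt e.1.j ^ 3 * (tt e.1.j)⁻¹ ^ 32 / 2
  have ht := tt_pos e.1.j
  have h1 := tt_le e.1.j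
  generalize tt e.1.j = t at ht h1
  have e1 : t ^ 3 * t⁻¹ ^ 32 / 2 = t⁻¹ ^ 16 * (t⁻¹ ^ 13 / 2) := by field_simp
  have h2 : (2 : ℝ) ≤ t⁻¹ := by
    rw [le_inv_comm₀ (by norm_num) ht]
    linarith
  have h3 : t⁻¹ ≤ t⁻¹ ^ 13 := le_self_pow₀ (by linarith) (by norm_num)
  rw [e1]
  exact le_mul_of_one_le_right (by positivity) (by linarith)

lemma Pot3_sum {ι : Type} (S : Finset ι) (f g : ι → ℝ) {E n : ℝ} (hE : 0 ≤ E)
    (hn : (S.card : ℝ) ≤ n) (h : ∀ i ∈ S, |f i - g i| ≤ E) :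
    |∑ i ∈ S, f i - ∑ i ∈ S, g i| ≤ n * E := by
  rw [← sum_sub_distrib]
  refine (abs_sum_le_sum_abs _ _).trans ((sum_le_card_nsmul _ _ _ h).trans ?_)
  rw [nsmul_eq_mul]
  exact mul_le_mul_of_nonneg_right hn hE

lemma Pot3_po {j i : ℕ} (h1 : 1 ≤ i) : |po j i| ≤ pj j := by
  have hp := pj_pos j
  rcases Nat.eq_zero_or_pos j with rfl | hj
  · rw [po_zero, abs_zero]
    exact hp.le
  rcases le_or_gt i (Lb j) with h | h
  · obtain ⟨a, b⟩ := po_bot hj h1 h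
    rw [abs_of_nonneg (by linarith)]
    exact b
  · rw [po_top h, abs_zero]
    exact hp.le

lemma Pot3_Lb (j : ℕ) : (Lb j : ℝ) ≤ PP j := by
  have h1 := Mac2_NN_le j
  have h2 := Mac2_NN j
  have h3 := Mac2_Mt_one j
  linarith

lemma Pot3_cube (j : ℕ) : PP j ^ 3 * tt j ^ 3 ≤ 1 / 10 ^ 6 := by
  have h1 := admM_pow_tt j (m := 3) (by norm_num)
  have h2 := tt_le j
  have h3 := tt_pos j
  have h4 : tt j ^ 2 ≤ (1 / 1000) ^ 2 := pow_le_pow_left₀ h3.le h2 2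
  have h5 : 0 ≤ PP j ^ 3 * tt j := by
    have := admM_PP_pos j
    positivity
  calc PP j ^ 3 * tt j ^ 3 = (PP j ^ 3 * tt j) * tt j ^ 2 := by ring
    _ ≤ 1 * (1 / 1000) ^ 2 := by gcongr
    _ = _ := by norm_num

/-- the total error -/
lemma Pot3_total (ν : Nk) {a b c A B C : ℝ} (ha : |a| ≤ 2 * Lb ν.j * pj ν.j / nn ν.j)
    (hb : |b| ≤ 2 * Lb ν.j * pj ν.j / nn ν.j) (hc : |c| ≤ pj ν.j)
    (hA : |A| ≤ nn ν.j * Pot3_E ν.j) (hB : |B| ≤ nn ν.j * Pot3_E ν.j) (hC : |C| ≤ Pot3_E ν.j) :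
    |a * A + b * B + c * C| ≤ dl ν := by
  have hn := Mac2_nn_pos ν.j
  have hp := pj_pos ν.j
  have hE := Pot3_E_nonneg ν.j
  have hL := Mac2_Lb_one ν.j
  have h1 : |a * A| ≤ 2 * Lb ν.j * pj ν.j / nn ν.j * (nn ν.j * Pot3_E ν.j) := by
    rw [abs_mul]; gcongr
  have h2 : |b * B| ≤ 2 * Lb ν.j * pj ν.j / nn ν.j * (nn ν.j * Pot3_E ν.j) := by
    rw [abs_mul]; gcongr
  have h3 : |c * C| ≤ pj ν.j * Pot3_E ν.j := by
    rw [abs_mul]; gcongr
  have h4 : 2 * Lb ν.j * pj ν.j / nn ν.j * (nn ν.j * Pot3_E ν.j) =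
      2 * Lb ν.j * (pj ν.j * Pot3_E ν.j) := by field_simp
  have h5 : pj ν.j * Pot3_E ν.j ≤ Lb ν.j * (pj ν.j * Pot3_E ν.j) :=
    le_mul_of_one_le_left (by positivity) hL
  have h6 : 5 * Lb ν.j * (pj ν.j * Pot3_E ν.j) ≤ dl ν := by
    have c1 := Pot3_cube ν.j
    have c2 := Pot3_Lb ν.j
    have c3 := Mac2_nn_le ν.j
    have ht := tt_pos ν.j
    have c4 : (Lb ν.j : ℝ) * nn ν.j * nn ν.j * tt ν.j ^ 3 ≤ PP ν.j * PP ν.j * PP ν.j * tt ν.j ^ 3 := by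
      have := admM_PP_pos ν.j
      gcongr
    have c5 : (Lb ν.j : ℝ) * nn ν.j * nn ν.j * tt ν.j ^ 3 ≤ 1 / 10 ^ 6 := by
      refine c4.trans (le_of_eq_of_le (by ring) c1)
    have c6 := mul_le_mul_of_nonneg_left c5 hp.le
    rw [dl, Pot3_E, le_div_iff₀ hn]
    linarith
  have h7 := abs_add_three (a * A) (b * B) (c * C)
  linarith

lemma Pot3_al (j k : ℕ) : |al j k| ≤ 2 * Lb j * pj j / nn j := by
  have h1 := al_le j k
  have h2 := al_nonneg j k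
  have e : 2 * Lb j * pj j / nn j = 2 * (Lb j * pj j / nn j) := by ring
  rw [abs_of_nonneg h2, e]
  linarith

lemma Pot3_ap (j k : ℕ) : |-ap j k| ≤ 2 * Lb j * pj j / nn j := by
  rw [abs_neg, abs_of_nonneg (ap_nonneg j k)]
  exact ap_le j k

lemma Pot3_al_zero (k : ℕ) : al 0 k = 0 := by simp [al, Af]

lemma Pot3_ap_zero (j : ℕ) : ap j 0 = 0 := by simp [ap]

lemma Pot3_own (x : Prm) (ν : Nk) (s : Bool) {v : ℂ} (h0 : v ≠ 0) :
    ∑ i, Real.log (‖x.dat.pos (ν, s) + v - x.dat.pos (⟨ν.j, ν.k, i, ν.h1, ν.h2⟩, s)‖ / rho ν.j) =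
      (Real.log ‖v‖ - ell ν.j) + ∑ i ∈ univ.erase ν.i,
        Real.log (‖x.dat.pos (ν, s) + v - x.dat.pos (⟨ν.j, ν.k, i, ν.h1, ν.h2⟩, s)‖ / rho ν.j) := by
  rw [← add_sum_erase _ _ (mem_univ ν.i)]
  congr 1
  rw [add_sub_cancel_left, Real.log_div (norm_ne_zero_iff.2 h0) (rho_pos _).ne', ell]

lemma Pot3_VV (x : Prm) (ν : Nk) : x.VV ν.j (ν.k + 1) = x.VV ν.j ν.k + x.dV ν.j ν.k := by
  rw [Prm.VV, Prm.VV, sum_Ico_succ_top ν.h1, add_assoc]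

namespace InK

variable {x : Prm} (hx : InK x)
include hx

lemma Pot3_near (e : Nk × Bool) (hj : 1 ≤ e.1.j) :
    ‖x.dat.pos e - (x.wall e.1.j).p0 (nn e.1.j) e.1.k e.1.i‖ ≤
      11 / 5 * (tt e.1.j ^ 3 * rho e.1.j) := by
  refine (hx.pos_near e hj).trans ?_
  have h1 := (hx.admM_rad hj e.1.h2.le).2
  have h2 : 0 ≤ tt e.1.j ^ 3 := (pow_pos (tt_pos _) 3).le
  have h3 := mul_le_mul_of_nonneg_left h1 h2
  linarith

lemma Pot3_pair {j k k' : ℕ} (hj : 1 ≤ j) {h1 : 1 ≤ k} {h2 : k < NN j} {h1' : 1 ≤ k'}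
    {h2' : k' < NN j} (i i' : ZMod (nn j)) (s s' : Bool) {v : ℂ}
    (hv : ‖v‖ ≤ tt j ^ 3 * rho j / 2)
    (hs : rho j / nn j ≤ ‖(x.wall j).p0 (nn j) k i - (x.wall j).p0 (nn j) k' i'‖) :
    |Real.log (‖x.dat.pos (⟨j, k, i, h1, h2⟩, s) + v - x.dat.pos (⟨j, k', i', h1', h2'⟩, s')‖ /
        rho j) -
      (Real.log ‖(x.wall j).p0 (nn j) k i - (x.wall j).p0 (nn j) k' i'‖ - ell j)| ≤ Pot3_E j := by
  refine Pot3_log j ?_ hs
  have a1 := hx.Pot3_near (⟨j, k, i, h1, h2⟩, s) hj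
  have a2 := hx.Pot3_near (⟨j, k', i', h1', h2'⟩, s') hj
  dsimp only at a1 a2
  have h3 : 0 ≤ tt j ^ 3 * rho j := (mul_pos (pow_pos (tt_pos _) 3) (rho_pos _)).le
  generalize x.dat.pos (⟨j, k, i, h1, h2⟩, s) = p at a1 ⊢
  generalize x.dat.pos (⟨j, k', i', h1', h2'⟩, s') = p' at a2 ⊢
  generalize (x.wall j).p0 (nn j) k i = q at a1 ⊢
  generalize (x.wall j).p0 (nn j) k' i' = q' at a2 ⊢
  have e : p + v - p' - (q - q') = (p - q) + v - (p' - q') := by ring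
  have a3 := norm_sub_le ((p - q) + v) (p' - q')
  have a4 := norm_add_le (p - q) v
  rw [e]
  linarith

lemma Pot3_same (ν : Nk) (s : Bool) {v : ℂ} (hv : ‖v‖ ≤ frm.R (ν, s)) :
    |∑ i ∈ univ.erase ν.i,
        Real.log (‖x.dat.pos (ν, s) + v - x.dat.pos (⟨ν.j, ν.k, i, ν.h1, ν.h2⟩, s)‖ / rho ν.j) -
      (Real.log (nn ν.j) + (nn ν.j - 1) * x.xr ν.j ν.k)| ≤ nn ν.j * Pot3_E ν.j := by
  have hv' := hv.trans (Pot3_R _)
  obtain ⟨j, k, i, h1, h2⟩ := ν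
  dsimp only at hv' ⊢
  rcases Nat.eq_zero_or_pos j with rfl | hj
  · have hs : Subsingleton (ZMod (nn 0)) := ZMod.subsingleton_iff.2 nn_zero
    have he : univ.erase i = ∅ := by
      ext a
      simp [Subsingleton.elim a i]
    have hn : ((nn 0 : ℕ) : ℝ) = 1 := by rw [nn_zero, Nat.cast_one]
    rw [he, sum_empty, hn]
    simpa using Pot3_E_nonneg 0
  have hc : ((univ.erase i).card : ℝ) = nn j - 1 := by
    rw [card_erase_of_mem (mem_univ i), card_univ, ZMod.card, Nat.cast_sub NeZero.one_le,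
      Nat.cast_one]
  have h3 := Pot3_sum (univ.erase i) _ (fun i' =>
      Real.log ‖(x.wall j).p0 (nn j) k i - (x.wall j).p0 (nn j) k i'‖ - ell j)
    (Pot3_E_nonneg j) (n := nn j) (by linarith)
    (fun i' hi => hx.Pot3_pair hj (h1 := h1) (h2 := h2) (h1' := h1) (h2' := h2) i i' s s hv'
      (hx.admM_same hj h2.le (ne_of_mem_erase hi)))
  rw [sum_sub_distrib, w1_log_same, sum_const, nsmul_eq_mul, hc] at h3
  have e : Real.log (nn j) + (nn j - 1) * x.xr j k =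
      (nn j - 1) * (x.wall j).lr k + Real.log (nn j) - (nn j - 1) * ell j := by
    change _ = (nn j - 1) * x.lr j k + _ - _
    rw [Prm.xr]
    ring
  rw [e]
  exact h3

lemma Pot3_cross (ν : Nk) (hj : 1 ≤ ν.j) (s s' : Bool) {v : ℂ} (hv : ‖v‖ ≤ frm.R (ν, s)) {k' : ℕ}
    (h1' : 1 ≤ k') (h2' : k' < NN ν.j) (hk : k' = ν.k + 1 ∨ ν.k = k' + 1) :
    |∑ i, Real.log (‖x.dat.pos (ν, s) + v - x.dat.pos (⟨ν.j, k', i, h1', h2'⟩, s')‖ / rho ν.j) -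
      (nn ν.j * x.xr ν.j ν.k + Real.log (1 + Real.exp (nn ν.j * (x.lr ν.j k' - x.lr ν.j ν.k))))| ≤
      nn ν.j * Pot3_E ν.j := by
  have hv' := hv.trans (Pot3_R _)
  obtain ⟨j, k, i, h1, h2⟩ := ν
  dsimp only at hv' hj h2' hk ⊢
  have hc : (((univ : Finset (ZMod (nn j))).card : ℕ) : ℝ) = nn j := by
    rw [card_univ, ZMod.card]
  have hp : (-1 : ℂ) ^ k' = -(-1) ^ k := by
    rcases hk with rfl | rfl
    · rw [pow_succ]; ring
    · rw [pow_succ]; ring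
  have h3 := Pot3_sum (univ : Finset (ZMod (nn j))) _ (fun i' =>
      Real.log ‖(x.wall j).p0 (nn j) k i - (x.wall j).p0 (nn j) k' i'‖ - ell j)
    (Pot3_E_nonneg j) (n := nn j) hc.le
    (fun i' _ => hx.Pot3_pair hj (h1 := h1) (h2 := h2) (h1' := h1') (h2' := h2') i i' s s' hv'
      (by
        rcases hk with rfl | rfl
        · exact hx.admM_cross hj h2'.le i i'
        · rw [norm_sub_rev]
          exact hx.admM_cross hj h2.le i' i))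
  rw [sum_sub_distrib, w1_log_cross hp, sum_const, nsmul_eq_mul, hc] at h3
  have e : nn j * x.xr j k + Real.log (1 + Real.exp (nn j * (x.lr j k' - x.lr j k))) =
      nn j * (x.wall j).lr k +
        Real.log (1 + Real.exp (nn j * ((x.wall j).lr k' - (x.wall j).lr k))) - nn j * ell j := by
    change _ = nn j * x.lr j k + Real.log (1 + Real.exp (nn j * (x.lr j k' - x.lr j k))) - _
    rw [Prm.xr]
    ring
  rw [e]
  exact h3

lemma Pot3_orig (e : Nk × Bool) (hj : 1 ≤ e.1.j) {v : ℂ} (hv : ‖v‖ ≤ frm.R e) :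
    |Real.log (‖x.dat.pos e + v‖ / rho e.1.j) - x.xr e.1.j e.1.k| ≤ Pot3_E e.1.j := by
  have hv' := hv.trans (Pot3_R _)
  have a1 := hx.Pot3_near e hj
  have h3 : 0 ≤ tt e.1.j ^ 3 * rho e.1.j := (mul_pos (pow_pos (tt_pos _) 3) (rho_pos _)).le
  have hn : ‖(x.wall e.1.j).p0 (nn e.1.j) e.1.k e.1.i‖ = Real.exp (x.lr e.1.j e.1.k) :=
    w1_norm_p0 _ _
  have h4 := Pot3_log e.1.j (a := x.dat.pos e + v)
    (b := (x.wall e.1.j).p0 (nn e.1.j) e.1.k e.1.i) (by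
      have a2 := norm_add_le (x.dat.pos e - (x.wall e.1.j).p0 (nn e.1.j) e.1.k e.1.i) v
      rw [sub_add_eq_add_sub] at a2
      linarith) (by
      have a2 := (hx.admM_rad hj e.1.h2.le).1
      have a3 : (2 : ℝ) ≤ nn e.1.j := by
        have := nn_ge hj
        exact_mod_cast le_trans (by norm_num) this
      have a4 := rho_pos e.1.j
      have a5 : rho e.1.j / nn e.1.j ≤ rho e.1.j / 2 := by gcongr
      rw [hn]
      linarith)
  rwa [hn, Real.log_exp] at h4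

theorem fl_lo_neck (ν : Nk) {v : ℂ} (h0 : v ≠ 0) (hv : ‖v‖ ≤ frm.R (ν, false)) :
    |x.fl ν.j ν.k (x.dat.pos (ν, false) + v) - (x.VV ν.j ν.k +
      al ν.j ν.k * (Real.log ‖v‖ - ell ν.j) + x.h1 ν.j ν.k)| ≤ dl ν := by
  have hA := hx.Pot3_same ν false hv
  have hown := Pot3_own x ν false h0
  have hE := Pot3_E_nonneg ν.j
  have hnE : 0 ≤ nn ν.j * Pot3_E ν.j := mul_nonneg (Mac2_nn_pos _).le hE
  have hk := ν.h1
  have hk2 := ν.h2
  obtain ⟨C, hC, eC⟩ : ∃ C, |C| ≤ Pot3_E ν.j ∧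
      po ν.j ν.k * Real.log (‖x.dat.pos (ν, false) + v‖ / rho ν.j) =
        po ν.j ν.k * x.xr ν.j ν.k + po ν.j ν.k * C := by
    rcases Nat.eq_zero_or_pos ν.j with hj | hj
    · refine ⟨0, by simpa using hE, ?_⟩
      have : po ν.j ν.k = 0 := by rw [hj, po_zero]
      simp [this]
    · exact ⟨_, hx.Pot3_orig (ν, false) hj hv, by ring⟩
  obtain ⟨B, hB, eB⟩ : ∃ B, |B| ≤ nn ν.j * Pot3_E ν.j ∧
      ringSum (fun e => (if e.2 then -ap e.1.j e.1.k else al e.1.j e.1.k) *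
        Real.log (‖x.dat.pos (ν, false) + v - x.dat.pos e‖ / rho ν.j)) true ν.j (ν.k - 1) =
        -ap ν.j (ν.k - 1) * (nn ν.j * x.xr ν.j ν.k + Real.log (1 + Real.exp (x.y ν.j (ν.k - 1)))) +
          -ap ν.j (ν.k - 1) * B := by
    by_cases h : 1 ≤ ν.k - 1
    · have h2 : ν.k - 1 < NN ν.j := by omega
      have hj : 1 ≤ ν.j := by
        by_contra hc
        have : ν.j = 0 := by omega
        rw [this, NN_zero] at hk2
        omega
      have h3 := hx.Pot3_cross ν hj false true hv h h2 (.inr (by omega))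
      have h4 : nn ν.j * (x.lr ν.j (ν.k - 1) - x.lr ν.j ν.k) = x.y ν.j (ν.k - 1) := by
        rw [← x.wall_y h, x.Mac1_y, Nat.sub_add_cancel hk]
      rw [h4] at h3
      refine ⟨_, h3, ?_⟩
      rw [ringSum, dif_pos ⟨h, h2⟩]
      simp only [if_true]
      rw [← mul_sum]
      ring
    · have h2 : ν.k - 1 = 0 := by omega
      refine ⟨0, by simpa using hnE, ?_⟩
      rw [ringSum, dif_neg (fun hc => h hc.1), h2, Pot3_ap_zero]
      ring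
  have h5 := Pot3_total ν (Pot3_al ν.j ν.k) (Pot3_ap ν.j (ν.k - 1))
    (c := -po ν.j ν.k) (by rw [abs_neg]; exact Pot3_po hk) hA hB hC
  refine le_of_eq_of_le ?_ h5
  congr 1
  rw [Prm.fl, wallSum, eB, eC, ringSum, dif_pos ⟨hk, hk2⟩]
  simp only [Bool.false_eq_true, if_false]
  rw [← mul_sum, hown, Prm.h1]
  ring

theorem fl_up_neck (ν : Nk) {v : ℂ} (h0 : v ≠ 0) (hv : ‖v‖ ≤ frm.R (ν, true)) :
    |x.fl ν.j (ν.k + 1) (x.dat.pos (ν, true) + v) - (x.VV ν.j (ν.k + 1) -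
      ap ν.j ν.k * (Real.log ‖v‖ - ell ν.j) + x.h2 ν.j ν.k)| ≤ dl ν := by
  have hA := hx.Pot3_same ν true hv
  have hown := Pot3_own x ν true h0
  have hE := Pot3_E_nonneg ν.j
  have hnE : 0 ≤ nn ν.j * Pot3_E ν.j := mul_nonneg (Mac2_nn_pos _).le hE
  have hk := ν.h1
  have hk2 := ν.h2
  obtain ⟨C, hC, eC⟩ : ∃ C, |C| ≤ Pot3_E ν.j ∧
      po ν.j (ν.k + 1) * Real.log (‖x.dat.pos (ν, true) + v‖ / rho ν.j) =
        po ν.j (ν.k + 1) * x.xr ν.j ν.k + po ν.j (ν.k + 1) * C := by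
    rcases Nat.eq_zero_or_pos ν.j with hj | hj
    · refine ⟨0, by simpa using hE, ?_⟩
      have : po ν.j (ν.k + 1) = 0 := by rw [hj, po_zero]
      simp [this]
    · exact ⟨_, hx.Pot3_orig (ν, true) hj hv, by ring⟩
  obtain ⟨B, hB, eB⟩ : ∃ B, |B| ≤ nn ν.j * Pot3_E ν.j ∧
      ringSum (fun e => (if e.2 then -ap e.1.j e.1.k else al e.1.j e.1.k) *
        Real.log (‖x.dat.pos (ν, true) + v - x.dat.pos e‖ / rho ν.j)) false ν.j (ν.k + 1) =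
        al ν.j (ν.k + 1) * (nn ν.j * x.xr ν.j ν.k + Real.log (1 + Real.exp (-x.y ν.j ν.k))) +
          al ν.j (ν.k + 1) * B := by
    by_cases h2 : ν.k + 1 < NN ν.j
    · have h : 1 ≤ ν.k + 1 := by omega
      have hj : 1 ≤ ν.j := by
        by_contra hc
        have : ν.j = 0 := by omega
        rw [this, NN_zero] at h2
        omega
      have h3 := hx.Pot3_cross ν hj true false hv h h2 (.inl rfl)
      have h4 : nn ν.j * (x.lr ν.j (ν.k + 1) - x.lr ν.j ν.k) = -x.y ν.j ν.k := by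
        rw [← x.wall_y hk, x.Mac1_y]
        ring
      rw [h4] at h3
      refine ⟨_, h3, ?_⟩
      rw [ringSum, dif_pos ⟨h, h2⟩]
      simp only [Bool.false_eq_true, if_false]
      rw [← mul_sum]
      ring
    · refine ⟨0, by simpa using hnE, ?_⟩
      rw [ringSum, dif_neg (fun hc => h2 hc.2), al_out (not_lt.1 h2)]
      ring
  have h5 := Pot3_total ν (Pot3_ap ν.j ν.k) (Pot3_al ν.j (ν.k + 1))
    (c := -po ν.j (ν.k + 1)) (by rw [abs_neg]; exact Pot3_po (by omega)) hA hB hC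
  refine le_of_eq_of_le ?_ h5
  congr 1
  rw [Prm.fl, wallSum, eB, eC, Nat.add_sub_cancel, ringSum, dif_pos ⟨hk, hk2⟩]
  simp only [if_true]
  rw [← mul_sum, hown, Prm.h2]
  ring

lemma Pot3_bet (e : Nk × Bool) : 0 < ‖x.dat.bet e‖ ∧
    (ap e.1.j e.1.k + al e.1.j e.1.k) *
      |Real.log ‖x.dat.bet e‖ - Real.log ((x.wall e.1.j).c e.1.k)| ≤ dl e.1 := by
  have hP := admM_PP_pos e.1.j
  have hP1 := admM_PP_one e.1.j
  have ht := tt_pos e.1.j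
  have hc := hx.c_ge e.1
  have hc0 : 0 < (x.wall e.1.j).c e.1.k := lt_of_lt_of_le (by positivity) hc
  have h1 := hx.bet_near e
  have h2 := hx.ε_le e.1.j e.1.k e.1.i
  have h3 : tt e.1.j ^ 28 ≤ tt e.1.j ^ 3 :=
    pow_le_pow_of_le_one ht.le (admM_tt_one _) (by norm_num)
  have h4 := Pot3_cube e.1.j
  have h5 : PP e.1.j ^ 2 * tt e.1.j ^ 3 ≤ PP e.1.j ^ 3 * tt e.1.j ^ 3 := by
    gcongr
    norm_num
  have h6 : |‖x.dat.bet e‖ - (x.wall e.1.j).c e.1.k| ≤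
      PP e.1.j ^ 2 * tt e.1.j ^ 3 * (x.wall e.1.j).c e.1.k := by
    rw [Pos_bq] at h1
    have a1 := abs_add_le (‖x.dat.bet e‖ - ((x.wall e.1.j).c e.1.k + x.ε e.1.j e.1.k e.1.i))
      (x.ε e.1.j e.1.k e.1.i)
    have a2 : ‖x.dat.bet e‖ - ((x.wall e.1.j).c e.1.k + x.ε e.1.j e.1.k e.1.i) +
      x.ε e.1.j e.1.k e.1.i = ‖x.dat.bet e‖ - (x.wall e.1.j).c e.1.k := by ring
    rw [a2] at a1
    calc _ ≤ 2 * tt e.1.j ^ 3 := by linarith
      _ = PP e.1.j ^ 2 * tt e.1.j ^ 3 * (2 * (PP e.1.j)⁻¹ ^ 2) := by field_simp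
      _ ≤ _ := by gcongr
  obtain ⟨hb, h7⟩ := Pot3_log_real hc0 (by linarith) h6
  refine ⟨hb, ?_⟩
  have hn := Mac2_nn_pos e.1.j
  have hp := pj_pos e.1.j
  have hL := Pot3_Lb e.1.j
  have h8 : ap e.1.j e.1.k + al e.1.j e.1.k ≤ 3 * PP e.1.j * (pj e.1.j / nn e.1.j) := by
    have a1 := al_le e.1.j e.1.k
    have a2 := ap_le e.1.j e.1.k
    have a3 : Lb e.1.j * (pj e.1.j / nn e.1.j) ≤ PP e.1.j * (pj e.1.j / nn e.1.j) := by gcongr
    have e1 : Lb e.1.j * pj e.1.j / nn e.1.j = Lb e.1.j * (pj e.1.j / nn e.1.j) := by ring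
    have e2 : 2 * Lb e.1.j * pj e.1.j / nn e.1.j = 2 * (Lb e.1.j * (pj e.1.j / nn e.1.j)) := by ring
    linarith
  have h9 : 0 ≤ pj e.1.j / nn e.1.j := by positivity
  calc _ ≤ 3 * PP e.1.j * (pj e.1.j / nn e.1.j) * (2 * (PP e.1.j ^ 2 * tt e.1.j ^ 3)) := by
        gcongr
    _ = 6 * (PP e.1.j ^ 3 * tt e.1.j ^ 3) * (pj e.1.j / nn e.1.j) := by ring
    _ ≤ 1 / 100 * (pj e.1.j / nn e.1.j) := by
        gcongr
        linarith
    _ = _ := by rw [dl]; ring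

lemma Pot3_big (e : Nk × Bool) {v : ℂ} (h1 : frm.R e / 4 ≤ ‖v‖) :
    81 * ‖x.dat.bet e‖ ≤ ‖v‖ := by
  have a1 := hx.admM_bet_le (e := e) (l := e.1.j) (by omega)
  have a2 := admM_PP_le e.1.j
  have a3 : (tt e.1.j)⁻¹ ≤ (tt e.1.j)⁻¹ ^ 16 := le_self_pow₀ (admM_inv_one _) (by norm_num)
  have a4 : frm.R e = (tt e.1.j)⁻¹ ^ 16 := rfl
  have a5 := norm_nonneg (x.dat.bet e)
  linarith

theorem fl_cmp (e : Nk × Bool) {v : ℂ} (h1 : frm.R e / 4 ≤ ‖v‖) (h2 : ‖v‖ ≤ frm.R e) :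
    x.fl e.1.j (e.1.k + if e.2 then 1 else 0) (x.dat.pos e + v) + dl e.1 ≤
      x.fl e.1.j (e.1.k + if e.2 then 0 else 1) (x.dat.par e v) := by
  obtain ⟨hb, hc⟩ := hx.Pot3_bet e
  have hbig := hx.Pot3_big e h1
  have hv : 0 < ‖v‖ := by linarith
  have h0 : v ≠ 0 := norm_pos_iff.1 hv
  have hlog : 4 ≤ Real.log ‖v‖ - Real.log ‖x.dat.bet e‖ := by
    rw [← Real.log_div hv.ne' hb.ne', Real.le_log_iff_exp_le (div_pos hv hb), le_div_iff₀ hb]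
    have a1 : Real.exp 4 = Real.exp 1 ^ 4 := by rw [← Real.exp_nat_mul]; norm_num
    have a2 : Real.exp 1 ^ 4 ≤ 3 ^ 4 :=
      pow_le_pow_left₀ (Real.exp_pos 1).le (by linarith [Real.exp_one_lt_d9]) 4
    have a3 : Real.exp 4 * ‖x.dat.bet e‖ ≤ 81 * ‖x.dat.bet e‖ :=
      mul_le_mul_of_nonneg_right (by linarith) hb.le
    linarith
  obtain ⟨w, hw, ew⟩ : ∃ w : ℂ, ‖w‖ = ‖x.dat.bet e‖ ^ 2 / ‖v‖ ∧
      x.dat.par e v = x.dat.pos (opp e) + w := ⟨conj (x.dat.bet e ^ 2 / v), by simp, rfl⟩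
  have hw0 : w ≠ 0 := norm_pos_iff.1 (by rw [hw]; positivity)
  have hwR : ‖w‖ ≤ frm.R e := by
    refine le_trans ?_ h2
    rw [hw, div_le_iff₀ hv]
    nlinarith
  have hlw : Real.log ‖w‖ = 2 * Real.log ‖x.dat.bet e‖ - Real.log ‖v‖ := by
    rw [hw, Real.log_div (by positivity) hv.ne', Real.log_pow]
    norm_num
  have hd := ap_sub e.1
  have hd0 : 0 ≤ dl e.1 := by
    have := pj_pos e.1.j
    unfold dl
    positivity
  have hs : 0 ≤ ap e.1.j e.1.k + al e.1.j e.1.k := add_nonneg (ap_nonneg _ _) (al_nonneg _ _)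
  have hm := mul_le_mul_of_nonneg_left hlog hd0
  have hV := Pot3_VV x e.1
  rw [Prm.dV] at hV
  rw [ew]
  obtain ⟨ν, _ | _⟩ := e
  · have b1 := (abs_le.1 (hx.fl_lo_neck ν h0 h2)).2
    have b2 := (abs_le.1 (hx.fl_up_neck ν hw0 hwR)).1
    have b3 := mul_le_mul_of_nonneg_left
      (le_abs_self (Real.log ‖x.dat.bet (ν, false)‖ - Real.log ((x.wall ν.j).c ν.k))) hs
    simp only [Bool.false_eq_true, if_false, add_zero]
    change _ ≤ x.fl ν.j (ν.k + 1) (x.dat.pos (ν, true) + w)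
    dsimp only at hc hV hd hd0 hs hm b3
    rw [hlw] at b2
    rw [← hd] at hm hc b1 b2 ⊢
    nlinarith
  · have b1 := (abs_le.1 (hx.fl_up_neck ν h0 h2)).2
    have b2 := (abs_le.1 (hx.fl_lo_neck ν hw0 hwR)).1
    have b3 := mul_le_mul_of_nonneg_left
      (neg_abs_le (Real.log ‖x.dat.bet (ν, true)‖ - Real.log ((x.wall ν.j).c ν.k))) hs
    simp only [if_true, add_zero]
    change _ ≤ x.fl ν.j ν.k (x.dat.pos (ν, false) + w)
    dsimp only at hc hV hd hd0 hs hm b3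
    rw [hlw] at b2
    rw [← hd] at hm hc b1 b2 ⊢
    nlinarith

end InK

end Pool.Agent.MP_943ae2_gt
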