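import Pool.Agent.MP_943ae2_gt.Pot0

open Set Complex Filter
open scoped Topology ComplexConjugate ContDiff

noncomputable section

namespace Pool.Agent.MP_943ae2_gt

/-- the shift in the definition of `chi` -/
def sup1c : ℝ := 1 - ∫ s in (0:ℝ)..1, Real.smoothTransition s

theorem sup1_int (a b : ℝ) :
    IntervalIntegrable Real.smoothTransition MeasureTheory.volume a b :=
  Real.smoothTransition.continuous.intervalIntegrable a b

theorem sup1_le {t : ℝ} (ht : 0 ≤ t) : ∫ s in (0:ℝ)..t, Real.smoothTransition s ≤ t := by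
  have := intervalIntegral.integral_mono_on ht (sup1_int 0 t)
    (intervalIntegrable_const (c := (1:ℝ))) fun s _ => Real.smoothTransition.le_one s
  simpa using this

theorem sup1c_nonneg : 0 ≤ sup1c := sub_nonneg.2 (sup1_le zero_le_one)

theorem sup1c_le : sup1c ≤ 1 :=
  sub_le_self _ (intervalIntegral.integral_nonneg zero_le_one fun s _ =>
    Real.smoothTransition.nonneg s)

theorem sup1_chi (x : ℝ) : chi x = ∫ s in (0:ℝ)..(x + sup1c), Real.smoothTransition s := rfl

theorem sup1_zero {x : ℝ} (h : x + sup1c ≤ 0) : chi x = 0 := by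
  rw [sup1_chi, intervalIntegral.integral_congr (g := fun _ => 0)]
  · simp
  · intro s hs
    rw [uIcc_of_ge h] at hs
    exact Real.smoothTransition.zero_of_nonpos hs.2

theorem sup1_id {x : ℝ} (h : 1 ≤ x) : chi x = x := by
  have h1 : 1 ≤ x + sup1c := by linarith [sup1c_nonneg]
  rw [sup1_chi, ← intervalIntegral.integral_add_adjacent_intervals (sup1_int 0 1) (sup1_int 1 _),
    intervalIntegral.integral_congr (a := 1) (g := fun _ => 1)]
  · simp [sup1c]
    ring
  · intro s hs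
    rw [uIcc_of_le h1] at hs
    exact Real.smoothTransition.one_of_one_le hs.1

theorem sup1_ub (x : ℝ) : chi x ≤ max x 0 + 1 := by
  rcases le_total (x + sup1c) 0 with h | h
  · rw [sup1_zero h]
    linarith [le_max_right x 0]
  · rw [sup1_chi]
    linarith [sup1_le h, le_max_left x 0, sup1c_le]

theorem sup1_deriv (x : ℝ) : HasDerivAt chi (Real.smoothTransition (x + sup1c)) x := by
  have h1 := (Real.smoothTransition.continuous.integral_hasStrictDerivAt 0 (x + sup1c)).hasDerivAt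
  exact h1.comp_add_const x sup1c

theorem sup1_smooth : ContDiff ℝ ∞ chi := by
  rw [contDiff_infty_iff_deriv]
  refine ⟨fun x => (sup1_deriv x).differentiableAt, ?_⟩
  have : deriv chi = fun x => Real.smoothTransition (x + sup1c) :=
    funext fun x => (sup1_deriv x).deriv
  rw [this]
  exact Real.smoothTransition.contDiff.comp (contDiff_id.add contDiff_const)

theorem smin_left {δ a b : ℝ} (hδ : 0 < δ) (h : a + δ ≤ b) : smin δ a b = a := by
  have h1 : (a - b) / δ ≤ -1 := by rw [div_le_iff₀ hδ]; linarith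
  rw [smin, sup1_zero (by linarith [sup1c_le])]
  simp

theorem smin_right {δ a b : ℝ} (hδ : 0 < δ) (h : b + δ ≤ a) : smin δ a b = b := by
  have h1 : 1 ≤ (a - b) / δ := by rw [le_div_iff₀ hδ]; linarith
  rw [smin, sup1_id h1]
  field_simp
  ring

theorem smin_ge {δ a b : ℝ} (hδ : 0 < δ) : min a b - δ ≤ smin δ a b := by
  have h1 := mul_le_mul_of_nonneg_left (sup1_ub ((a - b) / δ)) hδ.le
  rw [mul_add, mul_max_of_nonneg _ _ hδ.le, mul_zero, mul_div_cancel₀ _ hδ.ne', mul_one] at h1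
  rw [smin]
  rcases le_total a b with h | h
  · rw [max_eq_right (by linarith)] at h1
    rw [min_eq_left h]
    linarith
  · rw [max_eq_left (by linarith)] at h1
    rw [min_eq_right h]
    linarith

theorem sup1_second {φ φ₁ : ℝ → ℝ} {φ₂ : ℝ} {w : ℂ → ℝ} {z : ℂ} (hw : ContDiffAt ℝ 2 w z)
    (h1 : ∀ t, HasDerivAt φ (φ₁ t) t) (h2 : HasDerivAt φ₁ φ₂ (w z)) (v : ℂ) :
    fderiv ℝ (fderiv ℝ fun y => φ (w y)) z v v =
      φ₁ (w z) * fderiv ℝ (fderiv ℝ w) z v v + φ₂ * (fderiv ℝ w z v) ^ 2 := by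
  have e1 : (fderiv ℝ fun y => φ (w y)) =ᶠ[𝓝 z] fun y => φ₁ (w y) • fderiv ℝ w y := by
    filter_upwards [hw.eventually (by simp)] with y hy
    exact ((h1 (w y)).comp_hasFDerivAt y (hy.differentiableAt (by simp)).hasFDerivAt).fderiv
  have d1 : HasFDerivAt w (fderiv ℝ w z) z := (hw.differentiableAt (by simp)).hasFDerivAt
  have d2 : HasFDerivAt (fderiv ℝ w) (fderiv ℝ (fderiv ℝ w) z) z :=
    ((hw.fderiv_right (m := 1) (by norm_num)).differentiableAt (by simp)).hasFDerivAt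
  have d3 := (h2.comp_hasFDerivAt z d1).smul d2
  rw [e1.fderiv_eq]
  have e2 : (fun y => φ₁ (w y) • fderiv ℝ w y) = (φ₁ ∘ w) • fderiv ℝ w := rfl
  rw [e2, d3.fderiv]
  simp
  ring

theorem sup1_lap {φ φ₁ : ℝ → ℝ} {φ₂ : ℝ} {w : ℂ → ℝ} {z : ℂ} (hw : ContDiffAt ℝ 2 w z)
    (h1 : ∀ t, HasDerivAt φ (φ₁ t) t) (h2 : HasDerivAt φ₁ φ₂ (w z)) :
    Laplacian.laplacian (fun y => φ (w y)) z = φ₁ (w z) * Laplacian.laplacian w z +
      φ₂ * ((fderiv ℝ w z 1) ^ 2 + (fderiv ℝ w z I) ^ 2) := by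
  simp only [InnerProductSpace.laplacian_eq_iteratedFDeriv_complexPlane, iteratedFDeriv_two_apply,
    Matrix.cons_val_zero, Matrix.cons_val_one, sup1_second hw h1 h2]
  ring

theorem smin_sup {δ : ℝ} (hδ : 0 < δ) {f g : ℂ → ℝ} {z : ℂ} (hf : SupOn f {z}) (hg : SupOn g {z}) :
    SupOn (fun y => smin δ (f y) (g y)) {z} := by
  intro y hy
  rw [mem_singleton_iff] at hy
  subst hy
  obtain ⟨f1, f2⟩ := hf y rfl
  obtain ⟨g1, g2⟩ := hg y rfl
  have hle : (2 : WithTop ℕ∞) ≤ ∞ := WithTop.coe_le_coe.2 (le_top : (2 : ℕ∞) ≤ ⊤)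
  have w1 : ContDiffAt ℝ ∞ (δ⁻¹ • (f - g)) y := (f1.sub g1).const_smul δ⁻¹
  have c1 : ContDiffAt ℝ ∞ (fun x => chi ((δ⁻¹ • (f - g)) x)) y :=
    sup1_smooth.contDiffAt.comp y w1
  have e : (fun y => smin δ (f y) (g y)) = f - δ • fun x => chi ((δ⁻¹ • (f - g)) x) := by
    funext x
    simp [smin, div_eq_inv_mul]
  rw [e]
  refine ⟨f1.sub (c1.const_smul δ), ?_⟩
  have s1 : Differentiable ℝ fun t => Real.smoothTransition (t + sup1c) :=
    ((Real.smoothTransition.contDiff (n := 1)).differentiable (by simp)).comp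
      (differentiable_id.add_const _)
  have s2 : Monotone fun t => Real.smoothTransition (t + sup1c) := fun a b h =>
    Real.smoothTransition.monotone (by linarith)
  have c2 : ContDiffAt ℝ 2 (δ • fun x => chi ((δ⁻¹ • (f - g)) x)) y := (c1.of_le hle).const_smul δ
  have w2 : ContDiffAt ℝ 2 (f - g) y := (f1.sub g1).of_le hle
  rw [(f1.of_le hle).laplacian_sub c2,
    InnerProductSpace.laplacian_smul δ (c1.of_le hle),
    sup1_lap (w1.of_le hle) sup1_deriv (s1 _).hasDerivAt,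
    InnerProductSpace.laplacian_smul δ⁻¹ w2,
    (f1.of_le hle).laplacian_sub (g1.of_le hle)]
  have p0 := Real.smoothTransition.nonneg ((δ⁻¹ • (f - g)) y + sup1c)
  have p1 := Real.smoothTransition.le_one ((δ⁻¹ • (f - g)) y + sup1c)
  have p2 := s2.deriv_nonneg (x := (δ⁻¹ • (f - g)) y)
  generalize Real.smoothTransition ((δ⁻¹ • (f - g)) y + sup1c) = p at *
  generalize deriv (fun t => Real.smoothTransition (t + sup1c)) ((δ⁻¹ • (f - g)) y) = q at *
  generalize Laplacian.laplacian f y = A at *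
  generalize Laplacian.laplacian g y = B at *
  have p3 : 0 ≤ δ * (q * ((fderiv ℝ (δ⁻¹ • (f - g)) y 1) ^ 2 +
      (fderiv ℝ (δ⁻¹ • (f - g)) y I) ^ 2)) := by positivity
  simp only [smul_eq_mul]
  have e2 : δ * (p * (δ⁻¹ * (A - B))) = p * (A - B) := by field_simp
  rw [mul_add, e2]
  nlinarith [mul_nonneg p0 (neg_nonneg.2 g2), mul_nonneg (sub_nonneg.2 p1) (neg_nonneg.2 f2)]

theorem supOn_of_harm {f : ℂ → ℝ} {z : ℂ} (hf : InnerProductSpace.HarmonicAt f z) : SupOn f {z} := by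
  intro y hy
  rw [mem_singleton_iff] at hy
  subst hy
  exact ⟨(HarmonicAt.analyticAt hf).contDiffAt, hf.2.eq_of_nhds.le⟩

theorem supOn_congr {f g : ℂ → ℝ} {z : ℂ} (hf : SupOn f {z}) (h : g =ᶠ[𝓝 z] f) : SupOn g {z} := by
  intro y hy
  rw [mem_singleton_iff] at hy
  subst hy
  obtain ⟨f1, f2⟩ := hf y rfl
  exact ⟨f1.congr_of_eventuallyEq h,
    (InnerProductSpace.laplacian_congr_nhds h).eq_of_nhds.le.trans f2⟩

theorem harm_comp_conj {f : ℂ → ℝ} {G : ℂ → ℂ} {z : ℂ} (hG : AnalyticAt ℂ G z)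
    (hf : InnerProductSpace.HarmonicAt f (conj (G z))) :
    InnerProductSpace.HarmonicAt (fun y => f (conj (G y))) z := by
  obtain ⟨ε, hε, h1⟩ := Metric.eventually_nhds_iff_ball.1 hf.eventually
  obtain ⟨F, hF, h2⟩ := InnerProductSpace.HarmonicOnNhd.exists_analyticOnNhd_ball_re_eq h1
  have hc : ∀ᶠ u in 𝓝 (G z), conj u ∈ Metric.ball (conj (G z)) ε :=
    continuous_conj.continuousAt.eventually (Metric.ball_mem_nhds _ hε)
  have h3 : AnalyticAt ℂ (conj ∘ F ∘ conj) (G z) := by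
    rw [analyticAt_iff_eventually_differentiableAt]
    filter_upwards [hc] with u hu
    exact differentiableAt_conj_conj_iff.2 (hF _ hu).differentiableAt
  refine (InnerProductSpace.harmonicAt_congr_nhds ?_).1 (h3.comp hG).harmonicAt_re
  filter_upwards [hG.continuousAt.eventually hc] with y hy
  simpa using h2 hy

end Pool.Agent.MP_943ae2_gt
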