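import Pool.Agent.MP_943ae2_gt.Pot2
import Pool.Agent.MP_943ae2_gt.Pot3
import Pool.Agent.MP_943ae2_gt.Sup1

open Set Complex Filter Finset
open scoped Topology ComplexConjugate ContDiff

noncomputable section

namespace Pool.Agent.MP_943ae2_gt

open InnerProductSpace in
theorem Pot4_log (c : ℝ) {r : ℝ} (hr : 0 < r) {p z : ℂ} (h : z ≠ p) :
    HarmonicAt (fun y : ℂ => c * Real.log (‖y - p‖ / r)) z := by
  have h1 : AnalyticAt ℂ (fun y : ℂ => (y - p) / (r : ℂ)) z := by fun_prop (disch := skip)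
  have h2 : (z - p) / (r : ℂ) ≠ 0 :=
    div_ne_zero (sub_ne_zero.2 h) (ofReal_ne_zero.2 hr.ne')
  have h3 := (h1.harmonicAt_log_norm h2).const_smul (c := c)
  refine (harmonicAt_congr_nhds (Eventually.of_forall fun y => ?_)).1 h3
  simp [abs_of_pos hr]

open InnerProductSpace in
theorem Pot4_sum {ι : Type} (s : Finset ι) (f : ι → ℂ → ℝ) {z : ℂ}
    (h : ∀ i ∈ s, HarmonicAt (f i) z) : HarmonicAt (fun y => ∑ i ∈ s, f i y) z := by
  classical
  induction s using Finset.induction_on with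
  | empty => simp
  | insert a s ha ih =>
    simp only [sum_insert ha]
    exact (h a (mem_insert_self _ _)).add (ih fun i hi => h i (mem_insert_of_mem hi))

open InnerProductSpace in
theorem Pot4_ring (f : Nk × Bool → ℂ → ℝ) (s : Bool) (j k : ℕ) {z : ℂ}
    (h : ∀ e : Nk × Bool, e.1.j = j → e.1.k = k → e.2 = s → HarmonicAt (f e) z) :
    HarmonicAt (fun y => ringSum (fun e => f e y) s j k) z := by
  unfold ringSum
  split_ifs with hk
  · exact Pot4_sum _ (fun i => f (⟨j, k, i, hk.1, hk.2⟩, s)) fun i _ => h _ rfl rfl rfl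
  · simp

open InnerProductSpace in
theorem Pot4_wall (f : Nk × Bool → ℂ → ℝ) (j i : ℕ) {z : ℂ}
    (h : ∀ e : Nk × Bool, e.1.j = j → (e.1.k + if e.2 then 1 else 0) = i → HarmonicAt (f e) z) :
    HarmonicAt (fun y => wallSum (fun e => f e y) j i) z := by
  refine (Pot4_ring f false j i fun e h1 h2 h3 => h e h1 ?_).add
    (Pot4_ring f true j (i - 1) fun e h1 h2 h3 => h e h1 ?_)
  · simp [h2, h3]
  · have := e.1.h1
    simp only [h3, if_true]
    omega

theorem Pot4_R (e : Nk × Bool) : 0 < frm.R e ∧ 1000 * frm.R e ≤ rho e.1.j := by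
  have h1 : (1000 : ℝ) ≤ (tt e.1.j)⁻¹ := by
    rw [le_inv_comm₀ (by norm_num) (tt_pos _), ← one_div]
    exact tt_le _
  have h2 : (tt e.1.j)⁻¹ ≤ (tt e.1.j)⁻¹ ^ 16 := le_self_pow₀ (by linarith) (by norm_num)
  have h3 : rho e.1.j = (tt e.1.j)⁻¹ ^ 16 * (tt e.1.j)⁻¹ ^ 16 := by
    rw [rho, ← pow_add]
  have h4 : frm.R e = (tt e.1.j)⁻¹ ^ 16 := rfl
  rw [h3, h4]
  exact ⟨by linarith, mul_le_mul_of_nonneg_right (by linarith) (by linarith)⟩

theorem Pot4_rho (j : ℕ) : 1000 * rho j ≤ rho (j + 1) := by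
  have h1 : (1000 : ℝ) ≤ (tt j)⁻¹ := by
    rw [le_inv_comm₀ (by norm_num) (tt_pos _), ← one_div]
    exact tt_le _
  have h2 : (tt j)⁻¹ ≤ rho j := le_self_pow₀ (by linarith) (by norm_num)
  have h3 : rho j ≤ rho j ^ 3 := le_self_pow₀ (by linarith) (by norm_num)
  rw [rho_succ, pow_succ]
  exact mul_le_mul_of_nonneg_right (by linarith) (by linarith)

theorem Pot4_phi (x : Prm) {j a : ℕ} (h1 : 1 ≤ a) (h2 : a ≤ Mt j) :
    x.phi (bs (j + 1) + a - 1) = x.fb j a := by
  have := le_bs (j + 1)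
  funext z
  rw [Prm.phi, if_neg (by omega), lev_block h1 h2]
  congr 1
  omega

theorem Pot4_ne {x : Prm} {k : ℕ} {z : ℂ} (hz : z ∈ frm.U x.dat k) {e : Nk × Bool}
    (he : e ∈ frm.sides k) : z ≠ x.dat.pos e := by
  intro h
  have h1 := hz e he
  have h2 : 0 ≤ ‖x.dat.bet e‖ ^ 2 / frm.R e := div_nonneg (by positivity) (Pot4_R e).1.le
  rw [h, sub_self, norm_zero] at h1
  linarith

namespace InK

variable {x : Prm} (hx : InK x)
include hx

theorem fl_harm {j i : ℕ} (h1 : 1 ≤ i) (h2 : i ≤ NN j) {z : ℂ}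
    (hz : ∀ e : Nk × Bool, e.1.j = j → (e.1.k + if e.2 then 1 else 0) = i → z ≠ x.dat.pos e)
    (h0 : z ≠ 0 ∨ po j i = 0) : InnerProductSpace.HarmonicAt (x.fl j i) z := by
  have ha := Pot4_wall (fun e y => (if e.2 then -ap e.1.j e.1.k else al e.1.j e.1.k) *
    Real.log (‖y - x.dat.pos e‖ / rho j)) j i fun e h3 h4 => Pot4_log _ (rho_pos j) (hz e h3 h4)
  have hb : InnerProductSpace.HarmonicAt (fun y : ℂ => po j i * Real.log (‖y‖ / rho j)) z := by
    rcases h0 with h0 | h0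
    · simpa using Pot4_log (po j i) (rho_pos j) h0
    · simp [h0]
  exact ((InnerProductSpace.harmonicAt_const (x.VV j i)).add ha).sub hb

theorem phi_near (e : Nk × Bool) {z : ℂ} (hz : ‖z - x.dat.pos e‖ < 3 * frm.R e) :
    x.phi (frm.lay e) z = x.fl e.1.j (e.1.k + if e.2 then 1 else 0) z := by
  have h1 : 1 ≤ e.1.k + if e.2 then 1 else 0 := by have := e.1.h1; omega
  have h2 : (e.1.k + if e.2 then 1 else 0) ≤ NN e.1.j := by
    have := e.1.h2
    split_ifs <;> omega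
  have h3 := Pot4_R e
  have h4 := hx.pos_le e
  have h5 := hx.pos_ge e
  have h6 := abs_le.1 (abs_norm_sub_norm_le z (x.dat.pos e))
  rw [lay_eq]
  generalize (e.1.k + if e.2 then 1 else 0) = i at *
  generalize e.1.j = j at *
  by_cases h : i ≤ Lb j
  · rcases j with _ | j
    · obtain rfl : i = 1 := le_antisymm h h1
      rfl
    · have h7 := Pot4_rho j
      have h8 := rho_pos j
      have h9 := h5 (by omega)
      rw [Pot4_phi x (j := j) h1 h, Prm.fb, if_neg (by linarith [h6.1]), if_pos (by linarith [h6.1])]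
  · obtain ⟨a, rfl⟩ := Nat.exists_eq_add_of_le (not_le.1 h).le
    rw [← add_assoc, ← Cst_bs, Pot4_phi x (by omega) (by unfold NN at h2; omega), Prm.fb,
      if_pos (by linarith [h6.2])]

theorem phi_sup (k : ℕ) : SupOn (x.phi k) (frm.U x.dat k) := by
  intro z hz
  suffices h : SupOn (x.phi k) {z} from h z rfl
  rcases layer_cases k with rfl | ⟨j, a, h1, h2, rfl⟩
  · refine supOn_of_harm (hx.fl_harm (j := 0) (i := 1) le_rfl (by decide)
      (fun e h3 h4 => Pot4_ne hz ?_) (.inr (po_zero 1)))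
    exact (mem_sides_wall (j := 0) (i := 1) le_rfl (by decide) e).2 (.inl ⟨h3, h4⟩)
  have h3 : Lb j + a ≤ NN j := Nat.add_le_add_left h2 _
  have h4 : a ≤ NN (j + 1) := h2.trans (Nat.le_add_right _ _)
  have hf : SupOn (x.fl j (Lb j + a)) {z} := by
    refine supOn_of_harm (hx.fl_harm (by omega) h3 (fun e h5 h6 => Pot4_ne hz ?_)
      (.inr (po_top (by omega))))
    rw [Cst_bs, add_assoc]
    exact (mem_sides_wall (by omega) h3 e).2 (.inl ⟨h5, h6⟩)
  have hg : z ≠ 0 → SupOn (x.fl (j + 1) a) {z} := fun h0 =>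
    supOn_of_harm (hx.fl_harm h1 h4 (fun e h5 h6 => Pot4_ne hz
      ((mem_sides_wall h1 h4 e).2 (.inl ⟨h5, h6⟩))) (.inl h0))
  have h7 := Pot4_rho j
  have h8 := rho_pos j
  have hlt : ∀ r : ℝ, ‖z‖ < r → ∀ᶠ y in 𝓝 z, ‖y‖ < r := fun r hr =>
    continuous_norm.continuousAt.eventually (gt_mem_nhds hr)
  have hgt : ∀ r : ℝ, r < ‖z‖ → ∀ᶠ y in 𝓝 z, r < ‖y‖ := fun r hr =>
    continuous_norm.continuousAt.eventually (lt_mem_nhds hr)
  rw [Pot4_phi x h1 h2]
  by_cases c1 : ‖z‖ < 4 * rho j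
  · refine supOn_congr hf ?_
    filter_upwards [hlt _ c1] with y hy
    rw [Prm.fb]
    split_ifs with d1 d2
    · rfl
    · linarith
    · exact smin_left (pj_pos j) (hx.ann_in h1 h2 (by linarith) hy.le)
  have h0 : z ≠ 0 := by
    rintro rfl
    rw [norm_zero] at c1
    linarith
  by_cases c2 : rho (j + 1) / 4 < ‖z‖
  · refine supOn_congr (hg h0) ?_
    filter_upwards [hgt _ c2] with y hy
    rw [Prm.fb]
    split_ifs with d1 d2
    · linarith
    · rfl
    · exact smin_right (pj_pos j) (hx.ann_out h1 h2 hy.le (by linarith))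
  · refine supOn_congr (smin_sup (pj_pos j) hf (hg h0)) ?_
    filter_upwards [hgt (3 * rho j) (by linarith), hlt (rho (j + 1) / 3) (by linarith)]
      with y hy hy'
    rw [Prm.fb, if_neg (not_le.2 hy), if_neg (not_le.2 hy')]

end InK

end Pool.Agent.MP_943ae2_gt
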