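import Pool.Agent.MP_943ae2_gt.Pot4

open Set Complex Filter Finset
open scoped Topology ComplexConjugate ContDiff

noncomputable section

namespace Pool.Agent.MP_943ae2_gt

lemma Pot5_ell (j : ℕ) : 90000 ≤ ell j :=
  le_trans (le_mul_of_one_le_right (by norm_num) (one_le_pow₀ (by norm_num))) (ell_ge j)

lemma Pot5_pe (j : ℕ) : pj j * ell j ≤ ell 0 := by
  induction j with
  | zero => simp [pj]
  | succ j ih =>
    have h1 : 0 ≤ pj j * ell j := mul_nonneg (pj_pos j).le (by linarith [Pot5_ell j])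
    have e : pj (j + 1) * ell (j + 1) = 92 / 100 * (pj j * ell j) := by
      rw [ell_succ, pj, pj, pow_succ]
      ring
    linarith

lemma Pot5_inv (j : ℕ) : 1000 ≤ (tt j)⁻¹ := by
  rw [le_inv_comm₀ (by norm_num) (tt_pos j)]
  linarith [tt_le j]

lemma Pot5_R (e : Nk × Bool) : 1000 ≤ frm.R e ∧ rho e.1.j = frm.R e ^ 2 := by
  have h := Pot5_inv e.1.j
  refine ⟨h.trans (le_self_pow₀ (by linarith) (by norm_num)), ?_⟩
  rw [rho, Frm.R, ← pow_mul]
  rfl

lemma Pot5_rho (j : ℕ) : 1000 ≤ rho j :=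
  (Pot5_inv j).trans (le_self_pow₀ (by linarith [Pot5_inv j]) (by norm_num))

lemma Pot5_rho3 (j : ℕ) : 3 * rho j ≤ rho (j + 1) := by
  have h := Pot5_rho j
  have h1 : rho j ≤ rho j ^ 3 := le_self_pow₀ (by linarith) (by norm_num)
  rw [rho_succ, pow_succ]
  exact mul_le_mul_of_nonneg_right (by linarith) (by linarith)

lemma Pot5_log {j : ℕ} {r : ℝ} (h0 : 0 ≤ r) (h : r ≤ rho (j + 1)) :
    Real.log (r / rho j) ≤ 3 * ell j := by
  have h1 := rho_pos j
  rcases h0.eq_or_lt with rfl | h0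
  · rw [zero_div, Real.log_zero]
    linarith [Pot5_ell j]
  · refine (Real.log_le_log (y := rho j ^ 3) (by positivity) ?_).trans (le_of_eq ?_)
    · rwa [div_le_iff₀ h1, ← pow_succ, ← rho_succ]
    · rw [Real.log_pow, ell]
      norm_num

lemma Pot5_phi (x : Prm) {j a : ℕ} (h1 : 1 ≤ a) (h2 : a ≤ Mt j) (z : ℂ) :
    x.phi (bs (j + 1) + a - 1) z = x.fb j a z := by
  have := le_bs (j + 1)
  rw [Prm.phi, if_neg (by omega), lev_block h1 h2]
  congr 1
  omega

namespace InK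

variable {x : Prm} (hx : InK x)
include hx

lemma Pot5_top {j a : ℕ} (h1 : 1 ≤ a) (h2 : a ≤ Mt j) {z : ℂ}
    (hz : z ∈ frm.U x.dat (bs (j + 1) + a - 1)) (h : ‖z‖ ≤ rho (j + 1)) :
    79 * ell 0 ≤ x.fl j (Lb j + a) z := by
  have hi : Lb j + a ≤ NN j := Nat.add_le_add_left h2 _
  have b1 := hx.VV_ge hi
  rcases Nat.eq_zero_or_pos j with rfl | hj
  · obtain rfl : a = 1 := le_antisymm h2 h1
    have b2 := Pot5_log (norm_nonneg z) h
    have b3 := hx.fl_zero_two z
    have b4 := Pot5_ell 0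
    change 80 * ell 0 ≤ x.VV 0 2 at b1
    change _ ≤ x.fl 0 2 z
    linarith
  · have b2 := hx.fl_low hj (by omega) hi (z := z) (by rwa [← Nat.add_assoc, ← Cst_bs])
    rw [po_top (by omega), top_slope hj (by omega) hi] at b2
    have b3 := Pot5_log (j := j) (r := max ‖z‖ (rho j)) (le_max_of_le_left (norm_nonneg z))
      (max_le h (by linarith [Pot5_rho3 j, rho_pos j]))
    have b4 := mul_le_mul_of_nonneg_left b3 (pj_pos j).le
    have b5 := Pot5_pe j
    have b6 := Pot5_ell 0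
    linarith

lemma Pot5_bot {j a : ℕ} (h1 : 1 ≤ a) (h2 : a ≤ Mt j) {z : ℂ}
    (hz : z ∈ frm.U x.dat (bs (j + 1) + a - 1)) (h : 0 < ‖z‖) :
    79 * ell 0 ≤ x.fl (j + 1) a z := by
  have hi : a ≤ NN (j + 1) := h2.trans (Nat.le_add_right _ _)
  have b1 := hx.VV_ge hi
  have b2 := hx.fl_low (by omega) h1 hi hz
  have e : (nn (j + 1) : ℝ) * (al (j + 1) a - ap (j + 1) (a - 1)) = po (j + 1) a := by
    rw [po, if_pos (show a ≤ Lb (j + 1) from h2)]
  have b3 : 0 ≤ po (j + 1) a :=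
    le_trans (mul_nonneg (by norm_num) (pj_pos _).le)
      (po_bot (j := j + 1) (by omega) h1 h2).1
  have b4 : Real.log (‖z‖ / rho (j + 1)) ≤ Real.log (max ‖z‖ (rho (j + 1)) / rho (j + 1)) :=
    Real.log_le_log (div_pos h (rho_pos _))
      (div_le_div_of_nonneg_right (le_max_left _ _) (rho_pos _).le)
  have b5 := mul_le_mul_of_nonneg_left b4 b3
  have b6 := Pot5_pe (j + 1)
  have b7 := Pot5_ell 0
  rw [e] at b2
  linarith

theorem phi_low (k : ℕ) : ∀ z ∈ frm.U x.dat k, 2 ≤ x.phi k z := by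
  intro z hz
  have b0 := Pot5_ell 0
  rcases layer_cases k with rfl | ⟨j, a, h1, h2, rfl⟩
  · rw [Prm.phi, if_pos rfl, fl_zero_one]
    linarith
  have r0 := rho_pos j
  have r1 := rho_pos (j + 1)
  rw [Pot5_phi x h1 h2, Prm.fb]
  split_ifs with c1 c2
  · linarith [hx.Pot5_top h1 h2 hz (c1.trans (Pot5_rho3 j))]
  · linarith [hx.Pot5_bot h1 h2 hz (by linarith)]
  · have b1 := le_min (hx.Pot5_top h1 h2 hz (by linarith)) (hx.Pot5_bot h1 h2 hz (by linarith))
    have b2 := smin_ge (a := x.fl j (Lb j + a) z) (b := x.fl (j + 1) a z) (pj_pos j)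
    linarith [pj_le j]

lemma Pot5_harm (e : Nk × Bool) (z : ℂ) (h0 : 0 < ‖z - x.dat.pos e‖)
    (h : ‖z - x.dat.pos e‖ < 2 * frm.R e) : InnerProductSpace.HarmonicAt (x.phi (frm.lay e)) z := by
  obtain ⟨r1, r2⟩ := Pot5_R e
  have hev : x.phi (frm.lay e) =ᶠ[𝓝 z] x.fl e.1.j (e.1.k + if e.2 then 1 else 0) := by
    have ho : IsOpen {y : ℂ | ‖y - x.dat.pos e‖ < 3 * frm.R e} :=
      isOpen_lt (by fun_prop) continuous_const
    filter_upwards [ho.mem_nhds (show ‖z - x.dat.pos e‖ < 3 * frm.R e by linarith)] with y hy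
    exact hx.phi_near e hy
  rw [InnerProductSpace.harmonicAt_congr_nhds hev]
  refine hx.fl_harm (admM_loc e).1 (admM_loc e).2 (fun μ m1 m2 hc => ?_) ?_
  · by_cases hμ : μ = e
    · rw [hc, hμ, sub_self, norm_zero] at h0
      exact lt_irrefl _ h0
    · have := hx.adm.sep e μ (mem_oth.2 ⟨hμ, by rw [lay_eq, lay_eq, m2, m1]⟩)
      rw [hc, norm_sub_rev] at h
      linarith
  · rcases Nat.eq_zero_or_pos e.1.j with hj | hj
    · right
      rw [hj, po_zero]
    · left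
      rintro rfl
      have := hx.pos_ge e hj
      rw [zero_sub, norm_neg] at h
      nlinarith

lemma Pot5_cmp (e : Nk × Bool) (v : ℂ) (h1 : frm.R e / 4 ≤ ‖v‖) (h2 : ‖v‖ ≤ frm.R e) :
    x.phi (frm.lay e) (x.dat.pos e + v) + dl e.1 ≤ x.phi (frm.lay (opp e)) (x.dat.par e v) := by
  obtain ⟨r1, -⟩ := Pot5_R e
  have b1 : ‖x.dat.bet e‖ ^ 2 ≤ frm.R e := by
    have t1 := Pot5_inv e.1.j
    exact (pow_le_pow_left₀ (norm_nonneg _) (hx.adm.bet_le e) 2).trans
      (pow_le_pow_right₀ (le_trans (by norm_num) t1) (by norm_num))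
  rw [hx.phi_near e (by rw [add_sub_cancel_left]; linarith), hx.phi_near (opp e) (by
    rw [norm_par_sub, R_opp, div_lt_iff₀ (by linarith)]
    nlinarith)]
  have := hx.fl_cmp e h1 h2
  rcases e with ⟨ν, _ | _⟩ <;> exact this

lemma Pot5_far {e : Nk × Bool} (he : e ∈ frm.sides 1) {r : ℝ} (h1 : rho 0 ≤ r)
    (h2 : r ≤ 2 * rho 0) : frm.R e ≤ ‖(r : ℂ) - x.dat.pos e‖ := by
  obtain ⟨r1, r2⟩ := Pot5_R e
  have r0 := Pot5_rho 0
  have hn : ‖(r : ℂ)‖ = r := by rw [norm_real, Real.norm_eq_abs, abs_of_nonneg (by linarith)]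
  rcases (mem_sides_wall (j := 0) (i := 2) (by norm_num) le_rfl e).1 he with h | h | h
  · rw [hx.pos_zero e h.1, sub_zero, hn]
    rw [h.1] at r2
    nlinarith
  · exact absurd h.1 (by decide)
  · have b1 := hx.pos_ge e (by omega)
    have b2 := norm_sub_norm_le (x.dat.pos e) r
    have b3 : frm.R e = rho 0 ^ 2 := by
      refine (pow_left_inj₀ (by linarith) (by positivity) two_ne_zero).1 ?_
      rw [← r2, h.2.1, rho_succ, ← pow_mul]
    rw [norm_sub_rev, hn] at b2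
    rw [r2] at b1
    nlinarith

lemma Pot5_pots : frm.Pots x.dat x.phi dl where
  δ_pos ν := div_pos (div_pos (pj_pos _) (by norm_num)) (Mac2_nn_pos _)
  δ_le ν := by
    rw [dl, div_le_one (Mac2_nn_pos _)]
    linarith [pj_le ν.j, Mac2_nn_one ν.j]
  sup := hx.phi_sup
  harm := hx.Pot5_harm
  low := hx.phi_low
  cmp := hx.Pot5_cmp
  nc := by
    have r0 := rho_pos 0
    refine ⟨1, (rho 0 : ℝ), (2 * rho 0 : ℝ), fun e he => ⟨hx.Pot5_far he le_rfl (by linarith),
      hx.Pot5_far he (by linarith) le_rfl⟩, ?_⟩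
    have e : ∀ r : ℝ, 0 < r → r ≤ 3 * rho 0 →
        x.phi 1 r = x.VV 0 2 - 1 / 100 * Real.log (r / rho 0) := fun r h1 h2 => by
      have hn : ‖(r : ℂ)‖ = r := by rw [norm_real, Real.norm_eq_abs, abs_of_pos h1]
      have := Pot5_phi x (j := 0) (a := 1) le_rfl le_rfl r
      rw [Prm.fb, if_pos (by rwa [hn])] at this
      exact this.trans ((hx.fl_zero_two r).trans (by rw [hn]))
    rw [e _ r0 (by linarith), e _ (by linarith) (by linarith), div_self r0.ne',
      mul_div_cancel_right₀ _ r0.ne', Real.log_one]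
    have := Real.log_two_gt_d9
    intro h
    linarith

theorem pots : frm.Pots x.dat x.phi dl := hx.Pot5_pots

end InK

end Pool.Agent.MP_943ae2_gt
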