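import Pool.Agent.MP_943ae2_gt.Res

open Set Complex Filter
open scoped Topology ComplexConjugate ContDiff

noncomputable section

namespace Pool.Agent.MP_943ae2_gt

variable {ι : Type} {F : Frm ι} {d : Dat ι} {C : ℕ → ℝ}

/-- the real differential of `z ↦ log ‖z - p‖` -/
lemma prim_log_hd {z p : ℂ} (hz : z - p ≠ 0) :
    ∃ L : ℂ →L[ℝ] ℝ, HasFDerivAt (fun w => Real.log ‖w - p‖) L z ∧ ∀ v, L v = (v / (z - p)).re := by
  have h1 : HasDerivAt (fun w => (w - p) / (z - p)) (1 / (z - p)) z :=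
    ((hasDerivAt_id z).sub_const p).div_const (z - p)
  have h2 : HasDerivAt (fun w => Complex.log ((w - p) / (z - p))) (1 / (z - p)) z := by
    have := h1.clog (by rw [div_self hz]; exact one_mem_slitPlane)
    simpa [div_self hz] using this
  have h3 := (reCLM.hasFDerivAt.comp z (h2.hasFDerivAt.restrictScalars ℝ)).add_const
    (Real.log ‖z - p‖)
  refine ⟨_, h3.congr_of_eventuallyEq ?_, fun v => ?_⟩
  · have : ∀ᶠ w in 𝓝 z, w - p ≠ 0 :=
      (continuous_id.sub continuous_const).continuousAt.eventually_ne hz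
    filter_upwards [this] with w hw
    simp only [Function.comp, reCLM_apply, log_re, norm_div]
    rw [Real.log_div (norm_ne_zero_iff.2 hw) (norm_ne_zero_iff.2 hz)]
    ring
  · simp [div_eq_mul_inv]

lemma prim_mk3_eq (z : ℂ) (t : ℝ) : mk3 z t =
    z.re • EuclideanSpace.single (0 : Fin 3) (1 : ℝ) + z.im • EuclideanSpace.single (1 : Fin 3) (1 : ℝ) +
      t • EuclideanSpace.single (2 : Fin 3) (1 : ℝ) := by
  ext i
  fin_cases i <;> simp [mk3]

lemma prim_mk3_hd {H : ℂ → ℂ} {g : ℂ → ℝ} {L : ℂ →L[ℝ] ℂ} {L' : ℂ →L[ℝ] ℝ} {z : ℂ}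
    (hH : HasFDerivAt H L z) (hg : HasFDerivAt g L' z) :
    ∃ M : ℂ →L[ℝ] E3, HasFDerivAt (fun w => mk3 (H w) (g w)) M z ∧ ∀ v, M v = mk3 (L v) (L' v) := by
  have h1 := (reCLM.hasFDerivAt.comp z hH).smul_const (EuclideanSpace.single (0 : Fin 3) (1 : ℝ))
  have h2 := (imCLM.hasFDerivAt.comp z hH).smul_const (EuclideanSpace.single (1 : Fin 3) (1 : ℝ))
  have h3 := hg.smul_const (EuclideanSpace.single (2 : Fin 3) (1 : ℝ))
  refine ⟨_, ((h1.add h2).add h3).congr_of_eventuallyEq (Eventually.of_forall fun w => ?_),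
    fun v => ?_⟩
  · simp [prim_mk3_eq]
  · simp [prim_mk3_eq]

namespace Frm.Adm

variable (h : F.Adm d)
include h

lemma prim_inv_t (e : ι × Bool) : 1000 ≤ (F.t e.1)⁻¹ := by
  have h1 := h.t_pos e.1
  have h2 := h.t_small e.1
  rw [le_inv_comm₀ (by norm_num) h1]
  linarith

lemma prim_bet_le_R (e : ι × Bool) : ‖d.bet e‖ ≤ F.R e := by
  have h1 := h.prim_inv_t e
  refine (h.bet_le e).trans ?_
  exact le_self_pow₀ (by linarith) (by norm_num)

lemma prim_sr_le (e : ι × Bool) : F.sr d e ≤ F.R e := by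
  have h1 := h.prim_bet_le_R e
  have h2 := h.bet_pos e
  have h3 := h.R_pos e
  unfold Frm.sr
  rw [div_le_iff₀ (by positivity)]
  nlinarith

lemma prim_sr_gt (e : ι × Bool) : ‖d.bet e‖ ^ 2 / (4 * F.R e) < F.sr d e := by
  have h2 := h.bet_pos e
  have h3 := h.R_pos e
  unfold Frm.sr
  exact div_lt_div_of_pos_left (by positivity) (by positivity) (by linarith)

lemma prim_two_sr (e : ι × Bool) : 2 * F.sr d e = ‖d.bet e‖ ^ 2 / F.R e := by
  have h3 := h.R_pos e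
  unfold Frm.sr
  field_simp

lemma prim_sph (e : ι × Bool) : Metric.sphere (d.pos e) (F.sr d e) ⊆ F.Big d (F.lay e) := by
  intro ζ hζ
  have h1 : ‖ζ - d.pos e‖ = F.sr d e := mem_sphere_iff_norm.1 hζ
  have h2 := h.mem_Big e (v := ζ - d.pos e) (by rw [h1]; exact h.prim_sr_gt e)
    (by rw [h1]; have := h.prim_sr_le e; have := h.R_pos e; linarith)
  simpa using h2

lemma prim_a_le {k : ℕ} {z : ℂ} (hz : z ∈ F.Big d k) : ‖F.a d k z‖ ≤ 2 := by
  have h1 := h.a_near hz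
  have h2 : F.T k ^ 11 ≤ 1 := pow_le_one₀ (h.T_pos k).le ((h.T_le k).trans (by norm_num))
  calc ‖F.a d k z‖ = ‖(F.a d k z - 1) + 1‖ := by simp
    _ ≤ ‖F.a d k z - 1‖ + ‖(1 : ℂ)‖ := norm_add_le _ _
    _ ≤ 2 := by rw [norm_one]; linarith

lemma prim_b_le (e : ι × Bool) {ζ : ℂ} (hζ : ζ ∈ Metric.sphere (d.pos e) (F.sr d e)) :
    ‖F.b d (F.lay e) ζ‖ ≤ 5 * F.R e / ‖d.bet e‖ := by
  have h1 : ‖ζ - d.pos e‖ = F.sr d e := mem_sphere_iff_norm.1 hζ
  simpa using h.b_contour e h1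

theorem prim_aa (e : ι × Bool) {z : ℂ} (hz : ‖d.bet e‖ ^ 2 / F.R e ≤ ‖z - d.pos e‖) :
    ‖F.prim d (F.aa d (F.lay e)) e z‖ ≤ 2 * ‖d.bet e‖ ^ 4 / (F.R e ^ 2 * ‖z - d.pos e‖) := by
  have h2 := h.bet_pos e
  have h3 := h.R_pos e
  have h4 : 0 < ‖z - d.pos e‖ := lt_of_lt_of_le (by positivity) hz
  have hb := prim_bound (f := F.aa d (F.lay e)) (M := 4) (z := z) (h.sr_pos e) (fun ζ hζ => by
    have := h.prim_a_le (h.prim_sph e hζ)
    unfold Frm.aa
    rw [norm_pow]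
    nlinarith [norm_nonneg (F.a d (F.lay e) ζ)]) (by rw [h.prim_two_sr]; exact hz)
  refine hb.trans (le_of_eq ?_)
  unfold Frm.sr
  field_simp
  ring

theorem prim_ab (e : ι × Bool) {z : ℂ} (hz : ‖d.bet e‖ ^ 2 / F.R e ≤ ‖z - d.pos e‖) :
    ‖F.prim d (F.ab d (F.lay e)) e z‖ ≤ 5 * ‖d.bet e‖ ^ 3 / (F.R e * ‖z - d.pos e‖) := by
  have h2 := h.bet_pos e
  have h3 := h.R_pos e
  have h4 : 0 < ‖z - d.pos e‖ := lt_of_lt_of_le (by positivity) hz
  have hb := prim_bound (f := F.ab d (F.lay e)) (M := 2 * (5 * F.R e / ‖d.bet e‖)) (z := z)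
    (h.sr_pos e) (fun ζ hζ => by
    unfold Frm.ab
    rw [norm_mul]
    exact mul_le_mul (h.prim_a_le (h.prim_sph e hζ)) (h.prim_b_le e hζ) (norm_nonneg _)
      (by norm_num)) (by rw [h.prim_two_sr]; exact hz)
  refine hb.trans (le_of_eq ?_)
  unfold Frm.sr
  field_simp

theorem prim_bb (e : ι × Bool) {z : ℂ} (hz : ‖d.bet e‖ ^ 2 / F.R e ≤ ‖z - d.pos e‖) :
    ‖F.prim d (F.bb d (F.lay e)) e z‖ ≤ 13 * ‖d.bet e‖ ^ 2 / ‖z - d.pos e‖ := by
  have h2 := h.bet_pos e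
  have h3 := h.R_pos e
  have h4 : 0 < ‖z - d.pos e‖ := lt_of_lt_of_le (by positivity) hz
  have hb := prim_bound (f := F.bb d (F.lay e)) (M := (5 * F.R e / ‖d.bet e‖) ^ 2) (z := z)
    (h.sr_pos e) (fun ζ hζ => by
    unfold Frm.bb
    rw [norm_pow]
    exact pow_le_pow_left₀ (norm_nonneg _) (h.prim_b_le e hζ) 2) (by rw [h.prim_two_sr]; exact hz)
  refine hb.trans ?_
  refine div_le_div_of_nonneg_right ?_ h4.le
  have : 2 * (5 * F.R e / ‖d.bet e‖) ^ 2 * F.sr d e ^ 2 = 25 / 2 * ‖d.bet e‖ ^ 2 := by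
    unfold Frm.sr
    field_simp
    ring
  rw [this]
  nlinarith [sq_nonneg ‖d.bet e‖]

lemma prim_U_lt {k : ℕ} {z : ℂ} (hz : z ∈ F.U d k) {e : ι × Bool} (he : e ∈ F.sides k) :
    F.sr d e < ‖z - d.pos e‖ := by
  have h1 := hz e he
  rw [← h.prim_two_sr] at h1
  have := h.sr_pos e
  linarith

lemma prim_U_ne {k : ℕ} {z : ℂ} (hz : z ∈ F.U d k) {e : ι × Bool} (he : e ∈ F.sides k) :
    z - d.pos e ≠ 0 :=
  norm_pos_iff.1 ((h.sr_pos e).trans (h.prim_U_lt hz he))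

lemma prim_hd {k : ℕ} {f : ℂ → ℂ} (hf : DifferentiableOn ℂ f (F.Big d k)) {z : ℂ}
    (hz : z ∈ F.U d k) {e : ι × Bool} (he : e ∈ F.sides k) :
    HasDerivAt (F.prim d f e)
      (((2 * Real.pi * I)⁻¹ * ∮ ζ in C(d.pos e, F.sr d e), f ζ / (z - ζ)) -
        F.res d f e / (z - d.pos e)) z := by
  have hk : F.lay e = k := mem_sides_iff.1 he
  exact prim_deriv (h.sr_pos e) (hf.continuousOn.mono (hk ▸ h.prim_sph e)) (h.prim_U_lt hz he)

lemma prim_sum_hd {k : ℕ} {f : ℂ → ℂ} {f0 : ℂ} (hf : DifferentiableOn ℂ f (F.Big d k))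
    (hi : Tendsto f (Bornology.cobounded ℂ) (𝓝 f0)) {z : ℂ} (hz : z ∈ F.U d k) :
    HasDerivAt (fun w => ∑ e ∈ F.sides k, F.prim d f e w)
      (f z - f0 - ∑ e ∈ F.sides k, F.res d f e / (z - d.pos e)) z := by
  have h1 := HasDerivAt.fun_sum (u := F.sides k) fun e he => h.prim_hd hf hz he
  have h2 := decomp (F.sides k) d.pos (F.sr d) (isOpen_Big k)
    (fun w hw e he => (h.prim_sr_gt e).trans_le (hw e he)) hf (fun e _ => h.sr_pos e)
    (fun e he e' he' hne => by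
      have hm : e' ∈ F.oth e :=
        mem_oth.2 ⟨hne.symm, (mem_sides_iff.1 he').trans (mem_sides_iff.1 he).symm⟩
      have := h.sep e e' hm
      have := h.sep' hm
      have := h.prim_sr_le e
      have := h.prim_sr_le e'
      have := h.R_pos e
      linarith) hi (fun e he => h.prim_U_lt hz he)
  refine h1.congr_deriv ?_
  rw [Finset.sum_sub_distrib, h2]
  ring

lemma prim_hol_aa (k : ℕ) : DifferentiableOn ℂ (F.aa d k) (F.Big d k) := (h.hol_a k).pow 2

lemma prim_hol_ab (k : ℕ) : DifferentiableOn ℂ (F.ab d k) (F.Big d k) := (h.hol_a k).mul (h.hol_b k)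

lemma prim_hol_bb (k : ℕ) : DifferentiableOn ℂ (F.bb d k) (F.Big d k) := (h.hol_b k).pow 2

lemma prim_log_cont {k : ℕ} {z : ℂ} (hz : z ∈ F.U d k) {e : ι × Bool} (he : e ∈ F.sides k) :
    ContinuousAt (fun w => Real.log ‖w - d.pos e‖) z := by
  obtain ⟨L, hL, -⟩ := prim_log_hd (h.prim_U_ne hz he)
  exact hL.continuousAt

theorem H_cont (k : ℕ) : ContinuousOn (F.H d k) (F.U d k) := by
  intro z hz
  refine ContinuousAt.continuousWithinAt ?_
  unfold Frm.H
  refine continuousAt_id.add (tendsto_finsetSum _ fun e he => ?_)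
  have h1 := (h.prim_hd (h.prim_hol_aa k) hz he).continuousAt
  have h2 := (h.prim_hd (h.prim_hol_bb k) hz he).continuousAt
  have h3 := h.prim_log_cont hz he
  exact (h1.sub (continuous_conj.continuousAt.comp h2)).add
    (continuousAt_const.mul (continuous_ofReal.continuousAt.comp h3))

theorem h0_cont (k : ℕ) : ContinuousOn (F.h0 d k) (F.U d k) := by
  intro z hz
  refine ContinuousAt.continuousWithinAt ?_
  unfold Frm.h0
  refine tendsto_finsetSum _ fun e he => ?_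
  have h1 := (h.prim_hd (h.prim_hol_ab k) hz he).continuousAt
  have h3 := h.prim_log_cont hz he
  exact (continuous_re.continuousAt.comp h1).add (continuousAt_const.mul h3)

lemma prim_hor (hs : F.Sol d C) (e : ι × Bool) : conj (F.rb d e) = -F.ra d e := by
  rcases e with ⟨ν, _ | _⟩
  · have h1 := congrArg conj (hs.hor ν)
    rw [map_add, conj_conj, map_zero] at h1
    linear_combination h1
  · have h1 := h.ra_opp (ν, false)
    have h2 := h.ra_opp (ν, true)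
    have h3 := congrArg conj (hs.hor ν)
    rw [map_add, conj_conj, map_zero] at h3
    rw [opp_false] at h1
    rw [opp_true] at h2
    linear_combination h3 - h2 + h1

lemma prim_ver (hs : F.Sol d C) (e : ι × Bool) : (F.rab d e).im = 0 := by
  rcases e with ⟨ν, _ | _⟩
  · exact hs.ver ν
  · have h1 := h.rab_opp (ν, false)
    rw [opp_false] at h1
    rw [h1]
    simp [hs.ver ν]

theorem H_deriv (hs : F.Sol d C) {k : ℕ} {z : ℂ} (hz : z ∈ F.U d k) :
    ∃ L : ℂ →L[ℝ] ℂ, HasFDerivAt (F.H d k) L z ∧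
      ∀ v, L v = F.a d k z ^ 2 * v - conj (F.b d k z ^ 2 * v) := by
  have ha := (h.prim_sum_hd (h.prim_hol_aa k) (f0 := 1)
    (by have := (h.a_tendsto k).pow 2; rwa [one_pow] at this) hz).hasFDerivAt.restrictScalars ℝ
  have hb := (h.prim_sum_hd (h.prim_hol_bb k) (f0 := 0)
    (by have := (h.b_tendsto k).pow 2; rwa [zero_pow two_ne_zero] at this) hz).hasFDerivAt.restrictScalars ℝ
  have hb' := conjCLE.toContinuousLinearMap.hasFDerivAt.comp z hb
  have hl : ∀ e : ι × Bool, ∃ L : ℂ →L[ℝ] ℝ, e ∈ F.sides k →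
      HasFDerivAt (fun w => Real.log ‖w - d.pos e‖) L z ∧ ∀ v, L v = (v / (z - d.pos e)).re := by
    intro e
    by_cases he : e ∈ F.sides k
    · obtain ⟨L, hL⟩ := prim_log_hd (h.prim_U_ne hz he)
      exact ⟨L, fun _ => hL⟩
    · exact ⟨0, fun h' => absurd h' he⟩
  choose L hL using hl
  have hc := HasFDerivAt.fun_sum (u := F.sides k) fun e he =>
    (ofRealCLM.hasFDerivAt.comp z (hL e he).1).const_mul (2 * F.ra d e)
  refine ⟨_, (((hasFDerivAt_id z).add (ha.sub hb')).add hc).congr_of_eventuallyEq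
    (Eventually.of_forall fun w => ?_), fun v => ?_⟩
  · simp only [Frm.H, Finset.sum_add_distrib, Finset.sum_sub_distrib, Pi.add_apply, Pi.sub_apply,
      id, Function.comp, ofRealCLM_apply, ContinuousLinearEquiv.coe_coe, conjCLE_apply, map_sum]
    ring
  · have key : ∑ e ∈ F.sides k, (2 * F.ra d e) * ((L e v : ℝ) : ℂ) =
        v * ∑ e ∈ F.sides k, F.res d (F.aa d k) e / (z - d.pos e) -
          conj (v * ∑ e ∈ F.sides k, F.res d (F.bb d k) e / (z - d.pos e)) := by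
      rw [Finset.mul_sum, Finset.mul_sum, map_sum, ← Finset.sum_sub_distrib]
      refine Finset.sum_congr rfl fun e he => ?_
      have hk : F.lay e = k := mem_sides_iff.1 he
      have e1 : F.res d (F.aa d k) e = F.ra d e := by rw [← hk]; rfl
      have e2 : F.res d (F.bb d k) e = F.rb d e := by rw [← hk]; rfl
      have e3 : v * (F.rb d e / (z - d.pos e)) = F.rb d e * (v / (z - d.pos e)) := by ring
      rw [(hL e he).2, e1, e2, e3, map_mul, h.prim_hor hs e, re_eq_add_conj]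
      ring
    simp only [_root_.add_apply, _root_.sub_apply,
      _root_.sum_apply, _root_.smul_apply, ContinuousLinearMap.comp_apply,
      ContinuousLinearMap.id_apply, ContinuousLinearMap.coe_restrictScalars',
      ContinuousLinearMap.toSpanSingleton_apply, ofRealCLM_apply, smul_eq_mul,
      ContinuousLinearEquiv.coe_coe, conjCLE_apply]
    rw [key]
    simp only [Frm.aa, Frm.bb, map_mul, map_sub, map_zero]
    ring

theorem h0_deriv (hs : F.Sol d C) {k : ℕ} {z : ℂ} (hz : z ∈ F.U d k) :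
    ∃ L : ℂ →L[ℝ] ℝ, HasFDerivAt (F.h0 d k) L z ∧ ∀ v, L v = (F.a d k z * F.b d k z * v).re := by
  have ha := (h.prim_sum_hd (h.prim_hol_ab k) (f0 := 0)
    (by have := (h.a_tendsto k).mul (h.b_tendsto k); rwa [mul_zero] at this) hz).hasFDerivAt.restrictScalars ℝ
  have ha' := reCLM.hasFDerivAt.comp z ha
  have hl : ∀ e : ι × Bool, ∃ L : ℂ →L[ℝ] ℝ, e ∈ F.sides k →
      HasFDerivAt (fun w => Real.log ‖w - d.pos e‖) L z ∧ ∀ v, L v = (v / (z - d.pos e)).re := by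
    intro e
    by_cases he : e ∈ F.sides k
    · obtain ⟨L, hL⟩ := prim_log_hd (h.prim_U_ne hz he)
      exact ⟨L, fun _ => hL⟩
    · exact ⟨0, fun h' => absurd h' he⟩
  choose L hL using hl
  have hc := HasFDerivAt.fun_sum (u := F.sides k) fun e he =>
    (hL e he).1.const_mul (F.rab d e).re
  refine ⟨_, (ha'.add hc).congr_of_eventuallyEq (Eventually.of_forall fun w => ?_), fun v => ?_⟩
  · simp only [Frm.h0, Finset.sum_add_distrib, Pi.add_apply, Function.comp, reCLM_apply, re_sum]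
  · have key : ∑ e ∈ F.sides k, (F.rab d e).re * L e v =
        (v * ∑ e ∈ F.sides k, F.res d (F.ab d k) e / (z - d.pos e)).re := by
      rw [Finset.mul_sum, re_sum]
      refine Finset.sum_congr rfl fun e he => ?_
      have hk : F.lay e = k := mem_sides_iff.1 he
      have e1 : F.res d (F.ab d k) e = F.rab d e := by rw [← hk]; rfl
      have e3 : v * (F.rab d e / (z - d.pos e)) = F.rab d e * (v / (z - d.pos e)) := by ring
      rw [(hL e he).2, e1, e3, mul_re, h.prim_ver hs e]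
      ring
    simp only [_root_.add_apply,
      _root_.sum_apply, _root_.smul_apply, ContinuousLinearMap.comp_apply,
      ContinuousLinearMap.coe_restrictScalars',
      ContinuousLinearMap.toSpanSingleton_apply, reCLM_apply, smul_eq_mul]
    rw [key, ← add_re]
    congr 1
    simp only [Frm.ab]
    ring

theorem wei (hs : F.Sol d C) {k : ℕ} {z : ℂ} (hz : z ∈ F.U d k) :
    Wei (F.X d C k) (F.a d k z) (F.b d k z) z := by
  obtain ⟨L, hL, eL⟩ := h.H_deriv hs hz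
  obtain ⟨L', hL', eL'⟩ := h.h0_deriv hs hz
  obtain ⟨M, hM, eM⟩ := prim_mk3_hd hL ((hL'.const_add (C k)).const_mul 2)
  refine ⟨M, hM, fun v => ?_⟩
  rw [eM, eL, _root_.smul_apply, eL', smul_eq_mul]

lemma prim_log_est {k : ℕ} {z : ℂ} (hz : z ∈ F.Ub d k) {e : ι × Bool} (he : e ∈ F.sides k) :
    |Real.log ‖z - d.pos e‖ - Real.log (‖z‖ + Real.exp (F.T k)⁻¹)| ≤ 4 * (F.T k)⁻¹ := by
  have hk : F.lay e = k := mem_sides_iff.1 he
  have hT : 1000 ≤ (F.T k)⁻¹ := by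
    have h1 := h.T_pos k
    have h2 := h.T_le k
    rw [le_inv_comm₀ (by norm_num) h1]
    linarith
  obtain ⟨τ, hτ⟩ : ∃ τ, τ = (F.T k)⁻¹ := ⟨_, rfl⟩
  have hp : ‖d.pos e‖ ≤ Real.exp τ := by rw [hτ, ← hk]; exact h.pos_le e
  have hx : Real.exp (-τ) ≤ ‖z - d.pos e‖ := by
    rw [hτ, ← hk]
    exact (h.t_ge e).trans ((h.b_ge e).trans (hz e he))
  rw [← hτ] at hT ⊢
  have hE : 1 ≤ Real.exp τ := Real.one_le_exp (by linarith)
  have hx0 : 0 < ‖z - d.pos e‖ := (Real.exp_pos _).trans_le hx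
  have hy0 : 0 < ‖z‖ + Real.exp τ := by positivity
  have h1 : ‖z - d.pos e‖ ≤ ‖z‖ + Real.exp τ := (norm_sub_le _ _).trans (by linarith)
  have h2 : ‖z‖ - Real.exp τ ≤ ‖z - d.pos e‖ := by
    have := norm_sub_norm_le z (d.pos e)
    linarith
  have h3 : 1 ≤ Real.exp τ * ‖z - d.pos e‖ := by
    have : Real.exp τ * Real.exp (-τ) = 1 := by rw [← Real.exp_add]; simp
    nlinarith [Real.exp_pos τ]
  have h4 : ‖z‖ + Real.exp τ ≤ Real.exp τ ^ 4 * ‖z - d.pos e‖ := by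
    have h5 : 3 ≤ Real.exp τ := by have := Real.add_one_le_exp τ; linarith
    have h6 : Real.exp τ ≤ Real.exp τ ^ 2 * ‖z - d.pos e‖ := by nlinarith
    have h7 : ‖z - d.pos e‖ ≤ Real.exp τ ^ 2 * ‖z - d.pos e‖ := by
      have : 1 ≤ Real.exp τ ^ 2 := one_le_pow₀ hE
      nlinarith
    have h8 : 3 ≤ Real.exp τ ^ 2 := by nlinarith
    have h9 : 0 ≤ Real.exp τ ^ 2 * ‖z - d.pos e‖ := by positivity
    calc ‖z‖ + Real.exp τ ≤ 3 * (Real.exp τ ^ 2 * ‖z - d.pos e‖) := by linarith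
      _ ≤ Real.exp τ ^ 2 * (Real.exp τ ^ 2 * ‖z - d.pos e‖) := by gcongr
      _ = _ := by ring
  have l1 := Real.log_le_log hx0 h1
  have l2 := Real.log_le_log hy0 h4
  rw [Real.log_mul (by positivity) hx0.ne', Real.log_pow, Real.log_exp] at l2
  rw [abs_le]
  constructor
  · push_cast at l2
    linarith
  · linarith

theorem H_near (hs : F.Sol d C) {k : ℕ} {z : ℂ} (hz : z ∈ F.Ub d k) :
    ‖F.H d k z - z‖ ≤ (F.T k)⁻¹ ^ 3 := by
  have hT : 1000 ≤ (F.T k)⁻¹ := by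
    have h1 := h.T_pos k
    have h2 := h.T_le k
    rw [le_inv_comm₀ (by norm_num) h1]
    linarith
  have e0 : F.H d k z - z = ∑ e ∈ F.sides k, (F.prim d (F.aa d k) e z -
      conj (F.prim d (F.bb d k) e z) + 2 * F.ra d e *
        ((Real.log ‖z - d.pos e‖ - Real.log (‖z‖ + Real.exp (F.T k)⁻¹) : ℝ) : ℂ)) := by
    have h1 : ∑ e ∈ F.sides k, 2 * F.ra d e * (Real.log (‖z‖ + Real.exp (F.T k)⁻¹) : ℝ) = 0 := by
      rw [← Finset.sum_mul, ← Finset.mul_sum, hs.sum_ra k]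
      ring
    simp only [Frm.H, ofReal_sub, mul_sub, Finset.sum_add_distrib, Finset.sum_sub_distrib, h1]
    ring
  rw [e0]
  have hb : ∀ e ∈ F.sides k, ‖F.prim d (F.aa d k) e z -
      conj (F.prim d (F.bb d k) e z) + 2 * F.ra d e *
        ((Real.log ‖z - d.pos e‖ - Real.log (‖z‖ + Real.exp (F.T k)⁻¹) : ℝ) : ℂ)‖ ≤
      (F.T k)⁻¹ ^ 2 := by
    intro e he
    have hk : F.lay e = k := mem_sides_iff.1 he
    have hU := (h.Ub_sub k hz e he).le
    have hβ := h.bet_pos e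
    have hx := hz e he
    have hx0 : 0 < ‖z - d.pos e‖ := hβ.trans_le hx
    have hR := h.R_pos e
    have hβR := h.prim_bet_le_R e
    have hβT : ‖d.bet e‖ ≤ (F.T k)⁻¹ := hk ▸ h.b_le e
    have h1 : ‖F.prim d (F.aa d k) e z‖ ≤ 2 * (F.T k)⁻¹ := by
      have := h.prim_aa e hU
      rw [hk] at this
      refine this.trans ?_
      rw [div_le_iff₀ (by positivity)]
      have h5 : ‖d.bet e‖ ^ 2 ≤ F.R e ^ 2 := by gcongr
      calc 2 * ‖d.bet e‖ ^ 4 = 2 * ‖d.bet e‖ * (‖d.bet e‖ ^ 2 * ‖d.bet e‖) := by ring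
        _ ≤ 2 * (F.T k)⁻¹ * (F.R e ^ 2 * ‖z - d.pos e‖) := by gcongr
    have h2 : ‖F.prim d (F.bb d k) e z‖ ≤ 13 * (F.T k)⁻¹ := by
      have := h.prim_bb e hU
      rw [hk] at this
      refine this.trans ?_
      rw [div_le_iff₀ hx0]
      calc 13 * ‖d.bet e‖ ^ 2 = 13 * ‖d.bet e‖ * ‖d.bet e‖ := by ring
        _ ≤ 13 * (F.T k)⁻¹ * ‖z - d.pos e‖ := by gcongr
    have h3 : ‖F.ra d e‖ ≤ 10 := by
      refine (h.ra_le e).trans ?_
      have ht := h.t_pos e.1
      have h5 : ‖d.bet e‖ * F.t e.1 ≤ 1 := by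
        have := mul_le_mul_of_nonneg_right (h.bet_le e) ht.le
        rwa [inv_mul_cancel₀ ht.ne'] at this
      have h6 : F.t e.1 ^ 29 ≤ 1 := pow_le_one₀ ht.le ((h.t_small _).trans (by norm_num))
      calc 10 * ‖d.bet e‖ * F.t e.1 ^ 30 = 10 * (‖d.bet e‖ * F.t e.1) * F.t e.1 ^ 29 := by ring
        _ ≤ 10 * 1 * 1 := by gcongr
        _ = 10 := by norm_num
    have h4 := h.prim_log_est hz he
    refine (norm_add_le _ _).trans ?_
    have h5 := norm_sub_le (F.prim d (F.aa d k) e z) (conj (F.prim d (F.bb d k) e z))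
    rw [norm_conj] at h5
    have h6 : ‖2 * F.ra d e *
        ((Real.log ‖z - d.pos e‖ - Real.log (‖z‖ + Real.exp (F.T k)⁻¹) : ℝ) : ℂ)‖ ≤
        2 * 10 * (4 * (F.T k)⁻¹) := by
      rw [norm_mul, norm_mul, norm_real, Real.norm_eq_abs, Complex.norm_ofNat]
      gcongr
    nlinarith
  refine (norm_sum_le _ _).trans ((Finset.sum_le_sum hb).trans ?_)
  rw [Finset.sum_const, nsmul_eq_mul]
  have := h.card k
  calc ((F.sides k).card : ℝ) * (F.T k)⁻¹ ^ 2 ≤ (F.T k)⁻¹ * (F.T k)⁻¹ ^ 2 := by gcongr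
    _ = _ := by ring

end Frm.Adm

theorem X_eq_iff {k k' : ℕ} {z z' : ℂ} : F.X d C k z = F.X d C k' z' ↔
    F.H d k z = F.H d k' z' ∧ C k + F.h0 d k z = C k' + F.h0 d k' z' := by
  constructor
  · intro h
    have h0 := congrArg (fun x : E3 => x 0) h
    have h1 := congrArg (fun x : E3 => x 1) h
    have h2 := congrArg (fun x : E3 => x 2) h
    simp only [Frm.X, mk3] at h0 h1 h2
    refine ⟨Complex.ext (by simpa using h0) (by simpa using h1), ?_⟩
    have h3 : 2 * (C k + F.h0 d k z) = 2 * (C k' + F.h0 d k' z') := by simpa using h2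
    linarith
  · rintro ⟨h1, h2⟩
    simp only [Frm.X, h1, h2]

end Pool.Agent.MP_943ae2_gt
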