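import Pool.Agent.MP_943ae2_gt.Wall0

open Set Complex Filter Finset
open scoped Topology ComplexConjugate ContDiff

noncomputable section

namespace Pool.Agent.MP_943ae2_gt

variable (n : ℕ) [NeZero n]

lemma Ring1_ne : (n : ℂ) ≠ 0 := Nat.cast_ne_zero.2 (NeZero.ne n)

lemma Ring1_pos : (0 : ℝ) < n := Nat.cast_pos.2 (NeZero.pos n)

lemma Ring1_one : (ZMod.stdAddChar (1 : ZMod n) : ℂ) = exp (2 * Real.pi * I / n) := by
  simpa using ZMod.stdAddChar_coe (N := n) 1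

lemma Ring1_nat (k : ℕ) :
    (ZMod.stdAddChar (k : ZMod n) : ℂ) = ZMod.stdAddChar (1 : ZMod n) ^ k := by
  rw [← AddChar.map_nsmul_eq_pow, nsmul_eq_mul, mul_one]

lemma Ring1_prim : IsPrimitiveRoot (ZMod.stdAddChar (1 : ZMod n) : ℂ) n := by
  rw [Ring1_one]
  exact isPrimitiveRoot_exp n (NeZero.ne n)

theorem norm_ze : ‖ze n‖ = 1 := by
  have e : (Real.pi : ℂ) * I / n = ((Real.pi / n : ℝ) : ℂ) * I := by
    push_cast
    ring
  rw [ze, e, norm_exp_ofReal_mul_I]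

theorem ze_pow : ze n ^ n = -1 := by
  rw [ze, ← exp_nat_mul, mul_div_cancel₀ _ (Ring1_ne n), exp_pi_mul_I]

theorem ze_sq : ze n ^ 2 = ZMod.stdAddChar (1 : ZMod n) := by
  rw [Ring1_one, ze, ← exp_nat_mul]
  congr 1
  push_cast
  ring

theorem norm_chi (i : ZMod n) : ‖(ZMod.stdAddChar i : ℂ)‖ = 1 := AddChar.norm_apply _ _

theorem chi_pow (i : ZMod n) : (ZMod.stdAddChar i : ℂ) ^ n = 1 := by
  rw [← AddChar.map_nsmul_eq_pow, nsmul_eq_mul, ZMod.natCast_self, zero_mul,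
    AddChar.map_zero_eq_one]

theorem norm_un (k : ℕ) (i : ZMod n) : ‖un n k i‖ = 1 := by
  rw [un, norm_mul, norm_pow, norm_ze, norm_chi, one_pow, one_mul]

theorem un_pow (k : ℕ) (i : ZMod n) : un n k i ^ n = (-1) ^ k := by
  rw [un, mul_pow, chi_pow, mul_one, ← pow_mul, mul_comm, pow_mul, ze_pow]

theorem un_add (k : ℕ) (i d : ZMod n) : un n k (i + d) = un n k i * ZMod.stdAddChar d := by
  rw [un, un, AddChar.map_add_eq_mul, mul_assoc]

lemma Ring1_un_ne (k : ℕ) (i : ZMod n) : un n k i ≠ 0 := by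
  rw [← norm_ne_zero_iff, norm_un]
  exact one_ne_zero

lemma Ring1_un_eq (k : ℕ) (i j : ZMod n) : un n k j = un n k i * ZMod.stdAddChar (j - i) := by
  rw [← un_add, add_sub_cancel]

theorem un_div (k : ℕ) (i j : ZMod n) : un n k j / un n k i = ZMod.stdAddChar (j - i) := by
  rw [Ring1_un_eq n k i j, mul_div_cancel_left₀ _ (Ring1_un_ne n k i)]

lemma Ring1_succ (k : ℕ) (j : ZMod n) : un n (k + 1) j = ze n * un n k j := by
  rw [un, un, pow_succ']
  ring

theorem un_succ_div (k : ℕ) (i j : ZMod n) :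
    un n (k + 1) j / un n k i = ze n * ZMod.stdAddChar (j - i) := by
  rw [Ring1_succ, mul_div_assoc, un_div]

theorem un_refl (k : ℕ) (i : ZMod n) : un n k (-i - k) = conj (un n k i) := by
  rw [← inv_eq_conj (norm_un n k i)]
  refine eq_inv_of_mul_eq_one_left ?_
  have e : un n k (-i - k) * un n k i =
      (ze n ^ 2) ^ k * (ZMod.stdAddChar (-i - (k : ZMod n)) * ZMod.stdAddChar i) := by
    rw [un, un]
    ring
  rw [e, ze_sq, ← Ring1_nat, ← AddChar.map_add_eq_mul, ← AddChar.map_add_eq_mul,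
    show (k : ZMod n) + (-i - k + i) = 0 by ring, AddChar.map_zero_eq_one]

lemma Ring1_sum (m : ℕ) :
    ∑ j : ZMod n, (ZMod.stdAddChar j : ℂ) ^ m = if n ∣ m then (n : ℂ) else 0 := by
  have h := AddChar.sum_mulShift (m : ZMod n) (ZMod.isPrimitive_stdAddChar n)
  simp only [ZMod.natCast_eq_zero_iff, ZMod.card, Nat.cast_ite, Nat.cast_zero] at h
  rw [← h]
  refine Finset.sum_congr rfl fun j _ => ?_
  rw [← AddChar.map_nsmul_eq_pow, nsmul_eq_mul, mul_comm]

theorem sum_chi_pow {m : ℕ} (h1 : 1 ≤ m) (h2 : m < n) :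
    ∑ j : ZMod n, (ZMod.stdAddChar j : ℂ) ^ m = 0 := by
  rw [Ring1_sum, if_neg (Nat.not_dvd_of_pos_of_lt h1 h2)]

lemma Ring1_prod_all {M : Type} [CommMonoid M] (f : ZMod n → M) :
    ∏ j : ZMod n, f j = ∏ k ∈ range n, f k :=
  Finset.prod_nbij' ZMod.val (fun k => (k : ZMod n)) (fun a _ => Finset.mem_range.2 (ZMod.val_lt a))
    (fun _ _ => Finset.mem_univ _) (fun a _ => ZMod.natCast_zmod_val a)
    (fun _ ha => ZMod.val_cast_of_lt (Finset.mem_range.1 ha)) (fun a _ => by rw [ZMod.natCast_zmod_val])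

lemma Ring1_prod_ne {M : Type} [CommMonoid M] (f : ZMod n → M) (i : ZMod n) :
    ∏ j ∈ univ.erase i, f (j - i) = ∏ k ∈ range (n - 1), f (k + 1 : ℕ) := by
  have hn := NeZero.pos n
  symm
  refine Finset.prod_nbij' (fun k => ((k + 1 : ℕ) : ZMod n) + i) (fun j => (j - i).val - 1)
    (fun a ha => ?_) (fun j _ => ?_) (fun a ha => ?_) (fun j hj => ?_) (fun a _ => ?_)
  · have := Finset.mem_range.1 ha
    simp only [mem_erase, Finset.mem_univ, and_true, ne_eq, add_eq_right, ZMod.natCast_eq_zero_iff]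
    exact Nat.not_dvd_of_pos_of_lt (by omega) (by omega)
  · have h1 := ZMod.val_lt (j - i)
    have h2 : (j - i).val ≠ 0 := by
      rw [ZMod.val_ne_zero, sub_ne_zero]
      exact (mem_erase.1 ‹_›).1
    rw [Finset.mem_range]
    omega
  · have := Finset.mem_range.1 ha
    simp only [add_sub_cancel_right]
    rw [ZMod.val_cast_of_lt (by omega), Nat.add_sub_cancel]
  · have h2 : (j - i).val ≠ 0 := by
      rw [ZMod.val_ne_zero, sub_ne_zero]
      exact (mem_erase.1 hj).1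
    rw [Nat.sub_add_cancel (Nat.pos_of_ne_zero h2), ZMod.natCast_zmod_val, sub_add_cancel]
  · simp only [add_sub_cancel_right]

lemma Ring1_sum_ne {M : Type} [AddCommMonoid M] (f : ZMod n → M) (i : ZMod n) :
    ∑ j ∈ univ.erase i, f (j - i) = ∑ k ∈ range (n - 1), f (k + 1 : ℕ) :=
  Ring1_prod_ne n (M := Multiplicative M) f i

theorem prod_sub_chi (z w : ℂ) : ∏ j : ZMod n, (z - w * ZMod.stdAddChar j) = z ^ n - w ^ n := by
  have h := congrArg (Polynomial.eval z)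
    (X_pow_sub_C_eq_prod (Ring1_prim n) (NeZero.pos n) (rfl : w ^ n = w ^ n))
  simp only [Polynomial.eval_sub, Polynomial.eval_pow, Polynomial.eval_X, Polynomial.eval_C,
    Polynomial.eval_prod] at h
  rw [h, Ring1_prod_all]
  refine Finset.prod_congr rfl fun k _ => ?_
  rw [Ring1_nat, mul_comm]

lemma Ring1_pick (z : ℂ) (c : ℕ → ℂ) {m : ℕ} (h1 : 1 ≤ m) (h2 : m ≤ n) :
    ∑ j : ZMod n, (ZMod.stdAddChar j : ℂ) ^ m * ∑ l ∈ range n, c l * (z * ZMod.stdAddChar j) ^ l =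
      n * (c (n - m) * z ^ (n - m)) := by
  have e : ∀ (j : ZMod n) (l : ℕ), (ZMod.stdAddChar j : ℂ) ^ m *
      (c l * (z * ZMod.stdAddChar j) ^ l) = c l * z ^ l * (ZMod.stdAddChar j : ℂ) ^ (m + l) :=
    fun j l => by ring
  simp_rw [Finset.mul_sum, e]
  rw [Finset.sum_comm]
  simp_rw [← Finset.mul_sum, Ring1_sum]
  rw [Finset.sum_eq_single (n - m), if_pos (by rw [Nat.add_sub_cancel' h2]), mul_comm]
  · intro l hl hne
    rw [if_neg, mul_zero]
    intro hd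
    have := Finset.mem_range.1 hl
    have h3 := (Nat.dvd_sub hd (dvd_refl n))
    rcases lt_trichotomy (m + l) n with h | h | h
    · exact Nat.not_dvd_of_pos_of_lt (by omega) h hd
    · omega
    · exact Nat.not_dvd_of_pos_of_lt (by omega) (by omega) h3
  · intro h
    exact absurd (Finset.mem_range.2 (by omega)) h

omit [NeZero n] in
lemma Ring1_kap {x : ℂ} (hx : x ^ n ≠ 1) :
    kap x = ∑ l ∈ range n, (1 - x ^ n)⁻¹ * x ^ l := by
  have h1 : 1 - x ≠ 0 := fun h => hx (by rw [← sub_eq_zero.1 h, one_pow])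
  have h2 : 1 - x ^ n ≠ 0 := sub_ne_zero.2 hx.symm
  rw [← Finset.mul_sum, kap, eq_inv_mul_iff_mul_eq₀ h2, ← mul_neg_geom_sum]
  field_simp

omit [NeZero n] in
lemma Ring1_geom (x : ℂ) : (1 - x) * ∑ l ∈ range n, (l : ℂ) * x ^ l =
    x * ∑ l ∈ range n, x ^ l - n * x ^ n := by
  induction n with
  | zero => simp
  | succ k ih =>
    rw [sum_range_succ, sum_range_succ, mul_add, ih]
    push_cast
    ring

omit [NeZero n] in
lemma Ring1_kap_sq {x : ℂ} (hx : x ^ n ≠ 1) : x * kap x ^ 2 =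
    ∑ l ∈ range n, ((l * (1 - x ^ n) + n * x ^ n) / (1 - x ^ n) ^ 2) * x ^ l := by
  have h1 : 1 - x ≠ 0 := fun h => hx (by rw [← sub_eq_zero.1 h, one_pow])
  have h2 : 1 - x ^ n ≠ 0 := sub_ne_zero.2 hx.symm
  have e : ∑ l ∈ range n, ((l * (1 - x ^ n) + n * x ^ n) / (1 - x ^ n) ^ 2) * x ^ l =
      ((1 - x ^ n) * ∑ l ∈ range n, (l : ℂ) * x ^ l + n * x ^ n * ∑ l ∈ range n, x ^ l) /
        (1 - x ^ n) ^ 2 := by
    rw [Finset.mul_sum, Finset.mul_sum, ← Finset.sum_add_distrib, Finset.sum_div]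
    exact Finset.sum_congr rfl fun l _ => by ring
  have g1 := mul_neg_geom_sum x n
  have g2 := Ring1_geom n x
  rw [e, kap]
  generalize ∑ l ∈ range n, (l : ℂ) * x ^ l = S' at *
  generalize ∑ l ∈ range n, x ^ l = S at *
  generalize x ^ n = Z at *
  field_simp
  linear_combination (-(1 - x) * (1 - Z)) * g2 - (x * (1 - Z) + (1 - x) * n * Z) * g1

lemma Ring1_zpow (z : ℂ) (j : ZMod n) : (z * ZMod.stdAddChar j) ^ n = z ^ n := by
  rw [mul_pow, chi_pow, mul_one]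

theorem sum_kap {z : ℂ} (hz : z ^ n ≠ 1) {m : ℕ} (h1 : 1 ≤ m) (h2 : m ≤ n) :
    ∑ j : ZMod n, (ZMod.stdAddChar j : ℂ) ^ m * kap (z * ZMod.stdAddChar j) =
      n * z ^ (n - m) / (1 - z ^ n) := by
  have e : ∀ j : ZMod n, kap (z * ZMod.stdAddChar j) =
      ∑ l ∈ range n, (1 - z ^ n)⁻¹ * (z * ZMod.stdAddChar j) ^ l := fun j => by
    rw [Ring1_kap n (by rwa [Ring1_zpow]), Ring1_zpow]
  simp_rw [e]
  rw [Ring1_pick n z (fun _ => (1 - z ^ n)⁻¹) h1 h2]
  ring

theorem sum_kap_sq {z : ℂ} (hz : z ^ n ≠ 1) {m : ℕ} (h1 : 1 ≤ m) (h2 : m ≤ n) :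
    ∑ j : ZMod n, (ZMod.stdAddChar j : ℂ) ^ m *
        (z * ZMod.stdAddChar j * kap (z * ZMod.stdAddChar j) ^ 2) =
      n * z ^ (n - m) * ((n - m) * (1 - z ^ n) + n * z ^ n) / (1 - z ^ n) ^ 2 := by
  have e : ∀ j : ZMod n, z * ZMod.stdAddChar j * kap (z * ZMod.stdAddChar j) ^ 2 =
      ∑ l ∈ range n, ((l * (1 - z ^ n) + n * z ^ n) / (1 - z ^ n) ^ 2) *
        (z * ZMod.stdAddChar j) ^ l := fun j => by
    rw [Ring1_kap_sq n (by rwa [Ring1_zpow]), Ring1_zpow]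
  simp_rw [e]
  rw [Ring1_pick n z (fun l => (l * (1 - z ^ n) + n * z ^ n) / (1 - z ^ n) ^ 2) h1 h2,
    Nat.cast_sub h2]
  ring

lemma Ring1_chi_ne {d : ZMod n} (hd : d ≠ 0) : (ZMod.stdAddChar d : ℂ) ≠ 1 := fun h =>
  hd (ZMod.injective_stdAddChar (h.trans (AddChar.map_zero_eq_one _).symm))

lemma Ring1_kap_add {d : ZMod n} (hd : d ≠ 0) :
    kap (ZMod.stdAddChar d) + kap (ZMod.stdAddChar (-d)) = 1 := by
  have h0 : (ZMod.stdAddChar d : ℂ) ≠ 0 := by
    rw [← norm_ne_zero_iff, norm_chi]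
    exact one_ne_zero
  have h1 := sub_ne_zero.2 (Ring1_chi_ne n hd).symm
  have h2 := sub_ne_zero.2 (Ring1_chi_ne n hd)
  rw [AddChar.map_neg_eq_inv, kap, kap]
  generalize (ZMod.stdAddChar d : ℂ) = u at *
  field_simp
  ring

theorem re_kap_chi {d : ZMod n} (hd : d ≠ 0) : (kap (ZMod.stdAddChar d)).re = 1 / 2 := by
  have h := Ring1_kap_add n hd
  have e : kap (ZMod.stdAddChar (-d)) = conj (kap (ZMod.stdAddChar d)) := by
    rw [AddChar.map_neg_eq_inv, inv_eq_conj (norm_chi n d), kap, kap]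
    simp
  rw [e, add_conj] at h
  have h2 : 2 * (kap (ZMod.stdAddChar d)).re = 1 := by exact_mod_cast h
  linarith

theorem sum_kap_same (k : ℕ) (i : ZMod n) :
    ∑ j ∈ univ.erase i, kap (un n k j / un n k i) = (n - 1) / 2 := by
  simp_rw [un_div]
  have e : ∑ j ∈ univ.erase i, kap (ZMod.stdAddChar (j - i)) =
      ∑ j ∈ univ.erase i, kap (ZMod.stdAddChar (-(j - i))) := by
    refine Finset.sum_nbij' (fun j => 2 * i - j) (fun j => 2 * i - j) (fun j hj => ?_)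
      (fun j hj => ?_) (fun j _ => by ring) (fun j _ => by ring) (fun j _ => ?_)
    · exact mem_erase.2 ⟨fun h => (mem_erase.1 hj).1 (by linear_combination -h), Finset.mem_univ _⟩
    · exact mem_erase.2 ⟨fun h => (mem_erase.1 hj).1 (by linear_combination -h), Finset.mem_univ _⟩
    · congr 2
      ring
  have h : ∑ j ∈ univ.erase i, (kap (ZMod.stdAddChar (j - i)) +
      kap (ZMod.stdAddChar (-(j - i)))) = n - 1 := by
    rw [Finset.sum_congr rfl fun j hj => Ring1_kap_add n (sub_ne_zero.2 (mem_erase.1 hj).1),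
      Finset.sum_const, Finset.card_erase_of_mem (Finset.mem_univ _), Finset.card_univ, ZMod.card,
      nsmul_eq_mul, mul_one, Nat.cast_pred (NeZero.pos n)]
  rw [Finset.sum_add_distrib, ← e] at h
  linear_combination h / 2

lemma Ring1_dist (k : ℕ) (i j : ZMod n) :
    ‖un n k i - un n k j‖ = ‖1 - (ZMod.stdAddChar (j - i) : ℂ)‖ := by
  rw [Ring1_un_eq n k i j, ← mul_one_sub, norm_mul, norm_un, one_mul]

theorem sum_log_same (k : ℕ) (i : ZMod n) :
    ∑ j ∈ univ.erase i, Real.log ‖un n k i - un n k j‖ = Real.log n := by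
  simp_rw [Ring1_dist]
  rw [← Real.log_prod fun j hj => norm_ne_zero_iff.2 (sub_ne_zero.2
    (Ring1_chi_ne n (sub_ne_zero.2 (mem_erase.1 hj).1)).symm), ← norm_prod,
    Ring1_prod_ne n (fun d => 1 - (ZMod.stdAddChar d : ℂ))]
  simp_rw [Ring1_nat]
  have hp := Ring1_prim n
  generalize (ZMod.stdAddChar (1 : ZMod n) : ℂ) = μ at hp
  obtain ⟨m, rfl⟩ := Nat.exists_eq_succ_of_ne_zero (NeZero.ne n)
  rw [Nat.succ_sub_one, hp.prod_one_sub_pow_eq_order, ← Nat.cast_succ, Complex.norm_natCast]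

theorem sum_log_ring {z w : ℂ} (h : z ^ n ≠ w ^ n) :
    ∑ j : ZMod n, Real.log ‖z - w * ZMod.stdAddChar j‖ = Real.log ‖z ^ n - w ^ n‖ := by
  rw [← Real.log_prod fun j _ => norm_ne_zero_iff.2 (sub_ne_zero.2 fun hc => h (by
    rw [hc, Ring1_zpow])), ← norm_prod, prod_sub_chi]

lemma Ring1_jordan (a : ℤ) (ha : 2 * |(a : ℝ)| ≤ n) :
    4 * |(a : ℝ)| / n ≤ ‖1 - (ZMod.stdAddChar (a : ZMod n) : ℂ)‖ := by
  have hn := Ring1_pos n
  have e : 2 * (Real.pi : ℂ) * I * a / n = I * ((2 * (Real.pi * (a / n)) : ℝ) : ℂ) := by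
    push_cast
    ring
  have e2 : |Real.pi * (a / n)| = Real.pi * (|(a : ℝ)| / n) := by
    rw [abs_mul, abs_div, abs_of_pos Real.pi_pos, abs_of_pos hn]
  have h1 : |(a : ℝ)| / n ≤ 1 / 2 := by
    rw [div_le_div_iff₀ hn (by norm_num)]
    linarith
  have h := Real.mul_abs_le_abs_sin (x := Real.pi * (a / n)) (by
    rw [e2]
    nlinarith [Real.pi_pos])
  rw [ZMod.stdAddChar_coe, e, norm_sub_rev, norm_exp_I_mul_ofReal_sub_one, Real.norm_eq_abs,
    abs_mul, abs_two, mul_div_cancel_left₀ _ two_ne_zero]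
  rw [e2, ← mul_assoc, div_mul_cancel₀ _ Real.pi_ne_zero] at h
  rw [mul_div_assoc]
  linarith

lemma Ring1_min {a b : ℕ} (ha : 1 ≤ a) (hb : 1 ≤ b) (h : a + b = n) :
    ‖1 - (ZMod.stdAddChar (a : ZMod n) : ℂ)‖⁻¹ ≤ n / 4 * ((a : ℝ)⁻¹ + (b : ℝ)⁻¹) ∧
      4 / n ≤ ‖1 - (ZMod.stdAddChar (a : ZMod n) : ℂ)‖ := by
  have hn := Ring1_pos n
  have ha' : (1 : ℝ) ≤ a := by exact_mod_cast ha
  have hb' : (1 : ℝ) ≤ b := by exact_mod_cast hb
  have h' : (a : ℝ) + b = n := by exact_mod_cast h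
  have key : ∃ c : ℝ, 1 ≤ c ∧ c⁻¹ ≤ (a : ℝ)⁻¹ + (b : ℝ)⁻¹ ∧
      4 * c / n ≤ ‖1 - (ZMod.stdAddChar (a : ZMod n) : ℂ)‖ := by
    rcases le_total (a : ℝ) b with hc | hc
    · have := Ring1_jordan n a (by push_cast; rw [Nat.abs_cast]; linarith)
      push_cast at this
      rw [Nat.abs_cast] at this
      exact ⟨a, ha', le_add_of_nonneg_right (by positivity), this⟩
    · have := Ring1_jordan n (-b) (by push_cast; rw [abs_neg, Nat.abs_cast]; linarith)
      have e : -(b : ZMod n) = a := by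
        have : ((a + b : ℕ) : ZMod n) = 0 := by rw [h, ZMod.natCast_self]
        push_cast at this
        linear_combination -this
      push_cast at this
      rw [abs_neg, Nat.abs_cast, e] at this
      exact ⟨b, hb', le_add_of_nonneg_left (by positivity), this⟩
  obtain ⟨c, c1, c2, c3⟩ := key
  constructor
  · refine (inv_anti₀ (by positivity) c3).trans ?_
    rw [inv_div, ← div_div, div_eq_mul_inv _ c]
    gcongr
  · exact le_trans (by gcongr; linarith) c3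

lemma Ring1_sep {d : ZMod n} (hd : d ≠ 0) : 4 / n ≤ ‖1 - (ZMod.stdAddChar d : ℂ)‖ := by
  have h1 := ZMod.val_lt d
  have h2 : d.val ≠ 0 := (ZMod.val_ne_zero d).2 hd
  have := (Ring1_min n (a := d.val) (b := n - d.val) (by omega) (by omega) (by omega)).2
  rwa [ZMod.natCast_zmod_val] at this

theorem sep_same (k : ℕ) {i j : ZMod n} (h : j ≠ i) : 4 / n ≤ ‖un n k i - un n k j‖ := by
  rw [Ring1_dist]
  exact Ring1_sep n (sub_ne_zero.2 h)

theorem sep_cross (k : ℕ) (i j : ZMod n) {a b : ℝ} (ha : 0 < a) (hb : 0 < b) :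
    2 * min a b / n ≤ ‖(a : ℂ) * un n k i - b * un n (k + 1) j‖ := by
  have hn := Ring1_pos n
  have : NeZero (2 * n) := ⟨mul_ne_zero two_ne_zero (NeZero.ne n)⟩
  have e1 : ze n = ZMod.stdAddChar (1 : ZMod (2 * n)) := by
    rw [Ring1_one, ze]
    congr 1
    have := Ring1_ne n
    push_cast
    field_simp
  have e2 : ze n * ZMod.stdAddChar (j - i) =
      ZMod.stdAddChar ((2 * (j - i).val + 1 : ℕ) : ZMod (2 * n)) := by
    rw [Ring1_nat, ← e1, pow_succ', pow_mul, ze_sq, ← Ring1_nat, ZMod.natCast_zmod_val]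
  have h1 : ((2 * (j - i).val + 1 : ℕ) : ZMod (2 * n)) ≠ 0 := by
    rw [Ne, ZMod.natCast_eq_zero_iff]
    intro hc
    have := (Dvd.intro _ rfl : 2 ∣ 2 * n).trans hc
    omega
  have h2 := Ring1_sep (2 * n) h1
  have h3 := norm_chi (2 * n) ((2 * (j - i).val + 1 : ℕ) : ZMod (2 * n))
  have e3 : (a : ℂ) * un n k i - b * un n (k + 1) j =
      un n k i * (a - b * (ze n * ZMod.stdAddChar (j - i))) := by
    rw [Ring1_succ, Ring1_un_eq n k i j]
    ring
  rw [e3, norm_mul, norm_un, one_mul, e2]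
  generalize (ZMod.stdAddChar ((2 * (j - i).val + 1 : ℕ) : ZMod (2 * n)) : ℂ) = w at h2 h3
  have m0 : 0 < min a b := lt_min ha hb
  have h4 : min a b * ‖1 - w‖ ≤ ‖(a : ℂ) - b * w‖ := by
    refine abs_le_of_sq_le_sq' ?_ (norm_nonneg _) |>.2
    have w1 : w.re * w.re + w.im * w.im = 1 := by
      rw [← normSq_apply, normSq_eq_norm_sq, h3, one_pow]
    have m1 : min a b ^ 2 ≤ a * b := by
      rw [sq]
      exact mul_le_mul (min_le_left _ _) (min_le_right _ _) m0.le ha.le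
    refine le_trans (le_of_eq (mul_pow _ _ _)) (le_trans
      (mul_le_mul_of_nonneg_right m1 (sq_nonneg _)) ?_)
    rw [← normSq_eq_norm_sq, ← normSq_eq_norm_sq, normSq_apply, normSq_apply]
    simp only [sub_re, one_re, sub_im, one_im, ofReal_re, ofReal_im, mul_re, mul_im, zero_mul,
      sub_zero, add_zero, zero_sub]
    have e4 : (a - b * w.re) * (a - b * w.re) + -(b * w.im) * -(b * w.im) =
        a * b * ((1 - w.re) * (1 - w.re) + -w.im * -w.im) + (a - b) ^ 2 := by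
      linear_combination (b ^ 2 - a * b) * w1
    rw [e4]
    exact le_add_of_nonneg_right (sq_nonneg _)
  refine le_trans (le_of_eq ?_) ((mul_le_mul_of_nonneg_left h2 m0.le).trans h4)
  push_cast
  field_simp
  norm_num

theorem sum_inv_same (k : ℕ) (i : ZMod n) :
    ∑ j ∈ univ.erase i, ‖un n k i - un n k j‖⁻¹ ≤ n * (1 + Real.log n) := by
  have hn := Ring1_pos n
  simp_rw [Ring1_dist]
  rw [Ring1_sum_ne n (fun d => ‖1 - (ZMod.stdAddChar d : ℂ)‖⁻¹)]
  have h1 : ∑ l ∈ range (n - 1), ((l + 1 : ℕ) : ℝ)⁻¹ ≤ 1 + Real.log n := by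
    refine le_trans ?_ (harmonic_le_one_add_log n)
    rw [harmonic]
    push_cast
    exact Finset.sum_le_sum_of_subset_of_nonneg (range_subset_range.2 (Nat.sub_le n 1))
      fun _ _ _ => by positivity
  have h0 : 0 ≤ ∑ l ∈ range (n - 1), ((l + 1 : ℕ) : ℝ)⁻¹ := by positivity
  refine (Finset.sum_le_sum fun l hl => (Ring1_min n (a := l + 1) (b := n - 1 - 1 - l + 1)
    (by omega) (by omega) (by have := Finset.mem_range.1 hl; omega)).1).trans ?_
  rw [← Finset.mul_sum, Finset.sum_add_distrib,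
    Finset.sum_range_reflect (fun l => ((l + 1 : ℕ) : ℝ)⁻¹)]
  nlinarith

end Pool.Agent.MP_943ae2_gt
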