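import Pool.Agent.MP_943ae2_gt.Bas

open Set Complex Filter
open scoped Topology ComplexConjugate ContDiff

noncomputable section

namespace Pool.Agent.MP_943ae2_gt

open Metric

variable {ι : Type} {F : Frm ι} {d : Dat ι}

theorem tl_differentiableOn {f : ℂ → ℂ} {r : ℝ} (hf : DifferentiableOn ℂ f (ball 0 r)) :
    DifferentiableOn ℂ (tl f) (ball 0 r) := by
  intro x hx
  have hx' : conj x ∈ ball (0 : ℂ) r := by simpa using hx
  have h1 : DifferentiableAt ℂ f (conj x) := hf.differentiableAt (isOpen_ball.mem_nhds hx')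
  exact (differentiableAt_conj_conj_iff.2 h1).differentiableWithinAt

theorem sp1_open (k : ℕ) (c : ι × Bool → ℝ) :
    IsOpen {z : ℂ | ∀ e ∈ F.sides k, c e < ‖z - d.pos e‖} := by
  have e : {z : ℂ | ∀ e ∈ F.sides k, c e < ‖z - d.pos e‖} =
      ⋂ e ∈ F.sides k, {z : ℂ | c e < ‖z - d.pos e‖} := by
    ext z; simp only [mem_ofPred_eq, mem_iInter]
  rw [e]
  exact isOpen_biInter_finset fun e _ => isOpen_lt continuous_const (by fun_prop)

theorem isOpen_Big (k : ℕ) : IsOpen (F.Big d k) := sp1_open k _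

theorem isOpen_U (k : ℕ) : IsOpen (F.U d k) := sp1_open k _

theorem isClosed_Ub (k : ℕ) : IsClosed (F.Ub d k) := by
  have e : F.Ub d k = ⋂ e ∈ F.sides k, {z : ℂ | ‖d.bet e‖ ≤ ‖z - d.pos e‖} := by
    ext z; simp only [Frm.Ub, mem_ofPred_eq, mem_iInter]
  rw [e]
  exact isClosed_biInter fun e _ => isClosed_le continuous_const (by fun_prop)

/-- the linear part of the iteration -/
def sp1Op (F : Frm ι) (d : Dat ι) (g : ι × Bool → ℂ → ℂ) (e : ι × Bool) (v : ℂ) : ℂ :=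
  ∑ μ ∈ F.oth e, d.bet μ / (d.pos e + v - d.pos μ) *
    tl (g (opp μ)) (d.bet μ ^ 2 / (d.pos e + v - d.pos μ))

theorem sp1_sumA (S : Spin ι) (e : ι × Bool) (v : ℂ) :
    ∑ μ ∈ F.oth e, d.tA S μ (d.pos e + v) = sp1Op F d S.2 e v := rfl

theorem sp1_sumB (S : Spin ι) (e : ι × Bool) (v : ℂ) :
    ∑ μ ∈ F.oth e, d.tB S μ (d.pos e + v) = -sp1Op F d S.1 e v := by
  unfold sp1Op Dat.tB
  rw [Finset.sum_neg_distrib]

theorem sp1_iterA (n : ℕ) (e : ι × Bool) (v : ℂ) :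
    (F.iter d (n + 1)).1 e v = 1 + sp1Op F d (F.iter d n).2 e v := by
  unfold Frm.iter
  rw [Function.iterate_succ_apply']
  rfl

theorem sp1_iterB (n : ℕ) (e : ι × Bool) (v : ℂ) :
    (F.iter d (n + 1)).2 e v = -sp1Op F d (F.iter d n).1 e v := by
  unfold Frm.iter
  rw [Function.iterate_succ_apply']
  exact sp1_sumB _ e v

theorem sp1_op_sub (g g' : ι × Bool → ℂ → ℂ) (e : ι × Bool) (v : ℂ) :
    sp1Op F d g e v - sp1Op F d g' e v = sp1Op F d (fun μ x => g μ x - g' μ x) e v := by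
  unfold sp1Op tl
  rw [← Finset.sum_sub_distrib]
  refine Finset.sum_congr rfl fun μ _ => ?_
  rw [map_sub, mul_sub]

/-- uniform bound on the large discs -/
def Sp1Bd (F : Frm ι) (g : ι × Bool → ℂ → ℂ) (M : ℝ) : Prop :=
  ∀ e v, ‖v‖ < 4 * F.R e → ‖g e v‖ ≤ M

namespace Frm.Adm

variable (h : F.Adm d)
include h

theorem sp1_inv (ν : ι) : 1000 ≤ (F.t ν)⁻¹ := by
  have := inv_anti₀ (h.t_pos ν) (h.t_small ν)
  simpa using this

theorem sp1_sq_le (e : ι × Bool) : ‖d.bet e‖ ^ 2 ≤ F.R e :=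
  (pow_le_pow_left₀ (norm_nonneg _) (h.bet_le e) 2).trans
    (pow_le_pow_right₀ (by linarith [h.sp1_inv e.1]) (by norm_num))

theorem sp1_bet_lt (e : ι × Bool) : ‖d.bet e‖ < F.R e := by
  refine (h.bet_le e).trans_lt ?_
  have h1 : (1 : ℝ) < (F.t e.1)⁻¹ := by linarith [h.sp1_inv e.1]
  calc (F.t e.1)⁻¹ = (F.t e.1)⁻¹ ^ 1 := (pow_one _).symm
    _ < _ := pow_lt_pow_right₀ h1 (by norm_num)

theorem sp1_one_le (e : ι × Bool) : 1 ≤ F.R e :=
  one_le_pow₀ (by linarith [h.sp1_inv e.1])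

theorem sp1_div_lt (e : ι × Bool) : ‖d.bet e‖ ^ 2 / F.R e < ‖d.bet e‖ := by
  rw [div_lt_iff₀ (h.R_pos e), sq]
  exact mul_lt_mul_of_pos_left (h.sp1_bet_lt e) (h.bet_pos e)

theorem sp1_div_le (e : ι × Bool) : ‖d.bet e‖ ^ 2 / (4 * F.R e) ≤ ‖d.bet e‖ ^ 2 / F.R e :=
  div_le_div_of_nonneg_left (sq_nonneg _) (h.R_pos e) (by linarith [h.R_pos e])

theorem sp1_t30 (ν : ι) : F.t ν ^ 30 ≤ 1 / 1000 :=
  calc F.t ν ^ 30 ≤ F.t ν ^ 1 :=
        pow_le_pow_of_le_one (h.t_pos ν).le (by linarith [h.t_small ν]) (by norm_num)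
    _ ≤ 1 / 1000 := by rw [pow_one]; exact h.t_small ν

theorem Far_sub (k : ℕ) : F.Far d k ⊆ F.Ub d k := by
  intro z hz e he
  refine ((h.bet_le e).trans ?_).trans (hz e he)
  calc (F.t e.1)⁻¹ = (F.t e.1)⁻¹ ^ 1 := (pow_one _).symm
    _ ≤ _ := pow_le_pow_right₀ (by linarith [h.sp1_inv e.1]) (by norm_num)

theorem Ub_sub (k : ℕ) : F.Ub d k ⊆ F.U d k := fun _ hz e he =>
  (h.sp1_div_lt e).trans_le (hz e he)

theorem U_sub (k : ℕ) : F.U d k ⊆ F.Big d k := fun _ hz e he =>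
  (h.sp1_div_le e).trans_lt (hz e he)

theorem sp1_far {e μ : ι × Bool} (hμ : μ ∈ F.oth e) {v : ℂ} (hv : ‖v‖ ≤ 4 * F.R e) :
    ‖d.pos e - d.pos μ‖ / 2 ≤ ‖d.pos e + v - d.pos μ‖ ∧
      4 * F.R μ ≤ ‖d.pos e + v - d.pos μ‖ := by
  have h1 := h.sep e μ hμ
  have h2 := h.sep' hμ
  have h3 : ‖d.pos e - d.pos μ‖ ≤ ‖d.pos e + v - d.pos μ‖ + ‖v‖ := by
    calc ‖d.pos e - d.pos μ‖ = ‖(d.pos e + v - d.pos μ) - v‖ := by congr 1; ring
      _ ≤ _ := norm_sub_le _ _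
  constructor <;> linarith

theorem sp1_cases (e : ι × Bool) {v : ℂ} (hv : ‖v‖ ≤ 4 * F.R e) {μ : ι × Bool}
    (hμ : μ ∈ F.sides (F.lay e)) : μ = e ∨ ‖d.bet μ‖ ≤ ‖d.pos e + v - d.pos μ‖ := by
  by_cases he : μ = e
  · exact Or.inl he
  · have := (h.sp1_far (mem_oth.2 ⟨he, mem_sides_iff.1 hμ⟩) hv).2
    exact Or.inr (by linarith [h.sp1_bet_lt μ, h.R_pos μ])

theorem mem_U (e : ι × Bool) {v : ℂ} (h1 : ‖d.bet e‖ ^ 2 / F.R e < ‖v‖) (h2 : ‖v‖ ≤ 4 * F.R e) :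
    d.pos e + v ∈ F.U d (F.lay e) := by
  intro μ hμ
  rcases h.sp1_cases e h2 hμ with rfl | h3
  · rwa [add_sub_cancel_left]
  · exact (h.sp1_div_lt μ).trans_le h3

theorem mem_Big (e : ι × Bool) {v : ℂ} (h1 : ‖d.bet e‖ ^ 2 / (4 * F.R e) < ‖v‖)
    (h2 : ‖v‖ ≤ 4 * F.R e) : d.pos e + v ∈ F.Big d (F.lay e) := by
  intro μ hμ
  rcases h.sp1_cases e h2 hμ with rfl | h3
  · rwa [add_sub_cancel_left]
  · exact ((h.sp1_div_le μ).trans_lt (h.sp1_div_lt μ)).trans_le h3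

theorem mem_Ub (e : ι × Bool) {v : ℂ} (h1 : ‖d.bet e‖ ≤ ‖v‖) (h2 : ‖v‖ ≤ 4 * F.R e) :
    d.pos e + v ∈ F.Ub d (F.lay e) := by
  intro μ hμ
  rcases h.sp1_cases e h2 hμ with rfl | h3
  · rwa [add_sub_cancel_left]
  · exact h3

theorem arg_lt {e μ : ι × Bool} (hμ : μ ∈ F.oth e) {v : ℂ} (hv : ‖v‖ < 4 * F.R e) :
    ‖d.pos e - d.pos μ‖ / 2 ≤ ‖d.pos e + v - d.pos μ‖ ∧
      ‖d.bet μ ^ 2 / (d.pos e + v - d.pos μ)‖ < 4 * F.R μ := by
  obtain ⟨h1, h2⟩ := h.sp1_far hμ hv.le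
  refine ⟨h1, ?_⟩
  have h3 := h.sp1_one_le μ
  have h4 := h.sp1_sq_le μ
  rw [norm_div, norm_pow, div_lt_iff₀ (by linarith)]
  nlinarith

theorem sp1_ne {e μ : ι × Bool} (hμ : μ ∈ F.oth e) {v : ℂ} (hv : ‖v‖ < 4 * F.R e) :
    d.pos e + v - d.pos μ ≠ 0 := by
  have h1 := (h.sp1_far hμ hv.le).2
  exact norm_pos_iff.1 (by linarith [h.R_pos μ])

theorem sp1_op_le {g : ι × Bool → ℂ → ℂ} {M : ℝ} (hM : 0 ≤ M) (hg : Sp1Bd F g M)
    (e : ι × Bool) {v : ℂ} (hv : ‖v‖ < 4 * F.R e) :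
    ‖sp1Op F d g e v‖ ≤ 2 * F.t e.1 ^ 30 * M := by
  unfold sp1Op
  refine (norm_sum_le _ _).trans ?_
  have h1 : ∀ μ ∈ F.oth e, ‖d.bet μ / (d.pos e + v - d.pos μ) *
      tl (g (opp μ)) (d.bet μ ^ 2 / (d.pos e + v - d.pos μ))‖ ≤
      2 * M * (‖d.bet μ‖ / ‖d.pos e - d.pos μ‖) := by
    intro μ hμ
    obtain ⟨h2, h3⟩ := h.arg_lt hμ hv
    have hD : 0 < ‖d.pos e - d.pos μ‖ := by linarith [h.sep e μ hμ, h.R_pos e]
    have h4 : ‖tl (g (opp μ)) (d.bet μ ^ 2 / (d.pos e + v - d.pos μ))‖ ≤ M := by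
      unfold tl
      rw [Complex.norm_conj]
      exact hg (opp μ) _ (by rw [Complex.norm_conj, R_opp]; exact h3)
    have h5 : ‖d.bet μ‖ / ‖d.pos e + v - d.pos μ‖ ≤ ‖d.bet μ‖ / (‖d.pos e - d.pos μ‖ / 2) :=
      div_le_div_of_nonneg_left (norm_nonneg _) (by positivity) h2
    rw [norm_mul, norm_div]
    calc _ ≤ ‖d.bet μ‖ / (‖d.pos e - d.pos μ‖ / 2) * M :=
          mul_le_mul h5 h4 (norm_nonneg _) (by positivity)
      _ = _ := by field_simp
  refine (Finset.sum_le_sum h1).trans ?_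
  rw [← Finset.mul_sum]
  calc _ ≤ 2 * M * F.t e.1 ^ 30 := mul_le_mul_of_nonneg_left (h.lam e) (by positivity)
    _ = _ := by ring

theorem sp1_op_half {g : ι × Bool → ℂ → ℂ} {M : ℝ} (hM : 0 ≤ M) (hg : Sp1Bd F g M) :
    Sp1Bd F (sp1Op F d g) (M / 2) := fun e _ hv =>
  (h.sp1_op_le hM hg e hv).trans (by nlinarith [h.sp1_t30 e.1])

theorem sp1_op_hol {g : ι × Bool → ℂ → ℂ}
    (hg : ∀ e, DifferentiableOn ℂ (g e) (ball 0 (4 * F.R e))) (e : ι × Bool) :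
    DifferentiableOn ℂ (sp1Op F d g e) (ball 0 (4 * F.R e)) := by
  unfold sp1Op
  refine DifferentiableOn.fun_sum fun μ hμ => ?_
  have hne : ∀ v ∈ ball (0 : ℂ) (4 * F.R e), d.pos e + v - d.pos μ ≠ 0 := fun v hv =>
    h.sp1_ne hμ (mem_ball_zero_iff.1 hv)
  have hq : ∀ c : ℂ, DifferentiableOn ℂ (fun v => c / (d.pos e + v - d.pos μ))
      (ball 0 (4 * F.R e)) := fun c =>
    (differentiableOn_const c).div (by fun_prop) hne
  refine (hq _).mul ((tl_differentiableOn (hg (opp μ))).comp (hq _) fun v hv => ?_)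
  exact mem_ball_zero_iff.2 (h.arg_lt hμ (mem_ball_zero_iff.1 hv)).2

theorem sp1_iter_hol (n : ℕ) :
    (∀ e, DifferentiableOn ℂ ((F.iter d n).1 e) (ball 0 (4 * F.R e))) ∧
      ∀ e, DifferentiableOn ℂ ((F.iter d n).2 e) (ball 0 (4 * F.R e)) := by
  induction n with
  | zero => exact ⟨fun _ => differentiableOn_const _, fun _ => differentiableOn_const _⟩
  | succ n ih =>
    constructor
    · intro e
      exact ((h.sp1_op_hol ih.2 e).const_add 1).congr fun v _ => sp1_iterA n e v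
    · intro e
      exact (h.sp1_op_hol ih.1 e).neg.congr fun v _ => sp1_iterB n e v

theorem sp1_iter_bd (n : ℕ) : Sp1Bd F (F.iter d n).1 2 ∧ Sp1Bd F (F.iter d n).2 1 := by
  induction n with
  | zero =>
    constructor
    · intro e v _
      change ‖(1 : ℂ)‖ ≤ 2
      norm_num
    · intro e v _
      change ‖(0 : ℂ)‖ ≤ 1
      norm_num
  | succ n ih =>
    constructor
    · intro e v hv
      rw [sp1_iterA]
      have := h.sp1_op_half zero_le_one ih.2 e v hv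
      refine (norm_add_le _ _).trans ?_
      rw [norm_one]
      linarith
    · intro e v hv
      rw [sp1_iterB, norm_neg]
      have := h.sp1_op_half zero_le_two ih.1 e v hv
      linarith

theorem sp1_iter_diff (n : ℕ) :
    Sp1Bd F (fun e v => (F.iter d n).1 e v - (F.iter d (n + 1)).1 e v) (2 / 2 / 2 ^ n) ∧
      Sp1Bd F (fun e v => (F.iter d n).2 e v - (F.iter d (n + 1)).2 e v) (2 / 2 / 2 ^ n) := by
  induction n with
  | zero =>
    constructor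
    · intro e v hv
      have := h.sp1_op_half zero_le_one (h.sp1_iter_bd 0).2 e v hv
      have e0 : (F.iter d 0).1 e v = 1 := rfl
      simp only [sp1_iterA, e0]
      rw [sub_add_cancel_left, norm_neg]
      linarith
    · intro e v hv
      have := h.sp1_op_half zero_le_two (h.sp1_iter_bd 0).1 e v hv
      have e0 : (F.iter d 0).2 e v = 0 := rfl
      simp only [sp1_iterB, e0]
      rw [zero_sub, neg_neg]
      linarith
  | succ n ih =>
    have e2 : (2 : ℝ) / 2 / 2 ^ (n + 1) = 2 / 2 / 2 ^ n / 2 := by rw [pow_succ]; field_simp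
    constructor
    · intro e v hv
      have := h.sp1_op_half (by positivity) ih.2 e v hv
      rw [← sp1_op_sub] at this
      change ‖(F.iter d (n + 1)).1 e v - (F.iter d (n + 1 + 1)).1 e v‖ ≤ _
      rw [sp1_iterA n, sp1_iterA (n + 1), add_sub_add_left_eq_sub, e2]
      exact this
    · intro e v hv
      have := h.sp1_op_half (by positivity) ih.1 e v hv
      rw [← sp1_op_sub] at this
      change ‖(F.iter d (n + 1)).2 e v - (F.iter d (n + 1 + 1)).2 e v‖ ≤ _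
      rw [sp1_iterB n, sp1_iterB (n + 1), neg_sub_neg, norm_sub_rev, e2]
      exact this

theorem iter_rate (n : ℕ) (e : ι × Bool) {v : ℂ} (hv : ‖v‖ < 4 * F.R e) :
    ‖(F.iter d n).1 e v - (F.spin d).1 e v‖ ≤ 4 * (1 / 2) ^ n ∧
      ‖(F.iter d n).2 e v - (F.spin d).2 e v‖ ≤ 4 * (1 / 2) ^ n := by
  have key : ∀ f : ℕ → ℂ, (∀ m, ‖f m - f (m + 1)‖ ≤ 2 / 2 / 2 ^ m) →
      ‖f n - limUnder atTop f‖ ≤ 4 * (1 / 2) ^ n := by
    intro f hf
    have hf' : ∀ m, dist (f m) (f (m + 1)) ≤ 2 / 2 / 2 ^ m := fun m => by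
      rw [dist_eq_norm]; exact hf m
    have h1 := dist_le_of_le_geometric_two_of_tendsto hf'
      (cauchySeq_of_le_geometric_two hf').tendsto_limUnder n
    rw [dist_eq_norm] at h1
    refine h1.trans ?_
    rw [one_div, inv_pow, div_eq_mul_inv]
    gcongr
    norm_num
  exact ⟨key (fun m => (F.iter d m).1 e v) fun m => (h.sp1_iter_diff m).1 e v hv,
    key (fun m => (F.iter d m).2 e v) fun m => (h.sp1_iter_diff m).2 e v hv⟩

omit h in
theorem sp1_geo : Tendsto (fun n : ℕ => 4 * (1 / 2 : ℝ) ^ n) atTop (𝓝 0) := by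
  simpa using (tendsto_pow_atTop_nhds_zero_of_lt_one (r := (1 / 2 : ℝ)) (by norm_num)
    (by norm_num)).const_mul 4

omit h in
theorem sp1_lim_hol {f : ℕ → ℂ → ℂ} {g : ℂ → ℂ} {r : ℝ}
    (hf : ∀ n, DifferentiableOn ℂ (f n) (ball 0 r))
    (hr : ∀ n v, ‖v‖ < r → ‖f n v - g v‖ ≤ 4 * (1 / 2) ^ n) :
    DifferentiableOn ℂ g (ball 0 r) := by
  have hu : TendstoUniformlyOn f g atTop (ball 0 r) := by
    rw [Metric.tendstoUniformlyOn_iff]
    intro ε hε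
    filter_upwards [sp1_geo.eventually (gt_mem_nhds hε)] with n hn v hv
    rw [dist_comm, dist_eq_norm]
    exact (hr n v (mem_ball_zero_iff.1 hv)).trans_lt hn
  exact hu.tendstoLocallyUniformlyOn.differentiableOn (Eventually.of_forall hf) isOpen_ball

theorem holA (e : ι × Bool) : DifferentiableOn ℂ ((F.spin d).1 e) (ball 0 (4 * F.R e)) :=
  sp1_lim_hol (fun n => (h.sp1_iter_hol n).1 e) fun n _ hv => (h.iter_rate n e hv).1

theorem holB (e : ι × Bool) : DifferentiableOn ℂ ((F.spin d).2 e) (ball 0 (4 * F.R e)) :=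
  sp1_lim_hol (fun n => (h.sp1_iter_hol n).2 e) fun n _ hv => (h.iter_rate n e hv).2

omit h in
theorem sp1_le_of_rate {x M c : ℝ} (hx : ∀ n : ℕ, x ≤ M + c * (4 * (1 / 2) ^ n)) : x ≤ M := by
  have h1 : Tendsto (fun n : ℕ => M + c * (4 * (1 / 2 : ℝ) ^ n)) atTop (𝓝 (M + c * 0)) :=
    (sp1_geo.const_mul c).const_add M
  rw [mul_zero, add_zero] at h1
  exact ge_of_tendsto' h1 hx

theorem sp1_spin_bd : Sp1Bd F (F.spin d).1 2 ∧ Sp1Bd F (F.spin d).2 1 := by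
  constructor
  · intro e v hv
    refine sp1_le_of_rate (c := 1) fun n => ?_
    have h1 := (h.iter_rate n e hv).1
    have h2 := (h.sp1_iter_bd n).1 e v hv
    have h3 := norm_le_norm_add_norm_sub ((F.iter d n).1 e v) ((F.spin d).1 e v)
    linarith
  · intro e v hv
    refine sp1_le_of_rate (c := 1) fun n => ?_
    have h1 := (h.iter_rate n e hv).2
    have h2 := (h.sp1_iter_bd n).2 e v hv
    have h3 := norm_le_norm_add_norm_sub ((F.iter d n).2 e v) ((F.spin d).2 e v)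
    linarith

theorem sp1_fixA (e : ι × Bool) {v : ℂ} (hv : ‖v‖ < 4 * F.R e) :
    (F.spin d).1 e v = 1 + sp1Op F d (F.spin d).2 e v := by
  rw [← sub_eq_zero, ← norm_le_zero_iff]
  refine sp1_le_of_rate (c := 1) fun n => ?_
  have h1 := (h.iter_rate (n + 1) e hv).1
  have h2 := h.sp1_op_half (g := fun μ x => (F.iter d n).2 μ x - (F.spin d).2 μ x)
    (M := 4 * (1 / 2) ^ n) (by positivity) (fun μ x hx => (h.iter_rate n μ hx).2) e v hv
  rw [← sp1_op_sub] at h2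
  rw [sp1_iterA, pow_succ] at h1
  have e1 : (F.spin d).1 e v - (1 + sp1Op F d (F.spin d).2 e v) =
      (sp1Op F d (F.iter d n).2 e v - sp1Op F d (F.spin d).2 e v) -
        (1 + sp1Op F d (F.iter d n).2 e v - (F.spin d).1 e v) := by ring
  rw [e1]
  refine (norm_sub_le _ _).trans ?_
  linarith

theorem sp1_fixB (e : ι × Bool) {v : ℂ} (hv : ‖v‖ < 4 * F.R e) :
    (F.spin d).2 e v = -sp1Op F d (F.spin d).1 e v := by
  rw [← sub_eq_zero, ← norm_le_zero_iff]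
  refine sp1_le_of_rate (c := 1) fun n => ?_
  have h1 := (h.iter_rate (n + 1) e hv).2
  have h2 := h.sp1_op_half (g := fun μ x => (F.iter d n).1 μ x - (F.spin d).1 μ x)
    (M := 4 * (1 / 2) ^ n) (by positivity) (fun μ x hx => (h.iter_rate n μ hx).1) e v hv
  rw [← sp1_op_sub] at h2
  rw [sp1_iterB, pow_succ] at h1
  have e1 : (F.spin d).2 e v - -sp1Op F d (F.spin d).1 e v =
      -(sp1Op F d (F.iter d n).1 e v - sp1Op F d (F.spin d).1 e v) -
        (-sp1Op F d (F.iter d n).1 e v - (F.spin d).2 e v) := by ring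
  rw [e1]
  refine (norm_sub_le _ _).trans ?_
  rw [norm_neg]
  linarith

theorem bdA (e : ι × Bool) {v : ℂ} (hv : ‖v‖ < 4 * F.R e) :
    ‖(F.spin d).1 e v - 1‖ ≤ 2 * F.t e.1 ^ 30 := by
  rw [h.sp1_fixA e hv, add_sub_cancel_left]
  simpa using h.sp1_op_le zero_le_one h.sp1_spin_bd.2 e hv

theorem bdB (e : ι × Bool) {v : ℂ} (hv : ‖v‖ < 4 * F.R e) :
    ‖(F.spin d).2 e v‖ ≤ 4 * F.t e.1 ^ 30 := by
  rw [h.sp1_fixB e hv, norm_neg]
  have := h.sp1_op_le zero_le_two h.sp1_spin_bd.1 e hv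
  linarith

theorem fixA (e : ι × Bool) {v : ℂ} (hv : ‖v‖ < 4 * F.R e) :
    (F.spin d).1 e v = 1 + ∑ μ ∈ F.oth e, d.tA (F.spin d) μ (d.pos e + v) := by
  rw [sp1_sumA]; exact h.sp1_fixA e hv

theorem fixB (e : ι × Bool) {v : ℂ} (hv : ‖v‖ < 4 * F.R e) :
    (F.spin d).2 e v = ∑ μ ∈ F.oth e, d.tB (F.spin d) μ (d.pos e + v) := by
  rw [sp1_sumB]; exact h.sp1_fixB e hv

end Frm.Adm

end Pool.Agent.MP_943ae2_gt
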