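import Pool.Agent.MP_943ae2_gt.Sp1

open Set Complex Filter
open scoped Topology ComplexConjugate ContDiff

noncomputable section

namespace Pool.Agent.MP_943ae2_gt

variable {ι : Type} {F : Frm ι} {d : Dat ι}

lemma sp2_tend (c p : ℂ) : Tendsto (fun z : ℂ => c / (z - p)) (Bornology.cobounded ℂ) (𝓝 0) := by
  have h1 : Tendsto (fun z : ℂ => z - p) (Bornology.cobounded ℂ) (Bornology.cobounded ℂ) :=
    tendsto_sub_const_cobounded p
  have h2 := (tendsto_inv₀_cobounded.comp h1).const_mul c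
  simpa [div_eq_mul_inv] using h2

namespace Frm.Adm

variable (h : F.Adm d)
include h

lemma sp2_inv (e : ι × Bool) : 1000 ≤ (F.t e.1)⁻¹ := by
  rw [le_inv_comm₀ (by norm_num) (h.t_pos _)]
  have := h.t_small e.1
  linarith

lemma sp2_t30 (e : ι × Bool) : F.t e.1 ^ 30 ≤ 1 / 4 := by
  have h0 := (h.t_pos e.1).le
  have h1 := h.t_small e.1
  calc F.t e.1 ^ 30 ≤ F.t e.1 ^ 1 := pow_le_pow_of_le_one h0 (by linarith) (by norm_num)
    _ ≤ 1 / 4 := by rw [pow_one]; linarith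

lemma sp2_tlA1 (e : ι × Bool) {x : ℂ} (hx : ‖x‖ < 4 * F.R e) :
    ‖tl ((F.spin d).1 (opp e)) x - 1‖ ≤ 2 * F.t e.1 ^ 30 := by
  have := h.bdA (opp e) (v := conj x) (by simpa using hx)
  rw [← Complex.norm_conj] at this
  simpa [tl] using this

lemma sp2_tlA (e : ι × Bool) {x : ℂ} (hx : ‖x‖ < 4 * F.R e) :
    ‖tl ((F.spin d).1 (opp e)) x‖ ≤ 2 := by
  have h1 := h.sp2_tlA1 e hx
  have h2 := h.sp2_t30 e
  have h3 := norm_add_le (tl ((F.spin d).1 (opp e)) x - 1) 1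
  simp only [sub_add_cancel, norm_one] at h3
  linarith

lemma sp2_tlB (e : ι × Bool) {x : ℂ} (hx : ‖x‖ < 4 * F.R e) :
    ‖tl ((F.spin d).2 (opp e)) x‖ ≤ 4 * F.t e.1 ^ 30 := by
  have := h.bdB (opp e) (v := conj x) (by simpa using hx)
  simpa [tl] using this

lemma sp2_arg (e : ι × Bool) {v : ℂ} (h1 : ‖d.bet e‖ ^ 2 / (4 * F.R e) < ‖v‖) :
    v ≠ 0 ∧ ‖d.bet e ^ 2 / v‖ < 4 * F.R e := by
  have hb := h.bet_pos e
  have hR := h.R_pos e
  have hv : 0 < ‖v‖ := lt_trans (by positivity) h1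
  refine ⟨norm_pos_iff.1 hv, ?_⟩
  rw [norm_div, norm_pow, div_lt_iff₀ hv]
  rw [div_lt_iff₀ (by positivity)] at h1
  linarith

theorem a_split (e : ι × Bool) {v : ℂ} (hv : ‖v‖ < 4 * F.R e) :
    F.a d (F.lay e) (d.pos e + v) =
      (F.spin d).1 e v + d.bet e / v * tl ((F.spin d).2 (opp e)) (d.bet e ^ 2 / v) := by
  rw [Frm.a, sum_sides_split, h.fixA e hv]
  simp only [Dat.tA, add_sub_cancel_left]
  ring

theorem b_split (e : ι × Bool) {v : ℂ} (hv : ‖v‖ < 4 * F.R e) :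
    F.b d (F.lay e) (d.pos e + v) =
      (F.spin d).2 e v - d.bet e / v * tl ((F.spin d).1 (opp e)) (d.bet e ^ 2 / v) := by
  rw [Frm.b, sum_sides_split, h.fixB e hv]
  simp only [Dat.tB, add_sub_cancel_left]
  ring

lemma sp2_back (e : ι × Bool) {v : ℂ} (hv : v ≠ 0) :
    d.bet (opp e) ^ 2 / conj (d.bet e ^ 2 / v) = conj v := by
  have hb : conj (d.bet e) ≠ 0 := by simpa using h.bet_ne e
  have hv' : conj v ≠ 0 := by simpa using hv
  simp only [bet_opp, neg_sq, map_div₀, map_pow]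
  field_simp

theorem glue_a (e : ι × Bool) {v : ℂ} (h1 : ‖d.bet e‖ ^ 2 / (4 * F.R e) < ‖v‖)
    (h2 : ‖v‖ < 4 * F.R e) :
    F.a d (F.lay e) (d.pos e + v) =
      d.bet e / v * conj (F.b d (F.lay (opp e)) (d.par e v)) := by
  obtain ⟨hv, hw⟩ := h.sp2_arg e h1
  have hb := h.bet_ne e
  rw [h.a_split e h2, Dat.par,
    h.b_split (opp e) (v := conj (d.bet e ^ 2 / v)) (by rwa [Complex.norm_conj, R_opp]),
    h.sp2_back e hv]
  simp only [tl, opp_opp, conj_conj, map_sub, map_mul, bet_opp]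
  generalize conj ((F.spin d).2 (opp e) (conj (d.bet e ^ 2 / v))) = x
  simp only [map_div₀, map_neg, conj_conj, map_pow]
  field_simp
  ring

theorem glue_b (e : ι × Bool) {v : ℂ} (h1 : ‖d.bet e‖ ^ 2 / (4 * F.R e) < ‖v‖)
    (h2 : ‖v‖ < 4 * F.R e) :
    F.b d (F.lay e) (d.pos e + v) =
      -(d.bet e / v * conj (F.a d (F.lay (opp e)) (d.par e v))) := by
  obtain ⟨hv, hw⟩ := h.sp2_arg e h1
  have hb := h.bet_ne e
  rw [h.b_split e h2, Dat.par,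
    h.a_split (opp e) (v := conj (d.bet e ^ 2 / v)) (by rwa [Complex.norm_conj, R_opp]),
    h.sp2_back e hv]
  simp only [tl, opp_opp, conj_conj, map_add, map_mul, bet_opp]
  generalize conj ((F.spin d).1 (opp e) (conj (d.bet e ^ 2 / v))) = x
  simp only [map_div₀, map_neg, conj_conj, map_pow]
  field_simp
  ring

lemma sp2_hol {k : ℕ} {μ : ι × Bool} (hμ : μ ∈ F.sides k) {f : ℂ → ℂ}
    (hf : DifferentiableOn ℂ f (Metric.ball 0 (4 * F.R μ))) :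
    DifferentiableOn ℂ (fun z => d.bet μ / (z - d.pos μ) * tl f (d.bet μ ^ 2 / (z - d.pos μ)))
      (F.Big d k) := by
  have hne : ∀ z ∈ F.Big d k, z - d.pos μ ≠ 0 := fun z hz => (h.sp2_arg μ (hz μ hμ)).1
  have hd : ∀ c : ℂ, DifferentiableOn ℂ (fun z => c / (z - d.pos μ)) (F.Big d k) := fun c =>
    (differentiableOn_const c).div (by fun_prop) hne
  refine (hd _).mul ((tl_differentiableOn hf).comp (hd _) fun z hz => ?_)
  simpa using (h.sp2_arg μ (hz μ hμ)).2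

theorem hol_a (k : ℕ) : DifferentiableOn ℂ (F.a d k) (F.Big d k) := by
  unfold Frm.a
  refine (differentiableOn_const _).add (DifferentiableOn.fun_sum fun μ hμ => ?_)
  exact h.sp2_hol hμ (h.holB (opp μ))

theorem hol_b (k : ℕ) : DifferentiableOn ℂ (F.b d k) (F.Big d k) := by
  unfold Frm.b
  refine DifferentiableOn.fun_sum fun μ hμ => ?_
  exact (h.sp2_hol hμ (h.holA (opp μ))).neg

lemma sp2_sum {k : ℕ} {f : ι × Bool → ℂ} {c : ℝ} {n : ℕ} (hc0 : 0 ≤ c) (hc : c ≤ 1000)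
    (hf : ∀ μ ∈ F.sides k, ‖f μ‖ ≤ c * F.T k ^ (n + 2)) :
    ‖∑ μ ∈ F.sides k, f μ‖ ≤ F.T k ^ n := by
  have hT := h.T_pos k
  have hT1 := h.T_le k
  refine (norm_sum_le _ _).trans ((Finset.sum_le_card_nsmul _ _ _ hf).trans ?_)
  rw [nsmul_eq_mul]
  calc ((F.sides k).card : ℝ) * (c * F.T k ^ (n + 2)) ≤ (F.T k)⁻¹ * (c * F.T k ^ (n + 2)) := by
        gcongr; exact h.card k
    _ = (c * F.T k) * F.T k ^ n := by field_simp; ring
    _ ≤ 1 * F.T k ^ n := by gcongr; nlinarith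
    _ = F.T k ^ n := one_mul _

theorem a_near {k : ℕ} {z : ℂ} (hz : z ∈ F.Big d k) : ‖F.a d k z - 1‖ ≤ F.T k ^ 11 := by
  rw [Frm.a, add_sub_cancel_left]
  refine h.sp2_sum (c := 16) (by norm_num) (by norm_num) fun μ hμ => ?_
  obtain ⟨hv, hw⟩ := h.sp2_arg μ (hz μ hμ)
  have ht := h.t_pos μ.1
  have htT : F.t μ.1 ≤ F.T k := by rw [← mem_sides_iff.1 hμ]; exact h.t_le μ
  have hb := h.bet_pos μ
  have hB := h.sp2_tlB μ hw
  have h1 : ‖d.bet μ / (z - d.pos μ)‖ ≤ 4 * (F.t μ.1)⁻¹ ^ 17 := by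
    have e : d.bet μ / (z - d.pos μ) = d.bet μ ^ 2 / (z - d.pos μ) / d.bet μ := by
      have := h.bet_ne μ
      field_simp
    rw [e, norm_div]
    calc ‖d.bet μ ^ 2 / (z - d.pos μ)‖ / ‖d.bet μ‖ ≤ 4 * F.R μ / F.t μ.1 := by
          have := h.R_pos μ
          gcongr
          exact h.b_ge μ
      _ = 4 * (F.t μ.1)⁻¹ ^ 17 := by rw [Frm.R]; field_simp
  rw [Dat.tA, norm_mul]
  calc _ ≤ 4 * (F.t μ.1)⁻¹ ^ 17 * (4 * F.t μ.1 ^ 30) := by gcongr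
    _ = 16 * F.t μ.1 ^ 13 := by field_simp; norm_num
    _ ≤ 16 * F.T k ^ (11 + 2) := by gcongr

lemma sp2_one_le_R (e : ι × Bool) : 1 ≤ F.R e :=
  one_le_pow₀ (by linarith [h.sp2_inv e])

lemma sp2_sq_le (e : ι × Bool) : ‖d.bet e‖ ^ 2 ≤ F.Rs e ∧ F.Rs e ≤ F.R e := by
  have h1 : 1 ≤ (F.t e.1)⁻¹ := by linarith [h.sp2_inv e]
  refine ⟨?_, pow_le_pow_right₀ h1 (by norm_num)⟩
  calc ‖d.bet e‖ ^ 2 ≤ (F.t e.1)⁻¹ ^ 2 := by gcongr; exact h.bet_le e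
    _ ≤ F.Rs e := pow_le_pow_right₀ h1 (by norm_num)

theorem b_far {k : ℕ} {z : ℂ} (hz : ∀ e ∈ F.sides k, F.Rs e / 2 ≤ ‖z - d.pos e‖) :
    ‖F.b d k z‖ ≤ F.T k ^ 9 := by
  rw [Frm.b]
  refine h.sp2_sum (c := 4) (by norm_num) (by norm_num) fun μ hμ => ?_
  have ht := h.t_pos μ.1
  have hT := h.T_pos k
  have htT : F.t μ.1 ≤ F.T k := by rw [← mem_sides_iff.1 hμ]; exact h.t_le μ
  have hbT : ‖d.bet μ‖ ≤ (F.T k)⁻¹ := by rw [← mem_sides_iff.1 hμ]; exact h.b_le μ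
  have hRs := h.Rs_pos μ
  have hR := h.sp2_one_le_R μ
  have hlt : ‖d.bet μ‖ ^ 2 / (4 * F.R μ) < ‖z - d.pos μ‖ := by
    refine lt_of_lt_of_le ?_ (hz μ hμ)
    rw [div_lt_iff₀ (by positivity)]
    nlinarith [(h.sp2_sq_le μ).1]
  obtain ⟨hv, hw⟩ := h.sp2_arg μ hlt
  have hA := h.sp2_tlA μ hw
  rw [Dat.tB, norm_neg, norm_mul, norm_div]
  calc _ ≤ (F.T k)⁻¹ / (F.Rs μ / 2) * 2 := by
        gcongr
        exact hz μ hμ
    _ = 4 * (F.T k)⁻¹ * F.t μ.1 ^ 12 := by rw [Frm.Rs]; field_simp; norm_num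
    _ ≤ 4 * (F.T k)⁻¹ * F.T k ^ 12 := by gcongr
    _ = 4 * F.T k ^ (9 + 2) := by field_simp

theorem b_contour (e : ι × Bool) {v : ℂ} (hv : ‖v‖ = F.sr d e) :
    ‖F.b d (F.lay e) (d.pos e + v)‖ ≤ 5 * F.R e / ‖d.bet e‖ := by
  have hb := h.bet_pos e
  have hR := h.sp2_one_le_R e
  obtain ⟨s1, s2⟩ := h.sp2_sq_le e
  rw [Frm.sr] at hv
  have h2 : ‖v‖ < 4 * F.R e := by
    rw [hv, div_lt_iff₀ (by positivity)]
    nlinarith
  have h1 : ‖d.bet e‖ ^ 2 / (4 * F.R e) < ‖v‖ := by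
    rw [hv]
    gcongr
    norm_num
  obtain ⟨hv0, hw⟩ := h.sp2_arg e h1
  have hA := h.sp2_tlA e hw
  have hB := h.bdB e h2
  have h30 := h.sp2_t30 e
  have hq : 1 ≤ F.R e / ‖d.bet e‖ := by
    rw [le_div_iff₀ hb]
    nlinarith
  rw [h.b_split e h2]
  refine (norm_sub_le _ _).trans ?_
  rw [norm_mul, norm_div, hv]
  have e1 : ‖d.bet e‖ / (‖d.bet e‖ ^ 2 / (2 * F.R e)) = 2 * (F.R e / ‖d.bet e‖) := by
    field_simp
  rw [e1, mul_div_assoc]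
  nlinarith

lemma sp2_lim (μ : ι × Bool) {f : ℂ → ℂ} {M : ℝ} (hf : ∀ x, ‖x‖ < 4 * F.R μ → ‖f x‖ ≤ M) :
    Tendsto (fun z => d.bet μ / (z - d.pos μ) * f (d.bet μ ^ 2 / (z - d.pos μ)))
      (Bornology.cobounded ℂ) (𝓝 0) := by
  have hR := h.R_pos μ
  have h1 : ∀ᶠ z in Bornology.cobounded ℂ, ‖d.bet μ ^ 2 / (z - d.pos μ)‖ < 4 * F.R μ := by
    have := (sp2_tend (d.bet μ ^ 2) (d.pos μ)).norm
    exact this.eventually (gt_mem_nhds (by rw [norm_zero]; positivity))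
  have h2 := (sp2_tend (d.bet μ) (d.pos μ)).norm.mul_const M
  rw [norm_zero, zero_mul] at h2
  refine squeeze_zero_norm' ?_ h2
  filter_upwards [h1] with z hz
  rw [norm_mul]
  gcongr
  exact hf _ hz

theorem a_tendsto (k : ℕ) : Tendsto (F.a d k) (Bornology.cobounded ℂ) (𝓝 1) := by
  have h1 : Tendsto (fun z => ∑ μ ∈ F.sides k, d.tA (F.spin d) μ z) (Bornology.cobounded ℂ)
      (𝓝 (∑ _μ ∈ F.sides k, (0 : ℂ))) :=
    tendsto_finsetSum _ fun μ _ => h.sp2_lim μ fun x hx => h.sp2_tlB μ hx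
  have h2 := h1.const_add 1
  simp only [Finset.sum_const_zero, add_zero] at h2
  exact h2

theorem b_tendsto (k : ℕ) : Tendsto (F.b d k) (Bornology.cobounded ℂ) (𝓝 0) := by
  have h1 : Tendsto (fun z => ∑ μ ∈ F.sides k, d.tB (F.spin d) μ z) (Bornology.cobounded ℂ)
      (𝓝 (∑ _μ ∈ F.sides k, (0 : ℂ))) :=
    tendsto_finsetSum _ fun μ _ => by
      have := (h.sp2_lim μ fun x hx => h.sp2_tlA μ hx).neg
      rw [neg_zero] at this
      exact this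
  simp only [Finset.sum_const_zero] at h1
  exact h1

theorem B0_est (e : ι × Bool) :
    ‖(F.spin d).2 e 0 + ∑ μ ∈ F.oth e, d.bet μ / (d.pos e - d.pos μ)‖ ≤
      ∑ μ ∈ F.oth e, 2 * F.t μ.1 ^ 30 * ‖d.bet μ‖ / ‖d.pos e - d.pos μ‖ := by
  have h0 : ‖(0 : ℂ)‖ < 4 * F.R e := by have := h.R_pos e; rw [norm_zero]; positivity
  rw [h.fixB e h0, ← Finset.sum_add_distrib]
  refine (norm_sum_le _ _).trans (Finset.sum_le_sum fun μ hμ => ?_)
  have hw := (h.arg_lt hμ h0).2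
  rw [add_zero] at hw ⊢
  have hA := h.sp2_tlA1 μ hw
  have e1 : d.tB (F.spin d) μ (d.pos e) + d.bet μ / (d.pos e - d.pos μ) =
      -(d.bet μ / (d.pos e - d.pos μ) *
        (tl ((F.spin d).1 (opp μ)) (d.bet μ ^ 2 / (d.pos e - d.pos μ)) - 1)) := by
    rw [Dat.tB]; ring
  rw [e1, norm_neg, norm_mul, norm_div]
  calc _ ≤ ‖d.bet μ‖ / ‖d.pos e - d.pos μ‖ * (2 * F.t μ.1 ^ 30) := by gcongr
    _ = _ := by ring

end Frm.Adm

end Pool.Agent.MP_943ae2_gt
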