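import Pool.Agent.MP_943ae2_gt.Wall0

open Set Complex Filter Finset
open scoped Topology ComplexConjugate ContDiff

noncomputable section

namespace Pool.Agent.MP_943ae2_gt

variable {w : Wall} {n : ℕ} [NeZero n] {P : ℝ} {L m : ℕ}

lemma W6a_cosh {x : ℝ} (h : |x| ≤ 1) : Real.cosh x ≤ 1 + x ^ 2 := by
  have h1 := abs_le.1 (Real.abs_exp_sub_one_sub_id_le h)
  have h2 := abs_le.1 (Real.abs_exp_sub_one_sub_id_le (x := -x) (by rwa [abs_neg]))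
  rw [Real.cosh_eq]
  nlinarith [h1.2, h2.2]

lemma W6a_sinh {x : ℝ} (h : |x| ≤ 1) : |Real.sinh x| ≤ |x| + x ^ 2 := by
  have h1 := abs_le.1 (Real.abs_exp_sub_one_sub_id_le h)
  have h2 := abs_le.1 (Real.abs_exp_sub_one_sub_id_le (x := -x) (by rwa [abs_neg]))
  rw [Real.sinh_eq, abs_le]
  constructor <;> nlinarith [h1.1, h1.2, h2.1, h2.2, le_abs_self x, neg_abs_le x]

lemma W6a_cosh' {b y : ℝ} (h0 : 0 ≤ b) (h1 : b ≤ 1) (hy : y ^ 2 ≤ 1) :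
    Real.cosh (b * y) ≤ 1 + b ^ 2 * y ^ 2 := by
  rw [← mul_pow]
  refine W6a_cosh ?_
  rw [← sq_le_one_iff_abs_le_one, mul_pow]
  have : b ^ 2 ≤ 1 := by nlinarith
  nlinarith [sq_nonneg y, sq_nonneg b]

lemma W6a_t {y : ℝ} (hy : y ^ 2 ≤ 1) : 1 / 4 - y ^ 2 / 8 ≤ 1 / (2 + 2 * Real.cosh y) := by
  have h1 := W6a_cosh ((sq_le_one_iff_abs_le_one y).1 hy)
  have h2 := Real.one_le_cosh y
  rw [le_div_iff₀ (by linarith)]
  nlinarith [sq_nonneg y]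

omit [NeZero n] in
lemma W6a_N (hs : w.Shape n L) : (6 : ℝ) ≤ w.N ∧ (10 : ℝ) ^ 8 ≤ n := by
  have h1 : (6 : ℝ) ≤ w.N := by
    have := hs.L_pos
    have h2 : 6 ≤ w.N := by rw [hs.N_eq]; omega
    exact_mod_cast h2
  refine ⟨h1, ?_⟩
  have := hs.n_ge
  nlinarith

omit [NeZero n] in
lemma W6a_y (hs : w.Shape n L) {k : ℕ} (hk : k < w.N) :
    w.y n k ^ 2 * n ≤ 2 / 5 ∧ w.y n k ^ 2 ≤ 1 / 10 ^ 8 := by
  obtain ⟨h1, h2⟩ := W6a_N hs
  have hn : (0 : ℝ) < n := by linarith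
  have h3 := hs.y_le k hk
  rw [le_div_iff₀ hn] at h3
  have h4 : (|w.y n k| * n) ^ 2 ≤ (2000 * (w.N : ℝ)) ^ 2 :=
    pow_le_pow_left₀ (by positivity) h3 2
  rw [mul_pow, sq_abs] at h4
  have h5 := hs.n_ge
  have h6 : w.y n k ^ 2 * n ≤ 2 / 5 := by
    refine le_of_mul_le_mul_right ?_ hn
    nlinarith
  refine ⟨h6, ?_⟩
  nlinarith [sq_nonneg (w.y n k)]

lemma W6a_abs {a y : ℝ} (h0 : 0 ≤ a) (h1 : a ≤ 1 / 2) (hy : y ^ 2 ≤ 2 / 5 * a)
    (hy' : y ^ 2 ≤ 1 / 10 ^ 8) :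
    |1 / (2 + 2 * Real.cosh y) * ((1 - a) * Real.cosh (a * y) - a * Real.cosh ((1 - a) * y))| ≤
      1 / (2 + 2 * Real.cosh y) - (a * (1 - a) / 2 + a ^ 2 / 4) := by
  have hy1 : y ^ 2 ≤ 1 := by linarith
  have ht := W6a_t hy1
  generalize 1 / (2 + 2 * Real.cosh y) = t at ht ⊢
  have c1 := W6a_cosh' h0 (by linarith) hy1
  have c2 := W6a_cosh' (b := 1 - a) (by linarith) (by linarith) hy1
  have c3 := Real.one_le_cosh (a * y)
  have c4 := Real.one_le_cosh ((1 - a) * y)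
  generalize Real.cosh (a * y) = p at c1 c3 ⊢
  generalize Real.cosh ((1 - a) * y) = q at c2 c4 ⊢
  have hz := sq_nonneg y
  generalize y ^ 2 = z at *
  have ht0 : 0 ≤ t := by linarith
  have ha2 := sq_nonneg a
  rw [abs_le]
  constructor
  · have e1 : q ≤ 1 + z := by nlinarith [mul_nonneg hz h0]
    have e2 : 99 / 100 ≤ 1 + (1 - a) * p - a * q := by nlinarith
    have e3 : t * (99 / 100) ≤ t * (1 + (1 - a) * p - a * q) := mul_le_mul_of_nonneg_left e2 ht0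
    nlinarith
  · have e1 : 2 * a - a ^ 2 * z ≤ 1 - (1 - a) * p + a * q := by
      nlinarith [mul_nonneg ha2 hz, mul_nonneg h0 (sub_nonneg.2 c3), mul_nonneg h0 (sub_nonneg.2 c4)]
    have e2 : t * (2 * a - a ^ 2 * z) ≤ t * (1 - (1 - a) * p + a * q) :=
      mul_le_mul_of_nonneg_left e1 ht0
    have e0 : 0 ≤ 2 * a - a ^ 2 * z := by nlinarith
    have e3 : (1 / 4 - z / 8) * (2 * a - a ^ 2 * z) ≤ t * (2 * a - a ^ 2 * z) :=
      mul_le_mul_of_nonneg_right ht e0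
    have e4 : a * z ≤ a * (2 / 5 * a) := mul_le_mul_of_nonneg_left hy h0
    have e5 : a ^ 2 * z ≤ a ^ 2 * (1 / 10 ^ 8) := mul_le_mul_of_nonneg_left hy' ha2
    nlinarith [mul_nonneg (mul_nonneg ha2 hz) hz]

theorem Ak_abs (hs : w.Shape n L) (h1 : 1 ≤ m) (h2 : 2 * m ≤ n) {k : ℕ} (hk : k < w.N) :
    |w.Ak n m k| ≤ w.tk n k - (m / n * (1 - m / n) / 2 + ((m : ℝ) / n) ^ 2 / 4) := by
  obtain ⟨-, hn⟩ := W6a_N hs
  obtain ⟨y1, y2⟩ := W6a_y hs hk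
  have hn0 : (0 : ℝ) < n := by linarith
  have h1' : (1 : ℝ) ≤ m := by exact_mod_cast h1
  have h2' : 2 * (m : ℝ) ≤ n := by exact_mod_cast h2
  refine W6a_abs (by positivity) (by rw [div_le_iff₀ hn0]; linarith) ?_ y2
  rw [← mul_div_assoc, le_div_iff₀ hn0]
  linarith

theorem Ak_ge (hs : w.Shape n L) (h2 : 100 * m ≤ n) {k : ℕ} (hk : k < w.N) :
    6 / 25 ≤ w.Ak n m k := by
  obtain ⟨-, hn⟩ := W6a_N hs
  obtain ⟨-, y2⟩ := W6a_y hs hk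
  have hn0 : (0 : ℝ) < n := by linarith
  have h2' : 100 * (m : ℝ) ≤ n := by exact_mod_cast h2
  have h0 : (0 : ℝ) ≤ m / n := by positivity
  have h1 : (m : ℝ) / n ≤ 1 / 100 := by rw [div_le_iff₀ hn0]; linarith
  unfold Wall.Ak Wall.tk
  generalize (m : ℝ) / n = a at h0 h1
  generalize w.y n k = y at y2
  have hy1 : y ^ 2 ≤ 1 := by linarith
  have ht := W6a_t hy1
  generalize 1 / (2 + 2 * Real.cosh y) = t at ht ⊢
  have c2 := W6a_cosh' (b := 1 - a) (by linarith) (by linarith) hy1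
  have c3 := Real.one_le_cosh (a * y)
  generalize Real.cosh (a * y) = p at c3 ⊢
  generalize Real.cosh ((1 - a) * y) = q at c2 ⊢
  have hz := sq_nonneg y
  generalize y ^ 2 = z at *
  have e1 : q ≤ 1 + z := by nlinarith [mul_nonneg hz h0]
  have e2 : 97 / 100 ≤ (1 - a) * p - a * q := by nlinarith
  have e3 : t * (97 / 100) ≤ t * ((1 - a) * p - a * q) :=
    mul_le_mul_of_nonneg_left e2 (by linarith)
  linarith

theorem ph_le (hs : w.Shape n L) (h2 : 2 * m ≤ n) {k : ℕ} (hk : k < w.N) :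
    (n : ℝ) * |w.ph n m k| ≤ 1001 * w.N := by
  obtain ⟨-, hn⟩ := W6a_N hs
  obtain ⟨-, y2⟩ := W6a_y hs hk
  have hn0 : (0 : ℝ) < n := by linarith
  have h2' : 2 * (m : ℝ) ≤ n := by exact_mod_cast h2
  have h0 : (0 : ℝ) ≤ m / n := by positivity
  have h1 : (m : ℝ) / n ≤ 1 / 2 := by rw [div_le_iff₀ hn0]; linarith
  have h3 := hs.y_le k hk
  rw [le_div_iff₀ hn0] at h3
  unfold Wall.ph
  generalize (m : ℝ) / n = a at h0 h1
  generalize w.y n k = y at y2 h3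
  have hy : |y| ≤ 1 / 1000 := by
    rw [← sq_abs] at y2
    nlinarith [abs_nonneg y]
  have hx : |(1 / 2 - a) * y| ≤ |y| / 2 := by
    rw [abs_mul, abs_of_nonneg (by linarith : 0 ≤ 1 / 2 - a)]
    nlinarith [abs_nonneg y]
  have e1 := W6a_sinh (x := (1 / 2 - a) * y) (by linarith)
  rw [← sq_abs] at e1
  have e2 : |Real.sinh ((1 / 2 - a) * y)| ≤ 1001 / 2000 * |y| := by
    nlinarith [abs_nonneg ((1 / 2 - a) * y)]
  have e3 : |Real.sinh ((1 / 2 - a) * y) / Real.cosh (y / 2)| ≤ |Real.sinh ((1 / 2 - a) * y)| := by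
    rw [abs_div, abs_of_pos (Real.cosh_pos _)]
    exact div_le_self (abs_nonneg _) (Real.one_le_cosh _)
  nlinarith [mul_le_mul_of_nonneg_left (e3.trans e2) hn0.le]

lemma W6a_shift (f : ℕ → ℝ) {N : ℕ} (hN : 1 ≤ N) :
    ∑ k ∈ Ico 1 N, f (k + 1) = ∑ k ∈ Ico 1 N, f k + f N - f 1 := by
  induction N, hN using Nat.le_induction with
  | base => simp
  | succ N hN ih =>
    rw [Finset.sum_Ico_succ_top hN, Finset.sum_Ico_succ_top hN, ih]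
    ring

lemma W6a_re (u v : ℂ) : |(u * conj v).re| ≤ ‖u‖ * ‖v‖ := by
  refine (Complex.abs_re_le_norm _).trans ?_
  rw [norm_mul, Complex.norm_conj]

omit [NeZero n] in
lemma W6a_c (hb : w.Bd n P) (k : ℕ) : 0 ≤ w.c k := by
  rcases Nat.eq_zero_or_pos k with rfl | h
  · exact hb.c_zero.ge
  rcases lt_or_ge k w.N with h' | h'
  · have := hb.P_ge
    exact le_trans (by positivity) (hb.c_ge k h h')
  · exact (hb.c_out k h').ge

omit [NeZero n] in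
lemma W6a_d2 (hb : w.Bd n P) (hs : w.Shape n L) (hL : 1000 ≤ L) {k : ℕ} (h1 : 1 ≤ k)
    (hk : k < w.N) : |w.c (k + 1) - 2 * w.c k + w.c (k - 1)| ≤ w.c k / 500 := by
  have hL' : (1000 : ℝ) ≤ L := by exact_mod_cast hL
  have hc := W6a_c hb L
  have hck := W6a_c hb k
  by_cases h : k = L
  · subst h
    refine hs.d2L.trans ?_
    rw [div_le_iff₀ (by linarith)]
    nlinarith
  · refine (hs.d2 k h1 hk h).trans ?_
    obtain ⟨hN, hn⟩ := W6a_N hs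
    have e1 := hs.c_ge k hk.le
    have e2 : (1 : ℝ) ≤ (min k (w.N - k) : ℕ) := by
      have : 1 ≤ min k (w.N - k) := by omega
      exact_mod_cast this
    have e3 : (w.N : ℝ) = 6 * L := by rw [hs.N_eq]; push_cast; ring
    rw [← e3, div_le_iff₀ (by linarith)] at e1
    have e4 : w.c L ≤ w.c k * w.N := by nlinarith
    have e5 := hs.n_ge
    have e6 : 64000 * (w.N : ℝ) ≤ n := by nlinarith
    rw [div_le_iff₀ (by linarith)]
    nlinarith [mul_le_mul_of_nonneg_left e6 hck]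

lemma W6a_Sm (hb : w.Bd n P) (hs : w.Shape n L) (h1 : n < 100 * m) (h2 : 2 * m ≤ n)
    (hL : 1000 ≤ L) (v : ℕ → ℂ) :
    3 / 20 * (m : ℝ) ^ 2 * ∑ k ∈ Ico 1 w.N, w.c k ^ 2 * ‖v k‖ ^ 2 ≤ w.Sm n m v := by
  obtain ⟨hN, hn⟩ := W6a_N hs
  have hn0 : (0 : ℝ) < n := by linarith
  have hN1 : 1 ≤ w.N := by
    have : (1 : ℝ) ≤ w.N := by linarith
    exact_mod_cast this
  have h1' : (n : ℝ) ≤ 100 * m := by exact_mod_cast h1.le
  have h2' : 2 * (m : ℝ) ≤ n := by exact_mod_cast h2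
  have ha0 : 1 / 100 ≤ (m : ℝ) / n := by rw [le_div_iff₀ hn0]; linarith
  have ha1 : (m : ℝ) / n ≤ 1 / 2 := by rw [div_le_iff₀ hn0]; linarith
  have hm : (m : ℝ) = n * (m / n) := by field_simp
  have hA := fun k (hk : k < w.N) => Ak_abs hs (m := m) (by omega) h2 hk
  unfold Wall.Sm
  generalize (m : ℝ) / n = a at ha0 ha1 hm hA
  rw [hm, mul_pow, show 3 / 20 * ((n : ℝ) ^ 2 * a ^ 2) * ∑ k ∈ Ico 1 w.N, w.c k ^ 2 * ‖v k‖ ^ 2 =
    (n : ℝ) ^ 2 * (3 / 20 * a ^ 2 * ∑ k ∈ Ico 1 w.N, w.c k ^ 2 * ‖v k‖ ^ 2) by ring]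
  refine mul_le_mul_of_nonneg_left ?_ (sq_nonneg _)
  set B := a * (1 - a) / 2 + a ^ 2 / 4 with hB
  have hsh := W6a_shift (fun k => w.c (k - 1) * w.c k * ‖v k‖ ^ 2) hN1
  simp only [Nat.add_sub_cancel, Nat.sub_self, hb.c_zero, hb.c_out w.N le_rfl, mul_zero, zero_mul,
    add_zero, sub_zero] at hsh
  calc 3 / 20 * a ^ 2 * ∑ k ∈ Ico 1 w.N, w.c k ^ 2 * ‖v k‖ ^ 2
      = ∑ k ∈ Ico 1 w.N, 3 / 20 * a ^ 2 * (w.c k ^ 2 * ‖v k‖ ^ 2) := Finset.mul_sum _ _ _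
    _ ≤ ∑ k ∈ Ico 1 w.N, (B * (w.c k * w.c (k + 1) * ‖v k‖ ^ 2) +
          B * (w.c (k - 1) * w.c k * ‖v k‖ ^ 2) - a * (1 - a) * w.c k ^ 2 * ‖v k‖ ^ 2) := by
        refine Finset.sum_le_sum fun k hk => ?_
        obtain ⟨k1, k2⟩ := Finset.mem_Ico.1 hk
        have d := (abs_le.1 (W6a_d2 hb hs hL k1 k2)).1
        have nb := hs.c_nb k k1 k2
        have c0 := W6a_c hb k
        have e1 : a * (1 - a) / 2 * (-(w.c k / 500)) ≤
            a * (1 - a) / 2 * (w.c (k + 1) - 2 * w.c k + w.c (k - 1)) :=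
          mul_le_mul_of_nonneg_left d (by nlinarith)
        have e2 : a ^ 2 / 4 * w.c k ≤ a ^ 2 / 4 * (w.c (k + 1) + w.c (k - 1)) :=
          mul_le_mul_of_nonneg_left nb (by positivity)
        have e3 : a * (1 - a) / 1000 * w.c k ≤ a ^ 2 / 10 * w.c k :=
          mul_le_mul_of_nonneg_right (by nlinarith) c0
        have e4 : 3 / 20 * a ^ 2 * w.c k ≤
            B * (w.c (k + 1) + w.c (k - 1)) - a * (1 - a) * w.c k := by
          rw [hB]; nlinarith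
        have e5 := mul_le_mul_of_nonneg_right e4 (mul_nonneg c0 (sq_nonneg ‖v k‖))
        nlinarith
    _ = ∑ k ∈ Ico 1 w.N, (B * (w.c k * w.c (k + 1) * ‖v k‖ ^ 2) +
          B * (w.c k * w.c (k + 1) * ‖v (k + 1)‖ ^ 2) - a * (1 - a) * w.c k ^ 2 * ‖v k‖ ^ 2) := by
        simp only [Finset.sum_sub_distrib, Finset.sum_add_distrib, ← Finset.mul_sum, hsh]
    _ ≤ _ := by
        refine Finset.sum_le_sum fun k hk => ?_
        obtain ⟨k1, k2⟩ := Finset.mem_Ico.1 hk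
        have e1 := hA k k2
        have e2 := W6a_re (v k) (v (k + 1))
        have e3 : w.Ak n m k * (v k * conj (v (k + 1))).re ≤ |w.Ak n m k| * (‖v k‖ * ‖v (k + 1)‖) := by
          refine (le_abs_self _).trans ?_
          rw [abs_mul]
          exact mul_le_mul_of_nonneg_left e2 (abs_nonneg _)
        have e4 : |w.Ak n m k| * (2 * (‖v k‖ * ‖v (k + 1)‖)) ≤
            |w.Ak n m k| * (‖v k‖ ^ 2 + ‖v (k + 1)‖ ^ 2) :=
          mul_le_mul_of_nonneg_left (by nlinarith [sq_nonneg (‖v k‖ - ‖v (k + 1)‖)]) (abs_nonneg _)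
        have e5 := mul_le_mul_of_nonneg_right e1 (add_nonneg (sq_nonneg ‖v k‖) (sq_nonneg ‖v (k + 1)‖))
        have e6 : B * (‖v k‖ ^ 2 + ‖v (k + 1)‖ ^ 2) ≤ w.tk n k * (‖v k‖ ^ 2 + ‖v (k + 1)‖ ^ 2) -
            2 * w.Ak n m k * (v k * conj (v (k + 1))).re := by nlinarith
        have e7 := mul_le_mul_of_nonneg_left e6 (mul_nonneg (W6a_c hb k) (W6a_c hb (k + 1)))
        nlinarith

lemma W6a_Xm (hb : w.Bd n P) (hs : w.Shape n L) (h2 : 2 * m ≤ n) (v e : ℕ → ℂ) (he : e w.N = 0) :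
    w.Xm n m v e ≤ (1 + (1001 * (w.N : ℝ)) ^ 2 / 50) * ∑ k ∈ Ico 1 w.N, w.c k ^ 2 * ‖v k‖ ^ 2 +
      51 * ∑ k ∈ Ico 1 w.N, ‖e k‖ ^ 2 := by
  obtain ⟨hN, hn⟩ := W6a_N hs
  have hN1 : 1 ≤ w.N := by
    have : (1 : ℝ) ≤ w.N := by linarith
    exact_mod_cast this
  have s1 := W6a_shift (fun k => w.c k ^ 2 * ‖v k‖ ^ 2) hN1
  have s2 := W6a_shift (fun k => ‖e k‖ ^ 2) hN1
  simp only [hb.c_out w.N le_rfl, he, norm_zero] at s1 s2
  have hp := fun k (hk : k < w.N) => ph_le hs h2 hk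
  generalize 1001 * (w.N : ℝ) = M at hp ⊢
  have key : w.Xm n m v e ≤ ∑ k ∈ Ico 1 w.N, ((1 + M ^ 2 / 100) * (w.c k ^ 2 * ‖v k‖ ^ 2) +
      M ^ 2 / 100 * (w.c (k + 1) ^ 2 * ‖v (k + 1)‖ ^ 2) + 26 * ‖e k‖ ^ 2 + 25 * ‖e (k + 1)‖ ^ 2) := by
    refine Finset.sum_le_sum fun k hk => ?_
    obtain ⟨k1, k2⟩ := Finset.mem_Ico.1 hk
    have c0 := W6a_c hb k
    have c1 := W6a_c hb (k + 1)
    have e1 := mul_le_mul_of_nonneg_left (abs_le.1 (W6a_re (v k) (e k))).1 c0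
    have e2 := mul_le_mul_of_nonneg_left (W6a_re (v (k + 1)) (e k)) c1
    have e3 := mul_le_mul_of_nonneg_left (W6a_re (v k) (e (k + 1))) c0
    have e4 : |w.c (k + 1) * (v (k + 1) * conj (e k)).re - w.c k * (v k * conj (e (k + 1))).re| ≤
        w.c (k + 1) * (‖v (k + 1)‖ * ‖e k‖) + w.c k * (‖v k‖ * ‖e (k + 1)‖) := by
      refine (abs_sub _ _).trans ?_
      rw [abs_mul, abs_mul, abs_of_nonneg c0, abs_of_nonneg c1]
      linarith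
    have e5 : n * w.ph n m k *
        (w.c (k + 1) * (v (k + 1) * conj (e k)).re - w.c k * (v k * conj (e (k + 1))).re) ≤
        M * (w.c (k + 1) * (‖v (k + 1)‖ * ‖e k‖) + w.c k * (‖v k‖ * ‖e (k + 1)‖)) := by
      refine (le_abs_self _).trans ?_
      rw [abs_mul, abs_mul, Nat.abs_cast]
      exact mul_le_mul (hp k k2) e4 (abs_nonneg _) (le_trans (by positivity) (hp k k2))
    nlinarith [sq_nonneg (w.c k * ‖v k‖ - ‖e k‖),
      sq_nonneg (M / 10 * (w.c (k + 1) * ‖v (k + 1)‖) - 5 * ‖e k‖),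
      sq_nonneg (M / 10 * (w.c k * ‖v k‖) - 5 * ‖e (k + 1)‖)]
  simp only [Finset.sum_add_distrib, ← Finset.mul_sum, s1, s2] at key
  nlinarith [mul_nonneg (sq_nonneg M) (mul_nonneg (sq_nonneg (w.c 1)) (sq_nonneg ‖v 1‖)),
    sq_nonneg ‖e 1‖]

theorem mode_high (hb : w.Bd n P) (hs : w.Shape n L) (h1 : n < 100 * m) (h2 : 2 * m ≤ n)
    (hL : 1000 ≤ L) (v e : ℕ → ℂ) (he : e w.N = 0) :
    ∑ k ∈ Ico 1 w.N, (w.c k ^ 2 * ‖v k‖ ^ 2 + ‖e k‖ ^ 2) ≤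
      w.Sm n m v + 100 * ∑ k ∈ Ico 1 w.N, ‖e k‖ ^ 2 - w.Xm n m v e := by
  have e1 := W6a_Sm hb hs h1 h2 hL v
  have e2 := W6a_Xm hb hs h2 v e he
  obtain ⟨hN, hn⟩ := W6a_N hs
  have h1' : (n : ℝ) ≤ 100 * m := by exact_mod_cast h1.le
  have e3 := hs.n_ge
  have e4 : 10 ^ 5 * (w.N : ℝ) ^ 2 ≤ m := by linarith
  have e5 : 36 ≤ (w.N : ℝ) ^ 2 := by nlinarith
  have e6 : 2 + (1001 * (w.N : ℝ)) ^ 2 / 50 ≤ 3 / 20 * (m : ℝ) ^ 2 := by nlinarith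
  have p1 : 0 ≤ ∑ k ∈ Ico 1 w.N, w.c k ^ 2 * ‖v k‖ ^ 2 := by positivity
  have p2 : 0 ≤ ∑ k ∈ Ico 1 w.N, ‖e k‖ ^ 2 := by positivity
  rw [Finset.sum_add_distrib]
  nlinarith [mul_le_mul_of_nonneg_right e6 p1]

end Pool.Agent.MP_943ae2_gt
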